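import Pool.Agent.Helper6.DG.A1Defs

/-!
# DG-A1-2: the box functional is the mean of the cube function; splitting off the vertex `0`

PROOF. `cube_eq`: `wt ω = 0 ↔ ω = fun _ => false` (`Finset.sum_eq_zero_iff`), for this vertex
`dt ω h = 0` and `cj 0 = id`, so `Finset.prod_filter_mul_prod_filter_not` (or
`Finset.prod_erase_mul`) gives the factor `g x`.
`box_eq_cube`: induction on `k`, for all `g`. `k = 0`: the product over `Fin 0 → Bool` has one
factor `g x`; `(czp 0).E F = F Fin.elim0` (`Mean.pt`, `Mean.fin_E`). `k + 1`: `box` unfolds to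
`cz.E (h ↦ box X (replicate k a) (g * conj (g ∘ T^(a h))))`; by the induction hypothesis the inner
term is the `extS X k`-mean of the cube function of `g_h := g * conj (g ∘ T^(a h))`. Pointwise
`cube X (k+1) a g (Fin.cons h h') x = cube X k a g_h h' x`: re-index `Fin (k+1) → Bool` by
`Fin.consEquiv (fun _ => Bool)` (`Fintype.prod_equiv`), `Fintype.prod_prod_type`,
`Fintype.prod_bool`; `wt (Fin.cons b ω) = (if b then 1 else 0) + wt ω`,
`dt (Fin.cons b ω) (Fin.cons h h') = (if b then h else 0) + dt ω h'` (`Fin.sum_univ_succ`);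
`cj (n + 1) z = conj (cj n z)`, `cj n (conj z) = conj (cj n z)`, `cj n (z * w) = cj n z * cj n w`;
`T^(a * (h + d)) x = T^(a * h) (T^(a * d) x)` (`zpow_add`, `Equiv.Perm.mul_apply`).
-/

set_option autoImplicit false

namespace DG

open Finset Filter Topology

private theorem cj_zero (z : ℂ) : cj 0 z = z := rfl

private theorem cj_succ (n : ℕ) (z : ℂ) : cj (n + 1) z = (starRingEnd ℂ) (cj n z) := by
  unfold cj
  rw [Function.iterate_succ_apply']

private theorem cj_conj (n : ℕ) (z : ℂ) : cj n ((starRingEnd ℂ) z) = (starRingEnd ℂ) (cj n z) := by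
  rw [← cj_succ]
  unfold cj
  rw [Function.iterate_succ_apply]

theorem cj_mul (n : ℕ) (z w : ℂ) : cj n (z * w) = cj n z * cj n w := by
  induction n with
  | zero => rfl
  | succ n ih => rw [cj_succ, cj_succ, cj_succ, ih, map_mul]

theorem cj_norm (n : ℕ) (z : ℂ) : ‖cj n z‖ = ‖z‖ := by
  induction n with
  | zero => rfl
  | succ n ih => rw [cj_succ, RCLike.norm_conj, ih]

private theorem wt_eq_zero_iff {k : ℕ} (ω : Fin k → Bool) : wt ω = 0 ↔ ω = fun _ => false := by
  unfold wt
  rw [Finset.sum_eq_zero_iff]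
  constructor
  · intro h
    funext i
    have := h i (mem_univ i)
    by_contra hc
    rw [Bool.not_eq_false] at hc
    rw [hc] at this
    simp at this
  · rintro rfl i _
    simp

theorem cube_eq (X : Sys) (k : ℕ) (a : ℤ) (g : X.S → ℂ) (h : Fin k → ℤ) (x : X.S) :
    cube X k a g h x = g x * dual X k a g h x := by
  unfold cube dual
  rw [← Finset.prod_filter_mul_prod_filter_not univ (fun ω : Fin k → Bool => wt ω ≠ 0), mul_comm]
  congr 1
  have h1 : (univ : Finset (Fin k → Bool)).filter (fun ω => ¬ wt ω ≠ 0) = {fun _ => false} := by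
    ext ω
    rw [mem_filter, mem_singleton, not_not, wt_eq_zero_iff]
    exact ⟨fun h => h.2, fun h => ⟨mem_univ _, h⟩⟩
  rw [h1, Finset.prod_singleton]
  have h2 : wt (fun _ : Fin k => false) = 0 := (wt_eq_zero_iff _).2 rfl
  have h3 : dt (fun _ : Fin k => false) h = 0 := by simp [dt]
  rw [h2, h3, cj_zero, mul_zero, zpow_zero, Equiv.Perm.one_apply]

private theorem wt_cons {k : ℕ} (b : Bool) (ω : Fin k → Bool) :
    wt (Fin.cons b ω : Fin (k + 1) → Bool) = (if b then 1 else 0) + wt ω := by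
  unfold wt
  rw [Fin.sum_univ_succ]
  simp only [Fin.cons_zero, Fin.cons_succ]

private theorem dt_cons {k : ℕ} (b : Bool) (ω : Fin k → Bool) (h : ℤ) (h' : Fin k → ℤ) :
    dt (Fin.cons b ω : Fin (k + 1) → Bool) (Fin.cons h h' : Fin (k + 1) → ℤ) =
      (if b then h else 0) + dt ω h' := by
  unfold dt
  rw [Fin.sum_univ_succ]
  simp only [Fin.cons_zero, Fin.cons_succ]

private theorem cube_succ (X : Sys) (k : ℕ) (a : ℤ) (g : X.S → ℂ) (h : ℤ) (h' : Fin k → ℤ) (x : X.S) :
    cube X (k + 1) a g (Fin.cons h h') x =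
      cube X k a (fun y => g y * (starRingEnd ℂ) (g ((X.T ^ (a * h)) y))) h' x := by
  unfold cube
  rw [← (Fin.consEquiv (fun _ : Fin (k + 1) => Bool)).prod_comp, Fintype.prod_prod_type,
    Fintype.prod_bool, ← Finset.prod_mul_distrib]
  refine Finset.prod_congr rfl fun ω _ => ?_
  have e1 : ∀ b : Bool, (Fin.consEquiv (fun _ : Fin (k + 1) => Bool)) (b, ω) =
      (Fin.cons b ω : Fin (k + 1) → Bool) := fun b => rfl
  rw [e1, e1, wt_cons, wt_cons, dt_cons, dt_cons]
  simp only [if_true, Bool.false_eq_true, if_false, zero_add]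
  rw [cj_mul, cj_conj, add_comm 1 (wt ω), cj_succ, mul_comm, mul_add, zpow_add,
    Equiv.Perm.mul_apply]

private theorem pt_E {S : Type*} (x : S) (F : S → ℂ) : (Mean.pt x).E F = F x := by
  unfold Mean.pt
  rw [Mean.fin_E]
  simp

private theorem czp_zero_E (F : (Fin 0 → ℤ) → ℂ) : (czp 0).E F = F Fin.elim0 := pt_E _ _

private theorem czp_succ_E (k : ℕ) (F : (Fin (k + 1) → ℤ) → ℂ) :
    (czp (k + 1)).E F = cz.E (fun h => (czp k).E (fun h' => F (Fin.cons h h'))) := rfl

private theorem extS_E (X : Sys) (k : ℕ) (F : (Fin k → ℤ) × X.S → ℂ) :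
    (extS X k).μ.E F = (czp k).E (fun h => X.μ.E (fun x => F (h, x))) := rfl

theorem box_eq_cube (X : Sys) (k : ℕ) (a : ℤ) (g : X.S → ℂ) :
    box X (List.replicate k a) g = (extS X k).μ.E (fun p => cube X k a g p.1 p.2) := by
  induction k generalizing g with
  | zero =>
    rw [extS_E, czp_zero_E]
    show X.μ.E g = _
    congr 1
    funext x
    unfold cube
    rw [Fintype.prod_unique]
    have h1 : ∀ ω : Fin 0 → Bool, wt ω = 0 := fun ω => by simp [wt]
    have h2 : ∀ ω : Fin 0 → Bool, dt ω Fin.elim0 = 0 := fun ω => by simp [dt]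
    simp only [h1, h2, cj_zero, mul_zero, zpow_zero, Equiv.Perm.one_apply]
  | succ k ih =>
    rw [List.replicate_succ, extS_E, czp_succ_E]
    show cz.E (fun h => box X (List.replicate k a)
      (fun x => g x * (starRingEnd ℂ) (g ((X.T ^ (a * h)) x)))) = _
    congr 1
    funext h
    rw [ih, extS_E]
    congr 1
    funext h'
    congr 1
    funext x
    exact (cube_succ X k a g h h' x).symm

end DG
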