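import Pool.Agent.Helper6.DG.A1Defs

/-!
# DG-A1-1: translation invariance of `cz` and `czp`

PROOF. `cz_shift`: for `f` bounded by `C` and fixed `n`, `(fej N).E (f (. + 1)) - (fej N).E f`:
by `fej_E` the difference is `(N+1)^(-2) * ∑_j ∑_i (f (i + 1 - j) - f (i - j))`, the inner sum
telescopes to `f (N + 1 - j) - f (-j)`, so the norm is `≤ 2 C / (N + 1) → 0`. Both sides converge
along `hyperfilter ℕ` (`cz_tendsto`), the difference tends to `0` along `atTop ≥ hyperfilter ℕ`
(`Nat.hyperfilter_le_atTop`), so the limits agree (`tendsto_nhds_unique`). This is the case `n = 1`;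
general `n` by induction (`Int.induction_on`, apply the case `1` to `h ↦ f (h + n)`).
`czp_shift`: induction on `k`. `k = 0`: all functions `Fin 0 → ℤ` are equal (`Subsingleton`).
`k + 1`: unfold `czp`, `Mean.map_E`, `Mean.prod_E`. `Fin.cons a b` shifted by `v` is
`Fin.cons (a + v 0) (b + Fin.tail v)` (funext, `Fin.cases`). Apply the induction hypothesis inside,
then `cz_shift` outside (the function `a ↦ (czp k).E (...)` is bounded by `Mean.norm_E_le`).
-/

set_option autoImplicit false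

namespace DG

open Finset Filter Topology

private theorem fej_shift_one (N : ℕ) (f : ℤ → ℂ) {C : ℝ} (hC : ∀ x, ‖f x‖ ≤ C) :
    ‖(fej N).E (fun h => f (h + 1)) - (fej N).E f‖ ≤ 2 * C / ((N : ℝ) + 1) := by
  have hN : (0 : ℝ) < (N : ℝ) + 1 := by positivity
  have h1 : (fej N).E (fun h => f (h + 1)) - (fej N).E f =
      (∑ j ∈ range (N + 1), (f (((N + 1 : ℕ) : ℤ) - (j : ℤ)) - f (((0 : ℕ) : ℤ) - (j : ℤ)))) /
        ((N + 1 : ℕ) : ℂ) ^ 2 := by
    rw [fej_E, fej_E, ← sub_div]
    congr 1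
    rw [Finset.sum_comm, Finset.sum_comm (f := fun i j : ℕ => f ((i : ℤ) - (j : ℤ))),
      ← Finset.sum_sub_distrib]
    apply Finset.sum_congr rfl
    intro j _
    rw [← Finset.sum_sub_distrib, ← Finset.sum_range_sub (fun i : ℕ => f ((i : ℤ) - (j : ℤ)))]
    apply Finset.sum_congr rfl
    intro i _
    congr 2
    push_cast
    ring
  rw [h1, norm_div, norm_pow, Complex.norm_natCast]
  have h2 : ‖∑ j ∈ range (N + 1), (f (((N + 1 : ℕ) : ℤ) - (j : ℤ)) -
      f (((0 : ℕ) : ℤ) - (j : ℤ)))‖ ≤ ((N : ℝ) + 1) * (2 * C) := by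
    refine (norm_sum_le _ _).trans ?_
    have h3 : ∀ j ∈ range (N + 1), ‖f (((N + 1 : ℕ) : ℤ) - (j : ℤ)) -
        f (((0 : ℕ) : ℤ) - (j : ℤ))‖ ≤ 2 * C := by
      intro j _
      refine (norm_sub_le _ _).trans ?_
      have h4 := hC (((N + 1 : ℕ) : ℤ) - (j : ℤ))
      have h5 := hC (((0 : ℕ) : ℤ) - (j : ℤ))
      linarith
    refine (Finset.sum_le_card_nsmul _ _ _ h3).trans (le_of_eq ?_)
    rw [card_range, nsmul_eq_mul]
    push_cast
    ring
  rw [div_le_div_iff₀ (by positivity) hN]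
  push_cast
  calc _ ≤ ((N : ℝ) + 1) * (2 * C) * ((N : ℝ) + 1) := mul_le_mul_of_nonneg_right h2 hN.le
    _ = _ := by ring

private theorem cz_shift_one (f : ℤ → ℂ) (hf : Bd f) : cz.E (fun h => f (h + 1)) = cz.E f := by
  obtain ⟨C, hC⟩ := hf
  have hf : Bd f := ⟨C, hC⟩
  have h1 := cz_tendsto (fun h => f (h + 1)) (hf.comp _)
  have h3 := h1.sub (cz_tendsto f hf)
  have h5 : Tendsto (fun N : ℕ => 2 * C / ((N : ℝ) + 1)) atTop (𝓝 0) :=
    tendsto_const_nhds.div_atTop (tendsto_natCast_atTop_atTop.atTop_add tendsto_const_nhds)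
  have h4 : Tendsto (fun N => (fej N).E (fun h => f (h + 1)) - (fej N).E f)
      (hyperfilter ℕ : Filter ℕ) (𝓝 0) :=
    squeeze_zero_norm (fun N => fej_shift_one N f hC) (h5.mono_left Nat.hyperfilter_le_atTop)
  exact sub_eq_zero.1 (tendsto_nhds_unique h3 h4)

theorem cz_shift (f : ℤ → ℂ) (hf : Bd f) (n : ℤ) : cz.E (fun h => f (h + n)) = cz.E f := by
  induction n using Int.induction_on with
  | zero => simp only [add_zero]
  | succ n ih =>
    have h := cz_shift_one (fun h => f (h + n)) (hf.comp _)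
    rw [ih] at h
    rw [← h]
    congr 1
    funext x
    congr 1
    ring
  | pred n ih =>
    have h := cz_shift_one (fun h => f (h + (-(n : ℤ) - 1))) (hf.comp _)
    rw [← h, ← ih]
    congr 1
    funext x
    congr 1
    ring

theorem czp_shift (k : ℕ) (f : (Fin k → ℤ) → ℂ) (hf : Bd f) (v : Fin k → ℤ) :
    (czp k).E (fun h => f (fun i => h i + v i)) = (czp k).E f := by
  induction k with
  | zero =>
    congr 1
    funext h
    exact congrArg f (Subsingleton.elim _ _)
  | succ k ih =>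
    unfold czp
    rw [Mean.map_E, Mean.map_E, Mean.prod_E, Mean.prod_E]
    have h1 : ∀ x : ℤ, (czp k).E (fun y => f (fun i => (Fin.cons x y : Fin (k + 1) → ℤ) i + v i)) =
        (czp k).E (fun y => f (Fin.cons (x + v 0) y)) := by
      intro x
      have h2 := ih (fun y => f (Fin.cons (x + v 0) y)) (hf.comp _) (fun i => v i.succ)
      rw [← h2]
      congr 1
      funext y
      congr 1
      funext i
      refine Fin.cases ?_ (fun j => ?_) i
      · simp only [Fin.cons_zero]
      · simp only [Fin.cons_succ]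
    simp only [h1]
    obtain ⟨C, hC⟩ := hf
    exact cz_shift (fun x => (czp k).E (fun y => f (Fin.cons x y)))
      ⟨C, fun x => (czp k).norm_E_le _ (fun y => hC _)⟩ (v 0)

end DG
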