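import Pool.Agent.Helper6.DG.Defs

/-!
# Project DIAG, part A1: definitions (iterated mean on `ℤ^k`, extended system, dual functions)
-/

set_option autoImplicit false

namespace DG

open Finset Filter Topology

/-- The point mass at `x`. -/
noncomputable def Mean.pt {S : Type*} (x : S) : Mean S :=
  Mean.fin (range 1) (fun _ => 1) (fun _ => x) (fun _ _ => zero_le_one) (by simp)

/-- The image of a mean. -/
noncomputable def Mean.map {S S' : Type*} (μ : Mean S) (φ : S → S') : Mean S' where
  E :=
    { toFun := fun F => μ.E (fun x => F (φ x))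
      map_add' := fun F G => μ.E_add (fun x => F (φ x)) (fun x => G (φ x))
      map_smul' := fun c F => μ.E_const_mul c (fun x => F (φ x)) }
  one := μ.one
  nonneg := fun f h0 hC => μ.nonneg (fun x => f (φ x)) (fun x => h0 _)
    (by obtain ⟨C, hC⟩ := hC; exact ⟨C, fun x => hC _⟩)

theorem Mean.map_E {S S' : Type*} (μ : Mean S) (φ : S → S') (F : S' → ℂ) :
    (μ.map φ).E F = μ.E (fun x => F (φ x)) := rfl

/-- The iterated mean on `ℤ^k`; the variable with index `0` is the outermost one. -/
noncomputable def czp : (k : ℕ) → Mean (Fin k → ℤ)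
  | 0 => Mean.pt Fin.elim0
  | k + 1 => (cz.prod (czp k)).map (fun p => Fin.cons p.1 p.2)

/-- `ω · h` for a vertex `ω` of the cube. -/
def dt {k : ℕ} (ω : Fin k → Bool) (h : Fin k → ℤ) : ℤ := ∑ i, if ω i then h i else 0

/-- The number of ones of `ω`. -/
def wt {k : ℕ} (ω : Fin k → Bool) : ℕ := ∑ i, if ω i then 1 else 0

/-- `n`-fold complex conjugation. -/
noncomputable def cj (n : ℕ) (z : ℂ) : ℂ := (starRingEnd ℂ)^[n] z

/-- The cube function. -/
noncomputable def cube (X : Sys) (k : ℕ) (a : ℤ) (g : X.S → ℂ) (h : Fin k → ℤ) (x : X.S) : ℂ :=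
  ∏ ω : Fin k → Bool, cj (wt ω) (g ((X.T ^ (a * dt ω h)) x))

/-- The dual function: the cube function without the vertex `0`. -/
noncomputable def dual (X : Sys) (k : ℕ) (a : ℤ) (g : X.S → ℂ) (h : Fin k → ℤ) (x : X.S) : ℂ :=
  ∏ ω ∈ (univ : Finset (Fin k → Bool)).filter (fun ω => wt ω ≠ 0),
    cj (wt ω) (g ((X.T ^ (a * dt ω h)) x))

/-- The factor of slope `i` of the dual function after the shift of the cube. -/
noncomputable def slf (X : Sys) (k : ℕ) (a : ℤ) (g : X.S → ℂ) (i : ℕ) (p : (Fin k → ℤ) × X.S) : ℂ :=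
  ∏ ω ∈ (univ : Finset (Fin k → Bool)).filter (fun ω => wt ω + i = k),
    cj (wt ω) (g ((X.T ^ ((wt ω : ℤ) + a * dt ω p.1)) p.2))

/-- The system `ℤ^k × S` with `T` acting on the second coordinate and the iterated mean. -/
noncomputable def extS (X : Sys) (k : ℕ) : Sys where
  S := (Fin k → ℤ) × X.S
  T := (Equiv.refl _).prodCongr X.T
  μ := (czp k).prod X.μ
  inv := by
    intro f hf
    rw [Mean.prod_E, Mean.prod_E]
    congr 1
    funext h
    exact X.inv (fun x => f (h, x)) (hf.comp _)

end DG
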