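import Pool.Agent.Helper6.DG.A1Defs

/-!
# DG-A1-4: generic averages (the weak limit is attained by a convex combination up to `η`)

Statement: `Φ r`, `r : P`, functions bounded by `B`, `U` an ultrafilter on `P`, `η > 0`. There is a
convex combination `g` of the `Φ r` such that for EVERY mean `μ'` on `S'` and every map
`φ : S' → S` with `μ' (f ∘ φ) = μ f` for bounded `f`, every bounded `F` on `S'` and every limit `lam`
of `μ' (Φ r ∘ φ * F)` along `U`: `‖lam - μ' (g ∘ φ * F)‖² ≤ η * N2 F`.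

PROOF. For `A ∈ U` let `K A = convexHull ℝ (Φ '' A)` and `d A = sInf (μ.N2 '' K A) ∈ [0, B²]`
(nonempty, bounded below by `0`). `A ↦ d A` is antitone; let `β = sSup {d A | A ∈ U} ≤ B²`. With
`η' = η / 32` choose `A₀ ∈ U` with `d A₀ ≥ β - η'` and `g ∈ K A₀` with `μ.N2 g ≤ β + η'`.
Let `μ', φ, F, lam` be given and `t > 0`. `A = A₀ ∩ {r | ‖μ' (Φ r ∘ φ * F) - lam‖ ≤ t} ∈ U`. Choose
`g' ∈ K A` with `μ.N2 g' ≤ d A + η' ≤ β + η'`. Then
(i) `‖μ' (g' ∘ φ * F) - lam‖ ≤ t`: the set of the functions `u` with this property is convex and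
contains `Φ '' A` (`convexHull_min`).
(ii) `(1/2) (g + g') ∈ K A₀` (convexity, `K A ⊆ K A₀`), so its `N2` is `≥ β - η'`; parallelogram law
`N2 ((g - g')/2) = (N2 g + N2 g')/2 - N2 ((g + g')/2) ≤ 2 η'`, so `μ.N2 (g - g') ≤ 8 η'`.
The parallelogram law is pointwise: `‖u‖² + ‖v‖² = 2 (‖(u+v)/2‖² + ‖(u-v)/2‖²)`, then `R_add`,
`R_const_mul`.
(iii) `μ'.N2 (f ∘ φ) = μ.N2 f` for bounded `f` (from `hφ` applied to the function `‖f‖²`), so by
`Mean.cs`: `‖μ' ((g - g') ∘ φ * F)‖² ≤ 8 η' * μ'.N2 F`.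
Hence `‖lam - μ' (g ∘ φ * F)‖ ≤ t + sqrt (8 η' N2 F)` for all `t > 0`; let `t → 0`.
All functions of the convex hull are bounded by `B` (`convexHull_min` with the convex set
`{u | ∀ x, ‖u x‖ ≤ B}`).
-/

set_option autoImplicit false

namespace DG

open Finset Filter Topology

private lemma hull_bdd {P S : Type} {Φ : P → S → ℂ} {B : ℝ} (hΦ : ∀ r x, ‖Φ r x‖ ≤ B) (A : Set P)
    {u : S → ℂ} (hu : u ∈ convexHull ℝ (Φ '' A)) (x : S) : ‖u x‖ ≤ B := by
  have hconv : Convex ℝ {u : S → ℂ | ∀ x, ‖u x‖ ≤ B} := by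
    intro u hu v hv a b ha hb hab x
    have h1 : ‖(a • u + b • v) x‖ ≤ a * ‖u x‖ + b * ‖v x‖ := by
      rw [Pi.add_apply, Pi.smul_apply, Pi.smul_apply]
      refine (norm_add_le _ _).trans ?_
      rw [norm_smul, norm_smul, Real.norm_of_nonneg ha, Real.norm_of_nonneg hb]
    have h2 : a * ‖u x‖ ≤ a * B := mul_le_mul_of_nonneg_left (hu x) ha
    have h3 : b * ‖v x‖ ≤ b * B := mul_le_mul_of_nonneg_left (hv x) hb
    have h4 : a * B + b * B = B := by rw [← add_mul, hab, one_mul]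
    linarith
  have hsub : Φ '' A ⊆ {u : S → ℂ | ∀ x, ‖u x‖ ≤ B} := by
    rintro _ ⟨r, _, rfl⟩ x
    exact hΦ r x
  exact convexHull_min hsub hconv hu x

private lemma N2_para {S : Type} (μ : Mean S) {g g' : S → ℂ} :
    μ.N2 (fun x => g x - g' x) = 2 * μ.N2 g + 2 * μ.N2 g' -
      4 * μ.N2 ((1 / 2 : ℝ) • g + (1 / 2 : ℝ) • g') := by
  unfold Mean.N2
  rw [← μ.R_const_mul, ← μ.R_const_mul, ← μ.R_const_mul, ← μ.R_add, ← μ.R_sub]
  congr 1
  funext x
  have h1 := parallelogram_law_with_norm ℝ (g x) (g' x)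
  have h2 : ((1 / 2 : ℝ) • g + (1 / 2 : ℝ) • g') x = (1 / 2 : ℝ) • (g x + g' x) := by
    rw [Pi.add_apply, Pi.smul_apply, Pi.smul_apply, smul_add]
  rw [h2, norm_smul, mul_pow]
  have h3 : ‖(1 / 2 : ℝ)‖ ^ 2 = 1 / 4 := by norm_num
  rw [h3]
  nlinarith

theorem generic {P S : Type} (μ : Mean S) (U : Ultrafilter P) (Φ : P → S → ℂ) (B : ℝ)
    (hΦ : ∀ r x, ‖Φ r x‖ ≤ B) (η : ℝ) (hη : 0 < η) :
    ∃ g : S → ℂ, (∀ x, ‖g x‖ ≤ B) ∧ ∀ (S' : Type) (μ' : Mean S') (φ : S' → S),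
      (∀ f : S → ℂ, Bd f → μ'.E (fun y => f (φ y)) = μ.E f) →
      ∀ (F : S' → ℂ), Bd F → ∀ lam : ℂ,
        Tendsto (fun r => μ'.E (fun y => Φ r (φ y) * F y)) U (𝓝 lam) →
        ‖lam - μ'.E (fun y => g (φ y) * F y)‖ ^ 2 ≤ η * μ'.N2 F := by
  classical
  set K : Set P → Set (S → ℂ) := fun A => convexHull ℝ (Φ '' A) with hK
  set d : Set P → ℝ := fun A => sInf (μ.N2 '' K A) with hd
  have hKB : ∀ A, ∀ u ∈ K A, ∀ x, ‖u x‖ ≤ B := fun A u hu x => hull_bdd hΦ A hu x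
  have hBd : ∀ A, ∀ u ∈ K A, Bd u := fun A u hu => ⟨B, hKB A u hu⟩
  have hne : ∀ A ∈ U, (K A).Nonempty := by
    intro A hA
    obtain ⟨r, hr⟩ := Filter.nonempty_of_mem (f := (U : Filter P)) hA
    exact ⟨Φ r, subset_convexHull ℝ _ ⟨r, hr, rfl⟩⟩
  have hbelow : ∀ A, BddBelow (μ.N2 '' K A) := by
    intro A
    refine ⟨0, ?_⟩
    rintro _ ⟨u, hu, rfl⟩
    exact μ.N2_nonneg u (hBd A u hu)
  have hdle : ∀ A, ∀ u ∈ K A, d A ≤ μ.N2 u := fun A u hu => csInf_le (hbelow A) ⟨u, hu, rfl⟩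
  have hdB : ∀ A ∈ U, d A ≤ B ^ 2 := by
    intro A hA
    obtain ⟨u, hu⟩ := hne A hA
    exact (hdle A u hu).trans (μ.N2_le u (hKB A u hu))
  set D : Set ℝ := {t | ∃ A ∈ U, t = d A} with hD
  have hDne : D.Nonempty := ⟨d Set.univ, Set.univ, Filter.univ_mem, rfl⟩
  have hDb : BddAbove D := by
    refine ⟨B ^ 2, ?_⟩
    rintro _ ⟨A, hA, rfl⟩
    exact hdB A hA
  set β : ℝ := sSup D with hβ
  have hdβ : ∀ A ∈ U, d A ≤ β := fun A hA => le_csSup hDb ⟨A, hA, rfl⟩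
  set e : ℝ := η / 32 with he
  have he0 : 0 < e := by positivity
  obtain ⟨_, ⟨A₀, hA₀, rfl⟩, hA₀'⟩ := exists_lt_of_lt_csSup hDne (show β - e < sSup D by linarith)
  have hpick : ∀ A ∈ U, ∃ u ∈ K A, μ.N2 u ≤ β + e := by
    intro A hA
    have h1 : sInf (μ.N2 '' K A) < β + e := by
      have := hdβ A hA
      change d A < β + e
      linarith
    obtain ⟨_, ⟨u, hu, rfl⟩, h2⟩ := exists_lt_of_csInf_lt ((hne A hA).image _) h1
    exact ⟨u, hu, h2.le⟩
  obtain ⟨g, hg, hgN⟩ := hpick A₀ hA₀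
  refine ⟨g, hKB A₀ g hg, ?_⟩
  intro S' μ' φ hφ F hF lam hlam
  have hFN : 0 ≤ μ'.N2 F := μ'.N2_nonneg F hF
  set L : (S → ℂ) → ℂ := fun u => μ'.E (fun y => u (φ y) * F y) with hL
  have hLadd : ∀ (a b : ℝ) (u v : S → ℂ), L (a • u + b • v) = (a : ℂ) * L u + (b : ℂ) * L v := by
    intro a b u v
    simp only [hL]
    rw [← μ'.E_const_mul, ← μ'.E_const_mul, ← μ'.E_add]
    congr 1
    funext y
    rw [Pi.add_apply, Pi.smul_apply, Pi.smul_apply, Complex.real_smul, Complex.real_smul]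
    ring
  have key : ∀ t : ℝ, 0 < t → ‖lam - L g‖ ≤ Real.sqrt (8 * e * μ'.N2 F) + t := by
    intro t ht
    have hev : {r | ‖L (Φ r) - lam‖ ≤ t} ∈ U := by
      have h1 := (Metric.tendsto_nhds.1 hlam) t ht
      refine Filter.mem_of_superset h1 ?_
      intro r hr
      have h2 : dist (L (Φ r)) lam < t := hr
      rw [dist_eq_norm] at h2
      exact h2.le
    obtain ⟨g', hg', hgN'⟩ := hpick (A₀ ∩ {r | ‖L (Φ r) - lam‖ ≤ t}) (Filter.inter_mem hA₀ hev)
    have h1 : ‖L g' - lam‖ ≤ t := by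
      have hconv : Convex ℝ {u : S → ℂ | ‖L u - lam‖ ≤ t} := by
        intro u hu v hv a b ha hb hab
        have hu' : ‖L u - lam‖ ≤ t := hu
        have hv' : ‖L v - lam‖ ≤ t := hv
        have e1 : L (a • u + b • v) - lam = (a : ℂ) * (L u - lam) + (b : ℂ) * (L v - lam) := by
          have e2 : (a : ℂ) + b = 1 := by exact_mod_cast hab
          rw [hLadd]
          linear_combination lam * e2
        change ‖L (a • u + b • v) - lam‖ ≤ t
        rw [e1]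
        refine (norm_add_le _ _).trans ?_
        rw [norm_mul, norm_mul, Complex.norm_real, Complex.norm_real, Real.norm_of_nonneg ha,
          Real.norm_of_nonneg hb]
        have e3 := mul_le_mul_of_nonneg_left hu' ha
        have e4 := mul_le_mul_of_nonneg_left hv' hb
        have e5 : a * t + b * t = t := by rw [← add_mul, hab, one_mul]
        linarith
      have hsub : Φ '' (A₀ ∩ {r | ‖L (Φ r) - lam‖ ≤ t}) ⊆ {u : S → ℂ | ‖L u - lam‖ ≤ t} := by
        rintro _ ⟨r, hr, rfl⟩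
        exact hr.2
      exact convexHull_min hsub hconv hg'
    have hg'0 : g' ∈ K A₀ :=
      convexHull_mono (Set.image_mono Set.inter_subset_left) hg'
    have hmid : (1 / 2 : ℝ) • g + (1 / 2 : ℝ) • g' ∈ K A₀ :=
      convex_convexHull ℝ _ hg hg'0 (by norm_num) (by norm_num) (by norm_num)
    have h2 : μ.N2 (fun x => g x - g' x) ≤ 8 * e := by
      rw [N2_para]
      have h3 := hdle A₀ _ hmid
      linarith
    have hBg : Bd (fun x => g x - g' x) := (hBd A₀ g hg).sub (hBd A₀ g' hg'0)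
    have h3 : μ'.N2 (fun y => g (φ y) - g' (φ y)) = μ.N2 (fun x => g x - g' x) := by
      unfold Mean.N2 Mean.R
      obtain ⟨C, hC⟩ := hBg
      rw [← hφ (fun x => ((‖g x - g' x‖ ^ 2 : ℝ) : ℂ))
        (Bd.ofReal_of_bdd (fun x => Mean.sq_bdd hC x))]
    have h4 := μ'.cs (fun y => g (φ y) - g' (φ y)) F (hBg.comp φ) hF
    rw [h3] at h4
    have h5 : μ'.E (fun y => (g (φ y) - g' (φ y)) * F y) = L g - L g' := by
      simp only [hL]
      rw [← μ'.E_sub]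
      congr 1
      funext y
      ring
    rw [h5] at h4
    have h6 : ‖L g - L g'‖ ≤ Real.sqrt (8 * e * μ'.N2 F) := by
      apply Real.le_sqrt_of_sq_le
      exact h4.trans (mul_le_mul_of_nonneg_right h2 hFN)
    have h7 : lam - L g = (lam - L g') - (L g - L g') := by ring
    rw [h7]
    refine (norm_sub_le _ _).trans ?_
    rw [norm_sub_rev] at h1
    linarith
  have hfin : ‖lam - L g‖ ≤ Real.sqrt (8 * e * μ'.N2 F) := le_of_forall_pos_le_add key
  have h8 : 0 ≤ 8 * e * μ'.N2 F := by positivity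
  calc ‖lam - L g‖ ^ 2 ≤ Real.sqrt (8 * e * μ'.N2 F) ^ 2 :=
        pow_le_pow_left₀ (norm_nonneg _) hfin 2
    _ = 8 * e * μ'.N2 F := Real.sq_sqrt h8
    _ ≤ η * μ'.N2 F := by
        apply mul_le_mul_of_nonneg_right _ hFN
        rw [he]
        linarith

end DG
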