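import Pool.Agent.Helper6.DG.A1Defs

/-!
# DG-A1-3: slope reduction

PROOF. For a vertex `ω` with `wt ω ≠ 0` put `i = k - wt ω` (so `i < k`, `wt ω + i = k`;
`wt ω ≤ k` by `Finset.sum_le_card_nsmul`). `dt ω (h - m₁) = dt ω h - wt ω * m₁`, so the exponent is
`a * dt ω h - a * wt ω * m₁ + k * m = a * dt ω h - wt ω * (m - 1) + k * m =
(wt ω + a * dt ω h) + i * m`. Composition of powers: `zpow_add`, `Equiv.Perm.mul_apply`. Regroup the
product over the vertices with `wt ω ≠ 0` according to `i` (`Finset.prod_fiberwise_of_maps_to`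
with the map `ω ↦ k - wt ω` into `range k`); the fibre over `i < k` is `{ω | wt ω + i = k}`.
-/

set_option autoImplicit false

namespace DG

open Finset Filter Topology

private theorem wt_le_card {k : ℕ} (ω : Fin k → Bool) : wt ω ≤ k := by
  unfold wt
  have h := Finset.sum_le_card_nsmul (univ : Finset (Fin k)) (fun i => if ω i then 1 else 0) 1
    (fun i _ => by split_ifs <;> omega)
  simpa using h

private theorem dt_shift {k : ℕ} (ω : Fin k → Bool) (h : Fin k → ℤ) (c : ℤ) :
    dt ω (fun i => h i + c) = dt ω h + wt ω * c := by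
  unfold dt wt
  push_cast
  rw [Finset.sum_mul, ← Finset.sum_add_distrib]
  refine Finset.sum_congr rfl fun i _ => ?_
  split_ifs <;> simp

theorem dual_slope (X : Sys) (k : ℕ) (a : ℤ) (g : X.S → ℂ) (m m₁ : ℤ) (hm : m = 1 + a * m₁)
    (h : Fin k → ℤ) (x : X.S) :
    dual X k a g (fun i => h i + (- m₁)) ((X.T ^ ((k : ℤ) * m)) x) =
      ∏ i ∈ range k, slf X k a g i (h, (X.T ^ ((i : ℤ) * m)) x) := by
  unfold dual
  rw [← Finset.prod_fiberwise_of_maps_to (s := (univ : Finset (Fin k → Bool)).filter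
    (fun ω => wt ω ≠ 0)) (t := range k) (g := fun ω => k - wt ω)]
  · refine Finset.prod_congr rfl fun i hi => ?_
    unfold slf
    have hik := mem_range.1 hi
    have hset : ((univ : Finset (Fin k → Bool)).filter (fun ω => wt ω ≠ 0)).filter
        (fun ω => k - wt ω = i) = (univ : Finset (Fin k → Bool)).filter (fun ω => wt ω + i = k) := by
      ext ω
      have := wt_le_card ω
      simp only [mem_filter, mem_univ, true_and]
      omega
    rw [hset]
    refine Finset.prod_congr rfl fun ω hω => ?_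
    have hw : wt ω + i = k := (mem_filter.1 hω).2
    have hk : (k : ℤ) = wt ω + i := by omega
    congr 2
    show (X.T ^ (a * dt ω (fun i => h i + (- m₁)))) ((X.T ^ ((k : ℤ) * m)) x) =
      (X.T ^ ((wt ω : ℤ) + a * dt ω h)) ((X.T ^ ((i : ℤ) * m)) x)
    rw [← Equiv.Perm.mul_apply, ← Equiv.Perm.mul_apply, ← zpow_add, ← zpow_add]
    congr 2
    rw [dt_shift, hk, hm]
    ring
  · intro ω hω
    have h1 : wt ω ≠ 0 := (mem_filter.1 hω).2
    have h2 := wt_le_card ω
    rw [mem_range]
    omega

end DG
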