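import Pool.Agent.Helper6.DG.A1Cz
import Pool.Agent.Helper6.DG.A1Cube
import Pool.Agent.Helper6.DG.A1Slope
import Pool.Agent.Helper6.DG.A1Gen

/-!
# DG-A1-5: the induction

PROOF. `st_zero`: `cor X 0 G m x = G 0 x` does not depend on `m`, so
`W (c r) (fun m => cor ..) = G 0 x * W (c r) (fun _ => 1) = 0`.
`st_step` (`St (k-1)` and `Core k` give `St k`, `k ≥ 1`; write `k = n + 1`). By scaling each `G i`
(`i ≤ k`) may be assumed bounded by `1` (if `‖G i x‖ ≤ B i`, `B i ≥ 1`, replace `G i` by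
`G i / B i`; `cor` is multilinear: it is divided by `∏ B i`; and put `G i = 0` for `i > k`).
Suppose the limit `lam` of `E[C r * W (c r) (cor X k G)]` along `U` (it exists, `exists_lim`, the
sequence is bounded by `2`) is `≠ 0`; put `a = ‖lam‖`, multiply `G k` by a unimodular constant:
`lam = a > 0`. Put
`Φ r x = C r x * W (c r) (fun m => ∏ i ∈ range k, G i (T^((i - k) m) x))`, `‖Φ r x‖ ≤ 2`. For each
`m`: `E[C r * cor X k G m] = E[C r * ∏_{i<k} G i ∘ T^((i-k) m) * G k]` (`Sys.inv_zpow` with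
`-(k m)`, `C r` is invariant), so `E[Φ r * F] = E[C r * W (c r) (cor with last function F)]` for
every bounded `F` (`E_sum`, `E_const_mul`).
(1) Let `b > 0` be given by `Core k` for `a₁ = (a/4)^2/2`... (any explicit choice; see below). Let
`g` be given by `generic` with `B = 2` and `η` small. For `μ' = μ`, `φ = id`:
`‖lamF - E[g F]‖² ≤ η N2 F` for all bounded `F`, `lamF = lim E[Φ r F]`. With `F = G k`:
`a ≤ ‖E[g G k]‖ + √η ≤ √(N2 g) + √η`. With `F = conj g`: `lamF` is within `2 √η` of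
`E[g conj g] = N2 g ≥ (a - √η)²`. So for `η` small (depending on `a` only, e.g. `√η ≤ a²/100`,
`a ≤ 2`), `‖lim E[Φ r conj g]‖ ≥ a²/2`, hence for `U`-many `r` (even eventually)
`‖E[Φ r * (conj g / 2)]‖ ≥ a²/8`. For these `r` the functions `G' 0 = C r * G 0`, `G' i = G i`,
`G' k = conj g / 2` show that the hypothesis of `Core k` holds with `a²/8` (`k ≥ 1`; `C r` is
invariant so it can be moved into the function of slope `0`). So there is `q > 0` with
`b ≤ re box X (replicate k q) (conj g / 2)`, `b = b (a²/8)` does NOT depend on `η`: fix `b` first.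
(2) `box (conj g / 2) = 2^(-2^k) * conj (box g)` (by `box_eq_cube`: `cube` of `c * conj g` for real
`c` is `c^(2^k)` times the conjugate of the cube of `g`; `E_conj`). So
`‖(extS X k).μ.E (cube X k q g)‖ ≥ b`. By `cube_eq` this is `E'[g * dual]`, `E'` the mean of
`extS X k`, `N2' (dual) ≤ (2^(2^k))^2`.
(3) `generic` with `S' = (Fin k → ℤ) × S`, `φ = Prod.snd` (`E' (f ∘ snd) = E f`: `prod_E`,
`E_const`): the limit `lam'` of `E'[Φ r ∘ snd * dual]` along `U` satisfies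
`‖lam' - E'[g dual]‖² ≤ η * 4^(2^k)`, so `lam' ≠ 0` if `η < b² / 4^(2^k)`.
(4) Slope reduction: for `U`-many `r` all `m` in the support of `c r` satisfy `q ∣ m - 1`; for such
`m = 1 + q m₁`: `E'[C r * ∏_{i<k} G i ∘ T^((i-k)m) * dual]` `=` (apply `T^(k m)`, `Sys.inv_zpow` of
`extS X k`) `E'[C r * ∏_{i<k} G i ∘ T^(i m) * dual (h, T^(k m) x)]` `=` (`czp_shift` by `-m₁`)
`E'[C r * ∏_{i<k} G i (T^(i m) x) * dual (h - m₁, T^(k m) x)]` `=` (`dual_slope`)
`E'[C r * ∏_{i<k} (G i (T^(i m) x) * slf i (h, T^(i m) x))]` `=`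
`E'[C r * cor (extS X k) (k-1) G'' m]`, `G'' i (h, x) = G i x * slf X k q g i (h, x)` (bounded).
Hence `lam' = lim E'[C r * W (c r) (cor (extS X k) (k-1) G'')] = 0` by `St (k-1)`, contradiction.
`stInduction`: induction on `k`.
-/

set_option autoImplicit false

namespace DG

open Finset Filter Topology

private theorem W_norm (c : ℤ →₀ ℝ) (a : ℤ → ℂ) (B : ℝ) (hc : ∑ m ∈ c.support, |c m| ≤ 2)
    (ha : ∀ m, ‖a m‖ ≤ B) : ‖W c a‖ ≤ 2 * B := by
  have hB : 0 ≤ B := (norm_nonneg _).trans (ha 0)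
  unfold W
  calc ‖∑ m ∈ c.support, (c m : ℂ) * a m‖ ≤ ∑ m ∈ c.support, |c m| * B := by
        refine norm_sum_le_of_le _ fun m _ => ?_
        rw [norm_mul, Complex.norm_real, Real.norm_eq_abs]
        exact mul_le_mul_of_nonneg_left (ha m) (abs_nonneg _)
    _ = (∑ m ∈ c.support, |c m|) * B := by rw [Finset.sum_mul]
    _ ≤ 2 * B := mul_le_mul_of_nonneg_right hc hB

private theorem E_W {S : Type*} (μ : Mean S) (c : ℤ →₀ ℝ) (D : S → ℂ) (A : ℤ → S → ℂ) :
    μ.E (fun x => D x * W c (fun m => A m x)) =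
      ∑ m ∈ c.support, (c m : ℂ) * μ.E (fun x => D x * A m x) := by
  have h : (fun x => D x * W c (fun m => A m x)) =
      fun x => ∑ m ∈ c.support, (c m : ℂ) * (D x * A m x) := by
    funext x
    unfold W
    rw [Finset.mul_sum]
    exact Finset.sum_congr rfl fun m _ => by ring
  rw [h, μ.E_sum]
  exact Finset.sum_congr rfl fun m _ => μ.E_const_mul _ _

private theorem tinv_zpow (X : Sys) (C : X.S → ℂ) (hC : TInv X C) (n : ℤ) (x : X.S) :
    C ((X.T ^ n) x) = C x := by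
  have hnat : ∀ (m : ℕ) (y : X.S), C ((X.T ^ m) y) = C y := by
    intro m
    induction m with
    | zero => intro y; simp
    | succ m ih =>
      intro y
      rw [pow_succ, Equiv.Perm.mul_apply, ih]
      exact hC y
  rcases Int.eq_nat_or_neg n with ⟨m, rfl | rfl⟩
  · rw [zpow_natCast]
    exact hnat m x
  · have h := hnat m ((X.T ^ (-(m : ℤ))) x)
    rw [← h, ← zpow_natCast, ← Equiv.Perm.mul_apply, ← zpow_add, add_neg_cancel, zpow_zero]
    rfl

private theorem zpow_comp (X : Sys) (a b : ℤ) (x : X.S) :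
    (X.T ^ a) ((X.T ^ b) x) = (X.T ^ (a + b)) x := by
  rw [zpow_add, Equiv.Perm.mul_apply]

private theorem shift_id (X : Sys) (k : ℕ) (c : ℤ →₀ ℝ) (D : X.S → ℂ) (hD : Bd D)
    (hDi : TInv X D) (G : ℕ → X.S → ℂ) (hG : ∀ i, Bd (G i)) (F : X.S → ℂ) (hF : Bd F) :
    X.μ.E (fun x => (D x * W c (fun m => ∏ i ∈ range k,
        G i ((X.T ^ (((i : ℤ) - k) * m)) x))) * F x) =
      X.μ.E (fun x => D x * W c (fun m => (∏ i ∈ range k, G i ((X.T ^ ((i : ℤ) * m)) x)) *
        F ((X.T ^ ((k : ℤ) * m)) x))) := by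
  have h1 : (fun x => (D x * W c (fun m => ∏ i ∈ range k,
        G i ((X.T ^ (((i : ℤ) - k) * m)) x))) * F x) =
      fun x => D x * W c (fun m => (∏ i ∈ range k,
        G i ((X.T ^ (((i : ℤ) - k) * m)) x)) * F x) := by
    funext x
    unfold W
    rw [mul_assoc, Finset.sum_mul]
    congr 1
    exact Finset.sum_congr rfl fun m _ => by ring
  rw [h1, E_W, E_W]
  refine Finset.sum_congr rfl fun m _ => ?_
  congr 1
  have hbd : Bd (fun x => D x * ((∏ i ∈ range k, G i ((X.T ^ (((i : ℤ) - k) * m)) x)) * F x)) :=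
    hD.mul ((Bd.prod (range k) (fun i x => G i ((X.T ^ (((i : ℤ) - k) * m)) x))
      fun i _ => (hG i).comp _).mul hF)
  rw [← X.inv_zpow ((k : ℤ) * m) _ hbd]
  congr 1
  funext x
  rw [tinv_zpow X D hDi]
  congr 2
  refine Finset.prod_congr rfl fun i _ => ?_
  rw [zpow_comp]
  congr 3
  ring

private theorem ext_zpow (X : Sys) (k : ℕ) (n : ℤ) (h : Fin k → ℤ) (x : X.S) :
    ((extS X k).T ^ n) (h, x) = (h, (X.T ^ n) x) := by
  induction n using Int.induction_on generalizing x with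
  | zero => rfl
  | succ i ih =>
    rw [zpow_add_one, zpow_add_one, Equiv.Perm.mul_apply, Equiv.Perm.mul_apply]
    exact ih (X.T x)
  | pred i ih =>
    rw [zpow_sub_one, zpow_sub_one, Equiv.Perm.mul_apply, Equiv.Perm.mul_apply]
    exact ih (X.T⁻¹ x)

private theorem ext_E_snd (X : Sys) (k : ℕ) (f : X.S → ℂ) :
    (extS X k).μ.E (fun p => f p.2) = X.μ.E f := by
  change ((czp k).prod X.μ).E (fun p => f p.2) = X.μ.E f
  rw [Mean.prod_E]
  exact (czp k).E_const (X.μ.E f)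

private theorem cj_bound (n : ℕ) {z : ℂ} {B : ℝ} (h : ‖z‖ ≤ B) : ‖cj n z‖ ≤ B := by
  rw [cj_norm]
  exact h

private theorem prod_bound {ι : Type*} (s : Finset ι) (F : ι → ℂ) {B : ℝ} (hB : 1 ≤ B)
    (h : ∀ i ∈ s, ‖F i‖ ≤ B) {N : ℕ} (hN : s.card ≤ N) : ‖∏ i ∈ s, F i‖ ≤ B ^ N := by
  rw [norm_prod]
  calc ∏ i ∈ s, ‖F i‖ ≤ ∏ _i ∈ s, B := Finset.prod_le_prod (fun i _ => norm_nonneg _) h
    _ = B ^ s.card := by rw [Finset.prod_const]
    _ ≤ B ^ N := pow_le_pow_right₀ hB hN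

private theorem dual_bound (X : Sys) (k : ℕ) (a : ℤ) (g : X.S → ℂ) (hg : ∀ x, ‖g x‖ ≤ 2)
    (h : Fin k → ℤ) (x : X.S) : ‖dual X k a g h x‖ ≤ 2 ^ (2 ^ k) := by
  unfold dual
  refine prod_bound _ _ (by norm_num) (fun ω _ => cj_bound _ (hg _)) ?_
  refine (Finset.card_filter_le _ _).trans (le_of_eq ?_)
  simp

private theorem slf_bound (X : Sys) (k : ℕ) (a : ℤ) (g : X.S → ℂ) (hg : ∀ x, ‖g x‖ ≤ 2) (i : ℕ)
    (p : (Fin k → ℤ) × X.S) : ‖slf X k a g i p‖ ≤ 2 ^ (2 ^ k) := by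
  unfold slf
  refine prod_bound _ _ (by norm_num) (fun ω _ => cj_bound _ (hg _)) ?_
  refine (Finset.card_filter_le _ _).trans (le_of_eq ?_)
  simp

private theorem cj_conj (n : ℕ) (t : ℝ) (z : ℂ) :
    cj n ((t : ℂ) * (starRingEnd ℂ) z) = (t : ℂ) * (starRingEnd ℂ) (cj n z) := by
  unfold cj
  induction n with
  | zero => rfl
  | succ n ih =>
    rw [Function.iterate_succ_apply', Function.iterate_succ_apply', ih, map_mul,
      Complex.conj_ofReal]

private theorem cube_conj (X : Sys) (k : ℕ) (a : ℤ) (g : X.S → ℂ) (t : ℝ) (h : Fin k → ℤ)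
    (x : X.S) : cube X k a (fun x => (t : ℂ) * (starRingEnd ℂ) (g x)) h x =
      (t : ℂ) ^ (2 ^ k) * (starRingEnd ℂ) (cube X k a g h x) := by
  unfold cube
  rw [Finset.prod_congr rfl fun ω _ => cj_conj (wt ω) t _, Finset.prod_mul_distrib,
    Finset.prod_const, map_prod]
  congr 2
  simp

private theorem cube_bd (X : Sys) (k : ℕ) (a : ℤ) (g : X.S → ℂ) (hg : ∀ x, ‖g x‖ ≤ 2) :
    Bd (fun p : (extS X k).S => cube X k a g p.1 p.2) := by
  refine ⟨2 ^ (2 ^ k), fun p => ?_⟩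
  unfold cube
  refine prod_bound _ _ (by norm_num) (fun ω _ => cj_bound _ (hg _)) (le_of_eq ?_)
  simp

/-- Step (4): slope reduction for one `r`. -/
private theorem slope_red (X : Sys) (n : ℕ) (c : ℤ →₀ ℝ) (q : ℕ)
    (hq : ∀ m ∈ c.support, (q : ℤ) ∣ m - 1) (D : X.S → ℂ) (hD : Bd D) (hDi : TInv X D)
    (G : ℕ → X.S → ℂ) (hG : ∀ i, Bd (G i)) (g : X.S → ℂ) (hg : ∀ x, ‖g x‖ ≤ 2) :
    (extS X (n + 1)).μ.E (fun p => (D p.2 * W c (fun m => ∏ i ∈ range (n + 1),
        G i ((X.T ^ (((i : ℤ) - ((n + 1 : ℕ) : ℤ)) * m)) p.2))) * dual X (n + 1) q g p.1 p.2) =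
      (extS X (n + 1)).μ.E (fun p => D p.2 * W c (fun m => cor (extS X (n + 1)) n
        (fun i p => G i p.2 * slf X (n + 1) q g i p) m p)) := by
  have hduB : Bd (fun p : (extS X (n + 1)).S => dual X (n + 1) q g p.1 p.2) :=
    ⟨_, fun p => dual_bound X (n + 1) q g hg p.1 p.2⟩
  have h1 := shift_id (extS X (n + 1)) (n + 1) c (fun p => D p.2) (hD.comp _)
    (fun p => hDi p.2) (fun i p => G i p.2) (fun i => (hG i).comp _)
    (fun p => dual X (n + 1) q g p.1 p.2) hduB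
  have e1 : ∀ (j : ℤ) (p : (extS X (n + 1)).S),
      ((extS X (n + 1)).T ^ j) p = (p.1, (X.T ^ j) p.2) := fun j p => ext_zpow X (n + 1) j p.1 p.2
  simp only [e1] at h1
  rw [h1, E_W, E_W]
  refine Finset.sum_congr rfl fun m hm => ?_
  congr 1
  obtain ⟨m₁, hm₁⟩ := hq m hm
  have hm1 : m = 1 + q * m₁ := by linarith
  have hbd : Bd (fun p : (extS X (n + 1)).S => D p.2 *
      ((∏ i ∈ range (n + 1), G i ((X.T ^ ((i : ℤ) * m)) p.2)) *
        dual X (n + 1) q g p.1 ((X.T ^ (((n + 1 : ℕ) : ℤ) * m)) p.2))) :=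
    (hD.comp (fun p : (extS X (n + 1)).S => p.2)).mul
      ((Bd.prod (range (n + 1)) (fun i (p : (extS X (n + 1)).S) =>
        G i ((X.T ^ ((i : ℤ) * m)) p.2)) fun i _ => (hG i).comp _).mul
          ⟨_, fun p => dual_bound X (n + 1) q g hg p.1 _⟩)
  have h2 : (extS X (n + 1)).μ.E (fun p => D p.2 *
      ((∏ i ∈ range (n + 1), G i ((X.T ^ ((i : ℤ) * m)) p.2)) *
        dual X (n + 1) q g p.1 ((X.T ^ (((n + 1 : ℕ) : ℤ) * m)) p.2))) =
      (extS X (n + 1)).μ.E (fun p => D p.2 *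
      ((∏ i ∈ range (n + 1), G i ((X.T ^ ((i : ℤ) * m)) p.2)) *
        dual X (n + 1) q g (fun i => p.1 i + (-m₁)) ((X.T ^ (((n + 1 : ℕ) : ℤ) * m)) p.2))) := by
    obtain ⟨B, hB⟩ := hbd
    have h3 := czp_shift (n + 1) (fun h => X.μ.E (fun x => D x *
      ((∏ i ∈ range (n + 1), G i ((X.T ^ ((i : ℤ) * m)) x)) *
        dual X (n + 1) q g h ((X.T ^ (((n + 1 : ℕ) : ℤ) * m)) x))))
      ⟨B, fun h => X.μ.norm_E_le _ fun x => hB (h, x)⟩ (fun _ => -m₁)
    exact h3.symm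
  rw [h2]
  congr 1
  funext p
  rw [dual_slope X (n + 1) q g m m₁ hm1 p.1 p.2]
  unfold cor
  simp only [e1]
  rw [← Finset.prod_mul_distrib]

private theorem main_one {P : Type} {U : Ultrafilter P} {c : P → ℤ →₀ ℝ}
    (h2 : ∀ r, ∑ m ∈ (c r).support, |c r m| ≤ 2)
    (h3 : ∀ q : ℕ, 0 < q → ∀ᶠ r in (U : Filter P), ∀ m ∈ (c r).support, (q : ℤ) ∣ m - 1)
    (n : ℕ) (hSt : St U c n) (hCore : Core U c (n + 1)) (X : Sys) (G : ℕ → X.S → ℂ)
    (hG : ∀ i x, ‖G i x‖ ≤ 1) (C : P → X.S → ℂ) (hC : ∀ r x, ‖C r x‖ ≤ 1)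
    (hCi : ∀ r, TInv X (C r)) :
    Tendsto (fun r => X.μ.E (fun x => C r x * W (c r) (fun m => cor X (n + 1) G m x))) U (𝓝 0) := by
  classical
  have hGb : ∀ i, Bd (G i) := fun i => ⟨1, hG i⟩
  -- the functions `Φ r`
  set Φ : P → X.S → ℂ := fun r x => C r x * W (c r) (fun m => ∏ i ∈ range (n + 1),
    G i ((X.T ^ (((i : ℤ) - ((n + 1 : ℕ) : ℤ)) * m)) x)) with hΦ
  have hΦ2 : ∀ r x, ‖Φ r x‖ ≤ 2 := by
    intro r x
    rw [hΦ]
    simp only
    rw [norm_mul]
    have h4 := W_norm (c r) (fun m => ∏ i ∈ range (n + 1),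
      G i ((X.T ^ (((i : ℤ) - ((n + 1 : ℕ) : ℤ)) * m)) x)) 1 (h2 r)
      (fun m => prod_norm_le_one _ _ fun i _ => hG i _)
    calc _ ≤ 1 * (2 * 1) := mul_le_mul (hC r x) h4 (norm_nonneg _) zero_le_one
      _ = 2 := by norm_num
  -- the identity `E[Φ r * F] = E[C r * W (cor with last function F)]`
  have hid : ∀ (r : P) (F : X.S → ℂ), Bd F → X.μ.E (fun x => Φ r x * F x) =
      X.μ.E (fun x => C r x * W (c r) (fun m =>
        (∏ i ∈ range (n + 1), G i ((X.T ^ ((i : ℤ) * m)) x)) *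
          F ((X.T ^ (((n + 1 : ℕ) : ℤ) * m)) x))) := fun r F hF =>
    shift_id X (n + 1) (c r) (C r) ⟨1, hC r⟩ (hCi r) G hGb F hF
  have hcor : ∀ r, X.μ.E (fun x => C r x * W (c r) (fun m => cor X (n + 1) G m x)) =
      X.μ.E (fun x => Φ r x * G (n + 1) x) := by
    intro r
    rw [hid r _ (hGb (n + 1))]
    congr 1
    funext x
    congr 2
    funext m
    unfold cor
    rw [Finset.prod_range_succ]
  simp only [hcor]
  have hlimF : ∀ F : X.S → ℂ, Bd F → ∃ z : ℂ,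
      Tendsto (fun r => X.μ.E (fun x => Φ r x * F x)) U (𝓝 z) := by
    intro F hF
    obtain ⟨B, hB⟩ := hF
    refine exists_lim U _ (C := 2 * B) fun r => X.μ.norm_E_le _ fun x => ?_
    rw [norm_mul]
    exact mul_le_mul (hΦ2 r x) (hB x) (norm_nonneg _) (by norm_num)
  obtain ⟨lam, hlam⟩ := hlimF (G (n + 1)) (hGb (n + 1))
  suffices hz : lam = 0 by rwa [hz] at hlam
  by_contra hne
  set a : ℝ := ‖lam‖ with ha
  have ha0 : 0 < a := norm_pos_iff.2 hne
  have ha2 : a ≤ 2 := by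
    refine le_of_tendsto hlam.norm (Eventually.of_forall fun r => ?_)
    refine X.μ.norm_E_le _ fun x => ?_
    rw [norm_mul]
    calc _ ≤ 2 * 1 := mul_le_mul (hΦ2 r x) (hG _ x) (norm_nonneg _) (by norm_num)
      _ = 2 := by norm_num
  obtain ⟨b, hb0, hb⟩ := hCore (a ^ 2 / 8) (by positivity)
  -- the parameter `η = s ^ 2`
  obtain ⟨s, hs0, hs1, hs2⟩ : ∃ s : ℝ, 0 < s ∧ s ≤ a ^ 2 / 100 ∧ s * 2 ^ (2 ^ (n + 1)) < b := by
    have h4 : (0 : ℝ) < 2 ^ (2 ^ (n + 1)) := by positivity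
    refine ⟨min (a ^ 2 / 100) (b / (2 * 2 ^ (2 ^ (n + 1)))), by positivity, min_le_left _ _, ?_⟩
    calc min (a ^ 2 / 100) (b / (2 * 2 ^ (2 ^ (n + 1)))) * 2 ^ (2 ^ (n + 1))
        ≤ b / (2 * 2 ^ (2 ^ (n + 1))) * 2 ^ (2 ^ (n + 1)) :=
          mul_le_mul_of_nonneg_right (min_le_right _ _) h4.le
      _ = b / 2 := by field_simp
      _ < b := by linarith
  obtain ⟨g, hg2, hgen⟩ := generic X.μ U Φ 2 hΦ2 (s ^ 2) (by positivity)
  have hgb : Bd g := ⟨2, hg2⟩
  -- (1a) the function `G (n + 1)`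
  have hA1 : ‖lam - X.μ.E (fun x => g x * G (n + 1) x)‖ ≤ s := by
    have h4 := hgen X.S X.μ id (fun f _ => rfl) (G (n + 1)) (hGb _) lam hlam
    have h5 : X.μ.N2 (G (n + 1)) ≤ 1 := by simpa using X.μ.N2_le (G (n + 1)) (hG _)
    have h6 : ‖lam - X.μ.E (fun x => g x * G (n + 1) x)‖ ^ 2 ≤ s ^ 2 := by
      refine h4.trans ?_
      calc s ^ 2 * X.μ.N2 (G (n + 1)) ≤ s ^ 2 * 1 := mul_le_mul_of_nonneg_left h5 (by positivity)
        _ = s ^ 2 := mul_one _
    exact le_of_sq_le_sq h6 hs0.le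
  have hN2g : (a - s) ^ 2 ≤ X.μ.N2 g := by
    have h4 : a - s ≤ ‖X.μ.E (fun x => g x * G (n + 1) x)‖ := by
      have h5 := norm_sub_norm_le lam (X.μ.E (fun x => g x * G (n + 1) x))
      rw [← ha] at h5
      linarith
    have h5 := X.μ.cs g (G (n + 1)) hgb (hGb _)
    have h6 : X.μ.N2 (G (n + 1)) ≤ 1 := by simpa using X.μ.N2_le (G (n + 1)) (hG _)
    have h7 : 0 ≤ a - s := by nlinarith
    have h8 := X.μ.N2_nonneg g hgb
    calc (a - s) ^ 2 ≤ ‖X.μ.E (fun x => g x * G (n + 1) x)‖ ^ 2 := pow_le_pow_left₀ h7 h4 2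
      _ ≤ X.μ.N2 g * X.μ.N2 (G (n + 1)) := h5
      _ ≤ X.μ.N2 g * 1 := mul_le_mul_of_nonneg_left h6 h8
      _ = X.μ.N2 g := mul_one _
  -- (1b) the function `conj g`
  obtain ⟨lamF, hlamF⟩ := hlimF (fun x => (starRingEnd ℂ) (g x)) hgb.conj
  have hlF : a ^ 2 / 2 ≤ ‖lamF‖ := by
    have h4 := hgen X.S X.μ id (fun f _ => rfl) (fun x => (starRingEnd ℂ) (g x)) hgb.conj lamF hlamF
    simp only [id] at h4
    rw [X.μ.N2_eq g hgb] at h4
    have h5 : X.μ.N2 (fun x => (starRingEnd ℂ) (g x)) ≤ 2 ^ 2 :=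
      X.μ.N2_le _ fun x => by rw [RCLike.norm_conj]; exact hg2 x
    have h6 : ‖lamF - (X.μ.N2 g : ℂ)‖ ^ 2 ≤ (s * 2) ^ 2 := by
      refine h4.trans ?_
      rw [mul_pow]
      exact mul_le_mul_of_nonneg_left h5 (by positivity)
    have h7 : ‖lamF - (X.μ.N2 g : ℂ)‖ ≤ s * 2 := le_of_sq_le_sq h6 (by positivity)
    have h8 : X.μ.N2 g ≤ ‖lamF‖ + s * 2 := by
      have h9 : ‖(X.μ.N2 g : ℂ)‖ = X.μ.N2 g := by
        rw [Complex.norm_real, Real.norm_of_nonneg (X.μ.N2_nonneg g hgb)]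
      have h10 := norm_sub_norm_le (X.μ.N2 g : ℂ) lamF
      rw [norm_sub_rev, h9] at h10
      linarith
    nlinarith
  -- the hypothesis of the core
  obtain ⟨q, hq0, hq⟩ := hb X (fun x => ((1 / 2 : ℝ) : ℂ) * (starRingEnd ℂ) (g x)) (by
      intro x
      rw [norm_mul, Complex.norm_real, RCLike.norm_conj]
      have := hg2 x
      norm_num
      linarith) (by
      have h4 : ∀ᶠ r in (U : Filter P), a ^ 2 / 4 < ‖X.μ.E (fun x => Φ r x *
          (starRingEnd ℂ) (g x))‖ :=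
        hlamF.norm.eventually (lt_mem_nhds (by nlinarith))
      refine h4.frequently.mono fun r hr => ?_
      refine ⟨fun i => if i = 0 then (fun x => C r x * (if 0 = n + 1 then 1 else G 0 x)) else
        if i = n + 1 then (fun x => ((1 / 2 : ℝ) : ℂ) * (starRingEnd ℂ) (g x)) else G i, ?_, ?_, ?_⟩
      · intro i x
        by_cases hi : i = 0
        · simp only [hi, if_true]
          rw [if_neg (by omega), norm_mul]
          exact mul_le_one₀ (hC r x) (norm_nonneg _) (hG 0 x)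
        · simp only [if_neg hi]
          by_cases hi2 : i = n + 1
          · simp only [hi2, if_true]
            rw [norm_mul, Complex.norm_real, RCLike.norm_conj]
            have := hg2 x
            norm_num
            linarith
          · simp only [if_neg hi2]
            exact hG i x
      · simp
      · have h5 : X.μ.E (fun x => Φ r x * (((1 / 2 : ℝ) : ℂ) * (starRingEnd ℂ) (g x))) =
            ((1 / 2 : ℝ) : ℂ) * X.μ.E (fun x => Φ r x * (starRingEnd ℂ) (g x)) := by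
          rw [← X.μ.E_const_mul]
          congr 1
          funext x
          ring
        have h6 : a ^ 2 / 8 ≤ ‖X.μ.E (fun x => Φ r x *
            (((1 / 2 : ℝ) : ℂ) * (starRingEnd ℂ) (g x)))‖ := by
          rw [h5, norm_mul, Complex.norm_real]
          norm_num
          linarith
        rw [hid r _ (hgb.conj.const_mul _)] at h6
        refine h6.trans (le_of_eq ?_)
        congr 2
        funext x
        unfold W
        rw [Finset.mul_sum]
        refine Finset.sum_congr rfl fun m _ => ?_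
        unfold cor
        beta_reduce
        rw [Finset.prod_range_succ _ (n + 1), Finset.prod_range_succ', Finset.prod_range_succ']
        simp only [Nat.succ_ne_zero, if_false, if_true,
          Nat.cast_zero, zero_mul, zpow_zero, Equiv.Perm.coe_one, id]
        rw [if_neg (by omega)]
        have h7 : ∀ i ∈ range n, (if i + 1 = n + 1 then
            (fun x => ((1 / 2 : ℝ) : ℂ) * (starRingEnd ℂ) (g x)) else G (i + 1))
            ((X.T ^ (((i + 1 : ℕ) : ℤ) * m)) x) = G (i + 1) ((X.T ^ (((i + 1 : ℕ) : ℤ) * m)) x) := by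
          intro i hi
          rw [Finset.mem_range] at hi
          rw [if_neg (by omega)]
        rw [Finset.prod_congr rfl h7]
        ring)
  -- (2) the cube function of `g`
  have hcube : b ≤ ‖(extS X (n + 1)).μ.E (fun p => g p.2 * dual X (n + 1) q g p.1 p.2)‖ := by
    have hcb := cube_bd X (n + 1) q g hg2
    rw [box_eq_cube] at hq
    have h4 : (extS X (n + 1)).μ.E (fun p => cube X (n + 1) q
        (fun x => ((1 / 2 : ℝ) : ℂ) * (starRingEnd ℂ) (g x)) p.1 p.2) =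
        ((1 / 2 : ℝ) : ℂ) ^ (2 ^ (n + 1)) *
          (starRingEnd ℂ) ((extS X (n + 1)).μ.E (fun p => cube X (n + 1) q g p.1 p.2)) := by
      rw [← (extS X (n + 1)).μ.E_conj _ hcb, ← (extS X (n + 1)).μ.E_const_mul]
      congr 1
      funext p
      exact cube_conj X (n + 1) q g (1 / 2) p.1 p.2
    rw [h4] at hq
    have h5 := hq.trans (Complex.re_le_norm _)
    rw [norm_mul, norm_pow, Complex.norm_real, RCLike.norm_conj] at h5
    have h6 : ‖(1 / 2 : ℝ)‖ ^ (2 ^ (n + 1)) ≤ 1 := pow_le_one₀ (norm_nonneg _) (by norm_num)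
    have h7 : (fun p : (extS X (n + 1)).S => g p.2 * dual X (n + 1) q g p.1 p.2) =
        fun p => cube X (n + 1) q g p.1 p.2 := by
      funext p
      exact (cube_eq X (n + 1) q g p.1 p.2).symm
    rw [h7]
    calc b ≤ ‖(1 / 2 : ℝ)‖ ^ (2 ^ (n + 1)) *
          ‖(extS X (n + 1)).μ.E (fun p => cube X (n + 1) q g p.1 p.2)‖ := h5
      _ ≤ 1 * ‖(extS X (n + 1)).μ.E (fun p => cube X (n + 1) q g p.1 p.2)‖ :=
        mul_le_mul_of_nonneg_right h6 (norm_nonneg _)
      _ = _ := one_mul _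
  -- (3) and (4): the limit in the extended system is `0`
  have hduB : Bd (fun p : (extS X (n + 1)).S => dual X (n + 1) q g p.1 p.2) :=
    ⟨_, fun p => dual_bound X (n + 1) q g hg2 p.1 p.2⟩
  have hlim' : Tendsto (fun r => (extS X (n + 1)).μ.E (fun p => Φ r p.2 *
      dual X (n + 1) q g p.1 p.2)) U (𝓝 0) := by
    have h4 := hSt (extS X (n + 1)) (fun i p => G i p.2 * slf X (n + 1) q g i p)
      (fun i => ((hGb i).comp (fun p : (extS X (n + 1)).S => p.2)).mul
        ⟨_, fun p => slf_bound X (n + 1) q g hg2 i p⟩)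
      (fun r p => C r p.2) (fun r p => hC r p.2) (fun r p => hCi r p.2)
    refine h4.congr' ?_
    filter_upwards [h3 q hq0] with r hr
    exact (slope_red X n (c r) q hr (C r) ⟨1, hC r⟩ (hCi r) G hGb g hg2).symm
  have h4 := hgen (extS X (n + 1)).S (extS X (n + 1)).μ (fun p => p.2)
    (fun f _ => ext_E_snd X (n + 1) f) (fun p => dual X (n + 1) q g p.1 p.2) hduB 0 hlim'
  have h5 : (extS X (n + 1)).μ.N2 (fun p => dual X (n + 1) q g p.1 p.2) ≤
      (2 ^ (2 ^ (n + 1))) ^ 2 :=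
    (extS X (n + 1)).μ.N2_le _ fun p => dual_bound X (n + 1) q g hg2 p.1 p.2
  rw [zero_sub, norm_neg] at h4
  have h6 : ‖(extS X (n + 1)).μ.E (fun p => g p.2 * dual X (n + 1) q g p.1 p.2)‖ ^ 2 ≤
      (s * 2 ^ (2 ^ (n + 1))) ^ 2 := by
    refine h4.trans ?_
    rw [mul_pow]
    exact mul_le_mul_of_nonneg_left h5 (by positivity)
  have h7 := le_of_sq_le_sq h6 (by positivity)
  linarith

private theorem st_step {P : Type} {U : Ultrafilter P} {c : P → ℤ →₀ ℝ}
    (h2 : ∀ r, ∑ m ∈ (c r).support, |c r m| ≤ 2)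
    (h3 : ∀ q : ℕ, 0 < q → ∀ᶠ r in (U : Filter P), ∀ m ∈ (c r).support, (q : ℤ) ∣ m - 1)
    (n : ℕ) (hSt : St U c n) (hCore : Core U c (n + 1)) : St U c (n + 1) := by
  classical
  intro X G hG C hC hCi
  have hB : ∀ i, ∃ B : ℝ, 1 ≤ B ∧ ∀ x, ‖G i x‖ ≤ B := by
    intro i
    obtain ⟨B, hB⟩ := hG i
    exact ⟨max 1 B, le_max_left _ _, fun x => (hB x).trans (le_max_right _ _)⟩
  choose B hB1 hB using hB
  have h4 := main_one h2 h3 n hSt hCore X (fun i x => ((B i : ℝ) : ℂ)⁻¹ * G i x) (by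
    intro i x
    have h5 : 0 < B i := lt_of_lt_of_le one_pos (hB1 i)
    rw [norm_mul, norm_inv, Complex.norm_real, Real.norm_of_nonneg h5.le, inv_mul_le_iff₀ h5,
      mul_one]
    exact hB i x) C hC hCi
  have h5 := h4.const_mul (∏ i ∈ range (n + 1 + 1), ((B i : ℝ) : ℂ))
  rw [mul_zero] at h5
  refine h5.congr fun r => ?_
  rw [← X.μ.E_const_mul]
  congr 1
  funext x
  unfold W
  rw [Finset.mul_sum, Finset.mul_sum, Finset.mul_sum]
  refine Finset.sum_congr rfl fun m _ => ?_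
  unfold cor
  beta_reduce
  rw [Finset.prod_mul_distrib, Finset.prod_inv_distrib]
  have h6 : ∏ i ∈ range (n + 1 + 1), ((B i : ℝ) : ℂ) ≠ 0 := by
    rw [Finset.prod_ne_zero_iff]
    intro i _
    have h7 : 0 < B i := lt_of_lt_of_le one_pos (hB1 i)
    exact_mod_cast h7.ne'
  field_simp

theorem stInduction : StInduction := by
  intro P U c h1 h2 h3 hCore k
  induction k with
  | zero =>
    intro X G hG C hC hCi
    refine (tendsto_const_nhds (x := (0 : ℂ))).congr fun r => ?_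
    have h4 : (fun x => C r x * W (c r) (fun m => cor X 0 G m x)) = fun _ => 0 := by
      funext x
      have h5 : W (c r) (fun m => cor X 0 G m x) = G 0 x * W (c r) (fun _ => 1) := by
        unfold W
        rw [Finset.mul_sum]
        refine Finset.sum_congr rfl fun m _ => ?_
        unfold cor
        simp
        ring
      rw [h5, h1 r, mul_zero, mul_zero]
    rw [h4, X.μ.E_const]
  | succ n ih => exact st_step h2 h3 n ih (hCore (n + 1) (by omega))

end DG
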