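import Pool.Agent.Helper6.DG.Defs

/-!
# Project DIAG, part E: the system of the application

States `(j, M, n)`: window index, scale, position. The mean is the limit along an ultrafilter over
the windows `j` of the logarithmic averages over the scales `M` of the window of the ordinary
averages over `1 ≤ n ≤ M`.
-/

set_option autoImplicit false

namespace DG

open Finset Filter Topology

/-- A sequence of windows `(a j, b j]` of divergent logarithmic mass. -/
structure Win where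
  a : ℕ → ℕ
  b : ℕ → ℕ
  lt : ∀ j, a j < b j
  div : Tendsto (fun j => ∑ M ∈ Ioc (a j) (b j), 1 / (M : ℝ)) atTop atTop

/-- The pairs `(M, n)` with `a < M ≤ b` and `1 ≤ n ≤ M`. -/
def wset (a b : ℕ) : Finset (Σ _ : ℕ, ℕ) := (Ioc a b).sigma (fun M => Icc 1 M)

theorem wset_sum (a b : ℕ) (f : ℕ → ℕ → ℂ) :
    ∑ p ∈ wset a b, f p.1 p.2 = ∑ M ∈ Ioc a b, ∑ n ∈ Icc 1 M, f M n :=
  Finset.sum_sigma _ _ _

theorem wset_sumR (a b : ℕ) (f : ℕ → ℕ → ℝ) :
    ∑ p ∈ wset a b, f p.1 p.2 = ∑ M ∈ Ioc a b, ∑ n ∈ Icc 1 M, f M n :=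
  Finset.sum_sigma _ _ _

theorem wset_mass (a b : ℕ) :
    ∑ p ∈ wset a b, 1 / (p.1 : ℝ) ^ 2 = ∑ M ∈ Ioc a b, 1 / (M : ℝ) := by
  rw [wset_sumR a b (fun M _ => 1 / (M : ℝ) ^ 2)]
  refine Finset.sum_congr rfl fun M hM => ?_
  have hM0 : (M : ℝ) ≠ 0 := by
    have := (Finset.mem_Ioc.1 hM).1
    have h2 : 0 < M := lt_of_le_of_lt (Nat.zero_le _) this
    positivity
  rw [Finset.sum_const, Nat.card_Icc, Nat.add_sub_cancel, nsmul_eq_mul]
  field_simp

theorem mass_pos {a b : ℕ} (h : a < b) : 0 < ∑ M ∈ Ioc a b, 1 / (M : ℝ) := by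
  apply Finset.sum_pos
  · intro M hM
    have := (Finset.mem_Ioc.1 hM).1
    have h2 : 0 < M := lt_of_le_of_lt (Nat.zero_le _) this
    positivity
  · exact ⟨b, Finset.mem_Ioc.2 ⟨h, le_rfl⟩⟩

/-- The mean of the window `j`. -/
noncomputable def wmean (w : Win) (j : ℕ) : Mean (ℕ × ℕ × ℤ) :=
  Mean.fin (wset (w.a j) (w.b j)) (fun p => 1 / (p.1 : ℝ) ^ 2) (fun p => (j, p.1, (p.2 : ℤ)))
    (fun p _ => by positivity) (by rw [wset_mass]; exact mass_pos (w.lt j))

theorem wmean_E (w : Win) (j : ℕ) (F : ℕ × ℕ × ℤ → ℂ) :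
    (wmean w j).E F = (∑ M ∈ Ioc (w.a j) (w.b j), (1 / (M : ℂ)) *
      ((1 / (M : ℂ)) * ∑ n ∈ Icc 1 M, F (j, M, (n : ℤ)))) /
        ((∑ M ∈ Ioc (w.a j) (w.b j), 1 / (M : ℝ) : ℝ) : ℂ) := by
  unfold wmean
  rw [Mean.fin_E, wset_mass]
  congr 1
  rw [wset_sum (w.a j) (w.b j) (fun M n => ((1 / (M : ℝ) ^ 2 : ℝ) : ℂ) * F (j, M, (n : ℤ)))]
  refine Finset.sum_congr rfl fun M _ => ?_
  rw [← mul_assoc, Finset.mul_sum]
  refine Finset.sum_congr rfl fun n _ => ?_
  push_cast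
  ring

/-- The shift of the position. -/
def shT : Equiv.Perm (ℕ × ℕ × ℤ) :=
  (Equiv.refl ℕ).prodCongr ((Equiv.refl ℕ).prodCongr (Equiv.addRight (1 : ℤ)))

theorem shT_apply (j M : ℕ) (n : ℤ) : shT (j, M, n) = (j, M, n + 1) := rfl

theorem sum_inv_sq_le (a b : ℕ) : ∑ M ∈ Ioc a b, 1 / (M : ℝ) ^ 2 ≤ 2 := by
  have h1 : ∑ M ∈ Ioc a b, 1 / (M : ℝ) ^ 2 ≤ ∑ M ∈ Ioc 0 b, 1 / (M : ℝ) ^ 2 := by
    apply Finset.sum_le_sum_of_subset_of_nonneg
    · exact Finset.Ioc_subset_Ioc_left (Nat.zero_le _)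
    · intro M _ _
      positivity
  refine h1.trans ?_
  have h2 : ∀ b : ℕ, ∑ M ∈ Ioc 0 b, 1 / (M : ℝ) ^ 2 ≤ 2 - 1 / ((b : ℝ) + 1) := by
    intro b
    induction b with
    | zero => simp
    | succ b ih =>
      rw [Finset.sum_Ioc_succ_top (Nat.zero_le _)]
      rcases Nat.eq_zero_or_pos b with rfl | hb
      · norm_num
      · have hbr : (1 : ℝ) ≤ b := by exact_mod_cast hb
        have h4 : ∀ c : ℕ, 1 ≤ c → ∑ M ∈ Ioc 0 c, 1 / (M : ℝ) ^ 2 ≤ 2 - 1 / (c : ℝ) := by
          intro c hc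
          induction c, hc using Nat.le_induction with
          | base => norm_num
          | succ c hc ihc =>
            rw [Finset.sum_Ioc_succ_top (Nat.zero_le _)]
            have hcr : (0 : ℝ) < c := by exact_mod_cast hc
            have h5 : 1 / ((c + 1 : ℕ) : ℝ) ^ 2 ≤ 1 / (c : ℝ) - 1 / ((c + 1 : ℕ) : ℝ) := by
              push_cast
              rw [div_sub_div _ _ hcr.ne' (by positivity), div_le_div_iff₀ (by positivity)
                (by positivity)]
              nlinarith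
            linarith
        have h6 := h4 (b + 1) (by omega)
        rw [Finset.sum_Ioc_succ_top (Nat.zero_le _)] at h6
        refine h6.trans ?_
        have h7 : 1 / (((b + 1 : ℕ) : ℝ) + 1) ≤ 1 / ((b + 1 : ℕ) : ℝ) := by
          apply one_div_le_one_div_of_le
          · positivity
          · linarith
        linarith
  refine (h2 b).trans ?_
  have : 0 ≤ 1 / ((b : ℝ) + 1) := by positivity
  linarith

theorem wmean_shift (w : Win) (j : ℕ) (F : ℕ × ℕ × ℤ → ℂ) {C : ℝ} (hC : ∀ x, ‖F x‖ ≤ C) :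
    ‖(wmean w j).E (fun x => F (shT x)) - (wmean w j).E F‖ ≤
      4 * C / ∑ M ∈ Ioc (w.a j) (w.b j), 1 / (M : ℝ) := by
  have hC0 : 0 ≤ C := (norm_nonneg _).trans (hC (0, 0, 0))
  have hm := mass_pos (w.lt j)
  rw [wmean_E, wmean_E, ← sub_div, norm_div, Complex.norm_real, Real.norm_of_nonneg hm.le]
  refine div_le_div_of_nonneg_right ?_ hm.le
  rw [← Finset.sum_sub_distrib]
  have h1 : ∀ M ∈ Ioc (w.a j) (w.b j),
      ‖(1 / (M : ℂ)) * ((1 / (M : ℂ)) * ∑ n ∈ Icc 1 M, F (shT (j, M, (n : ℤ)))) -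
        (1 / (M : ℂ)) * ((1 / (M : ℂ)) * ∑ n ∈ Icc 1 M, F (j, M, (n : ℤ)))‖ ≤
        2 * C * (1 / (M : ℝ) ^ 2) := by
    intro M _
    rw [← mul_sub, ← mul_sub, ← Finset.sum_sub_distrib]
    have h2 : ∑ n ∈ Icc 1 M, (F (shT (j, M, (n : ℤ))) - F (j, M, (n : ℤ))) =
        F (j, M, (M : ℤ) + 1) - F (j, M, 1) := by
      have h3 : ∀ K : ℕ, ∑ n ∈ Icc 1 K, (F (shT (j, M, (n : ℤ))) - F (j, M, (n : ℤ))) =
          F (j, M, (K : ℤ) + 1) - F (j, M, 1) := by
        intro K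
        induction K with
        | zero => simp
        | succ K ih =>
          rw [Finset.sum_Icc_succ_top (by omega), ih, shT_apply]
          push_cast
          ring
      exact h3 M
    rw [h2, norm_mul, norm_mul, norm_div, norm_one, Complex.norm_natCast]
    have h4 : ‖F (j, M, (M : ℤ) + 1) - F (j, M, 1)‖ ≤ 2 * C := by
      refine (norm_sub_le _ _).trans ?_
      have := hC (j, M, (M : ℤ) + 1)
      have := hC (j, M, 1)
      linarith
    calc 1 / (M : ℝ) * (1 / (M : ℝ) * ‖F (j, M, (M : ℤ) + 1) - F (j, M, 1)‖)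
        ≤ 1 / (M : ℝ) * (1 / (M : ℝ) * (2 * C)) := by gcongr
      _ = 2 * C * (1 / (M : ℝ) ^ 2) := by ring
  refine (norm_sum_le_of_le _ h1).trans ?_
  rw [← Finset.mul_sum]
  have := sum_inv_sq_le (w.a j) (w.b j)
  nlinarith

/-- The mean of the application. -/
noncomputable def appμ (w : Win) : Mean (ℕ × ℕ × ℤ) := ulim (hyperfilter ℕ) (wmean w)

theorem app_tendsto (w : Win) (F : ℕ × ℕ × ℤ → ℂ) (hF : Bd F) :
    Tendsto (fun j => (wmean w j).E F) (hyperfilter ℕ : Filter ℕ) (𝓝 ((appμ w).E F)) :=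
  ulim_tendsto _ _ F hF

/-- If the window means of `F` and `G` differ by `O(1 / mass)`, the means agree. -/
theorem app_eq_of_close (w : Win) (F G : ℕ × ℕ × ℤ → ℂ) (hF : Bd F) (hG : Bd G) (K : ℝ)
    (h : ∀ j, ‖(wmean w j).E F - (wmean w j).E G‖ ≤
      K / ∑ M ∈ Ioc (w.a j) (w.b j), 1 / (M : ℝ)) :
    (appμ w).E F = (appμ w).E G := by
  have h1 := (app_tendsto w F hF).sub (app_tendsto w G hG)
  have h2 : Tendsto (fun j => (wmean w j).E F - (wmean w j).E G) (hyperfilter ℕ : Filter ℕ)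
      (𝓝 0) := by
    have h3 : Tendsto (fun j => K / ∑ M ∈ Ioc (w.a j) (w.b j), 1 / (M : ℝ)) atTop (𝓝 0) :=
      Tendsto.div_atTop tendsto_const_nhds w.div
    have h4 := squeeze_zero_norm h h3
    exact h4.mono_left Nat.hyperfilter_le_atTop
  exact sub_eq_zero.1 (tendsto_nhds_unique h1 h2)

/-- The system of the application. -/
noncomputable def app (w : Win) : Sys where
  S := ℕ × ℕ × ℤ
  T := shT
  μ := appμ w
  inv := by
    intro F hF
    obtain ⟨C, hC⟩ := hF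
    exact app_eq_of_close w _ _ ⟨C, fun x => hC _⟩ ⟨C, hC⟩ (4 * C)
      (fun j => wmean_shift w j F hC)

theorem shT_zpow (n : ℤ) (j M : ℕ) (x : ℤ) : (shT ^ n) (j, M, x) = (j, M, x + n) := by
  induction n using Int.induction_on with
  | zero => simp
  | succ n ih =>
    rw [zpow_add_one, Equiv.Perm.mul_apply, shT_apply]
    have h : ∀ (m : ℕ) (y : ℤ), (shT ^ (m : ℤ)) (j, M, y) = (j, M, y + m) := by
      intro m
      induction m with
      | zero => intro y; simp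
      | succ m ihm =>
        intro y
        push_cast
        rw [zpow_add_one, Equiv.Perm.mul_apply, shT_apply, ihm]
        simp only [Prod.mk.injEq, true_and]
        ring
    rw [h]
    simp only [Prod.mk.injEq, true_and]
    ring
  | pred n ih =>
    have h : ∀ (m : ℕ) (y : ℤ), (shT ^ (m : ℤ)) (j, M, y) = (j, M, y + m) := by
      intro m
      induction m with
      | zero => intro y; simp
      | succ m ihm =>
        intro y
        push_cast
        rw [zpow_add_one, Equiv.Perm.mul_apply, shT_apply, ihm]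
        simp only [Prod.mk.injEq, true_and]
        ring
    have h2 : (-(n : ℤ) - 1) = -((n + 1 : ℕ) : ℤ) := by push_cast; ring
    rw [h2, zpow_neg]
    rw [Equiv.Perm.inv_eq_iff_eq, h]
    simp only [Prod.mk.injEq, true_and]
    push_cast
    ring

end DG
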