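import Pool.Agent.Helper6.DG.Sys

/-!
# Project DIAG (MP_e0aac0_nt): interfaces of all parts

Propositions only; no theorem is stated.
-/

set_option autoImplicit false

namespace DG

open Finset Filter Topology

/-! ## Part A1: the induction (abstract index set `P`, ultrafilter `U`, signed weights `c`) -/

/-- Signed averages of `(k + 1)`-point correlations tend to `0`. -/
def St {P : Type} (U : Ultrafilter P) (c : P → ℤ →₀ ℝ) (k : ℕ) : Prop :=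
  ∀ (X : Sys) (G : ℕ → X.S → ℂ), (∀ i, Bd (G i)) → ∀ C : P → X.S → ℂ, (∀ r x, ‖C r x‖ ≤ 1) →
    (∀ r, TInv X (C r)) →
    Tendsto (fun r => X.μ.E (fun x => C r x * W (c r) (fun m => cor X k G m x))) U (𝓝 0)

/-- The core: if signed averages with the last function `g` are not small, then the box functional
of `g` is bounded below for some step `q`. All functions but the last one may depend on `r`. -/
def Core {P : Type} (U : Ultrafilter P) (c : P → ℤ →₀ ℝ) (k : ℕ) : Prop :=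
  ∀ a : ℝ, 0 < a → ∃ b : ℝ, 0 < b ∧ ∀ (X : Sys) (g : X.S → ℂ), (∀ x, ‖g x‖ ≤ 1) →
    (∃ᶠ r in (U : Filter P), ∃ G : ℕ → X.S → ℂ, (∀ i x, ‖G i x‖ ≤ 1) ∧ G k = g ∧
      a ≤ ‖X.μ.E (fun x => W (c r) (fun m => cor X k G m x))‖) →
    ∃ q : ℕ, 0 < q ∧ b ≤ (box X (List.replicate k (q : ℤ)) g).re

/-- Outcome of part A1. -/
def StInduction : Prop := ∀ {P : Type} (U : Ultrafilter P) (c : P → ℤ →₀ ℝ),
  (∀ r, W (c r) (fun _ => 1) = 0) → (∀ r, ∑ m ∈ (c r).support, |c r m| ≤ 2) →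
  (∀ q : ℕ, 0 < q → ∀ᶠ r in (U : Filter P), ∀ m ∈ (c r).support, (q : ℤ) ∣ m - 1) →
  (∀ k, 1 ≤ k → Core U c k) → ∀ k, St U c k

/-! ## Part A2: the bilinear core -/

/-- Bilinear averages `∑_{m} |E_{p ∈ P} f(e p (1 + q m))|²` of `(k+1)`-point correlation sequences
are controlled by the box functionals of the last function. -/
def BL (k : ℕ) : Prop := ∃ C : ℝ, 0 < C ∧ ∀ (w : ℕ) (P : Finset ℕ), 1 ≤ w → P.Nonempty →
  (∀ p ∈ P, p.Prime ∧ w ≤ p ∧ p ≤ 2 * w) → ∀ e q : ℕ, 1 ≤ e → 1 ≤ q →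
  ∀ (X : Sys) (g : X.S → ℂ), (∀ x, ‖g x‖ ≤ 1) →
  ∀ β : ℝ, (∀ r : ℕ, 0 < r → (box X (List.replicate k (r : ℤ)) g).re ≤ β) →
  ∀ η : ℝ, 0 < η → ∃ M0 : ℕ, ∀ M : ℕ, M0 ≤ M → ∀ t : ℤ, ∀ G : ℕ → X.S → ℂ,
    (∀ i x, ‖G i x‖ ≤ 1) → G k = g →
    ((1 / (M : ℝ)) * ∑ j ∈ range M, ‖(1 / (P.card : ℂ)) * ∑ p ∈ P,
        X.μ.E (cor X k G ((e * p : ℤ) * (1 + q * (t + j))))‖ ^ 2) ^ (2 ^ k) ≤
      C * ((w : ℝ) / P.card * (w : ℝ) ^ (-(1 / 2 ^ (2 ^ (k - 1)) : ℝ)) + β) + η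

/-! ## Part B: the sieve -/

/-- Generalised von Neumann inequality with weights `b` supported in `[0, M)`. -/
def GVN (k : ℕ) : Prop := ∃ C : ℝ, 0 < C ∧ ∀ (X : Sys) (G : ℕ → X.S → ℂ),
  (∀ i x, ‖G i x‖ ≤ 1) → ∀ M : ℕ, 1 ≤ M → ∀ b : ℤ → ℝ, (∀ m, b m ≠ 0 → 0 ≤ m ∧ m < M) →
    ‖(1 / (M : ℂ)) * ∑ m ∈ range M, (b m : ℂ) * X.μ.E (cor X k G m)‖ ^ (2 ^ k) ≤
      C / (M : ℝ) ^ (k + 1) *
        ∑ h ∈ Fintype.piFinset (fun _ : Fin k => Ioo (-(M : ℤ)) M),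
          |∑ m ∈ range M, ∏ s : Finset (Fin k), b ((m : ℤ) + ∑ i ∈ s, h i)|

/-- the primes in `(N, z]` -/
def prs (N z : ℕ) : Finset ℕ := (Ioc N z).filter Nat.Prime

/-- `∏ (1 - 1/p)` over the primes in `(N, z]` -/
noncomputable def VV (N z : ℕ) : ℝ := ∏ p ∈ prs N z, (1 - 1 / (p : ℝ))

/-- The normalised indicator of the `m` for which `1 + q m` has no prime factor in `(N, z]`. -/
noncomputable def nu (q N z : ℕ) (m : ℤ) : ℝ :=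
  open Classical in if ∀ p ∈ prs N z, ¬ (p : ℤ) ∣ 1 + q * m then (VV N z)⁻¹ else 0

/-- length of the interval for `m₁` -/
def MM (D q Y : ℕ) : ℕ := Y / (D * q) + 3

/-- start of the interval for `m₁` -/
def tt (q Y : ℕ) : ℕ := (Y - 1) / q

/-- the sifting limit -/
noncomputable def zz (s Y : ℕ) : ℕ := ⌊(Y : ℝ) ^ (1 / (s : ℝ))⌋₊

/-- Main sieve estimate: cube averages of `ν - 1` are at most `C exp (-c s)`. -/
def SVM (k : ℕ) : Prop := ∃ (C c : ℝ) (s0 : ℕ), 0 < C ∧ 0 < c ∧ 1 ≤ s0 ∧ ∀ D : ℕ, 1 ≤ D →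
  ∀ s : ℕ, s0 ≤ s →
  ∀ᶠ N : ℕ in atTop, ∀ᶠ Y : ℕ in atTop,
    1 / ((MM D N.factorial Y : ℕ) : ℝ) ^ (k + 1) *
      ∑ h ∈ Fintype.piFinset (fun _ : Fin k =>
          Ioo (-((MM D N.factorial Y : ℕ) : ℤ)) ((MM D N.factorial Y : ℕ) : ℤ)),
        |∑ m ∈ range (MM D N.factorial Y), ∏ r : Finset (Fin k),
          (if 0 ≤ (m : ℤ) + ∑ i ∈ r, h i ∧ (m : ℤ) + ∑ i ∈ r, h i < (MM D N.factorial Y : ℕ) then
            nu N.factorial N (zz s Y) ((tt N.factorial Y : ℤ) + ((m : ℤ) + ∑ i ∈ r, h i)) - 1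
            else 0)| ≤ C * Real.exp (-(c * s))

/-! ## Part C: primes `≡ 1 mod q` in `[Y, (1 + 1/D) Y]` -/

/-- the primes `p ≡ 1 mod q` in `[Y, Y + Y / D]` -/
def PW (D q Y : ℕ) : Finset ℕ := (Icc Y (Y + Y / D)).filter (fun p => p.Prime ∧ q ∣ p - 1)

/-- Positive relative density, uniformly in `q`. -/
def PR : Prop := ∀ D : ℕ, 1 ≤ D → ∃ c : ℝ, 0 < c ∧ ∀ q : ℕ, 1 ≤ q → ∀ᶠ Y : ℕ in atTop,
  c * Y / (q.totient * Real.log Y) ≤ ((PW D q Y).card : ℝ)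

/-- Sieve transfer: from primes to all integers `1 + q m`. -/
def SVT (k : ℕ) : Prop := ∀ D : ℕ, 1 ≤ D → ∀ ε : ℝ, 0 < ε → ∃ K : ℝ, 0 < K ∧
  ∀ᶠ N : ℕ in atTop, ∀ᶠ Y : ℕ in atTop,
  ∀ (X : Sys) (e : ℕ) (P : Finset ℕ), 1 ≤ e → P.Nonempty → (∀ p ∈ P, 1 ≤ p) →
  ∀ G : ℕ → X.S → ℂ, (∀ i x, ‖G i x‖ ≤ 1) →
    (1 / ((PW D N.factorial Y).card : ℝ)) * ∑ p' ∈ PW D N.factorial Y,
        ‖(1 / (P.card : ℂ)) * ∑ p ∈ P, X.μ.E (cor X k G ((e * p : ℤ) * p'))‖ ^ 2 ≤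
      K * ((1 / ((MM D N.factorial Y : ℕ) : ℝ)) * ∑ j ∈ range (MM D N.factorial Y),
        ‖(1 / (P.card : ℂ)) * ∑ p ∈ P, X.μ.E (cor X k G
          ((e * p : ℤ) * (1 + (N.factorial : ℤ) * ((tt N.factorial Y : ℤ) + j))))‖ ^ 2) + ε

/-! ## The weights and the ultrafilter of the application -/

/-- uniform law on the products `a * b`, `a ∈ A`, `b ∈ B`, as a finitely supported function -/
noncomputable def law2 (A B : Finset ℕ) : ℤ →₀ ℝ :=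
  ∑ a ∈ A, ∑ b ∈ B, Finsupp.single ((a * b : ℕ) : ℤ) (1 / ((A.card : ℝ) * B.card))

/-- uniform law on the products `a * b * c` -/
noncomputable def law3 (A B C : Finset ℕ) : ℤ →₀ ℝ :=
  ∑ a ∈ A, ∑ b ∈ B, ∑ c ∈ C,
    Finsupp.single ((a * b * c : ℕ) : ℤ) (1 / ((A.card : ℝ) * B.card * C.card))

/-- The signed weights: `r = (N, i, j, l)`, `q = N!`, `w = 2^i`, `v = 2^j`, `Y = 2^l`. When some
set of primes is empty the weight is `0`. -/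
noncomputable def cw (D : ℕ) (r : ℕ × ℕ × ℕ × ℕ) : ℤ →₀ ℝ :=
  if (PW D r.1.factorial (2 ^ r.2.1)).Nonempty ∧ (PW D r.1.factorial (2 ^ r.2.2.1)).Nonempty ∧
      (PW D r.1.factorial (2 ^ r.2.2.2)).Nonempty ∧
      (PW D r.1.factorial (2 ^ (r.2.2.2 - r.2.2.1))).Nonempty then
    law2 (PW D r.1.factorial (2 ^ r.2.1)) (PW D r.1.factorial (2 ^ r.2.2.2)) -
      law3 (PW D r.1.factorial (2 ^ r.2.1)) (PW D r.1.factorial (2 ^ r.2.2.1))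
        (PW D r.1.factorial (2 ^ (r.2.2.2 - r.2.2.1)))
  else 0

/-- The filter of sets of scales whose complement has finite weighted sum. -/
def SFset (A : Set ℕ) : Prop :=
  Summable (fun j : ℕ => Set.indicator Aᶜ (fun j : ℕ => 1 / (((j : ℝ) + 2) *
    Real.log ((j : ℝ) + 2))) j)

/-- An ultrafilter of good scales: contains all `SFset`s. -/
def GoodU (V : Ultrafilter ℕ) : Prop := ∀ A : Set ℕ, SFset A → A ∈ V

/-- Iterated ultrafilter: `∀ᶠ N, ∀ᶠ i, ∀ᶠ j, ∀ᶠ l`. -/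
def IsIter (V : Ultrafilter ℕ) (U : Ultrafilter (ℕ × ℕ × ℕ × ℕ)) : Prop :=
  ∀ p : ℕ × ℕ × ℕ × ℕ → Prop, (∀ᶠ r in (U : Filter _), p r) ↔
    ∀ᶠ N in (hyperfilter ℕ : Filter ℕ), ∀ᶠ i in (V : Filter ℕ), ∀ᶠ j in (V : Filter ℕ),
      ∀ᶠ l in (V : Filter ℕ), p (N, i, j, l)

/-- Arithmetic core. -/
def StCoreArith : Prop := ∀ D : ℕ, 1 ≤ D → ∀ (V : Ultrafilter ℕ)
  (U : Ultrafilter (ℕ × ℕ × ℕ × ℕ)), GoodU V → IsIter V U → ∀ k, 1 ≤ k → Core U (cw D) k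

/-! ## Part D: entropy decrement in a system -/

/-- the primes in `(2^j, 2^(j+1)]` -/
def dy (j : ℕ) : Finset ℕ := (Ioc (2 ^ j) (2 ^ (j + 1))).filter Nat.Prime

/-- Entropy decrement: for all scales `j` but few, for most primes `p` in `(2^j, 2^(j+1)]`,
divisibility of the position by `p` is independent of the `(k+1)`-point pattern with step `a p`,
uniformly over invariant weights. -/
def Ent : Prop := ∀ (X : Sys) (pos : X.S → ℤ), (∀ x, pos (X.T x) = pos x + 1) →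
  ∀ (k : ℕ) (f : ℕ → X.S → ℝ), (∀ i x, f i x = 0 ∨ f i x = 1) → ∀ a : ℕ, 1 ≤ a →
  ∀ ε : ℝ, 0 < ε → SFset {j | ∀ C : X.S → ℂ, (∀ x, ‖C x‖ ≤ 1) → TInv X C →
    (1 / ((dy j).card : ℝ)) * ∑ p ∈ dy j, ‖X.μ.E (fun x => C x *
      ((if (p : ℤ) ∣ pos x then (p : ℂ) else 0) - 1) *
        ∏ i ∈ range (k + 1), ((f i ((X.T ^ ((i : ℤ) * (a * p))) x) : ℝ) : ℂ))‖ ≤ ε}

/-! ## Part E: conclusion -/

/-- `E_{n ≤ M} F (Ω(n), ..., Ω(n+k-1))` -/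
noncomputable def Ec (k M : ℕ) (F : (Fin k → ℕ) → ℝ) : ℝ :=
  1 / (M : ℝ) * ∑ n ∈ Icc 1 M, F (fun i => ArithmeticFunction.cardFactors (n + i))

/-- Product sets, in every window. -/
def ProdSt (k : ℕ) : Prop := ∀ ε : ℝ, 0 < ε → ∃ K0 N0 : ℕ, ∀ N K : ℕ, N0 ≤ N → K0 ≤ K → K ≤ N →
  ∀ A : Fin k → Finset ℕ,
    ∑ M ∈ Ioc (N / K) N, (1 / (M : ℝ)) *
      |Ec k M (fun l => if ∀ i, l i ∈ A i then 1 else 0) -
        Ec k M (fun l => if ∀ i, l i + 1 ∈ A i then 1 else 0)| ≤ ε * Real.log K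

/-- The final theorem: all bounded functions, in every window. -/
def Goal (k : ℕ) : Prop := ∀ ε : ℝ, 0 < ε → ∃ K0 N0 : ℕ, ∀ N K : ℕ, N0 ≤ N → K0 ≤ K → K ≤ N →
  ∀ F : (Fin k → ℕ) → ℝ, (∀ l, |F l| ≤ 1) →
    ∑ M ∈ Ioc (N / K) N, (1 / (M : ℝ)) *
      |Ec k M F - Ec k M (fun l => F (fun i => l i + 1))| ≤ ε * Real.log K

end DG
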