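import Pool.Agent.Helper6.DG.AppSys

/-!
# Project DIAG, part E: definitions
-/

set_option autoImplicit false

namespace DG

open Finset Filter Topology

/-- `Ω` at an integer (only positive integers matter). -/
def OmZ (n : ℤ) : ℕ := ArithmeticFunction.cardFactors n.toNat

/-- Indicator of `Ω(n) + r ∈ A j i`. -/
def ind (A : ℕ → ℕ → Finset ℕ) (r i : ℕ) (s : ℕ × ℕ × ℤ) : ℝ :=
  if OmZ s.2.2 + r ∈ A s.1 i then 1 else 0

/-- The pattern `∏_{i ≤ k} 1[Ω(n + i a) + r ∈ A j i]`. -/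
noncomputable def pat (A : ℕ → ℕ → Finset ℕ) (r k : ℕ) (a : ℤ) (s : ℕ × ℕ × ℤ) : ℂ :=
  ∏ i ∈ range (k + 1), ((ind A r i (s.1, s.2.1, s.2.2 + (i : ℤ) * a) : ℝ) : ℂ)

/-- `E_{n ≤ M} ∏_{i ≤ k} 1[Ω(n + i) + r ∈ A j i]`. -/
noncomputable def Tr (A : ℕ → ℕ → Finset ℕ) (r k j M : ℕ) : ℝ :=
  (1 / (M : ℝ)) * ∑ n ∈ Icc 1 M, ∏ i ∈ range (k + 1),
    (if ArithmeticFunction.cardFactors (n + i) + r ∈ A j i then (1 : ℝ) else 0)

/-- The weight `c`. -/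
noncomputable def c0 (A : ℕ → ℕ → Finset ℕ) (k j M : ℕ) : ℝ := Tr A 2 k j M - Tr A 3 k j M

/-- The weight at the scale `M / 2^e`, as an invariant function on the states. -/
noncomputable def cwt (A : ℕ → ℕ → Finset ℕ) (k e : ℕ) (s : ℕ × ℕ × ℤ) : ℂ :=
  ((c0 A k s.1 (s.2.1 / 2 ^ e) : ℝ) : ℂ)

/-- average over a finite set -/
noncomputable def avP (P : Finset ℕ) (f : ℕ → ℂ) : ℂ := (1 / (P.card : ℂ)) * ∑ p ∈ P, f p

end DG
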