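import Pool.Agent.Helper6.DG.E0

/-!
# DG-E1: the dilation identity

PROOF. By `app_eq_of_close` it suffices that the two window means differ by `K_p / mass`, uniformly in
`j` (both functions are bounded, by `1` and by `p`). Fix `j`, put `S M = ∑_{n ∈ Icc 1 M} Ψ j (p n)`,
`‖S M‖ ≤ M`, `g M = c j M * S M / M²` (`‖g M‖ ≤ 1 / M`, `g 0 = 0`). By `wmean_E` the numerator of the
first window mean is `∑_{M ∈ Ioc a b} g M`. The numerator of the second one is
`∑_{M' ∈ Ioc a b} g' M'`, `g' M' = c j (M'/p) * p * S (M'/p) / M'²` (the multiples of `p` in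
`Icc 1 M'` are the `p n`, `n ∈ Icc 1 (M'/p)`). Claim: for all `x`,
`‖∑_{M' ∈ Ioc 0 x} g' M' - ∑_{M ∈ Ioc 0 x} g M‖ ≤ K_p`; apply it at `x = a` and `x = b`
(`∑ over Ioc a b = ∑ over Ioc 0 b - ∑ over Ioc 0 a`). Proof of the claim: group the `M'` in
`Ioc 0 x` by `M = M'/p` (`M' = p M + r`, `r < p`). For `M = 0`, `g' = 0`. A complete block (`p M + p - 1 ≤ x`,
`M ≥ 1`) contributes `c j M * S M * ∑_{r < p} p / (p M + r)²`, and
`1 / (M + 1)² ≤ ∑_{r<p} p / (p M + r)² ≤ 1 / M²`, so it differs from `g M` by at most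
`M (1 / M² - 1 / (M+1)²) ≤ 3 / M²`; the sum over `M` is `≤ 6` (`sum_inv_sq_le`). The incomplete
block has norm `≤ p * (p (M+1) ... )`: each `‖g' M'‖ ≤ p * (M'/p) / M'² ≤ 1 / M' ≤ 1`, at most `p`
terms. The remaining `g M` with `x/p < M ≤ x` (or `M` = the incomplete block): at most
`∑_{x/p < M ≤ x} 1/M ≤ p` (e.g. there are at most `x` terms, each `≤ 1 / (x/p)`... use
`1/M ≤ p/x` for `M > x/p` since `p M > x`, so the sum is `≤ x * (p / x) = p`), plus one more term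
`≤ 1`. Total `K_p = 2 (6 + p + p + 1)` or similar.
Alternative without blocks: induction on `x`... (any proof is fine).
-/

set_option autoImplicit false

namespace DG

open Finset Filter Topology

private noncomputable def h86g (c S : ℕ → ℂ) (M : ℕ) : ℂ :=
  (1 / (M : ℂ)) * ((1 / (M : ℂ)) * (c M * S M))

private noncomputable def h86g' (p : ℕ) (c S : ℕ → ℂ) (M : ℕ) : ℂ :=
  (1 / (M : ℂ)) * ((1 / (M : ℂ)) * (c (M / p) * ((p : ℂ) * S (M / p))))

private theorem h86_S0 {S : ℕ → ℂ} (hS : ∀ M, ‖S M‖ ≤ M) : S 0 = 0 := by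
  have := hS 0
  rw [Nat.cast_zero] at this
  exact norm_le_zero_iff.1 this

private theorem h86_g_le {c S : ℕ → ℂ} (hc : ∀ M, ‖c M‖ ≤ 1) (hS : ∀ M, ‖S M‖ ≤ M) (M : ℕ) :
    ‖h86g c S M‖ ≤ 1 / (M : ℝ) := by
  unfold h86g
  rw [norm_mul, norm_mul, norm_div, norm_one, Complex.norm_natCast, norm_mul]
  rcases Nat.eq_zero_or_pos M with rfl | hM
  · simp
  · have hM0 : (0 : ℝ) < M := by exact_mod_cast hM
    calc 1 / (M : ℝ) * (1 / (M : ℝ) * (‖c M‖ * ‖S M‖))
        ≤ 1 / (M : ℝ) * (1 / (M : ℝ) * (1 * M)) := by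
          gcongr
          · exact hc M
          · exact hS M
      _ = 1 / (M : ℝ) := by field_simp

private theorem h86_g'_le {p : ℕ} {c S : ℕ → ℂ} (hc : ∀ M, ‖c M‖ ≤ 1)
    (hS : ∀ M, ‖S M‖ ≤ M) (M : ℕ) : ‖h86g' p c S M‖ ≤ 1 := by
  unfold h86g'
  rw [norm_mul, norm_mul, norm_div, norm_one, Complex.norm_natCast, norm_mul, norm_mul,
    Complex.norm_natCast]
  rcases Nat.eq_zero_or_pos M with rfl | hM
  · simp
  · have hM0 : (0 : ℝ) < M := by exact_mod_cast hM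
    have hM1 : (1 : ℝ) ≤ M := by exact_mod_cast hM
    have h1 : (p : ℝ) * ((M / p : ℕ) : ℝ) ≤ M := by
      exact_mod_cast Nat.mul_div_le M p
    have h2 : (p : ℝ) * ‖S (M / p)‖ ≤ M := by
      refine le_trans ?_ h1
      have := hS (M / p)
      gcongr
    have h3 : ‖c (M / p)‖ * ((p : ℝ) * ‖S (M / p)‖) ≤ 1 * M :=
      mul_le_mul (hc _) h2 (by positivity) zero_le_one
    calc 1 / (M : ℝ) * (1 / (M : ℝ) * (‖c (M / p)‖ * ((p : ℝ) * ‖S (M / p)‖)))
        ≤ 1 / (M : ℝ) * (1 / (M : ℝ) * (1 * M)) := by gcongr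
      _ = 1 / (M : ℝ) := by field_simp
      _ ≤ 1 := by
          rw [div_le_one hM0]
          exact hM1

private theorem h86_block {p : ℕ} (hp : 1 ≤ p) {c S : ℕ → ℂ} (hc : ∀ M, ‖c M‖ ≤ 1)
    (hS : ∀ M, ‖S M‖ ≤ M) (M : ℕ) :
    ‖∑ r ∈ range p, h86g' p c S (p * M + r) - h86g c S M‖ ≤ 3 * (1 / (M : ℝ) ^ 2) := by
  have hdiv : ∀ r ∈ range p, (p * M + r) / p = M := by
    intro r hr
    rw [Nat.mul_add_div (by omega), Nat.div_eq_of_lt (Finset.mem_range.1 hr), add_zero]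
  rcases Nat.eq_zero_or_pos M with rfl | hM
  · have h1 : ∑ r ∈ range p, h86g' p c S (p * 0 + r) = 0 := by
      refine Finset.sum_eq_zero fun r hr => ?_
      unfold h86g'
      rw [hdiv r hr, h86_S0 hS]
      simp
    have h2 : h86g c S 0 = 0 := by
      unfold h86g
      simp
    rw [h1, h2]
    simp
  · have hM0 : (0 : ℝ) < M := by exact_mod_cast hM
    have hM1 : (1 : ℝ) ≤ M := by exact_mod_cast hM
    have hp0 : (0 : ℝ) < p := by exact_mod_cast hp
    have hMC : (M : ℂ) ≠ 0 := by exact_mod_cast hM.ne'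
    have h1 : ∑ r ∈ range p, h86g' p c S (p * M + r) - h86g c S M =
        (c M * S M) * ((∑ r ∈ range p, (p : ℝ) / ((p : ℝ) * M + r) ^ 2 - 1 / (M : ℝ) ^ 2 : ℝ) : ℂ) := by
      have h2 : ∀ r ∈ range p, h86g' p c S (p * M + r) =
          (c M * S M) * (((p : ℝ) / ((p : ℝ) * M + r) ^ 2 : ℝ) : ℂ) := by
        intro r hr
        unfold h86g'
        rw [hdiv r hr]
        have h3 : ((p * M + r : ℕ) : ℂ) ≠ 0 := by
          have : 0 < p * M + r := by positivity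
          exact_mod_cast this.ne'
        push_cast at h3 ⊢
        field_simp
      rw [Finset.sum_congr rfl h2, ← Finset.mul_sum]
      unfold h86g
      push_cast
      rw [mul_sub]
      congr 1
      field_simp
    have hup : ∑ r ∈ range p, (p : ℝ) / ((p : ℝ) * M + r) ^ 2 ≤ 1 / (M : ℝ) ^ 2 := by
      have h2 : ∀ r ∈ range p, (p : ℝ) / ((p : ℝ) * M + r) ^ 2 ≤ (p : ℝ) / ((p : ℝ) * M) ^ 2 := by
        intro r _
        have : (0 : ℝ) ≤ r := Nat.cast_nonneg r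
        gcongr
        linarith
      refine (Finset.sum_le_sum h2).trans (le_of_eq ?_)
      rw [Finset.sum_const, Finset.card_range, nsmul_eq_mul]
      field_simp
    have hlo : 1 / ((M : ℝ) + 1) ^ 2 ≤ ∑ r ∈ range p, (p : ℝ) / ((p : ℝ) * M + r) ^ 2 := by
      have h2 : ∀ r ∈ range p, (p : ℝ) / ((p : ℝ) * M + p) ^ 2 ≤ (p : ℝ) / ((p : ℝ) * M + r) ^ 2 := by
        intro r hr
        have h3 : (r : ℝ) ≤ p := by exact_mod_cast (Finset.mem_range.1 hr).le
        have : (0 : ℝ) ≤ r := Nat.cast_nonneg r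
        gcongr
      refine le_trans (le_of_eq ?_) (Finset.sum_le_sum h2)
      rw [Finset.sum_const, Finset.card_range, nsmul_eq_mul]
      have : (p : ℝ) * M + p = p * (M + 1) := by ring
      rw [this]
      field_simp
    rw [h1, norm_mul, Complex.norm_real, Real.norm_eq_abs, norm_mul]
    have h4 : |∑ r ∈ range p, (p : ℝ) / ((p : ℝ) * M + r) ^ 2 - 1 / (M : ℝ) ^ 2| ≤
        3 / (M : ℝ) ^ 3 := by
      rw [abs_sub_comm, abs_of_nonneg (by linarith)]
      have h5 : 1 / (M : ℝ) ^ 2 - 1 / ((M : ℝ) + 1) ^ 2 ≤ 3 / (M : ℝ) ^ 3 := by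
        rw [div_sub_div _ _ (by positivity) (by positivity), div_le_div_iff₀ (by positivity)
          (by positivity)]
        have e : (1 * ((M : ℝ) + 1) ^ 2 - (M : ℝ) ^ 2 * 1) * (M : ℝ) ^ 3 =
            (2 * M + 1) * (M : ℝ) * (M : ℝ) ^ 2 := by ring
        rw [e]
        have h6 : (2 * M + 1) * (M : ℝ) ≤ 3 * ((M : ℝ) + 1) ^ 2 := by nlinarith
        nlinarith [mul_le_mul_of_nonneg_right h6 (sq_nonneg (M : ℝ))]
      linarith
    calc ‖c M‖ * ‖S M‖ * |∑ r ∈ range p, (p : ℝ) / ((p : ℝ) * M + r) ^ 2 - 1 / (M : ℝ) ^ 2|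
        ≤ 1 * (M : ℝ) * (3 / (M : ℝ) ^ 3) := by
          gcongr
          · exact hc M
          · exact hS M
      _ = 3 * (1 / (M : ℝ) ^ 2) := by field_simp

private theorem h86_blocks {p : ℕ} (hp : 1 ≤ p) {c S : ℕ → ℂ} (hc : ∀ M, ‖c M‖ ≤ 1)
    (hS : ∀ M, ‖S M‖ ≤ M) (X : ℕ) :
    ‖∑ M ∈ range (p * X), h86g' p c S M - ∑ M ∈ range X, h86g c S M‖ ≤
      ∑ M ∈ range X, 3 * (1 / (M : ℝ) ^ 2) := by
  induction X with
  | zero => simp
  | succ X ih =>
    rw [Nat.mul_succ, Finset.sum_range_add, Finset.sum_range_succ, Finset.sum_range_succ]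
    have h1 : ∑ M ∈ range (p * X), h86g' p c S M + ∑ r ∈ range p, h86g' p c S (p * X + r) -
        (∑ M ∈ range X, h86g c S M + h86g c S X) =
        (∑ M ∈ range (p * X), h86g' p c S M - ∑ M ∈ range X, h86g c S M) +
        (∑ r ∈ range p, h86g' p c S (p * X + r) - h86g c S X) := by ring
    rw [h1]
    exact (norm_add_le _ _).trans (add_le_add ih (h86_block hp hc hS X))

private theorem h86_sq_sum (X : ℕ) : ∑ M ∈ range X, 3 * (1 / (M : ℝ) ^ 2) ≤ 6 := by
  rw [← Finset.mul_sum]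
  have h1 : ∑ M ∈ range X, 1 / (M : ℝ) ^ 2 ≤ ∑ M ∈ Ioc 0 X, 1 / (M : ℝ) ^ 2 := by
    have h2 : ∑ M ∈ range X, 1 / (M : ℝ) ^ 2 = ∑ M ∈ (range X).filter (fun M => M ≠ 0),
        1 / (M : ℝ) ^ 2 := by
      rw [Finset.sum_filter]
      refine Finset.sum_congr rfl fun M _ => ?_
      by_cases hM : M = 0
      · subst hM
        simp
      · rw [if_pos hM]
    rw [h2]
    apply Finset.sum_le_sum_of_subset_of_nonneg
    · intro M hM
      rw [Finset.mem_filter, Finset.mem_range] at hM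
      rw [Finset.mem_Ioc]
      omega
    · intro M _ _
      positivity
  have := sum_inv_sq_le 0 X
  linarith

private theorem h86_claim {p : ℕ} (hp : 1 ≤ p) {c S : ℕ → ℂ} (hc : ∀ M, ‖c M‖ ≤ 1)
    (hS : ∀ M, ‖S M‖ ≤ M) (y : ℕ) :
    ‖∑ M ∈ range y, h86g' p c S M - ∑ M ∈ range y, h86g c S M‖ ≤ 6 + 3 * p := by
  have hp0 : (0 : ℝ) < p := by exact_mod_cast hp
  set X := y / p with hX
  set ρ := y % p with hρ
  have hy : y = p * X + ρ := (Nat.div_add_mod y p).symm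
  have hρp : ρ < p := Nat.mod_lt _ (by omega)
  have hXy : X ≤ y := Nat.div_le_self _ _
  have h1 : ∑ M ∈ range y, h86g' p c S M = ∑ M ∈ range (p * X), h86g' p c S M +
      ∑ r ∈ range ρ, h86g' p c S (p * X + r) := by
    conv_lhs => rw [hy]
    rw [Finset.sum_range_add]
  have h2 : ∑ M ∈ range y, h86g c S M = ∑ M ∈ range X, h86g c S M + ∑ M ∈ Ico X y, h86g c S M :=
    (Finset.sum_range_add_sum_Ico _ hXy).symm
  have h3 : ‖∑ r ∈ range ρ, h86g' p c S (p * X + r)‖ ≤ p := by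
    refine (norm_sum_le_of_le _ (fun r _ => h86_g'_le hc hS _)).trans ?_
    rw [Finset.sum_const, Finset.card_range, nsmul_eq_mul, mul_one]
    exact_mod_cast hρp.le
  have h4 : ‖∑ M ∈ Ico X y, h86g c S M‖ ≤ 2 * p := by
    rcases Nat.eq_zero_or_pos y with hy0 | hy0
    · have : Ico X y = ∅ := by
        rw [hy0]
        exact Finset.Ico_eq_empty (Nat.not_lt_zero _)
      rw [this, Finset.sum_empty, norm_zero]
      positivity
    · have hyr : (0 : ℝ) < y := by exact_mod_cast hy0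
      have h5 : ∀ M ∈ Ico X y, ‖h86g c S M‖ ≤ 2 * p / y := by
        intro M hM
        refine (h86_g_le hc hS M).trans ?_
        rcases Nat.eq_zero_or_pos M with rfl | hM0
        · simp only [Nat.cast_zero, div_zero]
          positivity
        · have hM0r : (0 : ℝ) < M := by exact_mod_cast hM0
          have h6 : y ≤ p * (2 * M) := by
            have h7 := (Finset.mem_Ico.1 hM).1
            have h8 : p * X ≤ p * M := Nat.mul_le_mul_left p h7
            have h9 : p * 1 ≤ p * M := Nat.mul_le_mul_left p hM0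
            have h10 : p * (2 * M) = p * M + p * M := by ring
            omega
          have h6r : (y : ℝ) ≤ p * (2 * M) := by exact_mod_cast h6
          rw [div_le_div_iff₀ hM0r hyr]
          linarith
      refine (norm_sum_le_of_le _ h5).trans ?_
      rw [Finset.sum_const, Nat.card_Ico, nsmul_eq_mul]
      have h6 : ((y - X : ℕ) : ℝ) ≤ y := by exact_mod_cast Nat.sub_le _ _
      calc ((y - X : ℕ) : ℝ) * (2 * p / y) ≤ y * (2 * p / y) := by gcongr
        _ = 2 * p := by field_simp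
  have h5 := (h86_blocks hp hc hS X).trans (h86_sq_sum X)
  have h6 : ∑ M ∈ range y, h86g' p c S M - ∑ M ∈ range y, h86g c S M =
      (∑ M ∈ range (p * X), h86g' p c S M - ∑ M ∈ range X, h86g c S M) +
      ∑ r ∈ range ρ, h86g' p c S (p * X + r) - ∑ M ∈ Ico X y, h86g c S M := by
    rw [h1, h2]
    ring
  rw [h6]
  refine (norm_sub_le _ _).trans ?_
  refine (add_le_add (norm_add_le _ _) le_rfl).trans ?_
  linarith

private theorem h86_mult {p : ℕ} (hp : 1 ≤ p) (f : ℤ → ℂ) (N : ℕ) :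
    ∑ n ∈ Icc 1 N, (if (p : ℤ) ∣ (n : ℤ) then (p : ℂ) else 0) * f n =
      (p : ℂ) * ∑ n ∈ Icc 1 (N / p), f ((p : ℤ) * n) := by
  have h1 : ∑ n ∈ Icc 1 N, (if (p : ℤ) ∣ (n : ℤ) then (p : ℂ) else 0) * f n =
      ∑ n ∈ (Icc 1 N).filter (fun n => p ∣ n), (p : ℂ) * f n := by
    rw [Finset.sum_filter]
    refine Finset.sum_congr rfl fun n _ => ?_
    by_cases h : p ∣ n
    · rw [if_pos (Int.natCast_dvd_natCast.2 h), if_pos h]
    · rw [if_neg (fun h2 => h (Int.natCast_dvd_natCast.1 h2)), if_neg h, zero_mul]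
  rw [h1, Finset.mul_sum]
  symm
  refine Finset.sum_bij (fun n _ => p * n) ?_ ?_ ?_ ?_
  · intro n hn
    rw [Finset.mem_Icc] at hn
    rw [Finset.mem_filter, Finset.mem_Icc]
    refine ⟨⟨?_, ?_⟩, dvd_mul_right _ _⟩
    · exact Nat.mul_pos (by omega) (by omega)
    · exact (Nat.mul_le_mul_left p hn.2).trans (Nat.mul_div_le N p)
  · intro a _ b _ hab
    exact Nat.eq_of_mul_eq_mul_left (by omega) hab
  · intro b hb
    rw [Finset.mem_filter, Finset.mem_Icc] at hb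
    obtain ⟨⟨hb1, hb2⟩, ⟨k, rfl⟩⟩ := hb
    refine ⟨k, ?_, rfl⟩
    rw [Finset.mem_Icc]
    constructor
    · rcases Nat.eq_zero_or_pos k with rfl | hk
      · omega
      · exact hk
    · rw [Nat.le_div_iff_mul_le (by omega), mul_comm]
      exact hb2
  · intro n _
    push_cast
    rfl

theorem app_dil (w : Win) (p : ℕ) (hp : 1 ≤ p) (c : ℕ → ℕ → ℂ) (Ψ : ℕ → ℤ → ℂ)
    (hc : ∀ j M, ‖c j M‖ ≤ 1) (hΨ : ∀ j n, ‖Ψ j n‖ ≤ 1) :
    (appμ w).E (fun s => c s.1 s.2.1 * Ψ s.1 ((p : ℤ) * s.2.2)) =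
      (appμ w).E (fun s => c s.1 (s.2.1 / p) *
        ((if (p : ℤ) ∣ s.2.2 then (p : ℂ) else 0) * Ψ s.1 s.2.2)) := by
  refine app_eq_of_close w _ _ ⟨1, ?_⟩ ⟨p, ?_⟩ (2 * (6 + 3 * p)) ?_
  · rintro ⟨j, M, n⟩
    simp only [norm_mul]
    exact mul_le_one₀ (hc _ _) (norm_nonneg _) (hΨ _ _)
  · rintro ⟨j, M, n⟩
    simp only [norm_mul]
    have h1 : ‖(if (p : ℤ) ∣ n then (p : ℂ) else 0)‖ ≤ p := by
      split_ifs
      · rw [Complex.norm_natCast]
      · rw [norm_zero]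
        exact Nat.cast_nonneg p
    calc ‖c j (M / p)‖ * (‖(if (p : ℤ) ∣ n then (p : ℂ) else 0)‖ * ‖Ψ j n‖)
        ≤ 1 * ((p : ℝ) * 1) := by
          gcongr
          · exact hc _ _
          · exact hΨ _ _
      _ = p := by ring
  · intro j
    have hm := mass_pos (w.lt j)
    rw [wmean_E, wmean_E, ← sub_div, norm_div, Complex.norm_real, Real.norm_of_nonneg hm.le]
    refine div_le_div_of_nonneg_right ?_ hm.le
    set S : ℕ → ℂ := fun M => ∑ n ∈ Icc 1 M, Ψ j ((p : ℤ) * n) with hSdef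
    have hS : ∀ M, ‖S M‖ ≤ M := by
      intro M
      refine (norm_sum_le_of_le _ (fun n _ => hΨ _ _)).trans ?_
      rw [Finset.sum_const, Nat.card_Icc, Nat.add_sub_cancel, nsmul_eq_mul, mul_one]
    have h1 : ∀ M : ℕ, (1 / (M : ℂ)) * ((1 / (M : ℂ)) * ∑ n ∈ Icc 1 M,
        c (j, M, (n : ℤ)).1 (j, M, (n : ℤ)).2.1 *
          Ψ (j, M, (n : ℤ)).1 ((p : ℤ) * (j, M, (n : ℤ)).2.2)) = h86g (c j) S M := by
      intro M
      change (1 / (M : ℂ)) * ((1 / (M : ℂ)) * ∑ n ∈ Icc 1 M, c j M * Ψ j ((p : ℤ) * n)) =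
        (1 / (M : ℂ)) * ((1 / (M : ℂ)) * (c j M * S M))
      rw [← Finset.mul_sum]
    have h2 : ∀ M : ℕ, (1 / (M : ℂ)) * ((1 / (M : ℂ)) * ∑ n ∈ Icc 1 M,
        c (j, M, (n : ℤ)).1 ((j, M, (n : ℤ)).2.1 / p) *
          ((if (p : ℤ) ∣ (j, M, (n : ℤ)).2.2 then (p : ℂ) else 0) *
            Ψ (j, M, (n : ℤ)).1 (j, M, (n : ℤ)).2.2)) = h86g' p (c j) S M := by
      intro M
      change (1 / (M : ℂ)) * ((1 / (M : ℂ)) * ∑ n ∈ Icc 1 M, c j (M / p) *
          ((if (p : ℤ) ∣ (n : ℤ) then (p : ℂ) else 0) * (fun n : ℤ => Ψ j n) n)) =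
        (1 / (M : ℂ)) * ((1 / (M : ℂ)) * (c j (M / p) * ((p : ℂ) * S (M / p))))
      rw [← Finset.mul_sum, h86_mult hp (fun n : ℤ => Ψ j n) M]
    simp only [h1, h2]
    have h3 : ∀ f : ℕ → ℂ, ∑ M ∈ Ioc (w.a j) (w.b j), f M =
        ∑ M ∈ range (w.b j + 1), f M - ∑ M ∈ range (w.a j + 1), f M := by
      intro f
      rw [← Finset.sum_range_add_sum_Ico f (show w.a j + 1 ≤ w.b j + 1 by
        have := w.lt j; omega), add_sub_cancel_left]
      refine Finset.sum_congr ?_ fun _ _ => rfl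
      ext x
      simp only [Finset.mem_Ioc, Finset.mem_Ico]
      omega
    rw [h3, h3]
    have hb := h86_claim hp (hc j) hS (w.b j + 1)
    have ha := h86_claim hp (hc j) hS (w.a j + 1)
    have h4 : ∑ M ∈ range (w.b j + 1), h86g (c j) S M - ∑ M ∈ range (w.a j + 1), h86g (c j) S M -
        (∑ M ∈ range (w.b j + 1), h86g' p (c j) S M -
          ∑ M ∈ range (w.a j + 1), h86g' p (c j) S M) =
        (∑ M ∈ range (w.a j + 1), h86g' p (c j) S M - ∑ M ∈ range (w.a j + 1), h86g (c j) S M) -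
        (∑ M ∈ range (w.b j + 1), h86g' p (c j) S M -
          ∑ M ∈ range (w.b j + 1), h86g (c j) S M) := by ring
    rw [h4]
    refine (norm_sub_le _ _).trans ?_
    linarith

end DG
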