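import Pool.Agent.Helper6.DG.E0

/-!
# DG-E2: small facts on the mean of the application, slow variation of the weight

PROOF.
`app_congr`: the window means agree (`wmean_E`: only `1 ≤ n ≤ M`, `M ≥ 1` occur), so the limits
agree (`app_tendsto`, `tendsto_nhds_unique`).
`app_small`: `‖(appμ w).E (F * G)‖ ≤ δ * R G`. Write `F G = 1[M0 ≤ M] F G + 1[M < M0] F G`. The second
function `H` is bounded by `C B` and vanishes for `M ≥ M0`, so by `wmean_E` its window mean is at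
most `C B * M0 / mass` (each `M ≥ 1` contributes `≤ C B / M ≤ C B`), so its mean is `0`
(`app_eq_of_close` with `G = 0`). For the first use `Mean.norm_E_le_R_norm` and `Mean.R_mono`:
`‖1[M0 ≤ M] F G‖ ≤ δ G`.
`app_div`: by invariance (`(app w).inv_zpow`, `shT_zpow`) the mean of `1[p ∣ n + t]` does not depend on
`t`, and `∑_{t < p} 1[p ∣ n + t] = 1` for every `n` (exactly one `t`), so `p * mean = 1`.
`c0_slow`: `Tr A r k j M = (1/M) ∑_{n ≤ M} u n` with `0 ≤ u ≤ 1`; for `1 ≤ M' ≤ M`: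
`M Tr M - M' Tr M' ∈ [0, M - M']`, so `|Tr M - (M'/M) Tr M'| ≤ (M - M')/M` and
`|(M'/M) Tr M' - Tr M'| ≤ (M - M')/M`.
`c0_abs`: `0 ≤ Tr ≤ 1`.
`cwt_close`: for `p ∈ [2^l, 2^l + 2^l / D]` and `M ≥ M0` (say `M0 = 2^(e+l) * 16 D`): with
`x = M / 2^(e+l)`, `y = (M / p) / 2^e = M / (p 2^e)` (`Nat.div_div_eq_div_mul`): `y ≤ x`,
`x - y ≤ M/2^(e+l) - M/(p 2^e) + 1 ≤ (M/2^(e+l)) (1 - 2^l/p) + 1 ≤ (M/2^(e+l)) (1/D) + 1` (real
division) and `x ≥ M/2^(e+l) - 1 ≥ 15 D`, `y ≥ 1`; so `4 (x - y)/x ≤ 5/D` (check: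
`M/2^(e+l) ≤ x + 1`, `4((x+1)/D + 1)/x = 4/D + 4 (1/D + 1)/x ≤ 4/D + 8/(15 D) ≤ 5/D`).
-/

set_option autoImplicit false

namespace DG

open Finset Filter Topology

theorem app_congr (w : Win) (F G : ℕ × ℕ × ℤ → ℂ) (hF : Bd F) (hG : Bd G)
    (h : ∀ j M : ℕ, ∀ n : ℤ, 1 ≤ M → 1 ≤ n → F (j, M, n) = G (j, M, n)) :
    (appμ w).E F = (appμ w).E G := by
  refine app_eq_of_close w F G hF hG 0 (fun j => ?_)
  have h1 : (wmean w j).E F = (wmean w j).E G := by
    rw [wmean_E, wmean_E]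
    congr 1
    refine Finset.sum_congr rfl fun M hM => ?_
    congr 2
    refine Finset.sum_congr rfl fun n hn => ?_
    have hM1 : 1 ≤ M := by
      have := (Finset.mem_Ioc.1 hM).1
      omega
    have hn1 : 1 ≤ n := (Finset.mem_Icc.1 hn).1
    exact h j M n hM1 (by exact_mod_cast hn1)
  rw [h1, sub_self, norm_zero, zero_div]

theorem app_small (w : Win) (F : ℕ × ℕ × ℤ → ℂ) (G : ℕ × ℕ × ℤ → ℝ) (C B δ : ℝ) (M0 : ℕ)
    (hF : ∀ s, ‖F s‖ ≤ C) (hG0 : ∀ s, 0 ≤ G s) (hG : ∀ s, G s ≤ B) (hδ : 0 ≤ δ)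
    (h : ∀ s, M0 ≤ s.2.1 → ‖F s‖ ≤ δ) :
    ‖(appμ w).E (fun s => F s * (G s : ℂ))‖ ≤ δ * (appμ w).R G := by
  classical
  have hC0 : 0 ≤ C := (norm_nonneg _).trans (hF (0, 0, 0))
  have hB0 : 0 ≤ B := (hG0 (0, 0, 0)).trans (hG (0, 0, 0))
  have hnG : ∀ s, ‖(G s : ℂ)‖ ≤ B := fun s => by
    rw [Complex.norm_real, Real.norm_of_nonneg (hG0 s)]; exact hG s
  have hFG : ∀ s, ‖F s * (G s : ℂ)‖ ≤ C * B := fun s => by
    rw [norm_mul]
    exact mul_le_mul (hF s) (hnG s) (norm_nonneg _) hC0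
  -- the part with small scale
  set H : ℕ × ℕ × ℤ → ℂ := fun s => if s.2.1 < M0 then F s * (G s : ℂ) else 0 with hH
  set K : ℕ × ℕ × ℤ → ℂ := fun s => if s.2.1 < M0 then 0 else F s * (G s : ℂ) with hK
  have hHb : ∀ s, ‖H s‖ ≤ C * B := fun s => by
    simp only [hH]
    split_ifs
    · exact hFG s
    · rw [norm_zero]; positivity
  have hKb : ∀ s, ‖K s‖ ≤ C * B := fun s => by
    simp only [hK]
    split_ifs
    · rw [norm_zero]; positivity
    · exact hFG s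
  have hsplit : (fun s => F s * (G s : ℂ)) = fun s => H s + K s := by
    funext s
    simp only [hH, hK]
    split_ifs <;> simp
  have hH0 : (appμ w).E H = 0 := by
    have h1 : (appμ w).E H = (appμ w).E (fun _ => 0) := by
      refine app_eq_of_close w H (fun _ => 0) ⟨_, hHb⟩ (Bd.const 0) (C * B * M0) (fun j => ?_)
      have hz : (wmean w j).E (fun _ => (0 : ℂ)) = 0 := (wmean w j).E_const 0
      rw [hz, sub_zero, wmean_E, norm_div, Complex.norm_real,
        Real.norm_of_nonneg (mass_pos (w.lt j)).le]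
      refine div_le_div_of_nonneg_right ?_ (mass_pos (w.lt j)).le
      have h2 : ∀ M ∈ Ioc (w.a j) (w.b j), ‖(1 / (M : ℂ)) *
          ((1 / (M : ℂ)) * ∑ n ∈ Icc 1 M, H (j, M, (n : ℤ)))‖ ≤ if M < M0 then C * B else 0 := by
        intro M hM
        have hM1 : 1 ≤ M := by
          have := (Finset.mem_Ioc.1 hM).1
          omega
        have hMr : (1 : ℝ) ≤ M := by exact_mod_cast hM1
        split_ifs with hlt
        · rw [norm_mul, norm_mul, norm_div, norm_one, Complex.norm_natCast]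
          have h3 : ‖∑ n ∈ Icc 1 M, H (j, M, (n : ℤ))‖ ≤ M * (C * B) := by
            refine (norm_sum_le_of_le (Icc 1 M) (fun (n : ℕ) _ => hHb (j, M, (n : ℤ)))).trans ?_
            rw [Finset.sum_const, Nat.card_Icc, Nat.add_sub_cancel, nsmul_eq_mul]
          calc 1 / (M : ℝ) * (1 / (M : ℝ) * ‖∑ n ∈ Icc 1 M, H (j, M, (n : ℤ))‖)
              ≤ 1 / (M : ℝ) * (1 / (M : ℝ) * (M * (C * B))) := by gcongr
            _ = 1 / (M : ℝ) * (C * B) := by
                field_simp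
            _ ≤ 1 * (C * B) := by
                apply mul_le_mul_of_nonneg_right _ (by positivity)
                rw [div_le_one (by linarith)]
                exact hMr
            _ = C * B := one_mul _
        · have h3 : ∑ n ∈ Icc 1 M, H (j, M, (n : ℤ)) = 0 := by
            refine Finset.sum_eq_zero fun n _ => ?_
            simp only [hH, if_neg hlt]
          rw [h3, mul_zero, mul_zero, norm_zero]
      refine (norm_sum_le_of_le _ h2).trans ?_
      rw [← Finset.sum_filter, Finset.sum_const, nsmul_eq_mul]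
      have h4 : (((Ioc (w.a j) (w.b j)).filter (fun M => M < M0)).card : ℝ) ≤ M0 := by
        have : ((Ioc (w.a j) (w.b j)).filter (fun M => M < M0)) ⊆ range M0 := by
          intro M hM
          exact Finset.mem_range.2 (Finset.mem_filter.1 hM).2
        have h5 := Finset.card_le_card this
        rw [Finset.card_range] at h5
        exact_mod_cast h5
      calc (((Ioc (w.a j) (w.b j)).filter (fun M => M < M0)).card : ℝ) * (C * B)
          ≤ M0 * (C * B) := by gcongr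
        _ = C * B * M0 := by ring
    rw [h1]
    exact (appμ w).E_const 0
  rw [hsplit, (appμ w).E_add, hH0, zero_add]
  refine ((appμ w).norm_E_le_R_norm K ⟨_, hKb⟩).trans ?_
  rw [← (appμ w).R_const_mul]
  refine (appμ w).R_mono _ _ (fun s => ?_) (C := max (C * B) (δ * B)) (fun s => ?_) (fun s => ?_)
  · simp only [hK]
    split_ifs with hlt
    · rw [norm_zero]
      exact mul_nonneg hδ (hG0 s)
    · rw [norm_mul, Complex.norm_real, Real.norm_of_nonneg (hG0 s)]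
      exact mul_le_mul_of_nonneg_right (h s (by omega)) (hG0 s)
  · rw [abs_of_nonneg (norm_nonneg _)]
    exact (hKb s).trans (le_max_left _ _)
  · rw [abs_of_nonneg (mul_nonneg hδ (hG0 s))]
    exact (mul_le_mul_of_nonneg_left (hG s) hδ).trans (le_max_right _ _)

private theorem sum_ind_dvd (p : ℕ) (hp : 1 ≤ p) (n : ℤ) :
    ∑ t ∈ range p, (if (p : ℤ) ∣ n + (t : ℤ) then (p : ℝ) else 0) = p := by
  have hp0 : (p : ℤ) ≠ 0 := by exact_mod_cast (by omega : p ≠ 0)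
  have hpp : (0 : ℤ) < p := by exact_mod_cast (by omega : 0 < p)
  set t0 : ℤ := (-n) % (p : ℤ) with ht0
  have h0 : 0 ≤ t0 := Int.emod_nonneg _ hp0
  have h1 : t0 < p := Int.emod_lt_of_pos _ hpp
  rw [Finset.sum_eq_single t0.toNat]
  · rw [if_pos]
    rw [Int.toNat_of_nonneg h0, ht0]
    have h2 : (p : ℤ) ∣ (-n) - (-n) % (p : ℤ) := Int.dvd_self_sub_emod
    have h3 := dvd_neg.2 h2
    have h4 : -((-n) - (-n) % (p : ℤ)) = n + (-n) % (p : ℤ) := by ring
    rwa [h4] at h3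
  · intro t ht hne
    rw [if_neg]
    intro hd
    apply hne
    have ht' : (t : ℤ) < p := by exact_mod_cast Finset.mem_range.1 ht
    have h2 : (p : ℤ) ∣ (-n) - (-n) % (p : ℤ) := Int.dvd_self_sub_emod
    have h5 : (p : ℤ) ∣ (t : ℤ) - t0 := by
      have := dvd_add hd h2
      have h6 : n + (t : ℤ) + ((-n) - (-n) % (p : ℤ)) = (t : ℤ) - t0 := by
        rw [ht0]; ring
      rwa [h6] at this
    have h7 : (t : ℤ) - t0 = 0 := by
      apply Int.eq_zero_of_abs_lt_dvd h5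
      rw [abs_lt]
      constructor
      · have : (0 : ℤ) ≤ t := Int.natCast_nonneg t
        linarith
      · linarith
    omega
  · intro hne
    exfalso
    apply hne
    rw [Finset.mem_range]
    omega

theorem app_div (w : Win) (p : ℕ) (hp : 1 ≤ p) :
    (appμ w).R (fun s => if (p : ℤ) ∣ s.2.2 then (p : ℝ) else 0) = 1 := by
  have hpr : (0 : ℝ) < p := by exact_mod_cast (by omega : 0 < p)
  have hb : ∀ s : ℕ × ℕ × ℤ, ‖(((if (p : ℤ) ∣ s.2.2 then (p : ℝ) else 0 : ℝ)) : ℂ)‖ ≤ p := by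
    intro s
    rw [Complex.norm_real]
    split_ifs
    · rw [Real.norm_of_nonneg hpr.le]
    · rw [norm_zero]; exact hpr.le
  have hinv : ∀ t : ℕ, (appμ w).R (fun s => if (p : ℤ) ∣ s.2.2 + (t : ℤ) then (p : ℝ) else 0) =
      (appμ w).R (fun s => if (p : ℤ) ∣ s.2.2 then (p : ℝ) else 0) := by
    intro t
    have h1 := (app w).inv_zpow (t : ℤ)
      (fun s : ℕ × ℕ × ℤ => (((if (p : ℤ) ∣ s.2.2 then (p : ℝ) else 0 : ℝ)) : ℂ)) ⟨_, hb⟩
    have h2 : (fun x : ℕ × ℕ × ℤ => (((if (p : ℤ) ∣ ((shT ^ (t : ℤ)) x).2.2 then (p : ℝ) else 0 :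
        ℝ)) : ℂ)) = fun s : ℕ × ℕ × ℤ =>
          (((if (p : ℤ) ∣ s.2.2 + (t : ℤ) then (p : ℝ) else 0 : ℝ)) : ℂ) := by
      funext s
      obtain ⟨j, M, x⟩ := s
      rw [shT_zpow]
    unfold Mean.R
    rw [← h2]
    exact congrArg Complex.re h1
  have hsum : (appμ w).R (fun s => ∑ t ∈ range p,
      (if (p : ℤ) ∣ s.2.2 + (t : ℤ) then (p : ℝ) else 0)) = p := by
    have h3 : (fun s : ℕ × ℕ × ℤ => ∑ t ∈ range p,
        (if (p : ℤ) ∣ s.2.2 + (t : ℤ) then (p : ℝ) else 0)) = fun _ => (p : ℝ) := by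
      funext s
      exact sum_ind_dvd p hp s.2.2
    rw [h3]
    exact (appμ w).R_const p
  rw [(appμ w).R_sum, Finset.sum_congr rfl (fun t _ => hinv t), Finset.sum_const,
    Finset.card_range, nsmul_eq_mul] at hsum
  have := mul_left_cancel₀ hpr.ne' (hsum.trans (mul_one (p : ℝ)).symm)
  exact this

private theorem u_bd (A : ℕ → ℕ → Finset ℕ) (r k j n : ℕ) :
    0 ≤ ∏ i ∈ range (k + 1),
      (if ArithmeticFunction.cardFactors (n + i) + r ∈ A j i then (1 : ℝ) else 0) ∧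
    ∏ i ∈ range (k + 1),
      (if ArithmeticFunction.cardFactors (n + i) + r ∈ A j i then (1 : ℝ) else 0) ≤ 1 := by
  constructor
  · refine Finset.prod_nonneg fun i _ => ?_
    split_ifs <;> norm_num
  · refine Finset.prod_le_one (fun i _ => ?_) (fun i _ => ?_)
    · split_ifs <;> norm_num
    · split_ifs <;> norm_num

private theorem S_bd (A : ℕ → ℕ → Finset ℕ) (r k j M : ℕ) :
    0 ≤ ∑ n ∈ Icc 1 M, ∏ i ∈ range (k + 1),
      (if ArithmeticFunction.cardFactors (n + i) + r ∈ A j i then (1 : ℝ) else 0) ∧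
    ∑ n ∈ Icc 1 M, ∏ i ∈ range (k + 1),
      (if ArithmeticFunction.cardFactors (n + i) + r ∈ A j i then (1 : ℝ) else 0) ≤ M := by
  constructor
  · exact Finset.sum_nonneg fun n _ => (u_bd A r k j n).1
  · refine (Finset.sum_le_sum fun n _ => (u_bd A r k j n).2).trans ?_
    rw [Finset.sum_const, Nat.card_Icc, Nat.add_sub_cancel, nsmul_eq_mul, mul_one]

private theorem S_inc (A : ℕ → ℕ → Finset ℕ) (r k j M M' : ℕ) (h2 : M' ≤ M) :
    0 ≤ (∑ n ∈ Icc 1 M, ∏ i ∈ range (k + 1),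
      (if ArithmeticFunction.cardFactors (n + i) + r ∈ A j i then (1 : ℝ) else 0)) -
      (∑ n ∈ Icc 1 M', ∏ i ∈ range (k + 1),
      (if ArithmeticFunction.cardFactors (n + i) + r ∈ A j i then (1 : ℝ) else 0)) ∧
    (∑ n ∈ Icc 1 M, ∏ i ∈ range (k + 1),
      (if ArithmeticFunction.cardFactors (n + i) + r ∈ A j i then (1 : ℝ) else 0)) -
      (∑ n ∈ Icc 1 M', ∏ i ∈ range (k + 1),
      (if ArithmeticFunction.cardFactors (n + i) + r ∈ A j i then (1 : ℝ) else 0)) ≤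
      (M : ℝ) - M' := by
  induction M, h2 using Nat.le_induction with
  | base => simp
  | succ M hM ih =>
    rw [Finset.sum_Icc_succ_top (by omega)]
    have := u_bd A r k j (M + 1)
    push_cast
    constructor
    · linarith [ih.1, this.1]
    · linarith [ih.2, this.2]

private theorem Tr_bd (A : ℕ → ℕ → Finset ℕ) (r k j M : ℕ) :
    0 ≤ Tr A r k j M ∧ Tr A r k j M ≤ 1 := by
  unfold Tr
  have h := S_bd A r k j M
  constructor
  · exact mul_nonneg (by positivity) h.1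
  · rcases Nat.eq_zero_or_pos M with rfl | hM
    · simp
    · have hMr : (0 : ℝ) < M := by exact_mod_cast hM
      rw [one_div, inv_mul_le_iff₀ hMr, mul_one]
      exact h.2

theorem c0_abs (A : ℕ → ℕ → Finset ℕ) (k j M : ℕ) : |c0 A k j M| ≤ 1 := by
  unfold c0
  have h1 := Tr_bd A 2 k j M
  have h2 := Tr_bd A 3 k j M
  rw [abs_le]
  constructor <;> linarith [h1.1, h1.2, h2.1, h2.2]

private theorem Tr_slow (A : ℕ → ℕ → Finset ℕ) (r k j M M' : ℕ) (h1 : 1 ≤ M') (h2 : M' ≤ M) :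
    |Tr A r k j M - Tr A r k j M'| ≤ 2 * ((M : ℝ) - M') / M := by
  unfold Tr
  have hb := S_bd A r k j M'
  have hi := S_inc A r k j M M' h2
  set S := ∑ n ∈ Icc 1 M, ∏ i ∈ range (k + 1),
      (if ArithmeticFunction.cardFactors (n + i) + r ∈ A j i then (1 : ℝ) else 0) with hS
  set S' := ∑ n ∈ Icc 1 M', ∏ i ∈ range (k + 1),
      (if ArithmeticFunction.cardFactors (n + i) + r ∈ A j i then (1 : ℝ) else 0) with hS'
  have hM' : (0 : ℝ) < M' := by exact_mod_cast (by omega : 0 < M')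
  have hM : (0 : ℝ) < M := by exact_mod_cast (by omega : 0 < M)
  have hle : (M' : ℝ) ≤ M := by exact_mod_cast h2
  have hq : 0 ≤ S' / M' ∧ S' / M' ≤ 1 := by
    constructor
    · exact div_nonneg hb.1 hM'.le
    · rw [div_le_one hM']; exact hb.2
  have e : 1 / (M : ℝ) * S - 1 / (M' : ℝ) * S' =
      ((S - S') - (S' / M') * ((M : ℝ) - M')) / M := by
    field_simp
    ring
  rw [e, abs_div, abs_of_pos hM]
  apply div_le_div_of_nonneg_right _ hM.le
  have h3 : 0 ≤ (S' / M') * ((M : ℝ) - M') := mul_nonneg hq.1 (by linarith)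
  have h4 : (S' / M') * ((M : ℝ) - M') ≤ (M : ℝ) - M' := by
    have := mul_le_mul_of_nonneg_right hq.2 (by linarith : (0 : ℝ) ≤ (M : ℝ) - M')
    linarith
  rw [abs_le]
  constructor <;> linarith [hi.1, hi.2]

theorem c0_slow (A : ℕ → ℕ → Finset ℕ) (k j M M' : ℕ) (h1 : 1 ≤ M') (h2 : M' ≤ M) :
    |c0 A k j M - c0 A k j M'| ≤ 4 * ((M : ℝ) - M') / M := by
  unfold c0
  have ha := Tr_slow A 2 k j M M' h1 h2
  have hb := Tr_slow A 3 k j M M' h1 h2
  have e : 4 * ((M : ℝ) - M') / M = 2 * ((M : ℝ) - M') / M + 2 * ((M : ℝ) - M') / M := by ring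
  rw [e]
  rw [abs_le] at ha hb ⊢
  constructor <;> linarith [ha.1, ha.2, hb.1, hb.2]

theorem cwt_close (A : ℕ → ℕ → Finset ℕ) (k e l D p : ℕ) (hD : 1 ≤ D) (hp1 : 2 ^ l ≤ p)
    (hp2 : p ≤ 2 ^ l + 2 ^ l / D) : ∃ M0 : ℕ, ∀ j M : ℕ, M0 ≤ M →
      |c0 A k j (M / p / 2 ^ e) - c0 A k j (M / 2 ^ (e + l))| ≤ 5 / D := by
  refine ⟨2 ^ (e + l) * (16 * D), fun j M hM => ?_⟩
  have hP : 0 < 2 ^ l := by positivity
  have hE : 0 < 2 ^ e := by positivity
  have hQ : 0 < 2 ^ (e + l) := by positivity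
  have hQe : 2 ^ (e + l) = 2 ^ l * 2 ^ e := by rw [pow_add, mul_comm]
  have hp : 0 < p := lt_of_lt_of_le hP hp1
  have hdd : M / p / 2 ^ e = M / (p * 2 ^ e) := Nat.div_div_eq_div_mul _ _ _
  set x := M / 2 ^ (e + l) with hx
  set y := M / p / 2 ^ e with hy
  have hyx : y ≤ x := by
    rw [hdd, hx, hQe]
    exact Nat.div_le_div_left (Nat.mul_le_mul_right _ hp1) (by positivity)
  have hx16 : 16 * D ≤ x := by
    rw [hx, Nat.le_div_iff_mul_le hQ]
    rw [mul_comm]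
    exact hM
  have hDle : 2 ^ l / D ≤ 2 ^ l := Nat.div_le_self _ _
  have hp2' : p * 2 ^ e ≤ 2 * 2 ^ (e + l) := by
    calc p * 2 ^ e ≤ (2 * 2 ^ l) * 2 ^ e := Nat.mul_le_mul_right _ (by omega)
      _ = 2 * 2 ^ (e + l) := by rw [hQe]; ring
  have hy1 : 1 ≤ y := by
    rw [hdd, Nat.le_div_iff_mul_le (by positivity), one_mul]
    calc p * 2 ^ e ≤ 2 * 2 ^ (e + l) := hp2'
      _ ≤ 2 ^ (e + l) * (16 * D) := by
          rw [mul_comm]
          exact Nat.mul_le_mul_left _ (by omega)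
      _ ≤ M := hM
  have hsl := c0_slow A k j x y hy1 hyx
  rw [abs_sub_comm]
  refine hsl.trans ?_
  -- real estimates
  have hDr : (1 : ℝ) ≤ D := by exact_mod_cast hD
  have hD0 : (0 : ℝ) < D := by linarith
  have hQr : (0 : ℝ) < (2 : ℝ) ^ (e + l) := by positivity
  have hEr : (0 : ℝ) < (2 : ℝ) ^ e := by positivity
  have hPr : (0 : ℝ) < (2 : ℝ) ^ l := by positivity
  have hpr : (2 : ℝ) ^ l ≤ p := by exact_mod_cast hp1
  have hp0r : (0 : ℝ) < p := lt_of_lt_of_le hPr hpr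
  have hp2r : (p : ℝ) ≤ 2 ^ l + 2 ^ l / D := by
    have h1 : (p : ℝ) ≤ ((2 ^ l + 2 ^ l / D : ℕ) : ℝ) := by exact_mod_cast hp2
    refine h1.trans ?_
    push_cast
    have h2 : ((2 ^ l / D : ℕ) : ℝ) ≤ ((2 ^ l : ℕ) : ℝ) / (D : ℝ) := Nat.cast_div_le
    push_cast at h2
    linarith
  have hQer : (2 : ℝ) ^ (e + l) = 2 ^ l * 2 ^ e := by rw [pow_add, mul_comm]
  have hx1 : (M : ℝ) / 2 ^ (e + l) ≤ x + 1 := by
    have h1 : M < (x + 1) * 2 ^ (e + l) := by
      rw [hx]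
      rw [mul_comm]
      exact Nat.lt_mul_div_succ M hQ
    have h2 : (M : ℝ) < ((x : ℝ) + 1) * 2 ^ (e + l) := by exact_mod_cast h1
    rw [div_le_iff₀ hQr]
    exact h2.le
  have hx2 : (x : ℝ) ≤ (M : ℝ) / 2 ^ (e + l) := by
    rw [le_div_iff₀ hQr]
    have := Nat.div_mul_le_self M (2 ^ (e + l))
    rw [← hx] at this
    exact_mod_cast this
  have hy2 : (M : ℝ) / (p * 2 ^ e) ≤ y + 1 := by
    have hpe : 0 < p * 2 ^ e := by positivity
    have h1 : M < (y + 1) * (p * 2 ^ e) := by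
      rw [hdd]
      rw [mul_comm]
      exact Nat.lt_mul_div_succ M hpe
    have h2 : (M : ℝ) < ((y : ℝ) + 1) * (p * 2 ^ e) := by exact_mod_cast h1
    rw [div_le_iff₀ (by positivity)]
    exact h2.le
  -- `M/Q - M/(p 2^e) ≤ (M/Q)/D`
  have hkey : (M : ℝ) / 2 ^ (e + l) - (M : ℝ) / (p * 2 ^ e) ≤ (M : ℝ) / 2 ^ (e + l) / D := by
    have h1 : (M : ℝ) / (p * 2 ^ e) = (M : ℝ) / 2 ^ (e + l) * (2 ^ l / p) := by
      rw [hQer]
      field_simp
    rw [h1]
    have h2 : 1 - (2 : ℝ) ^ l / p ≤ 1 / D := by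
      rw [one_sub_div hp0r.ne']
      have h3 : (p - 2 ^ l : ℝ) ≤ 2 ^ l / D := by linarith
      rw [div_le_div_iff₀ hp0r hD0]
      have h4 : (p - 2 ^ l : ℝ) * D ≤ 2 ^ l := by
        rw [← le_div_iff₀ hD0]; exact h3
      linarith
    have h5 : (0 : ℝ) ≤ (M : ℝ) / 2 ^ (e + l) := by positivity
    calc (M : ℝ) / 2 ^ (e + l) - (M : ℝ) / 2 ^ (e + l) * (2 ^ l / p)
        = (M : ℝ) / 2 ^ (e + l) * (1 - 2 ^ l / p) := by ring
      _ ≤ (M : ℝ) / 2 ^ (e + l) * (1 / D) := by gcongr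
      _ = (M : ℝ) / 2 ^ (e + l) / D := by ring
  have hxy : (x : ℝ) - y ≤ ((x : ℝ) + 1) / D + 1 := by
    have h1 : (M : ℝ) / 2 ^ (e + l) / D ≤ ((x : ℝ) + 1) / D := by gcongr
    linarith
  have hx16r : 16 * (D : ℝ) ≤ x := by exact_mod_cast hx16
  have hx0 : (0 : ℝ) < x := by linarith
  rw [div_le_div_iff₀ hx0 hD0]
  have h6 : ((x : ℝ) - y) * D ≤ (x : ℝ) + 1 + D := by
    have := mul_le_mul_of_nonneg_right hxy hD0.le
    have h7 : (((x : ℝ) + 1) / D + 1) * D = (x : ℝ) + 1 + D := by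
      field_simp
    linarith
  nlinarith

end DG
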