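import Pool.Agent.Helper6.DG.E1Dil
import Pool.Agent.Helper6.DG.E2Slow

/-!
# DG-E3: one step (one prime)

PROOF. For `n ≥ 1` and `a ≥ 1`: `Ω(p n + i (a p)) = Ω(p (n + i a)) = Ω(n + i a) + 1` (`p` prime,
`n + i a ≥ 1`; `ArithmeticFunction.cardFactors_mul`, `cardFactors_apply_prime`; `Int.toNat`), so
`pat A (r+1) k a (j, M, n) = pat A r k (a p) (j, M, p n)`. By `app_congr` and `app_dil` (with
`c j M = c0 A k j (M / 2^e)`, `Ψ j n = pat A r k (a p) (j, 0, n)`; `pat` does not depend on `M`):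
`E[cwt e * pat (r+1) k a] = E[c0 (M / p / 2^e) * (p 1[p ∣ n]) * pat r k (a p)]`.
Replace `c0 (M / p / 2^e)` by `c0 (M / 2^(e+l))`: by `cwt_close`, `app_small` (with
`G = p 1[p ∣ n]`, `F` = difference of the weights times `pat`) and `app_div` this costs `≤ 5 / D`.
Finally `p 1[p ∣ n] = (p 1[p ∣ n] - 1) + 1`.
-/

set_option autoImplicit false

namespace DG

open Finset Filter Topology

private theorem pat_norm (A : ℕ → ℕ → Finset ℕ) (r k : ℕ) (a : ℤ) (s : ℕ × ℕ × ℤ) :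
    ‖pat A r k a s‖ ≤ 1 := by
  unfold pat
  apply prod_norm_le_one
  intro i _
  rw [Complex.norm_real]
  unfold ind
  split_ifs <;> simp

private theorem c0_norm (A : ℕ → ℕ → Finset ℕ) (k j M : ℕ) : ‖((c0 A k j M : ℝ) : ℂ)‖ ≤ 1 := by
  rw [Complex.norm_real, Real.norm_eq_abs]
  exact c0_abs A k j M

private theorem OmZ_mul (p : ℕ) (hp : p.Prime) (m : ℤ) (hm : 1 ≤ m) :
    OmZ ((p : ℤ) * m) = OmZ m + 1 := by
  obtain ⟨m', rfl⟩ := Int.eq_ofNat_of_zero_le (by omega : 0 ≤ m)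
  have hm' : m' ≠ 0 := by omega
  unfold OmZ
  rw [← Nat.cast_mul, Int.toNat_natCast, Int.toNat_natCast,
    ArithmeticFunction.cardFactors_mul hp.ne_zero hm', ArithmeticFunction.cardFactors_apply_prime hp]
  ring

private theorem pat_step (A : ℕ → ℕ → Finset ℕ) (r k a p : ℕ) (hp : p.Prime) (j M M' : ℕ) (n : ℤ)
    (hn : 1 ≤ n) :
    pat A (r + 1) k a (j, M, n) = pat A r k ((a * p : ℕ) : ℤ) (j, M', (p : ℤ) * n) := by
  unfold pat
  apply Finset.prod_congr rfl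
  intro i _
  have h1 : (p : ℤ) * n + (i : ℤ) * ((a * p : ℕ) : ℤ) = (p : ℤ) * (n + (i : ℤ) * (a : ℤ)) := by
    push_cast
    ring
  have h2 : 1 ≤ n + (i : ℤ) * (a : ℤ) := by
    have : 0 ≤ (i : ℤ) * (a : ℤ) := by positivity
    omega
  unfold ind
  simp only
  rw [h1, OmZ_mul p hp _ h2]
  have h3 : OmZ (n + (i : ℤ) * (a : ℤ)) + (r + 1) = OmZ (n + (i : ℤ) * (a : ℤ)) + 1 + r := by ring
  rw [h3]

theorem step_one (w : Win) (A : ℕ → ℕ → Finset ℕ) (r k e l D a p : ℕ) (hD : 1 ≤ D) (ha : 1 ≤ a)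
    (hp : p.Prime) (hp1 : 2 ^ l ≤ p) (hp2 : p ≤ 2 ^ l + 2 ^ l / D) :
    ‖(appμ w).E (fun s => cwt A k e s * pat A (r + 1) k a s) -
        (appμ w).E (fun s => cwt A k (e + l) s * pat A r k ((a * p : ℕ) : ℤ) s)‖ ≤ 5 / D +
      ‖(appμ w).E (fun s => cwt A k (e + l) s * ((if (p : ℤ) ∣ s.2.2 then (p : ℂ) else 0) - 1) *
        pat A r k ((a * p : ℕ) : ℤ) s)‖ := by
  have h1 : (appμ w).E (fun s => cwt A k e s * pat A (r + 1) k a s) =
      (appμ w).E (fun s => ((c0 A k s.1 (s.2.1 / 2 ^ e) : ℝ) : ℂ) *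
        pat A r k ((a * p : ℕ) : ℤ) (s.1, 0, (p : ℤ) * s.2.2)) := by
    apply app_congr
    · exact Bd.mul ⟨1, fun s => c0_norm A k _ _⟩ ⟨1, fun s => pat_norm A _ k _ _⟩
    · exact Bd.mul ⟨1, fun s => c0_norm A k _ _⟩ ⟨1, fun s => pat_norm A _ k _ _⟩
    · intro j M n _ hn
      simp only [cwt]
      rw [pat_step A r k a p hp j M 0 n hn]
  have h2 := app_dil w p hp.one_le (fun j M => ((c0 A k j (M / 2 ^ e) : ℝ) : ℂ))
    (fun j n => pat A r k ((a * p : ℕ) : ℤ) (j, 0, n)) (fun j M => c0_norm A k _ _)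
    (fun j n => pat_norm A _ k _ _)
  beta_reduce at h2
  rw [h1, h2]
  obtain ⟨M0, hM0⟩ := cwt_close A k e l D p hD hp1 hp2
  set F : ℕ × ℕ × ℤ → ℂ := fun s => (((c0 A k s.1 (s.2.1 / p / 2 ^ e) : ℝ) : ℂ) -
    ((c0 A k s.1 (s.2.1 / 2 ^ (e + l)) : ℝ) : ℂ)) * pat A r k ((a * p : ℕ) : ℤ) s with hF
  set G : ℕ × ℕ × ℤ → ℝ := fun s => if (p : ℤ) ∣ s.2.2 then (p : ℝ) else 0 with hG
  have hFC : ∀ s, ‖F s‖ ≤ 2 := by
    intro s
    rw [hF]
    simp only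
    rw [norm_mul]
    have h3 := norm_sub_le ((c0 A k s.1 (s.2.1 / p / 2 ^ e) : ℝ) : ℂ)
      ((c0 A k s.1 (s.2.1 / 2 ^ (e + l)) : ℝ) : ℂ)
    have h4 := c0_norm A k s.1 (s.2.1 / p / 2 ^ e)
    have h5 := c0_norm A k s.1 (s.2.1 / 2 ^ (e + l))
    have h6 := pat_norm A r k ((a * p : ℕ) : ℤ) s
    calc _ ≤ 2 * (1 : ℝ) := mul_le_mul (by linarith) h6 (norm_nonneg _) (by norm_num)
      _ = 2 := by norm_num
  have hFd : ∀ s, M0 ≤ s.2.1 → ‖F s‖ ≤ 5 / D := by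
    intro s hs
    rw [hF]
    simp only
    rw [norm_mul, ← Complex.ofReal_sub, Complex.norm_real, Real.norm_eq_abs]
    have h4 := hM0 s.1 s.2.1 hs
    have h6 := pat_norm A r k ((a * p : ℕ) : ℤ) s
    calc _ ≤ 5 / (D : ℝ) * (1 : ℝ) := mul_le_mul h4 h6 (norm_nonneg _) (by positivity)
      _ = 5 / D := by ring
  have hG0 : ∀ s, 0 ≤ G s := by
    intro s
    rw [hG]
    simp only
    split_ifs <;> positivity
  have hGp : ∀ s, G s ≤ p := by
    intro s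
    rw [hG]
    simp only
    split_ifs
    · exact le_rfl
    · positivity
  have hsmall := app_small w F G 2 p (5 / D) M0 hFC hG0 hGp (by positivity) hFd
  rw [hG, app_div w p hp.one_le, mul_one, ← hG] at hsmall
  have hdec : (appμ w).E (fun s => ((c0 A k s.1 (s.2.1 / p / 2 ^ e) : ℝ) : ℂ) *
        ((if (p : ℤ) ∣ s.2.2 then (p : ℂ) else 0) * pat A r k ((a * p : ℕ) : ℤ) (s.1, 0, s.2.2))) -
        (appμ w).E (fun s => cwt A k (e + l) s * pat A r k ((a * p : ℕ) : ℤ) s) =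
      (appμ w).E (fun s => F s * (G s : ℂ)) + (appμ w).E (fun s => cwt A k (e + l) s *
        ((if (p : ℤ) ∣ s.2.2 then (p : ℂ) else 0) - 1) * pat A r k ((a * p : ℕ) : ℤ) s) := by
    rw [← Mean.E_sub, ← Mean.E_add]
    congr 1
    funext s
    rw [hF, hG]
    simp only [cwt]
    have h7 : pat A r k ((a * p : ℕ) : ℤ) (s.1, 0, s.2.2) = pat A r k ((a * p : ℕ) : ℤ) s := rfl
    rw [h7]
    split_ifs
    · push_cast
      ring
    · push_cast
      ring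
  rw [hdec]
  exact le_trans (norm_add_le _ _) (add_le_add hsmall le_rfl)

end DG
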