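import Pool.Agent.Helper6.DG.Defs

/-!
# DG-E4: the filter of good scales; existence of the ultrafilters

PROOF. `SFset` says that the weights `u j = 1 / ((j+2) log (j+2))` are summable over the complement.
`SFset_mono`, `SFset_inter`, `SFset_finite_compl`: comparison of nonnegative series
(`Summable.of_nonneg_of_le`, `Summable.add`, `summable_of_finite_support`).
`SFset_shift`: the complement of `{l | l - j ∈ A}` is contained in `{l | l < j} ∪ (j + Aᶜ)`, and
`u (j + m) ≤ u m`; `summable_nat_add_iff j` reduces to the indices `l = m + j`.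
`exists_goodU`: the family of the `SFset`s is a filter (`univ`, upward closed, intersections); it is
proper because `∑ u j = ∞`: Cauchy condensation (`summable_condensed_iff_of_nonneg`, or directly:
the `2^m` terms with `2^m ≤ j + 2 < 2^(m+1)` are each `≥ 1 / (2^(m+1) (m+1) log 2)`, so their sum is
`≥ 1 / (2 (m+1) log 2)`, and the harmonic series diverges `Real.not_summable_one_div_natCast`).
Take `Ultrafilter.of` of it. `goodU_le`: cofinite sets are `SFset`s.
`exists_iter`: `U = (hyperfilter ℕ).bind (fun N => V.bind (fun i => V.bind (fun j =>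
V.map (fun l => (N, i, j, l)))))` (`Ultrafilter.bind`, `Ultrafilter.map`; `Filter.eventually_bind`,
`Filter.eventually_map`; `Ultrafilter.bind` coerces to `Filter.bind`).
-/

set_option autoImplicit false

namespace DG

open Finset Filter Topology

private theorem u_nonneg (j : ℕ) : 0 ≤ 1 / (((j : ℝ) + 2) * Real.log ((j : ℝ) + 2)) := by
  have h1 : (1 : ℝ) ≤ (j : ℝ) + 2 := by
    have : (0 : ℝ) ≤ j := Nat.cast_nonneg j
    linarith
  have h2 := Real.log_nonneg h1
  positivity

private theorem u_anti {i j : ℕ} (h : i ≤ j) : 1 / (((j : ℝ) + 2) * Real.log ((j : ℝ) + 2)) ≤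
    1 / (((i : ℝ) + 2) * Real.log ((i : ℝ) + 2)) := by
  have hi : (0 : ℝ) ≤ i := Nat.cast_nonneg i
  have hij : (i : ℝ) ≤ j := by exact_mod_cast h
  have h2 : 0 < Real.log ((i : ℝ) + 2) := Real.log_pos (by linarith)
  have h3 : Real.log ((i : ℝ) + 2) ≤ Real.log ((j : ℝ) + 2) :=
    Real.log_le_log (by linarith) (by linarith)
  apply one_div_le_one_div_of_le
  · positivity
  · exact mul_le_mul (by linarith) h3 h2.le (by linarith)

theorem SFset_mono {A B : Set ℕ} (h : A ⊆ B) (hA : SFset A) : SFset B := by
  refine Summable.of_nonneg_of_le (fun j => ?_) (fun j => ?_) hA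
  · exact Set.indicator_nonneg (fun j _ => u_nonneg j) j
  · exact Set.indicator_le_indicator_of_subset (Set.compl_subset_compl.2 h)
      (fun j => u_nonneg j) j

theorem SFset_inter {A B : Set ℕ} (hA : SFset A) (hB : SFset B) : SFset (A ∩ B) := by
  refine Summable.of_nonneg_of_le (fun j => ?_) (fun j => ?_) (hA.add hB)
  · exact Set.indicator_nonneg (fun j _ => u_nonneg j) j
  · have h0 := u_nonneg j
    by_cases h1 : j ∈ A
    · by_cases h2 : j ∈ B
      · simp [h1, h2]
      · simp [h1, h2]
    · by_cases h2 : j ∈ B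
      · simp [h1, h2]
      · rw [Set.indicator_of_mem (by simp [h1]), Set.indicator_of_mem (by simp [h1]),
          Set.indicator_of_mem (by simp [h2])]
        linarith

theorem SFset_ge (n : ℕ) : SFset {j | n ≤ j} := by
  refine summable_of_ne_finset_zero (s := range n) fun j hj => ?_
  rw [mem_range, not_lt] at hj
  apply Set.indicator_of_notMem
  simpa using hj

theorem SFset_shift {A : Set ℕ} (hA : SFset A) (j : ℕ) : SFset {l | l - j ∈ A} := by
  unfold SFset
  rw [← summable_nat_add_iff j]
  refine Summable.of_nonneg_of_le (fun n => ?_) (fun n => ?_) hA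
  · exact Set.indicator_nonneg (fun j _ => u_nonneg j) _
  · by_cases h1 : n ∈ A
    · rw [Set.indicator_of_notMem (by simp [h1]), Set.indicator_of_notMem (by simp [h1])]
    · rw [Set.indicator_of_mem (by simp [h1]), Set.indicator_of_mem (by simp [h1])]
      exact u_anti (Nat.le_add_right n j)

private theorem not_SFset_empty : ¬ SFset ∅ := by
  intro h
  unfold SFset at h
  simp only [Set.compl_empty, Set.indicator_univ] at h
  have h1 := (summable_condensed_iff_of_nonneg
    (f := fun j : ℕ => 1 / (((j : ℝ) + 2) * Real.log ((j : ℝ) + 2)))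
    (fun n => u_nonneg n) (fun m n _ hmn => u_anti hmn)).2 h
  have h2 : Summable fun k : ℕ => (2 * Real.log 2)⁻¹ * (1 / ((k + 1 : ℕ) : ℝ)) := by
    rw [← summable_nat_add_iff 1] at h1 ⊢
    refine Summable.of_nonneg_of_le (fun k => ?_) (fun k => ?_) h1
    · have : 0 < Real.log 2 := Real.log_pos (by norm_num)
      positivity
    · have hlog : 0 < Real.log 2 := Real.log_pos (by norm_num)
      have hp : (2 : ℝ) ≤ 2 ^ (k + 1) := by
        have := one_le_pow₀ (M₀ := ℝ) (a := 2) (by norm_num) (n := k)
        rw [pow_succ]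
        linarith
      have h3 : (2 : ℝ) ^ (k + 1) + 2 ≤ 2 ^ (k + 2) := by
        rw [pow_succ (2 : ℝ) (k + 1)]
        linarith
      have h4 : Real.log ((2 : ℝ) ^ (k + 1) + 2) ≤ (k + 2) * Real.log 2 := by
        have h5 := Real.log_le_log (by positivity) h3
        rw [Real.log_pow] at h5
        push_cast at h5
        exact h5
      have h6 : 0 < Real.log ((2 : ℝ) ^ (k + 1) + 2) := Real.log_pos (by linarith)
      push_cast
      rw [mul_one_div, ← one_div, div_div]
      have h7 : ((2 : ℝ) ^ (k + 1) + 2) * Real.log ((2 : ℝ) ^ (k + 1) + 2) ≤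
          2 ^ (k + 2) * ((k + 2) * Real.log 2) :=
        mul_le_mul h3 h4 h6.le (by positivity)
      have h8 : (2 : ℝ) ^ (k + 1) * (1 / (2 ^ (k + 2) * ((k + 2) * Real.log 2))) ≤
          2 ^ (k + 1) * (1 / (((2 : ℝ) ^ (k + 1) + 2) * Real.log ((2 : ℝ) ^ (k + 1) + 2))) := by
        apply mul_le_mul_of_nonneg_left _ (by positivity)
        exact one_div_le_one_div_of_le (by positivity) h7
      refine le_trans (le_of_eq ?_) h8
      rw [pow_succ (2 : ℝ) (k + 1)]
      field_simp
      ring
  have hlog : 0 < Real.log 2 := Real.log_pos (by norm_num)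
  rw [summable_mul_left_iff (by positivity)] at h2
  have h3 := (summable_nat_add_iff (f := fun n : ℕ => 1 / (n : ℝ)) 1).1 h2
  exact Real.not_summable_one_div_natCast h3

theorem exists_goodU : ∃ V : Ultrafilter ℕ, GoodU V := by
  let F : Filter ℕ :=
    { sets := {A | SFset A}
      univ_sets := by
        have h := SFset_ge 0
        have h1 : {j : ℕ | 0 ≤ j} = Set.univ := by
          ext j
          simp
        rwa [h1] at h
      sets_of_superset := fun hA h => SFset_mono h hA
      inter_sets := fun hA hB => SFset_inter hA hB }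
  have hF : F.NeBot := by
    refine ⟨fun h => not_SFset_empty ?_⟩
    have h1 : (∅ : Set ℕ) ∈ F := by
      rw [h]
      exact mem_bot
    exact h1
  exact ⟨Ultrafilter.of F, fun A hA => Ultrafilter.of_le F hA⟩

theorem goodU_le {V : Ultrafilter ℕ} (hV : GoodU V) : (V : Filter ℕ) ≤ atTop := by
  intro s hs
  obtain ⟨n, hn⟩ := mem_atTop_sets.1 hs
  exact Filter.mem_of_superset (hV _ (SFset_ge n)) hn

theorem exists_iter (V : Ultrafilter ℕ) : ∃ U : Ultrafilter (ℕ × ℕ × ℕ × ℕ), IsIter V U := by
  refine ⟨(hyperfilter ℕ).bind fun N => V.bind fun i => V.bind fun j =>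
    V.map fun l => (N, i, j, l), fun p => ?_⟩
  rfl

end DG
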