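import Pool.Agent.Helper6.DG.E3Step
import Pool.Agent.Helper6.DG.E4SF
import Pool.Agent.Helper13.Om.Cheb

/-!
# DG-E5: ratio of the primes, one step averaged, the two chains

PROOF.
`ratio`: `PW D q (2^l) ⊆ dy l` for `l ≥ 1` (`2^l + 2^l/D ≤ 2^(l+1)`, a prime `p ≥ 2^l`, `l ≥ 2`, is
`≠ 2^l`); Chebyshev: `(dy l).card ≤ C 2^l / l` (in the library, e.g. Helper13/Om/Cheb.lean, or from
`Nat.primorial_le_4_pow`: `∏_{p ∈ dy l} p ≤ 4^(2^(l+1))` and each `p > 2^l`, so
`l * card ≤ 2 * 2^(l+1)`); `PR` gives `c 2^l / (φ(q) l log 2) ≤ (PW D q (2^l)).card` for large `l`.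
`chain_one`: let `C` be from `ratio`. Apply `Ent` to the system `app w`, `pos s = s.2.2`, `f i = ind A r i`,
step `a`, with `ε / (C + 1)`: for the `j = l` in an `SFset`, with the invariant weight
`cwt A k (e + l)` (bounded by `1`: `c0_abs`): `(1/card dy) ∑_{p ∈ dy l} ‖E[cwt * (p 1[p∣n] - 1) *
∏ f i (T^(i (a p)) s)]‖ ≤ ε / (C+1)`; `∏ f i (T^(i (a p)) s) = pat A r k (a p) s` (`shT_zpow`).
The terms are `≥ 0`, so the average over the subset `PW` is `≤ C` times the average over `dy l`.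
`step_one` for each `p ∈ PW` and the triangle inequality give the claim. The second form (scale
`l - j`) follows by `SFset_shift`. Since the conclusion is a set of scales `l` containing an
`SFset ∩ {l ≥ l0}`, state it as `SFset {l | ...}`.
`chain_two`: outer step: `chain_one` with `a = 1, r = 1, e = 0, ε/2` for the scale `i`; inner steps:
for each of the finitely many `p1 ∈ PW D q (2^i)`: `chain_one` with `a = p1, r = 0, e = i, ε/2`;
finite intersections of `SFset`s (induction with `SFset_inter`).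
`chain_three`: three steps, `r = 2, 1, 0`; the last one at the scale `l - j` with
`a = p1 p0, e = i + j`.
-/

set_option autoImplicit false

namespace DG

open Finset Filter Topology

private theorem avP_close {P : Finset ℕ} {f g : ℕ → ℂ} {B : ℝ} (hB : 0 ≤ B)
    (h : ∀ p ∈ P, ‖f p - g p‖ ≤ B) : ‖avP P f - avP P g‖ ≤ B := by
  unfold avP
  rw [← mul_sub, ← Finset.sum_sub_distrib, norm_mul, norm_div, norm_one, Complex.norm_natCast]
  rcases P.eq_empty_or_nonempty with rfl | hP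
  · simpa using hB
  · have hc : (0 : ℝ) < P.card := by exact_mod_cast hP.card_pos
    have h1 : ‖∑ p ∈ P, (f p - g p)‖ ≤ P.card * B := by
      refine (norm_sum_le_of_le P h).trans ?_
      rw [Finset.sum_const, nsmul_eq_mul]
    calc 1 / (P.card : ℝ) * ‖∑ p ∈ P, (f p - g p)‖ ≤ 1 / (P.card : ℝ) * (P.card * B) := by
          gcongr
      _ = B := by field_simp

private theorem avP_const {P : Finset ℕ} (hP : P.Nonempty) (x : ℂ) : avP P (fun _ => x) = x := by
  unfold avP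
  have hc : (P.card : ℂ) ≠ 0 := by exact_mod_cast hP.card_pos.ne'
  rw [Finset.sum_const, nsmul_eq_mul]
  field_simp

private theorem avP_step {P : Finset ℕ} (hP : P.Nonempty) {g : ℕ → ℂ} {x : ℂ} {B : ℝ}
    {y : ℕ → ℝ} (h : ∀ p ∈ P, ‖x - g p‖ ≤ B + y p) :
    ‖x - avP P g‖ ≤ B + 1 / (P.card : ℝ) * ∑ p ∈ P, y p := by
  have hc : (0 : ℝ) < P.card := by exact_mod_cast hP.card_pos
  have h0 : x - avP P g = (1 / (P.card : ℂ)) * ∑ p ∈ P, (x - g p) := by
    rw [Finset.sum_sub_distrib, mul_sub, Finset.sum_const, nsmul_eq_mul]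
    have hc' : (P.card : ℂ) ≠ 0 := by exact_mod_cast hP.card_pos.ne'
    unfold avP
    field_simp
  rw [h0, norm_mul, norm_div, norm_one, Complex.norm_natCast]
  have h1 : ‖∑ p ∈ P, (x - g p)‖ ≤ P.card * B + ∑ p ∈ P, y p := by
    refine (norm_sum_le_of_le P h).trans ?_
    rw [Finset.sum_add_distrib, Finset.sum_const, nsmul_eq_mul]
  calc 1 / (P.card : ℝ) * ‖∑ p ∈ P, (x - g p)‖
      ≤ 1 / (P.card : ℝ) * (P.card * B + ∑ p ∈ P, y p) := by gcongr
    _ = B + 1 / (P.card : ℝ) * ∑ p ∈ P, y p := by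
        rw [mul_add, ← mul_assoc, one_div_mul_cancel hc.ne', one_mul]

private theorem pow_not_prime {l : ℕ} (hl : 2 ≤ l) : ¬ (2 ^ l).Prime :=
  Nat.Prime.not_prime_pow hl

private theorem dy_card (l : ℕ) (hl : 1 ≤ l) : ((dy l).card : ℝ) ≤ 4 * 2 ^ l / l := by
  have h := Helper13.Om.shell_card (dy l) (fun q hq => (Finset.mem_filter.1 hq).2) l hl
  have h1 : (dy l).filter (fun q => Nat.log 2 q = l) = dy l := by
    rw [Finset.filter_eq_self]
    intro q hq
    unfold dy at hq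
    rw [Finset.mem_filter, Finset.mem_Ioc] at hq
    obtain ⟨⟨h2, h3⟩, h4⟩ := hq
    have h5 : q ≠ 2 ^ (l + 1) := by
      intro h6
      rw [h6] at h4
      exact pow_not_prime (by omega) h4
    have h6 : q < 2 ^ (l + 1) := lt_of_le_of_ne h3 h5
    exact (Nat.log_eq_iff (Or.inl (by omega))).2 ⟨h2.le, h6⟩
  rwa [h1] at h

theorem ratio (hPR : PR) (D q : ℕ) (hD : 1 ≤ D) (hq : 1 ≤ q) : ∃ C : ℝ, 0 < C ∧ ∃ l0 : ℕ,
    ∀ l : ℕ, l0 ≤ l → PW D q (2 ^ l) ⊆ dy l ∧ (PW D q (2 ^ l)).Nonempty ∧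
      ((dy l).card : ℝ) ≤ C * (PW D q (2 ^ l)).card := by
  obtain ⟨c, hc, h⟩ := hPR D hD
  have h1 := (h q hq)
  have h2 : Tendsto (fun l : ℕ => 2 ^ l) atTop atTop :=
    tendsto_pow_atTop_atTop_of_one_lt (one_lt_two : (1 : ℕ) < 2)
  obtain ⟨l1, hl1⟩ := eventually_atTop.1 (h2.eventually h1)
  have hq0 : (0 : ℝ) < q.totient := by exact_mod_cast Nat.totient_pos.2 hq
  have hlog : 0 < Real.log 2 := Real.log_pos one_lt_two
  refine ⟨4 * (q.totient * Real.log 2) / c, by positivity, max l1 2, fun l hl => ?_⟩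
  have hl1' : l1 ≤ l := (le_max_left _ _).trans hl
  have hl2 : 2 ≤ l := (le_max_right _ _).trans hl
  have hlr : (0 : ℝ) < l := by exact_mod_cast (by omega : 0 < l)
  have h3 : c * 2 ^ l / (q.totient * (l * Real.log 2)) ≤ ((PW D q (2 ^ l)).card : ℝ) := by
    have := hl1 l hl1'
    push_cast at this
    rwa [Real.log_pow] at this
  have h4 : (0 : ℝ) < c * 2 ^ l / (q.totient * (l * Real.log 2)) := by positivity
  refine ⟨?_, ?_, ?_⟩
  · intro p hp
    unfold PW at hp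
    rw [Finset.mem_filter, Finset.mem_Icc] at hp
    obtain ⟨⟨h5, h6⟩, h7, _⟩ := hp
    unfold dy
    rw [Finset.mem_filter, Finset.mem_Ioc]
    have h8 : p ≠ 2 ^ l := by
      intro h9
      rw [h9] at h7
      exact pow_not_prime hl2 h7
    refine ⟨⟨lt_of_le_of_ne h5 (Ne.symm h8), h6.trans ?_⟩, h7⟩
    have := Nat.div_le_self (2 ^ l) D
    rw [pow_succ]
    omega
  · rw [← Finset.card_pos]
    have : (0 : ℝ) < ((PW D q (2 ^ l)).card : ℝ) := lt_of_lt_of_le h4 h3
    exact_mod_cast this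
  · refine (dy_card l (by omega)).trans ?_
    calc 4 * 2 ^ l / (l : ℝ) = 4 * (q.totient * Real.log 2) / c *
          (c * 2 ^ l / (q.totient * (l * Real.log 2))) := by field_simp
      _ ≤ _ := by gcongr

theorem chain_one (hPR : PR) (hEnt : Ent) (w : Win) (A : ℕ → ℕ → Finset ℕ) (r k e D q a : ℕ)
    (hD : 1 ≤ D) (hq : 1 ≤ q) (ha : 1 ≤ a) (ε : ℝ) (hε : 0 < ε) :
    SFset {l | ‖(appμ w).E (fun s => cwt A k e s * pat A (r + 1) k a s) -
      avP (PW D q (2 ^ l)) (fun p => (appμ w).E (fun s => cwt A k (e + l) s *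
        pat A r k ((a * p : ℕ) : ℤ) s))‖ ≤ 5 / D + ε} := by
  obtain ⟨C, hC, l0, h⟩ := ratio hPR D q hD hq
  have hE := hEnt (app w) (fun s => s.2.2) (fun _ => rfl) k (fun i => ind A r i)
    (fun i x => by
      unfold ind
      split_ifs
      · exact Or.inr rfl
      · exact Or.inl rfl) a ha (ε / (C + 1)) (by positivity)
  refine SFset_mono ?_ (SFset_inter hE (SFset_ge l0))
  rintro l ⟨hl1, hl2⟩
  obtain ⟨hsub, hne, hcard⟩ := h l hl2
  have h1 := hl1 (cwt A k (e + l)) (fun s => by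
      unfold cwt
      rw [Complex.norm_real]
      exact c0_abs A k _ _) (fun _ => rfl)
  have hkey : ∀ p : ℕ, (fun x : (app w).S => cwt A k (e + l) x *
      ((if (p : ℤ) ∣ (fun s : (app w).S => s.2.2) x then (p : ℂ) else 0) - 1) *
        ∏ i ∈ range (k + 1), (((fun i => ind A r i) i
          (((app w).T ^ ((i : ℤ) * (a * p))) x) : ℝ) : ℂ)) =
      fun s => cwt A k (e + l) s * ((if (p : ℤ) ∣ s.2.2 then (p : ℂ) else 0) - 1) *
        pat A r k ((a * p : ℕ) : ℤ) s := by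
    intro p
    funext s
    obtain ⟨j, M, n⟩ := s
    have h2 : (∏ i ∈ range (k + 1), (((fun i => ind A r i) i
          (((app w).T ^ ((i : ℤ) * (a * p))) (j, M, n)) : ℝ) : ℂ)) =
        pat A r k ((a * p : ℕ) : ℤ) (j, M, n) := by
      unfold pat
      refine Finset.prod_congr rfl fun i _ => ?_
      have h3 : ((app w).T ^ ((i : ℤ) * (a * p))) (j, M, n) =
          (j, M, n + (i : ℤ) * (a * p)) := shT_zpow _ j M n
      rw [h3]
      push_cast
      rfl
    rw [h2]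
  have h2 : (1 / ((dy l).card : ℝ)) * ∑ p ∈ dy l, ‖(appμ w).E (fun s => cwt A k (e + l) s *
      ((if (p : ℤ) ∣ s.2.2 then (p : ℂ) else 0) - 1) * pat A r k ((a * p : ℕ) : ℤ) s)‖ ≤
      ε / (C + 1) := by
    refine le_trans (le_of_eq ?_) h1
    congr 1
    refine Finset.sum_congr rfl fun p _ => ?_
    rw [hkey p]
    rfl
  set y : ℕ → ℝ := fun p => ‖(appμ w).E (fun s => cwt A k (e + l) s *
      ((if (p : ℤ) ∣ s.2.2 then (p : ℂ) else 0) - 1) * pat A r k ((a * p : ℕ) : ℤ) s)‖ with hy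
  have hy0 : ∀ p, 0 ≤ y p := fun p => norm_nonneg _
  have h3 := avP_step hne (g := fun p => (appμ w).E (fun s => cwt A k (e + l) s *
        pat A r k ((a * p : ℕ) : ℤ) s)) (x := (appμ w).E (fun s => cwt A k e s *
          pat A (r + 1) k a s)) (B := 5 / D) (y := y) (fun p hp => by
      unfold PW at hp
      rw [Finset.mem_filter, Finset.mem_Icc] at hp
      exact step_one w A r k e l D a p hD ha hp.2.1 hp.1.1 hp.1.2)
  refine h3.trans (add_le_add le_rfl ?_)
  have hcP : (0 : ℝ) < (PW D q (2 ^ l)).card := by exact_mod_cast hne.card_pos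
  have hcd : (0 : ℝ) < (dy l).card := by exact_mod_cast (hne.mono hsub).card_pos
  have h4 : ∑ p ∈ PW D q (2 ^ l), y p ≤ ∑ p ∈ dy l, y p :=
    Finset.sum_le_sum_of_subset_of_nonneg hsub fun p _ _ => hy0 p
  have h5 : ∑ p ∈ dy l, y p ≤ (dy l).card * (ε / (C + 1)) := by
    have h6 : (dy l).card * ((1 / ((dy l).card : ℝ)) * ∑ p ∈ dy l, y p) ≤
        (dy l).card * (ε / (C + 1)) := mul_le_mul_of_nonneg_left h2 hcd.le
    rwa [← mul_assoc, mul_one_div_cancel hcd.ne', one_mul] at h6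
  have h7 : ∑ p ∈ PW D q (2 ^ l), y p ≤ C * (PW D q (2 ^ l)).card * (ε / (C + 1)) :=
    (h4.trans h5).trans (mul_le_mul_of_nonneg_right hcard (by positivity))
  calc 1 / ((PW D q (2 ^ l)).card : ℝ) * ∑ p ∈ PW D q (2 ^ l), y p
      ≤ 1 / ((PW D q (2 ^ l)).card : ℝ) * (C * (PW D q (2 ^ l)).card * (ε / (C + 1))) := by
        gcongr
    _ = C / (C + 1) * ε := by field_simp
    _ ≤ 1 * ε := by
        refine mul_le_mul_of_nonneg_right ?_ hε.le
        rw [div_le_one (by positivity)]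
        linarith
    _ = ε := one_mul ε

theorem chain_two (hPR : PR) (hEnt : Ent) (V : Ultrafilter ℕ) (hV : GoodU V) (w : Win)
    (A : ℕ → ℕ → Finset ℕ) (k D q : ℕ) (hD : 1 ≤ D) (hq : 1 ≤ q) (ε : ℝ) (hε : 0 < ε) :
    ∀ᶠ i in (V : Filter ℕ), ∀ᶠ l in (V : Filter ℕ),
      ‖(appμ w).E (fun s => cwt A k 0 s * pat A 2 k 1 s) -
        avP (PW D q (2 ^ i)) (fun p => avP (PW D q (2 ^ l)) (fun p' =>
          (appμ w).E (fun s => cwt A k (i + l) s * pat A 0 k ((p * p' : ℕ) : ℤ) s)))‖ ≤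
        10 / D + ε := by
  have h1 := hV _ (chain_one hPR hEnt w A 1 k 0 D q 1 hD hq le_rfl (ε / 2) (by positivity))
  filter_upwards [h1] with i hi
  have h2 : ∀ᶠ l in (V : Filter ℕ), ∀ p ∈ PW D q (2 ^ i),
      ‖(appμ w).E (fun s => cwt A k i s * pat A 1 k p s) -
        avP (PW D q (2 ^ l)) (fun p' => (appμ w).E (fun s => cwt A k (i + l) s *
          pat A 0 k ((p * p' : ℕ) : ℤ) s))‖ ≤ 5 / D + ε / 2 := by
    rw [Filter.eventually_all_finset]
    intro p hp
    have hp1 : 1 ≤ p := by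
      unfold PW at hp
      rw [Finset.mem_filter] at hp
      exact hp.2.1.one_lt.le
    exact hV _ (chain_one hPR hEnt w A 0 k i D q p hD hq hp1 (ε / 2) (by positivity))
  filter_upwards [h2] with l hl
  have h3 := avP_close (by positivity) hl
  simp only [zero_add, one_mul, Nat.cast_one, Nat.reduceAdd] at hi
  refine (norm_sub_le_norm_sub_add_norm_sub _ _ _).trans ((add_le_add hi h3).trans ?_)
  apply le_of_eq
  ring

theorem chain_three (hPR : PR) (hEnt : Ent) (V : Ultrafilter ℕ) (hV : GoodU V) (w : Win)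
    (A : ℕ → ℕ → Finset ℕ) (k D q : ℕ) (hD : 1 ≤ D) (hq : 1 ≤ q) (ε : ℝ) (hε : 0 < ε) :
    ∀ᶠ i in (V : Filter ℕ), ∀ᶠ j in (V : Filter ℕ), ∀ᶠ l in (V : Filter ℕ),
      ‖(appμ w).E (fun s => cwt A k 0 s * pat A 3 k 1 s) -
        avP (PW D q (2 ^ i)) (fun p => avP (PW D q (2 ^ j)) (fun p0 =>
          avP (PW D q (2 ^ (l - j))) (fun p' =>
            (appμ w).E (fun s => cwt A k (i + l) s * pat A 0 k ((p * p0 * p' : ℕ) : ℤ) s))))‖ ≤
        15 / D + ε := by
  have hPW : ∀ i : ℕ, ∀ p ∈ PW D q (2 ^ i), 1 ≤ p := by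
    intro i p hp
    unfold PW at hp
    rw [Finset.mem_filter] at hp
    exact hp.2.1.one_lt.le
  have h1 := hV _ (chain_one hPR hEnt w A 2 k 0 D q 1 hD hq le_rfl (ε / 3) (by positivity))
  filter_upwards [h1] with i hi
  have h2 : ∀ᶠ j in (V : Filter ℕ), ∀ p ∈ PW D q (2 ^ i),
      ‖(appμ w).E (fun s => cwt A k i s * pat A 2 k p s) -
        avP (PW D q (2 ^ j)) (fun p0 => (appμ w).E (fun s => cwt A k (i + j) s *
          pat A 1 k ((p * p0 : ℕ) : ℤ) s))‖ ≤ 5 / D + ε / 3 := by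
    rw [Filter.eventually_all_finset]
    intro p hp
    exact hV _ (chain_one hPR hEnt w A 1 k i D q p hD hq (hPW i p hp) (ε / 3) (by positivity))
  filter_upwards [h2] with j hj
  have h3 : ∀ᶠ l in (V : Filter ℕ), ∀ p ∈ PW D q (2 ^ i), ∀ p0 ∈ PW D q (2 ^ j),
      ‖(appμ w).E (fun s => cwt A k (i + j) s * pat A 1 k ((p * p0 : ℕ) : ℤ) s) -
        avP (PW D q (2 ^ (l - j))) (fun p' => (appμ w).E (fun s =>
          cwt A k (i + j + (l - j)) s *
            pat A 0 k ((p * p0 * p' : ℕ) : ℤ) s))‖ ≤ 5 / D + ε / 3 := by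
    rw [Filter.eventually_all_finset]
    intro p hp
    rw [Filter.eventually_all_finset]
    intro p0 hp0
    exact hV _ (SFset_shift (chain_one hPR hEnt w A 0 k (i + j) D q (p * p0) hD hq
      (Nat.mul_pos (hPW i p hp) (hPW j p0 hp0)) (ε / 3) (by positivity)) j)
  have h4 : ∀ᶠ l in (V : Filter ℕ), j ≤ l := goodU_le hV (eventually_ge_atTop j)
  filter_upwards [h3, h4] with l hl hjl
  have he : i + j + (l - j) = i + l := by omega
  rw [he] at hl
  have h5 : ∀ p ∈ PW D q (2 ^ i),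
      ‖(appμ w).E (fun s => cwt A k i s * pat A 2 k p s) -
        avP (PW D q (2 ^ j)) (fun p0 => avP (PW D q (2 ^ (l - j))) (fun p' =>
          (appμ w).E (fun s => cwt A k (i + l) s * pat A 0 k ((p * p0 * p' : ℕ) : ℤ) s)))‖ ≤
      (5 / D + ε / 3) + (5 / D + ε / 3) := fun p hp =>
    (norm_sub_le_norm_sub_add_norm_sub _ _ _).trans
      (add_le_add (hj p hp) (avP_close (by positivity) (hl p hp)))
  have h6 := avP_close (by positivity) h5
  simp only [zero_add, one_mul, Nat.cast_one, Nat.reduceAdd] at hi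
  refine (norm_sub_le_norm_sub_add_norm_sub _ _ _).trans ((add_le_add hi h6).trans ?_)
  apply le_of_eq
  ring

end DG
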