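import Pool.Agent.Helper6.DG.E5Chain

/-!
# DG-E6: the signed weights; the mean of `c (pat 2 - pat 3)` vanishes

PROOF. `W_law`: `W` is additive and homogeneous in the weight (`W c a = c.sum (fun m t => t * a m)`,
`Finsupp.sum_add_index'`, `Finsupp.sum_single_index`), so for nonempty sets
`W (law2 A B) a = avP A (fun p => avP B (fun p' => a (p p')))` and similarly for `law3`; `W` of a
difference is the difference.
`cw_sum`: `W (cw D r) 1 = 1 - 1 = 0` (or `0`). `cw_abs`: `∑ |c m| ≤ 2`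
(`∑_m |(law2 - law3) m| ≤ ∑_m law2 m + ∑_m law3 m = 2`; the sum of `|c m|` over the support is at
most the sum over any larger finite set; `∑_m law2 m = 1`). `cw_mod`: for `N ≥ q`: `q ∣ N!`, all
elements `p` of `PW D N! _` are `≡ 1 mod N!` (and `p ≥ 2`), so products `m` satisfy `q ∣ m - 1`
(`Finsupp` support of sums of singles: every `m` in the support is one of the products;
`∀ᶠ r in U` by `IsIter` and `hyperfilter ≤ atTop`).
`mean_zero`: fix `D`; `V`, `U` from `exists_goodU`, `exists_iter`. `hSt D V U` for the system `app w`,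
`G i = ind A 0 i` (as complex functions), `C r = cwt A k (r.2.1 + r.2.2.2)` (invariant, bounded by
`1`): `E[C r * W (cw D r) (fun m => cor (app w) k G m s)] → 0` along `U`, and
`cor (app w) k G m s = pat A 0 k m s` (`shT_zpow`, commute the product `i * m`). Exchange `E` and
`W` (finite sum). For `U`-many `r = (N, i, j, l)` all four sets are nonempty (`ratio`, for
`l - j` use `l ≥ j + l0`), `W` is given by `W_law`, `chain_two` and `chain_three` hold with `ε` and
`‖E[C r W ..]‖ ≤ ε`; hence `‖E[cwt 0 * pat 2] - E[cwt 0 * pat 3]‖ ≤ 25 / D + 3 ε`. Let `ε → 0`,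
`D → ∞`.
-/

set_option autoImplicit false

namespace DG

open Finset Filter Topology

/-- `W` as an additive map in the weight. -/
private noncomputable def Wh (a : ℤ → ℂ) : (ℤ →₀ ℝ) →+ ℂ :=
  Finsupp.liftAddHom (fun m => (AddMonoidHom.mulRight (a m)).comp Complex.ofRealHom.toAddMonoidHom)

private theorem W_eq_Wh (c : ℤ →₀ ℝ) (a : ℤ → ℂ) : W c a = Wh a c := by
  unfold W Wh
  rw [Finsupp.liftAddHom_apply]
  rfl

private theorem Wh_single (m : ℤ) (t : ℝ) (a : ℤ → ℂ) :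
    Wh a (Finsupp.single m t) = (t : ℂ) * a m := by
  unfold Wh
  rw [Finsupp.liftAddHom_apply_single]
  rfl

theorem W_law2 (A B : Finset ℕ) (hA : A.Nonempty) (hB : B.Nonempty) (a : ℤ → ℂ) :
    W (law2 A B) a = avP A (fun p => avP B (fun p' => a ((p * p' : ℕ) : ℤ))) := by
  have _ := hA
  have _ := hB
  rw [W_eq_Wh]
  unfold law2 avP
  simp only [map_sum, Wh_single, Finset.mul_sum]
  refine Finset.sum_congr rfl fun p _ => Finset.sum_congr rfl fun p' _ => ?_
  push_cast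
  ring

theorem W_law3 (A B C : Finset ℕ) (hA : A.Nonempty) (hB : B.Nonempty) (hC : C.Nonempty)
    (a : ℤ → ℂ) : W (law3 A B C) a =
      avP A (fun p => avP B (fun p0 => avP C (fun p' => a ((p * p0 * p' : ℕ) : ℤ)))) := by
  have _ := hA
  have _ := hB
  have _ := hC
  rw [W_eq_Wh]
  unfold law3 avP
  simp only [map_sum, Wh_single, Finset.mul_sum]
  refine Finset.sum_congr rfl fun p _ => Finset.sum_congr rfl fun p0 _ =>
    Finset.sum_congr rfl fun p' _ => ?_
  push_cast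
  ring

theorem W_sub (c c' : ℤ →₀ ℝ) (a : ℤ → ℂ) : W (c - c') a = W c a - W c' a := by
  rw [W_eq_Wh, W_eq_Wh, W_eq_Wh, map_sub]

private theorem avP_one {A : Finset ℕ} (hA : A.Nonempty) : avP A (fun _ => 1) = 1 := by
  unfold avP
  have h : (A.card : ℂ) ≠ 0 := by
    exact_mod_cast (Finset.card_pos.2 hA).ne'
  rw [Finset.sum_const, nsmul_eq_mul, mul_one, one_div, inv_mul_cancel₀ h]

theorem cw_sum (D : ℕ) (r : ℕ × ℕ × ℕ × ℕ) : W (cw D r) (fun _ => 1) = 0 := by
  unfold cw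
  split_ifs with h
  · obtain ⟨h1, h2, h3, h4⟩ := h
    rw [W_sub, W_law2 _ _ h1 h3, W_law3 _ _ _ h1 h2 h4]
    simp only [avP_one h1, avP_one h2, avP_one h3, avP_one h4]
    ring
  · rw [W_eq_Wh, map_zero]

private noncomputable def l1 (c : ℤ →₀ ℝ) : ℝ := ∑ m ∈ c.support, |c m|

private theorem l1_eq {c : ℤ →₀ ℝ} {s : Finset ℤ} (h : c.support ⊆ s) :
    l1 c = ∑ m ∈ s, |c m| := by
  unfold l1
  apply Finset.sum_subset h
  intro m _ hm
  rw [Finsupp.notMem_support_iff.1 hm, abs_zero]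

private theorem l1_add (c c' : ℤ →₀ ℝ) : l1 (c + c') ≤ l1 c + l1 c' := by
  classical
  rw [l1_eq (c := c + c') (s := (c + c').support ∪ (c.support ∪ c'.support))
      Finset.subset_union_left,
    l1_eq (c := c) (s := (c + c').support ∪ (c.support ∪ c'.support))
      (Finset.subset_union_left.trans Finset.subset_union_right),
    l1_eq (c := c') (s := (c + c').support ∪ (c.support ∪ c'.support))
      (Finset.subset_union_right.trans Finset.subset_union_right), ← Finset.sum_add_distrib]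
  refine Finset.sum_le_sum fun m _ => ?_
  rw [Finsupp.add_apply]
  exact abs_add_le _ _

private theorem l1_neg (c : ℤ →₀ ℝ) : l1 (-c) = l1 c := by
  unfold l1
  rw [Finsupp.support_neg]
  refine Finset.sum_congr rfl fun m _ => ?_
  rw [Finsupp.neg_apply, abs_neg]

private theorem l1_single (m : ℤ) (t : ℝ) : l1 (Finsupp.single m t) ≤ |t| := by
  rw [l1_eq (s := {m}) Finsupp.support_single_subset, Finset.sum_singleton,
    Finsupp.single_eq_same]

private theorem l1_sum {ι : Type*} (s : Finset ι) (f : ι → ℤ →₀ ℝ) :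
    l1 (∑ i ∈ s, f i) ≤ ∑ i ∈ s, l1 (f i) := by
  classical
  induction s using Finset.induction_on with
  | empty => simp [l1]
  | insert a s ha ih =>
    rw [Finset.sum_insert ha, Finset.sum_insert ha]
    exact (l1_add _ _).trans (add_le_add le_rfl ih)

private theorem l1_law2 {A B : Finset ℕ} (hA : A.Nonempty) (hB : B.Nonempty) :
    l1 (law2 A B) ≤ 1 := by
  have hA0 : (A.card : ℝ) ≠ 0 := by exact_mod_cast (Finset.card_pos.2 hA).ne'
  have hB0 : (B.card : ℝ) ≠ 0 := by exact_mod_cast (Finset.card_pos.2 hB).ne'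
  unfold law2
  refine (l1_sum _ _).trans ?_
  refine (Finset.sum_le_sum fun a _ => (l1_sum _ _).trans (Finset.sum_le_sum fun b _ =>
    l1_single _ _)).trans ?_
  simp only [Finset.sum_const, nsmul_eq_mul]
  rw [abs_of_nonneg (by positivity)]
  apply le_of_eq
  field_simp

private theorem l1_law3 {A B C : Finset ℕ} (hA : A.Nonempty) (hB : B.Nonempty)
    (hC : C.Nonempty) : l1 (law3 A B C) ≤ 1 := by
  have hA0 : (A.card : ℝ) ≠ 0 := by exact_mod_cast (Finset.card_pos.2 hA).ne'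
  have hB0 : (B.card : ℝ) ≠ 0 := by exact_mod_cast (Finset.card_pos.2 hB).ne'
  have hC0 : (C.card : ℝ) ≠ 0 := by exact_mod_cast (Finset.card_pos.2 hC).ne'
  unfold law3
  refine (l1_sum _ _).trans ?_
  refine (Finset.sum_le_sum fun a _ => (l1_sum _ _).trans (Finset.sum_le_sum fun b _ =>
    (l1_sum _ _).trans (Finset.sum_le_sum fun c _ => l1_single _ _))).trans ?_
  simp only [Finset.sum_const, nsmul_eq_mul]
  rw [abs_of_nonneg (by positivity)]
  apply le_of_eq
  field_simp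

theorem cw_abs (D : ℕ) (r : ℕ × ℕ × ℕ × ℕ) : ∑ m ∈ (cw D r).support, |cw D r m| ≤ 2 := by
  change l1 (cw D r) ≤ 2
  unfold cw
  split_ifs with h
  · obtain ⟨h1, h2, h3, h4⟩ := h
    rw [sub_eq_add_neg]
    refine (l1_add _ _).trans ?_
    rw [l1_neg]
    have e1 := l1_law2 h1 h3
    have e2 := l1_law3 h1 h2 h4
    linarith
  · simp [l1]

private theorem law2_supp {A B : Finset ℕ} {P : ℤ → Prop}
    (h : ∀ a ∈ A, ∀ b ∈ B, P ((a * b : ℕ) : ℤ)) {m : ℤ} (hm : law2 A B m ≠ 0) : P m := by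
  unfold law2 at hm
  rw [Finsupp.finsetSum_apply] at hm
  obtain ⟨a, ha, hm⟩ := Finset.exists_ne_zero_of_sum_ne_zero hm
  rw [Finsupp.finsetSum_apply] at hm
  obtain ⟨b, hb, hm⟩ := Finset.exists_ne_zero_of_sum_ne_zero hm
  rw [Finsupp.single_apply] at hm
  split_ifs at hm with he
  · rw [← he]
    exact h a ha b hb
  · exact absurd rfl hm

private theorem law3_supp {A B C : Finset ℕ} {P : ℤ → Prop}
    (h : ∀ a ∈ A, ∀ b ∈ B, ∀ c ∈ C, P ((a * b * c : ℕ) : ℤ)) {m : ℤ}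
    (hm : law3 A B C m ≠ 0) : P m := by
  unfold law3 at hm
  rw [Finsupp.finsetSum_apply] at hm
  obtain ⟨a, ha, hm⟩ := Finset.exists_ne_zero_of_sum_ne_zero hm
  rw [Finsupp.finsetSum_apply] at hm
  obtain ⟨b, hb, hm⟩ := Finset.exists_ne_zero_of_sum_ne_zero hm
  rw [Finsupp.finsetSum_apply] at hm
  obtain ⟨c, hc, hm⟩ := Finset.exists_ne_zero_of_sum_ne_zero hm
  rw [Finsupp.single_apply] at hm
  split_ifs at hm with he
  · rw [← he]
    exact h a ha b hb c hc
  · exact absurd rfl hm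

private theorem PW_mod {D N Y q p : ℕ} (hq : 0 < q) (hN : q ≤ N)
    (hp : p ∈ PW D N.factorial Y) : (q : ℤ) ∣ (p : ℤ) - 1 := by
  unfold PW at hp
  obtain ⟨_, hp1, hp2⟩ := Finset.mem_filter.1 hp
  have h1 : q ∣ p - 1 := (Nat.dvd_factorial hq hN).trans hp2
  have h2 : ((p - 1 : ℕ) : ℤ) = (p : ℤ) - 1 := by
    rw [Nat.cast_sub hp1.one_lt.le]
    norm_num
  rw [← h2]
  exact_mod_cast h1

private theorem mul_mod {q a b : ℤ} (ha : q ∣ a - 1) (hb : q ∣ b - 1) : q ∣ a * b - 1 := by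
  have e : a * b - 1 = a * (b - 1) + (a - 1) := by ring
  rw [e]
  exact dvd_add (Dvd.dvd.mul_left hb a) ha

theorem cw_mod (D : ℕ) (V : Ultrafilter ℕ) (U : Ultrafilter (ℕ × ℕ × ℕ × ℕ)) (hU : IsIter V U)
    (q : ℕ) (hq : 0 < q) : ∀ᶠ r in (U : Filter (ℕ × ℕ × ℕ × ℕ)),
      ∀ m ∈ (cw D r).support, (q : ℤ) ∣ m - 1 := by
  rw [hU]
  have hN : ∀ᶠ N in (hyperfilter ℕ : Filter ℕ), q ≤ N :=
    Nat.hyperfilter_le_atTop (eventually_ge_atTop q)
  filter_upwards [hN] with N hN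
  refine Eventually.of_forall fun i => Eventually.of_forall fun j => Eventually.of_forall fun l => ?_
  intro m hm
  rw [Finsupp.mem_support_iff] at hm
  unfold cw at hm
  split_ifs at hm with h
  · rw [Finsupp.sub_apply] at hm
    by_cases h2 : law2 (PW D N.factorial (2 ^ i)) (PW D N.factorial (2 ^ l)) m = 0
    · have h3 : law3 (PW D N.factorial (2 ^ i)) (PW D N.factorial (2 ^ j))
          (PW D N.factorial (2 ^ (l - j))) m ≠ 0 := by
        intro h3
        simp only [h2, h3, sub_zero] at hm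
        exact hm rfl
      refine law3_supp (P := fun m => (q : ℤ) ∣ m - 1) (fun a ha b hb c hc => ?_) h3
      push_cast
      exact mul_mod (mul_mod (PW_mod hq hN ha) (PW_mod hq hN hb)) (PW_mod hq hN hc)
    · refine law2_supp (P := fun m => (q : ℤ) ∣ m - 1) (fun a ha b hb => ?_) h2
      push_cast
      exact mul_mod (PW_mod hq hN ha) (PW_mod hq hN hb)
  · exact absurd rfl hm

private theorem cwt_norm (A : ℕ → ℕ → Finset ℕ) (k e : ℕ) (s : ℕ × ℕ × ℤ) :
    ‖cwt A k e s‖ ≤ 1 := by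
  unfold cwt
  rw [Complex.norm_real, Real.norm_eq_abs]
  exact c0_abs _ _ _ _

private theorem cor_app (w : Win) (A : ℕ → ℕ → Finset ℕ) (k : ℕ) (m : ℤ) (s : ℕ × ℕ × ℤ) :
    cor (app w) k (fun i s => ((ind A 0 i s : ℝ) : ℂ)) m s = pat A 0 k m s := by
  unfold cor pat
  refine Finset.prod_congr rfl fun i _ => ?_
  obtain ⟨j, M, x⟩ := s
  have h : (((app w).T ^ ((i : ℤ) * m)) (j, M, x) : ℕ × ℕ × ℤ) = (j, M, x + (i : ℤ) * m) :=
    shT_zpow _ _ _ _
  rw [h]

private theorem E_W (w : Win) (c : ℤ →₀ ℝ) (C : ℕ × ℕ × ℤ → ℂ) (F : ℤ → ℕ × ℕ × ℤ → ℂ) :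
    (appμ w).E (fun x => C x * W c (fun m => F m x)) =
      W c (fun m => (appμ w).E (fun x => C x * F m x)) := by
  unfold W
  have h1 : (fun x => C x * ∑ m ∈ c.support, (c m : ℂ) * F m x) =
      fun x => ∑ m ∈ c.support, (c m : ℂ) * (C x * F m x) := by
    funext x
    rw [Finset.mul_sum]
    refine Finset.sum_congr rfl fun m _ => ?_
    ring
  rw [h1, Mean.E_sum]
  refine Finset.sum_congr rfl fun m _ => ?_
  exact Mean.E_const_mul _ _ _

private theorem mean_close (hPR : PR) (hEnt : Ent)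
    (hSt : ∀ D : ℕ, 1 ≤ D → ∀ (V : Ultrafilter ℕ) (U : Ultrafilter (ℕ × ℕ × ℕ × ℕ)), GoodU V →
      IsIter V U → ∀ k, St U (cw D) k)
    (w : Win) (A : ℕ → ℕ → Finset ℕ) (k D : ℕ) (hD : 1 ≤ D) (ε : ℝ) (hε : 0 < ε) :
    ‖(appμ w).E (fun s => cwt A k 0 s * pat A 2 k 1 s) -
      (appμ w).E (fun s => cwt A k 0 s * pat A 3 k 1 s)‖ ≤ 25 / D + 3 * ε := by
  obtain ⟨V, hV⟩ := exists_goodU
  obtain ⟨U, hU⟩ := exists_iter V
  have hVt := goodU_le hV
  have hS := hSt D hD V U hV hU k (app w) (fun i s => ((ind A 0 i s : ℝ) : ℂ))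
    (fun i => ⟨1, fun s => by
      rw [Complex.norm_real]
      unfold ind
      split_ifs <;> simp⟩)
    (fun r s => cwt A k (r.2.1 + r.2.2.2) s) (fun r s => cwt_norm _ _ _ _)
    (fun r s => by
      obtain ⟨j, M, x⟩ := s
      rfl)
  have hS1 : ∀ᶠ r in (U : Filter (ℕ × ℕ × ℕ × ℕ)),
      ‖W (cw D r) (fun m => (appμ w).E (fun s => cwt A k (r.2.1 + r.2.2.2) s *
        pat A 0 k m s))‖ < ε := by
    have h1 := hS.norm
    rw [norm_zero] at h1
    have h2 := h1.eventually (gt_mem_nhds hε)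
    filter_upwards [h2] with r hr
    rw [← E_W]
    have h3 : (fun x => cwt A k (r.2.1 + r.2.2.2) x * W (cw D r) (fun m => pat A 0 k m x)) =
        fun x => cwt A k (r.2.1 + r.2.2.2) x * W (cw D r) (fun m =>
          cor (app w) k (fun i s => ((ind A 0 i s : ℝ) : ℂ)) m x) := by
      funext x
      simp only [cor_app]
    rw [h3]
    exact hr
  rw [hU] at hS1
  obtain ⟨N, hN⟩ := hS1.exists
  have hq : 1 ≤ N.factorial := Nat.factorial_pos N
  obtain ⟨C, _, l0, hl0⟩ := ratio hPR D N.factorial hD hq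
  have h2 := chain_two hPR hEnt V hV w A k D N.factorial hD hq ε hε
  have h3 := chain_three hPR hEnt V hV w A k D N.factorial hD hq ε hε
  have hge : ∀ n : ℕ, ∀ᶠ i in (V : Filter ℕ), n ≤ i := fun n => hVt (eventually_ge_atTop n)
  obtain ⟨i, hi1, hi2, hi3, hi4⟩ := (hN.and (h2.and (h3.and (hge l0)))).exists
  obtain ⟨j, hj1, hj3, hj4⟩ := (hi1.and (hi3.and (hge l0))).exists
  obtain ⟨l, hl1, hl2, hl3, hl4⟩ := (hj1.and (hi2.and (hj3.and (hge (l0 + j))))).exists
  have n1 := (hl0 i hi4).2.1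
  have n2 := (hl0 j hj4).2.1
  have n3 := (hl0 l (by omega)).2.1
  have n4 := (hl0 (l - j) (by omega)).2.1
  have hcw : cw D (N, i, j, l) = law2 (PW D N.factorial (2 ^ i)) (PW D N.factorial (2 ^ l)) -
      law3 (PW D N.factorial (2 ^ i)) (PW D N.factorial (2 ^ j))
        (PW D N.factorial (2 ^ (l - j))) := by
    unfold cw
    exact if_pos ⟨n1, n2, n3, n4⟩
  simp only at hl1
  rw [hcw, W_sub, W_law2 _ _ n1 n3, W_law3 _ _ _ n1 n2 n4] at hl1
  set E2 := (appμ w).E (fun s => cwt A k 0 s * pat A 2 k 1 s)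
  set E3 := (appμ w).E (fun s => cwt A k 0 s * pat A 3 k 1 s)
  set a2 := avP (PW D N.factorial (2 ^ i)) (fun p => avP (PW D N.factorial (2 ^ l)) (fun p' =>
          (appμ w).E (fun s => cwt A k (i + l) s * pat A 0 k ((p * p' : ℕ) : ℤ) s)))
  set a3 := avP (PW D N.factorial (2 ^ i)) (fun p => avP (PW D N.factorial (2 ^ j)) (fun p0 =>
          avP (PW D N.factorial (2 ^ (l - j))) (fun p' =>
            (appμ w).E (fun s => cwt A k (i + l) s * pat A 0 k ((p * p0 * p' : ℕ) : ℤ) s))))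
  have e : E2 - E3 = (E2 - a2) + (a2 - a3) - (E3 - a3) := by ring
  rw [e]
  have t1 := norm_sub_le ((E2 - a2) + (a2 - a3)) (E3 - a3)
  have t2 := norm_add_le (E2 - a2) (a2 - a3)
  have t3 : (25 : ℝ) / D = 10 / D + 15 / D := by ring
  rw [t3]
  linarith

theorem mean_zero (hPR : PR) (hEnt : Ent)
    (hSt : ∀ D : ℕ, 1 ≤ D → ∀ (V : Ultrafilter ℕ) (U : Ultrafilter (ℕ × ℕ × ℕ × ℕ)), GoodU V →
      IsIter V U → ∀ k, St U (cw D) k)
    (w : Win) (A : ℕ → ℕ → Finset ℕ) (k : ℕ) :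
    (appμ w).E (fun s => cwt A k 0 s * pat A 2 k 1 s) =
      (appμ w).E (fun s => cwt A k 0 s * pat A 3 k 1 s) := by
  by_contra hne
  have hδ : 0 < ‖(appμ w).E (fun s => cwt A k 0 s * pat A 2 k 1 s) -
      (appμ w).E (fun s => cwt A k 0 s * pat A 3 k 1 s)‖ :=
    norm_pos_iff.2 (sub_ne_zero.2 hne)
  set δ := ‖(appμ w).E (fun s => cwt A k 0 s * pat A 2 k 1 s) -
      (appμ w).E (fun s => cwt A k 0 s * pat A 3 k 1 s)‖ with hδd
  obtain ⟨D, hD⟩ := exists_nat_gt (100 / δ)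
  have hD0 : (0 : ℝ) < D := lt_trans (by positivity) hD
  have hD1 : 1 ≤ D := by
    have : 0 < D := by exact_mod_cast hD0
    omega
  have h := mean_close hPR hEnt hSt w A k D hD1 (δ / 12) (by positivity)
  rw [← hδd] at h
  have h2 : (25 : ℝ) / D < δ / 4 := by
    rw [div_lt_iff₀ hδ] at hD
    rw [div_lt_iff₀ hD0]
    linarith
  linarith

end DG
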