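import Pool.Agent.Helper6.DG.E6Zero

/-!
# DG-E7: product sets in windows

PROOF. `lim_sq`: from `mean_zero` the mean of `cwt 0 * (pat 2 1 - pat 3 1)` is `0`. Its window mean is, by
`wmean_E`, `(∑_M (1/M) c0(M) * (1/M) ∑_{n ≤ M} (pat 2 - pat 3)(j, M, n)) / mass` and the inner
average is `Tr 2 - Tr 3 = c0` (`pat A r k 1 (j, M, n) = ∏ 1[Ω(n + i) + r ∈ A j i]`,
`OmZ ((n : ℤ) + i) = cardFactors (n + i)`, `M / 2^0 = M`), so it is
`(∑ (1/M) c0(M)^2) / mass`, and it tends to the mean `0` along the hyperfilter (`app_tendsto`).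
`prodSt` (`k ≥ 1`; for `k = 0` both terms are equal): suppose not, choose for each `j` a counterexample
`N_j, K_j, A_j` for `K0 = N0 = j + 3`. Window: `a j = N_j / K_j < b j = N_j`; the mass is
between `log K_j - 1` and `log K_j + 2`. With `A' j i = (A_j i).image (· + 2)` Cauchy-Schwarz gives
`(∑ (1/M)|c0| / mass)² ≤ ∑ (1/M) c0² / mass → 0` along the hyperfilter, but
`∑ (1/M) |c0| > ε log K_j ≥ (ε/3) mass`. Contradiction.
-/

set_option autoImplicit false

namespace DG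

open Finset Filter Topology

theorem e7_log_le (a : ℕ) (b : ℕ) (hab : a ≤ b) :
    Real.log ((b : ℝ) + 1) - Real.log ((a : ℝ) + 1) ≤ ∑ M ∈ Ioc a b, 1 / (M : ℝ) := by
  induction b, hab using Nat.le_induction with
  | base => simp
  | succ b hab ih =>
    rw [Finset.sum_Ioc_succ_top hab]
    have hb : (0 : ℝ) < (b : ℝ) + 1 := by positivity
    have h1 : Real.log (((b : ℝ) + 1 + 1) / ((b : ℝ) + 1)) ≤ 1 / ((b : ℝ) + 1) := by
      have h2 := Real.log_le_sub_one_of_pos (show (0 : ℝ) < ((b : ℝ) + 1 + 1) / ((b : ℝ) + 1) by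
        positivity)
      have h3 : ((b : ℝ) + 1 + 1) / ((b : ℝ) + 1) - 1 = 1 / ((b : ℝ) + 1) := by
        field_simp
        ring
      rwa [h3] at h2
    rw [Real.log_div (by positivity) hb.ne'] at h1
    push_cast
    linarith

theorem e7_le_log (a : ℕ) (ha : 1 ≤ a) (b : ℕ) (hab : a ≤ b) :
    ∑ M ∈ Ioc a b, 1 / (M : ℝ) ≤ Real.log b - Real.log a := by
  induction b, hab using Nat.le_induction with
  | base => simp
  | succ b hab ih =>
    rw [Finset.sum_Ioc_succ_top hab]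
    have hb0 : 1 ≤ b := ha.trans hab
    have hb : (0 : ℝ) < (b : ℝ) := by exact_mod_cast hb0
    have h1 : Real.log ((b : ℝ) / ((b : ℝ) + 1)) ≤ -(1 / ((b : ℝ) + 1)) := by
      have h2 := Real.log_le_sub_one_of_pos (show (0 : ℝ) < (b : ℝ) / ((b : ℝ) + 1) by positivity)
      have h3 : (b : ℝ) / ((b : ℝ) + 1) - 1 = -(1 / ((b : ℝ) + 1)) := by
        field_simp
        ring
      rwa [h3] at h2
    rw [Real.log_div hb.ne' (by positivity)] at h1
    push_cast
    linarith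

theorem e7_mass_le (N K : ℕ) (hK : 1 ≤ K) (hKN : K ≤ N) :
    ∑ M ∈ Ioc (N / K) N, 1 / (M : ℝ) ≤ Real.log K + 1 := by
  have ha : 1 ≤ N / K := (Nat.one_le_div_iff (by omega)).2 hKN
  refine (e7_le_log (N / K) ha N (Nat.div_le_self _ _)).trans ?_
  have ha0 : (0 : ℝ) < ((N / K : ℕ) : ℝ) := by exact_mod_cast ha
  have hK0 : (0 : ℝ) < (K : ℝ) := by exact_mod_cast hK
  have hN0 : (0 : ℝ) < (N : ℝ) := by
    have : 0 < N := by omega
    exact_mod_cast this
  have h1 : N ≤ K * (2 * (N / K)) := by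
    have h2 : N < K * (N / K + 1) := Nat.lt_mul_div_succ N (by omega)
    have h3 : K * (N / K + 1) ≤ K * (2 * (N / K)) := Nat.mul_le_mul_left _ (by omega)
    omega
  have h4 : (N : ℝ) ≤ K * (2 * ((N / K : ℕ) : ℝ)) := by exact_mod_cast h1
  have h5 : Real.log N ≤ Real.log (K * (2 * ((N / K : ℕ) : ℝ))) := Real.log_le_log hN0 h4
  rw [Real.log_mul hK0.ne' (by positivity), Real.log_mul (by norm_num) ha0.ne'] at h5
  have h6 : Real.log 2 ≤ 1 := by
    have := Real.log_le_sub_one_of_pos (show (0 : ℝ) < 2 by norm_num)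
    linarith
  linarith

theorem e7_le_mass (N K : ℕ) (hK : 1 ≤ K) (hKN : K ≤ N) :
    Real.log K - 1 ≤ ∑ M ∈ Ioc (N / K) N, 1 / (M : ℝ) := by
  have ha : 1 ≤ N / K := (Nat.one_le_div_iff (by omega)).2 hKN
  refine le_trans ?_ (e7_log_le (N / K) N (Nat.div_le_self _ _))
  have ha0 : (0 : ℝ) < ((N / K : ℕ) : ℝ) := by exact_mod_cast ha
  have hK0 : (0 : ℝ) < (K : ℝ) := by exact_mod_cast hK
  have h1 : K * (N / K + 1) ≤ 2 * (N + 1) := by
    have h2 : K * (N / K) ≤ N := Nat.mul_div_le N K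
    have h3 : K * (N / K + 1) = K * (N / K) + K := by ring
    omega
  have h4 : (K : ℝ) * (((N / K : ℕ) : ℝ) + 1) ≤ 2 * ((N : ℝ) + 1) := by exact_mod_cast h1
  have h5 : Real.log ((K : ℝ) * (((N / K : ℕ) : ℝ) + 1)) ≤ Real.log (2 * ((N : ℝ) + 1)) :=
    Real.log_le_log (by positivity) h4
  rw [Real.log_mul hK0.ne' (by positivity), Real.log_mul (by norm_num) (by positivity)] at h5
  have h6 : Real.log 2 ≤ 1 := by
    have := Real.log_le_sub_one_of_pos (show (0 : ℝ) < 2 by norm_num)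
    linarith
  linarith

theorem e7_pat (A : ℕ → ℕ → Finset ℕ) (r k j M n : ℕ) :
    pat A r k 1 (j, M, (n : ℤ)) = ((∏ i ∈ range (k + 1),
      (if ArithmeticFunction.cardFactors (n + i) + r ∈ A j i then (1 : ℝ) else 0) : ℝ) : ℂ) := by
  unfold pat ind OmZ
  rw [Complex.ofReal_prod]
  refine Finset.prod_congr rfl fun i _ => ?_
  have h : ((n : ℤ) + (i : ℤ) * 1).toNat = n + i := by
    rw [mul_one]
    exact_mod_cast Int.toNat_natCast (n + i)
  simp only [h]

theorem e7_ind_le (A : ℕ → ℕ → Finset ℕ) (r k : ℕ) (a : ℤ) (s : ℕ × ℕ × ℤ) :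
    ‖pat A r k a s‖ ≤ 1 := by
  unfold pat
  refine prod_norm_le_one _ _ fun i _ => ?_
  rw [Complex.norm_real]
  unfold ind
  split_ifs <;> simp

theorem e7_Tr_nonneg (A : ℕ → ℕ → Finset ℕ) (r k j M : ℕ) : 0 ≤ Tr A r k j M := by
  unfold Tr
  refine mul_nonneg (by positivity) (Finset.sum_nonneg fun n _ => Finset.prod_nonneg fun i _ => ?_)
  split_ifs <;> norm_num

theorem e7_Tr_le (A : ℕ → ℕ → Finset ℕ) (r k j M : ℕ) : Tr A r k j M ≤ 1 := by
  unfold Tr
  have h1 : ∑ n ∈ Icc 1 M, ∏ i ∈ range (k + 1),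
      (if ArithmeticFunction.cardFactors (n + i) + r ∈ A j i then (1 : ℝ) else 0) ≤ M := by
    have h2 : ∑ n ∈ Icc 1 M, ∏ i ∈ range (k + 1),
        (if ArithmeticFunction.cardFactors (n + i) + r ∈ A j i then (1 : ℝ) else 0) ≤
          ∑ n ∈ Icc 1 M, (1 : ℝ) := by
      refine Finset.sum_le_sum fun n _ => Finset.prod_le_one (fun i _ => ?_) (fun i _ => ?_)
      · split_ifs <;> norm_num
      · split_ifs <;> norm_num
    refine h2.trans ?_
    simp
  rcases Nat.eq_zero_or_pos M with rfl | hM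
  · simp
  · have hM0 : (0 : ℝ) < M := by exact_mod_cast hM
    rw [one_div, inv_mul_le_iff₀ hM0, mul_one]
    exact h1

theorem e7_c0 (A : ℕ → ℕ → Finset ℕ) (k j M : ℕ) : |c0 A k j M| ≤ 1 := by
  unfold c0
  have h1 := e7_Tr_nonneg A 2 k j M
  have h2 := e7_Tr_nonneg A 3 k j M
  have h3 := e7_Tr_le A 2 k j M
  have h4 := e7_Tr_le A 3 k j M
  rw [abs_le]
  constructor <;> linarith

theorem e7_wmean (w : Win) (A : ℕ → ℕ → Finset ℕ) (k j : ℕ) :
    (wmean w j).E (fun s => cwt A k 0 s * pat A 2 k 1 s - cwt A k 0 s * pat A 3 k 1 s) =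
      (((∑ M ∈ Ioc (w.a j) (w.b j), (1 / (M : ℝ)) * c0 A k j M ^ 2) /
        ∑ M ∈ Ioc (w.a j) (w.b j), 1 / (M : ℝ) : ℝ) : ℂ) := by
  rw [wmean_E, Complex.ofReal_div]
  congr 1
  rw [Complex.ofReal_sum]
  refine Finset.sum_congr rfl fun M _ => ?_
  have h1 : ∀ n : ℕ, cwt A k 0 (j, M, (n : ℤ)) * pat A 2 k 1 (j, M, (n : ℤ)) -
      cwt A k 0 (j, M, (n : ℤ)) * pat A 3 k 1 (j, M, (n : ℤ)) =
      ((c0 A k j M : ℝ) : ℂ) * ((∏ i ∈ range (k + 1),
        (if ArithmeticFunction.cardFactors (n + i) + 2 ∈ A j i then (1 : ℝ) else 0) : ℝ) : ℂ) -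
      ((c0 A k j M : ℝ) : ℂ) * ((∏ i ∈ range (k + 1),
        (if ArithmeticFunction.cardFactors (n + i) + 3 ∈ A j i then (1 : ℝ) else 0) : ℝ) : ℂ) := by
    intro n
    rw [e7_pat, e7_pat]
    unfold cwt
    simp only [pow_zero, Nat.div_one]
  simp only [h1]
  rw [Finset.sum_sub_distrib, ← Finset.mul_sum, ← Finset.mul_sum]
  have h2 : ((c0 A k j M : ℝ) : ℂ) = ((Tr A 2 k j M : ℝ) : ℂ) - ((Tr A 3 k j M : ℝ) : ℂ) := by
    unfold c0
    push_cast
    rfl
  have h3 : ∀ r : ℕ, ((Tr A r k j M : ℝ) : ℂ) = (1 / (M : ℂ)) * ∑ n ∈ Icc 1 M,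
      ((∏ i ∈ range (k + 1),
        (if ArithmeticFunction.cardFactors (n + i) + r ∈ A j i then (1 : ℝ) else 0) : ℝ) : ℂ) := by
    intro r
    unfold Tr
    rw [Complex.ofReal_mul, Complex.ofReal_sum]
    push_cast
    rfl
  have h4 : (((1 / (M : ℝ)) * c0 A k j M ^ 2 : ℝ) : ℂ) =
      (1 / (M : ℂ)) * (((c0 A k j M : ℝ) : ℂ) * ((c0 A k j M : ℝ) : ℂ)) := by
    push_cast
    ring
  rw [h4]
  congr 1
  have h5 : (1 / (M : ℂ)) * (((c0 A k j M : ℝ) : ℂ) * ∑ n ∈ Icc 1 M,
      ((∏ i ∈ range (k + 1),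
        (if ArithmeticFunction.cardFactors (n + i) + 2 ∈ A j i then (1 : ℝ) else 0) : ℝ) : ℂ) -
      ((c0 A k j M : ℝ) : ℂ) * ∑ n ∈ Icc 1 M,
      ((∏ i ∈ range (k + 1),
        (if ArithmeticFunction.cardFactors (n + i) + 3 ∈ A j i then (1 : ℝ) else 0) : ℝ) : ℂ)) =
      ((c0 A k j M : ℝ) : ℂ) * (((Tr A 2 k j M : ℝ) : ℂ) - ((Tr A 3 k j M : ℝ) : ℂ)) := by
    rw [h3 2, h3 3]
    ring
  rw [h5, ← h2]

theorem lim_sq (hPR : PR) (hEnt : Ent)
    (hSt : ∀ D : ℕ, 1 ≤ D → ∀ (V : Ultrafilter ℕ) (U : Ultrafilter (ℕ × ℕ × ℕ × ℕ)), GoodU V →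
      IsIter V U → ∀ k, St U (cw D) k)
    (w : Win) (A : ℕ → ℕ → Finset ℕ) (k : ℕ) :
    Tendsto (fun j => (∑ M ∈ Ioc (w.a j) (w.b j), (1 / (M : ℝ)) * c0 A k j M ^ 2) /
      ∑ M ∈ Ioc (w.a j) (w.b j), 1 / (M : ℝ)) (hyperfilter ℕ : Filter ℕ) (𝓝 0) := by
  have hc : Bd (cwt A k 0) := by
    refine ⟨1, fun s => ?_⟩
    unfold cwt
    rw [Complex.norm_real]
    exact e7_c0 _ _ _ _
  have h2 : Bd (fun s => cwt A k 0 s * pat A 2 k 1 s) :=
    hc.mul ⟨1, fun s => e7_ind_le A 2 k 1 s⟩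
  have h3 : Bd (fun s => cwt A k 0 s * pat A 3 k 1 s) :=
    hc.mul ⟨1, fun s => e7_ind_le A 3 k 1 s⟩
  have h4 := app_tendsto w _ (h2.sub h3)
  rw [Mean.E_sub, mean_zero hPR hEnt hSt w A k, sub_self] at h4
  have h5 := (Complex.continuous_re.tendsto 0).comp h4
  rw [Complex.zero_re] at h5
  refine h5.congr fun j => ?_
  simp only [Function.comp_apply]
  rw [e7_wmean w A k j, Complex.ofReal_re]

theorem e7_Tr_Ec (k j M : ℕ) (B : Fin (k + 1) → Finset ℕ) (A : ℕ → ℕ → Finset ℕ)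
    (hA : ∀ i : Fin (k + 1), A j i = (B i).image (· + 2)) :
    Tr A 2 k j M = Ec (k + 1) M (fun l => if ∀ i, l i ∈ B i then 1 else 0) ∧
    Tr A 3 k j M = Ec (k + 1) M (fun l => if ∀ i, l i + 1 ∈ B i then 1 else 0) := by
  constructor
  · unfold Tr Ec
    congr 1
    refine Finset.sum_congr rfl fun n _ => ?_
    rw [Finset.prod_range]
    have h1 : ∀ i : Fin (k + 1),
        (if ArithmeticFunction.cardFactors (n + i) + 2 ∈ A j i then (1 : ℝ) else 0) =
        if ArithmeticFunction.cardFactors (n + i) ∈ B i then (1 : ℝ) else 0 := by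
      intro i
      have : ArithmeticFunction.cardFactors (n + i) + 2 ∈ A j i ↔
          ArithmeticFunction.cardFactors (n + i) ∈ B i := by
        rw [hA i, Finset.mem_image]
        constructor
        · rintro ⟨x, hx, hx2⟩
          have : x = ArithmeticFunction.cardFactors (n + i) := by omega
          rwa [← this]
        · intro h
          exact ⟨_, h, rfl⟩
      simp only [this]
    simp only [h1]
    rw [Finset.prod_ite_zero]
    simp
  · unfold Tr Ec
    congr 1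
    refine Finset.sum_congr rfl fun n _ => ?_
    rw [Finset.prod_range]
    have h1 : ∀ i : Fin (k + 1),
        (if ArithmeticFunction.cardFactors (n + i) + 3 ∈ A j i then (1 : ℝ) else 0) =
        if ArithmeticFunction.cardFactors (n + i) + 1 ∈ B i then (1 : ℝ) else 0 := by
      intro i
      have : ArithmeticFunction.cardFactors (n + i) + 3 ∈ A j i ↔
          ArithmeticFunction.cardFactors (n + i) + 1 ∈ B i := by
        rw [hA i, Finset.mem_image]
        constructor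
        · rintro ⟨x, hx, hx2⟩
          have : x = ArithmeticFunction.cardFactors (n + i) + 1 := by omega
          rwa [← this]
        · intro h
          exact ⟨_, h, rfl⟩
      simp only [this]
    simp only [h1]
    rw [Finset.prod_ite_zero]
    simp

theorem prodSt (hPR : PR) (hEnt : Ent)
    (hSt : ∀ D : ℕ, 1 ≤ D → ∀ (V : Ultrafilter ℕ) (U : Ultrafilter (ℕ × ℕ × ℕ × ℕ)), GoodU V →
      IsIter V U → ∀ k, St U (cw D) k) (k : ℕ) : ProdSt k := by
  rcases k with _ | k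
  · intro ε hε
    refine ⟨1, 1, fun N K _ hK _ A => ?_⟩
    have h1 : 0 ≤ Real.log K := Real.log_nonneg (by exact_mod_cast hK)
    have h2 : ∀ M : ℕ, (1 / (M : ℝ)) *
      |Ec 0 M (fun l => if ∀ i, l i ∈ A i then 1 else 0) -
        Ec 0 M (fun l => if ∀ i, l i + 1 ∈ A i then 1 else 0)| = 0 := by
      intro M
      have h3 : Ec 0 M (fun l => if ∀ i, l i ∈ A i then 1 else 0) =
          Ec 0 M (fun l => if ∀ i, l i + 1 ∈ A i then 1 else 0) := by
        congr 1
      rw [h3, sub_self, abs_zero, mul_zero]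
    simp only [h2, Finset.sum_const_zero]
    positivity
  · intro ε hε
    by_contra hcon
    push Not at hcon
    choose N K hN hK hKN B hB using fun j : ℕ => hcon (j + 3) (j + 3)
    have hK1 : ∀ j, 1 ≤ K j := fun j => by have := hK j; omega
    have hN1 : ∀ j, 1 ≤ N j := fun j => by have := hN j; omega
    let w : Win :=
      { a := fun j => N j / K j
        b := N
        lt := fun j => Nat.div_lt_self (by have := hN j; omega) (by have := hK j; omega)
        div := by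
          refine tendsto_atTop_mono (fun j => e7_le_mass (N j) (K j) (hK1 j) (hKN j)) ?_
          have h1 : Tendsto (fun j : ℕ => Real.log ((j : ℝ) + 3) - 1) atTop atTop := by
            refine tendsto_atTop_add_const_right _ _ ?_
            exact Real.tendsto_log_atTop.comp
              (tendsto_atTop_add_const_right _ _ tendsto_natCast_atTop_atTop)
          refine tendsto_atTop_mono (fun j => ?_) h1
          have h2 : Real.log ((j : ℝ) + 3) ≤ Real.log (K j) := by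
            refine Real.log_le_log (by positivity) ?_
            exact_mod_cast hK j
          linarith }
    let A : ℕ → ℕ → Finset ℕ := fun j i =>
      if h : i < k + 1 then (B j ⟨i, h⟩).image (· + 2) else ∅
    have hA : ∀ j, ∀ i : Fin (k + 1), A j i = (B j i).image (· + 2) := by
      intro j i
      simp only [A, i.2, dif_pos]
    have hlim := lim_sq hPR hEnt hSt w A k
    have hev := (hlim.eventually (gt_mem_nhds (show (0 : ℝ) < (ε / 3) ^ 2 by positivity)))
    obtain ⟨j, hj⟩ := hev.exists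
    have hm : 0 < ∑ M ∈ Ioc (w.a j) (w.b j), 1 / (M : ℝ) := mass_pos (w.lt j)
    have hBj := hB j
    have hx : ∑ M ∈ Ioc (w.a j) (w.b j), (1 / (M : ℝ)) * |c0 A k j M| =
        ∑ M ∈ Ioc (N j / K j) (N j), (1 / (M : ℝ)) *
          |Ec (k + 1) M (fun l => if ∀ i, l i ∈ B j i then 1 else 0) -
            Ec (k + 1) M (fun l => if ∀ i, l i + 1 ∈ B j i then 1 else 0)| := by
      refine Finset.sum_congr rfl fun M _ => ?_
      unfold c0
      rw [(e7_Tr_Ec k j M (B j) A (hA j)).1, (e7_Tr_Ec k j M (B j) A (hA j)).2]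
    rw [← hx] at hBj
    have hCS : (∑ M ∈ Ioc (w.a j) (w.b j), (1 / (M : ℝ)) * |c0 A k j M|) ^ 2 ≤
        (∑ M ∈ Ioc (w.a j) (w.b j), 1 / (M : ℝ)) *
          ∑ M ∈ Ioc (w.a j) (w.b j), (1 / (M : ℝ)) * c0 A k j M ^ 2 := by
      refine Finset.sum_sq_le_sum_mul_sum_of_sq_le_mul _ (fun M _ => by positivity)
        (fun M _ => by positivity) (fun M _ => le_of_eq ?_)
      rw [mul_pow, sq_abs]
      ring
    have hlog3 : 1 ≤ Real.log (K j) := by
      have h1 : Real.exp 1 ≤ (K j : ℝ) := by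
        have h2 : (3 : ℝ) ≤ K j := by
          have := hK j
          have h3 : 3 ≤ K j := by omega
          exact_mod_cast h3
        have := Real.exp_one_lt_d9
        linarith
      rw [← Real.log_exp 1]
      exact Real.log_le_log (Real.exp_pos 1) h1
    have hmass : ∑ M ∈ Ioc (w.a j) (w.b j), 1 / (M : ℝ) ≤ 3 * Real.log (K j) := by
      have := e7_mass_le (N j) (K j) (hK1 j) (hKN j)
      show ∑ M ∈ Ioc (N j / K j) (N j), 1 / (M : ℝ) ≤ 3 * Real.log (K j)
      linarith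
    set m := ∑ M ∈ Ioc (w.a j) (w.b j), 1 / (M : ℝ) with hmdef
    set x := ∑ M ∈ Ioc (w.a j) (w.b j), (1 / (M : ℝ)) * |c0 A k j M| with hxdef
    set y := ∑ M ∈ Ioc (w.a j) (w.b j), (1 / (M : ℝ)) * c0 A k j M ^ 2 with hydef
    have h1 : ε / 3 * m < x := by
      have : ε / 3 * m ≤ ε * Real.log (K j) := by
        have h2 : ε / 3 * m ≤ ε / 3 * (3 * Real.log (K j)) :=
          mul_le_mul_of_nonneg_left hmass (by positivity)
        linarith
      linarith
    rw [div_lt_iff₀ hm] at hj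
    have h2 : (ε / 3 * m) ^ 2 < x ^ 2 := by
      apply pow_lt_pow_left₀ h1 (by positivity) (by norm_num)
    have h3 : m * y < m * ((ε / 3) ^ 2 * m) := mul_lt_mul_of_pos_left hj hm
    nlinarith

end DG
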