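import Pool.Agent.Helper6.DG.Defs
import Pool.Agent.Helper13.MRF.GoalW
import Pool.Agent.Helper13.MRF.LawX

/-!
# DG-F1: from product sets to all bounded functions

PROOF. Follow Helper13/MRF/GoalW.lean (`MRP.goalw`). `k = 0` is trivial. `k ≥ 1`: let `δ₁, K₁, N₁` be
given by `coreW k (ε / 16)`. `regBox k δ₂` for the law `p = (pL N + pL N (· - 1)) / 2`:
`F = S + r`, `S = ∑_j c j * 1_{A j}` (at most `C` boxes, `|c j| ≤ 1`, `|S| ≤ 1`), `|r| ≤ 2`, `r` has
small cut norm under the product law of `p`, hence (`pL N ≤ 2 p`, `pL N (· - 1) ≤ 2 p`) `r` and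
`r (· + 1)` have small cut norm under the product law of `pL N`, hence (`cutLog`) under `Ep k M` for
`log M ≥ η log N`. (i) boxes: `ProdSt k` with `ε / (4 (C + 1))` for each `A j`. (ii), (iii)
`∑ (1/M) |Em k M r|`, `∑ (1/M) |Em k M r'|` small by `coreW`. (iv) the scales with
`log M < η log N` as in `goalw`. Sum: `|Ec F - Ec (F ∘ (+1))| ≤ |Em S - Em S'| + |Em r| + |Em r'|`.
-/

set_option autoImplicit false

namespace DG

namespace F1

open Finset Helper13.Om Helper11.QR

/-- the logarithmic law of `Ω + 1` -/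
noncomputable def shL (N t : ℕ) : ℝ := if t = 0 then 0 else pL N (t - 1)

lemma shL_nonneg (N t : ℕ) : 0 ≤ shL N t := by
  unfold shL
  split_ifs
  · exact le_rfl
  · exact pL_nonneg _ _

lemma shL_succ (N t : ℕ) : shL N (t + 1) = pL N t := by
  unfold shL
  simp

lemma shL_sum (N L : ℕ) (hN : 1 ≤ N) (hL : N + 1 < L) : ∑ t ∈ Finset.range L, shL N t = 1 := by
  obtain ⟨L', rfl⟩ : ∃ L', L = L' + 1 := ⟨L - 1, by omega⟩
  rw [Finset.sum_range_succ']
  simp only [shL_succ]
  rw [pL_sum N L' hN (by omega)]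
  simp [shL]

lemma pL_zero (N t : ℕ) (h : N < t) : pL N t = 0 := by
  unfold pL
  have : (Finset.Icc 1 N).filter (fun n => ArithmeticFunction.cardFactors n = t) = ∅ := by
    rw [Finset.filter_eq_empty_iff]
    intro n hn
    have h1 := Omega_le n
    rw [Finset.mem_Icc] at hn
    omega
  rw [this]
  simp

lemma shift_sum (k N L : ℕ) (hL : N + 1 < L) (G : (Fin k → ℕ) → ℝ) :
    ∑ ℓ ∈ Fintype.piFinset (fun _ : Fin k => Finset.range L), (∏ i, pL N (ℓ i)) *
      G (fun i => ℓ i + 1) =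
    ∑ ℓ ∈ Fintype.piFinset (fun _ : Fin k => Finset.range L), (∏ i, shL N (ℓ i)) * G ℓ := by
  classical
  have h1 : ∑ ℓ ∈ Fintype.piFinset (fun _ : Fin k => Finset.range (L - 1)),
      (∏ i, pL N (ℓ i)) * G (fun i => ℓ i + 1) =
      ∑ ℓ ∈ Fintype.piFinset (fun _ : Fin k => Finset.range L), (∏ i, pL N (ℓ i)) *
      G (fun i => ℓ i + 1) := by
    apply Finset.sum_subset
    · apply Fintype.piFinset_subset
      intro i
      apply Finset.range_subset_range.2
      omega
    · intro ℓ _ hℓ2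
      rw [Fintype.mem_piFinset] at hℓ2
      push Not at hℓ2
      obtain ⟨i, hi⟩ := hℓ2
      rw [Finset.mem_range, not_lt] at hi
      rw [Finset.prod_eq_zero (Finset.mem_univ i) (pL_zero N _ (by omega)), zero_mul]
  have h2 : ∑ ℓ ∈ Fintype.piFinset (fun _ : Fin k => Finset.Ico 1 L),
      (∏ i, shL N (ℓ i)) * G ℓ =
      ∑ ℓ ∈ Fintype.piFinset (fun _ : Fin k => Finset.range L), (∏ i, shL N (ℓ i)) * G ℓ := by
    apply Finset.sum_subset
    · apply Fintype.piFinset_subset
      intro i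
      intro t ht
      rw [Finset.mem_Ico] at ht
      rw [Finset.mem_range]
      exact ht.2
    · intro ℓ hℓ1 hℓ2
      rw [Fintype.mem_piFinset] at hℓ1 hℓ2
      push Not at hℓ2
      obtain ⟨i, hi⟩ := hℓ2
      have hi' := Finset.mem_range.1 (hℓ1 i)
      rw [Finset.mem_Ico] at hi
      have hi0 : ℓ i = 0 := by omega
      have : shL N (ℓ i) = 0 := by
        rw [hi0]
        simp [shL]
      rw [Finset.prod_eq_zero (Finset.mem_univ i) this, zero_mul]
  rw [← h1, ← h2]
  refine Finset.sum_nbij' (fun ℓ i => ℓ i + 1) (fun ℓ i => ℓ i - 1) ?_ ?_ ?_ ?_ ?_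
  · intro ℓ hℓ
    rw [Fintype.mem_piFinset] at hℓ ⊢
    intro i
    have := Finset.mem_range.1 (hℓ i)
    rw [Finset.mem_Ico]
    omega
  · intro ℓ hℓ
    rw [Fintype.mem_piFinset] at hℓ ⊢
    intro i
    have := Finset.mem_Ico.1 (hℓ i)
    rw [Finset.mem_range]
    omega
  · intro ℓ _
    funext i
    simp
  · intro ℓ hℓ
    rw [Fintype.mem_piFinset] at hℓ
    funext i
    have := Finset.mem_Ico.1 (hℓ i)
    show ℓ i - 1 + 1 = ℓ i
    omega
  · intro ℓ _
    simp only [shL_succ]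

/-- cut norms under a dominated product law -/
lemma dom (k L : ℕ) (p w : ℕ → ℝ) (hw0 : ∀ t, 0 ≤ w t) (hw : ∀ t, w t ≤ 2 * p t) (δ : ℝ)
    (r : (Fin k → ℕ) → ℝ)
    (hr : ∀ f : Fin k → ℕ → ℝ, (∀ i t, |f i t| ≤ 1) →
      |∑ ℓ ∈ Fintype.piFinset (fun _ : Fin k => Finset.range L), (∏ i, p (ℓ i)) *
        (r ℓ * ∏ i, f i (ℓ i))| ≤ δ) (f : Fin k → ℕ → ℝ) (hf : ∀ i t, |f i t| ≤ 1) :
    |∑ ℓ ∈ Fintype.piFinset (fun _ : Fin k => Finset.range L), (∏ i, w (ℓ i)) *
        (r ℓ * ∏ i, f i (ℓ i))| ≤ 2 ^ k * δ := by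
  set d : ℕ → ℝ := fun t => w t / (2 * p t) with hd
  have hp0 : ∀ t, 0 ≤ p t := fun t => by
    have h1 := hw0 t
    have h2 := hw t
    linarith
  have hwd : ∀ t, w t = 2 * (p t * d t) := by
    intro t
    rcases eq_or_lt_of_le (hp0 t) with h | h
    · have h1 := hw0 t
      have h2 := hw t
      rw [← h] at h2
      rw [← h]
      linarith
    · rw [hd]
      field_simp
  have hd1 : ∀ t, |d t| ≤ 1 := by
    intro t
    have h0 : 0 ≤ d t := div_nonneg (hw0 t) (by have := hp0 t; linarith)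
    rw [abs_of_nonneg h0]
    exact div_le_one_of_le₀ (hw t) (by have := hp0 t; linarith)
  have h1 := hr (fun i t => d t * f i t) (fun i t => by
    rw [abs_mul]
    exact mul_le_one₀ (hd1 t) (abs_nonneg _) (hf i t))
  have h2 : ∑ ℓ ∈ Fintype.piFinset (fun _ : Fin k => Finset.range L), (∏ i, w (ℓ i)) *
        (r ℓ * ∏ i, f i (ℓ i)) = 2 ^ k *
      ∑ ℓ ∈ Fintype.piFinset (fun _ : Fin k => Finset.range L), (∏ i, p (ℓ i)) *
        (r ℓ * ∏ i, (d (ℓ i) * f i (ℓ i))) := by
    rw [Finset.mul_sum]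
    refine Finset.sum_congr rfl fun ℓ _ => ?_
    have h3 : ∏ i, w (ℓ i) = 2 ^ k * ((∏ i, p (ℓ i)) * ∏ i, d (ℓ i)) := by
      simp only [hwd]
      rw [Finset.prod_mul_distrib, Finset.prod_const, Finset.card_univ, Fintype.card_fin,
        Finset.prod_mul_distrib]
    rw [h3, Finset.prod_mul_distrib]
    ring
  rw [h2, abs_mul, abs_of_pos (by positivity)]
  exact mul_le_mul_of_nonneg_left h1 (by positivity)

lemma small_scales (N : ℕ) (hN : 1 ≤ N) (η : ℝ) (hη : 0 < η) :
    ∑ M ∈ (Finset.Icc 1 N).filter (fun M : ℕ => ¬ η * Real.log N ≤ Real.log M), (1 / (M : ℝ)) ≤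
      1 + η * Real.log N := by
  have hlog : 0 ≤ Real.log N := Real.log_nonneg (by exact_mod_cast hN)
  set y : ℝ := Real.exp (η * Real.log N) with hy
  have hy1 : 1 ≤ y := Real.one_le_exp (mul_nonneg hη.le hlog)
  have h1 := harmonic_floor_le_one_add_log y hy1
  rw [harmonic_eq_sum_Icc, Rat.cast_sum] at h1
  simp only [Rat.cast_inv, Rat.cast_natCast] at h1
  rw [hy, Real.log_exp] at h1
  simp only [one_div]
  refine le_trans ?_ h1
  apply Finset.sum_le_sum_of_subset_of_nonneg
  · intro M hM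
    rw [Finset.mem_filter, Finset.mem_Icc, not_le] at hM
    rw [Finset.mem_Icc]
    refine ⟨hM.1.1, Nat.le_floor ?_⟩
    have hM0 : (0 : ℝ) < M := by exact_mod_cast hM.1.1
    have := (Real.log_lt_iff_lt_exp hM0).1 hM.2
    exact this.le
  · intro M _ _
    positivity

end F1

open Finset Helper13.Om Helper11.QR F1 in
theorem goal_of (k : ℕ) (hP : ProdSt k) : Goal k := by
  classical
  rcases Nat.eq_zero_or_pos k with hk0 | hk
  · -- `k = 0`
    subst hk0
    intro ε hε
    refine ⟨1, 1, fun N K _ hK _ F _ => ?_⟩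
    have h1 : ∀ M : ℕ, Ec 0 M F - Ec 0 M (fun l => F (fun i => l i + 1)) = 0 := by
      intro M
      have : (fun l : Fin 0 → ℕ => F (fun i => l i + 1)) = F := by
        funext l
        exact congrArg F (Subsingleton.elim _ _)
      rw [this, sub_self]
    simp only [h1, abs_zero, mul_zero, Finset.sum_const_zero]
    have : 0 ≤ Real.log K := Real.log_natCast_nonneg K
    positivity
  intro ε hε
  obtain ⟨δ₁, hδ₁, Ka, Na, hcore⟩ := coreW k hk (ε / 16) (by positivity)
  set τ : ℝ := δ₁ / 2 with hτ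
  have hτ0 : 0 < τ := by positivity
  set δ₂ : ℝ := δ₁ / 2 ^ k with hδ₂
  have hδ₂0 : 0 < δ₂ := by positivity
  obtain ⟨C, hC⟩ := regBox k δ₂ hδ₂0
  set η : ℝ := min (ε / 64) (1 / 2) with hη
  have hη0 : 0 < η := lt_min (by positivity) (by norm_num)
  have hη1 : η ≤ ε / 64 := min_le_left _ _
  have hη2 : η ≤ 1 / 2 := min_le_right _ _
  obtain ⟨Nb, hcut⟩ := cutLog k η τ hη0 hτ0
  obtain ⟨Kc, Nc, hbox⟩ := hP (ε / (4 * (C + 1))) (by positivity)
  obtain ⟨Kd, hKd⟩ : ∃ Kd : ℕ, Real.exp (64 / ε + 2) ≤ Kd := exists_nat_ge _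
  refine ⟨max (max Ka Kc) (max Kd 1), max (max Na Nb) (max Nc 1), ?_⟩
  intro N K hN hK hKN F hF
  have hNa : Na ≤ N := (le_max_left _ _).trans ((le_max_left _ _).trans hN)
  have hNb : Nb ≤ N := (le_max_right _ _).trans ((le_max_left _ _).trans hN)
  have hNc : Nc ≤ N := (le_max_left _ _).trans ((le_max_right _ _).trans hN)
  have hN1 : 1 ≤ N := (le_max_right _ _).trans ((le_max_right _ _).trans hN)
  have hKa : Ka ≤ K := (le_max_left _ _).trans ((le_max_left _ _).trans hK)
  have hKc : Kc ≤ K := (le_max_right _ _).trans ((le_max_left _ _).trans hK)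
  have hKd' : Kd ≤ K := (le_max_left _ _).trans ((le_max_right _ _).trans hK)
  have hK1 : 1 ≤ K := (le_max_right _ _).trans ((le_max_right _ _).trans hK)
  have hKr : (0 : ℝ) < K := by exact_mod_cast hK1
  have hNr : (0 : ℝ) < N := by exact_mod_cast hN1
  have hlogK : 64 / ε + 2 ≤ Real.log K := by
    rw [Real.le_log_iff_exp_le hKr]
    exact hKd.trans (by exact_mod_cast hKd')
  have hlogK2 : 2 ≤ Real.log K := by
    have : 0 ≤ 64 / ε := by positivity
    linarith
  have hlogKε : 64 ≤ ε * Real.log K := by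
    have h1 : 64 / ε ≤ Real.log K := by linarith
    rw [div_le_iff₀ hε] at h1
    linarith
  set W : Finset ℕ := Finset.Ioc (N / K) N with hW
  -- the law
  set p : ℕ → ℝ := fun t => (pL N t + shL N t) / 2 with hp
  have hp0 : ∀ t, 0 ≤ p t := fun t => by
    have h1 := pL_nonneg N t
    have h2 := shL_nonneg N t
    show 0 ≤ (pL N t + shL N t) / 2
    linarith
  have hpsum : ∑ t ∈ Finset.range (N + k + 1), p t = 1 := by
    rw [hp]
    simp only
    rw [← Finset.sum_div, Finset.sum_add_distrib, pL_sum N _ hN1 (by omega),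
      shL_sum N _ hN1 (by omega)]
    norm_num
  -- the decomposition
  obtain ⟨J, c, A, hJ, hc, hS, hcutF⟩ := hC (N + k + 1) p hp0 hpsum F hF
  set S : (Fin k → ℕ) → ℝ := fun ℓ => ∑ j, c j * (if ∀ i, ℓ i ∈ A j i then (1 : ℝ) else 0)
    with hSdef
  set r : (Fin k → ℕ) → ℝ := fun ℓ => F ℓ - S ℓ with hr
  have hcutr1 : ∀ f : Fin k → ℕ → ℝ, (∀ i t, |f i t| ≤ 1) →
      |EpL k N (fun ℓ => r ℓ * ∏ i, f i (ℓ i))| ≤ δ₁ := by
    intro f hf
    have h1 := dom k (N + k + 1) p (pL N) (pL_nonneg N) (fun t => by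
      have := shL_nonneg N t
      show pL N t ≤ 2 * ((pL N t + shL N t) / 2)
      linarith) δ₂ r hcutF f hf
    have h2 : (2 : ℝ) ^ k * δ₂ = δ₁ := by
      rw [hδ₂]
      field_simp
    rw [h2] at h1
    exact h1
  have hcutr2 : ∀ f : Fin k → ℕ → ℝ, (∀ i t, |f i t| ≤ 1) →
      |EpL k N (fun ℓ => r (fun i => ℓ i + 1) * ∏ i, f i (ℓ i))| ≤ δ₁ := by
    intro f hf
    have h1 := dom k (N + k + 1) p (shL N) (shL_nonneg N) (fun t => by
      have := pL_nonneg N t
      show shL N t ≤ 2 * ((pL N t + shL N t) / 2)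
      linarith) δ₂ r hcutF (fun i t => f i (t - 1)) (fun i t => hf i _)
    have h2 : (2 : ℝ) ^ k * δ₂ = δ₁ := by
      rw [hδ₂]
      field_simp
    rw [h2, ← shift_sum k N (N + k + 1) (by omega)
      (fun ℓ => r ℓ * ∏ i, f i (ℓ i - 1))] at h1
    simp only [Nat.add_sub_cancel] at h1
    exact h1
  have hr2 : ∀ ℓ, |r ℓ| ≤ 2 := by
    intro ℓ
    have h1 : |S ℓ| ≤ 1 := hS ℓ
    have h2 := abs_sub (F ℓ) (S ℓ)
    have h3 := hF ℓ
    show |F ℓ - S ℓ| ≤ 2
    linarith
  -- the remainders, large scales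
  have key : ∀ u : (Fin k → ℕ) → ℝ, (∀ ℓ, |u ℓ| ≤ 2) →
      (∀ f : Fin k → ℕ → ℝ, (∀ i t, |f i t| ≤ 1) →
        |EpL k N (fun ℓ => u ℓ * ∏ i, f i (ℓ i))| ≤ δ₁) →
      ∑ M ∈ W.filter (fun M : ℕ => η * Real.log N ≤ Real.log M),
        (1 / (M : ℝ)) * |Em k M u| ≤ ε / 8 * Real.log K := by
    intro u hu2 hucut
    have hcutM : ∀ M : ℕ, M ≤ N → η * Real.log N ≤ Real.log M →
        ∀ f : Fin k → ℕ → ℝ, (∀ i t, |f i t| ≤ 1) →
          |Ep k M (fun ℓ => (1 / 2 * u ℓ) * ∏ i, f i (ℓ i))| ≤ δ₁ := by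
      intro M hMN hM f hf
      have hprod : ∀ ℓ : Fin k → ℕ, |∏ i, f i (ℓ i)| ≤ 1 := by
        intro ℓ
        rw [Finset.abs_prod]
        exact Finset.prod_le_one (fun i _ => abs_nonneg _) fun i _ => hf i (ℓ i)
      have h2 := hcut N hNb M hMN hM (fun ℓ => 1 / 2 * u ℓ * ∏ i, f i (ℓ i)) (fun ℓ => by
        rw [abs_mul, abs_mul, abs_of_pos (by norm_num : (0 : ℝ) < 1 / 2)]
        have h3 := hu2 ℓ
        have h4 := hprod ℓ
        have h5 := abs_nonneg (u ℓ)
        have h6 := abs_nonneg (∏ i, f i (ℓ i))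
        nlinarith)
      have h3 : EpL k N (fun ℓ => 1 / 2 * u ℓ * ∏ i, f i (ℓ i)) =
          1 / 2 * EpL k N (fun ℓ => u ℓ * ∏ i, f i (ℓ i)) := by
        unfold EpL
        rw [Finset.mul_sum]
        refine Finset.sum_congr rfl fun ℓ _ => ?_
        ring
      rw [h3] at h2
      have h4 := hucut f hf
      have h5 := abs_le.1 h2
      have h6 := abs_le.1 h4
      rw [abs_le]
      constructor <;> linarith [h5.1, h5.2, h6.1, h6.2]
    have h1 := hcore N K hNa hKa hKN (fun M ℓ => if η * Real.log N ≤ Real.log M then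
      1 / 2 * u ℓ else 0) (fun M ℓ => by
        by_cases h : η * Real.log N ≤ Real.log M
        · simp only [if_pos h]
          rw [abs_mul, abs_of_pos (by norm_num : (0 : ℝ) < 1 / 2)]
          linarith [hu2 ℓ]
        · simp only [if_neg h]
          rw [abs_zero]
          exact zero_le_one) (fun M hM => by
        intro f hf
        by_cases h : η * Real.log N ≤ Real.log M
        · simp only [if_pos h]
          exact hcutM M (Finset.mem_Ioc.1 hM).2 h f hf
        · simp only [if_neg h]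
          have h0 : Ep k M (fun ℓ => 0 * ∏ i, f i (ℓ i)) = 0 := by
            unfold Ep
            simp
          rw [h0, abs_zero]
          exact hδ₁.le)
    have h2 : ∑ M ∈ W.filter (fun M : ℕ => η * Real.log N ≤ Real.log M),
          (1 / (M : ℝ)) * (1 / 2 * |Em k M u|) ≤ ε / 16 * Real.log K := by
      refine le_trans ?_ h1
      rw [Finset.sum_filter]
      refine Finset.sum_le_sum fun M _ => ?_
      by_cases h : η * Real.log N ≤ Real.log M
      · simp only [if_pos h]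
        rw [Em_smul', abs_mul, abs_of_pos (by norm_num : (0 : ℝ) < 1 / 2)]
      · simp only [if_neg h]
        positivity
    have h3 : ∑ M ∈ W.filter (fun M : ℕ => η * Real.log N ≤ Real.log M),
          (1 / (M : ℝ)) * (1 / 2 * |Em k M u|) = 1 / 2 * ∑ M ∈ W.filter
      (fun M : ℕ => η * Real.log N ≤ Real.log M), (1 / (M : ℝ)) * |Em k M u| := by
      rw [Finset.mul_sum]
      refine Finset.sum_congr rfl fun M _ => ?_
      ring
    rw [h3] at h2
    linarith
  have hrem1 := key r hr2 hcutr1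
  have hrem2 := key (fun ℓ => r (fun i => ℓ i + 1)) (fun ℓ => hr2 _) hcutr2
  -- (i) the box part
  have hboxS : ∑ M ∈ W, (1 / (M : ℝ)) * |Em k M S - Em k M (fun ℓ => S (fun i => ℓ i + 1))| ≤
      ε / 4 * Real.log K := by
    have h1 : ∀ M ∈ W, (1 / (M : ℝ)) * |Em k M S - Em k M (fun ℓ => S (fun i => ℓ i + 1))| ≤
        ∑ j, (1 / (M : ℝ)) *
        |Ec k M (fun ℓ => if ∀ i, ℓ i ∈ A j i then (1 : ℝ) else 0) -
          Ec k M (fun ℓ => if ∀ i, ℓ i + 1 ∈ A j i then (1 : ℝ) else 0)| := by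
      intro M _
      rw [← Finset.mul_sum]
      refine mul_le_mul_of_nonneg_left ?_ (by positivity)
      have e1 : Em k M S = ∑ j, c j * Em k M (fun ℓ => if ∀ i, ℓ i ∈ A j i then (1 : ℝ)
          else 0) := by
        rw [hSdef, Em_fsum k M J (fun j ℓ => c j * (if ∀ i, ℓ i ∈ A j i then (1 : ℝ) else 0))]
        refine Finset.sum_congr rfl fun j _ => ?_
        rw [Em_smul']
      have e2 : Em k M (fun ℓ => S (fun i => ℓ i + 1)) =
          ∑ j, c j * Em k M (fun ℓ => if ∀ i, ℓ i + 1 ∈ A j i then (1 : ℝ) else 0) := by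
        rw [hSdef, Em_fsum k M J
          (fun j ℓ => c j * (if ∀ i, ℓ i + 1 ∈ A j i then (1 : ℝ) else 0))]
        refine Finset.sum_congr rfl fun j _ => ?_
        rw [Em_smul']
      rw [e1, e2, ← Finset.sum_sub_distrib]
      refine (Finset.abs_sum_le_sum_abs _ _).trans ?_
      refine Finset.sum_le_sum fun j _ => ?_
      rw [← mul_sub, abs_mul]
      have h3 := mul_le_mul_of_nonneg_right (hc j) (abs_nonneg
        (Em k M (fun ℓ => if ∀ i, ℓ i ∈ A j i then (1 : ℝ) else 0) -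
          Em k M (fun ℓ => if ∀ i, ℓ i + 1 ∈ A j i then (1 : ℝ) else 0)))
      rw [one_mul] at h3
      exact h3
    refine (Finset.sum_le_sum h1).trans ?_
    rw [Finset.sum_comm]
    have h2 : ∀ j ∈ (Finset.univ : Finset (Fin J)), ∑ M ∈ W, (1 / (M : ℝ)) *
        |Ec k M (fun ℓ => if ∀ i, ℓ i ∈ A j i then (1 : ℝ) else 0) -
          Ec k M (fun ℓ => if ∀ i, ℓ i + 1 ∈ A j i then (1 : ℝ) else 0)| ≤
        ε / (4 * (C + 1)) * Real.log K := fun j _ => hbox N K hNc hKc hKN (A j)
    refine (Finset.sum_le_sum h2).trans ?_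
    rw [Finset.sum_const, Finset.card_univ, Fintype.card_fin, nsmul_eq_mul]
    have h3 : (J : ℝ) ≤ C + 1 := by
      have : (J : ℝ) ≤ C := by exact_mod_cast hJ
      linarith
    have h4 : 0 ≤ ε / (4 * ((C : ℝ) + 1)) * Real.log K := by positivity
    calc (J : ℝ) * (ε / (4 * ((C : ℝ) + 1)) * Real.log K) ≤
        ((C : ℝ) + 1) * (ε / (4 * ((C : ℝ) + 1)) * Real.log K) :=
          mul_le_mul_of_nonneg_right h3 h4
      _ = ε / 4 * Real.log K := by
          field_simp
  -- (iii) the small scales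
  have hsmall : ∑ M ∈ W.filter (fun M : ℕ => ¬ η * Real.log N ≤ Real.log M),
      (1 / (M : ℝ)) * |Em k M F - Em k M (fun ℓ => F (fun i => ℓ i + 1))| ≤
      2 + ε / 16 * Real.log K := by
    have htriv : ∀ M ∈ W, |Em k M F - Em k M (fun ℓ => F (fun i => ℓ i + 1))| ≤ 2 := by
      intro M _
      have h2 := Em_abs_le_of k M F hF
      have h3 := Em_abs_le_of k M (fun ℓ => F (fun i => ℓ i + 1)) (fun ℓ => hF _)
      have := abs_sub (Em k M F) (Em k M (fun ℓ => F (fun i => ℓ i + 1)))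
      linarith
    rcases Finset.eq_empty_or_nonempty
      (W.filter (fun M : ℕ => ¬ η * Real.log N ≤ Real.log M)) with hemp | ⟨M0, hM0⟩
    · rw [hemp, Finset.sum_empty]
      positivity
    · rw [Finset.mem_filter, not_le] at hM0
      have hM0W := Finset.mem_Ioc.1 hM0.1
      have hM0pos : (0 : ℝ) < M0 := by
        have : 0 < M0 := lt_of_le_of_lt (Nat.zero_le _) hM0W.1
        exact_mod_cast this
      have h1 : (N : ℝ) < M0 * K := by
        have := (Nat.div_lt_iff_lt_mul hK1).1 hM0W.1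
        exact_mod_cast this
      have h2 : Real.log N ≤ Real.log M0 + Real.log K := by
        rw [← Real.log_mul hM0pos.ne' hKr.ne']
        exact Real.log_le_log hNr h1.le
      have hlogN : 0 ≤ Real.log N := Real.log_nonneg (by exact_mod_cast hN1)
      have h3 : Real.log N ≤ 2 * Real.log K := by
        have h4 : η * Real.log N ≤ 1 / 2 * Real.log N := mul_le_mul_of_nonneg_right hη2 hlogN
        linarith [hM0.2]
      calc ∑ M ∈ W.filter (fun M : ℕ => ¬ η * Real.log N ≤ Real.log M),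
            (1 / (M : ℝ)) * |Em k M F - Em k M (fun ℓ => F (fun i => ℓ i + 1))|
          ≤ ∑ M ∈ W.filter (fun M : ℕ => ¬ η * Real.log N ≤ Real.log M), (1 / (M : ℝ)) * 2 := by
            refine Finset.sum_le_sum fun M hM => ?_
            exact mul_le_mul_of_nonneg_left (htriv M (Finset.mem_filter.1 hM).1) (by positivity)
        _ ≤ ∑ M ∈ (Finset.Icc 1 N).filter (fun M : ℕ => ¬ η * Real.log N ≤ Real.log M),
            (1 / (M : ℝ)) * 2 := by
            apply Finset.sum_le_sum_of_subset_of_nonneg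
            · intro M hM
              rw [Finset.mem_filter] at hM ⊢
              have h5 := Finset.mem_Ioc.1 hM.1
              refine ⟨Finset.mem_Icc.2 ⟨?_, h5.2⟩, hM.2⟩
              exact Nat.succ_le_of_lt (lt_of_le_of_lt (Nat.zero_le _) h5.1)
            · intro M _ _
              positivity
        _ = 2 * ∑ M ∈ (Finset.Icc 1 N).filter (fun M : ℕ => ¬ η * Real.log N ≤ Real.log M),
            (1 / (M : ℝ)) := by
            rw [← Finset.sum_mul, mul_comm]
        _ ≤ 2 * (1 + η * Real.log N) :=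
            mul_le_mul_of_nonneg_left (small_scales N hN1 η hη0) (by norm_num)
        _ ≤ 2 + ε / 16 * Real.log K := by
            have h6 : η * Real.log N ≤ ε / 64 * (2 * Real.log K) :=
              mul_le_mul hη1 h3 hlogN (by positivity)
            linarith
  -- assembly
  have hlargeF : ∑ M ∈ W.filter (fun M : ℕ => η * Real.log N ≤ Real.log M),
      (1 / (M : ℝ)) * |Em k M F - Em k M (fun ℓ => F (fun i => ℓ i + 1))| ≤
      ε / 4 * Real.log K + ε / 8 * Real.log K + ε / 8 * Real.log K := by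
    have h1 : ∀ M : ℕ, |Em k M F - Em k M (fun ℓ => F (fun i => ℓ i + 1))| ≤
        |Em k M S - Em k M (fun ℓ => S (fun i => ℓ i + 1))| + |Em k M r| +
        |Em k M (fun ℓ => r (fun i => ℓ i + 1))| := by
      intro M
      have e1 : Em k M r = Em k M F - Em k M S := Em_sub' k M F S
      have e2 : Em k M (fun ℓ => r (fun i => ℓ i + 1)) =
          Em k M (fun ℓ => F (fun i => ℓ i + 1)) - Em k M (fun ℓ => S (fun i => ℓ i + 1)) :=
        Em_sub' k M (fun ℓ => F (fun i => ℓ i + 1)) (fun ℓ => S (fun i => ℓ i + 1))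
      have e3 : Em k M F - Em k M (fun ℓ => F (fun i => ℓ i + 1)) =
          (Em k M S - Em k M (fun ℓ => S (fun i => ℓ i + 1))) + Em k M r -
            Em k M (fun ℓ => r (fun i => ℓ i + 1)) := by
        rw [e1, e2]
        ring
      rw [e3]
      have h2 := abs_sub ((Em k M S - Em k M (fun ℓ => S (fun i => ℓ i + 1))) + Em k M r)
        (Em k M (fun ℓ => r (fun i => ℓ i + 1)))
      have h3 := abs_add_le (Em k M S - Em k M (fun ℓ => S (fun i => ℓ i + 1))) (Em k M r)
      linarith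
    calc ∑ M ∈ W.filter (fun M : ℕ => η * Real.log N ≤ Real.log M),
          (1 / (M : ℝ)) * |Em k M F - Em k M (fun ℓ => F (fun i => ℓ i + 1))|
        ≤ ∑ M ∈ W.filter (fun M : ℕ => η * Real.log N ≤ Real.log M),
          ((1 / (M : ℝ)) * |Em k M S - Em k M (fun ℓ => S (fun i => ℓ i + 1))| +
            (1 / (M : ℝ)) * |Em k M r| +
            (1 / (M : ℝ)) * |Em k M (fun ℓ => r (fun i => ℓ i + 1))|) := by
          refine Finset.sum_le_sum fun M _ => ?_
          rw [← mul_add, ← mul_add]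
          exact mul_le_mul_of_nonneg_left (h1 M) (by positivity)
      _ = ∑ M ∈ W.filter (fun M : ℕ => η * Real.log N ≤ Real.log M),
            (1 / (M : ℝ)) * |Em k M S - Em k M (fun ℓ => S (fun i => ℓ i + 1))| +
          ∑ M ∈ W.filter (fun M : ℕ => η * Real.log N ≤ Real.log M),
            (1 / (M : ℝ)) * |Em k M r| +
          ∑ M ∈ W.filter (fun M : ℕ => η * Real.log N ≤ Real.log M),
            (1 / (M : ℝ)) * |Em k M (fun ℓ => r (fun i => ℓ i + 1))| := by
          rw [Finset.sum_add_distrib, Finset.sum_add_distrib]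
      _ ≤ ε / 4 * Real.log K + ε / 8 * Real.log K + ε / 8 * Real.log K := by
          refine add_le_add (add_le_add ?_ hrem1) hrem2
          refine le_trans ?_ hboxS
          apply Finset.sum_le_sum_of_subset_of_nonneg (Finset.filter_subset _ _)
          intro M _ _
          positivity
  have hfinal : ∑ M ∈ W, (1 / (M : ℝ)) *
      |Em k M F - Em k M (fun ℓ => F (fun i => ℓ i + 1))| ≤ ε * Real.log K := by
    rw [← Finset.sum_filter_add_sum_filter_not W (fun M : ℕ => η * Real.log N ≤ Real.log M)]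
    have h1 := add_le_add hlargeF hsmall
    refine h1.trans ?_
    nlinarith
  exact hfinal

end DG
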