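import Pool.Agent.Helper6.DG.E7Prod
import Pool.Agent.Helper6.DG.F1Goal
import Pool.Agent.Helper6.DG.A1Ind
import Pool.Agent.Helper6.DG.E6Zero
import Pool.Agent.Helper56.DG.PRim
import Pool.Agent.Helper31.DG.Main
import Pool.Agent.Helper41.DG.CoreArith
import Pool.Agent.Helper53.DG.Final
import Pool.Agent.Helper40.DB.Svt

/-!
# Project DIAG: assembly
-/

set_option autoImplicit false

namespace DG

open Finset Filter Topology

theorem bl_all : ∀ k, 1 ≤ k → BL k := fun k hk => BLP.bl k hk

theorem svt_all : ∀ k, SVT k := fun k => svt pr k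

theorem core_holds : StCoreArith := stCoreArith bl_all svt_all pr

theorem st_holds (D : ℕ) (hD : 1 ≤ D) (V : Ultrafilter ℕ) (U : Ultrafilter (ℕ × ℕ × ℕ × ℕ))
    (hV : GoodU V) (hU : IsIter V U) (k : ℕ) : St U (cw D) k :=
  stInduction U (cw D) (cw_sum D) (cw_abs D) (fun q hq => cw_mod D V U hU q hq)
    (core_holds D hD V U hV hU) k

theorem prod_holds (k : ℕ) : ProdSt k := prodSt pr DGE.ent_thm st_holds k

theorem goal_holds (k : ℕ) : Goal k := goal_of k (prod_holds k)

end DG
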