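import Pool.Agent.Helper6.DG.M1Vdc
import Pool.Agent.Helper53.DG.Final

/-!
# DG-M2: the bilinear core with the special function at an arbitrary position
-/

set_option autoImplicit false

namespace DG

open Finset Filter Topology

/-- `BL` with the special function at the position `i₀`. -/
def BLM (k i₀ : ℕ) : Prop := ∃ C : ℝ, 0 < C ∧ ∀ (w : ℕ) (P : Finset ℕ), 1 ≤ w → P.Nonempty →
  (∀ p ∈ P, p.Prime ∧ w ≤ p ∧ p ≤ 2 * w) → ∀ e q : ℕ, 1 ≤ e → 1 ≤ q →
  ∀ (X : Sys) (g : X.S → ℂ), (∀ x, ‖g x‖ ≤ 1) →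
  ∀ β : ℝ, (∀ r : ℕ, 0 < r → (box X (List.replicate k (r : ℤ)) g).re ≤ β) →
  ∀ η : ℝ, 0 < η → ∃ M0 : ℕ, ∀ M : ℕ, M0 ≤ M → ∀ t : ℤ, ∀ G : ℕ → X.S → ℂ,
    (∀ i x, ‖G i x‖ ≤ 1) → G i₀ = g →
    ((1 / (M : ℝ)) * ∑ j ∈ range M, ‖(1 / (P.card : ℂ)) * ∑ p ∈ P,
        X.μ.E (cor X k G ((e * p : ℤ) * (1 + q * (t + j))))‖ ^ 2) ^ (2 ^ k) ≤
      C * ((w : ℝ) / P.card * (w : ℝ) ^ (-(1 / 2 ^ (2 ^ (k - 1)) : ℝ)) + β) + η

end DG

namespace DG.BLP

open Finset Filter Topology DG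

theorem cz_neg (f : ℤ → ℂ) (hf : Bd f) : cz.E (fun h => f (-h)) = cz.E f := by
  have h1 := cz_tendsto (fun h => f (-h)) (hf.comp _)
  have h2 := cz_tendsto f hf
  refine tendsto_nhds_unique (h1.congr fun N => ?_) h2
  rw [fej_E, fej_E, Finset.sum_comm]
  congr 1
  refine Finset.sum_congr rfl fun i _ => Finset.sum_congr rfl fun j _ => ?_
  congr 1
  ring

theorem box_sign (X : Sys) (l l' : List ℤ)
    (h : List.Forall₂ (fun a a' : ℤ => a' = a ∨ a' = -a) l l')
    (g : X.S → ℂ) (hg : ∀ x, ‖g x‖ ≤ 1) : box X l' g = box X l g := by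
  induction h generalizing g with
  | nil => rfl
  | @cons a a' l l' hab hll ih =>
    have hgb : ∀ (m : ℤ) x, ‖g x * (starRingEnd ℂ) (g ((X.T ^ m) x))‖ ≤ 1 := by
      intro m x
      rw [norm_mul, RCLike.norm_conj]
      exact mul_le_one₀ (hg _) (norm_nonneg _) (hg _)
    have h1 : box X (a' :: l') g = cz.E (fun h => box X l
        (fun x => g x * (starRingEnd ℂ) (g ((X.T ^ (a' * h)) x)))) := by
      change cz.E (fun h => box X l'
        (fun x => g x * (starRingEnd ℂ) (g ((X.T ^ (a' * h)) x)))) = _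
      congr 1
      funext h
      exact ih _ (hgb _)
    have h2 : box X (a :: l) g = cz.E (fun h => box X l
        (fun x => g x * (starRingEnd ℂ) (g ((X.T ^ (a * h)) x)))) := rfl
    rw [h1, h2]
    rcases hab with rfl | rfl
    · rfl
    · have h3 := cz_neg (fun h => box X l
        (fun x => g x * (starRingEnd ℂ) (g ((X.T ^ (a * h)) x))))
        ⟨1, fun h => box_bd X _ _ (hgb _)⟩
      rw [← h3]
      congr 1
      funext h
      have e : a * -h = -a * h := by ring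
      rw [e]

/-- The functions of the system of pairs for the special position `i₀`. -/
noncomputable def FM (X : Sys) (e : ℕ) (c : ℤ) (i₀ : ℕ) (G : ℕ → X.S → ℂ) (i : ℕ)
    (z : (ℕ × ℕ) × (X.S × X.S)) : ℂ :=
  G i ((X.T ^ (((i : ℤ) - i₀) * (e * z.1.1 * c))) z.2.1) *
    (starRingEnd ℂ) (G i ((X.T ^ (((i : ℤ) - i₀) * (e * z.1.2 * c))) z.2.2))

/-- The indices different from `i₀` and `i₀ - 1`. -/
def oth (k i₀ : ℕ) : Finset ℕ := (range (k + 1)).filter (fun i => i ≠ i₀ ∧ i ≠ i₀ - 1)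

/-- The list of the indices different from `i₀`, the last one is `i₀ - 1`. -/
noncomputable def othL (k i₀ : ℕ) : List ℕ := (oth k i₀).toList ++ [i₀ - 1]

theorem prod_oth (k i₀ : ℕ) (h1 : 1 ≤ i₀) (h2 : i₀ ≤ k) (f : ℕ → ℂ) :
    ∏ i ∈ range (k + 1), f i = f i₀ * ((othL k i₀).map f).prod := by
  classical
  have e1 : range (k + 1) = insert i₀ (insert (i₀ - 1) (oth k i₀)) := by
    ext i
    unfold oth
    simp only [Finset.mem_insert, Finset.mem_filter, Finset.mem_range]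
    omega
  have n1 : i₀ - 1 ∉ oth k i₀ := by
    unfold oth
    simp
  have n2 : i₀ ∉ insert (i₀ - 1) (oth k i₀) := by
    unfold oth
    simp only [Finset.mem_insert, Finset.mem_filter, Finset.mem_range]
    omega
  rw [e1, Finset.prod_insert n2, Finset.prod_insert n1]
  unfold othL
  rw [List.map_append, List.prod_append, Finset.prod_map_toList]
  simp only [List.map_cons, List.map_nil, List.prod_cons, List.prod_nil, mul_one]
  ring

theorem card_oth (k i₀ : ℕ) (h1 : 1 ≤ i₀) (h2 : i₀ ≤ k) : (oth k i₀).card = k - 1 := by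
  classical
  have e1 : range (k + 1) = insert i₀ (insert (i₀ - 1) (oth k i₀)) := by
    ext i
    unfold oth
    simp only [Finset.mem_insert, Finset.mem_filter, Finset.mem_range]
    omega
  have n1 : i₀ - 1 ∉ oth k i₀ := by
    unfold oth
    simp
  have n2 : i₀ ∉ insert (i₀ - 1) (oth k i₀) := by
    unfold oth
    simp only [Finset.mem_insert, Finset.mem_filter, Finset.mem_range]
    omega
  have h3 := congrArg Finset.card e1
  rw [Finset.card_insert_of_notMem n2, Finset.card_insert_of_notMem n1, card_range] at h3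
  omega

/-- The list of factors in the system of pairs. -/
noncomputable def LM (X : Sys) (P : Finset ℕ) (hP : P.Nonempty) (e q : ℕ) (k i₀ : ℕ) {ι : Type}
    (c : ι → ℤ) (G : ι → ℕ → X.S → ℂ) :
    List ((ι → (pairS (powS X (e * q)) P hP).S → ℂ) × ℤ) :=
  (othL k i₀).map (fun i => ((fun a => FM X e (c a) i₀ (G a) i), ((i : ℤ) - i₀)))

theorem cor_pairM (X : Sys) (P : Finset ℕ) (hP : P.Nonempty) (e q : ℕ) {ι : Type} (c : ι → ℤ)
    (a : ι) (j : ℤ) (k i₀ : ℕ) (h1 : 1 ≤ i₀) (h2 : i₀ ≤ k)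
    (G : ι → ℕ → X.S → ℂ) (hG : ∀ a i x, ‖G a i x‖ ≤ 1) :
    ((‖(1 / (P.card : ℂ)) * ∑ p ∈ P,
        X.μ.E (cor X k (G a) ((e * p : ℤ) * (c a + q * j)))‖ ^ 2 : ℝ) : ℂ) =
      (pairS (powS X (e * q)) P hP).μ.E (fun z : (ℕ × ℕ) × (X.S × X.S) =>
        (G a i₀ z.2.1 * (starRingEnd ℂ) (G a i₀ z.2.2)) *
          corL (pairS (powS X (e * q)) P hP) (LM X P hP e q k i₀ c G) a j z) := by
  classical
  set g : ℕ → X.S → ℂ := fun p x => ∏ i ∈ range (k + 1),
    G a i ((X.T ^ (((i : ℤ) - i₀) * (e * p * c a) +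
      (e * q : ℕ) * (((i : ℤ) - i₀) * j * p))) x) with hgdef
  have hg1 : ∀ p x, ‖g p x‖ ≤ 1 := fun p x =>
    prod_norm_le_one _ _ fun i _ => hG _ _ _
  have hg : ∀ p, Bd (g p) := fun p => ⟨1, hg1 p⟩
  have hcor : ∀ p : ℕ, X.μ.E (cor X k (G a) ((e * p : ℤ) * (c a + q * j))) = X.μ.E (g p) := by
    intro p
    have hb : Bd (cor X k (G a) ((e * p : ℤ) * (c a + q * j))) :=
      ⟨1, fun x => prod_norm_le_one _ _ fun i _ => hG _ _ _⟩
    rw [← X.inv_zpow (-((i₀ : ℤ) * ((e * p : ℤ) * (c a + q * j)))) _ hb]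
    congr 1
    funext x
    unfold cor
    rw [hgdef]
    refine Finset.prod_congr rfl fun i _ => ?_
    rw [← Equiv.Perm.mul_apply, ← zpow_add]
    congr 3
    push_cast
    ring
  simp only [hcor]
  have h3 := box_pair (powS X (e * q)) P hP [] g hg
  have h4 : ((‖(1 / (P.card : ℂ)) * ∑ p ∈ P, X.μ.E (g p)‖ ^ 2 : ℝ) : ℂ) =
      (pairS (powS X (e * q)) P hP).μ.E (fun z : (ℕ × ℕ) × (X.S × X.S) =>
        g z.1.1 z.2.1 * (starRingEnd ℂ) (g z.1.2 z.2.2)) := h3.symm
  rw [h4]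
  congr 1
  funext z
  rw [hgdef]
  simp only [map_prod]
  rw [← Finset.prod_mul_distrib, prod_oth k i₀ h1 h2]
  have h5 : ∀ (n : ℤ) (x : X.S), ((powS X (e * q)).T ^ n) x =
      (X.T ^ (((e * q : ℕ) : ℤ) * n)) x := by
    intro n x
    change ((X.T ^ (e * q)) ^ n) x = _
    rw [← zpow_natCast, ← zpow_mul]
  have h6 : ∀ (a n : ℤ) (x : X.S), (X.T ^ a) (((powS X (e * q)).T ^ n) x) =
      (X.T ^ (a + ((e * q : ℕ) : ℤ) * n)) x := by
    intro a n x
    rw [h5, ← Equiv.Perm.mul_apply, ← zpow_add]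
  congr 1
  · rw [sub_self, zero_mul, zero_mul, zero_mul, zero_mul, mul_zero, add_zero]
    simp
  · unfold corL LM
    rw [List.map_map]
    congr 1
    refine List.map_congr_left fun i _ => ?_
    have h7 : ((pairS (powS X (e * q)) P hP).T ^ (((i : ℤ) - i₀) * j)) z =
        (z.1, (((powS X (e * q)).T ^ (((i : ℤ) - i₀) * j * (z.1.1 : ℤ))) z.2.1,
          ((powS X (e * q)).T ^ (((i : ℤ) - i₀) * j * (z.1.2 : ℤ))) z.2.2)) :=
      pairT_zpow (powS X (e * q)) (((i : ℤ) - i₀) * j) z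
    change _ = FM X e (c a) i₀ (G a) i
      (((pairS (powS X (e * q)) P hP).T ^ (((i : ℤ) - i₀) * j)) z)
    rw [h7]
    unfold FM
    exact congrArg₂ (fun u v : ℂ => u * v) (congrArg (G a i) (h6 _ _ _).symm)
      (congrArg (fun w => (starRingEnd ℂ) (G a i w)) (h6 _ _ _).symm)

private theorem forall2_map {R : ℤ → ℤ → Prop} {F : ℤ → ℤ} (l : List ℤ) (h : ∀ a ∈ l, R a (F a)) :
    List.Forall₂ R l (l.map F) := by
  induction l with
  | nil => exact List.Forall₂.nil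
  | cons a l ih =>
    rw [List.map_cons]
    exact List.Forall₂.cons (h a List.mem_cons_self) (ih fun b hb => h b (List.mem_cons_of_mem _ hb))

private theorem forall2_repM {R : ℤ → ℤ → Prop} {r : ℤ} (l : List ℤ) (h : ∀ a ∈ l, R a r) :
    List.Forall₂ R l (List.replicate l.length r) := by
  induction l with
  | nil => exact List.Forall₂.nil
  | cons a l ih =>
    rw [List.length_cons, List.replicate_succ]
    exact List.Forall₂.cons (h a List.mem_cons_self) (ih fun b hb => h b (List.mem_cons_of_mem _ hb))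

theorem qbox_gen (X : Sys) (w : ℕ) (hw : 1 ≤ w) (P : Finset ℕ) (hPn : P.Nonempty)
    (hP : ∀ p ∈ P, w ≤ p ∧ p ≤ 2 * w) (k : ℕ) (hk : 1 ≤ k) (l : List ℤ) (hl : l.length = k - 1)
    (hl0 : ∀ a ∈ l, a ≠ 0 ∧ |a| ≤ k) (g : X.S → ℂ)
    (hg : ∀ x, ‖g x‖ ≤ 1) (β : ℝ)
    (hβ : ∀ r : ℕ, 0 < r → (box X (List.replicate k (r : ℤ)) g).re ≤ β) :
    (qbox X P (l ++ [1]) (fun _ => g)).re ≤ 8 * tau (2 ^ (k - 1)) w P + 8 * β := by
  have hgL : ∀ p : ℤ, gL X [(g, 0)] p = g := by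
    intro p
    funext x
    unfold gL
    simp
  have h1 := qbox_le X w hw P hPn hP l [(g, 0)]
    (fun B hB x => by rw [List.mem_singleton] at hB; rw [hB]; exact hg x) (by simp)
  simp only [hgL, hl, List.length_cons, List.length_nil, zero_add, one_mul] at h1
  refine h1.trans (add_le_add le_rfl (mul_le_mul_of_nonneg_left ?_ (by norm_num)))
  have hc : (0 : ℝ) < P.card := by exact_mod_cast hPn.card_pos
  rw [one_div, inv_mul_le_iff₀ hc]
  have h2 : ∀ p ∈ P, (box X (l.map (fun a => a * (p : ℤ)) ++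
      [(n1 (2 ^ (k - 1)) w : ℤ) * (p : ℤ)]) g).re ≤ β := by
    intro p hp
    have hp1 : 1 ≤ p := hw.trans (hP p hp).1
    have hn := n1_pos (2 ^ (k - 1)) w
    have hr : 0 < k.factorial * n1 (2 ^ (k - 1)) w * p :=
      Nat.mul_pos (Nat.mul_pos (Nat.factorial_pos _) hn) hp1
    refine le_trans ?_ (hβ _ hr)
    set l2 : List ℤ := l.map (fun a => a * (p : ℤ)) ++ [(n1 (2 ^ (k - 1)) w : ℤ) * (p : ℤ)] with hl2
    have hs := box_sign X l2 (l2.map (fun a => |a|)) (forall2_map l2 (fun a _ => by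
      rcases abs_choice a with h | h
      · exact Or.inl h
      · exact Or.inr h)) g hg
    rw [← hs]
    refine box_mono X _ _ ?_ g hg
    have hlen : (l2.map (fun a => |a|)).length = k := by
      rw [hl2]
      simp [hl]
      omega
    have h4 := forall2_repM (R := fun a a' : ℤ => ∃ n : ℕ, 1 ≤ n ∧ a' = n * a)
      (r := ((k.factorial * n1 (2 ^ (k - 1)) w * p : ℕ) : ℤ)) (l2.map (fun a => |a|)) (by
      intro a ha
      obtain ⟨b, hb, rfl⟩ := List.mem_map.1 ha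
      rw [hl2] at hb
      rcases List.mem_append.1 hb with h | h
      · obtain ⟨c, hc, rfl⟩ := List.mem_map.1 h
        obtain ⟨hc0, hck⟩ := hl0 c hc
        have hn0 : 0 < c.natAbs := Int.natAbs_pos.2 hc0
        have hnk : c.natAbs ≤ k := by
          have : |c| = (c.natAbs : ℤ) := Int.abs_eq_natAbs c
          rw [this] at hck
          exact_mod_cast hck
        obtain ⟨d, hd⟩ : c.natAbs ∣ k.factorial := Nat.dvd_factorial hn0 hnk
        have hd0 : 0 < d := by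
          rcases Nat.eq_zero_or_pos d with h0 | h0
          · rw [h0, mul_zero] at hd
            exact absurd hd (Nat.factorial_pos _).ne'
          · exact h0
        refine ⟨d * n1 (2 ^ (k - 1)) w, Nat.mul_pos hd0 hn, ?_⟩
        rw [hd, abs_mul, Int.abs_eq_natAbs c, abs_of_nonneg (by positivity : (0 : ℤ) ≤ (p : ℤ))]
        push_cast
        ring
      · rw [List.mem_singleton] at h
        refine ⟨k.factorial, Nat.factorial_pos _, ?_⟩
        rw [h, abs_of_nonneg (by positivity)]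
        push_cast
        ring)
    rw [hlen] at h4
    exact h4
  calc _ ≤ ∑ p ∈ P, β := sum_le_sum h2
    _ = (P.card : ℝ) * β := by rw [sum_const, nsmul_eq_mul]

private theorem fin_shiftM {M n : ℕ} (hM : 0 < M)
    (hs : 0 < ∑ _j ∈ range M, (1 : ℝ)) (f : ℕ × ℤ → ℂ) {B : ℝ} (hB : ∀ z, ‖f z‖ ≤ B) :
    ‖(Mean.fin (range M) (fun _ => 1) (fun j : ℕ => ((n, (j : ℤ)) : ℕ × ℤ))
        (fun _ _ => zero_le_one) hs).E (fun z => f (z.1, z.2 + 1)) -
      (Mean.fin (range M) (fun _ => 1) (fun j : ℕ => ((n, (j : ℤ)) : ℕ × ℤ))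
        (fun _ _ => zero_le_one) hs).E f‖ ≤ 2 * B / M := by
  have hM0 : (0 : ℝ) < M := by exact_mod_cast hM
  rw [Mean.fin_E, Mean.fin_E, ← sub_div, ← Finset.sum_sub_distrib]
  have h1 : ∑ j ∈ range M, (((1 : ℝ) : ℂ) * f (((n, (j : ℤ)) : ℕ × ℤ).1, ((n, (j : ℤ)) : ℕ × ℤ).2 + 1) -
      ((1 : ℝ) : ℂ) * f (n, (j : ℤ))) = f (n, (M : ℤ)) - f (n, 0) := by
    have h2 := Finset.sum_range_sub (fun j : ℕ => f (n, (j : ℤ))) M
    rw [Nat.cast_zero] at h2
    rw [← h2]
    refine Finset.sum_congr rfl fun j _ => ?_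
    push_cast
    ring
  rw [h1, norm_div]
  have h3 : ‖((∑ _j ∈ range M, (1 : ℝ) : ℝ) : ℂ)‖ = M := by
    rw [Complex.norm_real, Finset.sum_const, Finset.card_range, nsmul_eq_mul, mul_one,
      Real.norm_of_nonneg hM0.le]
  rw [h3]
  refine div_le_div_of_nonneg_right ?_ hM0.le
  calc ‖f (n, (M : ℤ)) - f (n, 0)‖ ≤ ‖f (n, (M : ℤ))‖ + ‖f (n, 0)‖ := norm_sub_le _ _
    _ ≤ B + B := add_le_add (hB _) (hB _)
    _ = 2 * B := by ring

theorem blm (k i₀ : ℕ) (hi1 : 1 ≤ i₀) (hik : i₀ ≤ k) : BLM k i₀ := by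
  have hk : 1 ≤ k := hi1.trans hik
  refine ⟨48, by norm_num, ?_⟩
  intro w P hw hPn hP e q he hq X g hg β hβ η hη
  by_contra hcon
  push Not at hcon
  choose M hM t G hG hGk hlt using fun n : ℕ => hcon (n + 1)
  have hM0 : ∀ n, 0 < M n := fun n => lt_of_lt_of_le (Nat.succ_pos n) (hM n)
  have hs : ∀ n, 0 < ∑ _j ∈ range (M n), (1 : ℝ) := by
    intro n
    have h1 : (0 : ℝ) < M n := by exact_mod_cast hM0 n
    simpa using h1
  set μn : ℕ → Mean (ℕ × ℤ) := fun n => Mean.fin (range (M n)) (fun _ => 1)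
    (fun j : ℕ => ((n, (j : ℤ)) : ℕ × ℤ)) (fun _ _ => zero_le_one) (hs n) with hμn
  set MU : Mean (ℕ × ℤ) := ulim (hyperfilter ℕ) μn with hMU
  have hinv : MInv MU := by
    intro f hf
    have h1 := ulim_tendsto (hyperfilter ℕ) μn (fun z => f (z.1, z.2 + 1))
      (hf.comp (fun z : ℕ × ℤ => (z.1, z.2 + 1)))
    have h2 := ulim_tendsto (hyperfilter ℕ) μn f hf
    obtain ⟨B, hB⟩ := hf
    have hB0 : 0 ≤ B := (norm_nonneg _).trans (hB (0, 0))
    have h3 : Tendsto (fun n => (μn n).E (fun z => f (z.1, z.2 + 1)) - (μn n).E f)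
        (hyperfilter ℕ : Filter ℕ) (𝓝 0) := by
      have h4 : Tendsto (fun n : ℕ => 2 * B / ((n : ℝ) + 1)) atTop (𝓝 0) := by
        have h5 := (tendsto_one_div_add_atTop_nhds_zero_nat (𝕜 := ℝ)).const_mul (2 * B)
        rw [mul_zero] at h5
        refine h5.congr fun n => ?_
        ring
      refine squeeze_zero_norm (fun n => ?_) (h4.mono_left Nat.hyperfilter_le_atTop)
      refine (fin_shiftM (hM0 n) (hs n) f hB).trans ?_
      have h6 : ((n : ℝ) + 1) ≤ M n := by exact_mod_cast hM n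
      exact div_le_div_of_nonneg_left (by positivity) (by positivity) h6
    have h7 := tendsto_nhds_unique (h1.sub h2) h3
    exact sub_eq_zero.1 h7
  set Z : Sys := pairS (powS X (e * q)) P hPn with hZ
  set c : ℕ → ℤ := fun n => 1 + q * t n with hc
  set L := LM X P hPn e q k i₀ c G with hLdef
  have hne : L ≠ [] := by
    rw [hLdef]
    unfold LM othL
    simp
  have hLB : LB L := by
    intro A hA a x
    rw [hLdef] at hA
    unfold LM at hA
    obtain ⟨i, _, rfl⟩ := List.mem_map.1 hA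
    change ‖FM X e (c a) i₀ (G a) i x‖ ≤ 1
    unfold FM
    rw [norm_mul, RCLike.norm_conj]
    exact mul_le_one₀ (hG a _ _) (norm_nonneg _) (hG a _ _)
  set gg : Z.S → ℂ := fun z : (ℕ × ℕ) × (X.S × X.S) => g z.2.1 * (starRingEnd ℂ) (g z.2.2) with hgg
  have hggb : ∀ z, ‖gg z‖ ≤ 1 := by
    intro z
    simp only [hgg]
    rw [norm_mul, RCLike.norm_conj]
    exact mul_le_one₀ (hg _) (norm_nonneg _) (hg _)
  have hlen : L.length = k := by
    rw [hLdef]
    unfold LM othL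
    rw [List.length_map, List.length_append, Finset.length_toList, card_oth k i₀ hi1 hik]
    simp only [List.length_cons, List.length_nil]
    omega
  have hv := vdcL MU hinv Z L hne hLB gg hggb
  rw [hlen] at hv
  set l : List ℤ := (oth k i₀).toList.map (fun i : ℕ => (i₀ : ℤ) - (i : ℤ)) with hl
  have hmap : L.map (fun A => -A.2) = l ++ [1] := by
    rw [hLdef, hl]
    unfold LM othL
    rw [List.map_map, List.map_append]
    congr 1
    · refine List.map_congr_left fun i _ => ?_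
      simp
    · simp only [List.map_cons, List.map_nil, Function.comp_apply, List.cons.injEq, and_true]
      rw [Nat.cast_sub hi1]
      push_cast
      ring
  have hbox : box Z (l ++ [1]) gg = qbox (powS X (e * q)) P (l ++ [1]) (fun _ => g) :=
    box_pair (powS X (e * q)) P hPn (l ++ [1]) (fun _ => g) (fun _ => ⟨1, hg⟩)
  rw [hmap, hbox] at hv
  have hq8 := qbox_gen (powS X (e * q)) w hw P hPn (fun p hp => (hP p hp).2) k hk l (by
    rw [hl, List.length_map, Finset.length_toList, card_oth k i₀ hi1 hik]) (by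
    intro a ha
    rw [hl] at ha
    obtain ⟨i, hi, rfl⟩ := List.mem_map.1 ha
    rw [Finset.mem_toList] at hi
    unfold oth at hi
    rw [Finset.mem_filter, Finset.mem_range] at hi
    refine ⟨by omega, ?_⟩
    rw [abs_le]
    constructor <;> omega) g hg β (by
    intro r hr
    rw [box_powS]
    have h1 : (List.replicate k (r : ℤ)).map (fun a => ((e * q : ℕ) : ℤ) * a) =
        List.replicate k ((e * q * r : ℕ) : ℤ) := by
      rw [List.map_replicate]
      push_cast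
      rfl
    rw [h1]
    exact hβ _ (Nat.mul_pos (Nat.mul_pos he hq) hr))
  have hβ0 : 0 ≤ β := by
    obtain ⟨k', rfl⟩ : ∃ k', k = k' + 1 := ⟨k - 1, by omega⟩
    have h1 := hβ 1 one_pos
    rw [List.replicate_succ] at h1
    exact (box_nonneg X _ _ g hg).1.trans h1
  -- the limit
  have hbd : Bd (fun z : ℕ × ℤ => Z.μ.E (fun x => gg x * corL Z L z.1 z.2 x)) := by
    refine ⟨1, fun z => Z.μ.norm_E_le _ fun x => ?_⟩
    rw [norm_mul]
    exact mul_le_one₀ (hggb _) (norm_nonneg _) (corL_norm Z L hLB _ _ _)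
  have hlim := ulim_tendsto (hyperfilter ℕ) μn _ hbd
  have hval : ∀ n, (μn n).E (fun z : ℕ × ℤ => Z.μ.E (fun x => gg x * corL Z L z.1 z.2 x)) =
      (((1 / (M n : ℝ)) * ∑ j ∈ range (M n), ‖(1 / (P.card : ℂ)) * ∑ p ∈ P,
        X.μ.E (cor X k (G n) ((e * p : ℤ) * (1 + q * (t n + j))))‖ ^ 2 : ℝ) : ℂ) := by
    intro n
    simp only [hμn]
    rw [Mean.fin_E]
    have h1 : ∀ j ∈ range (M n), ((1 : ℝ) : ℂ) * Z.μ.E (fun x => gg x *
        corL Z L ((n, (j : ℤ)) : ℕ × ℤ).1 ((n, (j : ℤ)) : ℕ × ℤ).2 x) =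
        ((‖(1 / (P.card : ℂ)) * ∑ p ∈ P,
        X.μ.E (cor X k (G n) ((e * p : ℤ) * (1 + q * (t n + j))))‖ ^ 2 : ℝ) : ℂ) := by
      intro j _
      rw [Complex.ofReal_one, one_mul]
      have h2 := cor_pairM X P hPn e q c n j k i₀ hi1 hik G hG
      have h3 : ∀ p : ℕ, ((e * p : ℤ) * (1 + q * (t n + j))) =
          ((e * p : ℤ) * (c n + q * j)) := fun p => by
        simp only [hc]
        ring
      simp only [h3]
      rw [h2, hGk n]
      rfl
    rw [Finset.sum_congr rfl h1]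
    have h4 : (∑ _j ∈ range (M n), (1 : ℝ)) = (M n : ℝ) := by simp
    rw [h4]
    push_cast
    rw [div_eq_mul_inv, mul_comm, one_div, one_div]
  have hge : 48 * ((w : ℝ) / P.card * (w : ℝ) ^ (-(1 / 2 ^ (2 ^ (k - 1)) : ℝ)) + β) + η ≤
      ‖MU.E (fun z : ℕ × ℤ => Z.μ.E (fun x => gg x * corL Z L z.1 z.2 x))‖ ^ (2 ^ k) := by
    refine ge_of_tendsto (hlim.norm.pow (2 ^ k)) (Eventually.of_forall fun n => ?_)
    rw [hval n, Complex.norm_real, Real.norm_of_nonneg (by positivity)]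
    exact (hlt n).le
  have htau : 8 * tau (2 ^ (k - 1)) w P =
      48 * ((w : ℝ) / P.card * (w : ℝ) ^ (-(1 / 2 ^ (2 ^ (k - 1)) : ℝ))) := by
    unfold tau
    ring
  have hfin := hge.trans (hv.trans hq8)
  rw [htau] at hfin
  linarith

end DG.BLP
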