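import Pool.Agent.Helper6.DG.N2Box
import Pool.Agent.Helper6.DG.M2Blm

/-!
# DG-N10: one function with vanishing correlations at an arbitrary position
-/

set_option autoImplicit false

namespace DG

open Finset Filter Topology

/-- Correlations with a function `g` with vanishing correlations at the position `i₀` are small on
average over the products of two primes. -/
def SmallAt (k i₀ : ℕ) : Prop := ∀ D : ℕ, 1 ≤ D → ∀ ε : ℝ, 0 < ε → ∀ (X : Sys) (g : X.S → ℂ),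
  (∀ x, ‖g x‖ ≤ 1) → (∀ x, (starRingEnd ℂ) (g x) = g x) → Cen X g →
    ∀ᶠ N : ℕ in atTop, ∀ᶠ w : ℕ in atTop, ∀ᶠ Y : ℕ in atTop,
      ∀ G : ℕ → X.S → ℂ, (∀ i x, ‖G i x‖ ≤ 1) → G i₀ = g →
        ‖avP (PW D N.factorial w) (fun p => avP (PW D N.factorial Y) (fun p' =>
          X.μ.E (cor X k G ((p * p' : ℕ) : ℤ))))‖ ≤ ε

open CA in
theorem smallM (D : ℕ) (hD : 1 ≤ D) (k i₀ : ℕ) (hBL : BLM k i₀) (hSVT : SVT k) (hPR : PR) :
    ∀ a : ℝ, 0 < a → ∃ b : ℝ, 0 < b ∧ ∀ (X : Sys) (g : X.S → ℂ), (∀ x, ‖g x‖ ≤ 1) →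
      (∀ r : ℕ, 0 < r → (box X (List.replicate k (r : ℤ)) g).re ≤ b) →
      ∀ᶠ N : ℕ in atTop, ∀ᶠ w : ℕ in atTop, ∀ e : ℕ, 1 ≤ e → ∀ᶠ Y : ℕ in atTop,
        ∀ G : ℕ → X.S → ℂ, (∀ i x, ‖G i x‖ ≤ 1) → G i₀ = g →
          (1 / ((PW D N.factorial Y).card : ℝ)) * ∑ p' ∈ PW D N.factorial Y,
            ‖(1 / ((PW D N.factorial w).card : ℂ)) * ∑ p ∈ PW D N.factorial w,
              X.μ.E (cor X k G ((e * p : ℤ) * p'))‖ ^ 2 ≤ a := by
  intro a ha
  obtain ⟨C, hC, hBL⟩ := hBL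
  obtain ⟨K, hK, hS⟩ := hSVT D hD (a / 2) (by positivity)
  set θ : ℝ := (a / (2 * K)) ^ (2 ^ k) with hθ
  have hθ0 : 0 < θ := by positivity
  refine ⟨θ / (4 * C), by positivity, ?_⟩
  intro X g hg hbox
  filter_upwards [hS] with N hSN
  have hq : 1 ≤ N.factorial := Nat.factorial_pos N
  have hδ : (0 : ℝ) < 1 / 2 ^ (2 ^ (k - 1)) := by positivity
  filter_upwards [P_small hPR D N.factorial hD hq hδ (κ := θ / (4 * C)) (by positivity),
    eventually_ge_atTop 1] with w hw hw1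
  obtain ⟨hne, hwP⟩ := hw
  intro e he
  obtain ⟨M0, hM0⟩ := hBL w (PW D N.factorial w) hw1 hne (fun p hp => PW_mem hD hp) e N.factorial
    he hq X g hg (θ / (4 * C)) hbox (θ / 4) (by positivity)
  filter_upwards [hSN, MM_ge D N.factorial M0 hD hq] with Y hY hMY
  intro G hG hGk
  have h1 := hY X e (PW D N.factorial w) he hne (fun p hp => (PW_mem hD hp).1.one_lt.le) G hG
  have h2 := hM0 (MM D N.factorial Y) hMY (tt N.factorial Y) G hG hGk
  set x : ℝ := (1 / ((MM D N.factorial Y : ℕ) : ℝ)) * ∑ j ∈ range (MM D N.factorial Y),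
    ‖(1 / ((PW D N.factorial w).card : ℂ)) * ∑ p ∈ PW D N.factorial w, X.μ.E (cor X k G
      ((e * p : ℤ) * (1 + (N.factorial : ℤ) * ((tt N.factorial Y : ℤ) + j))))‖ ^ 2 with hx
  have hx0 : 0 ≤ x := by positivity
  have h3 : x ^ (2 ^ k) ≤ (a / (2 * K)) ^ (2 ^ k) := by
    refine h2.trans ?_
    have h4 : C * ((w : ℝ) / (PW D N.factorial w).card *
        (w : ℝ) ^ (-(1 / 2 ^ (2 ^ (k - 1)) : ℝ)) + θ / (4 * C)) ≤
        C * (θ / (4 * C) + θ / (4 * C)) :=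
      mul_le_mul_of_nonneg_left (by linarith) hC.le
    have h5 : C * (θ / (4 * C) + θ / (4 * C)) = θ / 2 := by
      field_simp
      ring
    rw [← hθ]
    linarith
  have h6 : x ≤ a / (2 * K) := by
    refine le_of_not_gt fun hlt => ?_
    exact absurd h3 (not_le.2 (pow_lt_pow_left₀ hlt (by positivity) (by positivity)))
  refine h1.trans ?_
  have h7 : K * x ≤ a / 2 := by
    calc K * x ≤ K * (a / (2 * K)) := mul_le_mul_of_nonneg_left h6 hK.le
      _ = a / 2 := by field_simp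
  linarith

theorem smallAt_of_blm (k i₀ : ℕ) (hBL : BLM k i₀) (hSVT : SVT k) (hPR : PR) : SmallAt k i₀ := by
  intro D hD ε hε X g hg hreal hcen
  obtain ⟨b, hb, hs⟩ := smallM D hD k i₀ hBL hSVT hPR (ε ^ 2) (by positivity)
  have h1 := hs X g hg (fun r hr => by
    rw [box_zero X g hg hreal hcen k (r : ℤ) (by exact_mod_cast hr.ne')]
    exact hb.le)
  filter_upwards [h1] with N hN
  filter_upwards [hN] with w hw
  filter_upwards [hw 1 le_rfl] with Y hY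
  intro G hG hGk
  have h2 := CA.norm_avg_le_of_sq (PW D N.factorial Y) _ hε.le (hY G hG hGk)
  refine le_trans (le_of_eq ?_) h2
  congr 1
  unfold avP
  simp only [Finset.mul_sum]
  rw [Finset.sum_comm]
  apply Finset.sum_congr rfl
  intro p' _
  apply Finset.sum_congr rfl
  intro p _
  have e1 : (((1 : ℕ) : ℤ) * (p : ℤ)) * (p' : ℤ) = ((p * p' : ℕ) : ℤ) := by
    push_cast
    ring
  rw [e1]
  ring

/-- All positions. -/
theorem smallAt (hSVT : ∀ k, SVT k) (hBL : ∀ k, 1 ≤ k → BL k) (hPR : PR) (k i₀ : ℕ) (hk : 1 ≤ k)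
    (hi : i₀ ≤ k) : SmallAt k i₀ := by
  rcases Nat.eq_zero_or_pos i₀ with h0 | h0
  · intro D hD ε hε X g hg hreal hcen
    exact end_small hBL hSVT hPR D hD k hk i₀ (Or.inl h0) ε hε X g hg hreal hcen
  · exact smallAt_of_blm k i₀ (BLP.blm k i₀ h0 hi) (hSVT k) hPR

end DG
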