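import Pool.Agent.Helper6.DG.N0
import Pool.Agent.Helper6.DG.E2Slow
import Pool.Agent.Helper13.Om.Slow
import Pool.Agent.Helper13.MRF.LawX

/-!
# DG-N3: slowly varying functions of `Ω` at distinct shifts are asymptotically independent

PROOF.
* `slow_prod`: for a finite set `s` of natural numbers and `ε > 0` there are `δ > 0`, `N0` such that for `M ≥ N0` and
 every `ψ : ℕ → ℝ` with values in `[0, 1]` and `|ψ (x+1) - ψ x| ≤ δ`:
 `|E_{n ≤ M} ∏_{a ∈ s} ψ(Ω(n + a)) - (Mn M ψ)^|s|| ≤ ε`: `Helper13.Om.main_slow (k) i₀ ε` with `k = sup s + 1` (or any `k > a`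
 for all `a ∈ s`, `k ≥ 1`), any `i₀`, `F l = ∏_{i with i.1 ∈ s} ψ (l i)` (slowly varying in every coordinate: only one factor
 changes, the others are in `[0, 1]`); the product mean is `(Mn M ψ)^|s|` (`Finset.prod_univ_sum`,
 the mean over `piFinset` of a product of functions of one coordinate is the product of means;
 see `Ep_box`, `Ep_prod` in Helper11/QR/PartU.lean).
* `cen_app`: let `g = gfun ψ (fun j M => Mn M (ψ j))`. For a nonempty finite set `s` of integers choose `t` with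
 `t + s ⊂ ℕ`; by invariance (`inv_zpow` of `app w`, `m` does not change) replace `s` by `s + t`, a set of natural numbers.
 `∏_{a ∈ s} (ψ(Ω(n+a)) - m) = ∑_{u ⊆ s} (-m)^|s \ u| ∏_{a ∈ u} ψ(Ω(n+a))` (`Finset.prod_sub`/`Finset.prod_add`). For every `ε`: for `j` large
 (`hδ`: the slowness of `ψ j` tends to `0`) and `M ≥ N0`, the mean over `n ≤ M` is within
 `2^|s| ε` of `∑_u (-m)^|s \ u| m^|u| = (m - m)^|s| = 0`. So the window mean is at most
 `2^|s| ε + 2^|s| (mass of M < N0) / mass` for large `j`, and the limit (`app_tendsto`, hyperfilter `≤ atTop`) has norm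
 `≤ 2^|s| ε`. The position `n` in `1..M` and `OmZ ((n : ℤ) + a) = cardFactors (n + a)`.
* `mn_slow`, `mn_div`: `Mn` is slowly varying (as `c0_slow`) with constant `2`; the law of `Ω` is stable under
 `M → M / 2^e`: Helper13/MRF/LawX.lean (`MRP.lawx`).
-/

set_option autoImplicit false

namespace DG

open Finset Filter Topology

private theorem h86_slow_prod_F (k : ℕ) (s : Finset ℕ) (ψ : ℕ → ℝ) (δ : ℝ) (hδ : 0 ≤ δ)
    (h : ∀ x, 0 ≤ ψ x ∧ ψ x ≤ 1) (hs : ∀ x, |ψ (x + 1) - ψ x| ≤ δ) (i₀ : Fin k) :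
    (∀ l : Fin k → ℕ, |∏ i : Fin k, (if i.1 ∈ s then ψ (l i) else 1)| ≤ 1) ∧
    Helper13.Om.SlowVar k i₀ δ (fun l => ∏ i : Fin k, (if i.1 ∈ s then ψ (l i) else 1)) := by
  classical
  have hb : ∀ (l : Fin k → ℕ) (i : Fin k), 0 ≤ (if i.1 ∈ s then ψ (l i) else 1) ∧
      (if i.1 ∈ s then ψ (l i) else 1) ≤ 1 := by
    intro l i
    split_ifs
    · exact h _
    · norm_num
  refine ⟨fun l => ?_, fun l i _ => ?_⟩
  · rw [abs_of_nonneg (Finset.prod_nonneg fun i _ => (hb l i).1)]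
    exact Finset.prod_le_one (fun i _ => (hb l i).1) (fun i _ => (hb l i).2)
  · beta_reduce
    rw [← Finset.mul_prod_erase univ _ (Finset.mem_univ i),
      ← Finset.mul_prod_erase univ (fun i : Fin k => if i.1 ∈ s then ψ (l i) else 1)
        (Finset.mem_univ i)]
    have e1 : ∏ x ∈ univ.erase i, (if x.1 ∈ s then ψ (Function.update l i (l i + 1) x) else 1) =
        ∏ x ∈ univ.erase i, (if x.1 ∈ s then ψ (l x) else 1) := by
      refine Finset.prod_congr rfl fun x hx => ?_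
      rw [Function.update_of_ne (Finset.ne_of_mem_erase hx)]
    rw [e1, Function.update_self, ← sub_mul, abs_mul]
    have h1 : |∏ x ∈ univ.erase i, (if x.1 ∈ s then ψ (l x) else 1)| ≤ 1 := by
      rw [abs_of_nonneg (Finset.prod_nonneg fun x _ => (hb l x).1)]
      exact Finset.prod_le_one (fun x _ => (hb l x).1) (fun x _ => (hb l x).2)
    have h2 : |(if i.1 ∈ s then ψ (l i + 1) else 1) - (if i.1 ∈ s then ψ (l i) else 1)| ≤ δ := by
      split_ifs
      · exact hs _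
      · rw [sub_self, abs_zero]; exact hδ
    calc _ ≤ δ * 1 := mul_le_mul h2 h1 (abs_nonneg _) hδ
      _ = δ := mul_one _

private theorem h86_prod_fin (k : ℕ) (s : Finset ℕ) (hk : ∀ a ∈ s, a < k) (f : ℕ → ℝ) :
    ∏ i : Fin k, (if i.1 ∈ s then f i.1 else 1) = ∏ a ∈ s, f a := by
  classical
  rw [Fin.prod_univ_eq_prod_range (fun a => if a ∈ s then f a else 1) k, ← Finset.prod_filter]
  refine Finset.prod_congr ?_ fun _ _ => rfl
  ext a
  rw [Finset.mem_filter, Finset.mem_range]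
  exact ⟨fun h => h.2, fun h => ⟨hk a h, h⟩⟩

theorem slow_prod (s : Finset ℕ) (ε : ℝ) (hε : 0 < ε) : ∃ δ : ℝ, 0 < δ ∧ ∃ N0 : ℕ,
    ∀ M : ℕ, N0 ≤ M → ∀ ψ : ℕ → ℝ, (∀ x, 0 ≤ ψ x ∧ ψ x ≤ 1) → (∀ x, |ψ (x + 1) - ψ x| ≤ δ) →
      |(1 / (M : ℝ)) * ∑ n ∈ Icc 1 M, ∏ a ∈ s, ψ (ArithmeticFunction.cardFactors (n + a)) -
        Mn M ψ ^ s.card| ≤ ε := by
  classical
  set k := s.sup id + 1 with hk
  have hsk : ∀ a ∈ s, a < k := fun a ha => Nat.lt_succ_of_le (Finset.le_sup (f := id) ha)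
  obtain ⟨δ, hδ, N₀, h⟩ := Helper13.Om.main_slow k ⟨0, by omega⟩ ε hε
  refine ⟨δ, hδ, max N₀ 1, fun M hM ψ h1 h2 => ?_⟩
  have hM0 : 0 < M := lt_of_lt_of_le Nat.one_pos ((le_max_right _ _).trans hM)
  obtain ⟨h3, h4⟩ := h86_slow_prod_F k s ψ δ hδ.le h1 h2 ⟨0, by omega⟩
  have h5 := h M ((le_max_left _ _).trans hM) _ h3 h4
  have e1 : ∀ n : ℕ, ∏ i : Fin k, (if i.1 ∈ s then
      ψ (ArithmeticFunction.cardFactors (n + i.1)) else 1) =
      ∏ a ∈ s, ψ (ArithmeticFunction.cardFactors (n + a)) := fun n =>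
    h86_prod_fin k s hsk (fun a => ψ (ArithmeticFunction.cardFactors (n + a)))
  have e2 : 1 / (M : ℝ) ^ k * ∑ m ∈ Fintype.piFinset (fun _ : Fin k => Finset.Icc 1 M),
      ∏ i : Fin k, (if i.1 ∈ s then ψ (ArithmeticFunction.cardFactors (m i)) else 1) =
      Mn M ψ ^ s.card := by
    · have hMr : (M : ℝ) ≠ 0 := by positivity
      have h6 := (Finset.prod_univ_sum (fun _ : Fin k => Finset.Icc 1 M)
        (fun (i : Fin k) (x : ℕ) => (if i.1 ∈ s then
          ψ (ArithmeticFunction.cardFactors x) else 1 : ℝ))).symm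
      rw [h6]
      have h7 : 1 / (M : ℝ) ^ k = ∏ _i : Fin k, (1 / (M : ℝ)) := by
        rw [Finset.prod_const, Finset.card_univ, Fintype.card_fin, one_div, one_div, inv_pow]
      rw [h7, ← Finset.prod_mul_distrib]
      have h8 : ∀ i : Fin k, (1 / (M : ℝ)) * ∑ x ∈ Finset.Icc 1 M, (if i.1 ∈ s then
          ψ (ArithmeticFunction.cardFactors x) else 1 : ℝ) = if i.1 ∈ s then Mn M ψ else 1 := by
        intro i
        split_ifs
        · rfl
        · rw [Finset.sum_const, Nat.card_Icc, Nat.add_sub_cancel, nsmul_eq_mul, mul_one,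
            one_div, inv_mul_cancel₀ hMr]
      rw [Finset.prod_congr rfl fun i _ => h8 i, h86_prod_fin k s hsk (fun _ => Mn M ψ),
        Finset.prod_const]
  rw [← e2]
  simp only [e1] at h5
  exact h5

private theorem h86_Mn_bd (M : ℕ) (ψ : ℕ → ℝ) (h : ∀ x, 0 ≤ ψ x ∧ ψ x ≤ 1) :
    0 ≤ Mn M ψ ∧ Mn M ψ ≤ 1 := by
  unfold Mn
  constructor
  · exact mul_nonneg (by positivity) (Finset.sum_nonneg fun n _ => (h _).1)
  · rcases Nat.eq_zero_or_pos M with rfl | hM
    · simp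
    · have hMr : (0 : ℝ) < M := by exact_mod_cast hM
      rw [one_div, inv_mul_le_iff₀ hMr, mul_one]
      refine (Finset.sum_le_sum fun n _ => (h _).2).trans ?_
      rw [Finset.sum_const, Nat.card_Icc, Nat.add_sub_cancel, nsmul_eq_mul, mul_one]

/-- the centred mean of the product over `u` -/
private noncomputable def h86D (u : Finset ℕ) (M : ℕ) (ψ : ℕ → ℝ) : ℝ :=
  (1 / (M : ℝ)) * ∑ n ∈ Icc 1 M, ∏ a ∈ u, (ψ (ArithmeticFunction.cardFactors (n + a)) - Mn M ψ)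

private theorem h86D_bd (u : Finset ℕ) (M : ℕ) (ψ : ℕ → ℝ) (h : ∀ x, 0 ≤ ψ x ∧ ψ x ≤ 1) :
    |h86D u M ψ| ≤ 1 := by
  unfold h86D
  have hm := h86_Mn_bd M ψ h
  rcases Nat.eq_zero_or_pos M with rfl | hM
  · simp
  · have hMr : (0 : ℝ) < M := by exact_mod_cast hM
    rw [abs_mul, abs_of_pos (by positivity : (0 : ℝ) < 1 / M), one_div, inv_mul_le_iff₀ hMr,
      mul_one]
    refine (Finset.abs_sum_le_sum_abs _ _).trans ?_
    have h2 : ∀ n ∈ Icc 1 M,
        |∏ a ∈ u, (ψ (ArithmeticFunction.cardFactors (n + a)) - Mn M ψ)| ≤ 1 := by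
      intro n _
      rw [Finset.abs_prod]
      refine Finset.prod_le_one (fun a _ => abs_nonneg _) (fun a _ => ?_)
      have := h (ArithmeticFunction.cardFactors (n + a))
      rw [abs_le]
      constructor <;> linarith [hm.1, hm.2, this.1, this.2]
    refine (Finset.sum_le_sum h2).trans ?_
    rw [Finset.sum_const, Nat.card_Icc, Nat.add_sub_cancel, nsmul_eq_mul, mul_one]

private theorem h86D_small (u : Finset ℕ) (hu : u.Nonempty) (ε : ℝ) (hε : 0 < ε) :
    ∃ δ : ℝ, 0 < δ ∧ ∃ N0 : ℕ, ∀ M : ℕ, N0 ≤ M → ∀ ψ : ℕ → ℝ, (∀ x, 0 ≤ ψ x ∧ ψ x ≤ 1) →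
      (∀ x, |ψ (x + 1) - ψ x| ≤ δ) → |h86D u M ψ| ≤ 2 ^ u.card * ε := by
  classical
  choose δf hδf Nf hf using fun v : Finset ℕ => slow_prod v ε hε
  have hne : (u.powerset).Nonempty := ⟨∅, Finset.empty_mem_powerset u⟩
  refine ⟨(u.powerset).inf' hne δf, (Finset.lt_inf'_iff hne).2 fun v _ => hδf v,
    (u.powerset).sup Nf, fun M hM ψ h1 h2 => ?_⟩
  have hm := h86_Mn_bd M ψ h1
  set m := Mn M ψ with hmdef
  have h3 : ∀ v ∈ u.powerset, |(1 / (M : ℝ)) * ∑ n ∈ Icc 1 M,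
      ∏ a ∈ v, ψ (ArithmeticFunction.cardFactors (n + a)) - m ^ v.card| ≤ ε := fun v hv =>
    hf v M ((Finset.le_sup (f := Nf) hv).trans hM) ψ h1
      (fun x => (h2 x).trans (Finset.inf'_le δf hv))
  have h4 : h86D u M ψ = ∑ v ∈ u.powerset, (-m) ^ (u \ v).card * ((1 / (M : ℝ)) *
      ∑ n ∈ Icc 1 M, ∏ a ∈ v, ψ (ArithmeticFunction.cardFactors (n + a))) := by
    unfold h86D
    rw [← hmdef]
    have h5 : ∀ n : ℕ, ∏ a ∈ u, (ψ (ArithmeticFunction.cardFactors (n + a)) - m) =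
        ∑ v ∈ u.powerset, (-m) ^ (u \ v).card *
          ∏ a ∈ v, ψ (ArithmeticFunction.cardFactors (n + a)) := by
      intro n
      have h6 := Finset.prod_add (fun a => ψ (ArithmeticFunction.cardFactors (n + a)))
        (fun _ : ℕ => -m) u
      simp only [← sub_eq_add_neg] at h6
      rw [h6]
      refine Finset.sum_congr rfl fun v _ => ?_
      rw [Finset.prod_const, mul_comm]
    simp only [h5]
    rw [Finset.sum_comm, Finset.mul_sum]
    refine Finset.sum_congr rfl fun v _ => ?_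
    rw [← Finset.mul_sum]
    ring
  have h7 : ∑ v ∈ u.powerset, (-m) ^ (u \ v).card * m ^ v.card = 0 := by
    have h8 := Finset.prod_add (fun _ : ℕ => m) (fun _ : ℕ => -m) u
    rw [Finset.prod_const, add_neg_cancel, zero_pow (Finset.card_ne_zero.2 hu)] at h8
    rw [h8]
    refine Finset.sum_congr rfl fun v _ => ?_
    rw [Finset.prod_const, Finset.prod_const, mul_comm]
  have h9 : h86D u M ψ = ∑ v ∈ u.powerset, (-m) ^ (u \ v).card * ((1 / (M : ℝ)) *
      ∑ n ∈ Icc 1 M, ∏ a ∈ v, ψ (ArithmeticFunction.cardFactors (n + a)) - m ^ v.card) := by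
    simp only [mul_sub, Finset.sum_sub_distrib]
    rw [h7, sub_zero, h4]
  rw [h9]
  refine (Finset.abs_sum_le_sum_abs _ _).trans ?_
  have h10 : ∀ v ∈ u.powerset, |(-m) ^ (u \ v).card * ((1 / (M : ℝ)) *
      ∑ n ∈ Icc 1 M, ∏ a ∈ v, ψ (ArithmeticFunction.cardFactors (n + a)) - m ^ v.card)| ≤ ε := by
    intro v hv
    rw [abs_mul, abs_pow, abs_neg, abs_of_nonneg hm.1]
    calc m ^ (u \ v).card * |(1 / (M : ℝ)) *
        ∑ n ∈ Icc 1 M, ∏ a ∈ v, ψ (ArithmeticFunction.cardFactors (n + a)) - m ^ v.card|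
        ≤ 1 * ε := mul_le_mul (pow_le_one₀ hm.1 hm.2) (h3 v hv) (abs_nonneg _) zero_le_one
      _ = ε := one_mul _
  refine (Finset.sum_le_sum h10).trans ?_
  rw [Finset.sum_const, Finset.card_powerset, nsmul_eq_mul]
  push_cast
  exact le_rfl

private theorem h86_gfun_bd (ψ : ℕ → ℕ → ℝ) (hψ : ∀ j x, 0 ≤ ψ j x ∧ ψ j x ≤ 1)
    (s : ℕ × ℕ × ℤ) : ‖gfun ψ (fun j M => Mn M (ψ j)) s‖ ≤ 1 := by
  unfold gfun
  rw [Complex.norm_real, Real.norm_eq_abs]
  have h1 := h86_Mn_bd s.2.1 (ψ s.1) (hψ s.1)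
  have h2 := hψ s.1 (OmZ s.2.2)
  rw [abs_le]
  constructor <;> linarith [h1.1, h1.2, h2.1, h2.2]

theorem cen_app (w : Win) (ψ : ℕ → ℕ → ℝ) (hψ : ∀ j x, 0 ≤ ψ j x ∧ ψ j x ≤ 1)
    (δ : ℕ → ℝ) (hδ : Tendsto δ atTop (𝓝 0)) (hs : ∀ j x, |ψ j (x + 1) - ψ j x| ≤ δ j) :
    Cen (app w) (gfun ψ (fun j M => Mn M (ψ j))) := by
  classical
  intro s hne
  set F : ℕ × ℕ × ℤ → ℂ := fun x => ∏ a ∈ s, gfun ψ (fun j M => Mn M (ψ j)) ((shT ^ a) x) with hF
  have hFb : ∀ x, ‖F x‖ ≤ 1 := fun x =>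
    prod_norm_le_one s _ fun a _ => h86_gfun_bd ψ hψ _
  obtain ⟨t, ht⟩ : ∃ t : ℕ, ∀ a ∈ s, 0 ≤ a + t := by
    refine ⟨s.sup Int.natAbs, fun a ha => ?_⟩
    have h1 : a.natAbs ≤ s.sup Int.natAbs := Finset.le_sup (f := Int.natAbs) ha
    omega
  have hinv := (app w).inv_zpow (t : ℤ) F ⟨1, hFb⟩
  show (appμ w).E F = 0
  have hinv' : (appμ w).E (fun x => F ((shT ^ (t : ℤ)) x)) = (appμ w).E F := hinv
  rw [← hinv']
  set u : Finset ℕ := s.image (fun a : ℤ => (a + (t : ℤ)).toNat) with hu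
  have hune : u.Nonempty := hne.image _
  have hinj : Set.InjOn (fun a : ℤ => (a + t).toNat) (s : Set ℤ) := by
    intro a ha b hb hab
    have h1 := ht a ha
    have h2 := ht b hb
    have h3 : (a + t).toNat = (b + t).toNat := hab
    omega
  have hval : ∀ (j M n : ℕ), F ((shT ^ (t : ℤ)) (j, M, (n : ℤ))) =
      ((∏ a ∈ u, (ψ j (ArithmeticFunction.cardFactors (n + a)) - Mn M (ψ j)) : ℝ) : ℂ) := by
    intro j M n
    rw [hu, Finset.prod_image hinj, Complex.ofReal_prod]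
    simp only [hF]
    refine Finset.prod_congr rfl fun a ha => ?_
    rw [shT_zpow, shT_zpow]
    show ((ψ j (OmZ ((n : ℤ) + t + a)) - Mn M (ψ j) : ℝ) : ℂ) = _
    have h1 := ht a ha
    have h2 : ((n : ℤ) + t + a).toNat = n + (a + t).toNat := by omega
    unfold OmZ
    rw [h2]
  have hE : ∀ j, ‖(wmean w j).E (fun x => F ((shT ^ (t : ℤ)) x))‖ ≤
      (∑ M ∈ Ioc (w.a j) (w.b j), 1 / (M : ℝ) * |h86D u M (ψ j)|) /
        (∑ M ∈ Ioc (w.a j) (w.b j), 1 / (M : ℝ)) := by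
    intro j
    have hm := mass_pos (w.lt j)
    rw [wmean_E, norm_div, Complex.norm_real, Real.norm_of_nonneg hm.le]
    refine div_le_div_of_nonneg_right ?_ hm.le
    refine norm_sum_le_of_le _ fun M _ => ?_
    rw [norm_mul, norm_div, norm_one, Complex.norm_natCast]
    refine mul_le_mul_of_nonneg_left ?_ (by positivity)
    have h1 : (1 / (M : ℂ)) * ∑ n ∈ Icc 1 M, F ((shT ^ (t : ℤ)) (j, M, (n : ℤ))) =
        ((h86D u M (ψ j) : ℝ) : ℂ) := by
      simp only [hval]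
      unfold h86D
      push_cast
      rfl
    rw [h1, Complex.norm_real, Real.norm_eq_abs]
  have hlim := app_tendsto w (fun x => F ((shT ^ (t : ℤ)) x)) ⟨1, fun x => hFb _⟩
  -- the bound
  have hsmall : ∀ ε : ℝ, 0 < ε → ‖(appμ w).E (fun x => F ((shT ^ (t : ℤ)) x))‖ ≤
      2 ^ u.card * ε + ε := by
    intro ε hε
    obtain ⟨δ0, hδ0, N0, hN⟩ := h86D_small u hune ε hε
    have ev1 : ∀ᶠ j in (hyperfilter ℕ : Filter ℕ), δ j ≤ δ0 :=
      ((hδ.eventually (gt_mem_nhds hδ0)).mono fun j hj => hj.le).filter_mono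
        Nat.hyperfilter_le_atTop
    have ev2 : ∀ᶠ j in (hyperfilter ℕ : Filter ℕ),
        (N0 : ℝ) / ε ≤ ∑ M ∈ Ioc (w.a j) (w.b j), 1 / (M : ℝ) :=
      (w.div.eventually_ge_atTop _).filter_mono Nat.hyperfilter_le_atTop
    refine le_of_tendsto hlim.norm ?_
    filter_upwards [ev1, ev2] with j hj1 hj2
    refine (hE j).trans ?_
    have hm := mass_pos (w.lt j)
    rw [div_le_iff₀ hm]
    have h1 : ∀ M ∈ Ioc (w.a j) (w.b j), 1 / (M : ℝ) * |h86D u M (ψ j)| ≤
        2 ^ u.card * ε * (1 / (M : ℝ)) + if M < N0 then 1 else 0 := by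
      intro M hM
      have hM1 : 1 ≤ M := by
        have := (Finset.mem_Ioc.1 hM).1
        omega
      have hMr : (1 : ℝ) ≤ M := by exact_mod_cast hM1
      have hinvM : 0 ≤ 1 / (M : ℝ) := by positivity
      have hinvM1 : 1 / (M : ℝ) ≤ 1 := by
        rw [div_le_one (by linarith)]
        exact hMr
      have hpos : 0 ≤ 2 ^ u.card * ε := by positivity
      split_ifs with hlt
      · have h2 := h86D_bd u M (ψ j) (hψ j)
        have h3 : 1 / (M : ℝ) * |h86D u M (ψ j)| ≤ 1 * 1 :=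
          mul_le_mul hinvM1 h2 (abs_nonneg _) zero_le_one
        have h4 : 0 ≤ 2 ^ u.card * ε * (1 / (M : ℝ)) := mul_nonneg hpos hinvM
        linarith
      · have h2 := hN M (by omega) (ψ j) (hψ j) (fun x => (hs j x).trans hj1)
        rw [add_zero, mul_comm]
        exact mul_le_mul_of_nonneg_right h2 hinvM
    refine (Finset.sum_le_sum h1).trans ?_
    rw [Finset.sum_add_distrib, ← Finset.mul_sum, add_mul]
    refine add_le_add le_rfl ?_
    rw [← Finset.sum_filter, Finset.sum_const, nsmul_eq_mul, mul_one]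
    have h5 : (((Ioc (w.a j) (w.b j)).filter (fun M => M < N0)).card : ℝ) ≤ N0 := by
      have : ((Ioc (w.a j) (w.b j)).filter (fun M => M < N0)) ⊆ range N0 := by
        intro M hM
        exact Finset.mem_range.2 (Finset.mem_filter.1 hM).2
      have h6 := Finset.card_le_card this
      rw [Finset.card_range] at h6
      exact_mod_cast h6
    rw [div_le_iff₀ hε] at hj2
    linarith
  have h0 : ‖(appμ w).E (fun x => F ((shT ^ (t : ℤ)) x))‖ ≤ 0 := by
    refine le_of_forall_pos_le_add fun e he => ?_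
    have hc : (0 : ℝ) < 2 ^ u.card + 1 := by positivity
    have h1 := hsmall (e / (2 ^ u.card + 1)) (by positivity)
    have h2 : 2 ^ u.card * (e / (2 ^ u.card + 1)) + e / (2 ^ u.card + 1) = e := by
      field_simp
    rw [h2] at h1
    linarith
  exact norm_le_zero_iff.1 h0

theorem mn_slow (ψ : ℕ → ℕ → ℝ) (hψ : ∀ j x, 0 ≤ ψ j x ∧ ψ j x ≤ 1) :
    SlowW 2 (fun j M => Mn M (ψ j)) := by
  constructor
  · intro j M
    have h := h86_Mn_bd M (ψ j) (hψ j)
    rw [abs_le]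
    constructor <;> linarith [h.1, h.2]
  · intro j M M' h1 h2
    have hb : 0 ≤ ∑ n ∈ Icc 1 M', ψ j (ArithmeticFunction.cardFactors n) ∧
        ∑ n ∈ Icc 1 M', ψ j (ArithmeticFunction.cardFactors n) ≤ M' := by
      constructor
      · exact Finset.sum_nonneg fun n _ => (hψ j _).1
      · refine (Finset.sum_le_sum fun n _ => (hψ j _).2).trans ?_
        rw [Finset.sum_const, Nat.card_Icc, Nat.add_sub_cancel, nsmul_eq_mul, mul_one]
    have hi : 0 ≤ (∑ n ∈ Icc 1 M, ψ j (ArithmeticFunction.cardFactors n)) -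
        (∑ n ∈ Icc 1 M', ψ j (ArithmeticFunction.cardFactors n)) ∧
        (∑ n ∈ Icc 1 M, ψ j (ArithmeticFunction.cardFactors n)) -
        (∑ n ∈ Icc 1 M', ψ j (ArithmeticFunction.cardFactors n)) ≤ (M : ℝ) - M' := by
      clear h1
      induction M, h2 using Nat.le_induction with
      | base => simp
      | succ M hM ih =>
        rw [Finset.sum_Icc_succ_top (by omega)]
        have := hψ j (ArithmeticFunction.cardFactors (M + 1))
        push_cast
        constructor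
        · linarith [ih.1, this.1]
        · linarith [ih.2, this.2]
    simp only [Mn]
    set S := ∑ n ∈ Icc 1 M, ψ j (ArithmeticFunction.cardFactors n) with hS
    set S' := ∑ n ∈ Icc 1 M', ψ j (ArithmeticFunction.cardFactors n) with hS'
    have hM' : (0 : ℝ) < M' := by exact_mod_cast (by omega : 0 < M')
    have hM : (0 : ℝ) < M := by exact_mod_cast (by omega : 0 < M)
    have hle : (M' : ℝ) ≤ M := by exact_mod_cast h2
    have hq : 0 ≤ S' / M' ∧ S' / M' ≤ 1 := by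
      constructor
      · exact div_nonneg hb.1 hM'.le
      · rw [div_le_one hM']; exact hb.2
    have e : 1 / (M : ℝ) * S - 1 / (M' : ℝ) * S' =
        ((S - S') - (S' / M') * ((M : ℝ) - M')) / M := by
      field_simp
      ring
    rw [e, abs_div, abs_of_pos hM]
    apply div_le_div_of_nonneg_right _ hM.le
    have h3 : 0 ≤ (S' / M') * ((M : ℝ) - M') := mul_nonneg hq.1 (by linarith)
    have h4 : (S' / M') * ((M : ℝ) - M') ≤ (M : ℝ) - M' := by
      have := mul_le_mul_of_nonneg_right hq.2 (by linarith : (0 : ℝ) ≤ (M : ℝ) - M')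
      linarith
    rw [abs_le]
    constructor <;> linarith [hi.1, hi.2]

theorem mn_div (e : ℕ) (ε : ℝ) (hε : 0 < ε) : ∃ M0 : ℕ, ∀ M : ℕ, M0 ≤ M → ∀ ψ : ℕ → ℝ,
    (∀ x, 0 ≤ ψ x ∧ ψ x ≤ 1) → |Mn (M / 2 ^ e) ψ - Mn M ψ| ≤ ε := by
  obtain ⟨x0, hx⟩ := MRP.lawx ε hε (2 ^ e) Nat.one_le_two_pow
  refine ⟨x0, fun M hM ψ hψ => ?_⟩
  have h1 := (hx M hM ψ (fun x => abs_le.2 ⟨by linarith [(hψ x).1], (hψ x).2⟩)).2
  rw [MRP.mx_eq, MRP.mx_eq] at h1
  exact h1

end DG
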