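import Pool.Agent.Helper6.DG.N1Chain
import Pool.Agent.Helper6.DG.N3Ind
import Pool.Agent.Helper6.DG.N10Small

/-!
# DG-N11: removal of a slowly varying function at an arbitrary position in the limit system

PROOF. `m j M = Mn M (ψ j)`, `ψ j = f j i₀`, `f1 j = set1 (f j) i₀`. Fix `D ≥ 1` and `ε > 0`; `V` from
`exists_goodU`. `CM j M = c j M * m j M` is slowly varying with constant `B + 2`. By `hSm` for the system
`app w` and `g = gfun ψ m` choose `N`; `q = N!`. `chain_gen01` for `(f, c, B)` and for `(f1, CM, B + 2)`.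
For every product `P = p p'` the difference of the two correlations is `E[cor (app w) k G P]` up to `ε`,
where `G i₀ = g` and the weight is put into the function with index `i₁ ≠ i₀`.
-/

set_option autoImplicit false

namespace DG

open Finset Filter Topology

private theorem n11_avP {P : Finset ℕ} {f g : ℕ → ℂ} {B : ℝ} (hB : 0 ≤ B)
    (h : ∀ p ∈ P, ‖f p - g p‖ ≤ B) : ‖avP P f - avP P g‖ ≤ B := by
  unfold avP
  rw [← mul_sub, ← Finset.sum_sub_distrib, norm_mul, norm_div, norm_one, Complex.norm_natCast]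
  rcases P.eq_empty_or_nonempty with rfl | hP
  · simpa using hB
  · have hc : (0 : ℝ) < P.card := by exact_mod_cast hP.card_pos
    have h1 : ‖∑ p ∈ P, (f p - g p)‖ ≤ P.card * B := by
      refine (norm_sum_le_of_le P h).trans ?_
      rw [Finset.sum_const, nsmul_eq_mul]
    calc 1 / (P.card : ℝ) * ‖∑ p ∈ P, (f p - g p)‖ ≤ 1 / (P.card : ℝ) * (P.card * B) := by
          gcongr
      _ = B := by field_simp

private theorem n11_avP_sub (P : Finset ℕ) (f g : ℕ → ℂ) :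
    avP P f - avP P g = avP P (fun p => f p - g p) := by
  unfold avP
  rw [← mul_sub, ← Finset.sum_sub_distrib]

private theorem n11_Mn01 (M : ℕ) (ψ : ℕ → ℝ) (hψ : ∀ x, 0 ≤ ψ x ∧ ψ x ≤ 1) :
    0 ≤ Mn M ψ ∧ Mn M ψ ≤ 1 := by
  unfold Mn
  refine ⟨mul_nonneg (by positivity) (Finset.sum_nonneg fun n _ => (hψ _).1), ?_⟩
  have h1 : ∑ n ∈ Icc 1 M, ψ (ArithmeticFunction.cardFactors n) ≤ M := by
    refine (Finset.sum_le_sum fun n _ => (hψ _).2).trans ?_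
    simp
  rcases Nat.eq_zero_or_pos M with rfl | hM
  · simp
  · have hM0 : (0 : ℝ) < M := by exact_mod_cast hM
    rw [one_div, inv_mul_le_iff₀ hM0, mul_one]
    exact h1

private theorem n11_set1 (g : ℕ → ℕ → ℝ) (hg : ∀ i x, 0 ≤ g i x ∧ g i x ≤ 1) (i₀ : ℕ) (i x : ℕ) :
    0 ≤ set1 g i₀ i x ∧ set1 g i₀ i x ≤ 1 := by
  unfold set1
  split_ifs
  · constructor <;> norm_num
  · exact hg i x

private theorem n11_slow (ψ : ℕ → ℕ → ℝ) (hψ : ∀ j x, 0 ≤ ψ j x ∧ ψ j x ≤ 1) (B : ℝ)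
    (c : ℕ → ℕ → ℝ) (hc : SlowW B c) : SlowW (B + 2) (fun j M => c j M * Mn M (ψ j)) := by
  have hm := mn_slow ψ hψ
  have hm0 : ∀ j M, 0 ≤ Mn M (ψ j) ∧ Mn M (ψ j) ≤ 1 := fun j M => n11_Mn01 M (ψ j) (hψ j)
  refine ⟨fun j M => ?_, fun j M M' h1 h2 => ?_⟩
  · show |c j M * Mn M (ψ j)| ≤ 1
    rw [abs_mul, abs_of_nonneg (hm0 j M).1]
    exact mul_le_one₀ (hc.1 j M) (hm0 j M).1 (hm0 j M).2
  · show |c j M * Mn M (ψ j) - c j M' * Mn M' (ψ j)| ≤ _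
    have e : c j M * Mn M (ψ j) - c j M' * Mn M' (ψ j) =
        (c j M - c j M') * Mn M (ψ j) + c j M' * (Mn M (ψ j) - Mn M' (ψ j)) := by ring
    rw [e]
    refine (abs_add_le _ _).trans ?_
    rw [abs_mul, abs_mul, abs_of_nonneg (hm0 j M).1]
    have a1 : |c j M - c j M'| * Mn M (ψ j) ≤ |c j M - c j M'| :=
      mul_le_of_le_one_right (abs_nonneg _) (hm0 j M).2
    have a2 : |c j M'| * |Mn M (ψ j) - Mn M' (ψ j)| ≤ |Mn M (ψ j) - Mn M' (ψ j)| :=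
      mul_le_of_le_one_left (abs_nonneg _) (hc.1 j M')
    have a3 := hc.2 j M M' h1 h2
    have a4 : |Mn M (ψ j) - Mn M' (ψ j)| ≤ 2 * ((M : ℝ) - M') / M := hm.2 j M M' h1 h2
    have a5 : (B + 2) * ((M : ℝ) - M') / M = B * ((M : ℝ) - M') / M + 2 * ((M : ℝ) - M') / M := by
      ring
    rw [a5]
    linarith

/-- the functions of the correlation -/
private noncomputable def n11G (f : ℕ → ℕ → ℕ → ℝ) (c : ℕ → ℕ → ℝ) (e i₀ i₁ : ℕ) (i : ℕ)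
    (s : ℕ × ℕ × ℤ) : ℂ :=
  if i = i₀ then gfun (fun j => f j i₀) (fun j M => Mn M (f j i₀)) s
  else if i = i₁ then wtc c e s * ((f s.1 i (OmZ s.2.2) : ℝ) : ℂ)
  else ((f s.1 i (OmZ s.2.2) : ℝ) : ℂ)

/-- the product without the index `i₀` -/
private noncomputable def n11P (f : ℕ → ℕ → ℕ → ℝ) (k i₀ : ℕ) (a : ℤ) (s : ℕ × ℕ × ℤ) : ℂ :=
  ∏ i ∈ (range (k + 1)).erase i₀, ((f s.1 i (OmZ (s.2.2 + (i : ℤ) * a)) : ℝ) : ℂ)

private theorem n11_patf (f : ℕ → ℕ → ℕ → ℝ) (k i₀ : ℕ) (hi : i₀ ≤ k) (a : ℤ) (s : ℕ × ℕ × ℤ) :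
    patf f 0 k a s = ((f s.1 i₀ (OmZ (s.2.2 + (i₀ : ℤ) * a)) : ℝ) : ℂ) * n11P f k i₀ a s := by
  unfold patf n11P
  simp only [add_zero]
  exact (Finset.mul_prod_erase _ _ (Finset.mem_range.2 (by omega))).symm

private theorem n11_patf1 (f : ℕ → ℕ → ℕ → ℝ) (k i₀ : ℕ) (hi : i₀ ≤ k) (a : ℤ)
    (s : ℕ × ℕ × ℤ) : patf (fun j => set1 (f j) i₀) 0 k a s = n11P f k i₀ a s := by
  have h1 : set1 (f s.1) i₀ i₀ (OmZ (s.2.2 + (i₀ : ℤ) * a)) = 1 := if_pos rfl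
  rw [n11_patf _ k i₀ hi, h1, Complex.ofReal_one, one_mul]
  unfold n11P
  refine Finset.prod_congr rfl fun i hi => ?_
  have h2 : set1 (f s.1) i₀ i (OmZ (s.2.2 + (i : ℤ) * a)) =
      f s.1 i (OmZ (s.2.2 + (i : ℤ) * a)) := if_neg (Finset.ne_of_mem_erase hi)
  exact congrArg (fun x : ℝ => (x : ℂ)) h2

private theorem n11_cor (w : Win) (f : ℕ → ℕ → ℕ → ℝ) (c : ℕ → ℕ → ℝ) (e k i₀ i₁ : ℕ)
    (hi : i₀ ≤ k) (hi1 : i₁ ≤ k) (hne : i₁ ≠ i₀) (a : ℤ) (s : ℕ × ℕ × ℤ) :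
    cor (app w) k (n11G f c e i₀ i₁) a s = wtc c e s * n11P f k i₀ a s *
      ((f s.1 i₀ (OmZ (s.2.2 + (i₀ : ℤ) * a)) - Mn s.2.1 (f s.1 i₀) : ℝ) : ℂ) := by
  obtain ⟨j, M, n⟩ := s
  have h1 : cor (app w) k (n11G f c e i₀ i₁) a (j, M, n) =
      ∏ i ∈ range (k + 1), n11G f c e i₀ i₁ i (j, M, n + (i : ℤ) * a) := by
    unfold cor
    refine Finset.prod_congr rfl fun i _ => ?_
    exact congrArg _ (shT_zpow ((i : ℤ) * a) j M n)
  rw [h1, ← Finset.mul_prod_erase _ _ (Finset.mem_range.2 (show i₀ < k + 1 by omega))]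
  have hm : i₁ ∈ (range (k + 1)).erase i₀ :=
    Finset.mem_erase.2 ⟨hne, Finset.mem_range.2 (by omega)⟩
  rw [← Finset.mul_prod_erase _ _ hm]
  have h2 : n11P f k i₀ a (j, M, n) = ((f j i₁ (OmZ (n + (i₁ : ℤ) * a)) : ℝ) : ℂ) *
      ∏ i ∈ ((range (k + 1)).erase i₀).erase i₁, ((f j i (OmZ (n + (i : ℤ) * a)) : ℝ) : ℂ) := by
    unfold n11P
    rw [← Finset.mul_prod_erase _ _ hm]
  have h3 : ∏ i ∈ ((range (k + 1)).erase i₀).erase i₁,
      n11G f c e i₀ i₁ i (j, M, n + (i : ℤ) * a) =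
      ∏ i ∈ ((range (k + 1)).erase i₀).erase i₁, ((f j i (OmZ (n + (i : ℤ) * a)) : ℝ) : ℂ) := by
    refine Finset.prod_congr rfl fun i hi => ?_
    have hi1 := Finset.ne_of_mem_erase hi
    have hi2 := Finset.ne_of_mem_erase (Finset.mem_of_mem_erase hi)
    unfold n11G
    rw [if_neg hi2, if_neg hi1]
  rw [h2, h3]
  unfold n11G gfun wtc
  rw [if_pos rfl, if_neg hne, if_pos rfl]
  ring

private theorem n11_diff (w : Win) (k i₀ i₁ : ℕ) (hi : i₀ ≤ k) (hi1 : i₁ ≤ k) (hne : i₁ ≠ i₀)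
    (f : ℕ → ℕ → ℕ → ℝ) (hf : ∀ j i x, 0 ≤ f j i x ∧ f j i x ≤ 1)
    (B : ℝ) (c : ℕ → ℕ → ℝ) (hc : SlowW B c) (e : ℕ) (a : ℤ) (ε : ℝ) (hε : 0 < ε) :
    ‖((appμ w).E (fun s => wtc c e s * patf f 0 k a s) -
      (appμ w).E (fun s => wtc (fun j M => c j M * Mn M (f j i₀)) e s *
        patf (fun j => set1 (f j) i₀) 0 k a s)) -
      (app w).μ.E (cor (app w) k (n11G f c e i₀ i₁) a)‖ ≤ ε := by
  obtain ⟨M0, hM0⟩ := mn_div e ε hε
  have hm0 : ∀ j M, 0 ≤ Mn M (f j i₀) ∧ Mn M (f j i₀) ≤ 1 := fun j M =>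
    n11_Mn01 M (f j i₀) (hf j i₀)
  have hwc : ∀ s, ‖wtc c e s‖ ≤ 1 := fun s => by
    unfold wtc
    rw [Complex.norm_real]
    exact hc.1 _ _
  have hP : ∀ s : ℕ × ℕ × ℤ, ‖n11P f k i₀ a s‖ ≤ 1 := fun s => by
    unfold n11P
    refine prod_norm_le_one _ _ fun i _ => ?_
    rw [Complex.norm_real, Real.norm_of_nonneg (hf _ _ _).1]
    exact (hf _ _ _).2
  have hcf : ∀ s : ℕ × ℕ × ℤ, ‖wtc c e s * n11P f k i₀ a s‖ ≤ 1 := fun s => by
    rw [norm_mul]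
    exact mul_le_one₀ (hwc s) (norm_nonneg _) (hP s)
  have e0 : (app w).μ.E (cor (app w) k (n11G f c e i₀ i₁) a) =
      (appμ w).E (fun s => wtc c e s * n11P f k i₀ a s *
        ((f s.1 i₀ (OmZ (s.2.2 + (i₀ : ℤ) * a)) - Mn s.2.1 (f s.1 i₀) : ℝ) : ℂ)) :=
    congrArg (appμ w).E (funext fun s => n11_cor w f c e k i₀ i₁ hi hi1 hne a s)
  rw [e0, ← Mean.E_sub, ← Mean.E_sub]
  have e1 : (fun s => wtc c e s * patf f 0 k a s -
      wtc (fun j M => c j M * Mn M (f j i₀)) e s * patf (fun j => set1 (f j) i₀) 0 k a s -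
      wtc c e s * n11P f k i₀ a s *
        ((f s.1 i₀ (OmZ (s.2.2 + (i₀ : ℤ) * a)) - Mn s.2.1 (f s.1 i₀) : ℝ) : ℂ)) =
      fun s => ((wtc c e s * n11P f k i₀ a s) *
        ((Mn s.2.1 (f s.1 i₀) - Mn (s.2.1 / 2 ^ e) (f s.1 i₀) : ℝ) : ℂ)) * (((1 : ℝ)) : ℂ) := by
    funext s
    rw [n11_patf f k i₀ hi, n11_patf1 f k i₀ hi]
    unfold wtc
    push_cast
    ring
  rw [e1]
  have h2 := app_small w (fun s => (wtc c e s * n11P f k i₀ a s) *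
        ((Mn s.2.1 (f s.1 i₀) - Mn (s.2.1 / 2 ^ e) (f s.1 i₀) : ℝ) : ℂ)) (fun _ => 1) 1 1 ε M0
    (fun s => by
      rw [norm_mul]
      refine mul_le_one₀ (hcf s) (norm_nonneg _) ?_
      rw [Complex.norm_real, Real.norm_eq_abs, abs_le]
      have a1 := hm0 s.1 s.2.1
      have a2 := hm0 s.1 (s.2.1 / 2 ^ e)
      constructor <;> linarith [a1.1, a1.2, a2.1, a2.2])
    (fun _ => zero_le_one) (fun _ => le_rfl) hε.le
    (fun s hs => by
      rw [norm_mul, ← one_mul ε]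
      refine mul_le_mul (hcf s) ?_ (norm_nonneg _) zero_le_one
      rw [Complex.norm_real, Real.norm_eq_abs, abs_sub_comm]
      exact hM0 s.2.1 hs (f s.1 i₀) (hf s.1 i₀))
  refine h2.trans (le_of_eq ?_)
  rw [Mean.R_const, mul_one]

private theorem n11_close (hPR : PR) (hEnt : Ent) (w : Win)
    (k : ℕ) (hk : 1 ≤ k) (i₀ : ℕ) (hi : i₀ ≤ k) (hSm : SmallAt k i₀)
    (f : ℕ → ℕ → ℕ → ℝ) (hf : ∀ j i x, 0 ≤ f j i x ∧ f j i x ≤ 1)
    (δ : ℕ → ℝ) (hδ : Tendsto δ atTop (𝓝 0)) (hs : ∀ j x, |f j i₀ (x + 1) - f j i₀ x| ≤ δ j)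
    (B : ℝ) (hB : 0 ≤ B) (c : ℕ → ℕ → ℝ) (hc : SlowW B c) (D : ℕ) (hD : 1 ≤ D) (ε : ℝ)
    (hε : 0 < ε) :
    ‖(appμ w).E (fun s => wtc c 0 s * patf f 2 k 1 s) -
      (appμ w).E (fun s => wtc (fun j M => c j M * Mn M (f j i₀)) 0 s *
        patf (fun j => set1 (f j) i₀) 2 k 1 s)‖ ≤ (4 * B + 8) / D + 4 * ε := by
  obtain ⟨V, hV⟩ := exists_goodU
  have hVt := goodU_le hV
  have hψ : ∀ j x, 0 ≤ f j i₀ x ∧ f j i₀ x ≤ 1 := fun j x => hf j i₀ x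
  have hm0 : ∀ j M, 0 ≤ Mn M (f j i₀) ∧ Mn M (f j i₀) ≤ 1 := fun j M =>
    n11_Mn01 M (f j i₀) (hf j i₀)
  obtain ⟨i₁, hi1, hne⟩ : ∃ i₁ : ℕ, i₁ ≤ k ∧ i₁ ≠ i₀ := by
    rcases Nat.eq_zero_or_pos i₀ with h0 | h0
    · exact ⟨1, hk, by omega⟩
    · exact ⟨0, by omega, by omega⟩
  have hg1 : ∀ s : ℕ × ℕ × ℤ, ‖gfun (fun j => f j i₀) (fun j M => Mn M (f j i₀)) s‖ ≤ 1 := by
    intro s
    unfold gfun
    rw [Complex.norm_real, Real.norm_eq_abs, abs_le]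
    have a1 := hψ s.1 (OmZ s.2.2)
    have a2 := hm0 s.1 s.2.1
    constructor <;> linarith [a1.1, a1.2, a2.1, a2.2]
  have hsm := hSm D hD ε hε (app w) (gfun (fun j => f j i₀) (fun j M => Mn M (f j i₀))) hg1
    (fun s => by unfold gfun; exact Complex.conj_ofReal _)
    (cen_app w (fun j => f j i₀) hψ δ hδ hs)
  obtain ⟨N, hN⟩ := hsm.exists
  have hq : 1 ≤ N.factorial := Nat.factorial_pos N
  have hpow : Tendsto (fun i : ℕ => 2 ^ i) (V : Filter ℕ) atTop :=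
    (tendsto_pow_atTop_atTop_of_one_lt (by norm_num : (1 : ℕ) < 2)).mono_left hVt
  have hN2 := hpow.eventually hN
  have c1 := chain_gen01 hPR hEnt V hV w f hf B hB c hc k D N.factorial hD hq ε hε
  have c2 := chain_gen01 hPR hEnt V hV w (fun j => set1 (f j) i₀)
    (fun j => n11_set1 (f j) (hf j) i₀) (B + 2) (by linarith)
    (fun j M => c j M * Mn M (f j i₀)) (n11_slow (fun j => f j i₀) hψ B c hc) k D N.factorial hD hq
    ε hε
  obtain ⟨i, hi1', hi2, hi3⟩ := (hN2.and (c1.and c2)).exists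
  obtain ⟨l, hl1, hl2, hl3⟩ := ((hpow.eventually hi1').and (hi2.and hi3)).exists
  have hG : ∀ (r : ℕ) (s : ℕ × ℕ × ℤ), ‖n11G f c (i + l) i₀ i₁ r s‖ ≤ 1 := by
    intro r s
    have b1 : ‖((f s.1 r (OmZ s.2.2) : ℝ) : ℂ)‖ ≤ 1 := by
      rw [Complex.norm_real, Real.norm_of_nonneg (hf _ _ _).1]
      exact (hf _ _ _).2
    unfold n11G
    split_ifs
    · exact hg1 s
    · rw [norm_mul]
      refine mul_le_one₀ ?_ (norm_nonneg _) b1
      unfold wtc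
      rw [Complex.norm_real]
      exact hc.1 _ _
    · exact b1
  have hl4 := hl1 (n11G f c (i + l) i₀ i₁) hG (by
    funext s
    unfold n11G
    rw [if_pos rfl])
  set E2 := (appμ w).E (fun s => wtc c 0 s * patf f 2 k 1 s)
  set E3 := (appμ w).E (fun s => wtc (fun j M => c j M * Mn M (f j i₀)) 0 s *
        patf (fun j => set1 (f j) i₀) 2 k 1 s)
  set a2 := avP (PW D N.factorial (2 ^ i)) (fun p => avP (PW D N.factorial (2 ^ l)) (fun p' =>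
          (appμ w).E (fun s => wtc c (i + l) s * patf f 0 k ((p * p' : ℕ) : ℤ) s))) with ha2
  set a3 := avP (PW D N.factorial (2 ^ i)) (fun p => avP (PW D N.factorial (2 ^ l)) (fun p' =>
          (appμ w).E (fun s => wtc (fun j M => c j M * Mn M (f j i₀)) (i + l) s *
            patf (fun j => set1 (f j) i₀) 0 k ((p * p' : ℕ) : ℤ) s))) with ha3
  set a4 := avP (PW D N.factorial (2 ^ i)) (fun p => avP (PW D N.factorial (2 ^ l)) (fun p' =>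
          (app w).μ.E (cor (app w) k (n11G f c (i + l) i₀ i₁) ((p * p' : ℕ) : ℤ)))) with ha4
  have h5 : ‖(a2 - a3) - a4‖ ≤ ε := by
    have e1 : a2 - a3 = avP (PW D N.factorial (2 ^ i)) (fun p =>
        avP (PW D N.factorial (2 ^ l)) (fun p' =>
          (appμ w).E (fun s => wtc c (i + l) s * patf f 0 k ((p * p' : ℕ) : ℤ) s) -
          (appμ w).E (fun s => wtc (fun j M => c j M * Mn M (f j i₀)) (i + l) s *
            patf (fun j => set1 (f j) i₀) 0 k ((p * p' : ℕ) : ℤ) s))) := by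
      rw [ha2, ha3, n11_avP_sub]
      congr 1
      funext p
      rw [n11_avP_sub]
    rw [e1, ha4]
    refine n11_avP hε.le fun p _ => n11_avP hε.le fun p' _ => ?_
    exact n11_diff w k i₀ i₁ hi hi1 hne f hf B c hc (i + l) ((p * p' : ℕ) : ℤ) ε hε
  have e : E2 - E3 = (E2 - a2) + ((a2 - a3) - a4) + a4 - (E3 - a3) := by ring
  rw [e]
  have t1 := norm_sub_le ((E2 - a2) + ((a2 - a3) - a4) + a4) (E3 - a3)
  have t2 := norm_add_le ((E2 - a2) + ((a2 - a3) - a4)) a4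
  have t3 := norm_add_le (E2 - a2) ((a2 - a3) - a4)
  have t4 : (4 * B + 8) / (D : ℝ) = 2 * (B + 1) / D + 2 * (B + 2 + 1) / D := by ring
  rw [t4]
  linarith

theorem lim_pos (hPR : PR) (hEnt : Ent) (w : Win)
    (k : ℕ) (hk : 1 ≤ k) (i₀ : ℕ) (hi : i₀ ≤ k) (hSm : SmallAt k i₀)
    (f : ℕ → ℕ → ℕ → ℝ) (hf : ∀ j i x, 0 ≤ f j i x ∧ f j i x ≤ 1)
    (δ : ℕ → ℝ) (hδ : Tendsto δ atTop (𝓝 0)) (hs : ∀ j x, |f j i₀ (x + 1) - f j i₀ x| ≤ δ j)
    (B : ℝ) (hB : 0 ≤ B) (c : ℕ → ℕ → ℝ) (hc : SlowW B c) :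
    (appμ w).E (fun s => wtc c 0 s * patf f 2 k 1 s) =
      (appμ w).E (fun s => wtc (fun j M => c j M * Mn M (f j i₀)) 0 s *
        patf (fun j => set1 (f j) i₀) 2 k 1 s) := by
  by_contra hne
  have hδ' : 0 < ‖(appμ w).E (fun s => wtc c 0 s * patf f 2 k 1 s) -
      (appμ w).E (fun s => wtc (fun j M => c j M * Mn M (f j i₀)) 0 s *
        patf (fun j => set1 (f j) i₀) 2 k 1 s)‖ := norm_pos_iff.2 (sub_ne_zero.2 hne)
  set η := ‖(appμ w).E (fun s => wtc c 0 s * patf f 2 k 1 s) -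
      (appμ w).E (fun s => wtc (fun j M => c j M * Mn M (f j i₀)) 0 s *
        patf (fun j => set1 (f j) i₀) 2 k 1 s)‖ with hηd
  obtain ⟨D, hD⟩ := exists_nat_gt (4 * (4 * B + 8) / η)
  have hD0 : (0 : ℝ) < D := lt_trans (by positivity) hD
  have hD1 : 1 ≤ D := by
    have : 0 < D := by exact_mod_cast hD0
    omega
  have h2 := n11_close hPR hEnt w k hk i₀ hi hSm f hf δ hδ hs B hB c hc D hD1 (η / 16)
    (by positivity)
  rw [← hηd] at h2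
  have h3 : (4 * B + 8) / (D : ℝ) < η / 4 := by
    rw [div_lt_iff₀ hδ'] at hD
    rw [div_lt_iff₀ hD0]
    linarith
  linarith

end DG
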