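import Pool.Agent.Helper6.DG.N5End
import Pool.Agent.Helper6.DG.N11Pos

/-!
# DG-N12: `EndSt` at every position
-/

set_option autoImplicit false

namespace DG

open Finset Filter Topology

theorem n12_lim (hPR : PR) (hEnt : Ent) (w : Win)
    (k : ℕ) (hk : 1 ≤ k) (i₀ : ℕ) (hi : i₀ ≤ k) (hSm : SmallAt k i₀)
    (f : ℕ → ℕ → ℕ → ℝ) (hf : ∀ j i x, 0 ≤ f j i x ∧ f j i x ≤ 1)
    (δ : ℕ → ℝ) (hδ0 : ∀ j, 0 ≤ δ j) (hδ : Tendsto δ atTop (𝓝 0))
    (hs : ∀ j x, |f j i₀ (x + 1) - f j i₀ x| ≤ δ j) :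
    Tendsto (fun j => (∑ M ∈ Ioc (w.a j) (w.b j), (1 / (M : ℝ)) * n5R f k i₀ j M ^ 2) /
      ∑ M ∈ Ioc (w.a j) (w.b j), 1 / (M : ℝ)) (hyperfilter ℕ : Filter ℕ) (𝓝 0) := by
  have hsl := n5R_slow f hf k i₀
  have hc : Bd (wtc (n5R f k i₀) 0) := by
    refine ⟨1, fun s => ?_⟩
    unfold wtc
    rw [Complex.norm_real]
    exact hsl.1 _ _
  have hc2 : Bd (wtc (fun j M => n5R f k i₀ j M * Mn M (n5f f j i₀)) 0) := by
    refine ⟨1, fun s => ?_⟩
    unfold wtc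
    rw [Complex.norm_real, norm_mul]
    have h3 := n5_Mn01 (s.2.1 / 2 ^ 0) (n5f f s.1 i₀) (n5f_01 f hf s.1 i₀)
    have h4 : ‖n5R f k i₀ s.1 (s.2.1 / 2 ^ 0)‖ ≤ 1 := hsl.1 _ _
    refine mul_le_one₀ h4 (norm_nonneg _) ?_
    rw [Real.norm_of_nonneg h3.1]
    exact h3.2
  have h2 : Bd (fun s => wtc (n5R f k i₀) 0 s * patf (n5f f) 2 k 1 s) :=
    hc.mul ⟨1, fun s => n5_patf_le (n5f f) (n5f_01 f hf) 2 k 1 s⟩
  have h3 : Bd (fun s => wtc (fun j M => n5R f k i₀ j M * Mn M (n5f f j i₀)) 0 s *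
        patf (fun j => set1 (n5f f j) i₀) 2 k 1 s) :=
    hc2.mul ⟨1, fun s => n5_patf_le (fun j => set1 (n5f f j) i₀)
      (fun j => n5_set1 (n5f f j) (n5f_01 f hf j) i₀) 2 k 1 s⟩
  have h4 := app_tendsto w _ (h2.sub h3)
  rw [Mean.E_sub, lim_pos hPR hEnt w k hk i₀ hi hSm (n5f f) (n5f_01 f hf) δ hδ
    (fun j x => n5f_slow f j i₀ (δ j) (hδ0 j) (hs j) x) 6 (by norm_num) (n5R f k i₀) hsl,
    sub_self] at h4
  have h5 := (Complex.continuous_re.tendsto 0).comp h4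
  rw [Complex.zero_re] at h5
  refine h5.congr fun j => ?_
  simp only [Function.comp_apply]
  rw [n5_wmean w f k i₀ j, Complex.ofReal_re]

theorem endStAll (hBL : ∀ k, 1 ≤ k → BL k) (hSVT : ∀ k, SVT k) (hPR : PR) (hEnt : Ent)
    (k : ℕ) (hk : 1 ≤ k) (i₀ : ℕ) (hi : i₀ ≤ k) : EndSt k i₀ := by
  have hSm := smallAt hSVT hBL hPR k i₀ hk hi
  intro ε hε
  by_contra hcon
  push Not at hcon
  choose N K hN hK hKN f hf hs hB using fun j : ℕ =>
    hcon (1 / ((j : ℝ) + 1)) (by positivity) (j + 3) (j + 3)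
  have hK1 : ∀ j, 1 ≤ K j := fun j => by have := hK j; omega
  let w : Win :=
    { a := fun j => N j / K j
      b := N
      lt := fun j => Nat.div_lt_self (by have := hN j; omega) (by have := hK j; omega)
      div := by
        refine tendsto_atTop_mono (fun j => n5_le_mass (N j) (K j) (hK1 j) (hKN j)) ?_
        have h1 : Tendsto (fun j : ℕ => Real.log ((j : ℝ) + 3) - 1) atTop atTop := by
          refine tendsto_atTop_add_const_right _ _ ?_
          exact Real.tendsto_log_atTop.comp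
            (tendsto_atTop_add_const_right _ _ tendsto_natCast_atTop_atTop)
        refine tendsto_atTop_mono (fun j => ?_) h1
        have h2 : Real.log ((j : ℝ) + 3) ≤ Real.log (K j) := by
          refine Real.log_le_log (by positivity) ?_
          exact_mod_cast hK j
        linarith }
  have hδ : Tendsto (fun j : ℕ => 1 / ((j : ℝ) + 1)) atTop (𝓝 0) :=
    tendsto_one_div_add_atTop_nhds_zero_nat
  have hlim := n12_lim hPR hEnt w k hk i₀ hi hSm f hf (fun j => 1 / ((j : ℝ) + 1))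
    (fun j => by positivity) hδ hs
  have hev := (hlim.eventually (gt_mem_nhds (show (0 : ℝ) < (ε / 4) ^ 2 by positivity)))
  have hev2 : ∀ᶠ j : ℕ in (hyperfilter ℕ : Filter ℕ), 1 / ((j : ℝ) + 1) < ε / 8 :=
    (hδ.eventually (gt_mem_nhds (show (0 : ℝ) < ε / 8 by positivity))).filter_mono
      Nat.hyperfilter_le_atTop
  obtain ⟨j, hj, hj2⟩ := (hev.and hev2).exists
  have hm : 0 < ∑ M ∈ Ioc (w.a j) (w.b j), 1 / (M : ℝ) := mass_pos (w.lt j)
  have hBj := hB j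
  have hx : ∑ M ∈ Ioc (N j / K j) (N j), (1 / (M : ℝ)) *
      |Pr k M (f j) - Mn M (f j i₀) * Pr k M (set1 (f j) i₀)| ≤
      ∑ M ∈ Ioc (w.a j) (w.b j), (1 / (M : ℝ)) * |n5R f k i₀ j M| +
        2 * (1 / ((j : ℝ) + 1)) * ∑ M ∈ Ioc (w.a j) (w.b j), 1 / (M : ℝ) := by
    rw [Finset.mul_sum, ← Finset.sum_add_distrib]
    refine Finset.sum_le_sum fun M hM => ?_
    have hM0 : (0 : ℝ) ≤ 1 / (M : ℝ) := by positivity
    have h1 : |Pr k M (f j) - Mn M (f j i₀) * Pr k M (set1 (f j) i₀)| ≤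
        |n5R f k i₀ j M| + 2 * (1 / ((j : ℝ) + 1)) := by
      have h2 := n5_Pr01 k M (set1 (f j) i₀) (n5_set1 (f j) (hf j) i₀)
      have h3 : |Mn M (n5f f j i₀) - Mn M (f j i₀)| ≤ 2 * (1 / ((j : ℝ) + 1)) := by
        unfold Mn
        rw [← mul_sub, ← Finset.sum_sub_distrib, abs_mul, abs_of_nonneg hM0]
        have h4 : |∑ n ∈ Icc 1 M, (n5f f j i₀ (ArithmeticFunction.cardFactors n) -
            f j i₀ (ArithmeticFunction.cardFactors n))| ≤ M * (2 * (1 / ((j : ℝ) + 1))) := by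
          refine (Finset.abs_sum_le_sum_abs _ _).trans ?_
          refine (Finset.sum_le_sum fun n _ =>
            n5f_close f j i₀ (1 / ((j : ℝ) + 1)) (by positivity) (hs j) _).trans ?_
          simp
        have hM1 : (0 : ℝ) < M := by
          have h6 : 0 < M := lt_of_le_of_lt (Nat.zero_le _) (Finset.mem_Ioc.1 hM).1
          exact_mod_cast h6
        calc 1 / (M : ℝ) * |∑ n ∈ Icc 1 M, (n5f f j i₀ (ArithmeticFunction.cardFactors n) -
            f j i₀ (ArithmeticFunction.cardFactors n))|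
            ≤ 1 / (M : ℝ) * (M * (2 * (1 / ((j : ℝ) + 1)))) :=
              mul_le_mul_of_nonneg_left h4 hM0
          _ = 2 * (1 / ((j : ℝ) + 1)) := by field_simp
      have h5 : Pr k M (f j) - Mn M (f j i₀) * Pr k M (set1 (f j) i₀) = n5R f k i₀ j M +
          (Mn M (n5f f j i₀) - Mn M (f j i₀)) * Pr k M (set1 (f j) i₀) := by
        unfold n5R
        ring
      rw [h5]
      refine (abs_add_le _ _).trans ?_
      rw [abs_mul, abs_of_nonneg h2.1]
      have h6 : |Mn M (n5f f j i₀) - Mn M (f j i₀)| * Pr k M (set1 (f j) i₀) ≤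
          |Mn M (n5f f j i₀) - Mn M (f j i₀)| := mul_le_of_le_one_right (abs_nonneg _) h2.2
      linarith
    calc (1 / (M : ℝ)) * |Pr k M (f j) - Mn M (f j i₀) * Pr k M (set1 (f j) i₀)|
        ≤ (1 / (M : ℝ)) * (|n5R f k i₀ j M| + 2 * (1 / ((j : ℝ) + 1))) :=
          mul_le_mul_of_nonneg_left h1 hM0
      _ = (1 / (M : ℝ)) * |n5R f k i₀ j M| + 2 * (1 / ((j : ℝ) + 1)) * (1 / (M : ℝ)) := by ring
  have hCS : (∑ M ∈ Ioc (w.a j) (w.b j), (1 / (M : ℝ)) * |n5R f k i₀ j M|) ^ 2 ≤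
      (∑ M ∈ Ioc (w.a j) (w.b j), 1 / (M : ℝ)) *
        ∑ M ∈ Ioc (w.a j) (w.b j), (1 / (M : ℝ)) * n5R f k i₀ j M ^ 2 := by
    refine Finset.sum_sq_le_sum_mul_sum_of_sq_le_mul _ (fun M _ => by positivity)
      (fun M _ => by positivity) (fun M _ => le_of_eq ?_)
    rw [mul_pow, sq_abs]
    ring
  have hlog3 : 1 ≤ Real.log (K j) := by
    have h1 : Real.exp 1 ≤ (K j : ℝ) := by
      have h2 : (3 : ℝ) ≤ K j := by
        have := hK j
        have h3 : 3 ≤ K j := by omega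
        exact_mod_cast h3
      have := Real.exp_one_lt_d9
      linarith
    rw [← Real.log_exp 1]
    exact Real.log_le_log (Real.exp_pos 1) h1
  have hmass : ∑ M ∈ Ioc (w.a j) (w.b j), 1 / (M : ℝ) ≤ 2 * Real.log (K j) := by
    have := n5_mass_le (N j) (K j) (hK1 j) (hKN j)
    show ∑ M ∈ Ioc (N j / K j) (N j), 1 / (M : ℝ) ≤ 2 * Real.log (K j)
    linarith
  set m := ∑ M ∈ Ioc (w.a j) (w.b j), 1 / (M : ℝ) with hmdef
  set x := ∑ M ∈ Ioc (w.a j) (w.b j), (1 / (M : ℝ)) * |n5R f k i₀ j M| with hxdef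
  set y := ∑ M ∈ Ioc (w.a j) (w.b j), (1 / (M : ℝ)) * n5R f k i₀ j M ^ 2 with hydef
  have h1 : ε / 4 * m < x := by
    have h2 : ε / 2 * m ≤ ε * Real.log (K j) := by
      have h3 : ε / 2 * m ≤ ε / 2 * (2 * Real.log (K j)) :=
        mul_le_mul_of_nonneg_left hmass (by positivity)
      linarith
    have h4 : 2 * (1 / ((j : ℝ) + 1)) * m ≤ ε / 4 * m :=
      mul_le_mul_of_nonneg_right (by linarith) hm.le
    linarith
  rw [div_lt_iff₀ hm] at hj
  have h2 : (ε / 4 * m) ^ 2 < x ^ 2 := by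
    apply pow_lt_pow_left₀ h1 (by positivity) (by norm_num)
  have h3 : m * y < m * ((ε / 4) ^ 2 * m) := mul_lt_mul_of_pos_left hj hm
  nlinarith

end DG
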