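import Pool.Agent.Helper6.DG.N6Set
import Pool.Agent.Helper47.DG.F

/-!
# DG-N7S: all functions, arbitrary set of full coordinates; two full coordinates

PROOF. `setSt` (`k ≥ 1` coordinates, `I` = full coordinates). Let `H ≥ 1` (large, depending on `ε`), `F` `δ`-slow outside `I` with
`δ ≤ ε / (8 k H)`. Smoothing: for `u ∈ ∏_{i ∉ I} {0..H-1}` (`u i = 0` for `i ∈ I`), `F^s l = mean over u of F (l + u)`;
`|F^s - F| ≤ k H δ ≤ ε/8`, so `Ec` and `MxS` of `F` and of `F^s` differ by `≤ ε/8`.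
Decompose `F = S + r` as in Helper47/DG/F.lean or Helper6/DG/F1Goal.lean (`regBox k δ₂` at the scale `N`: `S = ∑_j c j 1_{A j}`, at most `C` boxes; `r` small cut
norm; helper41's trick in F1Goal.lean: use the law averaged over shifts, so that `r` and its translates have small cut norm).
(i) `S^s = ∑_j c j ∏_i f_{j,i}(l i)`, `f_{j,i} = 1_{A j i}` for `i ∈ I` and `f_{j,i} x = (1/H) #{u < H | x + u ∈ A j i}` otherwise (`1/H`-slow): by `set_prod`
(with `k - 1`): `Ec k M (∏ f_{j,i}) = Pr (k-1) M f` and `MxS k I M (∏ f_{j,i}) = (∏_{i ∉ I} Mn M (f i)) * Pr (k-1) M (keepS I f)`; the window average of the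
difference is `≤ ε/(8(C+1)) log K` for each `j` if `1/H ≤ δ₁(ε, C)`; `C` depends on `δ₂` only, and `δ₂` on `ε` only.
(ii) `∑ (1/M) |Ec k M r^s|` is small: `r^s` is an average over `u` of translates of `r`, each has small cut norm, then `coreW k`.
(iii) `∑ (1/M) |MxS k I M r^s|` is small: `MxS k I M r^s = Ec k M R'`, `R'(l)` = `Ep`-mean of `r^s` over the coordinates outside `I` with `l` fixed in `I`; the cut
norm of `R'` is at most that of `r^s` (test functions of `R'` in coordinates outside `I` integrate to constants in `[-1,1]`); apply `coreW k` to `R'` (it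
may depend on `M`: `coreW` allows this). The scales with `log M < η log N` as in `F.lean`.
`twoSet`: `I = {a, b}`, hypothesis `hT` = two-point product statement for the shift `b - a`. Boxes: `set_prod` and `hT`:
`Pr (k-1) M (keepS {a,b} f) = E_{n≤M} f_a(Ω(n+a)) f_b(Ω(n+b)) ≈ Mn f_a * Mn f_b` (shift `n` by `a`: changes the mean by at most `2a/M`); `r^s`: `coreW` and the cut
norm with `f = 1` for `Ep k M`.
-/

set_option autoImplicit false

namespace DG

open Finset Filter Topology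

/-- `F` changes by at most `δ` when a coordinate outside `I` is increased by `1`. -/
def SlowOutS (k : ℕ) (I : Finset ℕ) (δ : ℝ) (F : (Fin k → ℕ) → ℝ) : Prop :=
  ∀ (l : Fin k → ℕ) (i : Fin k), i.1 ∉ I → |F (Function.update l i (l i + 1)) - F l| ≤ δ

/-- The mean in which the coordinates in `I` are `Ω(n + i)` with a common `n` and the other
coordinates are independent copies. -/
noncomputable def MxS (k : ℕ) (I : Finset ℕ) (M : ℕ) (F : (Fin k → ℕ) → ℝ) : ℝ :=
  1 / (M : ℝ) * ∑ n ∈ Icc 1 M, (1 / (M : ℝ) ^ k * ∑ m ∈ Fintype.piFinset (fun _ : Fin k => Icc 1 M),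
    F (fun i => if i.1 ∈ I then ArithmeticFunction.cardFactors (n + i)
      else ArithmeticFunction.cardFactors (m i)))

/-- Mean over independent copies. -/
noncomputable def EpD (k M : ℕ) (F : (Fin k → ℕ) → ℝ) : ℝ :=
  1 / (M : ℝ) ^ k * ∑ m ∈ Fintype.piFinset (fun _ : Fin k => Icc 1 M),
    F (fun i => ArithmeticFunction.cardFactors (m i))

/-- Two-point statement for the shift `h`, product functions, in windows. -/
def TwoPt (h : ℕ) : Prop := ∀ ε : ℝ, 0 < ε → ∃ K0 N0 : ℕ, ∀ N K : ℕ, N0 ≤ N → K0 ≤ K → K ≤ N →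
  ∀ f g : ℕ → ℝ, (∀ x, 0 ≤ f x ∧ f x ≤ 1) → (∀ x, 0 ≤ g x ∧ g x ≤ 1) →
    ∑ M ∈ Ioc (N / K) N, (1 / (M : ℝ)) *
      |(1 / (M : ℝ)) * ∑ n ∈ Icc 1 M, f (ArithmeticFunction.cardFactors n) *
        g (ArithmeticFunction.cardFactors (n + h)) - Mn M f * Mn M g| ≤ ε * Real.log K

section Aux

open Helper13.Om Helper11.QR

private lemma n7_ep_succ (k M : ℕ) (F : (Fin (k + 1) → ℕ) → ℝ) :
    Ep (k + 1) M F = 1 / (M : ℝ) * ∑ n ∈ Finset.Icc 1 M,
      Ep k M (fun ℓ => F (Fin.cons (ArithmeticFunction.cardFactors n) ℓ)) := by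
  classical
  unfold Ep
  have h1 : ∑ m ∈ Fintype.piFinset (fun _ : Fin (k + 1) => Finset.Icc 1 M),
        F (fun i => ArithmeticFunction.cardFactors (m i)) =
      ∑ z ∈ (Finset.Icc 1 M) ×ˢ Fintype.piFinset (fun _ : Fin k => Finset.Icc 1 M),
        F (Fin.cons (ArithmeticFunction.cardFactors z.1)
          (fun i => ArithmeticFunction.cardFactors (z.2 i))) := by
    refine Finset.sum_nbij' (fun ℓ => (ℓ 0, Fin.tail ℓ)) (fun z => Fin.cons z.1 z.2)
      ?_ ?_ ?_ ?_ ?_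
    · intro ℓ hℓ
      rw [Fintype.mem_piFinset] at hℓ
      rw [Finset.mem_product, Fintype.mem_piFinset]
      exact ⟨hℓ 0, fun i => hℓ i.succ⟩
    · intro z hz
      rw [Finset.mem_product, Fintype.mem_piFinset] at hz
      rw [Fintype.mem_piFinset]
      intro i
      refine Fin.cases ?_ (fun j => ?_) i
      · simpa using hz.1
      · simpa using hz.2 j
    · intro ℓ _
      simp
    · intro z _
      simp
    · intro ℓ _
      congr 1
      funext i
      refine Fin.cases ?_ (fun j => ?_) i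
      · simp
      · simp [Fin.tail]
  rw [h1, Finset.sum_product]
  simp only [Finset.mul_sum]
  refine Finset.sum_congr rfl fun n _ => Finset.sum_congr rfl fun m _ => ?_
  have e : 1 / ((M : ℝ) ^ (k + 1)) = 1 / (M : ℝ) * (1 / (M : ℝ) ^ k) := by
    rw [one_div_mul_one_div_rev, pow_succ]
  rw [e, mul_assoc]

private lemma n7_shiftv (M : ℕ) (hM : 1 ≤ M) (τ : ℝ) (k : ℕ) :
    ∀ v : Fin k → ℕ, (∀ i, ∀ b : ℕ → ℝ, (∀ m, |b m| ≤ 1) →
      |1 / (M : ℝ) * ∑ n ∈ Finset.Icc 1 M, b (ArithmeticFunction.cardFactors n + v i) -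
        1 / (M : ℝ) * ∑ n ∈ Finset.Icc 1 M, b (ArithmeticFunction.cardFactors n)| ≤ τ) →
    ∀ Ψ : (Fin k → ℕ) → ℝ, (∀ ℓ, |Ψ ℓ| ≤ 1) →
      |Ep k M (fun ℓ => Ψ (fun i => ℓ i + v i)) - Ep k M Ψ| ≤ k * τ := by
  have hM0 : (0 : ℝ) < M := by exact_mod_cast hM
  induction k with
  | zero =>
    intro v _ Ψ _
    have : (fun ℓ : Fin 0 → ℕ => Ψ (fun i => ℓ i + v i)) = Ψ := by
      funext l
      congr 1
      exact Subsingleton.elim _ _
    rw [this]
    simp
  | succ k ih =>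
    intro v hv Ψ hΨ
    rw [n7_ep_succ, n7_ep_succ]
    set b : ℕ → ℝ := fun t => Ep k M (fun ℓ => Ψ (Fin.cons t ℓ)) with hb
    have hb1 : ∀ t, |b t| ≤ 1 := fun t => Ep_abs_le_of k M _ hM (fun ℓ => hΨ _)
    have e1 : ∀ n : ℕ, (fun ℓ : Fin k → ℕ => Ψ (fun i =>
        (Fin.cons (ArithmeticFunction.cardFactors n) ℓ : Fin (k + 1) → ℕ) i + v i)) =
        fun ℓ : Fin k → ℕ => Ψ (Fin.cons (ArithmeticFunction.cardFactors n + v 0)
          (fun i => ℓ i + v i.succ)) := by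
      intro n
      funext ℓ
      congr 1
      funext i
      refine Fin.cases ?_ (fun j => ?_) i
      · simp
      · simp
    have h1 : |1 / (M : ℝ) * ∑ n ∈ Finset.Icc 1 M, Ep k M (fun ℓ : Fin k → ℕ => Ψ (fun i =>
        (Fin.cons (ArithmeticFunction.cardFactors n) ℓ : Fin (k + 1) → ℕ) i + v i)) -
        1 / (M : ℝ) * ∑ n ∈ Finset.Icc 1 M, b (ArithmeticFunction.cardFactors n + v 0)| ≤
        k * τ := by
      rw [← mul_sub, ← Finset.sum_sub_distrib, abs_mul, abs_of_pos (by positivity),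
        one_div_mul_eq_div, div_le_iff₀ hM0]
      refine (Finset.abs_sum_le_sum_abs _ _).trans ?_
      refine (Finset.sum_le_card_nsmul _ _ (k * τ) (fun n _ => ?_)).trans (le_of_eq ?_)
      · rw [e1 n]
        exact ih (fun i => v i.succ) (fun i => hv i.succ)
          (fun ℓ' => Ψ (Fin.cons (ArithmeticFunction.cardFactors n + v 0) ℓ')) (fun ℓ => hΨ _)
      · rw [Nat.card_Icc, Nat.add_sub_cancel, nsmul_eq_mul]
        ring
    have h2 := hv 0 b hb1
    have h3 := abs_sub_le (1 / (M : ℝ) * ∑ n ∈ Finset.Icc 1 M, Ep k M (fun ℓ : Fin k → ℕ =>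
        Ψ (fun i => (Fin.cons (ArithmeticFunction.cardFactors n) ℓ : Fin (k + 1) → ℕ) i + v i)))
        (1 / (M : ℝ) * ∑ n ∈ Finset.Icc 1 M, b (ArithmeticFunction.cardFactors n + v 0))
        (1 / (M : ℝ) * ∑ n ∈ Finset.Icc 1 M, b (ArithmeticFunction.cardFactors n))
    push_cast
    linarith

private lemma n7_law_mul (M : ℕ) (τ : ℝ) (h : ∀ b : ℕ → ℝ, (∀ m, |b m| ≤ 1) →
      |1 / (M : ℝ) * ∑ n ∈ Finset.Icc 1 M, b (ArithmeticFunction.cardFactors n + 1) -
        1 / (M : ℝ) * ∑ n ∈ Finset.Icc 1 M, b (ArithmeticFunction.cardFactors n)| ≤ τ) (u : ℕ) :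
    ∀ b : ℕ → ℝ, (∀ m, |b m| ≤ 1) →
      |1 / (M : ℝ) * ∑ n ∈ Finset.Icc 1 M, b (ArithmeticFunction.cardFactors n + u) -
        1 / (M : ℝ) * ∑ n ∈ Finset.Icc 1 M, b (ArithmeticFunction.cardFactors n)| ≤ u * τ := by
  induction u with
  | zero =>
    intro b _
    simp
  | succ u ih =>
    intro b hb
    have h1 := ih (fun m => b (m + 1)) (fun m => hb _)
    have h2 := h b hb
    have e1 : ∀ n : ℕ, b (ArithmeticFunction.cardFactors n + (u + 1)) =
        (fun m => b (m + 1)) (ArithmeticFunction.cardFactors n + u) := fun n => rfl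
    have h3 := abs_sub_le
      (1 / (M : ℝ) * ∑ n ∈ Finset.Icc 1 M, b (ArithmeticFunction.cardFactors n + (u + 1)))
      (1 / (M : ℝ) * ∑ n ∈ Finset.Icc 1 M, b (ArithmeticFunction.cardFactors n + 1))
      (1 / (M : ℝ) * ∑ n ∈ Finset.Icc 1 M, b (ArithmeticFunction.cardFactors n))
    simp only [e1] at h3 ⊢
    push_cast
    linarith

private lemma n7_law_shift (τ : ℝ) (hτ : 0 < τ) : ∃ x0 : ℕ, ∀ M : ℕ, x0 ≤ M →
    ∀ b : ℕ → ℝ, (∀ m, |b m| ≤ 1) →
      |1 / (M : ℝ) * ∑ n ∈ Finset.Icc 1 M, b (ArithmeticFunction.cardFactors n + 1) -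
        1 / (M : ℝ) * ∑ n ∈ Finset.Icc 1 M, b (ArithmeticFunction.cardFactors n)| ≤ τ := by
  obtain ⟨X2, h2⟩ := shiftInv_eventually τ hτ
  refine ⟨X2, fun x hx b hb => ?_⟩
  have hc := h2 x hx b hb
  rw [Bv_nat, Bv_nat] at hc
  rw [abs_sub_comm]
  exact hc

private lemma n7_small (N : ℕ) (hN : 1 ≤ N) (η : ℝ) (hη : 0 < η) :
    ∑ M ∈ (Finset.Icc 1 N).filter (fun M : ℕ => ¬ η * Real.log N ≤ Real.log M), (1 / (M : ℝ)) ≤
      1 + η * Real.log N := by
  have hlog : 0 ≤ Real.log N := Real.log_nonneg (by exact_mod_cast hN)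
  set y : ℝ := Real.exp (η * Real.log N) with hy
  have hy1 : 1 ≤ y := Real.one_le_exp (mul_nonneg hη.le hlog)
  have h1 := harmonic_floor_le_one_add_log y hy1
  rw [harmonic_eq_sum_Icc, Rat.cast_sum] at h1
  simp only [Rat.cast_inv, Rat.cast_natCast] at h1
  rw [hy, Real.log_exp] at h1
  simp only [one_div]
  refine le_trans ?_ h1
  apply Finset.sum_le_sum_of_subset_of_nonneg
  · intro M hM
    rw [Finset.mem_filter, Finset.mem_Icc, not_le] at hM
    rw [Finset.mem_Icc]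
    refine ⟨hM.1.1, Nat.le_floor ?_⟩
    have hM0 : (0 : ℝ) < M := by exact_mod_cast hM.1.1
    have := (Real.log_lt_iff_lt_exp hM0).1 hM.2
    exact this.le
  · intro M _ _
    positivity

/-- The shift vector: `u` outside `I`. -/
private def n7v (I : Finset ℕ) {k : ℕ} (u : Fin k → ℕ) (i : Fin k) : ℕ :=
  if i.1 ∈ I then 0 else u i

/-- Smoothing in the coordinates outside `I`. -/
private noncomputable def n7sm (I : Finset ℕ) (H : ℕ) {k : ℕ} (F : (Fin k → ℕ) → ℝ) (l : Fin k → ℕ) : ℝ :=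
  1 / (H : ℝ) ^ k * ∑ u ∈ Fintype.piFinset (fun _ : Fin k => range H),
    F (fun i => l i + n7v I u i)

private lemma n7_slow {k : ℕ} {I : Finset ℕ} {δ : ℝ} {F : (Fin k → ℕ) → ℝ} (hF : SlowOutS k I δ F)
    (s : ℕ) : ∀ v : Fin k → ℕ, (∑ i, v i = s) → (∀ i : Fin k, i.1 ∈ I → v i = 0) →
      ∀ l : Fin k → ℕ, |F (fun i => l i + v i) - F l| ≤ s * δ := by
  induction s with
  | zero =>
    intro v hs _ l
    have h0 : ∀ i, v i = 0 := fun i => (Finset.sum_eq_zero_iff.1 hs) i (Finset.mem_univ i)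
    simp [h0]
  | succ s ih =>
    intro v hs hv l
    obtain ⟨i, hi⟩ : ∃ i, v i ≠ 0 := by
      by_contra h
      push Not at h
      rw [Finset.sum_eq_zero (fun i _ => h i)] at hs
      omega
    have hout : i.1 ∉ I := fun h => hi (hv i h)
    set v' : Fin k → ℕ := Function.update v i (v i - 1) with hv'
    have hs' : ∑ j, v' j = s := by
      rw [hv', Finset.sum_update_of_mem (Finset.mem_univ i), Finset.sdiff_singleton_eq_erase]
      have h5 := Finset.add_sum_erase Finset.univ v (Finset.mem_univ i)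
      omega
    have hv0 : ∀ j : Fin k, j.1 ∈ I → v' j = 0 := by
      intro j hj
      have hji : j ≠ i := by
        rintro rfl
        exact hout hj
      rw [hv', Function.update_of_ne hji]
      exact hv j hj
    have h1 := ih v' hs' hv0 l
    have h2 := hF (fun j => l j + v' j) i hout
    have e : Function.update (fun j => l j + v' j) i (l i + v' i + 1) = fun j => l j + v j := by
      funext j
      by_cases hj : j = i
      · subst hj
        rw [Function.update_self, hv', Function.update_self]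
        omega
      · rw [Function.update_of_ne hj, hv', Function.update_of_ne hj]
    rw [e] at h2
    have h3 := abs_sub_le (F (fun j => l j + v j)) (F (fun j => l j + v' j)) (F l)
    push_cast
    linarith

private lemma n7_card (k H : ℕ) : ((Fintype.piFinset (fun _ : Fin k => range H)).card : ℝ) =
    (H : ℝ) ^ k := by
  rw [Fintype.card_piFinset]
  simp

private lemma n7_avg {k H : ℕ} (hH : 1 ≤ H) {g : (Fin k → ℕ) → ℝ} {B : ℝ}
    (hg : ∀ u ∈ Fintype.piFinset (fun _ : Fin k => range H), |g u| ≤ B) :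
    |1 / (H : ℝ) ^ k * ∑ u ∈ Fintype.piFinset (fun _ : Fin k => range H), g u| ≤ B := by
  have hH0 : (0 : ℝ) < H := by exact_mod_cast hH
  have hHk : (0 : ℝ) < (H : ℝ) ^ k := pow_pos hH0 k
  rw [abs_mul, abs_of_pos (by positivity), one_div_mul_eq_div, div_le_iff₀ hHk]
  refine (Finset.abs_sum_le_sum_abs _ _).trans ?_
  refine (Finset.sum_le_card_nsmul _ _ B hg).trans (le_of_eq ?_)
  rw [nsmul_eq_mul, n7_card]
  ring

private lemma n7_sm_sub {I : Finset ℕ} {H k : ℕ} (hH : 1 ≤ H) {δ : ℝ} (hδ : 0 ≤ δ) {F : (Fin k → ℕ) → ℝ}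
    (hF : SlowOutS k I δ F) (l : Fin k → ℕ) : |F l - n7sm I H F l| ≤ k * H * δ := by
  have hH0 : (0 : ℝ) < H := by exact_mod_cast hH
  have hHk : (0 : ℝ) < (H : ℝ) ^ k := pow_pos hH0 k
  have e1 : n7sm I H F l - F l = 1 / (H : ℝ) ^ k *
      ∑ u ∈ Fintype.piFinset (fun _ : Fin k => range H), (F (fun i => l i + n7v I u i) - F l) := by
    unfold n7sm
    rw [Finset.sum_sub_distrib, Finset.sum_const, nsmul_eq_mul, n7_card]
    field_simp
  rw [abs_sub_comm, e1]
  refine n7_avg hH fun u hu => ?_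
  have hu' : ∀ i, u i < H := fun i => Finset.mem_range.1 ((Fintype.mem_piFinset.1 hu) i)
  have h1 := n7_slow hF (∑ i, n7v I u i) (n7v I u) rfl (fun i hi => by
    unfold n7v
    rw [if_pos hi]) l
  refine h1.trans ?_
  refine mul_le_mul_of_nonneg_right ?_ hδ
  have h2 : ∑ i, n7v I u i ≤ k * H := by
    calc ∑ i, n7v I u i ≤ ∑ _i : Fin k, H := Finset.sum_le_sum fun i _ => by
          unfold n7v
          split_ifs
          · exact Nat.zero_le _
          · exact (hu' i).le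
      _ = k * H := by simp
  exact_mod_cast h2

private lemma n7_sm_abs {I : Finset ℕ} {H k : ℕ} (hH : 1 ≤ H) {B : ℝ} {F : (Fin k → ℕ) → ℝ}
    (hF : ∀ l, |F l| ≤ B) (l : Fin k → ℕ) : |n7sm I H F l| ≤ B :=
  n7_avg hH fun _ _ => hF _

private lemma n7_sm_lin {I : Finset ℕ} {H k : ℕ} (F G : (Fin k → ℕ) → ℝ) (l : Fin k → ℕ) :
    n7sm I H (fun l => F l - G l) l = n7sm I H F l - n7sm I H G l := by
  unfold n7sm
  rw [Finset.sum_sub_distrib]
  ring

private lemma n7_sm_sum {I : Finset ℕ} {H k J : ℕ} (c : Fin J → ℝ) (G : Fin J → (Fin k → ℕ) → ℝ)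
    (l : Fin k → ℕ) :
    n7sm I H (fun l => ∑ j, c j * G j l) l = ∑ j, c j * n7sm I H (G j) l := by
  unfold n7sm
  rw [Finset.sum_comm, Finset.mul_sum]
  refine Finset.sum_congr rfl fun j _ => ?_
  rw [← Finset.mul_sum]
  ring

/-- The smoothed indicator functions of the sides of a box. -/
private noncomputable def n7f (I : Finset ℕ) (H : ℕ) {k : ℕ} (A : Fin k → Finset ℕ) (i x : ℕ) : ℝ :=
  if h : i < k then 1 / (H : ℝ) * ∑ u ∈ range H,
    (if x + (if i ∈ I then 0 else u) ∈ A ⟨i, h⟩ then (1 : ℝ) else 0) else 1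

private lemma n7_sm_box {I : Finset ℕ} {H k : ℕ} (A : Fin k → Finset ℕ) (l : Fin k → ℕ) :
    n7sm I H (fun l => if ∀ i, l i ∈ A i then (1 : ℝ) else 0) l =
      ∏ i : Fin k, n7f I H A i (l i) := by
  unfold n7sm
  have h1 : ∀ u : Fin k → ℕ, (if ∀ i, l i + n7v I u i ∈ A i then (1 : ℝ) else 0) =
      ∏ i : Fin k, (if l i + (if i.1 ∈ I then 0 else u i) ∈ A i then (1 : ℝ) else 0) := by
    intro u
    by_cases h : ∀ i, l i + n7v I u i ∈ A i
    · rw [if_pos h]
      refine (Finset.prod_eq_one fun i _ => ?_).symm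
      have := h i
      unfold n7v at this
      rw [if_pos this]
    · rw [if_neg h]
      push Not at h
      obtain ⟨i, hi⟩ := h
      refine (Finset.prod_eq_zero (Finset.mem_univ i) ?_).symm
      unfold n7v at hi
      rw [if_neg hi]
  simp only [h1]
  rw [← Finset.prod_univ_sum (fun _ : Fin k => range H) (fun (i : Fin k) (u : ℕ) =>
    (if l i + (if i.1 ∈ I then 0 else u) ∈ A i then (1 : ℝ) else 0))]
  have h2 : 1 / (H : ℝ) ^ k = ∏ _i : Fin k, 1 / (H : ℝ) := by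
    rw [Finset.prod_const, Finset.card_univ, Fintype.card_fin, one_div_pow]
  rw [h2, ← Finset.prod_mul_distrib]
  refine Finset.prod_congr rfl fun i _ => ?_
  unfold n7f
  rw [dif_pos i.2]

private lemma n7_f_mem {I : Finset ℕ} {H k : ℕ} (hH : 1 ≤ H) (A : Fin k → Finset ℕ) (i x : ℕ) :
    0 ≤ n7f I H A i x ∧ n7f I H A i x ≤ 1 := by
  have hH0 : (0 : ℝ) < H := by exact_mod_cast hH
  unfold n7f
  by_cases h : i < k
  · simp only [dif_pos h]
    have h0 : ∀ u : ℕ, 0 ≤ (if x + (if i ∈ I then 0 else u) ∈ A ⟨i, h⟩ then (1 : ℝ) else 0) ∧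
        (if x + (if i ∈ I then 0 else u) ∈ A ⟨i, h⟩ then (1 : ℝ) else 0) ≤ 1 := by
      intro u
      by_cases h2 : x + (if i ∈ I then 0 else u) ∈ A ⟨i, h⟩
      · rw [if_pos h2]
        constructor <;> norm_num
      · rw [if_neg h2]
        constructor <;> norm_num
    constructor
    · exact mul_nonneg (by positivity) (Finset.sum_nonneg fun u _ => (h0 u).1)
    · rw [one_div_mul_eq_div, div_le_one hH0]
      refine (Finset.sum_le_card_nsmul _ _ 1 fun u _ => (h0 u).2).trans (le_of_eq ?_)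
      simp
  · simp only [dif_neg h]
    constructor <;> norm_num

private lemma n7_f_slow {I : Finset ℕ} {H k : ℕ} (hH : 1 ≤ H) (A : Fin k → Finset ℕ) (i : ℕ)
    (hi : i ∉ I) (x : ℕ) :
    |n7f I H A i (x + 1) - n7f I H A i x| ≤ 1 / (H : ℝ) := by
  have hH0 : (0 : ℝ) < H := by exact_mod_cast hH
  have hi' : i ∉ I := hi
  unfold n7f
  simp only [if_neg hi']
  by_cases h : i < k
  · simp only [dif_pos h]
    have h1 : ∀ y : ℕ, ∑ u ∈ range H,
        (if y + u ∈ A ⟨i, h⟩ then (1 : ℝ) else 0) =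
        ∑ u ∈ range H, (fun m => if y + m ∈ A ⟨i, h⟩ then (1 : ℝ) else 0) u := fun y => rfl
    rw [← mul_sub]
    have h2 : ∑ u ∈ range H, (if x + 1 + u ∈ A ⟨i, h⟩ then (1 : ℝ) else 0) -
        ∑ u ∈ range H, (if x + u ∈ A ⟨i, h⟩ then (1 : ℝ) else 0) =
        (if x + H ∈ A ⟨i, h⟩ then (1 : ℝ) else 0) - (if x + 0 ∈ A ⟨i, h⟩ then (1 : ℝ) else 0) := by
      have h3 : ∀ u : ℕ, (if x + 1 + u ∈ A ⟨i, h⟩ then (1 : ℝ) else 0) =
          (fun m => if x + m ∈ A ⟨i, h⟩ then (1 : ℝ) else 0) (u + 1) := by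
        intro u
        have : x + 1 + u = x + (u + 1) := by ring
        simp only [this]
      simp only [h3]
      rw [← Finset.sum_sub_distrib]
      exact Finset.sum_range_sub (fun m => if x + m ∈ A ⟨i, h⟩ then (1 : ℝ) else 0) H
    rw [h2, abs_mul, abs_of_pos (by positivity : (0 : ℝ) < 1 / (H : ℝ))]
    have h4 : |(if x + H ∈ A ⟨i, h⟩ then (1 : ℝ) else 0) -
        (if x + 0 ∈ A ⟨i, h⟩ then (1 : ℝ) else 0)| ≤ 1 := by
      split_ifs <;> simp
    calc 1 / (H : ℝ) * _ ≤ 1 / (H : ℝ) * 1 := mul_le_mul_of_nonneg_left h4 (by positivity)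
      _ = 1 / (H : ℝ) := mul_one _
  · simp only [dif_neg h]
    rw [sub_self, abs_zero]
    positivity

/-- The cut norm of the smoothed function. -/
private lemma n7_sm_cut {I : Finset ℕ} {H k M : ℕ} (hH : 1 ≤ H) (hM : 1 ≤ M) {τ κ : ℝ}
    (hshift : ∀ b : ℕ → ℝ, (∀ m, |b m| ≤ 1) →
      |1 / (M : ℝ) * ∑ n ∈ Finset.Icc 1 M, b (ArithmeticFunction.cardFactors n + 1) -
        1 / (M : ℝ) * ∑ n ∈ Finset.Icc 1 M, b (ArithmeticFunction.cardFactors n)| ≤ τ)
    (hτ : 0 ≤ τ) {r : (Fin k → ℕ) → ℝ} (hr : ∀ l, |r l| ≤ 1) (hcut : CutLe k M κ r) :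
    CutLe k M (κ + k * (H * τ)) (n7sm I H r) := by
  intro f hf
  have e1 : Ep k M (fun ℓ => n7sm I H r ℓ * ∏ i, f i (ℓ i)) =
      1 / (H : ℝ) ^ k * ∑ u ∈ Fintype.piFinset (fun _ : Fin k => range H),
        Ep k M (fun ℓ => r (fun i => ℓ i + n7v I u i) * ∏ i, f i (ℓ i)) := by
    unfold Ep n7sm
    rw [Finset.mul_sum, Finset.mul_sum]
    simp only [Finset.mul_sum, Finset.sum_mul]
    rw [Finset.sum_comm]
    refine Finset.sum_congr rfl fun u _ => Finset.sum_congr rfl fun m _ => ?_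
    ring
  rw [e1]
  refine n7_avg hH fun u hu => ?_
  have hu' : ∀ i, u i < H := fun i => Finset.mem_range.1 ((Fintype.mem_piFinset.1 hu) i)
  set Ψ : (Fin k → ℕ) → ℝ := fun ℓ => r ℓ * ∏ i, f i (ℓ i - n7v I u i) with hΨ
  have hΨ1 : ∀ ℓ, |Ψ ℓ| ≤ 1 := by
    intro ℓ
    rw [hΨ]
    simp only
    rw [abs_mul, Finset.abs_prod]
    have h1 : ∏ i, |f i (ℓ i - n7v I u i)| ≤ 1 :=
      Finset.prod_le_one (fun i _ => abs_nonneg _) fun i _ => hf i _
    have h2 : 0 ≤ ∏ i, |f i (ℓ i - n7v I u i)| := Finset.prod_nonneg fun i _ => abs_nonneg _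
    calc |r ℓ| * ∏ i, |f i (ℓ i - n7v I u i)| ≤ 1 * 1 :=
          mul_le_mul (hr ℓ) h1 h2 zero_le_one
      _ = 1 := mul_one 1
  have h2 : |Ep k M (fun ℓ => Ψ (fun i => ℓ i + n7v I u i)) - Ep k M Ψ| ≤ k * (H * τ) := by
    refine n7_shiftv M hM (H * τ) k (n7v I u) (fun i b' hb' => ?_) Ψ hΨ1
    refine (n7_law_mul M τ hshift (n7v I u i) b' hb').trans ?_
    refine mul_le_mul_of_nonneg_right ?_ hτ
    have : n7v I u i ≤ H := by
      unfold n7v
      split_ifs
      · exact Nat.zero_le _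
      · exact (hu' i).le
    exact_mod_cast this
  have e2 : (fun ℓ : Fin k → ℕ => Ψ (fun i => ℓ i + n7v I u i)) =
      fun ℓ => r (fun i => ℓ i + n7v I u i) * ∏ i, f i (ℓ i) := by
    funext ℓ
    rw [hΨ]
    simp only [Nat.add_sub_cancel]
  rw [e2] at h2
  have h3 := hcut (fun i t => f i (t - n7v I u i)) (fun i t => hf i _)
  have h3' : |Ep k M Ψ| ≤ κ := h3
  have h4 := abs_le.1 h2
  have h5 := abs_le.1 h3'
  rw [abs_le]
  constructor <;> linarith [h4.1, h4.2, h5.1, h5.2]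

/-- Replace the coordinates outside `I` by the mean. -/
private noncomputable def n7R (I : Finset ℕ) (M : ℕ) {k : ℕ} (F : (Fin k → ℕ) → ℝ) (l : Fin k → ℕ) : ℝ :=
  1 / (M : ℝ) ^ k * ∑ m ∈ Fintype.piFinset (fun _ : Fin k => Icc 1 M),
    F (fun i => if i.1 ∈ I then l i else ArithmeticFunction.cardFactors (m i))

private lemma n7_Mx (k : ℕ) (I : Finset ℕ) (M : ℕ) (F : (Fin k → ℕ) → ℝ) : MxS k I M F = Em k M (n7R I M F) :=
  rfl

private lemma n7_R_abs {I : Finset ℕ} {M k : ℕ} (hM : 1 ≤ M) {B : ℝ} {F : (Fin k → ℕ) → ℝ}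
    (hF : ∀ l, |F l| ≤ B) (l : Fin k → ℕ) : |n7R I M F l| ≤ B := by
  have hM0 : (0 : ℝ) < M := by exact_mod_cast hM
  have hMk : (0 : ℝ) < (M : ℝ) ^ k := pow_pos hM0 k
  unfold n7R
  rw [abs_mul, abs_of_pos (by positivity), one_div_mul_eq_div, div_le_iff₀ hMk]
  refine (Finset.abs_sum_le_sum_abs _ _).trans ?_
  refine (Finset.sum_le_card_nsmul _ _ B fun _ _ => hF _).trans (le_of_eq ?_)
  rw [nsmul_eq_mul, Fintype.card_piFinset]
  simp
  ring

private lemma n7_Em_abs {k M : ℕ} (hM : 1 ≤ M) {B : ℝ} {F : (Fin k → ℕ) → ℝ}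
    (hF : ∀ l, |F l| ≤ B) : |Em k M F| ≤ B := by
  have hM0 : (0 : ℝ) < M := by exact_mod_cast hM
  unfold Em
  rw [abs_mul, abs_of_pos (by positivity), one_div_mul_eq_div, div_le_iff₀ hM0]
  refine (Finset.abs_sum_le_sum_abs _ _).trans ?_
  refine (Finset.sum_le_card_nsmul _ _ B fun _ _ => hF _).trans (le_of_eq ?_)
  rw [nsmul_eq_mul, Nat.card_Icc]
  simp
  ring

private lemma n7_Ep_abs {k M : ℕ} (hM : 1 ≤ M) {B : ℝ} {F : (Fin k → ℕ) → ℝ}
    (hF : ∀ l, |F l| ≤ B) : |Ep k M F| ≤ B := by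
  have hM0 : (0 : ℝ) < M := by exact_mod_cast hM
  have hMk : (0 : ℝ) < (M : ℝ) ^ k := pow_pos hM0 k
  unfold Ep
  rw [abs_mul, abs_of_pos (by positivity), one_div_mul_eq_div, div_le_iff₀ hMk]
  refine (Finset.abs_sum_le_sum_abs _ _).trans ?_
  refine (Finset.sum_le_card_nsmul _ _ B fun _ _ => hF _).trans (le_of_eq ?_)
  rw [nsmul_eq_mul, Fintype.card_piFinset]
  simp
  ring

/-- The cut norm of the partial mean. -/
private lemma n7_R_cut {I : Finset ℕ} {M k : ℕ} (hM : 1 ≤ M) {κ : ℝ} {F : (Fin k → ℕ) → ℝ}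
    (hcut : CutLe k M κ F) : CutLe k M κ (n7R I M F) := by
  classical
  intro f hf
  set P : Finset (Fin k → ℕ) := Fintype.piFinset (fun _ : Fin k => Icc 1 M) with hP
  set Om : ℕ → ℕ := fun n => ArithmeticFunction.cardFactors n with hOm
  set g : Fin k → ℕ → ℝ := fun i x => if i.1 ∈ I then f i x else 1 with hg
  set g' : Fin k → ℕ → ℝ := fun i x => if i.1 ∈ I then 1 else f i x with hg'
  set φ : (Fin k → ℕ) × (Fin k → ℕ) → (Fin k → ℕ) × (Fin k → ℕ) := fun z =>
    (fun i => if i.1 ∈ I then z.1 i else z.2 i,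
      fun i => if i.1 ∈ I then z.2 i else z.1 i) with hφ
  have hφP : ∀ z ∈ P ×ˢ P, φ z ∈ P ×ˢ P := by
    intro z hz
    rw [Finset.mem_product] at hz ⊢
    have h1 := Fintype.mem_piFinset.1 hz.1
    have h2 := Fintype.mem_piFinset.1 hz.2
    constructor
    · refine Fintype.mem_piFinset.2 fun i => ?_
      by_cases h : i.1 ∈ I
      · simp only [hφ, if_pos h]
        exact h1 i
      · simp only [hφ, if_neg h]
        exact h2 i
    · refine Fintype.mem_piFinset.2 fun i => ?_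
      by_cases h : i.1 ∈ I
      · simp only [hφ, if_pos h]
        exact h2 i
      · simp only [hφ, if_neg h]
        exact h1 i
  have hφφ : ∀ z, φ (φ z) = z := by
    intro z
    refine Prod.ext ?_ ?_
    · funext i
      by_cases h : i.1 ∈ I
      · simp only [hφ, if_pos h]
      · simp only [hφ, if_neg h]
    · funext i
      by_cases h : i.1 ∈ I
      · simp only [hφ, if_pos h]
      · simp only [hφ, if_neg h]
  have hsum : ∑ z ∈ P ×ˢ P, F (fun i => if i.1 ∈ I then Om (z.1 i) else Om (z.2 i)) *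
        ∏ i, f i (Om (z.1 i)) =
      ∑ z ∈ P ×ˢ P, (F (fun i => Om (z.1 i)) * ∏ i, g i (Om (z.1 i))) *
        ∏ i, g' i (Om (z.2 i)) := by
    refine Finset.sum_nbij' φ φ hφP hφP (fun z _ => hφφ z) (fun z _ => hφφ z) fun z _ => ?_
    have e1 : (fun i : Fin k => if i.1 ∈ I then Om (z.1 i) else Om (z.2 i)) =
        fun i => Om ((φ z).1 i) := by
      funext i
      by_cases h : i.1 ∈ I
      · simp only [hφ, if_pos h]
      · simp only [hφ, if_neg h]
    rw [e1, mul_assoc, ← Finset.prod_mul_distrib]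
    congr 1
    refine Finset.prod_congr rfl fun i _ => ?_
    by_cases h : i.1 ∈ I
    · simp only [hφ, hg, hg', if_pos h, mul_one]
    · simp only [hφ, hg, hg', if_neg h, one_mul]
  have e1 : Ep k M (fun ℓ => n7R I M F ℓ * ∏ i, f i (ℓ i)) =
      Ep k M (fun ℓ => F ℓ * ∏ i, g i (ℓ i)) * Ep k M (fun ℓ => ∏ i, g' i (ℓ i)) := by
    have e2 : Ep k M (fun ℓ => n7R I M F ℓ * ∏ i, f i (ℓ i)) = 1 / (M : ℝ) ^ k *
        (1 / (M : ℝ) ^ k * ∑ z ∈ P ×ˢ P,
          F (fun i => if i.1 ∈ I then Om (z.1 i) else Om (z.2 i)) *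
            ∏ i, f i (Om (z.1 i))) := by
      unfold Ep n7R
      rw [Finset.sum_product]
      congr 1
      rw [Finset.mul_sum]
      refine Finset.sum_congr rfl fun l _ => ?_
      beta_reduce
      rw [mul_assoc, Finset.sum_mul]
    rw [e2, hsum, Finset.sum_product]
    unfold Ep
    have e3 : ∑ x ∈ P, ∑ y ∈ P, (F (fun i => Om (x i)) * ∏ i, g i (Om (x i))) *
        ∏ i, g' i (Om (y i)) =
        (∑ x ∈ P, F (fun i => Om (x i)) * ∏ i, g i (Om (x i))) *
          ∑ y ∈ P, ∏ i, g' i (Om (y i)) := by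
      rw [Finset.sum_mul_sum]
    simp only
    rw [e3]
    ring
  rw [e1, abs_mul]
  have h1 : |Ep k M (fun ℓ => F ℓ * ∏ i, g i (ℓ i))| ≤ κ := hcut g (fun i t => by
    simp only [hg]
    split_ifs
    · exact hf i t
    · norm_num)
  have h2 : |Ep k M (fun ℓ => ∏ i, g' i (ℓ i))| ≤ 1 := by
    refine n7_Ep_abs hM fun ℓ => ?_
    rw [Finset.abs_prod]
    refine Finset.prod_le_one (fun i _ => abs_nonneg _) fun i _ => ?_
    simp only [hg']
    split_ifs
    · norm_num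
    · exact hf i _
  calc _ ≤ κ * 1 := mul_le_mul h1 h2 (abs_nonneg _) ((abs_nonneg _).trans h1)
    _ = κ := mul_one κ

private lemma n7_Ec_prod (k M : ℕ) (f : ℕ → ℕ → ℝ) :
    Ec (k + 1) M (fun l => ∏ i : Fin (k + 1), f i (l i)) = Pr k M f := by
  unfold Ec Pr
  congr 1
  refine Finset.sum_congr rfl fun n _ => ?_
  exact Fin.prod_univ_eq_prod_range (fun i => f i (ArithmeticFunction.cardFactors (n + i))) (k + 1)

private lemma n7_Mx_prod {k : ℕ} {I : Finset ℕ} {M : ℕ} (hM : 1 ≤ M) (f : ℕ → ℕ → ℝ) :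
    MxS (k + 1) I M (fun l => ∏ i : Fin (k + 1), f i (l i)) =
      (∏ i ∈ (range (k + 1)).filter (fun i => i ∉ I), Mn M (f i)) *
        Pr k M (keepS I f) := by
  have hM0 : (M : ℝ) ≠ 0 := by
    have : M ≠ 0 := by omega
    exact_mod_cast this
  have key : ∀ n : ℕ, 1 / (M : ℝ) ^ (k + 1) * ∑ m ∈ Fintype.piFinset
      (fun _ : Fin (k + 1) => Icc 1 M), ∏ i : Fin (k + 1),
      f i (if i.1 ∈ I then ArithmeticFunction.cardFactors (n + i)
        else ArithmeticFunction.cardFactors (m i)) =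
      (∏ i ∈ (range (k + 1)).filter (fun i => i ∉ I), Mn M (f i)) *
        ∏ i ∈ range (k + 1), keepS I f i (ArithmeticFunction.cardFactors (n + i)) := by
    intro n
    have h1 : ∑ m ∈ Fintype.piFinset (fun _ : Fin (k + 1) => Icc 1 M), ∏ i : Fin (k + 1),
        f i (if i.1 ∈ I then ArithmeticFunction.cardFactors (n + i)
          else ArithmeticFunction.cardFactors (m i)) =
        ∏ i : Fin (k + 1), ∑ x ∈ Icc 1 M,
          f i (if i.1 ∈ I then ArithmeticFunction.cardFactors (n + i)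
          else ArithmeticFunction.cardFactors x) :=
      (Finset.prod_univ_sum (fun _ : Fin (k + 1) => Icc 1 M) (fun (i : Fin (k + 1)) (x : ℕ) =>
        f i (if i.1 ∈ I then ArithmeticFunction.cardFactors (n + i)
          else ArithmeticFunction.cardFactors x))).symm
    rw [h1]
    have h2 : 1 / (M : ℝ) ^ (k + 1) = ∏ _i : Fin (k + 1), 1 / (M : ℝ) := by
      rw [Finset.prod_const, Finset.card_univ, Fintype.card_fin, one_div_pow]
    rw [h2, ← Finset.prod_mul_distrib]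
    have h3 : ∀ i : Fin (k + 1), 1 / (M : ℝ) * ∑ x ∈ Icc 1 M,
          f i (if i.1 ∈ I then ArithmeticFunction.cardFactors (n + i)
          else ArithmeticFunction.cardFactors x) =
        (if ¬ i.1 ∈ I then Mn M (f i) else 1) *
          keepS I f i (ArithmeticFunction.cardFactors (n + i)) := by
      intro i
      unfold keepS Mn
      by_cases h : i.1 ∈ I
      · have e : ¬ ¬ i.1 ∈ I := not_not.2 h
        simp only [if_neg e, if_pos h, one_mul, Finset.sum_const, Nat.card_Icc,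
          Nat.add_sub_cancel, nsmul_eq_mul]
        field_simp
      · simp only [if_neg h, if_pos h, mul_one]
    simp only [h3]
    rw [Finset.prod_mul_distrib, Finset.prod_filter]
    congr 1
    · exact Fin.prod_univ_eq_prod_range (fun i => if i ∉ I then Mn M (f i) else 1) (k + 1)
    · exact Fin.prod_univ_eq_prod_range
        (fun i => keepS I f i (ArithmeticFunction.cardFactors (n + i))) (k + 1)
  unfold MxS Pr
  simp only [key]
  rw [← Finset.mul_sum]
  ring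

private lemma n7_sm_smul {I : Finset ℕ} {H k : ℕ} (c : ℝ) (G : (Fin k → ℕ) → ℝ) (l : Fin k → ℕ) :
    n7sm I H (fun l => c * G l) l = c * n7sm I H G l := by
  unfold n7sm
  rw [← Finset.mul_sum]
  ring

private theorem n7_gen (k : ℕ) (I : Finset ℕ) (hk : 1 ≤ k) (Ψ : ℕ → ((Fin k → ℕ) → ℝ) → ℝ)
    (hΨb : ∀ M, 1 ≤ M → ∀ (F : (Fin k → ℕ) → ℝ) (B : ℝ), (∀ l, |F l| ≤ B) → |Ψ M F| ≤ B)
    (hΨs : ∀ M (F G : (Fin k → ℕ) → ℝ), Ψ M (fun l => F l - G l) = Ψ M F - Ψ M G)
    (hΨc : ∀ M (c : ℝ) (F : (Fin k → ℕ) → ℝ), Ψ M (fun l => c * F l) = c * Ψ M F)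
    (hΨf : ∀ M (J : ℕ) (F : Fin J → (Fin k → ℕ) → ℝ),
      Ψ M (fun l => ∑ j, F j l) = ∑ j, Ψ M (F j))
    (hP2 : ∀ ε : ℝ, 0 < ε → ∃ δ : ℝ, 0 < δ ∧ ∃ K0 N0 : ℕ, ∀ N K : ℕ, N0 ≤ N → K0 ≤ K → K ≤ N →
      ∀ f : ℕ → ℕ → ℝ, (∀ i x, 0 ≤ f i x ∧ f i x ≤ 1) →
        (∀ i, i ∉ I → ∀ x, |f i (x + 1) - f i x| ≤ δ) →
        ∑ M ∈ Ioc (N / K) N, (1 / (M : ℝ)) *
          |Em k M (fun l => ∏ i : Fin k, f i (l i)) - Ψ M (fun l => ∏ i : Fin k, f i (l i))| ≤
            ε * Real.log K)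
    (hP3 : ∀ ε : ℝ, 0 < ε → ∃ δ : ℝ, 0 < δ ∧ ∃ K0 N0 : ℕ, ∀ N K : ℕ, N0 ≤ N → K0 ≤ K → K ≤ N →
      ∀ F : ℕ → (Fin k → ℕ) → ℝ, (∀ M l, |F M l| ≤ 1) →
      (∀ M ∈ Ioc (N / K) N, CutLe k M δ (F M)) →
        ∑ M ∈ Ioc (N / K) N, (1 / (M : ℝ)) * |Ψ M (F M)| ≤ ε * Real.log K)
    (ε : ℝ) (hε : 0 < ε) : ∃ δ : ℝ, 0 < δ ∧ ∃ K0 N0 : ℕ, ∀ N K : ℕ, N0 ≤ N → K0 ≤ K → K ≤ N →
      ∀ F : (Fin k → ℕ) → ℝ, (∀ l, |F l| ≤ 1) → SlowOutS k I δ F →
        ∑ M ∈ Ioc (N / K) N, (1 / (M : ℝ)) * |Em k M F - Ψ M F| ≤ ε * Real.log K := by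
  classical
  obtain ⟨δc, hδc, Ka, Na, hcore⟩ := coreW k hk (ε / 16) (by positivity)
  obtain ⟨δd, hδd, Ke, Ne, hP3'⟩ := hP3 (ε / 16) (by positivity)
  set δ₁ : ℝ := min δc δd with hδ₁'
  have hδ₁ : 0 < δ₁ := lt_min hδc hδd
  have hδ₁c : δ₁ ≤ δc := min_le_left _ _
  have hδ₁d : δ₁ ≤ δd := min_le_right _ _
  set τ : ℝ := δ₁ / 4 with hτ
  have hτ0 : 0 < τ := by positivity
  obtain ⟨C, hC⟩ := regBox k δ₁ hδ₁
  set η : ℝ := min (ε / 64) (1 / 2) with hη
  have hη0 : 0 < η := lt_min (by positivity) (by norm_num)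
  have hη1 : η ≤ ε / 64 := min_le_left _ _
  have hη2 : η ≤ 1 / 2 := min_le_right _ _
  obtain ⟨Nb, hcut⟩ := cutLog k η τ hη0 hτ0
  obtain ⟨δp, hδp, Kc, Nc, hbox⟩ := hP2 (ε / (4 * (C + 1))) (by positivity)
  obtain ⟨H, hH, hHδ⟩ : ∃ H : ℕ, 1 ≤ H ∧ 1 / (H : ℝ) ≤ δp := by
    obtain ⟨H, hH⟩ := exists_nat_one_div_lt hδp
    exact ⟨H + 1, by omega, by push_cast; exact hH.le⟩
  have hH0 : (0 : ℝ) < H := by exact_mod_cast hH
  obtain ⟨x0, hx0⟩ := n7_law_shift (δ₁ / (4 * ((k + 1) * H))) (by positivity)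
  obtain ⟨Kd, hKd⟩ : ∃ Kd : ℕ, Real.exp (64 / ε + 2) ≤ Kd := exists_nat_ge _
  obtain ⟨Nd, hNd⟩ : ∃ Nd : ℕ, Real.exp (Real.log (x0 + 1) / η) ≤ Nd := exists_nat_ge _
  refine ⟨ε / (32 * ((k + 1) * H)), by positivity, max (max (max Ka Ke) Kc) (max Kd 1),
    max (max (max Na Ne) Nb) (max Nc (max Nd 1)), ?_⟩
  intro N K hN hK hKN F hF hFs
  simp only [max_le_iff] at hN hK
  obtain ⟨⟨⟨hNa, hNe⟩, hNb⟩, hNc, hNd', hN1⟩ := hN
  obtain ⟨⟨⟨hKa, hKe⟩, hKc⟩, hKd', hK1⟩ := hK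
  have hKr : (0 : ℝ) < K := by exact_mod_cast hK1
  have hNr : (0 : ℝ) < N := by exact_mod_cast hN1
  have hlogK : 64 / ε + 2 ≤ Real.log K := by
    rw [Real.le_log_iff_exp_le hKr]
    exact hKd.trans (by exact_mod_cast hKd')
  have hlogK2 : 2 ≤ Real.log K := by
    have : 0 ≤ 64 / ε := by positivity
    linarith
  have hlogKε : 64 ≤ ε * Real.log K := by
    have h1 : 64 / ε ≤ Real.log K := by linarith
    rw [div_le_iff₀ hε] at h1
    linarith
  have hlogN : Real.log (x0 + 1) ≤ η * Real.log N := by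
    have h1 : Real.log (x0 + 1) / η ≤ Real.log N := by
      rw [Real.le_log_iff_exp_le hNr]
      exact hNd.trans (by exact_mod_cast hNd')
    rw [div_le_iff₀ hη0] at h1
    linarith
  set W : Finset ℕ := Finset.Ioc (N / K) N with hW
  have hW1 : ∀ M ∈ W, 1 ≤ M := fun M hM =>
    Nat.succ_le_of_lt (lt_of_le_of_lt (Nat.zero_le _) (Finset.mem_Ioc.1 hM).1)
  -- the decomposition
  obtain ⟨J, c, A, hJ, hc, hS, hcutF⟩ := hC (N + k + 1) (pL N) (pL_nonneg N)
    (pL_sum N (N + k + 1) hN1 (by omega)) F hF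
  have hcutr0 : ∀ f : Fin k → ℕ → ℝ, (∀ i t, |f i t| ≤ 1) →
      |EpL k N (fun ℓ => (F ℓ - ∑ j, c j * (if ∀ i, ℓ i ∈ A j i then (1 : ℝ) else 0)) *
        ∏ i, f i (ℓ i))| ≤ δ₁ := hcutF
  set S : (Fin k → ℕ) → ℝ := fun ℓ => ∑ j, c j * (if ∀ i, ℓ i ∈ A j i then (1 : ℝ) else 0)
    with hSdef
  set r : (Fin k → ℕ) → ℝ := fun ℓ => F ℓ - S ℓ with hr
  have hcutr : ∀ f : Fin k → ℕ → ℝ, (∀ i t, |f i t| ≤ 1) →
      |EpL k N (fun ℓ => r ℓ * ∏ i, f i (ℓ i))| ≤ δ₁ := hcutr0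
  have hr2 : ∀ ℓ, |r ℓ| ≤ 2 := by
    intro ℓ
    have h1 : |S ℓ| ≤ 1 := hS ℓ
    have h2 := abs_sub (F ℓ) (S ℓ)
    have h3 := hF ℓ
    show |F ℓ - S ℓ| ≤ 2
    linarith
  have hr1 : ∀ ℓ, |1 / 2 * r ℓ| ≤ 1 := by
    intro ℓ
    rw [abs_mul, abs_of_pos (by norm_num : (0 : ℝ) < 1 / 2)]
    linarith [hr2 ℓ]
  have hprod : ∀ (f : Fin k → ℕ → ℝ), (∀ i t, |f i t| ≤ 1) → ∀ ℓ : Fin k → ℕ,
      |∏ i, f i (ℓ i)| ≤ 1 := by
    intro f hf ℓ
    rw [Finset.abs_prod]
    exact Finset.prod_le_one (fun i _ => abs_nonneg _) fun i _ => hf i (ℓ i)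
  have hhalf : ∀ (f : Fin k → ℕ → ℝ), (∀ i t, |f i t| ≤ 1) → ∀ ℓ : Fin k → ℕ,
      |1 / 2 * r ℓ * ∏ i, f i (ℓ i)| ≤ 1 := by
    intro f hf ℓ
    rw [abs_mul]
    have h4 := hprod f hf ℓ
    have h5 := hr1 ℓ
    have h6 := abs_nonneg (∏ i, f i (ℓ i))
    have h7 := abs_nonneg (1 / 2 * r ℓ)
    nlinarith
  -- the cut norm of `r / 2` at large scales
  have hcutM : ∀ M : ℕ, M ≤ N → η * Real.log N ≤ Real.log M →
      CutLe k M (τ + δ₁ / 2) (fun ℓ => 1 / 2 * r ℓ) := by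
    intro M hMN hM f hf
    have h2 := hcut N hNb M hMN hM (fun ℓ => 1 / 2 * r ℓ * ∏ i, f i (ℓ i)) (hhalf f hf)
    have h3 : EpL k N (fun ℓ => 1 / 2 * r ℓ * ∏ i, f i (ℓ i)) =
        1 / 2 * EpL k N (fun ℓ => r ℓ * ∏ i, f i (ℓ i)) := by
      unfold EpL
      rw [Finset.mul_sum]
      refine Finset.sum_congr rfl fun ℓ _ => ?_
      ring
    rw [h3] at h2
    have h4 := hcutr f hf
    have h5 := abs_le.1 h2
    have h6 := abs_le.1 h4
    rw [abs_le]
    constructor <;> linarith [h5.1, h5.2, h6.1, h6.2]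
  have hbig : ∀ M : ℕ, η * Real.log N ≤ Real.log M → 1 ≤ M ∧ x0 ≤ M := by
    intro M hM
    have h1 := hlogN.trans hM
    have h0 : 0 ≤ Real.log ((x0 : ℝ) + 1) := Real.log_nonneg (by
      have : (0 : ℝ) ≤ x0 := Nat.cast_nonneg _
      linarith)
    by_cases hM0 : M = 0
    · subst hM0
      have hlogN0 : 0 < Real.log N := by
        have h5 : Real.log K ≤ Real.log N := Real.log_le_log hKr (by exact_mod_cast hKN)
        linarith
      have h6 : 0 < η * Real.log N := by positivity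
      simp at hM
      linarith
    · have hM1 : 1 ≤ M := Nat.one_le_iff_ne_zero.2 hM0
      have hMr : (0 : ℝ) < M := by exact_mod_cast hM1
      refine ⟨hM1, ?_⟩
      have h2 := (Real.log_le_log_iff (by positivity) hMr).1 h1
      have h3 : (x0 : ℝ) ≤ M := by linarith
      exact_mod_cast h3
  -- the smoothed remainder
  set ρ : (Fin k → ℕ) → ℝ := n7sm I H (fun ℓ => 1 / 2 * r ℓ) with hρ
  have hρ1 : ∀ ℓ, |ρ ℓ| ≤ 1 := fun ℓ => n7_sm_abs hH hr1 ℓ
  have hρcut : ∀ M : ℕ, M ≤ N → η * Real.log N ≤ Real.log M → CutLe k M δ₁ ρ := by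
    intro M hMN hM f hf
    obtain ⟨hM1, hMx⟩ := hbig M hM
    have h1 := n7_sm_cut (I := I) hH hM1 (hx0 M hMx) (by positivity) hr1
      (hcutM M hMN hM) f hf
    refine h1.trans ?_
    have h2 : (k : ℝ) * (H * (δ₁ / (4 * ((k + 1) * H)))) ≤ δ₁ / 4 := by
      have e : (k : ℝ) * (H * (δ₁ / (4 * ((k + 1) * H)))) = δ₁ / 4 * (k / (k + 1)) := by
        field_simp
      rw [e]
      have h3 : (k : ℝ) / (k + 1) ≤ 1 := by
        rw [div_le_one (by positivity)]
        linarith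
      calc δ₁ / 4 * ((k : ℝ) / (k + 1)) ≤ δ₁ / 4 * 1 :=
            mul_le_mul_of_nonneg_left h3 (by positivity)
        _ = δ₁ / 4 := mul_one _
    linarith
  -- the pieces
  have hFS : ∀ ℓ, n7sm I H F ℓ - n7sm I H S ℓ = 2 * ρ ℓ := by
    intro ℓ
    rw [hρ, n7_sm_smul, ← n7_sm_lin]
    ring
  have hSs : ∀ ℓ, n7sm I H S ℓ = ∑ j, c j * ∏ i : Fin k, n7f I H (A j) i (ℓ i) := by
    intro ℓ
    rw [hSdef, n7_sm_sum c (fun j ℓ => if ∀ i, ℓ i ∈ A j i then (1 : ℝ) else 0)]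
    refine Finset.sum_congr rfl fun j _ => ?_
    rw [n7_sm_box]
  set D : (Fin k → ℕ) → ℝ := fun ℓ => F ℓ - n7sm I H F ℓ with hD
  have hD1 : ∀ ℓ, |D ℓ| ≤ ε / 32 := by
    intro ℓ
    refine (n7_sm_sub hH (by positivity) hFs ℓ).trans ?_
    have e : (k : ℝ) * H * (ε / (32 * ((k + 1) * H))) = ε / 32 * (k / (k + 1)) := by
      field_simp
    rw [e]
    have h3 : (k : ℝ) / (k + 1) ≤ 1 := by
      rw [div_le_one (by positivity)]
      linarith
    calc ε / 32 * ((k : ℝ) / (k + 1)) ≤ ε / 32 * 1 :=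
          mul_le_mul_of_nonneg_left h3 (by positivity)
      _ = ε / 32 := mul_one _
  have hsplit : ∀ M : ℕ, 1 ≤ M → |Em k M F - Ψ M F| ≤ ε / 16 +
      (∑ j, |Em k M (fun ℓ => ∏ i : Fin k, n7f I H (A j) i (ℓ i)) -
        Ψ M (fun ℓ => ∏ i : Fin k, n7f I H (A j) i (ℓ i))|) + 2 * |Em k M ρ| +
        2 * |Ψ M ρ| := by
    intro M hM
    have e1 : Em k M F - Em k M (n7sm I H F) = Em k M D := (Em_sub' k M F _).symm
    have e2 : Ψ M F - Ψ M (n7sm I H F) = Ψ M D := (hΨs M F _).symm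
    have e3 : Em k M (n7sm I H F) - Em k M (n7sm I H S) = 2 * Em k M ρ := by
      rw [← Em_sub', ← Em_smul']
      congr 1
      funext ℓ
      exact hFS ℓ
    have e4 : Ψ M (n7sm I H F) - Ψ M (n7sm I H S) = 2 * Ψ M ρ := by
      rw [← hΨs, ← hΨc]
      congr 1
      funext ℓ
      exact hFS ℓ
    have e5 : n7sm I H S = fun ℓ => ∑ j, c j * ∏ i : Fin k, n7f I H (A j) i (ℓ i) :=
      funext hSs
    have e6 : Em k M (n7sm I H S) - Ψ M (n7sm I H S) =
        ∑ j, c j * (Em k M (fun ℓ => ∏ i : Fin k, n7f I H (A j) i (ℓ i)) -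
        Ψ M (fun ℓ => ∏ i : Fin k, n7f I H (A j) i (ℓ i))) := by
      rw [e5, Em_fsum k M J (fun j ℓ => c j * ∏ i : Fin k, n7f I H (A j) i (ℓ i)),
        hΨf M J (fun j ℓ => c j * ∏ i : Fin k, n7f I H (A j) i (ℓ i)),
        ← Finset.sum_sub_distrib]
      refine Finset.sum_congr rfl fun j _ => ?_
      rw [Em_smul', hΨc]
      ring
    have h1 : |Em k M D| ≤ ε / 32 := n7_Em_abs hM hD1
    have h2 : |Ψ M D| ≤ ε / 32 := hΨb M hM D _ hD1
    have h3 : |Em k M (n7sm I H S) - Ψ M (n7sm I H S)| ≤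
        ∑ j, |Em k M (fun ℓ => ∏ i : Fin k, n7f I H (A j) i (ℓ i)) -
        Ψ M (fun ℓ => ∏ i : Fin k, n7f I H (A j) i (ℓ i))| := by
      rw [e6]
      refine (Finset.abs_sum_le_sum_abs _ _).trans (Finset.sum_le_sum fun j _ => ?_)
      rw [abs_mul]
      have h4 := mul_le_mul_of_nonneg_right (hc j) (abs_nonneg
        (Em k M (fun ℓ => ∏ i : Fin k, n7f I H (A j) i (ℓ i)) -
          Ψ M (fun ℓ => ∏ i : Fin k, n7f I H (A j) i (ℓ i))))
      rw [one_mul] at h4
      exact h4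
    have e7 : Em k M F - Ψ M F = Em k M D - Ψ M D +
        (Em k M (n7sm I H S) - Ψ M (n7sm I H S)) + 2 * Em k M ρ - 2 * Ψ M ρ := by
      rw [← e1, ← e2, ← e3, ← e4]
      ring
    rw [e7]
    have h5 := abs_sub (Em k M D) (Ψ M D)
    have h6 := abs_add_le (Em k M D - Ψ M D) (Em k M (n7sm I H S) - Ψ M (n7sm I H S))
    have h7 := abs_add_le (Em k M D - Ψ M D + (Em k M (n7sm I H S) - Ψ M (n7sm I H S)))
      (2 * Em k M ρ)
    have h8 := abs_sub (Em k M D - Ψ M D + (Em k M (n7sm I H S) - Ψ M (n7sm I H S)) +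
      2 * Em k M ρ) (2 * Ψ M ρ)
    rw [abs_mul, abs_two] at h7 h8
    linarith
  -- (i) the box part
  have hboxS : ∑ M ∈ W, (1 / (M : ℝ)) *
      (∑ j, |Em k M (fun ℓ => ∏ i : Fin k, n7f I H (A j) i (ℓ i)) -
        Ψ M (fun ℓ => ∏ i : Fin k, n7f I H (A j) i (ℓ i))|) ≤ ε / 4 * Real.log K := by
    simp only [Finset.mul_sum]
    rw [Finset.sum_comm]
    have h2 : ∀ j ∈ (Finset.univ : Finset (Fin J)), ∑ M ∈ W, (1 / (M : ℝ)) *
        |Em k M (fun ℓ => ∏ i : Fin k, n7f I H (A j) i (ℓ i)) -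
        Ψ M (fun ℓ => ∏ i : Fin k, n7f I H (A j) i (ℓ i))| ≤
        ε / (4 * (C + 1)) * Real.log K := fun j _ =>
      hbox N K hNc hKc hKN (n7f I H (A j)) (n7_f_mem hH (A j)) fun i hi x =>
        (n7_f_slow hH (A j) i hi x).trans hHδ
    refine (Finset.sum_le_sum h2).trans ?_
    rw [Finset.sum_const, Finset.card_univ, Fintype.card_fin, nsmul_eq_mul]
    have h3 : (J : ℝ) ≤ C + 1 := by
      have : (J : ℝ) ≤ C := by exact_mod_cast hJ
      linarith
    have h4 : 0 ≤ ε / (4 * ((C : ℝ) + 1)) * Real.log K := by positivity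
    calc (J : ℝ) * (ε / (4 * ((C : ℝ) + 1)) * Real.log K) ≤
        ((C : ℝ) + 1) * (ε / (4 * ((C : ℝ) + 1)) * Real.log K) :=
          mul_le_mul_of_nonneg_right h3 h4
      _ = ε / 4 * Real.log K := by
          field_simp
  -- (ii) the remainder, large scales
  have hif1 : ∀ (M : ℕ) (ℓ : Fin k → ℕ),
      |(if η * Real.log N ≤ Real.log M then ρ ℓ else 0)| ≤ 1 := by
    intro M ℓ
    by_cases h : η * Real.log N ≤ Real.log M
    · rw [if_pos h]
      exact hρ1 ℓ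
    · rw [if_neg h, abs_zero]
      exact zero_le_one
  have hifcut : ∀ δ' : ℝ, δ₁ ≤ δ' → ∀ M ∈ W,
      CutLe k M δ' (fun ℓ => if η * Real.log N ≤ Real.log M then ρ ℓ else 0) := by
    intro δ' hδ' M hM f hf
    by_cases h : η * Real.log N ≤ Real.log M
    · simp only [if_pos h]
      exact (hρcut M (Finset.mem_Ioc.1 hM).2 h f hf).trans hδ'
    · simp only [if_neg h]
      have h0 : Ep k M (fun ℓ => 0 * ∏ i, f i (ℓ i)) = 0 := by
        unfold Ep
        simp
      rw [h0, abs_zero]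
      exact hδ₁.le.trans hδ'
  have hrem1 : ∑ M ∈ W.filter (fun M : ℕ => η * Real.log N ≤ Real.log M),
      (1 / (M : ℝ)) * |Em k M ρ| ≤ ε / 16 * Real.log K := by
    have h1 := hcore N K hNa hKa hKN
      (fun M ℓ => if η * Real.log N ≤ Real.log M then ρ ℓ else 0) hif1 (hifcut δc hδ₁c)
    refine le_trans ?_ h1
    rw [Finset.sum_filter]
    refine Finset.sum_le_sum fun M _ => ?_
    by_cases h : η * Real.log N ≤ Real.log M
    · simp only [if_pos h]
      exact le_rfl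
    · simp only [if_neg h]
      positivity
  have hrem2 : ∑ M ∈ W.filter (fun M : ℕ => η * Real.log N ≤ Real.log M),
      (1 / (M : ℝ)) * |Ψ M ρ| ≤ ε / 16 * Real.log K := by
    have h1 := hP3' N K hNe hKe hKN
      (fun M ℓ => if η * Real.log N ≤ Real.log M then ρ ℓ else 0) hif1 (hifcut δd hδ₁d)
    refine le_trans ?_ h1
    rw [Finset.sum_filter]
    refine Finset.sum_le_sum fun M _ => ?_
    by_cases h : η * Real.log N ≤ Real.log M
    · simp only [if_pos h]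
      exact le_rfl
    · simp only [if_neg h]
      positivity
  -- (iii) the small scales
  have hsmall : ∑ M ∈ W.filter (fun M : ℕ => ¬ η * Real.log N ≤ Real.log M),
      (1 / (M : ℝ)) * |Em k M F - Ψ M F| ≤ 2 + ε / 16 * Real.log K := by
    have htriv : ∀ M ∈ W, |Em k M F - Ψ M F| ≤ 2 := by
      intro M hM
      have h2 := n7_Em_abs (hW1 M hM) hF
      have h3 := hΨb M (hW1 M hM) F 1 hF
      have := abs_sub (Em k M F) (Ψ M F)
      linarith
    rcases Finset.eq_empty_or_nonempty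
      (W.filter (fun M : ℕ => ¬ η * Real.log N ≤ Real.log M)) with hemp | ⟨M0, hM0⟩
    · rw [hemp, Finset.sum_empty]
      positivity
    · rw [Finset.mem_filter, not_le] at hM0
      have hM0W := Finset.mem_Ioc.1 hM0.1
      have hM0pos : (0 : ℝ) < M0 := by
        have : 0 < M0 := lt_of_le_of_lt (Nat.zero_le _) hM0W.1
        exact_mod_cast this
      have h1 : (N : ℝ) < M0 * K := by
        have := (Nat.div_lt_iff_lt_mul hK1).1 hM0W.1
        exact_mod_cast this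
      have h2 : Real.log N ≤ Real.log M0 + Real.log K := by
        rw [← Real.log_mul hM0pos.ne' hKr.ne']
        exact Real.log_le_log hNr h1.le
      have hlogN0 : 0 ≤ Real.log N := Real.log_nonneg (by exact_mod_cast hN1)
      have h3 : Real.log N ≤ 2 * Real.log K := by
        have h4 : η * Real.log N ≤ 1 / 2 * Real.log N := mul_le_mul_of_nonneg_right hη2 hlogN0
        linarith [hM0.2]
      calc ∑ M ∈ W.filter (fun M : ℕ => ¬ η * Real.log N ≤ Real.log M),
            (1 / (M : ℝ)) * |Em k M F - Ψ M F|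
          ≤ ∑ M ∈ W.filter (fun M : ℕ => ¬ η * Real.log N ≤ Real.log M), (1 / (M : ℝ)) * 2 := by
            refine Finset.sum_le_sum fun M hM => ?_
            exact mul_le_mul_of_nonneg_left (htriv M (Finset.mem_filter.1 hM).1) (by positivity)
        _ ≤ ∑ M ∈ (Finset.Icc 1 N).filter (fun M : ℕ => ¬ η * Real.log N ≤ Real.log M),
            (1 / (M : ℝ)) * 2 := by
            apply Finset.sum_le_sum_of_subset_of_nonneg
            · intro M hM
              rw [Finset.mem_filter] at hM ⊢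
              have h5 := Finset.mem_Ioc.1 hM.1
              refine ⟨Finset.mem_Icc.2 ⟨?_, h5.2⟩, hM.2⟩
              exact Nat.succ_le_of_lt (lt_of_le_of_lt (Nat.zero_le _) h5.1)
            · intro M _ _
              positivity
        _ = 2 * ∑ M ∈ (Finset.Icc 1 N).filter (fun M : ℕ => ¬ η * Real.log N ≤ Real.log M),
            (1 / (M : ℝ)) := by
            rw [← Finset.sum_mul, mul_comm]
        _ ≤ 2 * (1 + η * Real.log N) :=
            mul_le_mul_of_nonneg_left (n7_small N hN1 η hη0) (by norm_num)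
        _ ≤ 2 + ε / 16 * Real.log K := by
            have h6 : η * Real.log N ≤ ε / 64 * (2 * Real.log K) :=
              mul_le_mul hη1 h3 hlogN0 (by positivity)
            linarith
  -- assembly
  have hharm := harm_window N K hK1 hKN
  have hlarge : ∑ M ∈ W.filter (fun M : ℕ => η * Real.log N ≤ Real.log M),
      (1 / (M : ℝ)) * |Em k M F - Ψ M F| ≤
      ε / 16 * (Real.log K + 2) + ε / 4 * Real.log K + 2 * (ε / 16 * Real.log K) +
        2 * (ε / 16 * Real.log K) := by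
    calc ∑ M ∈ W.filter (fun M : ℕ => η * Real.log N ≤ Real.log M),
          (1 / (M : ℝ)) * |Em k M F - Ψ M F|
        ≤ ∑ M ∈ W.filter (fun M : ℕ => η * Real.log N ≤ Real.log M),
          ((1 / (M : ℝ)) * (ε / 16) + (1 / (M : ℝ)) *
            (∑ j, |Em k M (fun ℓ => ∏ i : Fin k, n7f I H (A j) i (ℓ i)) -
              Ψ M (fun ℓ => ∏ i : Fin k, n7f I H (A j) i (ℓ i))|) +
            2 * ((1 / (M : ℝ)) * |Em k M ρ|) + 2 * ((1 / (M : ℝ)) * |Ψ M ρ|)) := by
          refine Finset.sum_le_sum fun M hM => ?_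
          have h1 := hsplit M (hW1 M (Finset.mem_filter.1 hM).1)
          have h2 : (0 : ℝ) ≤ 1 / (M : ℝ) := by positivity
          have h3 := mul_le_mul_of_nonneg_left h1 h2
          refine h3.trans (le_of_eq ?_)
          ring
      _ = ∑ M ∈ W.filter (fun M : ℕ => η * Real.log N ≤ Real.log M), (1 / (M : ℝ)) * (ε / 16) +
          ∑ M ∈ W.filter (fun M : ℕ => η * Real.log N ≤ Real.log M), (1 / (M : ℝ)) *
            (∑ j, |Em k M (fun ℓ => ∏ i : Fin k, n7f I H (A j) i (ℓ i)) -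
              Ψ M (fun ℓ => ∏ i : Fin k, n7f I H (A j) i (ℓ i))|) +
          2 * ∑ M ∈ W.filter (fun M : ℕ => η * Real.log N ≤ Real.log M),
            (1 / (M : ℝ)) * |Em k M ρ| +
          2 * ∑ M ∈ W.filter (fun M : ℕ => η * Real.log N ≤ Real.log M),
            (1 / (M : ℝ)) * |Ψ M ρ| := by
          rw [Finset.sum_add_distrib, Finset.sum_add_distrib, Finset.sum_add_distrib,
            Finset.mul_sum, Finset.mul_sum]
      _ ≤ ε / 16 * (Real.log K + 2) + ε / 4 * Real.log K + 2 * (ε / 16 * Real.log K) +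
          2 * (ε / 16 * Real.log K) := by
          refine add_le_add (add_le_add (add_le_add ?_ ?_)
            (mul_le_mul_of_nonneg_left hrem1 (by norm_num)))
            (mul_le_mul_of_nonneg_left hrem2 (by norm_num))
          · rw [← Finset.sum_mul, mul_comm]
            refine mul_le_mul_of_nonneg_left ?_ (by positivity)
            refine le_trans ?_ hharm
            apply Finset.sum_le_sum_of_subset_of_nonneg (Finset.filter_subset _ _)
            intro M _ _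
            positivity
          · refine le_trans ?_ hboxS
            apply Finset.sum_le_sum_of_subset_of_nonneg (Finset.filter_subset _ _)
            intro M _ _
            exact mul_nonneg (by positivity) (Finset.sum_nonneg fun _ _ => abs_nonneg _)
  rw [← Finset.sum_filter_add_sum_filter_not W (fun M : ℕ => η * Real.log N ≤ Real.log M)]
  have h1 := add_le_add hlarge hsmall
  refine h1.trans ?_
  have h2 : ε / 16 * 2 ≤ ε / 16 * Real.log K := mul_le_mul_of_nonneg_left hlogK2 (by positivity)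
  nlinarith

private lemma n7_R_sub {I : Finset ℕ} {M k : ℕ} (F G : (Fin k → ℕ) → ℝ) :
    n7R I M (fun l => F l - G l) = fun l => n7R I M F l - n7R I M G l := by
  funext l
  unfold n7R
  rw [Finset.sum_sub_distrib]
  ring

private lemma n7_R_smul {I : Finset ℕ} {M k : ℕ} (c : ℝ) (F : (Fin k → ℕ) → ℝ) :
    n7R I M (fun l => c * F l) = fun l => c * n7R I M F l := by
  funext l
  unfold n7R
  rw [← Finset.mul_sum]
  ring

private lemma n7_R_fsum {I : Finset ℕ} {M k J : ℕ} (F : Fin J → (Fin k → ℕ) → ℝ) :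
    n7R I M (fun l => ∑ j, F j l) = fun l => ∑ j, n7R I M (F j) l := by
  funext l
  unfold n7R
  rw [Finset.sum_comm, Finset.mul_sum]

private lemma n7_Ep_prod {k M : ℕ} (f : ℕ → ℕ → ℝ) :
    Ep (k + 1) M (fun l => ∏ i : Fin (k + 1), f i (l i)) = ∏ i ∈ range (k + 1), Mn M (f i) := by
  unfold Ep
  have h1 : ∑ m ∈ Fintype.piFinset (fun _ : Fin (k + 1) => Icc 1 M), ∏ i : Fin (k + 1),
      f i (ArithmeticFunction.cardFactors (m i)) =
      ∏ i : Fin (k + 1), ∑ x ∈ Icc 1 M, f i (ArithmeticFunction.cardFactors x) :=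
    (Finset.prod_univ_sum (fun _ : Fin (k + 1) => Icc 1 M) (fun (i : Fin (k + 1)) (x : ℕ) =>
      f i (ArithmeticFunction.cardFactors x))).symm
  have h2 : 1 / (M : ℝ) ^ (k + 1) = ∏ _i : Fin (k + 1), 1 / (M : ℝ) := by
    rw [Finset.prod_const, Finset.card_univ, Fintype.card_fin, one_div_pow]
  simp only
  rw [h1, h2, ← Finset.prod_mul_distrib]
  exact Fin.prod_univ_eq_prod_range (fun i => Mn M (f i)) (k + 1)

private lemma n7_Mn_mem {ψ : ℕ → ℝ} (h : ∀ x, 0 ≤ ψ x ∧ ψ x ≤ 1) (M : ℕ) :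
    0 ≤ Mn M ψ ∧ Mn M ψ ≤ 1 := by
  unfold Mn
  constructor
  · exact mul_nonneg (by positivity) (Finset.sum_nonneg fun n _ => (h _).1)
  · have h1 : ∑ n ∈ Icc 1 M, ψ (ArithmeticFunction.cardFactors n) ≤ (M : ℝ) := by
      refine le_trans (Finset.sum_le_card_nsmul _ _ 1 fun n _ => (h _).2) ?_
      simp
    rcases Nat.eq_zero_or_pos M with hM | hM
    · subst hM
      simp
    · have hM' : (0 : ℝ) < M := by exact_mod_cast hM
      rw [one_div, inv_mul_le_iff₀ hM', mul_one]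
      exact h1

private lemma n7_shift_sum {g : ℕ → ℝ} (hg : ∀ n, 0 ≤ g n ∧ g n ≤ 1) (M a : ℕ) :
    |∑ n ∈ Icc 1 M, g (n + a) - ∑ n ∈ Icc 1 M, g n| ≤ a := by
  induction a with
  | zero => simp
  | succ a ih =>
    have h1 : |∑ n ∈ Icc 1 M, g (n + (a + 1)) - ∑ n ∈ Icc 1 M, g (n + a)| ≤ 1 := by
      have e : ∀ h : ℕ → ℝ, ∑ n ∈ Icc 1 M, h n = ∑ n ∈ range M, h (n + 1) := by
        intro h
        rw [Finset.range_eq_Ico, Finset.sum_Ico_add' (fun n => h n) 0 M 1]
        rfl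
      rw [e, e, ← Finset.sum_sub_distrib]
      have e2 : ∀ n ∈ range M, g (n + 1 + (a + 1)) - g (n + 1 + a) =
          (fun m => g (m + (a + 1))) (n + 1) - (fun m => g (m + (a + 1))) n := by
        intro n _
        have : n + 1 + a = n + (a + 1) := by ring
        simp only [this]
      rw [Finset.sum_congr rfl e2, Finset.sum_range_sub (fun m => g (m + (a + 1))) M]
      have h2 := hg (M + (a + 1))
      have h3 := hg (0 + (a + 1))
      rw [abs_le]
      constructor <;> linarith [h2.1, h2.2, h3.1, h3.2]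
    have h2 := abs_sub_le (∑ n ∈ Icc 1 M, g (n + (a + 1))) (∑ n ∈ Icc 1 M, g (n + a))
      (∑ n ∈ Icc 1 M, g n)
    push_cast
    linarith

private lemma n7_pair {k a b M : ℕ} (hab : a < b) (hbk : b ≤ k) (f : ℕ → ℕ → ℝ)
    (hf : ∀ i x, 0 ≤ f i x ∧ f i x ≤ 1) :
    |Pr k M (keepS {a, b} f) - (1 / (M : ℝ)) * ∑ n ∈ Icc 1 M,
      f a (ArithmeticFunction.cardFactors n) *
        f b (ArithmeticFunction.cardFactors (n + (b - a)))| ≤ a * (1 / (M : ℝ)) := by
  set g : ℕ → ℝ := fun n => f a (ArithmeticFunction.cardFactors n) *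
    f b (ArithmeticFunction.cardFactors (n + (b - a))) with hg
  have hg1 : ∀ n, 0 ≤ g n ∧ g n ≤ 1 := by
    intro n
    have h1 := hf a (ArithmeticFunction.cardFactors n)
    have h2 := hf b (ArithmeticFunction.cardFactors (n + (b - a)))
    exact ⟨mul_nonneg h1.1 h2.1, mul_le_one₀ h1.2 h2.1 h2.2⟩
  have e1 : Pr k M (keepS {a, b} f) = (1 / (M : ℝ)) * ∑ n ∈ Icc 1 M, g (n + a) := by
    unfold Pr
    congr 1
    refine Finset.sum_congr rfl fun n _ => ?_
    have h3 : ({a, b} : Finset ℕ) ⊆ range (k + 1) := by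
      intro x hx
      rw [Finset.mem_insert, Finset.mem_singleton] at hx
      rw [Finset.mem_range]
      omega
    rw [← Finset.prod_subset h3 (fun x _ hx => by
      unfold keepS
      rw [if_neg hx]), Finset.prod_pair hab.ne]
    unfold keepS
    rw [if_pos (Finset.mem_insert_self a {b}),
      if_pos (Finset.mem_insert_of_mem (Finset.mem_singleton_self b))]
    rw [hg]
    simp only
    have h4 : n + a + (b - a) = n + b := by omega
    rw [h4]
  rw [e1, ← mul_sub, abs_mul, abs_of_nonneg (by positivity : (0 : ℝ) ≤ 1 / (M : ℝ)), mul_comm]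
  exact mul_le_mul_of_nonneg_right (n7_shift_sum hg1 M a) (by positivity)

private lemma n7_sq (N K : ℕ) (hK : 1 ≤ K) (hKN : K ≤ N) :
    ∑ M ∈ Ioc (N / K) N, (1 / (M : ℝ)) * (1 / (M : ℝ)) ≤ 1 := by
  have ha : 1 ≤ N / K := (Nat.one_le_div_iff (by omega)).2 hKN
  have hle : N / K ≤ N := Nat.div_le_self _ _
  have h1 := sum_Ioc_inv_sq_le_sub (α := ℝ) (k := N / K) (n := N) (by omega) hle
  have h2 : ∀ M ∈ Ioc (N / K) N, (1 / (M : ℝ)) * (1 / (M : ℝ)) = ((M : ℝ) ^ 2)⁻¹ := by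
    intro M _
    rw [one_div, ← mul_inv, sq]
  rw [Finset.sum_congr rfl h2]
  refine h1.trans ?_
  have h3 : ((N / K : ℕ) : ℝ)⁻¹ ≤ 1 := by
    apply inv_le_one_of_one_le₀
    exact_mod_cast ha
  have h4 : (0 : ℝ) ≤ (N : ℝ)⁻¹ := by positivity
  linarith

end Aux

theorem setSt (hE : ∀ k, 1 ≤ k → ∀ i₀, i₀ ≤ k → EndSt k i₀) (k : ℕ) (I : Finset ℕ) :
    ∀ ε : ℝ, 0 < ε → ∃ δ : ℝ, 0 < δ ∧ ∃ K0 N0 : ℕ, ∀ N K : ℕ, N0 ≤ N → K0 ≤ K → K ≤ N →
      ∀ F : (Fin k → ℕ) → ℝ, (∀ l, |F l| ≤ 1) → SlowOutS k I δ F →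
        ∑ M ∈ Ioc (N / K) N, (1 / (M : ℝ)) * |Ec k M F - MxS k I M F| ≤ ε * Real.log K := by
  intro ε hε
  rcases Nat.eq_zero_or_pos k with hk | hk
  · subst hk
    refine ⟨1, one_pos, 1, 0, fun N K _ hK _ F _ _ => ?_⟩
    rw [Finset.sum_eq_zero]
    · exact mul_nonneg hε.le (Real.log_nonneg (by exact_mod_cast hK))
    · intro M _
      have h : Ec 0 M F = MxS 0 I M F := by
        unfold Ec MxS
        congr 1
        refine Finset.sum_congr rfl fun n _ => ?_
        have h0 : ∀ l l' : Fin 0 → ℕ, F l = F l' := fun l l' => by rw [Subsingleton.elim l l']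
        rw [Finset.sum_congr rfl (fun m _ => h0 _ (fun i => ArithmeticFunction.cardFactors
          (n + i))), Finset.sum_const, nsmul_eq_mul, Fintype.card_piFinset]
        simp
      rw [h, sub_self, abs_zero, mul_zero]
  · obtain ⟨k', rfl⟩ : ∃ k', k = k' + 1 := ⟨k - 1, by omega⟩
    refine n7_gen (k' + 1) I hk (fun M F => MxS (k' + 1) I M F) ?_ ?_ ?_ ?_ ?_ ?_ ε hε
    · intro M hM F B hF
      exact n7_Em_abs hM (n7_R_abs hM hF)
    · intro M F G
      show Helper13.Om.Em (k' + 1) M (n7R I M (fun l => F l - G l)) = _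
      rw [n7_R_sub, Helper11.QR.Em_sub']
      rfl
    · intro M c F
      show Helper13.Om.Em (k' + 1) M (n7R I M (fun l => c * F l)) = _
      rw [n7_R_smul, Helper11.QR.Em_smul']
      rfl
    · intro M J F
      show Helper13.Om.Em (k' + 1) M (n7R I M (fun l => ∑ j, F j l)) = _
      rw [n7_R_fsum, Helper11.QR.Em_fsum (k' + 1) M J (fun j l => n7R I M (F j) l)]
      rfl
    · intro ε' hε'
      obtain ⟨δ, hδ, K0, N0, h⟩ := set_prod hE k' I ε' hε'
      refine ⟨δ, hδ, K0, N0, fun N K hN hK hKN f hf hs => ?_⟩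
      refine le_trans (Finset.sum_le_sum fun M hM => ?_)
        (h N K hN hK hKN f hf fun i _ hi x => hs i hi x)
      have hM1 : 1 ≤ M :=
        Nat.succ_le_of_lt (lt_of_le_of_lt (Nat.zero_le _) (Finset.mem_Ioc.1 hM).1)
      have e1 : Helper13.Om.Em (k' + 1) M (fun l => ∏ i : Fin (k' + 1), f i (l i)) = Pr k' M f :=
        n7_Ec_prod k' M f
      rw [e1, n7_Mx_prod hM1 f]
    · intro ε' hε'
      obtain ⟨δ, hδ, K0, N0, h⟩ := Helper11.QR.coreW (k' + 1) hk ε' hε'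
      refine ⟨δ, hδ, K0, N0, fun N K hN hK hKN F hF hcut => ?_⟩
      have h1 := h N K hN hK hKN (fun M => if 1 ≤ M then n7R I M (F M) else fun _ => 0)
        (fun M l => by
          by_cases hM : 1 ≤ M
          · simp only [if_pos hM]
            exact n7_R_abs hM (hF M) l
          · simp only [if_neg hM, abs_zero]
            exact zero_le_one)
        (fun M hM => by
          have hM1 : 1 ≤ M :=
            Nat.succ_le_of_lt (lt_of_le_of_lt (Nat.zero_le _) (Finset.mem_Ioc.1 hM).1)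
          simp only [if_pos hM1]
          exact n7_R_cut hM1 (hcut M hM))
      refine le_trans (le_of_eq (Finset.sum_congr rfl fun M hM => ?_)) h1
      have hM1 : 1 ≤ M :=
        Nat.succ_le_of_lt (lt_of_le_of_lt (Nat.zero_le _) (Finset.mem_Ioc.1 hM).1)
      simp only [if_pos hM1]
      rfl

theorem twoSet (hE : ∀ k, 1 ≤ k → ∀ i₀, i₀ ≤ k → EndSt k i₀) (k a b : ℕ) (hab : a < b)
    (hbk : b < k) (hT : TwoPt (b - a)) :
    ∀ ε : ℝ, 0 < ε → ∃ δ : ℝ, 0 < δ ∧ ∃ K0 N0 : ℕ, ∀ N K : ℕ, N0 ≤ N → K0 ≤ K → K ≤ N →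
      ∀ F : (Fin k → ℕ) → ℝ, (∀ l, |F l| ≤ 1) → SlowOutS k {a, b} δ F →
        ∑ M ∈ Ioc (N / K) N, (1 / (M : ℝ)) * |Ec k M F - EpD k M F| ≤ ε * Real.log K := by
  intro ε hε
  have hk : 1 ≤ k := by omega
  obtain ⟨k', rfl⟩ : ∃ k', k = k' + 1 := ⟨k - 1, by omega⟩
  refine n7_gen (k' + 1) {a, b} hk (fun M F => EpD (k' + 1) M F) ?_ ?_ ?_ ?_ ?_ ?_ ε hε
  · intro M hM F B hF
    exact n7_Ep_abs hM hF
  · intro M F G
    unfold EpD
    rw [Finset.sum_sub_distrib]
    ring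
  · intro M c F
    unfold EpD
    rw [← Finset.mul_sum]
    ring
  · intro M J F
    unfold EpD
    rw [Finset.sum_comm, Finset.mul_sum]
  · intro ε' hε'
    obtain ⟨δ, hδ, K0, N0, h⟩ := set_prod hE k' {a, b} (ε' / 3) (by positivity)
    obtain ⟨K1, N1, h1⟩ := hT (ε' / 3) (by positivity)
    obtain ⟨K2, hK2⟩ : ∃ K2 : ℕ, Real.exp (3 * a / ε') ≤ K2 := exists_nat_ge _
    refine ⟨δ, hδ, max K0 (max K1 (max K2 1)), max N0 N1,
      fun N K hN hK hKN f hf hs => ?_⟩
    simp only [max_le_iff] at hN hK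
    obtain ⟨hN0, hN1⟩ := hN
    obtain ⟨hK0, hK1', hK2', hK1⟩ := hK
    have hKr : (0 : ℝ) < K := by exact_mod_cast hK1
    have hlogK : a ≤ ε' / 3 * Real.log K := by
      have h3 : 3 * a / ε' ≤ Real.log K := by
        rw [Real.le_log_iff_exp_le hKr]
        exact hK2.trans (by exact_mod_cast hK2')
      rw [div_le_iff₀ hε'] at h3
      linarith
    have a1 := h N K hN0 hK0 hKN f hf fun i _ hi x => hs i hi x
    have a2 := h1 N K hN1 hK1' hKN (f a) (f b) (hf a) (hf b)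
    have a3 := n7_sq N K hK1 hKN
    have e : ε' * Real.log K = ε' / 3 * Real.log K + ε' / 3 * Real.log K +
      ε' / 3 * Real.log K := by ring
    have a3' : ∑ M ∈ Ioc (N / K) N, (1 / (M : ℝ)) * (a * (1 / (M : ℝ))) ≤
        ε' / 3 * Real.log K := by
      have e4 : ∑ M ∈ Ioc (N / K) N, (1 / (M : ℝ)) * (a * (1 / (M : ℝ))) =
          a * ∑ M ∈ Ioc (N / K) N, (1 / (M : ℝ)) * (1 / (M : ℝ)) := by
        rw [Finset.mul_sum]
        refine Finset.sum_congr rfl fun M _ => ?_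
        ring
      rw [e4]
      have h5 : (0 : ℝ) ≤ a := Nat.cast_nonneg a
      have h6 := mul_le_mul_of_nonneg_left a3 h5
      rw [mul_one] at h6
      exact h6.trans hlogK
    rw [e]
    refine le_trans ?_ (add_le_add (add_le_add a1 a2) a3')
    rw [← Finset.sum_add_distrib, ← Finset.sum_add_distrib]
    refine Finset.sum_le_sum fun M hM => ?_
    rw [← mul_add, ← mul_add]
    refine mul_le_mul_of_nonneg_left ?_ (by positivity)
    have e1 : Helper13.Om.Em (k' + 1) M (fun l => ∏ i : Fin (k' + 1), f i (l i)) = Pr k' M f :=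
      n7_Ec_prod k' M f
    have e2 : EpD (k' + 1) M (fun l => ∏ i : Fin (k' + 1), f i (l i)) =
        ∏ i ∈ range (k' + 1), Mn M (f i) := n7_Ep_prod f
    rw [e1, e2]
    have e3 : ∏ i ∈ range (k' + 1), Mn M (f i) =
        (∏ i ∈ (range (k' + 1)).filter (fun i => i ∉ ({a, b} : Finset ℕ)), Mn M (f i)) *
          (Mn M (f a) * Mn M (f b)) := by
      have h4 : (range (k' + 1)).filter (fun i => i ∈ ({a, b} : Finset ℕ)) = {a, b} := by
        ext i
        rw [Finset.mem_filter, Finset.mem_insert, Finset.mem_singleton, Finset.mem_range]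
        omega
      rw [← Finset.prod_filter_mul_prod_filter_not (range (k' + 1))
        (fun i => i ∈ ({a, b} : Finset ℕ)), h4, Finset.prod_pair hab.ne, mul_comm]
    rw [e3]
    set P : ℝ := ∏ i ∈ (range (k' + 1)).filter (fun i => i ∉ ({a, b} : Finset ℕ)), Mn M (f i)
      with hP
    have hP0 : 0 ≤ P := Finset.prod_nonneg fun i _ => (n7_Mn_mem (hf i) M).1
    have hP1 : P ≤ 1 := Finset.prod_le_one (fun i _ => (n7_Mn_mem (hf i) M).1)
      fun i _ => (n7_Mn_mem (hf i) M).2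
    have h7 := n7_pair (k := k') (M := M) hab (by omega) f hf
    set Q : ℝ := (1 / (M : ℝ)) * ∑ n ∈ Icc 1 M, f a (ArithmeticFunction.cardFactors n) *
      f b (ArithmeticFunction.cardFactors (n + (b - a))) with hQ
    have e5 : Pr k' M f - P * (Mn M (f a) * Mn M (f b)) =
        (Pr k' M f - P * Pr k' M (keepS {a, b} f)) + P * (Q - Mn M (f a) * Mn M (f b)) +
          P * (Pr k' M (keepS {a, b} f) - Q) := by ring
    rw [e5]
    refine (abs_add_le _ _).trans (add_le_add ((abs_add_le _ _).trans (add_le_add le_rfl ?_)) ?_)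
    · rw [abs_mul, abs_of_nonneg hP0]
      exact mul_le_of_le_one_left (abs_nonneg _) hP1
    · rw [abs_mul, abs_of_nonneg hP0]
      exact (mul_le_of_le_one_left (abs_nonneg _) hP1).trans h7
  · intro ε' hε'
    refine ⟨ε' / 2, by positivity, 8, 0, fun N K _ hK hKN F _ hcut => ?_⟩
    have hK1 : 1 ≤ K := by omega
    have hKr : (0 : ℝ) < K := by exact_mod_cast hK1
    have h1 : ∀ M ∈ Ioc (N / K) N, (1 / (M : ℝ)) * |EpD (k' + 1) M (F M)| ≤
        (1 / (M : ℝ)) * (ε' / 2) := by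
      intro M hM
      refine mul_le_mul_of_nonneg_left ?_ (by positivity)
      have h2 := hcut M hM (fun _ _ => 1) (fun _ _ => by norm_num)
      have e1 : (fun ℓ : Fin (k' + 1) → ℕ => F M ℓ * ∏ _i : Fin (k' + 1), (1 : ℝ)) = F M := by
        funext ℓ
        rw [Finset.prod_const_one, mul_one]
      rw [e1] at h2
      exact h2
    refine (Finset.sum_le_sum h1).trans ?_
    rw [← Finset.sum_mul]
    have h3 := Helper11.QR.harm_window N K hK1 hKN
    have h4 : 2 ≤ Real.log K := by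
      rw [Real.le_log_iff_exp_le hKr]
      have h5 : Real.exp 2 ≤ 8 := by
        have h6 := Real.exp_one_lt_d9
        have h7 : Real.exp 2 = Real.exp 1 * Real.exp 1 := by
          rw [← Real.exp_add]
          norm_num
        rw [h7]
        nlinarith [Real.exp_pos 1]
      refine h5.trans ?_
      exact_mod_cast hK
    have h8 := mul_le_mul_of_nonneg_right h3 (by positivity : (0 : ℝ) ≤ ε' / 2)
    refine h8.trans ?_
    nlinarith

end DG
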