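import Pool.Agent.Helper6.DG.N0
import Pool.Agent.Helper41.DG.CoreArith

/-!
# DG-N2: vanishing box functionals; one end function with vanishing correlations

PROOF.
* `cz_finite`: `(fej N).E γ` for `γ` bounded by `C`, zero outside the finite set `s`: for each value
 `n` there are at most `N + 1` pairs `(i, j)` with `i - j = n`, so the norm is
 `≤ C |s| (N+1) / (N+1)² → 0`; limit along the hyperfilter (`cz_tendsto`).
* `box_zero`: for a finite nonempty set `s` of integers put `g_s x = ∏_{a ∈ s} g (T^a x)`. Claim by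
 induction on `k`: `box X (replicate k r) g_s = 0` for all nonempty `s`. `k = 0`: `Cen`. `k + 1`: the function
 under `cz` is, as `g` is real valued (`hreal`), `h ↦ box X (replicate k r) (g_s * g_s ∘ T^(r h))`; if `s` and
 `s + r h` are disjoint, the product is `g_{s ∪ (s + r h)}` and the value is `0` by induction. As
 `r ≠ 0`, this holds for all `h` outside the finite set `{h | ∃ a b ∈ s, a = b + r h}`; `cz_finite`
 (the function is bounded: `box` of a function bounded by `1` is bounded by `1`, easy induction).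
 Finally `s = {0}`.
* `rev_cor`: `E[cor (revS X) k (G (k - ·)) m] = E[cor X k G m]`: in `revS X` the powers are
 `(T⁻¹)^(i m) = T^(-i m)`; replace `x` by `T^(k m) x` (`inv_zpow`), reflect the product
 (`Finset.prod_range_reflect`).
* `cen_rev`: `Cen X g → Cen (revS X) g` (replace `s` by `-s`).
* `end_small`: `i₀ = k`: `CA.small D hD k (hBL k hk) (hSVT k) hPR (ε²)` gives `b > 0`; all box functionals of `g` are `0 ≤ b`
 (`box_zero`), so with `e = 1`: for large `N`, `w`, `Y` and all `G` with `G k = g`: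
 `(1/|P'|) ∑_{p'} ‖avP P (p ↦ E cor (p p'))‖² ≤ ε²`, and Cauchy-Schwarz (`CA.norm_avg_le_of_sq`) gives
 `‖avP P (p ↦ avP P' (p' ↦ E cor X k G (p p')))‖ ≤ ε` (exchange the two sums). `i₀ = 0`: the same for `revS X` and
 `G' i = G (k - i)` (for `i ≤ k`; `1` otherwise), `rev_cor`.
-/

set_option autoImplicit false

namespace DG

open Finset Filter Topology

private theorem fej_bound (N : ℕ) (γ : ℤ → ℂ) {C : ℝ} (hC : ∀ n, ‖γ n‖ ≤ C) (s : Finset ℤ)
    (h : ∀ n, n ∉ s → γ n = 0) : ‖(fej N).E γ‖ ≤ (s.card * C) / ((N : ℝ) + 1) := by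
  have hC0 : 0 ≤ C := (norm_nonneg _).trans (hC 0)
  have hN : (0 : ℝ) < (N : ℝ) + 1 := by positivity
  rw [fej_E, norm_div, norm_pow, Complex.norm_natCast]
  have h1 : ∀ i ∈ range (N + 1), ‖∑ j ∈ range (N + 1), γ ((i : ℤ) - (j : ℤ))‖ ≤ s.card * C := by
    intro i _
    have h2 : ∑ j ∈ range (N + 1), γ ((i : ℤ) - (j : ℤ)) =
        ∑ j ∈ (range (N + 1)).filter (fun j : ℕ => (i : ℤ) - (j : ℤ) ∈ s), γ ((i : ℤ) - (j : ℤ)) := by
      symm
      apply Finset.sum_subset (Finset.filter_subset _ _)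
      intro j hj hj2
      apply h
      intro hmem
      exact hj2 (Finset.mem_filter.2 ⟨hj, hmem⟩)
    rw [h2]
    refine (norm_sum_le _ _).trans ?_
    refine (Finset.sum_le_card_nsmul _ _ C (fun j _ => hC _)).trans ?_
    rw [nsmul_eq_mul]
    apply mul_le_mul_of_nonneg_right _ hC0
    have h3 : ((range (N + 1)).filter (fun j : ℕ => (i : ℤ) - (j : ℤ) ∈ s)).card ≤ s.card := by
      apply Finset.card_le_card_of_injOn (fun j : ℕ => (i : ℤ) - (j : ℤ))
      · intro j hj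
        exact (Finset.mem_filter.1 hj).2
      · intro a _ b _ hab
        have : (i : ℤ) - (a : ℤ) = (i : ℤ) - (b : ℤ) := hab
        omega
    exact_mod_cast h3
  have h4 : ‖∑ i ∈ range (N + 1), ∑ j ∈ range (N + 1), γ ((i : ℤ) - (j : ℤ))‖ ≤
      ((N : ℝ) + 1) * (s.card * C) := by
    refine (norm_sum_le _ _).trans ?_
    refine (Finset.sum_le_card_nsmul _ _ _ h1).trans (le_of_eq ?_)
    rw [card_range, nsmul_eq_mul]
    push_cast
    ring
  rw [div_le_div_iff₀ (by positivity) hN]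
  push_cast
  calc _ ≤ ((N : ℝ) + 1) * (s.card * C) * ((N : ℝ) + 1) := mul_le_mul_of_nonneg_right h4 hN.le
    _ = _ := by ring

theorem cz_finite (γ : ℤ → ℂ) (hγ : Bd γ) (s : Finset ℤ) (h : ∀ n, n ∉ s → γ n = 0) :
    cz.E γ = 0 := by
  have h1 := cz_tendsto γ hγ
  obtain ⟨C, hC⟩ := hγ
  have h5 : Tendsto (fun N : ℕ => (s.card * C) / ((N : ℝ) + 1)) atTop (𝓝 0) :=
    tendsto_const_nhds.div_atTop (tendsto_natCast_atTop_atTop.atTop_add tendsto_const_nhds)
  have h4 : Tendsto (fun N => (fej N).E γ) (hyperfilter ℕ : Filter ℕ) (𝓝 0) :=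
    squeeze_zero_norm (fun N => fej_bound N γ hC s h) (h5.mono_left Nat.hyperfilter_le_atTop)
  exact tendsto_nhds_unique h1 h4

private theorem box_norm_le (X : Sys) (l : List ℤ) : ∀ g : X.S → ℂ, (∀ x, ‖g x‖ ≤ 1) →
    ‖box X l g‖ ≤ 1 := by
  induction l with
  | nil =>
    intro g hg
    exact X.μ.norm_E_le g hg
  | cons a l ih =>
    intro g hg
    refine cz.norm_E_le _ (fun h => ih _ (fun x => ?_))
    rw [norm_mul, RCLike.norm_conj]
    calc ‖g x‖ * ‖g ((X.T ^ (a * h)) x)‖ ≤ 1 * 1 :=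
          mul_le_mul (hg x) (hg _) (norm_nonneg _) zero_le_one
      _ = 1 := one_mul 1

private theorem box_zero_aux (X : Sys) (g : X.S → ℂ) (hg : ∀ x, ‖g x‖ ≤ 1)
    (hreal : ∀ x, (starRingEnd ℂ) (g x) = g x) (hcen : Cen X g) (r : ℤ) (hr : r ≠ 0) (k : ℕ) :
    ∀ s : Finset ℤ, s.Nonempty →
      box X (List.replicate k r) (fun x => ∏ a ∈ s, g ((X.T ^ a) x)) = 0 := by
  induction k with
  | zero =>
    intro s hs
    exact hcen s hs
  | succ k ih =>
    intro s hs
    rw [List.replicate_succ]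
    show cz.E (fun h => box X (List.replicate k r) (fun x => (∏ a ∈ s, g ((X.T ^ a) x)) *
      (starRingEnd ℂ) (∏ a ∈ s, g ((X.T ^ a) ((X.T ^ (r * h)) x))))) = 0
    have hb : ∀ y : X.S, ‖∏ a ∈ s, g ((X.T ^ a) y)‖ ≤ 1 := fun y =>
      prod_norm_le_one s _ (fun a _ => hg _)
    apply cz_finite _ _ ((s ×ˢ s).image (fun p : ℤ × ℤ => (p.1 - p.2) / r))
    · intro h hh
      have hdisj : Disjoint s (s.image (fun a => a + r * h)) := by
        rw [Finset.disjoint_left]
        intro a ha ha2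
        obtain ⟨b, hb1, hb2⟩ := Finset.mem_image.1 ha2
        apply hh
        refine Finset.mem_image.2 ⟨(a, b), Finset.mem_product.2 ⟨ha, hb1⟩, ?_⟩
        show (a - b) / r = h
        have : a - b = r * h := by
          have : b + r * h = a := hb2
          linarith
        rw [this, Int.mul_ediv_cancel_left _ hr]
      have heq : (fun x => (∏ a ∈ s, g ((X.T ^ a) x)) *
          (starRingEnd ℂ) (∏ a ∈ s, g ((X.T ^ a) ((X.T ^ (r * h)) x)))) =
          fun x => ∏ a ∈ s ∪ s.image (fun a => a + r * h), g ((X.T ^ a) x) := by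
        funext x
        rw [Finset.prod_union hdisj, map_prod, Finset.prod_image]
        · congr 1
          apply Finset.prod_congr rfl
          intro a _
          rw [hreal, zpow_add, Equiv.Perm.mul_apply]
        · intro a _ b _ hab
          have : a + r * h = b + r * h := hab
          linarith
      rw [heq]
      exact ih _ (hs.mono Finset.subset_union_left)
    · refine ⟨1, fun h => box_norm_le X _ _ (fun x => ?_)⟩
      rw [norm_mul, RCLike.norm_conj]
      calc _ ≤ (1 : ℝ) * 1 := mul_le_mul (hb _) (hb _) (norm_nonneg _) zero_le_one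
        _ = 1 := one_mul 1

theorem box_zero (X : Sys) (g : X.S → ℂ) (hg : ∀ x, ‖g x‖ ≤ 1)
    (hreal : ∀ x, (starRingEnd ℂ) (g x) = g x) (hcen : Cen X g) (k : ℕ) (r : ℤ) (hr : r ≠ 0) :
    box X (List.replicate k r) g = 0 := by
  have h := box_zero_aux X g hg hreal hcen r hr k {0} (Finset.singleton_nonempty 0)
  simpa using h

theorem cen_rev (X : Sys) (g : X.S → ℂ) (h : Cen X g) : Cen (revS X) g := by
  intro s hs
  have h1 := h (s.image (fun a => -a)) (hs.image _)
  rw [← h1]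
  show X.μ.E (fun x => ∏ a ∈ s, g (((X.T⁻¹) ^ a) x)) = _
  congr 1
  funext x
  rw [Finset.prod_image]
  · apply Finset.prod_congr rfl
    intro a _
    rw [inv_zpow', zpow_neg]
  · intro a _ b _ hab
    have : -a = -b := hab
    linarith

theorem rev_cor (X : Sys) (k : ℕ) (G G' : ℕ → X.S → ℂ) (hG : ∀ i x, ‖G i x‖ ≤ 1)
    (h : ∀ i, i ≤ k → G' i = G (k - i)) (m : ℤ) :
    (revS X).μ.E (cor (revS X) k G' m) = X.μ.E (cor X k G m) := by
  have h0 : ∀ x : X.S, cor (revS X) k G' m x =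
      ∏ i ∈ range (k + 1), G (k - i) ((X.T ^ (-((i : ℤ) * m))) x) := by
    intro x
    show ∏ i ∈ range (k + 1), G' i (((X.T⁻¹) ^ ((i : ℤ) * m)) x) = _
    apply Finset.prod_congr rfl
    intro i hi
    rw [h i (Nat.lt_succ_iff.1 (Finset.mem_range.1 hi)), inv_zpow', zpow_neg]
  have hb : Bd (fun x : X.S => ∏ i ∈ range (k + 1), G (k - i) ((X.T ^ (-((i : ℤ) * m))) x)) :=
    ⟨1, fun x => prod_norm_le_one _ _ (fun i _ => hG _ _)⟩
  have h1 : (revS X).μ.E (cor (revS X) k G' m) =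
      X.μ.E (fun x => ∏ i ∈ range (k + 1), G (k - i) ((X.T ^ (-((i : ℤ) * m))) x)) :=
    congrArg X.μ.E (funext h0)
  rw [h1, ← X.inv_zpow ((k : ℤ) * m) _ hb]
  congr 1
  funext x
  unfold cor
  rw [← Finset.prod_range_reflect (fun i => G i ((X.T ^ ((i : ℤ) * m)) x)) (k + 1)]
  apply Finset.prod_congr rfl
  intro i hi
  have hi2 : i ≤ k := Nat.lt_succ_iff.1 (Finset.mem_range.1 hi)
  rw [← Equiv.Perm.mul_apply, ← zpow_add]
  have e1 : k + 1 - 1 - i = k - i := by omega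
  have e2 : -((i : ℤ) * m) + (k : ℤ) * m = ((k - i : ℕ) : ℤ) * m := by
    rw [Nat.cast_sub hi2]
    ring
  rw [e1, e2]

private theorem end_small_k (hBL : ∀ k, 1 ≤ k → BL k) (hSVT : ∀ k, SVT k) (hPR : PR) (D : ℕ)
    (hD : 1 ≤ D) (k : ℕ) (hk : 1 ≤ k) (ε : ℝ) (hε : 0 < ε) (X : Sys)
    (g : X.S → ℂ) (hg : ∀ x, ‖g x‖ ≤ 1) (hreal : ∀ x, (starRingEnd ℂ) (g x) = g x)
    (hcen : Cen X g) :
    ∀ᶠ N : ℕ in atTop, ∀ᶠ w : ℕ in atTop, ∀ᶠ Y : ℕ in atTop,
      ∀ G : ℕ → X.S → ℂ, (∀ i x, ‖G i x‖ ≤ 1) → G k = g →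
        ‖avP (PW D N.factorial w) (fun p => avP (PW D N.factorial Y) (fun p' =>
          X.μ.E (cor X k G ((p * p' : ℕ) : ℤ))))‖ ≤ ε := by
  obtain ⟨b, hb, hs⟩ := CA.small D hD k (hBL k hk) (hSVT k) hPR (ε ^ 2) (by positivity)
  have h1 := hs X g hg (fun r hr => by
    rw [box_zero X g hg hreal hcen k (r : ℤ) (by exact_mod_cast hr.ne')]
    exact hb.le)
  filter_upwards [h1] with N hN
  filter_upwards [hN] with w hw
  filter_upwards [hw 1 le_rfl] with Y hY
  intro G hG hGk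
  have h2 := CA.norm_avg_le_of_sq (PW D N.factorial Y) _ hε.le (hY G hG hGk)
  refine le_trans (le_of_eq ?_) h2
  congr 1
  unfold avP
  simp only [Finset.mul_sum]
  rw [Finset.sum_comm]
  apply Finset.sum_congr rfl
  intro p' _
  apply Finset.sum_congr rfl
  intro p _
  have e1 : (((1 : ℕ) : ℤ) * (p : ℤ)) * (p' : ℤ) = ((p * p' : ℕ) : ℤ) := by
    push_cast
    ring
  rw [e1]
  ring

theorem end_small (hBL : ∀ k, 1 ≤ k → BL k) (hSVT : ∀ k, SVT k) (hPR : PR) (D : ℕ) (hD : 1 ≤ D)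
    (k : ℕ) (hk : 1 ≤ k) (i₀ : ℕ) (hi : i₀ = 0 ∨ i₀ = k) (ε : ℝ) (hε : 0 < ε) (X : Sys)
    (g : X.S → ℂ) (hg : ∀ x, ‖g x‖ ≤ 1) (hreal : ∀ x, (starRingEnd ℂ) (g x) = g x)
    (hcen : Cen X g) :
    ∀ᶠ N : ℕ in atTop, ∀ᶠ w : ℕ in atTop, ∀ᶠ Y : ℕ in atTop,
      ∀ G : ℕ → X.S → ℂ, (∀ i x, ‖G i x‖ ≤ 1) → G i₀ = g →
        ‖avP (PW D N.factorial w) (fun p => avP (PW D N.factorial Y) (fun p' =>
          X.μ.E (cor X k G ((p * p' : ℕ) : ℤ))))‖ ≤ ε := by
  rcases hi with rfl | rfl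
  · have h1 := end_small_k hBL hSVT hPR D hD k hk ε hε (revS X) g hg hreal (cen_rev X g hcen)
    filter_upwards [h1] with N hN
    filter_upwards [hN] with w hw
    filter_upwards [hw] with Y hY
    intro G hG hG0
    have h2 := hY (fun i => G (k - i)) (fun i x => hG _ x) (by
      show G (k - k) = g
      rw [Nat.sub_self, hG0])
    have h3 : ∀ m : ℤ, (revS X).μ.E (cor (revS X) k (fun i => G (k - i)) m) =
        X.μ.E (cor X k G m) := fun m =>
      rev_cor X k G (fun i => G (k - i)) hG (fun i _ => rfl) m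
    simp only [h3] at h2
    exact h2
  · exact end_small_k hBL hSVT hPR D hD _ hk ε hε X g hg hreal hcen

end DG
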