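import Pool.Agent.Helper6.DG.N1Chain
import Pool.Agent.Helper6.DG.N2Box
import Pool.Agent.Helper6.DG.N3Ind
import Pool.Agent.Helper6.DG.N11Pos
import Pool.Agent.Helper6.DG.N11Pos

/-!
# DG-N4: removal of the end function in the limit system

PROOF. `m j M = Mn M (ψ j)`, `ψ j = f j i₀`, `f1 j = set1 (f j) i₀`. Fix `D ≥ 1` and `ε > 0`; `V` from `exists_goodU`. `CM j M = c j M * m j M` is
slowly varying with constant `B + 2` (`mn_slow`; `|c m - c' m'| ≤ |c - c'| |m| + |c'| |m - m'|`), bounded by `1`.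
By `end_small` for the system `app w`, `g = gfun ψ m` (real, `‖g‖ ≤ 1`, `Cen` by `cen_app`) choose `N` such that for large
`w`, `Y` ... `≤ ε`; `q = N!`. `chain_gen01` for `(f, c, B)` and for `(f1, CM, B + 2)` with this `q`: for `V`-many `i`, `l` (use `goodU_le`,
`2^i → ∞`): both chains hold and `end_small` holds for `w = 2^i`, `Y = 2^l`. For every product `P = p p'` the difference
`E[wtc c (i+l) * patf f 0 k P] - E[wtc CM (i+l) * patf f1 0 k P]` is, with `x = M / 2^(i+l)`,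
`E[c(x) ∏_{i ≠ i₀} f_i(Ω(n + i P)) (ψ(Ω(n + i₀ P)) - m j x)]`; replacing `m j x` by `m j M` costs at most `ε` (`mn_div`,
`app_small` with `G = 1`), and the result is `E[cor (app w) k G P]` with `G i₀ = g`, `G i₁ = wtc c (i+l) * f_{i₁}(Ω)` for one index
`i₁ ≠ i₀`, `i₁ ≤ k` (`i₁ = k - i₀`, `k ≥ 1`), `G i = f_i(Ω)` otherwise (`shT_zpow`; `wtc` and `m` are invariant).
So `‖E[wtc c 0 * patf f 2 k 1] - E[wtc CM 0 * patf f1 2 k 1]‖ ≤ 4 (B + 3) / D + 4 ε`. Let `ε → 0`, then `D → ∞`.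
-/

set_option autoImplicit false

namespace DG

open Finset Filter Topology

theorem lim_end (hBL : ∀ k, 1 ≤ k → BL k) (hSVT : ∀ k, SVT k) (hPR : PR) (hEnt : Ent) (w : Win)
    (k : ℕ) (hk : 1 ≤ k) (i₀ : ℕ) (hi : i₀ = 0 ∨ i₀ = k)
    (f : ℕ → ℕ → ℕ → ℝ) (hf : ∀ j i x, 0 ≤ f j i x ∧ f j i x ≤ 1)
    (δ : ℕ → ℝ) (hδ : Tendsto δ atTop (𝓝 0)) (hs : ∀ j x, |f j i₀ (x + 1) - f j i₀ x| ≤ δ j)
    (B : ℝ) (hB : 0 ≤ B) (c : ℕ → ℕ → ℝ) (hc : SlowW B c) :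
    (appμ w).E (fun s => wtc c 0 s * patf f 2 k 1 s) =
      (appμ w).E (fun s => wtc (fun j M => c j M * Mn M (f j i₀)) 0 s *
        patf (fun j => set1 (f j) i₀) 2 k 1 s) :=
  have hik : i₀ ≤ k := by
    rcases hi with h | h
    · omega
    · omega
  lim_pos hPR hEnt w k hk i₀ hik (smallAt hSVT hBL hPR k i₀ hk hik) f hf δ hδ hs B hB c hc

end DG
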