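import Pool.Agent.Helper6.DG.N4Lim
import Pool.Agent.Helper13.MRF.CoreW

/-!
# DG-N5: `EndSt` (product functions, one slowly varying end)

PROOF. Suppose `EndSt k i₀` fails for `ε > 0`. For each `j` (with `δ = 1/(j+1)`, `K0 = N0 = j + 3`) there are `N_j, K_j, f_j` with
`∑_{M ∈ Ioc (N_j/K_j) N_j} (1/M) |R j M| > ε log K_j`, `R j M = Pr k M f_j - Mn M (f_j i₀) * Pr k M (set1 f_j i₀)`.
Window `w`: `a j = N_j / K_j`, `b j = N_j`; mass between `log K_j - 2` and `log K_j + 2` (as in E7Prod.lean, `prodSt`; you may import and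
reuse its private lemmas by copying). Shifted functions: `f' j i x = f_j i (x - 2)` for `x ≥ 2` and `f' j i x = f_j i 0` for `x < 2`
(so `f' j i (x + 2) = f_j i x`, values in `[0, 1]`, `f' j i₀` is `δ_j`-slow). `c j M := R' j M / 4`... with
`R' j M = Pr k M (x ↦ f' (x + 2)) - Mn M (f' i₀) * Pr k M (set1 (x ↦ f' (x+2)) i₀) = Pr k M f_j - Mn M (f' i₀) * Pr k M (set1 f_j i₀)`; `|R'| ≤ 1`
(`0 ≤ Pr, Mn ≤ 1`), slowly varying with constant `6` (each of `Pr`, `Mn` has constant `2`, cf. `c0_slow`). `lim_end` for `f'`, `c = R'`: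
the mean of `wtc c 0 * patf f' 2 k 1 - wtc (c m) 0 * patf (set1 f') 2 k 1` is `0`; its window mean is `(∑ (1/M) R'^2) / mass` (inner average over
`n ≤ M`; `wmean_E`), so this tends to `0` along the hyperfilter (as `lim_sq` in E7Prod). `|R' - R| ≤ |Mn M (f' i₀) - Mn M (f_j i₀)| ≤ 2 δ_j`
(`|f' i₀ x - f_j i₀ x| ≤ 2 δ_j` by slowness). Cauchy-Schwarz: `(∑ (1/M)|R'| / mass)² ≤ ∑ (1/M) R'^2 / mass → 0`; but
`∑ (1/M)|R'| / mass ≥ (ε log K_j - 2 δ_j mass) / mass ≥ ε/4` for large `j`. Contradiction.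
-/

set_option autoImplicit false

namespace DG

open Finset Filter Topology

theorem n5_log_le (a : ℕ) (b : ℕ) (hab : a ≤ b) :
    Real.log ((b : ℝ) + 1) - Real.log ((a : ℝ) + 1) ≤ ∑ M ∈ Ioc a b, 1 / (M : ℝ) := by
  induction b, hab using Nat.le_induction with
  | base => simp
  | succ b hab ih =>
    rw [Finset.sum_Ioc_succ_top hab]
    have hb : (0 : ℝ) < (b : ℝ) + 1 := by positivity
    have h1 : Real.log (((b : ℝ) + 1 + 1) / ((b : ℝ) + 1)) ≤ 1 / ((b : ℝ) + 1) := by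
      have h2 := Real.log_le_sub_one_of_pos (show (0 : ℝ) < ((b : ℝ) + 1 + 1) / ((b : ℝ) + 1) by
        positivity)
      have h3 : ((b : ℝ) + 1 + 1) / ((b : ℝ) + 1) - 1 = 1 / ((b : ℝ) + 1) := by
        field_simp
        ring
      rwa [h3] at h2
    rw [Real.log_div (by positivity) hb.ne'] at h1
    push_cast
    linarith

theorem n5_le_log (a : ℕ) (ha : 1 ≤ a) (b : ℕ) (hab : a ≤ b) :
    ∑ M ∈ Ioc a b, 1 / (M : ℝ) ≤ Real.log b - Real.log a := by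
  induction b, hab using Nat.le_induction with
  | base => simp
  | succ b hab ih =>
    rw [Finset.sum_Ioc_succ_top hab]
    have hb0 : 1 ≤ b := ha.trans hab
    have hb : (0 : ℝ) < (b : ℝ) := by exact_mod_cast hb0
    have h1 : Real.log ((b : ℝ) / ((b : ℝ) + 1)) ≤ -(1 / ((b : ℝ) + 1)) := by
      have h2 := Real.log_le_sub_one_of_pos (show (0 : ℝ) < (b : ℝ) / ((b : ℝ) + 1) by positivity)
      have h3 : (b : ℝ) / ((b : ℝ) + 1) - 1 = -(1 / ((b : ℝ) + 1)) := by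
        field_simp
        ring
      rwa [h3] at h2
    rw [Real.log_div hb.ne' (by positivity)] at h1
    push_cast
    linarith

theorem n5_mass_le (N K : ℕ) (hK : 1 ≤ K) (hKN : K ≤ N) :
    ∑ M ∈ Ioc (N / K) N, 1 / (M : ℝ) ≤ Real.log K + 1 := by
  have ha : 1 ≤ N / K := (Nat.one_le_div_iff (by omega)).2 hKN
  refine (n5_le_log (N / K) ha N (Nat.div_le_self _ _)).trans ?_
  have ha0 : (0 : ℝ) < ((N / K : ℕ) : ℝ) := by exact_mod_cast ha
  have hK0 : (0 : ℝ) < (K : ℝ) := by exact_mod_cast hK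
  have hN0 : (0 : ℝ) < (N : ℝ) := by
    have : 0 < N := by omega
    exact_mod_cast this
  have h1 : N ≤ K * (2 * (N / K)) := by
    have h2 : N < K * (N / K + 1) := Nat.lt_mul_div_succ N (by omega)
    have h3 : K * (N / K + 1) ≤ K * (2 * (N / K)) := Nat.mul_le_mul_left _ (by omega)
    omega
  have h4 : (N : ℝ) ≤ K * (2 * ((N / K : ℕ) : ℝ)) := by exact_mod_cast h1
  have h5 : Real.log N ≤ Real.log (K * (2 * ((N / K : ℕ) : ℝ))) := Real.log_le_log hN0 h4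
  rw [Real.log_mul hK0.ne' (by positivity), Real.log_mul (by norm_num) ha0.ne'] at h5
  have h6 : Real.log 2 ≤ 1 := by
    have := Real.log_le_sub_one_of_pos (show (0 : ℝ) < 2 by norm_num)
    linarith
  linarith

theorem n5_le_mass (N K : ℕ) (hK : 1 ≤ K) (hKN : K ≤ N) :
    Real.log K - 1 ≤ ∑ M ∈ Ioc (N / K) N, 1 / (M : ℝ) := by
  have ha : 1 ≤ N / K := (Nat.one_le_div_iff (by omega)).2 hKN
  refine le_trans ?_ (n5_log_le (N / K) N (Nat.div_le_self _ _))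
  have ha0 : (0 : ℝ) < ((N / K : ℕ) : ℝ) := by exact_mod_cast ha
  have hK0 : (0 : ℝ) < (K : ℝ) := by exact_mod_cast hK
  have h1 : K * (N / K + 1) ≤ 2 * (N + 1) := by
    have h2 : K * (N / K) ≤ N := Nat.mul_div_le N K
    have h3 : K * (N / K + 1) = K * (N / K) + K := by ring
    omega
  have h4 : (K : ℝ) * (((N / K : ℕ) : ℝ) + 1) ≤ 2 * ((N : ℝ) + 1) := by exact_mod_cast h1
  have h5 : Real.log ((K : ℝ) * (((N / K : ℕ) : ℝ) + 1)) ≤ Real.log (2 * ((N : ℝ) + 1)) :=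
    Real.log_le_log (by positivity) h4
  rw [Real.log_mul hK0.ne' (by positivity), Real.log_mul (by norm_num) (by positivity)] at h5
  have h6 : Real.log 2 ≤ 1 := by
    have := Real.log_le_sub_one_of_pos (show (0 : ℝ) < 2 by norm_num)
    linarith
  linarith

theorem n5_avg_nonneg (u : ℕ → ℝ) (hu : ∀ n, 0 ≤ u n ∧ u n ≤ 1) (M : ℕ) :
    0 ≤ (1 / (M : ℝ)) * ∑ n ∈ Icc 1 M, u n :=
  mul_nonneg (by positivity) (Finset.sum_nonneg fun n _ => (hu n).1)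

theorem n5_avg_le (u : ℕ → ℝ) (hu : ∀ n, 0 ≤ u n ∧ u n ≤ 1) (M : ℕ) :
    (1 / (M : ℝ)) * ∑ n ∈ Icc 1 M, u n ≤ 1 := by
  have h1 : ∑ n ∈ Icc 1 M, u n ≤ M := by
    refine (Finset.sum_le_sum fun n _ => (hu n).2).trans ?_
    simp
  rcases Nat.eq_zero_or_pos M with rfl | hM
  · simp
  · have hM0 : (0 : ℝ) < M := by exact_mod_cast hM
    rw [one_div, inv_mul_le_iff₀ hM0, mul_one]
    exact h1

theorem n5_avg_slow (u : ℕ → ℝ) (hu : ∀ n, 0 ≤ u n ∧ u n ≤ 1) (M M' : ℕ) (h1 : 1 ≤ M')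
    (h2 : M' ≤ M) :
    |(1 / (M : ℝ)) * ∑ n ∈ Icc 1 M, u n - (1 / (M' : ℝ)) * ∑ n ∈ Icc 1 M', u n| ≤
      2 * ((M : ℝ) - M') / M := by
  have hM' : (0 : ℝ) < M' := by exact_mod_cast h1
  have hMM : (M' : ℝ) ≤ M := by exact_mod_cast h2
  have hM : (0 : ℝ) < M := hM'.trans_le hMM
  have hsplit : ∑ n ∈ Icc 1 M, u n = ∑ n ∈ Icc 1 M', u n + ∑ n ∈ Ioc M' M, u n := by
    have h3 : ∀ a : ℕ, Icc 1 a = Ioc 0 a := fun a => by
      ext x
      simp only [Finset.mem_Icc, Finset.mem_Ioc]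
      omega
    rw [h3, h3, Finset.sum_Ioc_consecutive _ (Nat.zero_le _) h2]
  set S := ∑ n ∈ Icc 1 M', u n with hS
  set T := ∑ n ∈ Ioc M' M, u n with hT
  have hS0 : 0 ≤ S := Finset.sum_nonneg fun n _ => (hu n).1
  have hT0 : 0 ≤ T := Finset.sum_nonneg fun n _ => (hu n).1
  have hS1 : S ≤ M' := by
    refine (Finset.sum_le_sum fun n _ => (hu n).2).trans ?_
    simp
  have hT1 : T ≤ (M : ℝ) - M' := by
    refine (Finset.sum_le_sum fun n _ => (hu n).2).trans ?_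
    rw [Finset.sum_const, Nat.card_Ioc, nsmul_eq_mul, mul_one, Nat.cast_sub h2]
  rw [hsplit]
  have h4 : (1 / (M : ℝ)) * (S + T) - (1 / (M' : ℝ)) * S =
      (T - ((M : ℝ) - M') * (S / M')) / M := by
    field_simp
    ring
  rw [h4, abs_div, abs_of_pos hM]
  refine div_le_div_of_nonneg_right ?_ hM.le
  have h5 : 0 ≤ S / M' := div_nonneg hS0 hM'.le
  have h6 : S / M' ≤ 1 := (div_le_one hM').2 hS1
  have h7 : 0 ≤ (M : ℝ) - M' := by linarith
  have h8 : ((M : ℝ) - M') * (S / M') ≤ (M : ℝ) - M' := mul_le_of_le_one_right h7 h6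
  have h9 : 0 ≤ ((M : ℝ) - M') * (S / M') := mul_nonneg h7 h5
  rw [abs_le]
  constructor <;> linarith

theorem n5_prod01 (k n : ℕ) (g : ℕ → ℕ → ℝ) (hg : ∀ i x, 0 ≤ g i x ∧ g i x ≤ 1) :
    0 ≤ ∏ i ∈ range (k + 1), g i (ArithmeticFunction.cardFactors (n + i)) ∧
      ∏ i ∈ range (k + 1), g i (ArithmeticFunction.cardFactors (n + i)) ≤ 1 :=
  ⟨Finset.prod_nonneg fun i _ => (hg i _).1,
    Finset.prod_le_one (fun i _ => (hg i _).1) (fun i _ => (hg i _).2)⟩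

theorem n5_set1 (g : ℕ → ℕ → ℝ) (hg : ∀ i x, 0 ≤ g i x ∧ g i x ≤ 1) (i₀ : ℕ) (i x : ℕ) :
    0 ≤ set1 g i₀ i x ∧ set1 g i₀ i x ≤ 1 := by
  unfold set1
  split_ifs
  · constructor <;> norm_num
  · exact hg i x

theorem n5_patf (f : ℕ → ℕ → ℕ → ℝ) (r k j M n : ℕ) :
    patf f r k 1 (j, M, (n : ℤ)) = ((∏ i ∈ range (k + 1),
      f j i (ArithmeticFunction.cardFactors (n + i) + r) : ℝ) : ℂ) := by
  unfold patf OmZ
  rw [Complex.ofReal_prod]
  refine Finset.prod_congr rfl fun i _ => ?_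
  have h : ((n : ℤ) + (i : ℤ) * 1).toNat = n + i := by
    rw [mul_one]
    exact_mod_cast Int.toNat_natCast (n + i)
  simp only [h]

theorem n5_patf_le (f : ℕ → ℕ → ℕ → ℝ) (hf : ∀ j i x, 0 ≤ f j i x ∧ f j i x ≤ 1) (r k : ℕ)
    (a : ℤ) (s : ℕ × ℕ × ℤ) : ‖patf f r k a s‖ ≤ 1 := by
  unfold patf
  refine prod_norm_le_one _ _ fun i _ => ?_
  rw [Complex.norm_real, Real.norm_of_nonneg (hf _ _ _).1]
  exact (hf _ _ _).2

/-- the shifted functions -/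
noncomputable def n5f (f : ℕ → ℕ → ℕ → ℝ) (j i x : ℕ) : ℝ :=
  if x < 2 then f j i 0 else f j i (x - 2)

theorem n5f_add (f : ℕ → ℕ → ℕ → ℝ) (j i x : ℕ) : n5f f j i (x + 2) = f j i x := by
  unfold n5f
  rw [if_neg (by omega)]
  congr 1

theorem n5f_01 (f : ℕ → ℕ → ℕ → ℝ) (hf : ∀ j i x, 0 ≤ f j i x ∧ f j i x ≤ 1) (j i x : ℕ) :
    0 ≤ n5f f j i x ∧ n5f f j i x ≤ 1 := by
  unfold n5f
  split_ifs <;> exact hf _ _ _

theorem n5f_slow (f : ℕ → ℕ → ℕ → ℝ) (j i : ℕ) (δ : ℝ) (hδ : 0 ≤ δ)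
    (h : ∀ x, |f j i (x + 1) - f j i x| ≤ δ) (x : ℕ) : |n5f f j i (x + 1) - n5f f j i x| ≤ δ := by
  rcases x with _ | _ | x
  · unfold n5f
    simp [hδ]
  · unfold n5f
    simp [hδ]
  · have h1 : n5f f j i (x + 1 + 1 + 1) = f j i (x + 1) := n5f_add f j i (x + 1)
    have h2 : n5f f j i (x + 1 + 1) = f j i x := n5f_add f j i x
    rw [h1, h2]
    exact h x

theorem n5f_close (f : ℕ → ℕ → ℕ → ℝ) (j i : ℕ) (δ : ℝ) (hδ : 0 ≤ δ)
    (h : ∀ x, |f j i (x + 1) - f j i x| ≤ δ) (x : ℕ) : |n5f f j i x - f j i x| ≤ 2 * δ := by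
  rcases x with _ | _ | x
  · unfold n5f
    simp [hδ]
  · unfold n5f
    simp only [zero_add]
    rw [if_pos (by norm_num), abs_sub_comm]
    have := h 0
    rw [zero_add] at this
    linarith
  · have h2 : n5f f j i (x + 1 + 1) = f j i x := n5f_add f j i x
    rw [h2]
    have h3 := h x
    have h4 := h (x + 1)
    rw [abs_le] at h3 h4 ⊢
    constructor <;> linarith [h3.1, h3.2, h4.1, h4.2]

/-- the weight -/
noncomputable def n5R (f : ℕ → ℕ → ℕ → ℝ) (k i₀ j M : ℕ) : ℝ :=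
  Pr k M (f j) - Mn M (n5f f j i₀) * Pr k M (set1 (f j) i₀)

theorem n5_Pr01 (k M : ℕ) (g : ℕ → ℕ → ℝ) (hg : ∀ i x, 0 ≤ g i x ∧ g i x ≤ 1) :
    0 ≤ Pr k M g ∧ Pr k M g ≤ 1 :=
  ⟨n5_avg_nonneg _ (fun n => n5_prod01 k n g hg) M, n5_avg_le _ (fun n => n5_prod01 k n g hg) M⟩

theorem n5_Mn01 (M : ℕ) (ψ : ℕ → ℝ) (hψ : ∀ x, 0 ≤ ψ x ∧ ψ x ≤ 1) :
    0 ≤ Mn M ψ ∧ Mn M ψ ≤ 1 :=
  ⟨n5_avg_nonneg _ (fun _ => hψ _) M, n5_avg_le _ (fun _ => hψ _) M⟩

theorem n5R_slow (f : ℕ → ℕ → ℕ → ℝ) (hf : ∀ j i x, 0 ≤ f j i x ∧ f j i x ≤ 1) (k i₀ : ℕ) :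
    SlowW 6 (n5R f k i₀) := by
  constructor
  · intro j M
    unfold n5R
    have h1 := n5_Pr01 k M (f j) (hf j)
    have h2 := n5_Pr01 k M (set1 (f j) i₀) (n5_set1 (f j) (hf j) i₀)
    have h3 := n5_Mn01 M (n5f f j i₀) (n5f_01 f hf j i₀)
    have h4 : Mn M (n5f f j i₀) * Pr k M (set1 (f j) i₀) ≤ 1 := mul_le_one₀ h3.2 h2.1 h2.2
    have h5 : 0 ≤ Mn M (n5f f j i₀) * Pr k M (set1 (f j) i₀) := mul_nonneg h3.1 h2.1
    rw [abs_le]
    constructor <;> linarith [h1.1, h1.2]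
  · intro j M M' hM1 hMM
    unfold n5R
    have ha : |Pr k M (f j) - Pr k M' (f j)| ≤ 2 * ((M : ℝ) - M') / M :=
      n5_avg_slow _ (fun n => n5_prod01 k n (f j) (hf j)) M M' hM1 hMM
    have hb : |Pr k M (set1 (f j) i₀) - Pr k M' (set1 (f j) i₀)| ≤ 2 * ((M : ℝ) - M') / M :=
      n5_avg_slow _ (fun n => n5_prod01 k n _ (n5_set1 (f j) (hf j) i₀)) M M' hM1 hMM
    have hc : |Mn M (n5f f j i₀) - Mn M' (n5f f j i₀)| ≤ 2 * ((M : ℝ) - M') / M :=
      n5_avg_slow (fun n => n5f f j i₀ (ArithmeticFunction.cardFactors n))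
        (fun n => n5f_01 f hf j i₀ _) M M' hM1 hMM
    have h2 := n5_Pr01 k M (set1 (f j) i₀) (n5_set1 (f j) (hf j) i₀)
    have h3 := n5_Mn01 M' (n5f f j i₀) (n5f_01 f hf j i₀)
    have hd : |Mn M (n5f f j i₀) * Pr k M (set1 (f j) i₀) -
        Mn M' (n5f f j i₀) * Pr k M' (set1 (f j) i₀)| ≤ 2 * (2 * ((M : ℝ) - M') / M) := by
      have e : Mn M (n5f f j i₀) * Pr k M (set1 (f j) i₀) -
          Mn M' (n5f f j i₀) * Pr k M' (set1 (f j) i₀) =
          (Mn M (n5f f j i₀) - Mn M' (n5f f j i₀)) * Pr k M (set1 (f j) i₀) +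
          Mn M' (n5f f j i₀) * (Pr k M (set1 (f j) i₀) - Pr k M' (set1 (f j) i₀)) := by ring
      rw [e]
      refine (abs_add_le _ _).trans ?_
      rw [abs_mul, abs_mul, abs_of_nonneg h2.1, abs_of_nonneg h3.1]
      have e1 : |Mn M (n5f f j i₀) - Mn M' (n5f f j i₀)| * Pr k M (set1 (f j) i₀) ≤
          |Mn M (n5f f j i₀) - Mn M' (n5f f j i₀)| := mul_le_of_le_one_right (abs_nonneg _) h2.2
      have e2 : Mn M' (n5f f j i₀) * |Pr k M (set1 (f j) i₀) - Pr k M' (set1 (f j) i₀)| ≤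
          |Pr k M (set1 (f j) i₀) - Pr k M' (set1 (f j) i₀)| :=
        mul_le_of_le_one_left (abs_nonneg _) h3.2
      linarith
    have e : 6 * ((M : ℝ) - M') / M = 2 * ((M : ℝ) - M') / M + 2 * (2 * ((M : ℝ) - M') / M) := by
      ring
    rw [e]
    rw [abs_le] at ha hd ⊢
    constructor <;> linarith [ha.1, ha.2, hd.1, hd.2]

theorem n5_wmean (w : Win) (f : ℕ → ℕ → ℕ → ℝ) (k i₀ j : ℕ) :
    (wmean w j).E (fun s => wtc (n5R f k i₀) 0 s * patf (n5f f) 2 k 1 s -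
      wtc (fun j M => n5R f k i₀ j M * Mn M (n5f f j i₀)) 0 s *
        patf (fun j => set1 (n5f f j) i₀) 2 k 1 s) =
      (((∑ M ∈ Ioc (w.a j) (w.b j), (1 / (M : ℝ)) * n5R f k i₀ j M ^ 2) /
        ∑ M ∈ Ioc (w.a j) (w.b j), 1 / (M : ℝ) : ℝ) : ℂ) := by
  rw [wmean_E, Complex.ofReal_div]
  congr 1
  rw [Complex.ofReal_sum]
  refine Finset.sum_congr rfl fun M _ => ?_
  have h1 : ∀ n : ℕ, wtc (n5R f k i₀) 0 (j, M, (n : ℤ)) * patf (n5f f) 2 k 1 (j, M, (n : ℤ)) -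
      wtc (fun j M => n5R f k i₀ j M * Mn M (n5f f j i₀)) 0 (j, M, (n : ℤ)) *
        patf (fun j => set1 (n5f f j) i₀) 2 k 1 (j, M, (n : ℤ)) =
      (((n5R f k i₀ j M : ℝ) * ((∏ i ∈ range (k + 1),
        f j i (ArithmeticFunction.cardFactors (n + i))) - Mn M (n5f f j i₀) *
        ∏ i ∈ range (k + 1), set1 (f j) i₀ i (ArithmeticFunction.cardFactors (n + i))) : ℝ) : ℂ) := by
    intro n
    rw [n5_patf, n5_patf]
    have e1 : ∏ i ∈ range (k + 1), n5f f j i (ArithmeticFunction.cardFactors (n + i) + 2) =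
        ∏ i ∈ range (k + 1), f j i (ArithmeticFunction.cardFactors (n + i)) :=
      Finset.prod_congr rfl fun i _ => n5f_add f j i _
    have e2 : ∏ i ∈ range (k + 1), set1 (n5f f j) i₀ i (ArithmeticFunction.cardFactors (n + i) + 2) =
        ∏ i ∈ range (k + 1), set1 (f j) i₀ i (ArithmeticFunction.cardFactors (n + i)) := by
      refine Finset.prod_congr rfl fun i _ => ?_
      unfold set1
      rw [n5f_add]
    rw [e1, e2]
    unfold wtc
    simp only [pow_zero, Nat.div_one]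
    push_cast
    ring
  simp only [h1]
  rw [← Complex.ofReal_sum, ← Finset.mul_sum, Finset.sum_sub_distrib, ← Finset.mul_sum]
  have h2 : (1 / (M : ℝ)) * n5R f k i₀ j M ^ 2 = (1 / (M : ℝ)) * ((1 / (M : ℝ)) *
      (n5R f k i₀ j M * (∑ n ∈ Icc 1 M, ∏ i ∈ range (k + 1),
        f j i (ArithmeticFunction.cardFactors (n + i)) - Mn M (n5f f j i₀) *
        ∑ n ∈ Icc 1 M, ∏ i ∈ range (k + 1),
          set1 (f j) i₀ i (ArithmeticFunction.cardFactors (n + i))))) := by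
    have h3 : n5R f k i₀ j M = (1 / (M : ℝ)) * (∑ n ∈ Icc 1 M, ∏ i ∈ range (k + 1),
        f j i (ArithmeticFunction.cardFactors (n + i)) - Mn M (n5f f j i₀) *
        ∑ n ∈ Icc 1 M, ∏ i ∈ range (k + 1),
          set1 (f j) i₀ i (ArithmeticFunction.cardFactors (n + i))) := by
      unfold n5R Pr
      ring
    rw [sq]
    nth_rewrite 2 [h3]
    ring
  rw [h2]
  push_cast
  rfl

theorem n5_lim (hBL : ∀ k, 1 ≤ k → BL k) (hSVT : ∀ k, SVT k) (hPR : PR) (hEnt : Ent) (w : Win)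
    (k : ℕ) (hk : 1 ≤ k) (i₀ : ℕ) (hi : i₀ = 0 ∨ i₀ = k)
    (f : ℕ → ℕ → ℕ → ℝ) (hf : ∀ j i x, 0 ≤ f j i x ∧ f j i x ≤ 1)
    (δ : ℕ → ℝ) (hδ0 : ∀ j, 0 ≤ δ j) (hδ : Tendsto δ atTop (𝓝 0))
    (hs : ∀ j x, |f j i₀ (x + 1) - f j i₀ x| ≤ δ j) :
    Tendsto (fun j => (∑ M ∈ Ioc (w.a j) (w.b j), (1 / (M : ℝ)) * n5R f k i₀ j M ^ 2) /
      ∑ M ∈ Ioc (w.a j) (w.b j), 1 / (M : ℝ)) (hyperfilter ℕ : Filter ℕ) (𝓝 0) := by
  have hsl := n5R_slow f hf k i₀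
  have hc : Bd (wtc (n5R f k i₀) 0) := by
    refine ⟨1, fun s => ?_⟩
    unfold wtc
    rw [Complex.norm_real]
    exact hsl.1 _ _
  have hc2 : Bd (wtc (fun j M => n5R f k i₀ j M * Mn M (n5f f j i₀)) 0) := by
    refine ⟨1, fun s => ?_⟩
    unfold wtc
    rw [Complex.norm_real, norm_mul]
    have h3 := n5_Mn01 (s.2.1 / 2 ^ 0) (n5f f s.1 i₀) (n5f_01 f hf s.1 i₀)
    have h4 : ‖n5R f k i₀ s.1 (s.2.1 / 2 ^ 0)‖ ≤ 1 := hsl.1 _ _
    refine mul_le_one₀ h4 (norm_nonneg _) ?_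
    rw [Real.norm_of_nonneg h3.1]
    exact h3.2
  have h2 : Bd (fun s => wtc (n5R f k i₀) 0 s * patf (n5f f) 2 k 1 s) :=
    hc.mul ⟨1, fun s => n5_patf_le (n5f f) (n5f_01 f hf) 2 k 1 s⟩
  have h3 : Bd (fun s => wtc (fun j M => n5R f k i₀ j M * Mn M (n5f f j i₀)) 0 s *
        patf (fun j => set1 (n5f f j) i₀) 2 k 1 s) :=
    hc2.mul ⟨1, fun s => n5_patf_le (fun j => set1 (n5f f j) i₀)
      (fun j => n5_set1 (n5f f j) (n5f_01 f hf j) i₀) 2 k 1 s⟩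
  have h4 := app_tendsto w _ (h2.sub h3)
  rw [Mean.E_sub, lim_end hBL hSVT hPR hEnt w k hk i₀ hi (n5f f) (n5f_01 f hf) δ hδ
    (fun j x => n5f_slow f j i₀ (δ j) (hδ0 j) (hs j) x) 6 (by norm_num) (n5R f k i₀) hsl,
    sub_self] at h4
  have h5 := (Complex.continuous_re.tendsto 0).comp h4
  rw [Complex.zero_re] at h5
  refine h5.congr fun j => ?_
  simp only [Function.comp_apply]
  rw [n5_wmean w f k i₀ j, Complex.ofReal_re]

theorem endSt (hBL : ∀ k, 1 ≤ k → BL k) (hSVT : ∀ k, SVT k) (hPR : PR) (hEnt : Ent)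
    (k : ℕ) (hk : 1 ≤ k) (i₀ : ℕ) (hi : i₀ = 0 ∨ i₀ = k) : EndSt k i₀ := by
  intro ε hε
  by_contra hcon
  push Not at hcon
  choose N K hN hK hKN f hf hs hB using fun j : ℕ =>
    hcon (1 / ((j : ℝ) + 1)) (by positivity) (j + 3) (j + 3)
  have hK1 : ∀ j, 1 ≤ K j := fun j => by have := hK j; omega
  let w : Win :=
    { a := fun j => N j / K j
      b := N
      lt := fun j => Nat.div_lt_self (by have := hN j; omega) (by have := hK j; omega)
      div := by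
        refine tendsto_atTop_mono (fun j => n5_le_mass (N j) (K j) (hK1 j) (hKN j)) ?_
        have h1 : Tendsto (fun j : ℕ => Real.log ((j : ℝ) + 3) - 1) atTop atTop := by
          refine tendsto_atTop_add_const_right _ _ ?_
          exact Real.tendsto_log_atTop.comp
            (tendsto_atTop_add_const_right _ _ tendsto_natCast_atTop_atTop)
        refine tendsto_atTop_mono (fun j => ?_) h1
        have h2 : Real.log ((j : ℝ) + 3) ≤ Real.log (K j) := by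
          refine Real.log_le_log (by positivity) ?_
          exact_mod_cast hK j
        linarith }
  have hδ : Tendsto (fun j : ℕ => 1 / ((j : ℝ) + 1)) atTop (𝓝 0) :=
    tendsto_one_div_add_atTop_nhds_zero_nat
  have hlim := n5_lim hBL hSVT hPR hEnt w k hk i₀ hi f hf (fun j => 1 / ((j : ℝ) + 1))
    (fun j => by positivity) hδ hs
  have hev := (hlim.eventually (gt_mem_nhds (show (0 : ℝ) < (ε / 4) ^ 2 by positivity)))
  have hev2 : ∀ᶠ j : ℕ in (hyperfilter ℕ : Filter ℕ), 1 / ((j : ℝ) + 1) < ε / 8 :=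
    (hδ.eventually (gt_mem_nhds (show (0 : ℝ) < ε / 8 by positivity))).filter_mono
      Nat.hyperfilter_le_atTop
  obtain ⟨j, hj, hj2⟩ := (hev.and hev2).exists
  have hm : 0 < ∑ M ∈ Ioc (w.a j) (w.b j), 1 / (M : ℝ) := mass_pos (w.lt j)
  have hBj := hB j
  have hx : ∑ M ∈ Ioc (N j / K j) (N j), (1 / (M : ℝ)) *
      |Pr k M (f j) - Mn M (f j i₀) * Pr k M (set1 (f j) i₀)| ≤
      ∑ M ∈ Ioc (w.a j) (w.b j), (1 / (M : ℝ)) * |n5R f k i₀ j M| +
        2 * (1 / ((j : ℝ) + 1)) * ∑ M ∈ Ioc (w.a j) (w.b j), 1 / (M : ℝ) := by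
    rw [Finset.mul_sum, ← Finset.sum_add_distrib]
    refine Finset.sum_le_sum fun M hM => ?_
    have hM0 : (0 : ℝ) ≤ 1 / (M : ℝ) := by positivity
    have h1 : |Pr k M (f j) - Mn M (f j i₀) * Pr k M (set1 (f j) i₀)| ≤
        |n5R f k i₀ j M| + 2 * (1 / ((j : ℝ) + 1)) := by
      have h2 := n5_Pr01 k M (set1 (f j) i₀) (n5_set1 (f j) (hf j) i₀)
      have h3 : |Mn M (n5f f j i₀) - Mn M (f j i₀)| ≤ 2 * (1 / ((j : ℝ) + 1)) := by
        unfold Mn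
        rw [← mul_sub, ← Finset.sum_sub_distrib, abs_mul, abs_of_nonneg hM0]
        have h4 : |∑ n ∈ Icc 1 M, (n5f f j i₀ (ArithmeticFunction.cardFactors n) -
            f j i₀ (ArithmeticFunction.cardFactors n))| ≤ M * (2 * (1 / ((j : ℝ) + 1))) := by
          refine (Finset.abs_sum_le_sum_abs _ _).trans ?_
          refine (Finset.sum_le_sum fun n _ =>
            n5f_close f j i₀ (1 / ((j : ℝ) + 1)) (by positivity) (hs j) _).trans ?_
          simp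
        have hM1 : (0 : ℝ) < M := by
          have h6 : 0 < M := lt_of_le_of_lt (Nat.zero_le _) (Finset.mem_Ioc.1 hM).1
          exact_mod_cast h6
        calc 1 / (M : ℝ) * |∑ n ∈ Icc 1 M, (n5f f j i₀ (ArithmeticFunction.cardFactors n) -
            f j i₀ (ArithmeticFunction.cardFactors n))|
            ≤ 1 / (M : ℝ) * (M * (2 * (1 / ((j : ℝ) + 1)))) :=
              mul_le_mul_of_nonneg_left h4 hM0
          _ = 2 * (1 / ((j : ℝ) + 1)) := by field_simp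
      have h5 : Pr k M (f j) - Mn M (f j i₀) * Pr k M (set1 (f j) i₀) = n5R f k i₀ j M +
          (Mn M (n5f f j i₀) - Mn M (f j i₀)) * Pr k M (set1 (f j) i₀) := by
        unfold n5R
        ring
      rw [h5]
      refine (abs_add_le _ _).trans ?_
      rw [abs_mul, abs_of_nonneg h2.1]
      have h6 : |Mn M (n5f f j i₀) - Mn M (f j i₀)| * Pr k M (set1 (f j) i₀) ≤
          |Mn M (n5f f j i₀) - Mn M (f j i₀)| := mul_le_of_le_one_right (abs_nonneg _) h2.2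
      linarith
    calc (1 / (M : ℝ)) * |Pr k M (f j) - Mn M (f j i₀) * Pr k M (set1 (f j) i₀)|
        ≤ (1 / (M : ℝ)) * (|n5R f k i₀ j M| + 2 * (1 / ((j : ℝ) + 1))) :=
          mul_le_mul_of_nonneg_left h1 hM0
      _ = (1 / (M : ℝ)) * |n5R f k i₀ j M| + 2 * (1 / ((j : ℝ) + 1)) * (1 / (M : ℝ)) := by ring
  have hCS : (∑ M ∈ Ioc (w.a j) (w.b j), (1 / (M : ℝ)) * |n5R f k i₀ j M|) ^ 2 ≤
      (∑ M ∈ Ioc (w.a j) (w.b j), 1 / (M : ℝ)) *
        ∑ M ∈ Ioc (w.a j) (w.b j), (1 / (M : ℝ)) * n5R f k i₀ j M ^ 2 := by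
    refine Finset.sum_sq_le_sum_mul_sum_of_sq_le_mul _ (fun M _ => by positivity)
      (fun M _ => by positivity) (fun M _ => le_of_eq ?_)
    rw [mul_pow, sq_abs]
    ring
  have hlog3 : 1 ≤ Real.log (K j) := by
    have h1 : Real.exp 1 ≤ (K j : ℝ) := by
      have h2 : (3 : ℝ) ≤ K j := by
        have := hK j
        have h3 : 3 ≤ K j := by omega
        exact_mod_cast h3
      have := Real.exp_one_lt_d9
      linarith
    rw [← Real.log_exp 1]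
    exact Real.log_le_log (Real.exp_pos 1) h1
  have hmass : ∑ M ∈ Ioc (w.a j) (w.b j), 1 / (M : ℝ) ≤ 2 * Real.log (K j) := by
    have := n5_mass_le (N j) (K j) (hK1 j) (hKN j)
    show ∑ M ∈ Ioc (N j / K j) (N j), 1 / (M : ℝ) ≤ 2 * Real.log (K j)
    linarith
  set m := ∑ M ∈ Ioc (w.a j) (w.b j), 1 / (M : ℝ) with hmdef
  set x := ∑ M ∈ Ioc (w.a j) (w.b j), (1 / (M : ℝ)) * |n5R f k i₀ j M| with hxdef
  set y := ∑ M ∈ Ioc (w.a j) (w.b j), (1 / (M : ℝ)) * n5R f k i₀ j M ^ 2 with hydef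
  have h1 : ε / 4 * m < x := by
    have h2 : ε / 2 * m ≤ ε * Real.log (K j) := by
      have h3 : ε / 2 * m ≤ ε / 2 * (2 * Real.log (K j)) :=
        mul_le_mul_of_nonneg_left hmass (by positivity)
      linarith
    have h4 : 2 * (1 / ((j : ℝ) + 1)) * m ≤ ε / 4 * m :=
      mul_le_mul_of_nonneg_right (by linarith) hm.le
    linarith
  rw [div_lt_iff₀ hm] at hj
  have h2 : (ε / 4 * m) ^ 2 < x ^ 2 := by
    apply pow_lt_pow_left₀ h1 (by positivity) (by norm_num)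
  have h3 : m * y < m * ((ε / 4) ^ 2 * m) := mul_lt_mul_of_pos_left hj hm
  nlinarith

end DG
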