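import Pool.Agent.Helper6.DG.N8Mr
import Pool.Agent.Helper6.DG.N4Lim
import Pool.Agent.Helper6.DG.N7Set
import Pool.Agent.Helper53.DG.Defs
import Pool.Agent.Helper53.DG.BoxPd
import Pool.Agent.Helper6.DG.N5End
import Pool.Agent.Helper13.MRF.LawX

/-!
# DG-N9: the two-point theorem for every shift `h`

PROOF. `lim_two`: as `lim_end` (N4Lim.lean) with `k = h`, `i₀ = h`, no slowness: `end_small` is replaced by the following. Let `X = app w`,
`X' = BLP.powS X h` (the same set and mean, `T^h`). For `G` with `G i = 1` for `0 < i < h`: `cor X h G m x = G 0 x * G h (T^(h m) x) = cor X' 1 G' m x` with `G' 0 = G 0`,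
`G' 1 = G h` (`Finset.prod_range_succ`, the middle factors are `1`). `box X' [r] g = box X [h r] g = 0` (`box_one`). `CA.small D hD 1 (hBL 1 le_rfl) (hSVT 1) hPR (ε²)` for `X'`
gives, for large `N`, `w`, `Y`: `‖avP P (p ↦ avP P' (p' ↦ E cor X h G (p p')))‖ ≤ ε` for all such `G` with `G h = g`.
The remaining steps are word for word those of N4Lim (`mn_slow`, `mn_div`, `chain_gen01`).
`twoPt`: by contradiction as `endSt` (N5End.lean): counterexamples `N_j, K_j, f_j, g_j`; functions `f j 0 = f_j (· - 2)`, `f j h = g_j (· - 2)` (extended by their value at `0`... for `x < 2` any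
value in `[0,1]`), `f j i = 1` otherwise; `c j M = R' j M = E_{n≤M} f_j(Ω(n)) g_j(Ω(n+h)) - Mn M (f j h) * E_{n ≤ M} f_j(Ω(n))`; note
`|Mn M (g_j (· - 2)) - Mn M g_j| → 0` uniformly as `M → ∞` (law of `Ω` is shift invariant: `MRP.law1x` / `MRP.lawx`, Helper13/MRF/LawX.lean), small `M` are negligible.
-/

set_option autoImplicit false

namespace DG

open Finset Filter Topology

private theorem n9_small (hBL : ∀ k, 1 ≤ k → BL k) (hSVT : ∀ k, SVT k) (hPR : PR) (D : ℕ)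
    (hD : 1 ≤ D) (ε : ℝ) (hε : 0 < ε) (X : Sys) (h : ℕ)
    (g : X.S → ℂ) (hg : ∀ x, ‖g x‖ ≤ 1)
    (hbox : ∀ r : ℕ, 0 < r → box X [((h * r : ℕ) : ℤ)] g = 0) :
    ∀ᶠ N : ℕ in atTop, ∀ᶠ w : ℕ in atTop, ∀ᶠ Y : ℕ in atTop,
      ∀ G : X.S → ℂ, (∀ x, ‖G x‖ ≤ 1) →
        ‖avP (PW D N.factorial w) (fun p => avP (PW D N.factorial Y) (fun p' =>
          X.μ.E (fun x => G x * g ((X.T ^ ((h : ℤ) * ((p * p' : ℕ) : ℤ))) x))))‖ ≤ ε := by
  obtain ⟨b, hb, hs⟩ := CA.small D hD 1 (hBL 1 le_rfl) (hSVT 1) hPR (ε ^ 2) (by positivity)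
  have h1 := hs (BLP.powS X h) g hg (fun r hr => by
    have e1 : box (BLP.powS X h) (List.replicate 1 (r : ℤ)) g = box X [((h * r : ℕ) : ℤ)] g := by
      rw [BLP.box_powS]
      congr 1
    rw [e1, hbox r hr]
    exact hb.le)
  filter_upwards [h1] with N hN
  filter_upwards [hN] with w hw
  filter_upwards [hw 1 le_rfl] with Y hY
  intro G hG
  have hG' : ∀ (i : ℕ) (x : X.S), ‖(fun i : ℕ => if i = 1 then g else G) i x‖ ≤ 1 := by
    intro i x
    by_cases hi : i = 1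
    · simp only [hi, if_true]; exact hg x
    · simp only [hi, if_false]; exact hG x
  have h2 := CA.norm_avg_le_of_sq (PW D N.factorial Y) _ hε.le
    (hY (fun i : ℕ => if i = 1 then g else G) hG' (if_pos rfl))
  refine le_trans (le_of_eq ?_) h2
  congr 1
  unfold avP
  simp only [Finset.mul_sum]
  rw [Finset.sum_comm]
  apply Finset.sum_congr rfl
  intro p' _
  apply Finset.sum_congr rfl
  intro p _
  have e1 : (BLP.powS X h).μ.E (cor (BLP.powS X h) 1 (fun i : ℕ => if i = 1 then g else G)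
      ((((1 : ℕ) : ℤ) * (p : ℤ)) * (p' : ℤ))) =
      X.μ.E (fun x => G x * g ((X.T ^ ((h : ℤ) * ((p * p' : ℕ) : ℤ))) x)) := by
    have e2 : cor (BLP.powS X h) 1 (fun i : ℕ => if i = 1 then g else G)
      ((((1 : ℕ) : ℤ) * (p : ℤ)) * (p' : ℤ)) =
        fun x => G x * g ((X.T ^ ((h : ℤ) * ((p * p' : ℕ) : ℤ))) x) := by
      funext x
      unfold cor
      rw [Finset.prod_range_succ, Finset.prod_range_one]
      have e3 : ((BLP.powS X h).T ^ (((1 : ℕ) : ℤ) * ((((1 : ℕ) : ℤ) * (p : ℤ)) * (p' : ℤ)))) =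
          X.T ^ ((h : ℤ) * ((p * p' : ℕ) : ℤ)) := by
        show (X.T ^ h) ^ (((1 : ℕ) : ℤ) * ((((1 : ℕ) : ℤ) * (p : ℤ)) * (p' : ℤ))) = _
        rw [zpow_mul X.T (h : ℤ), zpow_natCast X.T h]
        congr 1
        push_cast
        ring
      have e4 : ((BLP.powS X h).T ^ (((0 : ℕ) : ℤ) *
          ((((1 : ℕ) : ℤ) * (p : ℤ)) * (p' : ℤ)))) x = x := by
        rw [Nat.cast_zero, zero_mul, zpow_zero]
        rfl
      rw [e3, e4]
      rfl
    rw [e2]
    rfl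
  rw [e1]
  ring

private theorem n9_avP {P : Finset ℕ} {f g : ℕ → ℂ} {B : ℝ} (hB : 0 ≤ B)
    (h : ∀ p ∈ P, ‖f p - g p‖ ≤ B) : ‖avP P f - avP P g‖ ≤ B := by
  unfold avP
  rw [← mul_sub, ← Finset.sum_sub_distrib, norm_mul, norm_div, norm_one, Complex.norm_natCast]
  rcases P.eq_empty_or_nonempty with rfl | hP
  · simpa using hB
  · have hc : (0 : ℝ) < P.card := by exact_mod_cast hP.card_pos
    have h1 : ‖∑ p ∈ P, (f p - g p)‖ ≤ P.card * B := by
      refine (norm_sum_le_of_le P h).trans ?_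
      rw [Finset.sum_const, nsmul_eq_mul]
    calc 1 / (P.card : ℝ) * ‖∑ p ∈ P, (f p - g p)‖ ≤ 1 / (P.card : ℝ) * (P.card * B) := by
          gcongr
      _ = B := by field_simp

private theorem n9_avP_sub (P : Finset ℕ) (f g : ℕ → ℂ) :
    avP P f - avP P g = avP P (fun p => f p - g p) := by
  unfold avP
  rw [← mul_sub, ← Finset.sum_sub_distrib]

private theorem n9_patf (f : ℕ → ℕ → ℕ → ℝ) (h : ℕ) (hh : 1 ≤ h)
    (h1 : ∀ j i x, i ≠ 0 → i ≠ h → f j i x = 1) (r : ℕ) (a : ℤ) (s : ℕ × ℕ × ℤ) :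
    patf f r h a s = ((f s.1 0 (OmZ s.2.2 + r) : ℝ) : ℂ) *
      ((f s.1 h (OmZ (s.2.2 + (h : ℤ) * a) + r) : ℝ) : ℂ) := by
  unfold patf
  rw [Finset.prod_range_succ, Finset.prod_eq_single 0]
  · rw [Nat.cast_zero, zero_mul, add_zero]
  · intro i hi hi0
    rw [h1 _ i _ hi0 (Finset.mem_range.1 hi).ne, Complex.ofReal_one]
  · intro h0
    exact absurd (Finset.mem_range.2 (by omega)) h0

private theorem n9_set1 (f : ℕ → ℕ → ℕ → ℝ) (h : ℕ) (hh : 1 ≤ h)
    (h1 : ∀ j i x, i ≠ 0 → i ≠ h → f j i x = 1) (r : ℕ) (a : ℤ) (s : ℕ × ℕ × ℤ) :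
    patf (fun j => set1 (f j) h) r h a s = ((f s.1 0 (OmZ s.2.2 + r) : ℝ) : ℂ) := by
  rw [n9_patf (fun j => set1 (f j) h) h hh]
  · unfold set1
    rw [if_neg (by omega), if_pos rfl, Complex.ofReal_one, mul_one]
  · intro j i x hi0 hih
    unfold set1
    rw [if_neg hih]
    exact h1 j i x hi0 hih

private theorem n9_slow (ψ : ℕ → ℕ → ℝ) (hψ : ∀ j x, 0 ≤ ψ j x ∧ ψ j x ≤ 1) (B : ℝ)
    (c : ℕ → ℕ → ℝ) (hc : SlowW B c) : SlowW (B + 2) (fun j M => c j M * Mn M (ψ j)) := by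
  have hm := mn_slow ψ hψ
  have hm0 : ∀ j M, 0 ≤ Mn M (ψ j) ∧ Mn M (ψ j) ≤ 1 := fun j M => n5_Mn01 M (ψ j) (hψ j)
  refine ⟨fun j M => ?_, fun j M M' h1 h2 => ?_⟩
  · show |c j M * Mn M (ψ j)| ≤ 1
    rw [abs_mul, abs_of_nonneg (hm0 j M).1]
    exact mul_le_one₀ (hc.1 j M) (hm0 j M).1 (hm0 j M).2
  · show |c j M * Mn M (ψ j) - c j M' * Mn M' (ψ j)| ≤ _
    have e : c j M * Mn M (ψ j) - c j M' * Mn M' (ψ j) =
        (c j M - c j M') * Mn M (ψ j) + c j M' * (Mn M (ψ j) - Mn M' (ψ j)) := by ring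
    rw [e]
    refine (abs_add_le _ _).trans ?_
    rw [abs_mul, abs_mul, abs_of_nonneg (hm0 j M).1]
    have a1 : |c j M - c j M'| * Mn M (ψ j) ≤ |c j M - c j M'| :=
      mul_le_of_le_one_right (abs_nonneg _) (hm0 j M).2
    have a2 : |c j M'| * |Mn M (ψ j) - Mn M' (ψ j)| ≤ |Mn M (ψ j) - Mn M' (ψ j)| :=
      mul_le_of_le_one_left (abs_nonneg _) (hc.1 j M')
    have a3 := hc.2 j M M' h1 h2
    have a4 : |Mn M (ψ j) - Mn M' (ψ j)| ≤ 2 * ((M : ℝ) - M') / M := hm.2 j M M' h1 h2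
    have a5 : (B + 2) * ((M : ℝ) - M') / M = B * ((M : ℝ) - M') / M + 2 * ((M : ℝ) - M') / M := by
      ring
    rw [a5]
    linarith

private theorem n9_diff (w : Win) (h : ℕ) (hh : 1 ≤ h) (f : ℕ → ℕ → ℕ → ℝ)
    (hf : ∀ j i x, 0 ≤ f j i x ∧ f j i x ≤ 1)
    (h1 : ∀ j i x, i ≠ 0 → i ≠ h → f j i x = 1)
    (B : ℝ) (c : ℕ → ℕ → ℝ) (hc : SlowW B c) (e : ℕ) (a : ℤ) (ε : ℝ) (hε : 0 < ε) :
    ‖((appμ w).E (fun s => wtc c e s * patf f 0 h a s) -
      (appμ w).E (fun s => wtc (fun j M => c j M * Mn M (f j h)) e s *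
        patf (fun j => set1 (f j) h) 0 h a s)) -
      (appμ w).E (fun s => (wtc c e s * ((f s.1 0 (OmZ s.2.2) : ℝ) : ℂ)) *
        gfun (fun j => f j h) (fun j M => Mn M (f j h)) ((shT ^ ((h : ℤ) * a)) s))‖ ≤ ε := by
  obtain ⟨M0, hM0⟩ := mn_div e ε hε
  have hm0 : ∀ j M, 0 ≤ Mn M (f j h) ∧ Mn M (f j h) ≤ 1 := fun j M =>
    n5_Mn01 M (f j h) (hf j h)
  have hwc : ∀ s, ‖wtc c e s‖ ≤ 1 := fun s => by
    unfold wtc
    rw [Complex.norm_real]
    exact hc.1 _ _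
  have hf0 : ∀ s : ℕ × ℕ × ℤ, ‖((f s.1 0 (OmZ s.2.2) : ℝ) : ℂ)‖ ≤ 1 := fun s => by
    rw [Complex.norm_real, Real.norm_of_nonneg (hf _ _ _).1]
    exact (hf _ _ _).2
  have hcf : ∀ s : ℕ × ℕ × ℤ, ‖wtc c e s * ((f s.1 0 (OmZ s.2.2) : ℝ) : ℂ)‖ ≤ 1 := fun s => by
    rw [norm_mul]
    exact mul_le_one₀ (hwc s) (norm_nonneg _) (hf0 s)
  rw [← Mean.E_sub, ← Mean.E_sub]
  have e1 : (fun s => wtc c e s * patf f 0 h a s -
      wtc (fun j M => c j M * Mn M (f j h)) e s * patf (fun j => set1 (f j) h) 0 h a s -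
      (wtc c e s * ((f s.1 0 (OmZ s.2.2) : ℝ) : ℂ)) *
        gfun (fun j => f j h) (fun j M => Mn M (f j h)) ((shT ^ ((h : ℤ) * a)) s)) =
      fun s => ((wtc c e s * ((f s.1 0 (OmZ s.2.2) : ℝ) : ℂ)) *
        ((Mn s.2.1 (f s.1 h) - Mn (s.2.1 / 2 ^ e) (f s.1 h) : ℝ) : ℂ)) * (((1 : ℝ)) : ℂ) := by
    funext s
    obtain ⟨j, M, n⟩ := s
    rw [n9_patf f h hh h1, n9_set1 f h hh h1, shT_zpow]
    unfold gfun wtc
    simp only [add_zero]
    push_cast
    ring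
  rw [e1]
  have h2 := app_small w (fun s => (wtc c e s * ((f s.1 0 (OmZ s.2.2) : ℝ) : ℂ)) *
        ((Mn s.2.1 (f s.1 h) - Mn (s.2.1 / 2 ^ e) (f s.1 h) : ℝ) : ℂ)) (fun _ => 1) 1 1 ε M0
    (fun s => by
      rw [norm_mul]
      refine mul_le_one₀ (hcf s) (norm_nonneg _) ?_
      rw [Complex.norm_real, Real.norm_eq_abs, abs_le]
      have a1 := hm0 s.1 s.2.1
      have a2 := hm0 s.1 (s.2.1 / 2 ^ e)
      constructor <;> linarith [a1.1, a1.2, a2.1, a2.2])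
    (fun _ => zero_le_one) (fun _ => le_rfl) hε.le
    (fun s hs => by
      rw [norm_mul, ← one_mul ε]
      refine mul_le_mul (hcf s) ?_ (norm_nonneg _) zero_le_one
      rw [Complex.norm_real, Real.norm_eq_abs, abs_sub_comm]
      exact hM0 s.2.1 hs (f s.1 h) (hf s.1 h))
  refine h2.trans (le_of_eq ?_)
  rw [Mean.R_const, mul_one]

private theorem n9_close (hBL : ∀ k, 1 ≤ k → BL k) (hSVT : ∀ k, SVT k) (hPR : PR) (hEnt : Ent)
    (w : Win) (h : ℕ) (hh : 1 ≤ h) (f : ℕ → ℕ → ℕ → ℝ)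
    (hf : ∀ j i x, 0 ≤ f j i x ∧ f j i x ≤ 1)
    (h1 : ∀ j i x, i ≠ 0 → i ≠ h → f j i x = 1)
    (B : ℝ) (hB : 0 ≤ B) (c : ℕ → ℕ → ℝ) (hc : SlowW B c) (D : ℕ) (hD : 1 ≤ D) (ε : ℝ)
    (hε : 0 < ε) :
    ‖(appμ w).E (fun s => wtc c 0 s * patf f 2 h 1 s) -
      (appμ w).E (fun s => wtc (fun j M => c j M * Mn M (f j h)) 0 s *
        patf (fun j => set1 (f j) h) 2 h 1 s)‖ ≤ (4 * B + 8) / D + 4 * ε := by
  obtain ⟨V, hV⟩ := exists_goodU
  have hVt := goodU_le hV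
  have hψ : ∀ j x, 0 ≤ f j h x ∧ f j h x ≤ 1 := fun j x => hf j h x
  have hm0 : ∀ j M, 0 ≤ Mn M (f j h) ∧ Mn M (f j h) ≤ 1 := fun j M =>
    n5_Mn01 M (f j h) (hf j h)
  have hg1 : ∀ s : ℕ × ℕ × ℤ, ‖gfun (fun j => f j h) (fun j M => Mn M (f j h)) s‖ ≤ 1 := by
    intro s
    unfold gfun
    rw [Complex.norm_real, Real.norm_eq_abs, abs_le]
    have a1 := hψ s.1 (OmZ s.2.2)
    have a2 := hm0 s.1 s.2.1
    constructor <;> linarith [a1.1, a1.2, a2.1, a2.2]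
  have hsm := n9_small hBL hSVT hPR D hD ε hε (app w) h
    (gfun (fun j => f j h) (fun j M => Mn M (f j h))) hg1
    (fun r hr => box_one w (fun j => f j h) hψ (h * r) (Nat.mul_pos hh hr))
  obtain ⟨N, hN⟩ := hsm.exists
  have hq : 1 ≤ N.factorial := Nat.factorial_pos N
  have hpow : Tendsto (fun i : ℕ => 2 ^ i) (V : Filter ℕ) atTop :=
    (tendsto_pow_atTop_atTop_of_one_lt (by norm_num : (1 : ℕ) < 2)).mono_left hVt
  have hN2 := hpow.eventually hN
  have c1 := chain_gen01 hPR hEnt V hV w f hf B hB c hc h D N.factorial hD hq ε hε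
  have c2 := chain_gen01 hPR hEnt V hV w (fun j => set1 (f j) h)
    (fun j => n5_set1 (f j) (hf j) h) (B + 2) (by linarith)
    (fun j M => c j M * Mn M (f j h)) (n9_slow (fun j => f j h) hψ B c hc) h D N.factorial hD hq
    ε hε
  obtain ⟨i, hi1, hi2, hi3⟩ := (hN2.and (c1.and c2)).exists
  obtain ⟨l, hl1, hl2, hl3⟩ := ((hpow.eventually hi1).and (hi2.and hi3)).exists
  have hl4 := hl1 (fun s => wtc c (i + l) s * ((f s.1 0 (OmZ s.2.2) : ℝ) : ℂ)) (fun s => by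
    rw [norm_mul]
    refine mul_le_one₀ ?_ (norm_nonneg _) ?_
    · unfold wtc
      rw [Complex.norm_real]
      exact hc.1 _ _
    · rw [Complex.norm_real, Real.norm_of_nonneg (hf _ _ _).1]
      exact (hf _ _ _).2)
  set E2 := (appμ w).E (fun s => wtc c 0 s * patf f 2 h 1 s)
  set E3 := (appμ w).E (fun s => wtc (fun j M => c j M * Mn M (f j h)) 0 s *
        patf (fun j => set1 (f j) h) 2 h 1 s)
  set a2 := avP (PW D N.factorial (2 ^ i)) (fun p => avP (PW D N.factorial (2 ^ l)) (fun p' =>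
          (appμ w).E (fun s => wtc c (i + l) s * patf f 0 h ((p * p' : ℕ) : ℤ) s))) with ha2
  set a3 := avP (PW D N.factorial (2 ^ i)) (fun p => avP (PW D N.factorial (2 ^ l)) (fun p' =>
          (appμ w).E (fun s => wtc (fun j M => c j M * Mn M (f j h)) (i + l) s *
            patf (fun j => set1 (f j) h) 0 h ((p * p' : ℕ) : ℤ) s))) with ha3
  set a4 := avP (PW D N.factorial (2 ^ i)) (fun p => avP (PW D N.factorial (2 ^ l)) (fun p' =>
          (app w).μ.E (fun s => wtc c (i + l) s * ((f s.1 0 (OmZ s.2.2) : ℝ) : ℂ) *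
            gfun (fun j => f j h) (fun j M => Mn M (f j h))
              (((app w).T ^ ((h : ℤ) * ((p * p' : ℕ) : ℤ))) s)))) with ha4
  have h5 : ‖(a2 - a3) - a4‖ ≤ ε := by
    have e1 : a2 - a3 = avP (PW D N.factorial (2 ^ i)) (fun p =>
        avP (PW D N.factorial (2 ^ l)) (fun p' =>
          (appμ w).E (fun s => wtc c (i + l) s * patf f 0 h ((p * p' : ℕ) : ℤ) s) -
          (appμ w).E (fun s => wtc (fun j M => c j M * Mn M (f j h)) (i + l) s *
            patf (fun j => set1 (f j) h) 0 h ((p * p' : ℕ) : ℤ) s))) := by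
      rw [ha2, ha3, n9_avP_sub]
      congr 1
      funext p
      rw [n9_avP_sub]
    rw [e1, ha4]
    refine n9_avP hε.le fun p _ => n9_avP hε.le fun p' _ => ?_
    exact n9_diff w h hh f hf h1 B c hc (i + l) ((p * p' : ℕ) : ℤ) ε hε
  have e : E2 - E3 = (E2 - a2) + ((a2 - a3) - a4) + a4 - (E3 - a3) := by ring
  rw [e]
  have t1 := norm_sub_le ((E2 - a2) + ((a2 - a3) - a4) + a4) (E3 - a3)
  have t2 := norm_add_le ((E2 - a2) + ((a2 - a3) - a4)) a4
  have t3 := norm_add_le (E2 - a2) ((a2 - a3) - a4)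
  have t4 : (4 * B + 8) / (D : ℝ) = 2 * (B + 1) / D + 2 * (B + 2 + 1) / D := by ring
  rw [t4]
  linarith

theorem lim_two (hBL : ∀ k, 1 ≤ k → BL k) (hSVT : ∀ k, SVT k) (hPR : PR) (hEnt : Ent) (w : Win)
    (h : ℕ) (hh : 1 ≤ h) (f : ℕ → ℕ → ℕ → ℝ) (hf : ∀ j i x, 0 ≤ f j i x ∧ f j i x ≤ 1)
    (h1 : ∀ j i x, i ≠ 0 → i ≠ h → f j i x = 1)
    (B : ℝ) (hB : 0 ≤ B) (c : ℕ → ℕ → ℝ) (hc : SlowW B c) :
    (appμ w).E (fun s => wtc c 0 s * patf f 2 h 1 s) =
      (appμ w).E (fun s => wtc (fun j M => c j M * Mn M (f j h)) 0 s *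
        patf (fun j => set1 (f j) h) 2 h 1 s) := by
  by_contra hne
  have hδ : 0 < ‖(appμ w).E (fun s => wtc c 0 s * patf f 2 h 1 s) -
      (appμ w).E (fun s => wtc (fun j M => c j M * Mn M (f j h)) 0 s *
        patf (fun j => set1 (f j) h) 2 h 1 s)‖ := norm_pos_iff.2 (sub_ne_zero.2 hne)
  set δ := ‖(appμ w).E (fun s => wtc c 0 s * patf f 2 h 1 s) -
      (appμ w).E (fun s => wtc (fun j M => c j M * Mn M (f j h)) 0 s *
        patf (fun j => set1 (f j) h) 2 h 1 s)‖ with hδd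
  obtain ⟨D, hD⟩ := exists_nat_gt (4 * (4 * B + 8) / δ)
  have hD0 : (0 : ℝ) < D := lt_trans (by positivity) hD
  have hD1 : 1 ≤ D := by
    have : 0 < D := by exact_mod_cast hD0
    omega
  have h2 := n9_close hBL hSVT hPR hEnt w h hh f hf h1 B hB c hc D hD1 (δ / 16) (by positivity)
  rw [← hδd] at h2
  have h3 : (4 * B + 8) / (D : ℝ) < δ / 4 := by
    rw [div_lt_iff₀ hδ] at hD
    rw [div_lt_iff₀ hD0]
    linarith
  linarith

/-- two functions at the ends -/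
private noncomputable def n9F (h : ℕ) (f g : ℕ → ℕ → ℝ) (j i x : ℕ) : ℝ :=
  if i = 0 then f j x else if i = h then g j x else 1

private theorem n9F_01 (h : ℕ) (f g : ℕ → ℕ → ℝ) (hf : ∀ j x, 0 ≤ f j x ∧ f j x ≤ 1)
    (hg : ∀ j x, 0 ≤ g j x ∧ g j x ≤ 1) (j i x : ℕ) : 0 ≤ n9F h f g j i x ∧ n9F h f g j i x ≤ 1 := by
  unfold n9F
  split_ifs
  · exact hf j x
  · exact hg j x
  · constructor <;> norm_num

private theorem n9F_one (h : ℕ) (f g : ℕ → ℕ → ℝ) (j i x : ℕ) (h0 : i ≠ 0) (hi : i ≠ h) :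
    n5f (n9F h f g) j i x = 1 := by
  unfold n5f n9F
  simp only [if_neg h0, if_neg hi, ite_self]

private theorem n9_lim (hBL : ∀ k, 1 ≤ k → BL k) (hSVT : ∀ k, SVT k) (hPR : PR) (hEnt : Ent)
    (w : Win) (h : ℕ) (hh : 1 ≤ h) (f g : ℕ → ℕ → ℝ) (hf0 : ∀ j x, 0 ≤ f j x ∧ f j x ≤ 1)
    (hg0 : ∀ j x, 0 ≤ g j x ∧ g j x ≤ 1) :
    Tendsto (fun j => (∑ M ∈ Ioc (w.a j) (w.b j), (1 / (M : ℝ)) * n5R (n9F h f g) h h j M ^ 2) /
      ∑ M ∈ Ioc (w.a j) (w.b j), 1 / (M : ℝ)) (hyperfilter ℕ : Filter ℕ) (𝓝 0) := by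
  have hf := n9F_01 h f g hf0 hg0
  have hsl := n5R_slow (n9F h f g) hf h h
  have hc : Bd (wtc (n5R (n9F h f g) h h) 0) := by
    refine ⟨1, fun s => ?_⟩
    unfold wtc
    rw [Complex.norm_real]
    exact hsl.1 _ _
  have hc2 : Bd (wtc (fun j M => n5R (n9F h f g) h h j M * Mn M (n5f (n9F h f g) j h)) 0) := by
    refine ⟨1, fun s => ?_⟩
    unfold wtc
    rw [Complex.norm_real, norm_mul]
    have h3 := n5_Mn01 (s.2.1 / 2 ^ 0) (n5f (n9F h f g) s.1 h) (n5f_01 (n9F h f g) hf s.1 h)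
    have h4 : ‖n5R (n9F h f g) h h s.1 (s.2.1 / 2 ^ 0)‖ ≤ 1 := hsl.1 _ _
    refine mul_le_one₀ h4 (norm_nonneg _) ?_
    rw [Real.norm_of_nonneg h3.1]
    exact h3.2
  have h2 : Bd (fun s => wtc (n5R (n9F h f g) h h) 0 s * patf (n5f (n9F h f g)) 2 h 1 s) :=
    hc.mul ⟨1, fun s => n5_patf_le (n5f (n9F h f g)) (n5f_01 (n9F h f g) hf) 2 h 1 s⟩
  have h3 : Bd (fun s => wtc (fun j M => n5R (n9F h f g) h h j M *
      Mn M (n5f (n9F h f g) j h)) 0 s * patf (fun j => set1 (n5f (n9F h f g) j) h) 2 h 1 s) :=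
    hc2.mul ⟨1, fun s => n5_patf_le (fun j => set1 (n5f (n9F h f g) j) h)
      (fun j => n5_set1 (n5f (n9F h f g) j) (n5f_01 (n9F h f g) hf j) h) 2 h 1 s⟩
  have h4 := app_tendsto w _ (h2.sub h3)
  rw [Mean.E_sub, lim_two hBL hSVT hPR hEnt w h hh (n5f (n9F h f g)) (n5f_01 (n9F h f g) hf)
    (fun j i x h0 hi => n9F_one h f g j i x h0 hi) 6 (by norm_num) (n5R (n9F h f g) h h) hsl,
    sub_self] at h4
  have h5 := (Complex.continuous_re.tendsto 0).comp h4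
  rw [Complex.zero_re] at h5
  refine h5.congr fun j => ?_
  simp only [Function.comp_apply]
  rw [n5_wmean w (n9F h f g) h h j, Complex.ofReal_re]

private theorem n9_shift (ε : ℝ) (hε : 0 < ε) : ∃ M0 : ℕ, ∀ M : ℕ, M0 ≤ M →
    ∀ F : ℕ → ℕ → ℕ → ℝ, (∀ j i x, 0 ≤ F j i x ∧ F j i x ≤ 1) → ∀ j i : ℕ,
      |Mn M (n5f F j i) - Mn M (F j i)| ≤ ε := by
  obtain ⟨M0, hM0⟩ := MRP.lawx_shift (ε / 2) (by positivity)
  refine ⟨M0, fun M hM F hF j i => ?_⟩
  have e0 : ∀ b : ℕ → ℝ, Mn M b = MRP.mx M b := fun b => by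
    unfold Mn MRP.mx
    ring
  have hb := n5f_01 F hF j i
  have a1 := hM0 M hM (n5f F j i) (fun m => by
    rw [abs_of_nonneg (hb m).1]; exact (hb m).2)
  have a2 := hM0 M hM (MRP.up 1 (n5f F j i)) (fun m => by
    unfold MRP.up
    rw [abs_of_nonneg (hb _).1]; exact (hb _).2)
  have e1 : MRP.up 1 (MRP.up 1 (n5f F j i)) = F j i := by
    funext x
    exact n5f_add F j i x
  rw [e1] at a2
  rw [e0, e0]
  rw [abs_le] at a1 a2 ⊢
  constructor <;> linarith [a1.1, a1.2, a2.1, a2.2]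

private theorem n9_Pr (h : ℕ) (hh : 1 ≤ h) (f g : ℕ → ℕ → ℝ) (j M : ℕ) :
    Pr h M (n9F h f g j) = (1 / (M : ℝ)) * ∑ n ∈ Icc 1 M,
      f j (ArithmeticFunction.cardFactors n) * g j (ArithmeticFunction.cardFactors (n + h)) := by
  unfold Pr
  congr 1
  refine Finset.sum_congr rfl fun n _ => ?_
  rw [Finset.prod_range_succ, Finset.prod_eq_single 0]
  · unfold n9F
    rw [if_pos rfl, if_neg (by omega), if_pos rfl, add_zero]
  · intro i hi hi0
    unfold n9F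
    rw [if_neg hi0, if_neg (Finset.mem_range.1 hi).ne]
  · intro h0
    exact absurd (Finset.mem_range.2 (by omega)) h0

private theorem n9_Pr1 (h : ℕ) (hh : 1 ≤ h) (f g : ℕ → ℕ → ℝ) (j M : ℕ) :
    Pr h M (set1 (n9F h f g j) h) = Mn M (f j) := by
  unfold Pr Mn
  congr 1
  refine Finset.sum_congr rfl fun n _ => ?_
  rw [Finset.prod_range_succ, Finset.prod_eq_single 0]
  · unfold set1 n9F
    rw [if_neg (by omega), if_pos rfl, if_pos rfl, add_zero, mul_one]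
  · intro i hi hi0
    unfold set1 n9F
    rw [if_neg (Finset.mem_range.1 hi).ne, if_neg hi0, if_neg (Finset.mem_range.1 hi).ne]
  · intro h0
    exact absurd (Finset.mem_range.2 (by omega)) h0

theorem twoPt (hBL : ∀ k, 1 ≤ k → BL k) (hSVT : ∀ k, SVT k) (hPR : PR) (hEnt : Ent)
    (h : ℕ) (hh : 1 ≤ h) : TwoPt h := by
  intro ε hε
  by_contra hcon
  push Not at hcon
  choose N K hN hK hKN f g hf hg hB using fun j : ℕ => hcon (j + 3) (j + 3)
  have hK1 : ∀ j, 1 ≤ K j := fun j => by have := hK j; omega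
  have hlogT : Tendsto (fun j : ℕ => Real.log ((j : ℝ) + 3)) atTop atTop :=
    Real.tendsto_log_atTop.comp (tendsto_atTop_add_const_right _ _ tendsto_natCast_atTop_atTop)
  have hlogK : ∀ j : ℕ, Real.log ((j : ℝ) + 3) ≤ Real.log (K j) := fun j => by
    refine Real.log_le_log (by positivity) ?_
    exact_mod_cast hK j
  let w : Win :=
    { a := fun j => N j / K j
      b := N
      lt := fun j => Nat.div_lt_self (by have := hN j; omega) (by have := hK j; omega)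
      div := by
        refine tendsto_atTop_mono (fun j => n5_le_mass (N j) (K j) (hK1 j) (hKN j)) ?_
        refine tendsto_atTop_mono (fun j => ?_) (tendsto_atTop_add_const_right _ (-1) hlogT)
        have h2 := hlogK j
        linarith }
  have hlim := n9_lim hBL hSVT hPR hEnt w h hh f g hf hg
  obtain ⟨M0, hM0⟩ := n9_shift (ε / 16) (by positivity)
  have hF := n9F_01 h f g hf hg
  have hev := (hlim.eventually (gt_mem_nhds (show (0 : ℝ) < (ε / 4) ^ 2 by positivity)))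
  have hev2 : ∀ᶠ j : ℕ in (hyperfilter ℕ : Filter ℕ), 4 * (M0 : ℝ) / ε ≤ Real.log ((j : ℝ) + 3) :=
    (hlogT.eventually (eventually_ge_atTop _)).filter_mono Nat.hyperfilter_le_atTop
  obtain ⟨j, hj, hj2⟩ := (hev.and hev2).exists
  have hM0K : (M0 : ℝ) ≤ ε / 4 * Real.log (K j) := by
    have h1 := hj2.trans (hlogK j)
    rw [div_le_iff₀ hε] at h1
    linarith
  have hm : 0 < ∑ M ∈ Ioc (w.a j) (w.b j), 1 / (M : ℝ) := mass_pos (w.lt j)
  have hBj := hB j
  have hx : ∑ M ∈ Ioc (N j / K j) (N j), (1 / (M : ℝ)) *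
      |(1 / (M : ℝ)) * ∑ n ∈ Icc 1 M, f j (ArithmeticFunction.cardFactors n) *
        g j (ArithmeticFunction.cardFactors (n + h)) - Mn M (f j) * Mn M (g j)| ≤
      ∑ M ∈ Ioc (w.a j) (w.b j), (1 / (M : ℝ)) * |n5R (n9F h f g) h h j M| +
        ε / 16 * ∑ M ∈ Ioc (w.a j) (w.b j), 1 / (M : ℝ) + M0 := by
    have hx1 : ∑ M ∈ Ioc (N j / K j) (N j), (1 / (M : ℝ)) *
      |(1 / (M : ℝ)) * ∑ n ∈ Icc 1 M, f j (ArithmeticFunction.cardFactors n) *
        g j (ArithmeticFunction.cardFactors (n + h)) - Mn M (f j) * Mn M (g j)| ≤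
        ∑ M ∈ Ioc (w.a j) (w.b j), (((1 / (M : ℝ)) * |n5R (n9F h f g) h h j M| +
          ε / 16 * (1 / (M : ℝ))) + (if M < M0 then 1 else 0)) := by
      refine Finset.sum_le_sum fun M hM => ?_
      have hM1 : 1 ≤ M := lt_of_le_of_lt (Nat.zero_le _) (Finset.mem_Ioc.1 hM).1
      have hMr : (1 : ℝ) ≤ M := by exact_mod_cast hM1
      have hM0' : (0 : ℝ) ≤ 1 / (M : ℝ) := by positivity
      have hM2 : 1 / (M : ℝ) ≤ 1 := by
        rw [div_le_one (by linarith)]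
        exact hMr
      have h3 : |Mn M (n5f (n9F h f g) j h) - Mn M (g j)| ≤
          ε / 16 + (if M < M0 then 1 else 0) := by
        have e1 : g j = n9F h f g j h := by
          funext x
          unfold n9F
          rw [if_neg (by omega), if_pos rfl]
        split_ifs with hlt
        · have a1 := n5_Mn01 M (n5f (n9F h f g) j h) (n5f_01 (n9F h f g) hF j h)
          have a2 := n5_Mn01 M (g j) (hg j)
          rw [abs_le]
          constructor <;> linarith [a1.1, a1.2, a2.1, a2.2]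
        · rw [add_zero, e1]
          exact hM0 M (by omega) (n9F h f g) hF j h
      have h5 : (1 / (M : ℝ)) * ∑ n ∈ Icc 1 M, f j (ArithmeticFunction.cardFactors n) *
          g j (ArithmeticFunction.cardFactors (n + h)) - Mn M (f j) * Mn M (g j) =
          n5R (n9F h f g) h h j M +
          (Mn M (n5f (n9F h f g) j h) - Mn M (g j)) * Mn M (f j) := by
        unfold n5R
        rw [n9_Pr h hh, n9_Pr1 h hh]
        ring
      have h6 := n5_Mn01 M (f j) (hf j)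
      have h7 : |(1 / (M : ℝ)) * ∑ n ∈ Icc 1 M, f j (ArithmeticFunction.cardFactors n) *
          g j (ArithmeticFunction.cardFactors (n + h)) - Mn M (f j) * Mn M (g j)| ≤
          |n5R (n9F h f g) h h j M| + (ε / 16 + (if M < M0 then 1 else 0)) := by
        rw [h5]
        refine (abs_add_le _ _).trans ?_
        rw [abs_mul, abs_of_nonneg h6.1]
        have h8 : |Mn M (n5f (n9F h f g) j h) - Mn M (g j)| * Mn M (f j) ≤
            |Mn M (n5f (n9F h f g) j h) - Mn M (g j)| :=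
          mul_le_of_le_one_right (abs_nonneg _) h6.2
        linarith
      refine (mul_le_mul_of_nonneg_left h7 hM0').trans ?_
      have h9 : 1 / (M : ℝ) * (if M < M0 then (1 : ℝ) else 0) ≤ (if M < M0 then 1 else 0) := by
        split_ifs
        · rw [mul_one]; exact hM2
        · rw [mul_zero]
      calc 1 / (M : ℝ) * (|n5R (n9F h f g) h h j M| + (ε / 16 + (if M < M0 then 1 else 0)))
          = (1 / (M : ℝ) * |n5R (n9F h f g) h h j M| + ε / 16 * (1 / (M : ℝ))) +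
            1 / (M : ℝ) * (if M < M0 then (1 : ℝ) else 0) := by ring
        _ ≤ _ := by linarith
    refine hx1.trans ?_
    rw [Finset.sum_add_distrib, Finset.sum_add_distrib, ← Finset.mul_sum]
    have h4 : ∑ M ∈ Ioc (w.a j) (w.b j), (if M < M0 then (1 : ℝ) else 0) ≤ M0 := by
      rw [← Finset.sum_filter, Finset.sum_const, nsmul_eq_mul, mul_one]
      have h5 : ((Ioc (w.a j) (w.b j)).filter (fun M => M < M0)) ⊆ range M0 := by
        intro M hM
        exact Finset.mem_range.2 (Finset.mem_filter.1 hM).2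
      have h6 := Finset.card_le_card h5
      rw [Finset.card_range] at h6
      exact_mod_cast h6
    linarith
  have hCS : (∑ M ∈ Ioc (w.a j) (w.b j), (1 / (M : ℝ)) * |n5R (n9F h f g) h h j M|) ^ 2 ≤
      (∑ M ∈ Ioc (w.a j) (w.b j), 1 / (M : ℝ)) *
        ∑ M ∈ Ioc (w.a j) (w.b j), (1 / (M : ℝ)) * n5R (n9F h f g) h h j M ^ 2 := by
    refine Finset.sum_sq_le_sum_mul_sum_of_sq_le_mul _ (fun M _ => by positivity)
      (fun M _ => by positivity) (fun M _ => le_of_eq ?_)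
    rw [mul_pow, sq_abs]
    ring
  have hlog3 : 1 ≤ Real.log (K j) := by
    have h1 : Real.exp 1 ≤ (K j : ℝ) := by
      have h2 : (3 : ℝ) ≤ K j := by
        have := hK j
        have h3 : 3 ≤ K j := by omega
        exact_mod_cast h3
      have := Real.exp_one_lt_d9
      linarith
    rw [← Real.log_exp 1]
    exact Real.log_le_log (Real.exp_pos 1) h1
  have hmass : ∑ M ∈ Ioc (w.a j) (w.b j), 1 / (M : ℝ) ≤ 2 * Real.log (K j) := by
    have := n5_mass_le (N j) (K j) (hK1 j) (hKN j)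
    show ∑ M ∈ Ioc (N j / K j) (N j), 1 / (M : ℝ) ≤ 2 * Real.log (K j)
    linarith
  set m := ∑ M ∈ Ioc (w.a j) (w.b j), 1 / (M : ℝ) with hmdef
  set x := ∑ M ∈ Ioc (w.a j) (w.b j), (1 / (M : ℝ)) * |n5R (n9F h f g) h h j M| with hxdef
  set y := ∑ M ∈ Ioc (w.a j) (w.b j), (1 / (M : ℝ)) * n5R (n9F h f g) h h j M ^ 2 with hydef
  have h1 : ε / 4 * m < x := by
    have h3 : 3 * ε / 8 * m ≤ 3 * ε / 8 * (2 * Real.log (K j)) :=
      mul_le_mul_of_nonneg_left hmass (by positivity)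
    have h4 : 0 < ε / 16 * m := by positivity
    linarith
  rw [div_lt_iff₀ hm] at hj
  have h2 : (ε / 4 * m) ^ 2 < x ^ 2 := by
    apply pow_lt_pow_left₀ h1 (by positivity) (by norm_num)
  have h3 : m * y < m * ((ε / 4) ^ 2 * m) := mul_lt_mul_of_pos_left hj hm
  nlinarith

end DG
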