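import Pool.Agent.Helper6.DG.Final
import Pool.Agent.Helper6.DG.N12End
import Pool.Agent.Helper6.DG.N7Set
import Pool.Agent.Helper6.DG.N9Two

/-!
# Project DIAG, second theorem: assembly
-/

set_option autoImplicit false

namespace DG

open Finset Filter Topology

theorem endSt_holds : ∀ k, 1 ≤ k → ∀ i₀, i₀ ≤ k → EndSt k i₀ := fun k hk i₀ hi =>
  endStAll bl_all svt_all pr DGE.ent_thm k hk i₀ hi

theorem setSt_holds (k : ℕ) (I : Finset ℕ) :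
    ∀ ε : ℝ, 0 < ε → ∃ δ : ℝ, 0 < δ ∧ ∃ K0 N0 : ℕ, ∀ N K : ℕ, N0 ≤ N → K0 ≤ K → K ≤ N →
      ∀ F : (Fin k → ℕ) → ℝ, (∀ l, |F l| ≤ 1) → SlowOutS k I δ F →
        ∑ M ∈ Ioc (N / K) N, (1 / (M : ℝ)) * |Ec k M F - MxS k I M F| ≤ ε * Real.log K :=
  setSt endSt_holds k I

theorem twoPt_holds (h : ℕ) (hh : 1 ≤ h) : TwoPt h :=
  twoPt bl_all svt_all pr DGE.ent_thm h hh

theorem twoSet_holds (k a b : ℕ) (hab : a < b) (hbk : b < k) :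
    ∀ ε : ℝ, 0 < ε → ∃ δ : ℝ, 0 < δ ∧ ∃ K0 N0 : ℕ, ∀ N K : ℕ, N0 ≤ N → K0 ≤ K → K ≤ N →
      ∀ F : (Fin k → ℕ) → ℝ, (∀ l, |F l| ≤ 1) → SlowOutS k {a, b} δ F →
        ∑ M ∈ Ioc (N / K) N, (1 / (M : ℝ)) * |Ec k M F - EpD k M F| ≤ ε * Real.log K :=
  twoSet endSt_holds k a b hab hbk (twoPt_holds (b - a) (by omega))

end DG
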