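import Pool.Agent.Helper6.DG.S0Defs

/-!
# SYM-10: composition with the diagonal invariance

PROOF. `|Ec M F - Ec (t M) (F^rev (· + s))| ≤ |Ec M F - Ec (t M) F^rev| + ∑_{u < s} |Ec (t M) (F_u) - Ec (t M) (F_u (· + 1))|`
with `F^rev l = F (l ∘ rev)`, `F_u l = F (fun i => l (rev i) + u)`. First term: `SymAll k t` with `ε / 2`. Each of the
others: for `N' = t N`, `K' = t K`, `∑_{M ∈ Ioc (N/K) N} (1/M) |..(t M)| ≤ t ∑_{M' ∈ Ioc (N'/K') N'} (1/M') |..(M')|`
(`N' / K' = N / K`, injectivity of `M ↦ t M`), which is at most `t ε' log K' ≤ 2 t ε' log K` for `K ≥ t` by `Goal k`,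
`ε' = ε / (4 t (s + 1))`.
-/

set_option autoImplicit false

namespace DG

open Finset Filter Topology

namespace S10

/-- reversed and shifted function -/
def Fu (k : ℕ) (F : (Fin k → ℕ) → ℝ) (u : ℕ) (l : Fin k → ℕ) : ℝ :=
  F (fun i => l (Fin.rev i) + u)

lemma tele (k s M : ℕ) (F : (Fin k → ℕ) → ℝ) (a : ℝ) :
    |a - Ec k M (Fu k F s)| ≤ |a - Ec k M (Fu k F 0)| +
      ∑ u ∈ range s, |Ec k M (Fu k F u) - Ec k M (Fu k F (u + 1))| := by
  induction s with
  | zero => simp
  | succ s ih =>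
    rw [Finset.sum_range_succ]
    have h : |a - Ec k M (Fu k F (s + 1))| ≤
        |a - Ec k M (Fu k F s)| + |Ec k M (Fu k F s) - Ec k M (Fu k F (s + 1))| := by
      have := abs_add_le (a - Ec k M (Fu k F s)) (Ec k M (Fu k F s) - Ec k M (Fu k F (s + 1)))
      simpa using this
    linarith

lemma scale (t N K : ℕ) (ht : 1 ≤ t) (g : ℕ → ℝ) (hg : ∀ M, 0 ≤ g M) :
    ∑ M ∈ Ioc (N / K) N, (1 / (M : ℝ)) * g (t * M) ≤
      t * ∑ M ∈ Ioc (t * N / (t * K)) (t * N), (1 / (M : ℝ)) * g M := by
  have hdiv : t * N / (t * K) = N / K := Nat.mul_div_mul_left N K (by omega)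
  rw [hdiv, Finset.mul_sum]
  have h1 : ∑ M ∈ Ioc (N / K) N, (1 / (M : ℝ)) * g (t * M) =
      ∑ M ∈ (Ioc (N / K) N).image (fun M => t * M), (t : ℝ) * ((1 / (M : ℝ)) * g M) := by
    rw [Finset.sum_image]
    · apply Finset.sum_congr rfl
      intro M hM
      rw [Finset.mem_Ioc] at hM
      have hM0 : (M : ℝ) ≠ 0 := by
        have : 0 < M := lt_of_le_of_lt (Nat.zero_le _) hM.1
        positivity
      have ht0 : (t : ℝ) ≠ 0 := by
        have : 0 < t := by omega
        positivity
      push_cast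
      field_simp
    · intro a _ b _ hab
      exact Nat.eq_of_mul_eq_mul_left (by omega) hab
  rw [h1]
  apply Finset.sum_le_sum_of_subset_of_nonneg
  · intro x hx
    rw [Finset.mem_image] at hx
    obtain ⟨M, hM, rfl⟩ := hx
    rw [Finset.mem_Ioc] at hM ⊢
    constructor
    · calc N / K < M := hM.1
        _ ≤ t * M := Nat.le_mul_of_pos_left M (by omega)
    · exact Nat.mul_le_mul_left t hM.2
  · intro x _ _
    have := hg x
    positivity

end S10

open S10

theorem symGoal_of (k s t : ℕ) (ht : 1 ≤ t) (hG : Goal k) (hA : SymAll k t) : SymGoal k s t := by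
  intro ε hε
  have htR : (0 : ℝ) < t := by exact_mod_cast ht
  have hsR : (0 : ℝ) < (s : ℝ) + 1 := by positivity
  set ε' : ℝ := ε / (4 * t * (s + 1)) with hε'
  have hε'0 : 0 < ε' := by positivity
  obtain ⟨K1, N1, h1⟩ := hA (ε / 2) (by positivity)
  obtain ⟨K2, N2, h2⟩ := hG ε' hε'0
  refine ⟨max (max K1 K2) t, max N1 N2, ?_⟩
  intro N K hN hK hKN F hF
  have hK1 : K1 ≤ K := le_trans (le_trans (le_max_left _ _) (le_max_left _ _)) hK
  have hK2 : K2 ≤ K := le_trans (le_trans (le_max_right _ _) (le_max_left _ _)) hK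
  have hKt : t ≤ K := le_trans (le_max_right _ _) hK
  have hN1 : N1 ≤ N := le_trans (le_max_left _ _) hN
  have hN2 : N2 ≤ N := le_trans (le_max_right _ _) hN
  have hKpos : 0 < K := by omega
  have hlogK : 0 ≤ Real.log K := Real.log_natCast_nonneg K
  have hF0 : ∀ u l, |Fu k F u l| ≤ 1 := fun u l => hF _
  have a1 := h1 N K hN1 hK1 hKN F hF
  have hFu0 : Fu k F 0 = (fun l => F (fun i => l (Fin.rev i))) := by
    funext l
    simp [Fu]
  have hFus : Fu k F s = (fun l => F (fun i => l (Fin.rev i) + s)) := rfl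
  rw [← hFu0] at a1
  rw [← hFus]
  -- the shifts
  have a2 : ∀ u : ℕ, ∑ M ∈ Ioc (N / K) N, (1 / (M : ℝ)) *
      |Ec k (t * M) (Fu k F u) - Ec k (t * M) (Fu k F (u + 1))| ≤
        2 * t * ε' * Real.log K := by
    intro u
    have b1 := scale t N K ht (fun M => |Ec k M (Fu k F u) - Ec k M (Fu k F (u + 1))|)
      (fun M => abs_nonneg _)
    have b2 := h2 (t * N) (t * K) (le_trans hN2 (Nat.le_mul_of_pos_left N (by omega)))
      (le_trans hK2 (Nat.le_mul_of_pos_left K (by omega))) (Nat.mul_le_mul_left t hKN)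
      (Fu k F u) (hF0 u)
    have hsh : (fun l : Fin k → ℕ => Fu k F u (fun i => l i + 1)) = Fu k F (u + 1) := by
      funext l
      unfold Fu
      congr 1
      funext i
      ring
    rw [hsh] at b2
    have hlog : Real.log ((t * K : ℕ) : ℝ) ≤ 2 * Real.log K := by
      push_cast
      rw [Real.log_mul (by positivity) (by positivity)]
      have : Real.log (t : ℝ) ≤ Real.log K :=
        Real.log_le_log htR (by exact_mod_cast hKt)
      linarith
    calc _ ≤ _ := b1
      _ ≤ t * (ε' * Real.log ((t * K : ℕ) : ℝ)) := by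
          apply mul_le_mul_of_nonneg_left b2 htR.le
      _ ≤ t * (ε' * (2 * Real.log K)) := by
          apply mul_le_mul_of_nonneg_left _ htR.le
          exact mul_le_mul_of_nonneg_left hlog hε'0.le
      _ = 2 * t * ε' * Real.log K := by ring
  calc ∑ M ∈ Ioc (N / K) N, (1 / (M : ℝ)) * |Ec k M F - Ec k (t * M) (Fu k F s)|
      ≤ ∑ M ∈ Ioc (N / K) N, (1 / (M : ℝ)) * (|Ec k M F - Ec k (t * M) (Fu k F 0)| +
        ∑ u ∈ range s, |Ec k (t * M) (Fu k F u) - Ec k (t * M) (Fu k F (u + 1))|) := by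
        apply Finset.sum_le_sum
        intro M _
        apply mul_le_mul_of_nonneg_left (tele k s (t * M) F _) (by positivity)
    _ = ∑ M ∈ Ioc (N / K) N, (1 / (M : ℝ)) * |Ec k M F - Ec k (t * M) (Fu k F 0)| +
        ∑ u ∈ range s, ∑ M ∈ Ioc (N / K) N, (1 / (M : ℝ)) *
          |Ec k (t * M) (Fu k F u) - Ec k (t * M) (Fu k F (u + 1))| := by
        rw [Finset.sum_comm, ← Finset.sum_add_distrib]
        apply Finset.sum_congr rfl
        intro M _
        rw [mul_add, Finset.mul_sum]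
    _ ≤ ε / 2 * Real.log K + ∑ u ∈ range s, 2 * t * ε' * Real.log K := by
        apply add_le_add a1
        exact Finset.sum_le_sum (fun u _ => a2 u)
    _ = ε / 2 * Real.log K + s * (2 * t * ε' * Real.log K) := by
        rw [Finset.sum_const, Finset.card_range, nsmul_eq_mul]
    _ ≤ ε * Real.log K := by
        have h3 : (s : ℝ) * (2 * t * ε') ≤ ε / 2 := by
          rw [hε']
          have : (s : ℝ) * (2 * t * (ε / (4 * t * (s + 1)))) = ε / 2 * (s / (s + 1)) := by
            field_simp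
            ring
          rw [this]
          have h4 : (s : ℝ) / (s + 1) ≤ 1 := by
            rw [div_le_one hsR]
            linarith
          nlinarith
        have h5 : (s : ℝ) * (2 * t * ε' * Real.log K) = (s * (2 * t * ε')) * Real.log K := by ring
        rw [h5]
        nlinarith [mul_le_mul_of_nonneg_right h3 hlogK]

end DG
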