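import Pool.Agent.Helper6.DG.S0Defs
import Pool.Agent.Helper56.DG.PRim

/-!
# SYM-1: positive relative density of the primes `≡ -1 mod q` in `[Y, (1 + 1/D) Y]`

PROOF. Copy of Helper56/DG/PRim.lean (`pr`) with the residue class `1` replaced by `-1` (that is
`q - 1`): the count with von Mangoldt weights in a reduced class comes from the same general source.
-/

set_option autoImplicit false

namespace DG

open Finset Filter Topology

open Pool.Agent.Helper6.SW Pool.Agent.Helper6.ER Pool.Agent.Helper22.SW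

private theorem h45pr_siegel : StSiegel :=
  stSiegel_of (Pool.Agent.Helper4.SW.stUpper_of stPartial)
    (Pool.Agent.Helper4.SW.stCoarse_of stPartial) stEstermann
    Pool.Agent.Helper16.SW.stQuad (stReal_of stPartial) stBall

private theorem h45pr_logDeriv : StLogDeriv :=
  Pool.Agent.Helper51.SW.stLogDeriv_of (Pool.Agent.Helper4.SW.stDeriv_of stPartial)
    (Pool.Agent.Helper51.SW.stLower_of (Pool.Agent.Helper4.SW.stUpper_of stPartial)
      (Pool.Agent.Helper4.SW.stDeriv_of stPartial)
      Pool.Agent.Helper16.SW.stTrivA Pool.Agent.Helper16.SW.stTrivB)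

private theorem h45pr_sw : StSW :=
  Pool.Agent.Helper1.SW.stSW_of h45pr_siegel h45pr_logDeriv Pool.Agent.Helper51.SW.stTent
    Pool.Agent.Helper51.SW.stTransform

/-- The error in the class `-1 mod q`, `q` fixed, is `o(log X)`. -/
private theorem h45pr_err {V : ℝ} (hV : 0 < V) {q : ℕ} (hq : 1 ≤ q) {δ : ℝ} (hδ : 0 < δ) :
    ∀ᶠ X : ℝ in atTop, |EW V 1 X q (q - 1)| ≤ δ / q.totient * Real.log X := by
  have hq0 : (0 : ℝ) < q := by exact_mod_cast hq
  have hphi : (0 : ℝ) < q.totient := by exact_mod_cast Nat.totient_pos.mpr (by omega)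
  obtain ⟨X₁, h1⟩ := h45pr_sw V 1 1 hV
  have e1 : ∀ᶠ X : ℝ in atTop, (V + Real.log X) ^ 2 ≤ X ^ (1 / 8 : ℝ) :=
    ev_pow V _ _ (by norm_num)
  have e2 : ∀ᶠ X : ℝ in atTop, 2 * (Real.exp V * Real.exp V) ≤ X ^ (1 / 8 : ℝ) :=
    ev_const _ _ (by norm_num)
  have e3 : ∀ᶠ X : ℝ in atTop, Real.exp V * q ≤ X := eventually_ge_atTop _
  have e4 : ∀ᶠ X : ℝ in atTop, (q : ℝ) ≤ Real.log X :=
    Real.tendsto_log_atTop.eventually_ge_atTop _
  have e5 : ∀ᶠ X : ℝ in atTop, (q * 2 / δ) ^ 2 + 1 ≤ Real.log X :=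
    Real.tendsto_log_atTop.eventually_ge_atTop _
  filter_upwards [e1, e2, e3, e4, e5, eventually_ge_atTop X₁, eventually_gt_atTop 1] with
    X g1 g2 g3 g4 g5 g6 g7
  have hX0 : 0 < X := by linarith
  set L := Real.log X with hL
  have hL1 : 1 ≤ L := by
    have : 0 ≤ (q * 2 / δ) ^ 2 := sq_nonneg _
    linarith
  have hom : ∀ p ∈ PX V X, ¬ Nat.Coprime p q → om V 1 X p = 0 := by
    intro p hp hc
    unfold PX at hp
    rw [mem_filter, mem_Icc] at hp
    have hpd : p ∣ q := by
      by_contra h
      exact hc ((Nat.Prime.coprime_iff_not_dvd hp.2).mpr h)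
    have hle : p ≤ q := Nat.le_of_dvd (by omega) hpd
    apply om_eq_zero hV 1 hX0 hp.1.1
    have h2 : (p : ℝ) ≤ q := by exact_mod_cast hle
    have h3 := mul_le_mul_of_nonneg_left g3 (Real.exp_pos (-V)).le
    rw [← mul_assoc, ← Real.exp_add, neg_add_cancel, Real.exp_zero, one_mul] at h3
    linarith
  set E0 : ℝ := (V + L) ^ 1 * (Real.exp V / X) *
      (2 * Real.sqrt (Real.exp V * X) * (V + L)) with hE0
  have hE01 : E0 ≤ 1 := by
    have b1 : Real.sqrt (Real.exp V * X) ≤ Real.exp V * X ^ (1 / 2 : ℝ) := by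
      rw [Real.sqrt_mul (Real.exp_pos V).le, ← Real.sqrt_eq_rpow]
      apply mul_le_mul_of_nonneg_right _ (Real.sqrt_nonneg _)
      rw [Real.sqrt_le_left (Real.exp_pos V).le]
      have : 1 ≤ Real.exp V := Real.one_le_exp hV.le
      nlinarith
    have hVL : 0 ≤ V + L := by linarith
    calc E0 ≤ (V + L) ^ 1 * (Real.exp V / X) *
          (2 * (Real.exp V * X ^ (1 / 2 : ℝ)) * (V + L)) := by
          apply mul_le_mul_of_nonneg_left _ (by positivity)
          apply mul_le_mul_of_nonneg_right _ hVL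
          linarith
      _ = ((V + L) ^ 2 * (2 * (Real.exp V * Real.exp V))) * X ^ (1 / 2 : ℝ) / X := by ring
      _ ≤ X ^ (1 / 8 : ℝ) * X ^ (1 / 8 : ℝ) * X ^ (1 / 2 : ℝ) / X := by
          apply div_le_div_of_nonneg_right _ hX0.le
          apply mul_le_mul_of_nonneg_right _ (by positivity)
          exact mul_le_mul g1 g2 (by positivity) (by positivity)
      _ = X ^ (1 / 8 + 1 / 8 + 1 / 2 : ℝ) / X := by
          rw [Real.rpow_add hX0, Real.rpow_add hX0]
      _ ≤ 1 := by
          rw [div_le_one hX0]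
          calc X ^ (1 / 8 + 1 / 8 + 1 / 2 : ℝ) ≤ X ^ (1 : ℝ) :=
                Real.rpow_le_rpow_of_exponent_le g7.le (by norm_num)
            _ = X := Real.rpow_one X
  have hsum : ∑ χ ∈ nontriv q, ‖ThW V 1 X χ‖ ≤ q * (Real.sqrt L + 1) := by
    refine (sum_ThW_le hq hom).trans ?_
    have h2 : ∀ f ∈ q.divisors.erase 1, ∑ ψ ∈ prim f, ‖ThW V 1 X ψ‖ ≤
        f.totient * (Real.sqrt L + 1) := by
      intro f hf
      rw [mem_erase, Nat.mem_divisors] at hf
      have hf1 : 1 ≤ f := Nat.pos_of_dvd_of_pos hf.2.1 (by omega)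
      have hfq : f ≤ q := Nat.le_of_dvd (by omega) hf.2.1
      have : NeZero f := ⟨by omega⟩
      have hcard : ((prim f).card : ℝ) ≤ f.totient := by exact_mod_cast card_prim_le hf1
      have h3 : ∀ ψ ∈ prim f, ‖ThW V 1 X ψ‖ ≤ Real.sqrt L + 1 := by
        intro ψ hψ
        have hp := mem_prim.1 hψ
        have hne : ψ ≠ 1 := by
          rintro rfl
          have h4 : (1 : DirichletCharacter ℂ f).conductor = f := hp
          rw [DirichletCharacter.conductor_one] at h4
          exact hf.1 h4.symm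
        have h5 := h1 X g6 f ψ hp hne (by
          rw [Real.rpow_one]
          have : (f : ℝ) ≤ q := by exact_mod_cast hfq
          linarith)
        exact (norm_ThW_sub hV 1 g7 ψ).trans (add_le_add h5 hE01)
      calc ∑ ψ ∈ prim f, ‖ThW V 1 X ψ‖ ≤ ∑ ψ ∈ prim f, (Real.sqrt L + 1) :=
            Finset.sum_le_sum h3
        _ = (prim f).card * (Real.sqrt L + 1) := by rw [Finset.sum_const, nsmul_eq_mul]
        _ ≤ _ := mul_le_mul_of_nonneg_right hcard (by positivity)
    calc ∑ f ∈ q.divisors.erase 1, ∑ ψ ∈ prim f, ‖ThW V 1 X ψ‖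
        ≤ ∑ f ∈ q.divisors.erase 1, (f.totient : ℝ) * (Real.sqrt L + 1) := Finset.sum_le_sum h2
      _ ≤ ∑ f ∈ q.divisors, (f.totient : ℝ) * (Real.sqrt L + 1) :=
          Finset.sum_le_sum_of_subset_of_nonneg (Finset.erase_subset _ _)
            fun f _ _ => by positivity
      _ = q * (Real.sqrt L + 1) := by
          rw [← Finset.sum_mul]
          congr 1
          exact_mod_cast Nat.sum_totient q
  have h45cop : Nat.Coprime (q - 1) q := by
    have h := (Nat.coprime_self_add_right (m := q - 1) (n := 1)).2 (Nat.coprime_one_right _)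
    rwa [Nat.sub_add_cancel hq] at h
  refine (EW_le hq h45cop hom).trans ?_
  have hs : q * (Real.sqrt L + 1) ≤ δ * L := by
    have h2 : q * 2 / δ ≤ Real.sqrt L := by
      apply Real.le_sqrt_of_sq_le
      linarith
    have h3 : 1 ≤ Real.sqrt L := Real.one_le_sqrt.2 hL1
    have h4 : Real.sqrt L * Real.sqrt L = L := Real.mul_self_sqrt (by linarith)
    rw [div_le_iff₀ hδ] at h2
    calc q * (Real.sqrt L + 1) ≤ q * (Real.sqrt L + Real.sqrt L) :=
          mul_le_mul_of_nonneg_left (by linarith) hq0.le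
      _ = (q * 2) * Real.sqrt L := by ring
      _ ≤ (Real.sqrt L * δ) * Real.sqrt L := mul_le_mul_of_nonneg_right h2 (by positivity)
      _ = δ * (Real.sqrt L * Real.sqrt L) := by ring
      _ = δ * L := by rw [h4]
  calc (1 / (q.totient : ℝ)) * ∑ χ ∈ nontriv q, ‖ThW V 1 X χ‖
      ≤ (1 / (q.totient : ℝ)) * (δ * L) :=
        mul_le_mul_of_nonneg_left (hsum.trans hs) (by positivity)
    _ = δ / q.totient * L := by ring

theorem prm : PRm := by
  classical
  intro D hD
  have hD0 : (0 : ℝ) < D := by exact_mod_cast hD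
  set V : ℝ := Real.log (1 + 1 / (2 * D)) / 2 with hVdef
  have hV : 0 < V := by
    have : 0 < Real.log (1 + 1 / (2 * (D : ℝ))) := Real.log_pos (by
      have : 0 < 1 / (2 * (D : ℝ)) := by positivity
      linarith)
    positivity
  have hVV : Real.exp V * Real.exp V = 1 + 1 / (2 * D) := by
    rw [← Real.exp_add, hVdef, add_halves, Real.exp_log (by positivity)]
  have he1 : 1 ≤ Real.exp V := Real.one_le_exp hV.le
  obtain ⟨c, C, X₀, hc, hC, hmass⟩ := Pool.Agent.Helper35.SG.massAll V 1 hV
  refine ⟨c / (4 * C), by positivity, fun q hq => ?_⟩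
  have hphi : (0 : ℝ) < q.totient := by exact_mod_cast Nat.totient_pos.mpr (by omega)
  obtain ⟨X₁, herr⟩ := eventually_atTop.1 (h45pr_err hV hq (show (0 : ℝ) < c / 2 by positivity))
  have hlogY : ∀ᶠ Y : ℕ in atTop, V + 1 ≤ Real.log Y :=
    (Real.tendsto_log_atTop.comp tendsto_natCast_atTop_atTop).eventually_ge_atTop _
  filter_upwards [hlogY, eventually_ge_atTop (2 * D), eventually_ge_atTop (⌈X₀⌉₊),
    eventually_ge_atTop (⌈X₁⌉₊), eventually_ge_atTop 1] with Y gl g1 g2 g3 g4
  have hY0 : (0 : ℝ) < Y := by exact_mod_cast g4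
  have hYX0 : X₀ ≤ Y := (Nat.le_ceil _).trans (by exact_mod_cast g2)
  have hYX1 : X₁ ≤ Y := (Nat.le_ceil _).trans (by exact_mod_cast g3)
  set X : ℝ := Real.exp V * Y with hX
  have hYX : (Y : ℝ) ≤ X := by
    rw [hX]
    nlinarith
  have hX0 : 0 < X := by linarith
  have hlogX : Real.log X = V + Real.log Y := by
    rw [hX, Real.log_mul (Real.exp_pos _).ne' hY0.ne', Real.log_exp]
  have hlogX0 : 0 < Real.log X := by linarith
  obtain ⟨m1, m2⟩ := hmass X (hYX0.trans hYX)
  have m3 := herr X (hYX1.trans hYX)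
  rw [pow_one] at m1
  -- the set of the primes that occur
  set T : Finset ℕ := (PX V X).filter (fun p => p ≡ q - 1 [MOD q] ∧ om V 1 X p ≠ 0) with hT
  have hsumT : ∑ p ∈ (PX V X).filter (fun p => p ≡ q - 1 [MOD q]), Real.log p * om V 1 X p =
      ∑ p ∈ T, Real.log p * om V 1 X p := by
    symm
    apply Finset.sum_subset
    · intro p hp
      rw [hT, mem_filter] at hp
      rw [mem_filter]
      exact ⟨hp.1, hp.2.1⟩
    · intro p hp hn
      rw [mem_filter] at hp
      rw [hT, mem_filter] at hn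
      have : om V 1 X p = 0 := by
        by_contra h
        exact hn ⟨hp.1, hp.2, h⟩
      rw [this, mul_zero]
  have hlow : c / 2 / q.totient * Real.log X ≤ ∑ p ∈ T, Real.log p * om V 1 X p := by
    have h1 := (abs_le.1 m3).1
    unfold EW at h1
    rw [hsumT] at h1
    have h2 : c * Real.log X / q.totient ≤ Mass V 1 X / q.totient :=
      div_le_div_of_nonneg_right m1 hphi.le
    have h3 : c * Real.log X / q.totient = c / 2 / q.totient * Real.log X +
      c / 2 / q.totient * Real.log X := by ring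
    linarith
  have hup : ∑ p ∈ T, Real.log p * om V 1 X p ≤ T.card * (C * (Real.log X) ^ 2 / X) := by
    rw [← nsmul_eq_mul]
    apply Finset.sum_le_card_nsmul
    intro p hp
    rw [hT, mem_filter] at hp
    exact (m2 p hp.1 hp.2.2).2
  have hTsub : T ⊆ PWm D q Y := by
    intro p hp
    rw [hT, mem_filter] at hp
    obtain ⟨hp1, hp2, hp3⟩ := hp
    have h1 := (m2 p hp1 hp3).1
    rw [hX, ← mul_assoc, ← Real.exp_add, neg_add_cancel, Real.exp_zero, one_mul] at h1
    rw [PX, mem_filter, mem_Icc] at hp1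
    have hpp := hp1.2
    unfold PWm
    rw [mem_filter, mem_Icc]
    refine ⟨⟨by exact_mod_cast h1.le, ?_⟩, hpp, ?_⟩
    · have h2 : (p : ℝ) ≤ Real.exp V * X :=
        le_trans (by exact_mod_cast hp1.1.2) (Nat.floor_le (by positivity))
      have h3 : Real.exp V * X = Y + Y / (2 * D) := by
        rw [hX, ← mul_assoc, hVV]
        ring
      have h4 : (Y : ℝ) / (2 * D) ≤ ((Y / D : ℕ) : ℝ) := by
        have h5 : (Y : ℝ) / D < ((Y / D : ℕ) : ℝ) + 1 := by
          rw [div_lt_iff₀ hD0]
          have h6 : Y < (Y / D + 1) * D := by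
            have := Nat.div_add_mod' Y D
            have := Nat.mod_lt Y (show 0 < D by omega)
            nlinarith
          exact_mod_cast h6
        have h7 : 1 ≤ (Y : ℝ) / (2 * D) := by
          rw [le_div_iff₀ (by positivity), one_mul]
          exact_mod_cast g1
        have h8 : (Y : ℝ) / D = Y / (2 * D) + Y / (2 * D) := by
          field_simp
          ring
        linarith
      have h9 : (p : ℝ) ≤ ((Y + Y / D : ℕ) : ℝ) := by
        push_cast
        rw [h3] at h2
        linarith
      exact_mod_cast h9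
    · have h10 : p + 1 ≡ 0 [MOD q] := by
        have h11 := Nat.ModEq.add_right 1 hp2
        rw [Nat.sub_add_cancel hq] at h11
        refine h11.trans ?_
        rw [Nat.modEq_zero_iff_dvd]
      exact (Nat.modEq_zero_iff_dvd).1 h10
  have hcard : (T.card : ℝ) ≤ (PWm D q Y).card := by exact_mod_cast Finset.card_le_card hTsub
  have h1 : c / 2 / q.totient * Real.log X ≤ T.card * (C * (Real.log X) ^ 2 / X) :=
    hlow.trans hup
  have h2 : c / (4 * C) * Y / (q.totient * Real.log Y) ≤ T.card := by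
    have hly : 0 < Real.log Y := by linarith
    have h3 : c / 2 * X ≤ T.card * (C * Real.log X * q.totient) := by
      have h4 : c / 2 / q.totient * Real.log X * (X * q.totient / Real.log X) ≤
          T.card * (C * (Real.log X) ^ 2 / X) * (X * q.totient / Real.log X) :=
        mul_le_mul_of_nonneg_right h1 (by positivity)
      have h5 : c / 2 / q.totient * Real.log X * (X * q.totient / Real.log X) = c / 2 * X := by
        field_simp
      have h6 : T.card * (C * (Real.log X) ^ 2 / X) * (X * q.totient / Real.log X) =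
          T.card * (C * Real.log X * q.totient) := by
        field_simp
      rwa [h5, h6] at h4
    rw [div_mul_eq_mul_div, div_div, div_le_iff₀ (by positivity)]
    have h7 : Real.log X ≤ 2 * Real.log Y := by
      rw [hlogX]
      linarith
    have h8 : T.card * (C * Real.log X * q.totient) ≤
        T.card * (C * (2 * Real.log Y) * q.totient) := by
      apply mul_le_mul_of_nonneg_left _ (Nat.cast_nonneg _)
      apply mul_le_mul_of_nonneg_right _ hphi.le
      exact mul_le_mul_of_nonneg_left h7 hC.le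
    have h9 : c / 2 * Y ≤ c / 2 * X := mul_le_mul_of_nonneg_left hYX (by positivity)
    calc c * (Y : ℝ) = 2 * (c / 2 * Y) := by ring
      _ ≤ 2 * (T.card * (C * (2 * Real.log Y) * q.totient)) := by linarith
      _ = T.card * (4 * C * (q.totient * Real.log Y)) := by ring
  exact h2.trans hcard

end DG
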