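import Pool.Agent.Helper6.DG.S0Defs
import Pool.Agent.Helper40.DB.Svt

/-!
# SYM-2: the sieve transfer for the numbers `-p'`, `p' ≡ -1 mod q`

PROOF. Copy of Helper40/DB/Major.lean and Helper40/DB/Svt.lean.
* `sum_PWm_le` (copy of `sum_PW_le`): for `p ∈ PWm D q Y`, `m' = (p + 1) / q`, `q m' = p + 1`, put
 `j = (Y + Y / D + 1) / q - m'`; then `1 + q (tm D q Y + j) = 1 - q m' = -p` and
 `j ≤ (Y / D) / q = Y / (D q) < MM D q Y`; `nu q N z (tm + j) = V⁻¹` since a prime `r ≤ z < Y` dividing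
 `-p` divides `p`. Statement: `∑ p ∈ PWm D q Y, F (-p) ≤ V * ∑ j ∈ range (MM D q Y),
 nu q N z (tm D q Y + j) * F (1 + q * (tm D q Y + j))`.
* `majorm` (copy of `major`, with `PRm`): only the integer interval and `PW` change.
* `svtm`: copy of `svt` with `t = tm D N! Y` (`cube_small` holds for every start `a : ℤ`) and
 `F m = ‖(1/|P|) ∑_p E cor (e p m)‖²`, `F (-p')` on the left.
-/

set_option autoImplicit false

namespace DG

open Finset Filter Topology

private theorem mem_PWm {D q Y p : ℕ} (h : p ∈ PWm D q Y) :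
    Y ≤ p ∧ p ≤ Y + Y / D ∧ p.Prime ∧ q ∣ p + 1 := by
  unfold PWm at h
  rw [mem_filter, mem_Icc] at h
  exact ⟨h.1.1, h.1.2, h.2.1, h.2.2⟩

private theorem eq_of_memm {D q Y p : ℕ} (h : p ∈ PWm D q Y) : q * ((p + 1) / q) = p + 1 := by
  obtain ⟨-, -, hp, hd⟩ := mem_PWm h
  exact Nat.mul_div_cancel' hd

private theorem tm_sub {D q Y p : ℕ} (h : p ∈ PWm D q Y) :
    ((Y + Y / D + 1) / q - (p + 1) / q) + (p + 1) / q = (Y + Y / D + 1) / q := by
  obtain ⟨-, h1, -, -⟩ := mem_PWm h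
  have h2 : (p + 1) / q ≤ (Y + Y / D + 1) / q := Nat.div_le_div_right (by omega)
  omega

private theorem tm_add {D q Y p : ℕ} (h : p ∈ PWm D q Y) :
    1 + (q : ℤ) * (tm D q Y + (((Y + Y / D + 1) / q - (p + 1) / q : ℕ) : ℤ)) = -(p : ℤ) := by
  have h1 : ((((Y + Y / D + 1) / q - (p + 1) / q : ℕ) : ℤ) + (((p + 1) / q : ℕ) : ℤ)) =
      (((Y + Y / D + 1) / q : ℕ) : ℤ) := by exact_mod_cast tm_sub h
  have h2 : (q : ℤ) * (((p + 1) / q : ℕ) : ℤ) = (p : ℤ) + 1 := by exact_mod_cast eq_of_memm h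
  unfold tm
  have h3 : -(((Y + Y / D + 1) / q : ℕ) : ℤ) +
      (((Y + Y / D + 1) / q - (p + 1) / q : ℕ) : ℤ) = -(((p + 1) / q : ℕ) : ℤ) := by
    rw [← h1]
    ring
  rw [h3]
  linarith

private theorem lt_MMm {D q Y p : ℕ} (h : p ∈ PWm D q Y) :
    (Y + Y / D + 1) / q - (p + 1) / q < MM D q Y := by
  obtain ⟨h1, h2, hp, -⟩ := mem_PWm h
  rcases Nat.eq_zero_or_pos q with hq | hq
  · subst hq
    simp [MM]
  have h3 : (Y + Y / D + 1) / q ≤ ((p + 1) + Y / D) / q := Nat.div_le_div_right (by omega)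
  have h4 : ((p + 1) + Y / D) / q ≤ (p + 1) / q + (Y / D) / q + 1 := by
    rw [Nat.div_le_iff_le_mul_add_pred hq]
    have e1 := Nat.div_add_mod (p + 1) q
    have e2 := Nat.div_add_mod (Y / D) q
    have l1 := Nat.mod_lt (p + 1) hq
    have l2 := Nat.mod_lt (Y / D) hq
    have e3 : q * ((p + 1) / q + (Y / D) / q + 1) = q * ((p + 1) / q) + q * ((Y / D) / q) + q := by
      ring
    rw [e3]
    omega
  have h5 : (Y / D) / q = Y / (D * q) := Nat.div_div_eq_div_mul Y D q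
  unfold MM
  rw [h5] at h4
  generalize Y / (D * q) = a at *
  generalize (p + 1 + Y / D) / q = b at *
  omega

private theorem nu_eqm {D q Y N z p : ℕ} (h : p ∈ PWm D q Y) (hz : z < Y) (m : ℤ)
    (hm : 1 + (q : ℤ) * m = -(p : ℤ)) :
    Pool.Agent.Helper40.DB.nu q N z m = (Pool.Agent.Helper40.DB.VV N z)⁻¹ := by
  unfold Pool.Agent.Helper40.DB.nu
  rw [if_pos]
  intro r hr hd
  obtain ⟨h1, -, hp, -⟩ := mem_PWm h
  unfold Pool.Agent.Helper40.DB.PP at hr
  rw [mem_filter, mem_Ioc] at hr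
  rw [hm, dvd_neg] at hd
  have h3 : r ∣ p := by exact_mod_cast hd
  rcases (Nat.dvd_prime hp).1 h3 with h4 | h4
  · exact hr.2.one_lt.ne' h4
  · omega

theorem sum_PWm_le (D q Y N z : ℕ) (hz : z < Y)
    (F : ℤ → ℝ) (hF : ∀ m, 0 ≤ F m) :
    ∑ p ∈ PWm D q Y, F (-(p : ℤ)) ≤ Pool.Agent.Helper40.DB.VV N z * ∑ j ∈ range (MM D q Y),
      Pool.Agent.Helper40.DB.nu q N z (tm D q Y + j) * F (1 + (q : ℤ) * (tm D q Y + j)) := by
  have hV := Pool.Agent.Helper40.DB.VV_pos N z
  have hnu : ∀ m, 0 ≤ Pool.Agent.Helper40.DB.nu q N z m := by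
    intro m
    unfold Pool.Agent.Helper40.DB.nu
    split_ifs
    · exact (inv_pos.2 hV).le
    · exact le_rfl
  rw [Finset.mul_sum]
  set g : ℕ → ℝ := fun j => Pool.Agent.Helper40.DB.VV N z *
    (Pool.Agent.Helper40.DB.nu q N z (tm D q Y + j) *
      F (1 + (q : ℤ) * (tm D q Y + j))) with hg
  have hg0 : ∀ j, 0 ≤ g j := fun j => mul_nonneg hV.le (mul_nonneg (hnu _) (hF _))
  have h1 : ∀ p ∈ PWm D q Y, F (-(p : ℤ)) = g ((Y + Y / D + 1) / q - (p + 1) / q) := by
    intro p hp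
    simp only [hg]
    rw [tm_add hp, nu_eqm hp hz _ (tm_add hp), ← mul_assoc, mul_inv_cancel₀ hV.ne', one_mul]
  rw [Finset.sum_congr rfl h1]
  rw [← Finset.sum_image (s := PWm D q Y)
    (g := fun p => (Y + Y / D + 1) / q - (p + 1) / q) (f := g)]
  · refine Finset.sum_le_sum_of_subset_of_nonneg ?_ fun j _ _ => hg0 j
    intro j hj
    obtain ⟨p, hp, rfl⟩ := mem_image.1 hj
    exact mem_range.2 (lt_MMm hp)
  · intro p hp p' hp' he
    have hp := Finset.mem_coe.1 hp
    have hp' := Finset.mem_coe.1 hp'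
    simp only at he
    have e1 := tm_sub hp
    have e2 := tm_sub hp'
    have e3 : (p + 1) / q = (p' + 1) / q := by omega
    have e4 := eq_of_memm hp
    have e5 := eq_of_memm hp'
    rw [e3, e5] at e4
    omega

/-- The numbers `-p`, `p ∈ PWm`, are majorised. -/
theorem majorm (hPR : PRm) (D : ℕ) (hD : 1 ≤ D) : ∃ c : ℝ, 0 < c ∧ ∀ s : ℕ, 1 ≤ s → ∀ N : ℕ, 2 ≤ N →
    ∀ᶠ Y : ℕ in atTop, (PWm D N.factorial Y).Nonempty ∧ ∀ z : ℕ, z ^ s ≤ MM D N.factorial Y →
      MM D N.factorial Y < (z + 1) ^ s → ∀ F : ℤ → ℝ, (∀ m, 0 ≤ F m) →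
      (1 / ((PWm D N.factorial Y).card : ℝ)) * ∑ p ∈ PWm D N.factorial Y, F (-(p : ℤ)) ≤
        (16 * s / c) * ((1 / ((MM D N.factorial Y : ℕ) : ℝ)) * ∑ j ∈ range (MM D N.factorial Y),
          Pool.Agent.Helper40.DB.nu N.factorial N z (tm D N.factorial Y + j) *
            F (1 + (N.factorial : ℤ) * (tm D N.factorial Y + j))) := by
  obtain ⟨c, hc, hPR⟩ := hPR D hD
  refine ⟨c, hc, fun s hs N hN => ?_⟩
  set q := N.factorial with hqdef
  have hq0 : 1 ≤ q := Nat.factorial_pos N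
  have hq2 : 2 ≤ q := le_trans hN (Nat.self_le_factorial N)
  filter_upwards [hPR q hq0, eventually_ge_atTop 7, eventually_ge_atTop q,
    eventually_ge_atTop ((D * q) ^ 2), eventually_ge_atTop (D * q * N ^ s)] with
    Y hcard hY7 hYq hYsq hYN
  have hYr : (7 : ℝ) ≤ Y := by exact_mod_cast hY7
  have hlogY : 0 < Real.log Y := Real.log_pos (by linarith)
  have hphi : (0 : ℝ) < (q.totient : ℝ) := by exact_mod_cast Nat.totient_pos.2 hq0
  have hqr : (0 : ℝ) < q := by exact_mod_cast hq0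
  have hlow : 0 < c * Y / (q.totient * Real.log Y) := by positivity
  have hcard0 : (0 : ℝ) < ((PWm D q Y).card : ℝ) := lt_of_lt_of_le hlow hcard
  refine ⟨Finset.card_pos.1 (by exact_mod_cast hcard0), fun z hz1 hz2 F hF => ?_⟩
  have hDq : 0 < D * q := Nat.mul_pos hD hq0
  have hMN : N ^ s ≤ MM D q Y := by
    unfold MM
    have : N ^ s ≤ Y / (D * q) := by
      rw [Nat.le_div_iff_mul_le hDq]
      rw [mul_comm]
      exact hYN
    omega
  have hNz : N ≤ z := by
    by_contra hcon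
    have h1 : (z + 1) ^ s ≤ N ^ s := Nat.pow_le_pow_left (by omega) s
    omega
  have hz2' : 2 ≤ z := le_trans hN hNz
  have hzY : z < Y := by
    have h1 : z ≤ z ^ s := Nat.le_self_pow (by omega) z
    have h2 : MM D q Y ≤ Y / 2 + 3 := by
      unfold MM
      have : Y / (D * q) ≤ Y / 2 := by
        refine Nat.div_le_div_left ?_ (by norm_num)
        calc 2 ≤ q := hq2
          _ = 1 * q := (one_mul q).symm
          _ ≤ D * q := Nat.mul_le_mul_right q hD
      omega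
    omega
  have hsum := sum_PWm_le D q Y N z hzY F hF
  have hV := Pool.Agent.Helper40.DB.VV_pos N z
  have hVt := Pool.Agent.Helper40.DB.VV_mul_totient N z (by omega) hNz hz2'
  set V := Pool.Agent.Helper40.DB.VV N z with hVdef
  have hzr : (2 : ℝ) ≤ z := by exact_mod_cast hz2'
  have hlogz : 0 < Real.log z := Real.log_pos (by linarith)
  -- the size of `M`
  have hMr : (0 : ℝ) < ((MM D q Y : ℕ) : ℝ) := by
    have : 0 < MM D q Y := Nat.succ_pos _
    exact_mod_cast this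
  have hM4 : ((MM D q Y : ℕ) : ℝ) ≤ 4 * Y / q := by
    unfold MM
    push_cast
    have h1 : ((Y / (D * q) : ℕ) : ℝ) ≤ (Y : ℝ) / q := by
      refine le_trans Nat.cast_div_le ?_
      push_cast
      apply div_le_div_of_nonneg_left (by linarith) hqr
      have : (1 : ℝ) ≤ D := by exact_mod_cast hD
      nlinarith
    have h2 : (3 : ℝ) ≤ 3 * Y / q := by
      rw [le_div_iff₀ hqr]
      have : (q : ℝ) ≤ Y := by exact_mod_cast hYq
      linarith
    have h3 : 4 * (Y : ℝ) / q = Y / q + 3 * Y / q := by ring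
    linarith
  -- `log z`
  have hzlog : Real.log Y ≤ 4 * s * Real.log z := by
    have hDqr : (0 : ℝ) < (D * q : ℕ) := by exact_mod_cast hDq
    have h1 : (Y : ℝ) / (D * q : ℕ) ≤ ((MM D q Y : ℕ) : ℝ) := by
      rw [div_le_iff₀ hDqr]
      have h2 : Y < (Y / (D * q) + 1) * (D * q) := by
        have := Nat.lt_div_mul_add hDq (a := Y)
        nlinarith
      have h3 : Y ≤ MM D q Y * (D * q) := by
        unfold MM
        nlinarith
      exact_mod_cast h3
    have h2 : Real.sqrt Y ≤ (Y : ℝ) / (D * q : ℕ) := by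
      rw [le_div_iff₀ hDqr]
      have h3 : ((D * q : ℕ) : ℝ) ≤ Real.sqrt Y := by
        apply Real.le_sqrt_of_sq_le
        exact_mod_cast hYsq
      calc Real.sqrt Y * (D * q : ℕ) ≤ Real.sqrt Y * Real.sqrt Y :=
            mul_le_mul_of_nonneg_left h3 (Real.sqrt_nonneg _)
        _ = Y := Real.mul_self_sqrt (by linarith)
    have h3 : Real.sqrt Y ≤ ((z : ℝ) + 1) ^ s := by
      refine le_trans (h2.trans h1) ?_
      have : MM D q Y ≤ (z + 1) ^ s := hz2.le
      exact_mod_cast this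
    have h4 : Real.sqrt Y ≤ ((z : ℝ) ^ 2) ^ s := by
      refine h3.trans ?_
      apply pow_le_pow_left₀ (by positivity)
      nlinarith
    have h5 := Real.log_le_log (Real.sqrt_pos.2 (by linarith)) h4
    rw [Real.log_sqrt (by linarith), Real.log_pow, Real.log_pow] at h5
    push_cast at h5
    linarith
  -- the constant
  have hconst : V * ((MM D q Y : ℕ) : ℝ) / ((PWm D q Y).card : ℝ) ≤ 16 * s / c := by
    rw [div_le_div_iff₀ hcard0 hc]
    have h1 : c * Y ≤ ((PWm D q Y).card : ℝ) * (q.totient * Real.log Y) := by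
      rwa [div_le_iff₀ (by positivity)] at hcard
    have h2 : V * ((q.totient : ℝ) / q) * Real.log Y ≤ 4 * s := by
      calc V * ((q.totient : ℝ) / q) * Real.log Y
          ≤ V * ((q.totient : ℝ) / q) * (4 * s * Real.log z) :=
            mul_le_mul_of_nonneg_left hzlog (by positivity)
        _ = 4 * s * (V * ((q.totient : ℝ) / q) * Real.log z) := by ring
        _ ≤ 4 * s * 1 := mul_le_mul_of_nonneg_left hVt (by positivity)
        _ = 4 * s := mul_one _
    have hYpos : (0 : ℝ) < Y := by linarith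
    have h3 : V * ((MM D q Y : ℕ) : ℝ) * c * Y ≤ 16 * s * ((PWm D q Y).card : ℝ) * Y := by
      calc V * ((MM D q Y : ℕ) : ℝ) * c * Y = V * ((MM D q Y : ℕ) : ℝ) * (c * Y) := by ring
        _ ≤ V * (4 * Y / q) * (((PWm D q Y).card : ℝ) * (q.totient * Real.log Y)) := by
            apply mul_le_mul (mul_le_mul_of_nonneg_left hM4 hV.le) h1 (by positivity)
            positivity
        _ = 4 * ((PWm D q Y).card : ℝ) * Y * (V * ((q.totient : ℝ) / q) * Real.log Y) := by
            field_simp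
        _ ≤ 4 * ((PWm D q Y).card : ℝ) * Y * (4 * s) :=
            mul_le_mul_of_nonneg_left h2 (by positivity)
        _ = 16 * s * ((PWm D q Y).card : ℝ) * Y := by ring
    exact le_of_mul_le_mul_right h3 hYpos
  have hS : 0 ≤ (1 / ((MM D q Y : ℕ) : ℝ)) * ∑ j ∈ range (MM D q Y),
      Pool.Agent.Helper40.DB.nu q N z (tm D q Y + j) *
        F (1 + (q : ℤ) * (tm D q Y + j)) := by
    refine mul_nonneg (by positivity) (Finset.sum_nonneg fun j _ => mul_nonneg ?_ (hF _))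
    unfold Pool.Agent.Helper40.DB.nu
    split_ifs
    · exact (inv_pos.2 hV).le
    · exact le_rfl
  calc (1 / ((PWm D q Y).card : ℝ)) * ∑ p ∈ PWm D q Y, F (-(p : ℤ))
      ≤ (1 / ((PWm D q Y).card : ℝ)) * (V * ∑ j ∈ range (MM D q Y),
        Pool.Agent.Helper40.DB.nu q N z (tm D q Y + j) *
          F (1 + (q : ℤ) * (tm D q Y + j))) :=
        mul_le_mul_of_nonneg_left hsum (by positivity)
    _ = (V * ((MM D q Y : ℕ) : ℝ) / ((PWm D q Y).card : ℝ)) * ((1 / ((MM D q Y : ℕ) : ℝ)) *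
        ∑ j ∈ range (MM D q Y), Pool.Agent.Helper40.DB.nu q N z (tm D q Y + j) *
          F (1 + (q : ℤ) * (tm D q Y + j))) := by
        field_simp
    _ ≤ _ := mul_le_mul_of_nonneg_right hconst hS

/-- Translation of the cube sums. -/
private lemma inner_eqm (ν : ℤ → ℝ) (M : ℕ) (t : ℤ) {k : ℕ} (h : Fin k → ℤ) :
    ∑ m ∈ range M, ∏ s : Finset (Fin k), (if 0 ≤ (m : ℤ) + ∑ i ∈ s, h i ∧
      (m : ℤ) + ∑ i ∈ s, h i < M then ν (t + ((m : ℤ) + ∑ i ∈ s, h i)) - 1 else 0) =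
    ∑ m ∈ (Ico t (t + M)).filter (fun m => ∀ w : Finset (Fin k),
      m + Pool.Agent.Helper40.DB.dot h w ∈ Ico t (t + M)),
        ∏ w : Finset (Fin k), (ν (m + Pool.Agent.Helper40.DB.dot h w) - 1) := by
  classical
  rw [sum_filter]
  refine sum_nbij' (fun m => t + (m : ℤ)) (fun x => (x - t).toNat) ?_ ?_ ?_ ?_ ?_
  · intro m hm
    rw [mem_range] at hm
    rw [mem_Ico]
    omega
  · intro x hx
    rw [mem_Ico] at hx
    rw [mem_range]
    omega
  · intro m _
    simp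
  · intro x hx
    rw [mem_Ico] at hx
    omega
  · intro m _
    by_cases H : ∀ w : Finset (Fin k), t + (m : ℤ) + Pool.Agent.Helper40.DB.dot h w ∈ Ico t (t + M)
    · rw [if_pos H]
      refine prod_congr rfl fun s _ => ?_
      have h1 := H s
      rw [mem_Ico] at h1
      unfold Pool.Agent.Helper40.DB.dot at h1 ⊢
      rw [if_pos (by constructor <;> omega), add_assoc]
    · rw [if_neg H]
      push Not at H
      obtain ⟨w, hw⟩ := H
      refine prod_eq_zero (mem_univ w) (if_neg fun h1 => hw ?_)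
      rw [mem_Ico]
      unfold Pool.Agent.Helper40.DB.dot
      obtain ⟨h2, h3⟩ := h1
      constructor <;> omega

theorem svtm (hPR : PRm) (k : ℕ) : SVTm k := by
  classical
  intro D hD ε hε
  obtain ⟨c, hc, hmaj⟩ := majorm hPR D hD
  obtain ⟨C, hC, hgvn⟩ := gvn k
  set ε' : ℝ := (c * ε / 16) ^ (2 ^ k) / C with hε'
  have hε'0 : 0 < ε' := by positivity
  obtain ⟨s, hs, N₀, hcube⟩ := Pool.Agent.Helper40.DB.cube_small k ε' hε'0
  have hs0 : (0 : ℝ) < s := by exact_mod_cast hs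
  refine ⟨16 * s / c, by positivity, ?_⟩
  filter_upwards [eventually_ge_atTop (max N₀ 2)] with N hN
  have hN2 : 2 ≤ N := (le_max_right _ _).trans hN
  obtain ⟨H₀, hH₀⟩ := hcube N ((le_max_left _ _).trans hN)
  filter_upwards [hmaj s hs N hN2, eventually_ge_atTop (H₀ * (D * N.factorial))] with Y hY hYH
  intro X e P he hP hP1 G hG
  set M : ℕ := MM D N.factorial Y with hM
  set t : ℤ := tm D N.factorial Y with ht
  have hM3 : 3 ≤ M := Nat.le_add_left _ _
  have hM0 : (0 : ℝ) < M := by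
    have : 0 < M := by omega
    exact_mod_cast this
  have hMH : H₀ ≤ M := by
    have h1 : H₀ ≤ Y / (D * N.factorial) := by
      rw [Nat.le_div_iff_mul_le (Nat.mul_pos hD N.factorial_pos)]
      exact hYH
    exact h1.trans (Nat.le_add_right _ _)
  obtain ⟨z, hz1, hzs, hzlt⟩ := exists_z s M hs (by omega)
  set F : ℤ → ℝ := fun m => ‖(1 / (P.card : ℂ)) * ∑ p ∈ P, X.μ.E (cor X k G ((e * p : ℤ) * m))‖ ^ 2
    with hF
  have hF0 : ∀ m, 0 ≤ F m := fun m => by rw [hF]; positivity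
  have hmajor := hY.2 z hzs hzlt F hF0
  have hcop : ∀ p ∈ Pool.Agent.Helper40.DB.PP N z, ¬ p ∣ N.factorial := by
    intro p hp hdvd
    unfold Pool.Agent.Helper40.DB.PP at hp
    rw [mem_filter, mem_Ioc] at hp
    have := (Nat.Prime.dvd_factorial hp.2).1 hdvd
    omega
  have hcs := hH₀ M hMH z N.factorial hzs hcop t
  -- the weights
  set b : ℤ → ℝ := fun m => if 0 ≤ m ∧ m < M then
    Pool.Agent.Helper40.DB.nu N.factorial N z (t + m) - 1 else 0 with hb
  have hbsupp : ∀ m, b m ≠ 0 → 0 ≤ m ∧ m < M := by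
    intro m hm
    by_contra hcon
    apply hm
    rw [hb]
    simp only
    rw [if_neg hcon]
  have hbox : ∑ h ∈ Fintype.piFinset (fun _ : Fin k => Ioo (-(M : ℤ)) M),
      |∑ m ∈ range M, ∏ s : Finset (Fin k), b ((m : ℤ) + ∑ i ∈ s, h i)| =
      ∑ h ∈ Pool.Agent.Helper40.DB.box k M, |∑ m ∈ (Ico t (t + M)).filter
        (fun m => ∀ w : Finset (Fin k), m + Pool.Agent.Helper40.DB.dot h w ∈ Ico t (t + M)),
          ∏ w : Finset (Fin k), (Pool.Agent.Helper40.DB.nu N.factorial N z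
            (m + Pool.Agent.Helper40.DB.dot h w) - 1)| := by
    unfold Pool.Agent.Helper40.DB.box
    refine sum_congr rfl fun h _ => ?_
    rw [← inner_eqm]
  set β : ℝ := M * (c * ε / 16) / s with hβ
  have hpair : ∀ p ∈ P, ∀ p' ∈ P, ‖∑ j ∈ range M, (b j : ℂ) *
      (prodSys X ((e * p : ℤ) * N.factorial) ((e * p' : ℤ) * N.factorial)).μ.E
        (cor (prodSys X ((e * p : ℤ) * N.factorial) ((e * p' : ℤ) * N.factorial)) k
          (Gp X G ((e * p : ℤ) * (1 + N.factorial * t))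
            ((e * p' : ℤ) * (1 + N.factorial * t))) j)‖ ≤ β := by
    intro p _ p' _
    have h1 := hgvn (prodSys X ((e * p : ℤ) * N.factorial) ((e * p' : ℤ) * N.factorial))
      (Gp X G ((e * p : ℤ) * (1 + N.factorial * t)) ((e * p' : ℤ) * (1 + N.factorial * t)))
      (fun i x => Gp_le X G hG _ _ i x) M (by omega) b hbsupp
    rw [hbox] at h1
    set Z := ∑ j ∈ range M, (b j : ℂ) *
      (prodSys X ((e * p : ℤ) * N.factorial) ((e * p' : ℤ) * N.factorial)).μ.E
        (cor (prodSys X ((e * p : ℤ) * N.factorial) ((e * p' : ℤ) * N.factorial)) k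
          (Gp X G ((e * p : ℤ) * (1 + N.factorial * t))
            ((e * p' : ℤ) * (1 + N.factorial * t))) j) with hZ
    set Q := ∑ h ∈ Pool.Agent.Helper40.DB.box k M, |∑ m ∈ (Ico t (t + M)).filter
        (fun m => ∀ w : Finset (Fin k), m + Pool.Agent.Helper40.DB.dot h w ∈ Ico t (t + M)),
          ∏ w : Finset (Fin k), (Pool.Agent.Helper40.DB.nu N.factorial N z
            (m + Pool.Agent.Helper40.DB.dot h w) - 1)| with hQ
    have h2 : ‖(1 / (M : ℂ)) * Z‖ = ‖Z‖ / M := by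
      rw [norm_mul, norm_div, norm_one, Complex.norm_natCast]
      ring
    rw [h2] at h1
    have h3 : ((s : ℝ) * (‖Z‖ / M)) ^ (2 ^ k) ≤ (c * ε / 16) ^ (2 ^ k) := by
      rw [mul_pow]
      have hMk : (0 : ℝ) < (M : ℝ) ^ (k + 1) := by positivity
      calc (s : ℝ) ^ (2 ^ k) * (‖Z‖ / M) ^ (2 ^ k) ≤
          (s : ℝ) ^ (2 ^ k) * (C / (M : ℝ) ^ (k + 1) * Q) :=
            mul_le_mul_of_nonneg_left h1 (by positivity)
        _ = C / (M : ℝ) ^ (k + 1) * ((s : ℝ) ^ (2 ^ k) * Q) := by ring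
        _ ≤ C / (M : ℝ) ^ (k + 1) * (ε' * (M : ℝ) ^ (k + 1)) :=
            mul_le_mul_of_nonneg_left hcs (by positivity)
        _ = C * ε' := by field_simp
        _ = (c * ε / 16) ^ (2 ^ k) := by
            rw [hε', mul_div_cancel₀ _ hC.ne']
    have h4 : (s : ℝ) * (‖Z‖ / M) ≤ c * ε / 16 :=
      le_of_pow_le_pow_left₀ (by positivity) (by positivity) h3
    rw [hβ, le_div_iff₀ hs0]
    have h5 : (s : ℝ) * (‖Z‖ / M) * M = ‖Z‖ * s := by
      field_simp
    nlinarith [mul_le_mul_of_nonneg_right h4 hM0.le]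
  have hpb := pairs_bound X k G hG M b e N.factorial t P hP β hpair
  have hsplit : ∑ j ∈ range M, Pool.Agent.Helper40.DB.nu N.factorial N z (t + j) *
      F (1 + (N.factorial : ℤ) * (t + j)) =
      ∑ j ∈ range M, F (1 + (N.factorial : ℤ) * (t + j)) +
        ∑ j ∈ range M, b j * F (1 + (N.factorial : ℤ) * (t + j)) := by
    rw [← sum_add_distrib]
    refine sum_congr rfl fun j hj => ?_
    rw [mem_range] at hj
    rw [hb]
    simp only
    rw [if_pos ⟨by positivity, by exact_mod_cast hj⟩]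
    ring
  have hlast : ∑ j ∈ range M, b j * F (1 + (N.factorial : ℤ) * (t + j)) ≤ β :=
    (le_abs_self _).trans hpb
  refine hmajor.trans ?_
  rw [hsplit]
  have hKβ : (16 * s / c) * ((1 / (M : ℝ)) * β) = ε := by
    rw [hβ]
    field_simp
  have h6 : (16 * s / c) * ((1 / (M : ℝ)) *
      ∑ j ∈ range M, b j * F (1 + (N.factorial : ℤ) * (t + j))) ≤ ε := by
    rw [← hKβ]
    exact mul_le_mul_of_nonneg_left (mul_le_mul_of_nonneg_left hlast (by positivity))
      (by positivity)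
  calc (16 * s / c) * ((1 / (M : ℝ)) * (∑ j ∈ range M, F (1 + (N.factorial : ℤ) * (t + j)) +
        ∑ j ∈ range M, b j * F (1 + (N.factorial : ℤ) * (t + j)))) =
      (16 * s / c) * ((1 / (M : ℝ)) * ∑ j ∈ range M, F (1 + (N.factorial : ℤ) * (t + j))) +
        (16 * s / c) * ((1 / (M : ℝ)) *
          ∑ j ∈ range M, b j * F (1 + (N.factorial : ℤ) * (t + j))) := by ring
    _ ≤ _ := add_le_add le_rfl h6

end DG
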