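import Pool.Agent.Helper6.DG.S0Defs
import Pool.Agent.Helper41.DG.CoreArith

/-!
# SYM-3: the core for the signed weights `cwS`

PROOF. Copy of Helper41/DG/CoreArith.lean (`CA.small`, `stCoreArith`).
* `smallm`: copy of `CA.small` with `SVTm`, `PWm` and `-(p' : ℤ)` in place of `SVT`, `PW`, `p'`, for
 `e = 1` only or general `e` (the bilinear core `BL` is for every start `t : ℤ`, here
 `t = tm D N! Y`; `P = PW D N! w` is the same set of primes and `CA.P_small` applies). The statement is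
 for all large `Y`; use it at `Y = t * 2 ^ l`.
* `W_law2n`: `W (law2n A B) f = (1 / |B|) ∑_{b ∈ B} ((1 / |A|) ∑_{a ∈ A} f ((1 * a : ℤ) * (-b)))`, copy of
 `CA.W_law2`.
* `coreS`: copy of `stCoreArith`; the index `j` of `r = (N, i, j, l)` is not used.
-/

set_option autoImplicit false

namespace DG

open Finset Filter Topology

private theorem h45W_law2n (A B : Finset ℕ) (f : ℤ → ℂ) :
    W (law2n A B) f = (1 / (B.card : ℂ)) * ∑ b ∈ B,
      ((1 / (A.card : ℂ)) * ∑ a ∈ A, f ((1 * a : ℤ) * (-(b : ℤ)))) := by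
  unfold law2n
  rw [CA.W_sum]
  simp only [CA.W_sum, CA.W_single]
  rw [Finset.sum_comm, Finset.mul_sum]
  refine Finset.sum_congr rfl fun b _ => ?_
  rw [← mul_assoc, Finset.mul_sum]
  refine Finset.sum_congr rfl fun a _ => ?_
  push_cast
  rw [one_mul, mul_neg]
  congr 1
  rw [one_div_mul_one_div, mul_comm (B.card : ℂ)]

private theorem h45small (D : ℕ) (hD : 1 ≤ D) (k : ℕ) (hBL : BL k) (hSVT : SVTm k) (hPR : PR) :
    ∀ a : ℝ, 0 < a → ∃ b : ℝ, 0 < b ∧ ∀ (X : Sys) (g : X.S → ℂ), (∀ x, ‖g x‖ ≤ 1) →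
      (∀ r : ℕ, 0 < r → (box X (List.replicate k (r : ℤ)) g).re ≤ b) →
      ∀ᶠ N : ℕ in atTop, ∀ᶠ w : ℕ in atTop, ∀ e : ℕ, 1 ≤ e → ∀ᶠ Y : ℕ in atTop,
        ∀ G : ℕ → X.S → ℂ, (∀ i x, ‖G i x‖ ≤ 1) → G k = g →
          (1 / ((PWm D N.factorial Y).card : ℝ)) * ∑ p' ∈ PWm D N.factorial Y,
            ‖(1 / ((PW D N.factorial w).card : ℂ)) * ∑ p ∈ PW D N.factorial w,
              X.μ.E (cor X k G ((e * p : ℤ) * (-(p' : ℤ))))‖ ^ 2 ≤ a := by
  intro a ha
  obtain ⟨C, hC, hBL⟩ := hBL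
  obtain ⟨K, hK, hS⟩ := hSVT D hD (a / 2) (by positivity)
  set θ : ℝ := (a / (2 * K)) ^ (2 ^ k) with hθ
  have hθ0 : 0 < θ := by positivity
  refine ⟨θ / (4 * C), by positivity, ?_⟩
  intro X g hg hbox
  filter_upwards [hS] with N hSN
  have hq : 1 ≤ N.factorial := Nat.factorial_pos N
  have hδ : (0 : ℝ) < 1 / 2 ^ (2 ^ (k - 1)) := by positivity
  filter_upwards [CA.P_small hPR D N.factorial hD hq hδ (κ := θ / (4 * C)) (by positivity),
    eventually_ge_atTop 1] with w hw hw1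
  obtain ⟨hne, hwP⟩ := hw
  intro e he
  obtain ⟨M0, hM0⟩ := hBL w (PW D N.factorial w) hw1 hne (fun p hp => CA.PW_mem hD hp) e
    N.factorial he hq X g hg (θ / (4 * C)) hbox (θ / 4) (by positivity)
  filter_upwards [hSN, CA.MM_ge D N.factorial M0 hD hq] with Y hY hMY
  intro G hG hGk
  have h1 := hY X e (PW D N.factorial w) he hne (fun p hp => (CA.PW_mem hD hp).1.one_lt.le) G hG
  have h2 := hM0 (MM D N.factorial Y) hMY (tm D N.factorial Y) G hG hGk
  set x : ℝ := (1 / ((MM D N.factorial Y : ℕ) : ℝ)) * ∑ j ∈ range (MM D N.factorial Y),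
    ‖(1 / ((PW D N.factorial w).card : ℂ)) * ∑ p ∈ PW D N.factorial w, X.μ.E (cor X k G
      ((e * p : ℤ) * (1 + (N.factorial : ℤ) * (tm D N.factorial Y + j))))‖ ^ 2 with hx
  have hx0 : 0 ≤ x := by positivity
  have h3 : x ^ (2 ^ k) ≤ (a / (2 * K)) ^ (2 ^ k) := by
    refine h2.trans ?_
    have h4 : C * ((w : ℝ) / (PW D N.factorial w).card *
        (w : ℝ) ^ (-(1 / 2 ^ (2 ^ (k - 1)) : ℝ)) + θ / (4 * C)) ≤
        C * (θ / (4 * C) + θ / (4 * C)) :=
      mul_le_mul_of_nonneg_left (by linarith) hC.le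
    have h5 : C * (θ / (4 * C) + θ / (4 * C)) = θ / 2 := by
      field_simp
      ring
    rw [← hθ]
    linarith
  have h6 : x ≤ a / (2 * K) := by
    refine le_of_not_gt fun hlt => ?_
    exact absurd h3 (not_le.2 (pow_lt_pow_left₀ hlt (by positivity) (by positivity)))
  refine h1.trans ?_
  have h7 : K * x ≤ a / 2 := by
    calc K * x ≤ K * (a / (2 * K)) := mul_le_mul_of_nonneg_left h6 hK.le
      _ = a / 2 := by field_simp
  linarith

theorem coreS (hBL : ∀ k, 1 ≤ k → BL k) (hSVT : ∀ k, SVT k) (hSVTm : ∀ k, SVTm k) (hPR : PR) :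
    ∀ D : ℕ, 1 ≤ D → ∀ t : ℕ, 1 ≤ t → ∀ (V : Ultrafilter ℕ) (U : Ultrafilter (ℕ × ℕ × ℕ × ℕ)),
      GoodU V → IsIter V U → ∀ k, 1 ≤ k → Core U (cwS D t) k := by
  intro D hD t ht V U hV hIter k hk a ha
  obtain ⟨b, hb, hsmall⟩ := CA.small D hD k (hBL k hk) (hSVT k) hPR (a ^ 2 / 16) (by positivity)
  obtain ⟨b', hb', hsmall'⟩ := h45small D hD k (hBL k hk) (hSVTm k) hPR (a ^ 2 / 16)
    (by positivity)
  refine ⟨min b b', lt_min hb hb', ?_⟩
  intro X g hg hfreq
  by_contra hcon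
  push Not at hcon
  have hsm := hsmall X g hg (fun r hr => (hcon r hr).le.trans (min_le_left _ _))
  have hsm' := hsmall' X g hg (fun r hr => (hcon r hr).le.trans (min_le_right _ _))
  have hVt : (V : Filter ℕ) ≤ atTop := CA.good_le_atTop hV
  have h2 : Tendsto (fun i : ℕ => 2 ^ i) (V : Filter ℕ) atTop :=
    (tendsto_pow_atTop_atTop_of_one_lt (r := 2) one_lt_two).mono_left hVt
  have h2t : Tendsto (fun i : ℕ => t * 2 ^ i) (V : Filter ℕ) atTop := by
    refine tendsto_atTop_mono (fun i => ?_) h2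
    exact Nat.le_mul_of_pos_left _ ht
  apply hfreq
  rw [hIter]
  filter_upwards [(Nat.hyperfilter_le_atTop) hsm, (Nat.hyperfilter_le_atTop) hsm'] with N hN hN'
  filter_upwards [h2.eventually hN, h2.eventually hN'] with i hi hi'
  filter_upwards with j
  filter_upwards [h2.eventually (hi 1 le_rfl), h2t.eventually (hi' 1 le_rfl)] with l hl1 hl2
  rintro ⟨G, hG, hGk, hle⟩
  rw [CA.E_W] at hle
  unfold cwS at hle
  split_ifs at hle with hne
  · rw [CA.W_sub, CA.W_law2, h45W_law2n] at hle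
    have hA := CA.norm_avg_le_of_sq _ _ (δ := a / 4) (by positivity)
      ((hl1 G hG hGk).trans (by ring_nf; exact le_rfl))
    have hB := CA.norm_avg_le_of_sq _ _ (δ := a / 4) (by positivity)
      ((hl2 G hG hGk).trans (by ring_nf; exact le_rfl))
    have hC := norm_sub_le_of_le hA hB
    have hD' := hle.trans hC
    linarith
  · rw [CA.W_zero, norm_zero] at hle
    linarith

end DG
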