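import Pool.Agent.Helper6.DG.S0Defs
import Pool.Agent.Helper6.DG.E1Dil
import Pool.Agent.Helper6.DG.E2Slow

/-!
# SYM-7: change of scale in the mean of the application

PROOF.
* `app_scale`: `app_dil w t ht c (fun _ _ => 1)` gives `E[c j M] = E[c j (M / t) * (t 1[t ∣ n])]` (write
 `c s.1 s.2.1 * 1`). By the invariance of the mean under `shT ^ ρ`, `ρ < t`, the right side is the average over
 `ρ < t` of `E[c j (M / t) * (t 1[t ∣ n + ρ])]`, and `∑_{ρ < t} 1[t ∣ n + ρ] = 1`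
 (`sum_ind_dvd` in E2Slow is private, copy it). So it is `E[c j (M / t)]`.
* `app_scale_mul`: if `|ξ j M - ξ j (t * (M / t))| ≤ 2 * t / M` then by `app_eq_of_close` (window means: the
 difference of the two functions is at most `2 t / M` and `∑ (1/M) (2 t / M) ≤ 4 t`)
 `E[c j (M / t) * ξ j M] = E[c j (M / t) * ξ j (t * (M / t))] = E[c j M * ξ j (t * M)]`.
-/

set_option autoImplicit false

namespace DG

open Finset Filter Topology

private theorem sum_ind_dvd (p : ℕ) (hp : 1 ≤ p) (n : ℤ) :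
    ∑ t ∈ range p, (if (p : ℤ) ∣ n + (t : ℤ) then (p : ℂ) else 0) = p := by
  have hp0 : (p : ℤ) ≠ 0 := by exact_mod_cast (by omega : p ≠ 0)
  have hpp : (0 : ℤ) < p := by exact_mod_cast (by omega : 0 < p)
  set t0 : ℤ := (-n) % (p : ℤ) with ht0
  have h0 : 0 ≤ t0 := Int.emod_nonneg _ hp0
  have h1 : t0 < p := Int.emod_lt_of_pos _ hpp
  rw [Finset.sum_eq_single t0.toNat]
  · rw [if_pos]
    rw [Int.toNat_of_nonneg h0, ht0]
    have h2 : (p : ℤ) ∣ (-n) - (-n) % (p : ℤ) := Int.dvd_self_sub_emod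
    have h3 := dvd_neg.2 h2
    have h4 : -((-n) - (-n) % (p : ℤ)) = n + (-n) % (p : ℤ) := by ring
    rwa [h4] at h3
  · intro t ht hne
    rw [if_neg]
    intro hd
    apply hne
    have ht' : (t : ℤ) < p := by exact_mod_cast Finset.mem_range.1 ht
    have h2 : (p : ℤ) ∣ (-n) - (-n) % (p : ℤ) := Int.dvd_self_sub_emod
    have h5 : (p : ℤ) ∣ (t : ℤ) - t0 := by
      have := dvd_add hd h2
      have h6 : n + (t : ℤ) + ((-n) - (-n) % (p : ℤ)) = (t : ℤ) - t0 := by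
        rw [ht0]; ring
      rwa [h6] at this
    have h7 : (t : ℤ) - t0 = 0 := by
      apply Int.eq_zero_of_abs_lt_dvd h5
      rw [abs_lt]
      constructor
      · have : (0 : ℤ) ≤ t := Int.natCast_nonneg t
        linarith
      · linarith
    omega
  · intro hne
    exfalso
    apply hne
    rw [Finset.mem_range]
    omega

theorem app_scale (w : Win) (t : ℕ) (ht : 1 ≤ t) (g : ℕ → ℕ → ℝ) (hg : ∀ j M, |g j M| ≤ 1) :
    (appμ w).E (fun s => ((g s.1 (s.2.1 / t) : ℝ) : ℂ)) =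
      (appμ w).E (fun s => ((g s.1 s.2.1 : ℝ) : ℂ)) := by
  have htc : (t : ℂ) ≠ 0 := by exact_mod_cast (by omega : t ≠ 0)
  have hgc : ∀ j M, ‖((g j M : ℝ) : ℂ)‖ ≤ 1 := fun j M => by
    rw [Complex.norm_real, Real.norm_eq_abs]
    exact hg j M
  have h1 := app_dil w t ht (fun j M => ((g j M : ℝ) : ℂ)) (fun _ _ => 1) hgc
    (fun _ _ => by rw [norm_one])
  simp only [mul_one] at h1
  rw [h1]
  set F : ℕ → ℕ × ℕ × ℤ → ℂ := fun ρ s => ((g s.1 (s.2.1 / t) : ℝ) : ℂ) *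
    (if (t : ℤ) ∣ s.2.2 + (ρ : ℤ) then (t : ℂ) else 0) with hF
  have hb : ∀ s, ‖F 0 s‖ ≤ t := by
    intro s
    simp only [hF, norm_mul]
    have h2 : ‖(if (t : ℤ) ∣ s.2.2 + ((0 : ℕ) : ℤ) then (t : ℂ) else 0)‖ ≤ t := by
      split_ifs
      · rw [Complex.norm_natCast]
      · rw [norm_zero]
        exact Nat.cast_nonneg t
    calc ‖((g s.1 (s.2.1 / t) : ℝ) : ℂ)‖ *
          ‖(if (t : ℤ) ∣ s.2.2 + ((0 : ℕ) : ℤ) then (t : ℂ) else 0)‖
        ≤ 1 * (t : ℝ) := by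
          exact mul_le_mul (hgc _ _) h2 (norm_nonneg _) zero_le_one
      _ = t := one_mul _
  have hinv : ∀ ρ : ℕ, (appμ w).E (F ρ) = (appμ w).E (F 0) := by
    intro ρ
    have h2 := (app w).inv_zpow (ρ : ℤ) (F 0) ⟨_, hb⟩
    have h3 : (fun x : ℕ × ℕ × ℤ => F 0 ((shT ^ (ρ : ℤ)) x)) = F ρ := by
      funext s
      obtain ⟨j, M, x⟩ := s
      rw [shT_zpow]
      simp only [hF, Nat.cast_zero, add_zero]
    rw [← h3]
    exact h2
  have hsum : ∑ ρ ∈ range t, (appμ w).E (F ρ) =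
      t * (appμ w).E (fun s => ((g s.1 (s.2.1 / t) : ℝ) : ℂ)) := by
    rw [← (appμ w).E_sum, ← (appμ w).E_const_mul]
    congr 1
    funext s
    simp only [hF]
    rw [← Finset.mul_sum, sum_ind_dvd t ht, mul_comm]
  rw [Finset.sum_congr rfl (fun ρ _ => hinv ρ), Finset.sum_const, Finset.card_range,
    nsmul_eq_mul] at hsum
  have h4 := mul_left_cancel₀ htc hsum
  rw [← h4]
  simp only [hF, Nat.cast_zero, add_zero]

theorem app_scale_mul (w : Win) (t : ℕ) (ht : 1 ≤ t) (c ξ : ℕ → ℕ → ℝ) (hc : ∀ j M, |c j M| ≤ 1)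
    (hξ : ∀ j M, |ξ j M| ≤ 1)
    (hξ2 : ∀ j M, 1 ≤ M → |ξ j M - ξ j (t * (M / t))| ≤ 2 * t / M) :
    (appμ w).E (fun s => ((c s.1 (s.2.1 / t) * ξ s.1 s.2.1 : ℝ) : ℂ)) =
      (appμ w).E (fun s => ((c s.1 s.2.1 * ξ s.1 (t * s.2.1) : ℝ) : ℂ)) := by
  have hg : ∀ j M, |c j M * ξ j (t * M)| ≤ 1 := fun j M => by
    rw [abs_mul]
    exact mul_le_one₀ (hc _ _) (abs_nonneg _) (hξ _ _)
  have h1 := app_scale w t ht (fun j M => c j M * ξ j (t * M)) hg
  rw [← h1]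
  refine app_eq_of_close w _ _ ⟨1, ?_⟩ ⟨1, ?_⟩ (4 * t) ?_
  · rintro ⟨j, M, n⟩
    rw [Complex.norm_real, Real.norm_eq_abs, abs_mul]
    exact mul_le_one₀ (hc _ _) (abs_nonneg _) (hξ _ _)
  · rintro ⟨j, M, n⟩
    rw [Complex.norm_real, Real.norm_eq_abs]
    exact hg _ _
  · intro j
    have hm := mass_pos (w.lt j)
    rw [wmean_E, wmean_E, ← sub_div, norm_div, Complex.norm_real, Real.norm_of_nonneg hm.le]
    refine div_le_div_of_nonneg_right ?_ hm.le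
    rw [← Finset.sum_sub_distrib]
    have h2 : ∀ M ∈ Ioc (w.a j) (w.b j),
        ‖(1 / (M : ℂ)) * ((1 / (M : ℂ)) * ∑ n ∈ Icc 1 M,
            ((c j (M / t) * ξ j M : ℝ) : ℂ)) -
          (1 / (M : ℂ)) * ((1 / (M : ℂ)) * ∑ n ∈ Icc 1 M,
            ((c j (M / t) * ξ j (t * (M / t)) : ℝ) : ℂ))‖ ≤ 2 * t * (1 / (M : ℝ) ^ 2) := by
      intro M hM
      have hM1 : 1 ≤ M := by
        have := (Finset.mem_Ioc.1 hM).1
        omega
      have hMr : (0 : ℝ) < M := by exact_mod_cast hM1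
      have hMc : (M : ℂ) ≠ 0 := by exact_mod_cast (by omega : M ≠ 0)
      rw [Finset.sum_const, Finset.sum_const, Nat.card_Icc, Nat.add_sub_cancel, nsmul_eq_mul,
        nsmul_eq_mul, ← mul_assoc (1 / (M : ℂ)) (M : ℂ), ← mul_assoc (1 / (M : ℂ)) (M : ℂ),
        one_div_mul_cancel hMc, one_mul, one_mul, ← mul_sub, ← Complex.ofReal_sub, norm_mul,
        norm_div, norm_one, Complex.norm_natCast, Complex.norm_real, Real.norm_eq_abs, ← mul_sub,
        abs_mul]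
      have h3 : |c j (M / t)| * |ξ j M - ξ j (t * (M / t))| ≤ 1 * (2 * t / M) :=
        mul_le_mul (hc _ _) (hξ2 j M hM1) (abs_nonneg _) zero_le_one
      calc 1 / (M : ℝ) * (|c j (M / t)| * |ξ j M - ξ j (t * (M / t))|)
          ≤ 1 / (M : ℝ) * (1 * (2 * t / M)) := by gcongr
        _ = 2 * t * (1 / (M : ℝ) ^ 2) := by
            field_simp
    refine (norm_sum_le_of_le _ h2).trans ?_
    rw [← Finset.mul_sum]
    have h3 := sum_inv_sq_le (w.a j) (w.b j)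
    have ht0 : (0 : ℝ) ≤ t := Nat.cast_nonneg t
    nlinarith

end DG
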