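import Pool.Agent.Helper6.DG.S6Lim
import Pool.Agent.Helper6.DG.S7Scale
import Pool.Agent.Helper6.DG.E7Prod

/-!
# SYM-8: product sets in windows

PROOF. Copy of E7Prod.lean. For sets `A : ℕ → ℕ → Finset ℕ` let `A' j i = A j (k - i)`,
`f j i x = if x ∈ A j i then 1 else 0`, `ξ j M = Tr A 2 k j M`, `ζ j M = Tr A' 2 k j M`,
`c j M = ξ j (t * M) - ζ j M` (`SlowW 4 c`: `Tr_slow` in E2Slow is private, copy it;
`2 (t M - t M') / (t M) = 2 (M - M') / M`; `|c| ≤ 1` since both are in `[0, 1]`).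
`lim_rev`: `E[c j (M / t) * patf f 2 k 1] = E[c j M * patf (revf k f) 2 k 1]`. Averaging over `n ≤ M` in the window
means (`wmean_E`): `E[c j (M / t) * ξ j M] = E[c j M * ζ j M]` (as means of functions of `(j, M)`; `patf f 2 k 1` at
`(j, M, n)` is `∏ 1[Ω(n + i) + 2 ∈ A j i]`). By `app_scale_mul` (`|ξ j M - ξ j (t (M/t))| ≤ 2 t / M` by `Tr_slow`, and if
`M < t` trivially since `|ξ| ≤ 1`, `2 t / M ≥ 2`) the left side is `E[c j M * ξ j (t * M)]`. So `E[c²] = 0`, that is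
`(∑ (1/M) c0(M)²) / mass → 0` along the hyperfilter.
Then as in `prodSt`, by contradiction and Cauchy-Schwarz: for every `ε` there are `K0, N0` with
`∑ (1/M) |Ec (t M) 1_B - Ec M (1_B ∘ rev)| ≤ ε log K` for all product sets `B`; take `B i = A (rev i)`. For `k = 0`
both sides are `0` (if `M ≥ 1`, `t ≥ 1` both means are equal). `Fin k` with `k = k' + 1`.
-/

set_option autoImplicit false

namespace DG

open Finset Filter Topology

private theorem Tr_slow8 (A : ℕ → ℕ → Finset ℕ) (r k j M M' : ℕ) (h1 : 1 ≤ M') (h2 : M' ≤ M) :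
    |Tr A r k j M - Tr A r k j M'| ≤ 2 * ((M : ℝ) - M') / M := by
  have hu : ∀ n : ℕ, 0 ≤ (∏ i ∈ range (k + 1),
      (if ArithmeticFunction.cardFactors (n + i) + r ∈ A j i then (1 : ℝ) else 0)) ∧
      (∏ i ∈ range (k + 1),
      (if ArithmeticFunction.cardFactors (n + i) + r ∈ A j i then (1 : ℝ) else 0)) ≤ 1 := by
    intro n
    constructor
    · refine Finset.prod_nonneg fun i _ => ?_
      split_ifs <;> norm_num
    · refine Finset.prod_le_one (fun i _ => ?_) (fun i _ => ?_)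
      · split_ifs <;> norm_num
      · split_ifs <;> norm_num
  unfold Tr
  set u : ℕ → ℝ := fun n => ∏ i ∈ range (k + 1),
      (if ArithmeticFunction.cardFactors (n + i) + r ∈ A j i then (1 : ℝ) else 0) with hudef
  have hb : 0 ≤ (∑ n ∈ Icc 1 M', u n) ∧ (∑ n ∈ Icc 1 M', u n) ≤ M' := by
    constructor
    · exact Finset.sum_nonneg fun n _ => (hu n).1
    · refine (Finset.sum_le_sum fun n _ => (hu n).2).trans ?_
      simp
  have hi : 0 ≤ (∑ n ∈ Icc 1 M, u n) - (∑ n ∈ Icc 1 M', u n) ∧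
      (∑ n ∈ Icc 1 M, u n) - (∑ n ∈ Icc 1 M', u n) ≤ (M : ℝ) - M' := by
    have h3 : ∀ m : ℕ, ∑ n ∈ Icc 1 m, u n = ∑ n ∈ Ioc 0 m, u n := by
      intro m
      rfl
    have h4 : ∑ n ∈ Icc 1 M, u n = (∑ n ∈ Icc 1 M', u n) + ∑ n ∈ Ioc M' M, u n := by
      rw [h3, h3]
      exact (Finset.sum_Ioc_consecutive u (Nat.zero_le _) h2).symm
    rw [h4, add_sub_cancel_left]
    constructor
    · exact Finset.sum_nonneg fun n _ => (hu n).1
    · refine (Finset.sum_le_sum fun n _ => (hu n).2).trans ?_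
      rw [Finset.sum_const, Nat.card_Ioc, nsmul_eq_mul, mul_one, Nat.cast_sub h2]
  set S := ∑ n ∈ Icc 1 M, u n with hS
  set S' := ∑ n ∈ Icc 1 M', u n with hS'
  have hM' : (0 : ℝ) < M' := by exact_mod_cast (by omega : 0 < M')
  have hM : (0 : ℝ) < M := by exact_mod_cast (by omega : 0 < M)
  have hle : (M' : ℝ) ≤ M := by exact_mod_cast h2
  have hq : 0 ≤ S' / M' ∧ S' / M' ≤ 1 := by
    constructor
    · exact div_nonneg hb.1 hM'.le
    · rw [div_le_one hM']; exact hb.2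
  have e : 1 / (M : ℝ) * S - 1 / (M' : ℝ) * S' =
      ((S - S') - (S' / M') * ((M : ℝ) - M')) / M := by
    field_simp
    ring
  rw [e, abs_div, abs_of_pos hM]
  apply div_le_div_of_nonneg_right _ hM.le
  have h3 : 0 ≤ (S' / M') * ((M : ℝ) - M') := mul_nonneg hq.1 (by linarith)
  have h4 : (S' / M') * ((M : ℝ) - M') ≤ (M : ℝ) - M' := by
    have := mul_le_mul_of_nonneg_right hq.2 (by linarith : (0 : ℝ) ≤ (M : ℝ) - M')
    linarith
  rw [abs_le]
  constructor <;> linarith [hi.1, hi.2]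

/-- indicator functions of the sets `A` -/
private noncomputable def fA (A : ℕ → ℕ → Finset ℕ) (j i x : ℕ) : ℝ := if x ∈ A j i then 1 else 0

private noncomputable def cc (A A' : ℕ → ℕ → Finset ℕ) (t k j M : ℕ) : ℝ :=
  Tr A 2 k j (t * M) - Tr A' 2 k j M

private theorem cc_abs (A A' : ℕ → ℕ → Finset ℕ) (t k j M : ℕ) : |cc A A' t k j M| ≤ 1 := by
  unfold cc
  have h1 := e7_Tr_nonneg A 2 k j (t * M)
  have h2 := e7_Tr_nonneg A' 2 k j M
  have h3 := e7_Tr_le A 2 k j (t * M)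
  have h4 := e7_Tr_le A' 2 k j M
  rw [abs_le]
  constructor <;> linarith

private theorem cc_slow (A A' : ℕ → ℕ → Finset ℕ) (t : ℕ) (ht : 1 ≤ t) (k : ℕ) :
    SlowW 4 (cc A A' t k) := by
  refine ⟨fun j M => cc_abs A A' t k j M, fun j M M' h1 h2 => ?_⟩
  have ha := Tr_slow8 A 2 k j (t * M) (t * M') (by nlinarith) (Nat.mul_le_mul_left _ h2)
  have hb := Tr_slow8 A' 2 k j M M' h1 h2
  have hM : (0 : ℝ) < M := by exact_mod_cast (by omega : 0 < M)
  have ht0 : (0 : ℝ) < t := by exact_mod_cast ht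
  have e1 : 2 * (((t * M : ℕ) : ℝ) - ((t * M' : ℕ) : ℝ)) / ((t * M : ℕ) : ℝ) =
      2 * ((M : ℝ) - M') / M := by
    push_cast
    field_simp
  rw [e1] at ha
  unfold cc
  have e : 4 * ((M : ℝ) - M') / M = 2 * ((M : ℝ) - M') / M + 2 * ((M : ℝ) - M') / M := by ring
  rw [e]
  rw [abs_le] at ha hb ⊢
  constructor <;> linarith [ha.1, ha.2, hb.1, hb.2]

/-- averaging over `n` -/
private theorem avg (w : Win) (A : ℕ → ℕ → Finset ℕ) (k Q : ℕ) (c : ℕ → ℕ → ℝ)
    (hc : ∀ j M, |c j M| ≤ 1) :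
    (appμ w).E (fun s => wq c Q s * patf (fA A) 2 k 1 s) =
      (appμ w).E (fun s => ((c s.1 (s.2.1 / Q) * Tr A 2 k s.1 s.2.1 : ℝ) : ℂ)) := by
  have hpat : ∀ s, patf (fA A) 2 k 1 s = pat A 2 k 1 s := fun s => rfl
  have hw : ∀ s, ‖wq c Q s‖ ≤ 1 := by
    intro s
    unfold wq
    rw [Complex.norm_real]
    exact hc _ _
  have hTr : ∀ j M, |Tr A 2 k j M| ≤ 1 := by
    intro j M
    rw [abs_of_nonneg (e7_Tr_nonneg A 2 k j M)]
    exact e7_Tr_le A 2 k j M
  refine app_eq_of_close w _ _ ⟨1, fun s => ?_⟩ ⟨1, fun s => ?_⟩ 0 fun j => ?_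
  · rw [norm_mul, hpat]
    exact mul_le_one₀ (hw s) (norm_nonneg _) (e7_ind_le A 2 k 1 s)
  · rw [Complex.norm_real, Real.norm_eq_abs, abs_mul]
    exact mul_le_one₀ (hc _ _) (abs_nonneg _) (hTr _ _)
  · rw [zero_div]
    refine le_of_eq ?_
    rw [norm_eq_zero, sub_eq_zero, wmean_E, wmean_E]
    congr 1
    refine Finset.sum_congr rfl fun M hM => ?_
    have hM0 : 0 < M := lt_of_le_of_lt (Nat.zero_le _) (Finset.mem_Ioc.1 hM).1
    have hMc : (M : ℂ) ≠ 0 := by exact_mod_cast hM0.ne'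
    congr 1
    have h1 : ∑ n ∈ Icc 1 M, (wq c Q (j, M, (n : ℤ)) * patf (fA A) 2 k 1 (j, M, (n : ℤ))) =
        ((c j (M / Q) : ℝ) : ℂ) * ∑ n ∈ Icc 1 M, ((∏ i ∈ range (k + 1),
        (if ArithmeticFunction.cardFactors (n + i) + 2 ∈ A j i then (1 : ℝ) else 0) : ℝ) : ℂ) := by
      rw [Finset.mul_sum]
      refine Finset.sum_congr rfl fun n _ => ?_
      rw [hpat, e7_pat]
      rfl
    rw [h1]
    have h2 : ∑ n ∈ Icc 1 M, ((c j (M / Q) * Tr A 2 k j M : ℝ) : ℂ) =
        (M : ℂ) * ((c j (M / Q) * Tr A 2 k j M : ℝ) : ℂ) := by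
      rw [Finset.sum_const, Nat.card_Icc, Nat.add_sub_cancel, nsmul_eq_mul]
    change _ = 1 / (M : ℂ) * ∑ n ∈ Icc 1 M, ((c j (M / Q) * Tr A 2 k j M : ℝ) : ℂ)
    rw [h2]
    unfold Tr
    push_cast
    field_simp

private theorem mean_cc (hPR : PR) (hPRm : PRm) (hEnt : Ent) (t : ℕ) (ht : 1 ≤ t)
    (hSt : ∀ D : ℕ, 1 ≤ D → ∀ (V : Ultrafilter ℕ) (U : Ultrafilter (ℕ × ℕ × ℕ × ℕ)), GoodU V →
      IsIter V U → ∀ k, St U (cwS D t) k) (w : Win) (A : ℕ → ℕ → Finset ℕ) (k : ℕ) :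
    (appμ w).E (fun s => ((cc A (fun j i => A j (k - i)) t k s.1 s.2.1 *
      cc A (fun j i => A j (k - i)) t k s.1 s.2.1 : ℝ) : ℂ)) = 0 := by
  set A' : ℕ → ℕ → Finset ℕ := fun j i => A j (k - i) with hA'
  have hf : ∀ j i x, fA A j i x = 0 ∨ fA A j i x = 1 := by
    intro j i x
    unfold fA
    split_ifs
    · exact Or.inr rfl
    · exact Or.inl rfl
  have h1 := lim_rev hPR hPRm hEnt t ht hSt w (fA A) hf 4 (by norm_num) (cc A A' t k)
    (cc_slow A A' t ht k) k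
  have hrev : revf k (fA A) = fA A' := rfl
  rw [hrev, avg w A k t _ (cc_abs A A' t k), avg w A' k 1 _ (cc_abs A A' t k)] at h1
  have hTr : ∀ (A : ℕ → ℕ → Finset ℕ) (j M : ℕ), |Tr A 2 k j M| ≤ 1 := by
    intro A j M
    rw [abs_of_nonneg (e7_Tr_nonneg A 2 k j M)]
    exact e7_Tr_le A 2 k j M
  have h2 := app_scale_mul w t ht (cc A A' t k) (Tr A 2 k) (cc_abs A A' t k) (hTr A) (by
    intro j M hM
    have hM0 : (0 : ℝ) < M := by exact_mod_cast hM
    have ht0 : (0 : ℝ) < t := by exact_mod_cast ht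
    rcases Nat.lt_or_ge M t with h | h
    · rw [Nat.div_eq_of_lt h, mul_zero]
      have h3 := e7_Tr_nonneg A 2 k j M
      have h4 := e7_Tr_nonneg A 2 k j 0
      have h5 := e7_Tr_le A 2 k j M
      have h6 := e7_Tr_le A 2 k j 0
      have h7 : (2 : ℝ) ≤ 2 * t / M := by
        rw [le_div_iff₀ hM0]
        have : (M : ℝ) ≤ t := by exact_mod_cast h.le
        linarith
      have h8 : |Tr A 2 k j M - Tr A 2 k j 0| ≤ 1 := by
        rw [abs_le]
        constructor <;> linarith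
      linarith
    · have h3 : 1 ≤ t * (M / t) := by
        have : 1 ≤ M / t := (Nat.one_le_div_iff (by omega)).2 h
        nlinarith
      refine (Tr_slow8 A 2 k j M (t * (M / t)) h3 (Nat.mul_div_le M t)).trans ?_
      refine div_le_div_of_nonneg_right ?_ hM0.le
      have h4 : M < t * (M / t + 1) := Nat.lt_mul_div_succ M (by omega)
      have h5 : (M : ℝ) ≤ ((t * (M / t) : ℕ) : ℝ) + t := by
        have : M ≤ t * (M / t) + t := by
          have : t * (M / t + 1) = t * (M / t) + t := by ring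
          omega
        exact_mod_cast this
      linarith)
  rw [h2] at h1
  have hB1 : Bd (fun s : ℕ × ℕ × ℤ => ((cc A A' t k s.1 s.2.1 * Tr A 2 k s.1 (t * s.2.1) : ℝ) : ℂ)) := by
    refine ⟨1, fun s => ?_⟩
    rw [Complex.norm_real, Real.norm_eq_abs, abs_mul]
    exact mul_le_one₀ (cc_abs _ _ _ _ _ _) (abs_nonneg _) (hTr _ _ _)
  have hB2 : Bd (fun s : ℕ × ℕ × ℤ => ((cc A A' t k s.1 (s.2.1 / 1) * Tr A' 2 k s.1 s.2.1 : ℝ) : ℂ)) := by
    refine ⟨1, fun s => ?_⟩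
    rw [Complex.norm_real, Real.norm_eq_abs, abs_mul]
    exact mul_le_one₀ (cc_abs _ _ _ _ _ _) (abs_nonneg _) (hTr _ _ _)
  have h3 := Mean.E_sub (appμ w) (fun s : ℕ × ℕ × ℤ => ((cc A A' t k s.1 s.2.1 * Tr A 2 k s.1 (t * s.2.1) : ℝ) : ℂ)) (fun s : ℕ × ℕ × ℤ => ((cc A A' t k s.1 (s.2.1 / 1) * Tr A' 2 k s.1 s.2.1 : ℝ) : ℂ))
  rw [h1, sub_self] at h3
  rw [← h3]
  congr 1
  funext s
  rw [Nat.div_one]
  have : cc A A' t k s.1 s.2.1 = Tr A 2 k s.1 (t * s.2.1) - Tr A' 2 k s.1 s.2.1 := rfl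
  push_cast [this]
  ring

private theorem lim_cc (hPR : PR) (hPRm : PRm) (hEnt : Ent) (t : ℕ) (ht : 1 ≤ t)
    (hSt : ∀ D : ℕ, 1 ≤ D → ∀ (V : Ultrafilter ℕ) (U : Ultrafilter (ℕ × ℕ × ℕ × ℕ)), GoodU V →
      IsIter V U → ∀ k, St U (cwS D t) k) (w : Win) (A : ℕ → ℕ → Finset ℕ) (k : ℕ) :
    Tendsto (fun j => (∑ M ∈ Ioc (w.a j) (w.b j), (1 / (M : ℝ)) *
        cc A (fun j i => A j (k - i)) t k j M ^ 2) /
      ∑ M ∈ Ioc (w.a j) (w.b j), 1 / (M : ℝ)) (hyperfilter ℕ : Filter ℕ) (𝓝 0) := by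
  set A' : ℕ → ℕ → Finset ℕ := fun j i => A j (k - i) with hA'
  have hB : Bd (fun s : ℕ × ℕ × ℤ => ((cc A A' t k s.1 s.2.1 * cc A A' t k s.1 s.2.1 : ℝ) : ℂ)) := by
    refine ⟨1, fun s => ?_⟩
    rw [Complex.norm_real, Real.norm_eq_abs, abs_mul]
    exact mul_le_one₀ (cc_abs _ _ _ _ _ _) (abs_nonneg _) (cc_abs _ _ _ _ _ _)
  have h4 := app_tendsto w _ hB
  rw [mean_cc hPR hPRm hEnt t ht hSt w A k] at h4
  have h5 := (Complex.continuous_re.tendsto 0).comp h4
  rw [Complex.zero_re] at h5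
  refine h5.congr fun j => ?_
  simp only [Function.comp_apply]
  have h6 : (wmean w j).E (fun s => ((cc A A' t k s.1 s.2.1 * cc A A' t k s.1 s.2.1 : ℝ) : ℂ)) =
      (((∑ M ∈ Ioc (w.a j) (w.b j), (1 / (M : ℝ)) * cc A A' t k j M ^ 2) /
        ∑ M ∈ Ioc (w.a j) (w.b j), 1 / (M : ℝ) : ℝ) : ℂ) := by
    rw [wmean_E, Complex.ofReal_div]
    congr 1
    rw [Complex.ofReal_sum]
    refine Finset.sum_congr rfl fun M hM => ?_
    have hM0 : 0 < M := lt_of_le_of_lt (Nat.zero_le _) (Finset.mem_Ioc.1 hM).1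
    have hMc : (M : ℂ) ≠ 0 := by exact_mod_cast hM0.ne'
    have h2 : ∑ n ∈ Icc 1 M, ((cc A A' t k j M * cc A A' t k j M : ℝ) : ℂ) =
        (M : ℂ) * ((cc A A' t k j M * cc A A' t k j M : ℝ) : ℂ) := by
      rw [Finset.sum_const, Nat.card_Icc, Nat.add_sub_cancel, nsmul_eq_mul]
    change 1 / (M : ℂ) * (1 / (M : ℂ) *
      ∑ n ∈ Icc 1 M, ((cc A A' t k j M * cc A A' t k j M : ℝ) : ℂ)) = _
    rw [h2]
    push_cast
    field_simp
  rw [h6, Complex.ofReal_re]

private theorem Tr_Ec8 (k j M : ℕ) (B : Fin (k + 1) → Finset ℕ) (A : ℕ → ℕ → Finset ℕ)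
    (hA : ∀ i : Fin (k + 1), A j i = (B i).image (· + 2)) :
    Tr A 2 k j M = Ec (k + 1) M (fun l => if ∀ i, l i ∈ B i then 1 else 0) :=
  (e7_Tr_Ec k j M B A hA).1

theorem symProd (hPR : PR) (hPRm : PRm) (hEnt : Ent) (t : ℕ) (ht : 1 ≤ t)
    (hSt : ∀ D : ℕ, 1 ≤ D → ∀ (V : Ultrafilter ℕ) (U : Ultrafilter (ℕ × ℕ × ℕ × ℕ)), GoodU V →
      IsIter V U → ∀ k, St U (cwS D t) k) (k : ℕ) : SymProd k t := by
  rcases k with _ | k
  · intro ε hε
    refine ⟨1, 1, fun N K _ hK _ A => ?_⟩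
    have h1 : 0 ≤ Real.log K := Real.log_nonneg (by exact_mod_cast hK)
    have h2 : ∀ M ∈ Ioc (N / K) N, (1 / (M : ℝ)) *
      |Ec 0 M (fun l => if ∀ i, l i ∈ A i then 1 else 0) -
        Ec 0 (t * M) (fun l => if ∀ i, l (Fin.rev i) ∈ A i then 1 else 0)| = 0 := by
      intro M hM
      have hM0 : 0 < M := lt_of_le_of_lt (Nat.zero_le _) (Finset.mem_Ioc.1 hM).1
      have h3 : ∀ m : ℕ, 0 < m → Ec 0 m (fun l => if ∀ i, l i ∈ A i then 1 else 0) = 1 := by
        intro m hm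
        have hmr : (m : ℝ) ≠ 0 := by exact_mod_cast hm.ne'
        unfold Ec
        simp only [IsEmpty.forall_iff, if_true, Finset.sum_const, Nat.card_Icc,
          Nat.add_sub_cancel, nsmul_eq_mul, mul_one]
        field_simp
      have h4 : ∀ m : ℕ, 0 < m →
          Ec 0 m (fun l => if ∀ i, l (Fin.rev i) ∈ A i then 1 else 0) = 1 := by
        intro m hm
        have hmr : (m : ℝ) ≠ 0 := by exact_mod_cast hm.ne'
        unfold Ec
        simp only [IsEmpty.forall_iff, if_true, Finset.sum_const, Nat.card_Icc,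
          Nat.add_sub_cancel, nsmul_eq_mul, mul_one]
        field_simp
      rw [h3 M hM0, h4 (t * M) (Nat.mul_pos (by omega) hM0), sub_self, abs_zero, mul_zero]
    rw [Finset.sum_congr rfl h2, Finset.sum_const_zero]
    positivity
  · intro ε hε
    by_contra hcon
    push Not at hcon
    choose N K hN hK hKN B hB using fun j : ℕ => hcon (j + 3) (j + 3)
    have hK1 : ∀ j, 1 ≤ K j := fun j => by have := hK j; omega
    have hN1 : ∀ j, 1 ≤ N j := fun j => by have := hN j; omega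
    let w : Win :=
      { a := fun j => N j / K j
        b := N
        lt := fun j => Nat.div_lt_self (by have := hN j; omega) (by have := hK j; omega)
        div := by
          refine tendsto_atTop_mono (fun j => e7_le_mass (N j) (K j) (hK1 j) (hKN j)) ?_
          have h1 : Tendsto (fun j : ℕ => Real.log ((j : ℝ) + 3) - 1) atTop atTop := by
            refine tendsto_atTop_add_const_right _ _ ?_
            exact Real.tendsto_log_atTop.comp
              (tendsto_atTop_add_const_right _ _ tendsto_natCast_atTop_atTop)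
          refine tendsto_atTop_mono (fun j => ?_) h1
          have h2 : Real.log ((j : ℝ) + 3) ≤ Real.log (K j) := by
            refine Real.log_le_log (by positivity) ?_
            exact_mod_cast hK j
          linarith }
    let A : ℕ → ℕ → Finset ℕ := fun j i =>
      if h : i < k + 1 then (B j (Fin.rev ⟨i, h⟩)).image (· + 2) else ∅
    have hA : ∀ j, ∀ i : Fin (k + 1), A j i = ((B j (Fin.rev i)).image (· + 2)) := by
      intro j i
      simp only [A, i.2, dif_pos]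
    have hA2 : ∀ j, ∀ i : Fin (k + 1), A j (k - i) = ((B j i).image (· + 2)) := by
      intro j i
      have h1 : k - (i : ℕ) = ((Fin.rev i : Fin (k + 1)) : ℕ) := by
        rw [Fin.val_rev]
        omega
      rw [h1, hA, Fin.rev_rev]
    have hlim := lim_cc hPR hPRm hEnt t ht hSt w A k
    have hev := (hlim.eventually (gt_mem_nhds (show (0 : ℝ) < (ε / 3) ^ 2 by positivity)))
    obtain ⟨j, hj⟩ := hev.exists
    have hm : 0 < ∑ M ∈ Ioc (w.a j) (w.b j), 1 / (M : ℝ) := mass_pos (w.lt j)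
    have hBj := hB j
    have hx : ∑ M ∈ Ioc (w.a j) (w.b j), (1 / (M : ℝ)) *
          |cc A (fun j i => A j (k - i)) t k j M| =
        ∑ M ∈ Ioc (N j / K j) (N j), (1 / (M : ℝ)) *
          |Ec (k + 1) M (fun l => if ∀ i, l i ∈ B j i then 1 else 0) -
            Ec (k + 1) (t * M) (fun l => if ∀ i, l (Fin.rev i) ∈ B j i then 1 else 0)| := by
      refine Finset.sum_congr rfl fun M _ => ?_
      unfold cc
      rw [Tr_Ec8 k j (t * M) (fun i => B j (Fin.rev i)) A (hA j),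
        Tr_Ec8 k j M (B j) (fun j i => A j (k - i)) (hA2 j), abs_sub_comm]
      congr 3
      congr 1
      funext l
      have h1 : (∀ i, l i ∈ B j (Fin.rev i)) ↔ ∀ i, l (Fin.rev i) ∈ B j i := by
        constructor
        · intro h i
          have := h (Fin.rev i)
          rwa [Fin.rev_rev] at this
        · intro h i
          have := h (Fin.rev i)
          rwa [Fin.rev_rev] at this
      simp only [h1]
    rw [← hx] at hBj
    have hCS : (∑ M ∈ Ioc (w.a j) (w.b j), (1 / (M : ℝ)) *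
          |cc A (fun j i => A j (k - i)) t k j M|) ^ 2 ≤
        (∑ M ∈ Ioc (w.a j) (w.b j), 1 / (M : ℝ)) *
          ∑ M ∈ Ioc (w.a j) (w.b j), (1 / (M : ℝ)) *
            cc A (fun j i => A j (k - i)) t k j M ^ 2 := by
      refine Finset.sum_sq_le_sum_mul_sum_of_sq_le_mul _ (fun M _ => by positivity)
        (fun M _ => by positivity) (fun M _ => le_of_eq ?_)
      rw [mul_pow, sq_abs]
      ring
    have hlog3 : 1 ≤ Real.log (K j) := by
      have h1 : Real.exp 1 ≤ (K j : ℝ) := by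
        have h2 : (3 : ℝ) ≤ K j := by
          have := hK j
          have h3 : 3 ≤ K j := by omega
          exact_mod_cast h3
        have := Real.exp_one_lt_d9
        linarith
      rw [← Real.log_exp 1]
      exact Real.log_le_log (Real.exp_pos 1) h1
    have hmass : ∑ M ∈ Ioc (w.a j) (w.b j), 1 / (M : ℝ) ≤ 3 * Real.log (K j) := by
      have := e7_mass_le (N j) (K j) (hK1 j) (hKN j)
      show ∑ M ∈ Ioc (N j / K j) (N j), 1 / (M : ℝ) ≤ 3 * Real.log (K j)
      linarith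
    set m := ∑ M ∈ Ioc (w.a j) (w.b j), 1 / (M : ℝ) with hmdef
    set x := ∑ M ∈ Ioc (w.a j) (w.b j), (1 / (M : ℝ)) *
      |cc A (fun j i => A j (k - i)) t k j M| with hxdef
    set y := ∑ M ∈ Ioc (w.a j) (w.b j), (1 / (M : ℝ)) *
      cc A (fun j i => A j (k - i)) t k j M ^ 2 with hydef
    have h1 : ε / 3 * m < x := by
      have : ε / 3 * m ≤ ε * Real.log (K j) := by
        have h2 : ε / 3 * m ≤ ε / 3 * (3 * Real.log (K j)) :=
          mul_le_mul_of_nonneg_left hmass (by positivity)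
        linarith
      linarith
    rw [div_lt_iff₀ hm] at hj
    have h2 : (ε / 3 * m) ^ 2 < x ^ 2 := by
      apply pow_lt_pow_left₀ h1 (by positivity) (by norm_num)
    have h3 : m * y < m * ((ε / 3) ^ 2 * m) := mul_lt_mul_of_pos_left hj hm
    nlinarith

end DG
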