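import Pool.Agent.Helper6.DG.S0Defs
import Pool.Agent.Helper6.DG.F1Goal

/-!
# SYM-9: from product sets to all bounded functions

PROOF. Copy of F1Goal.lean (`goal_of`) with `F (· + 1)` replaced by `F ∘ rev` at the scale `t M`. Put `N' = t N`,
`K' = t K`; then `N' / K' = N / K` and for `M ∈ Ioc (N / K) N` both `M` and `t M` are in `Ioc (N' / K') N'`, `K' ≤ N'`.
`regBox k δ` for the law `p = pL N'` (no average with a shifted law is needed): `F = S + r`, `r` has small cut norm under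
the product law of `pL N'`, and so has `r ∘ rev` (the product law is symmetric: reindex the sum by
`ℓ ↦ ℓ ∘ Fin.rev` and replace `f i` by `f (rev i)`).
(i) boxes: `SymProd k t` for each box. (ii) `∑_{M ∈ Ioc (N/K) N} (1/M) |Em k M r|` by `coreW` for `(N', K')`.
(iii) `∑_{M ∈ Ioc (N/K) N} (1/M) |Em k (t M) (r ∘ rev)| = t ∑ (1/(t M)) |..| ≤ t ∑_{M' ∈ Ioc (N'/K') N'} (1/M') |Em k M' (r ∘ rev)|`,
so use `coreW` with `ε / (16 t)`. `log K' = log t + log K ≤ 2 log K` for `K ≥ t`. (iv) the scales `M'` with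
`log M' < η log N'` as in `goal_of` (`small_scales` with `N'`, and `η log N' ≤ ...`; when `K` is small compared with
`N^η` they do not occur: copy the argument of `goal_of` for `(N', K')`).
-/

set_option autoImplicit false

namespace DG

open Finset Filter Topology

namespace S9

open Helper13.Om Helper11.QR F1

lemma rev_sum (k N : ℕ) (G : (Fin k → ℕ) → ℝ) :
    EpL k N (fun ℓ => G (fun i => ℓ (Fin.rev i))) = EpL k N G := by
  classical
  unfold EpL
  refine Finset.sum_nbij' (fun ℓ i => ℓ (Fin.rev i)) (fun ℓ i => ℓ (Fin.rev i)) ?_ ?_ ?_ ?_ ?_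
  · intro ℓ hℓ
    rw [Fintype.mem_piFinset] at hℓ ⊢
    intro i
    exact hℓ _
  · intro ℓ hℓ
    rw [Fintype.mem_piFinset] at hℓ ⊢
    intro i
    exact hℓ _
  · intro ℓ _
    funext i
    simp
  · intro ℓ _
    funext i
    simp
  · intro ℓ _
    congr 1
    exact (Equiv.prod_comp (Fin.revPerm (n := k)) (fun i => pL N (ℓ i))).symm

lemma rev_cut (k N : ℕ) (δ : ℝ) (r : (Fin k → ℕ) → ℝ)
    (h : ∀ f : Fin k → ℕ → ℝ, (∀ i t, |f i t| ≤ 1) →
      |EpL k N (fun ℓ => r ℓ * ∏ i, f i (ℓ i))| ≤ δ) (f : Fin k → ℕ → ℝ)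
    (hf : ∀ i t, |f i t| ≤ 1) :
    |EpL k N (fun ℓ => r (fun i => ℓ (Fin.rev i)) * ∏ i, f i (ℓ i))| ≤ δ := by
  have h1 := h (fun i => f (Fin.rev i)) (fun i t => hf _ t)
  rw [← rev_sum] at h1
  have h2 : (fun ℓ : Fin k → ℕ => r (fun i => ℓ (Fin.rev i)) *
      ∏ i, f (Fin.rev i) (ℓ (Fin.rev i))) =
      (fun ℓ => r (fun i => ℓ (Fin.rev i)) * ∏ i, f i (ℓ i)) := by
    funext ℓ
    congr 1
    exact Equiv.prod_comp (Fin.revPerm (n := k)) (fun i => f i (ℓ i))
  rw [h2] at h1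
  exact h1

lemma Ec_zero (M : ℕ) (hM : 1 ≤ M) (F : (Fin 0 → ℕ) → ℝ) : Ec 0 M F = F (fun i => i.elim0) := by
  unfold Ec
  have h : ∀ n ∈ Icc 1 M, F (fun i => ArithmeticFunction.cardFactors (n + i.1)) =
      F (fun i => i.elim0) := fun n _ => congrArg F (Subsingleton.elim _ _)
  rw [Finset.sum_congr rfl h, Finset.sum_const, Nat.card_Icc, nsmul_eq_mul]
  have hM0 : (M : ℝ) ≠ 0 := by
    have : (0 : ℝ) < M := by exact_mod_cast hM
    exact this.ne'
  rw [Nat.add_sub_cancel]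
  field_simp

/-- the main part of `key`: remainders at large scales, for `(N, K)` -/
lemma key (k : ℕ) (ε δ₁ η : ℝ) (hδ₁ : 0 < δ₁) (N K : ℕ)
    (hcore : ∀ F : ℕ → (Fin k → ℕ) → ℝ, (∀ M ℓ, |F M ℓ| ≤ 1) →
      (∀ M ∈ Finset.Ioc (N / K) N, CutLe k M δ₁ (F M)) →
        ∑ M ∈ Finset.Ioc (N / K) N, (1 / (M : ℝ)) * |Em k M (F M)| ≤ ε * Real.log K)
    (hcut : ∀ M ≤ N, η * Real.log N ≤ Real.log M → ∀ Ψ : (Fin k → ℕ) → ℝ,
      (∀ ℓ, |Ψ ℓ| ≤ 1) → |EpL k N Ψ - Ep k M Ψ| ≤ δ₁ / 2)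
    (u : (Fin k → ℕ) → ℝ) (hu2 : ∀ ℓ, |u ℓ| ≤ 2)
    (hucut : ∀ f : Fin k → ℕ → ℝ, (∀ i t, |f i t| ≤ 1) →
        |EpL k N (fun ℓ => u ℓ * ∏ i, f i (ℓ i))| ≤ δ₁) :
    ∑ M ∈ (Finset.Ioc (N / K) N).filter (fun M : ℕ => η * Real.log N ≤ Real.log M),
        (1 / (M : ℝ)) * |Em k M u| ≤ 2 * ε * Real.log K := by
  have hcutM : ∀ M : ℕ, M ≤ N → η * Real.log N ≤ Real.log M →
      ∀ f : Fin k → ℕ → ℝ, (∀ i t, |f i t| ≤ 1) →
        |Ep k M (fun ℓ => (1 / 2 * u ℓ) * ∏ i, f i (ℓ i))| ≤ δ₁ := by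
    intro M hMN hM f hf
    have hprod : ∀ ℓ : Fin k → ℕ, |∏ i, f i (ℓ i)| ≤ 1 := by
      intro ℓ
      rw [Finset.abs_prod]
      exact Finset.prod_le_one (fun i _ => abs_nonneg _) fun i _ => hf i (ℓ i)
    have h2 := hcut M hMN hM (fun ℓ => 1 / 2 * u ℓ * ∏ i, f i (ℓ i)) (fun ℓ => by
      rw [abs_mul, abs_mul, abs_of_pos (by norm_num : (0 : ℝ) < 1 / 2)]
      have h3 := hu2 ℓ
      have h4 := hprod ℓ
      have h5 := abs_nonneg (u ℓ)
      have h6 := abs_nonneg (∏ i, f i (ℓ i))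
      nlinarith)
    have h3 : EpL k N (fun ℓ => 1 / 2 * u ℓ * ∏ i, f i (ℓ i)) =
        1 / 2 * EpL k N (fun ℓ => u ℓ * ∏ i, f i (ℓ i)) := by
      unfold EpL
      rw [Finset.mul_sum]
      refine Finset.sum_congr rfl fun ℓ _ => ?_
      ring
    rw [h3] at h2
    have h4 := hucut f hf
    have h5 := abs_le.1 h2
    have h6 := abs_le.1 h4
    rw [abs_le]
    constructor <;> linarith [h5.1, h5.2, h6.1, h6.2]
  have h1 := hcore (fun M ℓ => if η * Real.log N ≤ Real.log M then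
    1 / 2 * u ℓ else 0) (fun M ℓ => by
      by_cases h : η * Real.log N ≤ Real.log M
      · simp only [if_pos h]
        rw [abs_mul, abs_of_pos (by norm_num : (0 : ℝ) < 1 / 2)]
        linarith [hu2 ℓ]
      · simp only [if_neg h]
        rw [abs_zero]
        exact zero_le_one) (fun M hM => by
      intro f hf
      by_cases h : η * Real.log N ≤ Real.log M
      · simp only [if_pos h]
        exact hcutM M (Finset.mem_Ioc.1 hM).2 h f hf
      · simp only [if_neg h]
        have h0 : Ep k M (fun ℓ => 0 * ∏ i, f i (ℓ i)) = 0 := by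
          unfold Ep
          simp
        rw [h0, abs_zero]
        exact hδ₁.le)
  have h2 : ∑ M ∈ (Finset.Ioc (N / K) N).filter (fun M : ℕ => η * Real.log N ≤ Real.log M),
        (1 / (M : ℝ)) * (1 / 2 * |Em k M u|) ≤ ε * Real.log K := by
    refine le_trans ?_ h1
    rw [Finset.sum_filter]
    refine Finset.sum_le_sum fun M _ => ?_
    by_cases h : η * Real.log N ≤ Real.log M
    · simp only [if_pos h]
      rw [Em_smul', abs_mul, abs_of_pos (by norm_num : (0 : ℝ) < 1 / 2)]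
    · simp only [if_neg h]
      positivity
  have h3 : ∑ M ∈ (Finset.Ioc (N / K) N).filter (fun M : ℕ => η * Real.log N ≤ Real.log M),
        (1 / (M : ℝ)) * (1 / 2 * |Em k M u|) = 1 / 2 * ∑ M ∈ (Finset.Ioc (N / K) N).filter
    (fun M : ℕ => η * Real.log N ≤ Real.log M), (1 / (M : ℝ)) * |Em k M u| := by
    rw [Finset.mul_sum]
    refine Finset.sum_congr rfl fun M _ => ?_
    ring
  rw [h3] at h2
  linarith

end S9

open Helper13.Om Helper11.QR F1 S9 in
theorem symAll_of (k t : ℕ) (ht : 1 ≤ t) (hP : SymProd k t) : SymAll k t := by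
  classical
  rcases Nat.eq_zero_or_pos k with hk0 | hk
  · -- `k = 0`
    subst hk0
    intro ε hε
    refine ⟨1, 1, fun N K _ hK _ F _ => ?_⟩
    have h1 : ∀ M ∈ Ioc (N / K) N, (1 / (M : ℝ)) *
        |Ec 0 M F - Ec 0 (t * M) (fun l => F (fun i => l (Fin.rev i)))| = 0 := by
      intro M hM
      have hM1 : 1 ≤ M :=
        Nat.succ_le_of_lt (lt_of_le_of_lt (Nat.zero_le _) (Finset.mem_Ioc.1 hM).1)
      have h2 : (fun l : Fin 0 → ℕ => F (fun i => l (Fin.rev i))) = F := by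
        funext l
        exact congrArg F (Subsingleton.elim _ _)
      rw [h2, Ec_zero M hM1, Ec_zero (t * M) (Nat.mul_pos ht hM1), sub_self, abs_zero, mul_zero]
    rw [Finset.sum_eq_zero h1]
    have : 0 ≤ Real.log K := Real.log_natCast_nonneg K
    positivity
  intro ε hε
  have htr : (1 : ℝ) ≤ t := by exact_mod_cast ht
  have ht0 : (0 : ℝ) < t := by linarith
  obtain ⟨δ₁, hδ₁, Ka, Na, hcore⟩ := coreW k hk (ε / (32 * t)) (by positivity)
  obtain ⟨C, hC⟩ := regBox k δ₁ hδ₁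
  set η : ℝ := min (ε / 64) (1 / 2) with hη
  have hη0 : 0 < η := lt_min (by positivity) (by norm_num)
  have hη1 : η ≤ ε / 64 := min_le_left _ _
  have hη2 : η ≤ 1 / 2 := min_le_right _ _
  obtain ⟨Nb, hcut⟩ := cutLog k η (δ₁ / 2) hη0 (by positivity)
  obtain ⟨Kc, Nc, hbox⟩ := hP (ε / (4 * (C + 1))) (by positivity)
  obtain ⟨Kd, hKd⟩ : ∃ Kd : ℕ, Real.exp (64 / ε + 2) ≤ Kd := exists_nat_ge _
  refine ⟨max (max Ka Kc) (max Kd (max t 1)), max (max Na Nb) (max Nc 1), ?_⟩
  intro N K hN hK hKN F hF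
  have hNa : Na ≤ N := (le_max_left _ _).trans ((le_max_left _ _).trans hN)
  have hNb : Nb ≤ N := (le_max_right _ _).trans ((le_max_left _ _).trans hN)
  have hNc : Nc ≤ N := (le_max_left _ _).trans ((le_max_right _ _).trans hN)
  have hN1 : 1 ≤ N := (le_max_right _ _).trans ((le_max_right _ _).trans hN)
  have hKa : Ka ≤ K := (le_max_left _ _).trans ((le_max_left _ _).trans hK)
  have hKc : Kc ≤ K := (le_max_right _ _).trans ((le_max_left _ _).trans hK)
  have hKd' : Kd ≤ K := (le_max_left _ _).trans ((le_max_right _ _).trans hK)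
  have hKt : t ≤ K := (le_max_left _ _).trans ((le_max_right _ _).trans ((le_max_right _ _).trans hK))
  have hK1 : 1 ≤ K := (le_max_right _ _).trans ((le_max_right _ _).trans ((le_max_right _ _).trans hK))
  have hKr : (0 : ℝ) < K := by exact_mod_cast hK1
  have hNr : (0 : ℝ) < N := by exact_mod_cast hN1
  have hlogK : 64 / ε + 2 ≤ Real.log K := by
    rw [Real.le_log_iff_exp_le hKr]
    exact hKd.trans (by exact_mod_cast hKd')
  have hlogK2 : 2 ≤ Real.log K := by
    have : 0 ≤ 64 / ε := by positivity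
    linarith
  have hlogKε : 64 ≤ ε * Real.log K := by
    have h1 : 64 / ε ≤ Real.log K := by linarith
    rw [div_le_iff₀ hε] at h1
    linarith
  have hlogt : Real.log t ≤ Real.log K := Real.log_le_log ht0 (by exact_mod_cast hKt)
  have hlogt0 : 0 ≤ Real.log t := Real.log_nonneg htr
  -- the enlarged scale
  set N' : ℕ := t * N with hN'
  set K' : ℕ := t * K with hK'
  have hNN' : N ≤ N' := Nat.le_mul_of_pos_left N ht
  have hKK' : K ≤ K' := Nat.le_mul_of_pos_left K ht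
  have hdiv : N' / K' = N / K := Nat.mul_div_mul_left N K ht
  have hK'N' : K' ≤ N' := Nat.mul_le_mul_left t hKN
  have hN'1 : 1 ≤ N' := hN1.trans hNN'
  have hlogN' : Real.log N' = Real.log t + Real.log N := by
    rw [hN']
    push_cast
    exact Real.log_mul ht0.ne' hNr.ne'
  have hlogK' : Real.log K' ≤ 2 * Real.log K := by
    have h1 : Real.log K' = Real.log t + Real.log K := by
      rw [hK']
      push_cast
      exact Real.log_mul ht0.ne' hKr.ne'
    linarith
  set W : Finset ℕ := Finset.Ioc (N / K) N with hW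
  set W' : Finset ℕ := Finset.Ioc (N' / K') N' with hW'
  -- the decomposition
  obtain ⟨J, c, A, hJ, hc, hS, hcutF⟩ := hC (N' + k + 1) (pL N') (pL_nonneg N')
    (pL_sum N' _ hN'1 (by omega)) F hF
  set S : (Fin k → ℕ) → ℝ := fun ℓ => ∑ j, c j * (if ∀ i, ℓ i ∈ A j i then (1 : ℝ) else 0)
    with hSdef
  set r : (Fin k → ℕ) → ℝ := fun ℓ => F ℓ - S ℓ with hr
  have hcutr1 : ∀ f : Fin k → ℕ → ℝ, (∀ i t, |f i t| ≤ 1) →
      |EpL k N' (fun ℓ => r ℓ * ∏ i, f i (ℓ i))| ≤ δ₁ := fun f hf => hcutF f hf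
  have hcutr2 := rev_cut k N' δ₁ r hcutr1
  have hr2 : ∀ ℓ, |r ℓ| ≤ 2 := by
    intro ℓ
    have h1 : |S ℓ| ≤ 1 := hS ℓ
    have h2 := abs_sub (F ℓ) (S ℓ)
    have h3 := hF ℓ
    show |F ℓ - S ℓ| ≤ 2
    linarith
  -- the remainders, large scales
  have key' : ∀ u : (Fin k → ℕ) → ℝ, (∀ ℓ, |u ℓ| ≤ 2) →
      (∀ f : Fin k → ℕ → ℝ, (∀ i t, |f i t| ≤ 1) →
        |EpL k N' (fun ℓ => u ℓ * ∏ i, f i (ℓ i))| ≤ δ₁) →
      ∑ M ∈ W'.filter (fun M : ℕ => η * Real.log N' ≤ Real.log M),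
        (1 / (M : ℝ)) * |Em k M u| ≤ ε / (8 * t) * Real.log K := by
    intro u hu2 hucut
    have h1 := key k (ε / (32 * t)) δ₁ η hδ₁ N' K'
      (hcore N' K' (hNa.trans hNN') (hKa.trans hKK') hK'N')
      (hcut N' (hNb.trans hNN')) u hu2 hucut
    refine h1.trans ?_
    have h2 : 2 * (ε / (32 * t)) * Real.log K' ≤ 2 * (ε / (32 * t)) * (2 * Real.log K) :=
      mul_le_mul_of_nonneg_left hlogK' (by positivity)
    refine h2.trans (le_of_eq ?_)
    field_simp
    ring
  set WL : Finset ℕ := W.filter (fun M : ℕ => η * Real.log N' ≤ Real.log M) with hWL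
  have hWpos : ∀ M ∈ W, 1 ≤ M := fun M hM =>
    Nat.succ_le_of_lt (lt_of_le_of_lt (Nat.zero_le _) (Finset.mem_Ioc.1 hM).1)
  have hrem1 : ∑ M ∈ WL, (1 / (M : ℝ)) * |Em k M r| ≤ ε / 8 * Real.log K := by
    have h1 := key' r hr2 hcutr1
    have h2 : ∑ M ∈ WL, (1 / (M : ℝ)) * |Em k M r| ≤
        ∑ M ∈ W'.filter (fun M : ℕ => η * Real.log N' ≤ Real.log M),
        (1 / (M : ℝ)) * |Em k M r| := by
      apply Finset.sum_le_sum_of_subset_of_nonneg
      · intro M hM
        rw [hWL, Finset.mem_filter, hW, Finset.mem_Ioc] at hM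
        rw [Finset.mem_filter, hW', Finset.mem_Ioc, hdiv]
        exact ⟨⟨hM.1.1, hM.1.2.trans hNN'⟩, hM.2⟩
      · intro M _ _
        positivity
    refine (h2.trans h1).trans ?_
    apply mul_le_mul_of_nonneg_right _ (by linarith)
    apply div_le_div_of_nonneg_left hε.le (by norm_num)
    linarith
  have hrem2 : ∑ M ∈ WL, (1 / (M : ℝ)) * |Em k (t * M) (fun ℓ => r (fun i => ℓ (Fin.rev i)))| ≤
      ε / 8 * Real.log K := by
    have h1 := key' (fun ℓ => r (fun i => ℓ (Fin.rev i))) (fun ℓ => hr2 _) hcutr2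
    have h2 : ∑ M ∈ WL, (1 / ((t * M : ℕ) : ℝ)) *
          |Em k (t * M) (fun ℓ => r (fun i => ℓ (Fin.rev i)))| ≤
        ∑ M ∈ W'.filter (fun M : ℕ => η * Real.log N' ≤ Real.log M),
        (1 / (M : ℝ)) * |Em k M (fun ℓ => r (fun i => ℓ (Fin.rev i)))| := by
      rw [← Finset.sum_image (s := WL) (g := fun M => t * M)
        (f := fun M : ℕ => (1 / (M : ℝ)) * |Em k M (fun ℓ => r (fun i => ℓ (Fin.rev i)))|)
        (fun a _ b _ hab => Nat.eq_of_mul_eq_mul_left ht hab)]
      apply Finset.sum_le_sum_of_subset_of_nonneg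
      · intro M hM
        obtain ⟨m, hm, rfl⟩ := Finset.mem_image.1 hM
        rw [hWL, Finset.mem_filter, hW, Finset.mem_Ioc] at hm
        rw [Finset.mem_filter, hW', Finset.mem_Ioc, hdiv]
        have hm0 : 1 ≤ m := Nat.succ_le_of_lt (lt_of_le_of_lt (Nat.zero_le _) hm.1.1)
        have hmt : m ≤ t * m := Nat.le_mul_of_pos_left m ht
        refine ⟨⟨lt_of_lt_of_le hm.1.1 hmt, Nat.mul_le_mul_left t hm.1.2⟩, ?_⟩
        refine hm.2.trans (Real.log_le_log (by exact_mod_cast hm0) (by exact_mod_cast hmt))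
      · intro M _ _
        positivity
    have h3 : ∑ M ∈ WL, (1 / (M : ℝ)) * |Em k (t * M) (fun ℓ => r (fun i => ℓ (Fin.rev i)))| =
        t * ∑ M ∈ WL, (1 / ((t * M : ℕ) : ℝ)) *
          |Em k (t * M) (fun ℓ => r (fun i => ℓ (Fin.rev i)))| := by
      rw [Finset.mul_sum]
      refine Finset.sum_congr rfl fun M hM => ?_
      have hM1 : (0 : ℝ) < M := by
        exact_mod_cast hWpos M (Finset.mem_filter.1 hM).1
      push_cast
      field_simp
    rw [h3]
    calc (t : ℝ) * _ ≤ t * (ε / (8 * t) * Real.log K) :=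
          mul_le_mul_of_nonneg_left (h2.trans h1) ht0.le
      _ = ε / 8 * Real.log K := by
          field_simp
  -- (i) the box part
  have hboxS : ∑ M ∈ W, (1 / (M : ℝ)) *
      |Em k M S - Em k (t * M) (fun ℓ => S (fun i => ℓ (Fin.rev i)))| ≤ ε / 4 * Real.log K := by
    have h1 : ∀ M ∈ W, (1 / (M : ℝ)) *
        |Em k M S - Em k (t * M) (fun ℓ => S (fun i => ℓ (Fin.rev i)))| ≤
        ∑ j, (1 / (M : ℝ)) *
        |Ec k M (fun ℓ => if ∀ i, ℓ i ∈ A j i then (1 : ℝ) else 0) -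
          Ec k (t * M) (fun ℓ => if ∀ i, ℓ (Fin.rev i) ∈ A j i then (1 : ℝ) else 0)| := by
      intro M _
      rw [← Finset.mul_sum]
      refine mul_le_mul_of_nonneg_left ?_ (by positivity)
      have e1 : Em k M S = ∑ j, c j * Em k M (fun ℓ => if ∀ i, ℓ i ∈ A j i then (1 : ℝ)
          else 0) := by
        rw [hSdef, Em_fsum k M J (fun j ℓ => c j * (if ∀ i, ℓ i ∈ A j i then (1 : ℝ) else 0))]
        refine Finset.sum_congr rfl fun j _ => ?_
        rw [Em_smul']
      have e2 : Em k (t * M) (fun ℓ => S (fun i => ℓ (Fin.rev i))) =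
          ∑ j, c j * Em k (t * M)
            (fun ℓ => if ∀ i, ℓ (Fin.rev i) ∈ A j i then (1 : ℝ) else 0) := by
        rw [hSdef, Em_fsum k (t * M) J
          (fun j ℓ => c j * (if ∀ i, ℓ (Fin.rev i) ∈ A j i then (1 : ℝ) else 0))]
        refine Finset.sum_congr rfl fun j _ => ?_
        rw [Em_smul']
      rw [e1, e2, ← Finset.sum_sub_distrib]
      refine (Finset.abs_sum_le_sum_abs _ _).trans ?_
      refine Finset.sum_le_sum fun j _ => ?_
      rw [← mul_sub, abs_mul]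
      have h3 := mul_le_mul_of_nonneg_right (hc j) (abs_nonneg
        (Em k M (fun ℓ => if ∀ i, ℓ i ∈ A j i then (1 : ℝ) else 0) -
          Em k (t * M) (fun ℓ => if ∀ i, ℓ (Fin.rev i) ∈ A j i then (1 : ℝ) else 0)))
      rw [one_mul] at h3
      exact h3
    refine (Finset.sum_le_sum h1).trans ?_
    rw [Finset.sum_comm]
    have h2 : ∀ j ∈ (Finset.univ : Finset (Fin J)), ∑ M ∈ W, (1 / (M : ℝ)) *
        |Ec k M (fun ℓ => if ∀ i, ℓ i ∈ A j i then (1 : ℝ) else 0) -
          Ec k (t * M) (fun ℓ => if ∀ i, ℓ (Fin.rev i) ∈ A j i then (1 : ℝ) else 0)| ≤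
        ε / (4 * (C + 1)) * Real.log K := fun j _ => hbox N K hNc hKc hKN (A j)
    refine (Finset.sum_le_sum h2).trans ?_
    rw [Finset.sum_const, Finset.card_univ, Fintype.card_fin, nsmul_eq_mul]
    have h3 : (J : ℝ) ≤ C + 1 := by
      have : (J : ℝ) ≤ C := by exact_mod_cast hJ
      linarith
    have h4 : 0 ≤ ε / (4 * ((C : ℝ) + 1)) * Real.log K := by positivity
    calc (J : ℝ) * (ε / (4 * ((C : ℝ) + 1)) * Real.log K) ≤
        ((C : ℝ) + 1) * (ε / (4 * ((C : ℝ) + 1)) * Real.log K) :=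
          mul_le_mul_of_nonneg_right h3 h4
      _ = ε / 4 * Real.log K := by
          field_simp
  -- (iii) the small scales
  have hsmall : ∑ M ∈ W.filter (fun M : ℕ => ¬ η * Real.log N' ≤ Real.log M),
      (1 / (M : ℝ)) * |Em k M F - Em k (t * M) (fun ℓ => F (fun i => ℓ (Fin.rev i)))| ≤
      2 + ε / 8 * Real.log K := by
    have htriv : ∀ M : ℕ, |Em k M F - Em k (t * M) (fun ℓ => F (fun i => ℓ (Fin.rev i)))| ≤ 2 := by
      intro M
      have h2 := Em_abs_le_of k M F hF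
      have h3 := Em_abs_le_of k (t * M) (fun ℓ => F (fun i => ℓ (Fin.rev i))) (fun ℓ => hF _)
      have := abs_sub (Em k M F) (Em k (t * M) (fun ℓ => F (fun i => ℓ (Fin.rev i))))
      linarith
    rcases Finset.eq_empty_or_nonempty
      (W.filter (fun M : ℕ => ¬ η * Real.log N' ≤ Real.log M)) with hemp | ⟨M0, hM0⟩
    · rw [hemp, Finset.sum_empty]
      positivity
    · rw [Finset.mem_filter, not_le] at hM0
      have hM0W := Finset.mem_Ioc.1 hM0.1
      have hM0pos : (0 : ℝ) < M0 := by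
        have : 0 < M0 := lt_of_le_of_lt (Nat.zero_le _) hM0W.1
        exact_mod_cast this
      have h1 : (N : ℝ) < M0 * K := by
        have := (Nat.div_lt_iff_lt_mul hK1).1 hM0W.1
        exact_mod_cast this
      have h2 : Real.log N ≤ Real.log M0 + Real.log K := by
        rw [← Real.log_mul hM0pos.ne' hKr.ne']
        exact Real.log_le_log hNr h1.le
      have hlogN : 0 ≤ Real.log N' := Real.log_nonneg (by exact_mod_cast hN'1)
      have h3 : Real.log N' ≤ 4 * Real.log K := by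
        have h4 : η * Real.log N' ≤ 1 / 2 * Real.log N' := mul_le_mul_of_nonneg_right hη2 hlogN
        linarith [hM0.2]
      calc ∑ M ∈ W.filter (fun M : ℕ => ¬ η * Real.log N' ≤ Real.log M),
            (1 / (M : ℝ)) * |Em k M F - Em k (t * M) (fun ℓ => F (fun i => ℓ (Fin.rev i)))|
          ≤ ∑ M ∈ W.filter (fun M : ℕ => ¬ η * Real.log N' ≤ Real.log M),
            (1 / (M : ℝ)) * 2 := by
            refine Finset.sum_le_sum fun M _ => ?_
            exact mul_le_mul_of_nonneg_left (htriv M) (by positivity)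
        _ ≤ ∑ M ∈ (Finset.Icc 1 N').filter (fun M : ℕ => ¬ η * Real.log N' ≤ Real.log M),
            (1 / (M : ℝ)) * 2 := by
            apply Finset.sum_le_sum_of_subset_of_nonneg
            · intro M hM
              rw [Finset.mem_filter] at hM ⊢
              have h5 := Finset.mem_Ioc.1 hM.1
              refine ⟨Finset.mem_Icc.2 ⟨?_, h5.2.trans hNN'⟩, hM.2⟩
              exact Nat.succ_le_of_lt (lt_of_le_of_lt (Nat.zero_le _) h5.1)
            · intro M _ _
              positivity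
        _ = 2 * ∑ M ∈ (Finset.Icc 1 N').filter
              (fun M : ℕ => ¬ η * Real.log N' ≤ Real.log M), (1 / (M : ℝ)) := by
            rw [← Finset.sum_mul, mul_comm]
        _ ≤ 2 * (1 + η * Real.log N') :=
            mul_le_mul_of_nonneg_left (small_scales N' hN'1 η hη0) (by norm_num)
        _ ≤ 2 + ε / 8 * Real.log K := by
            have h6 : η * Real.log N' ≤ ε / 64 * (4 * Real.log K) :=
              mul_le_mul hη1 h3 hlogN (by positivity)
            linarith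
  -- assembly
  have hlargeF : ∑ M ∈ WL,
      (1 / (M : ℝ)) * |Em k M F - Em k (t * M) (fun ℓ => F (fun i => ℓ (Fin.rev i)))| ≤
      ε / 4 * Real.log K + ε / 8 * Real.log K + ε / 8 * Real.log K := by
    have h1 : ∀ M : ℕ, |Em k M F - Em k (t * M) (fun ℓ => F (fun i => ℓ (Fin.rev i)))| ≤
        |Em k M S - Em k (t * M) (fun ℓ => S (fun i => ℓ (Fin.rev i)))| + |Em k M r| +
        |Em k (t * M) (fun ℓ => r (fun i => ℓ (Fin.rev i)))| := by
      intro M
      have e1 : Em k M r = Em k M F - Em k M S := Em_sub' k M F S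
      have e2 : Em k (t * M) (fun ℓ => r (fun i => ℓ (Fin.rev i))) =
          Em k (t * M) (fun ℓ => F (fun i => ℓ (Fin.rev i))) -
          Em k (t * M) (fun ℓ => S (fun i => ℓ (Fin.rev i))) :=
        Em_sub' k (t * M) (fun ℓ => F (fun i => ℓ (Fin.rev i)))
          (fun ℓ => S (fun i => ℓ (Fin.rev i)))
      have e3 : Em k M F - Em k (t * M) (fun ℓ => F (fun i => ℓ (Fin.rev i))) =
          (Em k M S - Em k (t * M) (fun ℓ => S (fun i => ℓ (Fin.rev i)))) + Em k M r -
            Em k (t * M) (fun ℓ => r (fun i => ℓ (Fin.rev i))) := by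
        rw [e1, e2]
        ring
      rw [e3]
      have h2 := abs_sub ((Em k M S - Em k (t * M) (fun ℓ => S (fun i => ℓ (Fin.rev i)))) +
        Em k M r) (Em k (t * M) (fun ℓ => r (fun i => ℓ (Fin.rev i))))
      have h3 := abs_add_le (Em k M S - Em k (t * M) (fun ℓ => S (fun i => ℓ (Fin.rev i))))
        (Em k M r)
      linarith
    calc ∑ M ∈ WL,
          (1 / (M : ℝ)) * |Em k M F - Em k (t * M) (fun ℓ => F (fun i => ℓ (Fin.rev i)))|
        ≤ ∑ M ∈ WL,
          ((1 / (M : ℝ)) * |Em k M S - Em k (t * M) (fun ℓ => S (fun i => ℓ (Fin.rev i)))| +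
            (1 / (M : ℝ)) * |Em k M r| +
            (1 / (M : ℝ)) * |Em k (t * M) (fun ℓ => r (fun i => ℓ (Fin.rev i)))|) := by
          refine Finset.sum_le_sum fun M _ => ?_
          rw [← mul_add, ← mul_add]
          exact mul_le_mul_of_nonneg_left (h1 M) (by positivity)
      _ = ∑ M ∈ WL,
            (1 / (M : ℝ)) * |Em k M S - Em k (t * M) (fun ℓ => S (fun i => ℓ (Fin.rev i)))| +
          ∑ M ∈ WL, (1 / (M : ℝ)) * |Em k M r| +
          ∑ M ∈ WL,
            (1 / (M : ℝ)) * |Em k (t * M) (fun ℓ => r (fun i => ℓ (Fin.rev i)))| := by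
          rw [Finset.sum_add_distrib, Finset.sum_add_distrib]
      _ ≤ ε / 4 * Real.log K + ε / 8 * Real.log K + ε / 8 * Real.log K := by
          refine add_le_add (add_le_add ?_ hrem1) hrem2
          refine le_trans ?_ hboxS
          apply Finset.sum_le_sum_of_subset_of_nonneg (Finset.filter_subset _ _)
          intro M _ _
          positivity
  have hfinal : ∑ M ∈ W, (1 / (M : ℝ)) *
      |Em k M F - Em k (t * M) (fun ℓ => F (fun i => ℓ (Fin.rev i)))| ≤ ε * Real.log K := by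
    rw [← Finset.sum_filter_add_sum_filter_not W (fun M : ℕ => η * Real.log N' ≤ Real.log M)]
    have h1 := add_le_add hlargeF hsmall
    refine h1.trans ?_
    nlinarith
  exact hfinal

end DG
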