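import Pool.Agent.Helper6.DG.Final
import Pool.Agent.Helper6.DG.S1Pr
import Pool.Agent.Helper6.DG.S2Svt
import Pool.Agent.Helper6.DG.S3Core
import Pool.Agent.Helper6.DG.S8Prod
import Pool.Agent.Helper6.DG.S9All
import Pool.Agent.Helper6.DG.S10Fin

/-!
# Project SYM: assembly
-/

set_option autoImplicit false

namespace DG

open Finset Filter Topology

theorem coreS_holds (D : ℕ) (hD : 1 ≤ D) (t : ℕ) (ht : 1 ≤ t) (V : Ultrafilter ℕ)
    (U : Ultrafilter (ℕ × ℕ × ℕ × ℕ)) (hV : GoodU V) (hU : IsIter V U) (k : ℕ) (hk : 1 ≤ k) :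
    Core U (cwS D t) k :=
  coreS bl_all svt_all (fun k => svtm prm k) pr D hD t ht V U hV hU k hk

theorem stS_holds (t : ℕ) (ht : 1 ≤ t) (D : ℕ) (hD : 1 ≤ D) (V : Ultrafilter ℕ)
    (U : Ultrafilter (ℕ × ℕ × ℕ × ℕ)) (hV : GoodU V) (hU : IsIter V U) (k : ℕ) :
    St U (cwS D t) k :=
  stInduction U (cwS D t) (cwS_sum D t) (cwS_abs D t) (fun q hq => cwS_mod D t V U hU q hq)
    (coreS_holds D hD t ht V U hV hU) k

theorem symProd_holds (k t : ℕ) (ht : 1 ≤ t) : SymProd k t :=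
  symProd pr prm DGE.ent_thm t ht (stS_holds t ht) k

theorem symGoal_holds (k s t : ℕ) (ht : 1 ≤ t) : SymGoal k s t :=
  symGoal_of k s t ht (goal_holds k) (symAll_of k t ht (symProd_holds k t ht))

end DG
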