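import Pool.Agent.Helper53.DG.VdcK

/-!
# DG-M1: van der Corput steps for arbitrary coefficients
-/

set_option autoImplicit false

namespace DG.BLP

open Finset Filter Topology DG

private theorem m_shift_nat {ι : Type} {M : Mean (ι × ℤ)} (hM : MInv M) (n : ℕ) (f : ι × ℤ → ℂ)
    (hf : Bd f) : M.E (fun z => f (z.1, z.2 + (n : ℤ))) = M.E f := by
  induction n with
  | zero => simp
  | succ n ih =>
    rw [← ih, ← hM (fun z => f (z.1, z.2 + (n : ℤ))) (hf.comp _)]
    congr 1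
    funext z
    congr 2
    push_cast
    ring

private theorem m_shift {ι : Type} {M : Mean (ι × ℤ)} (hM : MInv M) (n : ℤ) (f : ι × ℤ → ℂ)
    (hf : Bd f) : M.E (fun z => f (z.1, z.2 + n)) = M.E f := by
  rcases Int.eq_nat_or_neg n with ⟨m, rfl | rfl⟩
  · exact m_shift_nat hM m f hf
  · have h := m_shift_nat hM m (fun z => f (z.1, z.2 + -(m : ℤ))) (hf.comp _)
    rw [← h]
    congr 1
    funext z
    congr 2
    ring

/-- One van der Corput step in abstract form. -/
theorem vdcU {ι : Type} (M : Mean (ι × ℤ)) (hM : MInv M) (X : Sys) (F0 : ι → X.S → ℂ)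
    (hF0 : ∀ a x, ‖F0 a x‖ ≤ 1) (U : ι → ℤ → X.S → ℂ) (hUb : ∀ a m x, ‖U a m x‖ ≤ 1) :
    ‖M.E (fun z => X.μ.E (fun x => F0 z.1 x * U z.1 z.2 x))‖ ^ 2 ≤
      (cz.E (fun h => M.E (fun z => X.μ.E (fun x =>
        U z.1 z.2 x * (starRingEnd ℂ) (U z.1 (z.2 + h) x))))).re := by
  classical
  set L : ℂ := M.E (fun z => X.μ.E (fun x => F0 z.1 x * U z.1 z.2 x)) with hL
  have hEb : ∀ (f : X.S → ℂ), (∀ x, ‖f x‖ ≤ 1) → ‖X.μ.E f‖ ≤ 1 := fun f hf => X.μ.norm_E_le f hf
  have hmul1 : ∀ (f g : X.S → ℂ), (∀ x, ‖f x‖ ≤ 1) → (∀ x, ‖g x‖ ≤ 1) →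
      ∀ x, ‖f x * g x‖ ≤ 1 := by
    intro f g hf hg x
    rw [norm_mul]
    exact mul_le_one₀ (hf x) (norm_nonneg _) (hg x)
  have hshiftL : ∀ s : ℕ, M.E (fun z => X.μ.E (fun x => F0 z.1 x * U z.1 (z.2 + (s : ℤ)) x)) =
      L := by
    intro s
    exact m_shift hM (s : ℤ) (fun z => X.μ.E (fun x => F0 z.1 x * U z.1 z.2 x))
      ⟨1, fun z => hEb _ (hmul1 _ _ (hF0 z.1) (hUb z.1 z.2))⟩
  -- `γ`
  set γ : ℤ → ℂ := fun h => M.E (fun z => X.μ.E (fun x =>
        U z.1 z.2 x * (starRingEnd ℂ) (U z.1 (z.2 + h) x))) with hγ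
  have hγb : Bd γ := by
    refine ⟨1, fun h => M.norm_E_le _ fun z => hEb _ (hmul1 _ _ (hUb _ _) fun x => ?_)⟩
    rw [RCLike.norm_conj]
    exact hUb _ _ _
  have hγeq : ∀ s s' : ℕ, M.E (fun z => X.μ.E (fun x => U z.1 (z.2 + (s : ℤ)) x *
      (starRingEnd ℂ) (U z.1 (z.2 + (s' : ℤ)) x))) = γ ((s' : ℤ) - (s : ℤ)) := by
    intro s s'
    have h1 := m_shift hM (s : ℤ) (fun z => X.μ.E (fun x => U z.1 z.2 x *
      (starRingEnd ℂ) (U z.1 (z.2 + ((s' : ℤ) - (s : ℤ))) x)))
      ⟨1, fun z => hEb _ (hmul1 _ _ (hUb z.1 z.2) fun x => by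
        rw [RCLike.norm_conj]; exact hUb _ _ _)⟩
    have h3 : ∀ m : ℤ, m + (s : ℤ) + ((s' : ℤ) - (s : ℤ)) = m + (s' : ℤ) := fun m => by ring
    simp only [h3] at h1
    exact h1
  -- the main estimate
  have hmain : ∀ n : ℕ, 1 ≤ n → ‖L‖ ^ 2 ≤ (sf n γ).re := by
    intro n hn
    have hn0 : (n : ℂ) ≠ 0 := by exact_mod_cast (by omega : n ≠ 0)
    set G : ι × ℤ → X.S → ℂ := fun z x =>
      (1 / (n : ℂ)) * ∑ s ∈ range n, U z.1 (z.2 + (s : ℤ)) x with hG
    have hGb : ∀ z x, ‖G z x‖ ≤ 1 := by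
      intro z x
      simp only [hG]
      rw [norm_mul, norm_div, norm_one, Complex.norm_natCast]
      have h1 : ‖∑ s ∈ range n, U z.1 (z.2 + (s : ℤ)) x‖ ≤ n := by
        refine (norm_sum_le _ _).trans ?_
        calc ∑ s ∈ range n, ‖U z.1 (z.2 + (s : ℤ)) x‖ ≤ ∑ _s ∈ range n, (1 : ℝ) :=
              Finset.sum_le_sum fun s _ => hUb _ _ _
          _ = n := by simp
      have hn1 : (0 : ℝ) < n := by exact_mod_cast (by omega : 0 < n)
      rw [one_div, inv_mul_le_iff₀ hn1, mul_one]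
      exact h1
    have hL2 : L = M.E (fun z => X.μ.E (fun x => F0 z.1 x * G z x)) := by
      have h1 : (fun z : ι × ℤ => X.μ.E (fun x => F0 z.1 x * G z x)) = fun z =>
          (1 / (n : ℂ)) * ∑ s ∈ range n,
            X.μ.E (fun x => F0 z.1 x * U z.1 (z.2 + (s : ℤ)) x) := by
        funext z
        rw [← X.μ.E_sum, ← X.μ.E_const_mul]
        congr 1
        funext x
        simp only [hG]
        rw [Finset.mul_sum, Finset.mul_sum, Finset.mul_sum]
        refine Finset.sum_congr rfl fun s _ => ?_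
        ring
      rw [h1, M.E_const_mul, M.E_sum, Finset.sum_congr rfl fun s _ => hshiftL s,
        Finset.sum_const, Finset.card_range, nsmul_eq_mul, ← mul_assoc, one_div,
        inv_mul_cancel₀ hn0, one_mul]
    have hb1 : ∀ z : ι × ℤ, ‖X.μ.E (fun x => F0 z.1 x * G z x)‖ ≤ 1 := fun z =>
      hEb _ (hmul1 _ _ (hF0 z.1) (hGb z))
    have h2 : ‖L‖ ^ 2 ≤ M.R (fun z => X.μ.N2 (G z)) := by
      rw [hL2]
      refine (M.sq_norm_E_le _ ⟨1, hb1⟩).trans ?_
      unfold Mean.N2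
      refine M.R_mono _ _ (fun z => ?_) (C := 1) (fun z => ?_) (fun z => ?_)
      · exact X.μ.cs_one _ _ (hF0 z.1) ⟨1, hGb z⟩
      · rw [abs_of_nonneg (by positivity)]
        exact pow_le_one₀ (norm_nonneg _) (hb1 z)
      · change |X.μ.N2 (G z)| ≤ 1
        rw [abs_of_nonneg (X.μ.N2_nonneg _ ⟨1, hGb z⟩)]
        have h3 := X.μ.N2_le _ (hGb z)
        rwa [one_pow] at h3
    have h3 : ((M.R (fun z => X.μ.N2 (G z)) : ℝ) : ℂ) = sf n γ := by
      rw [← M.E_ofReal (fun z => X.μ.N2 (G z)) (C := 1) (fun z => by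
        rw [abs_of_nonneg (X.μ.N2_nonneg _ ⟨1, hGb z⟩)]
        have h3 := X.μ.N2_le _ (hGb z)
        rwa [one_pow] at h3)]
      have h4 : (fun z : ι × ℤ => ((X.μ.N2 (G z) : ℝ) : ℂ)) = fun z =>
          (1 / (n : ℂ) ^ 2) * ∑ s' ∈ range n, ∑ s ∈ range n,
            X.μ.E (fun x => U z.1 (z.2 + (s : ℤ)) x *
              (starRingEnd ℂ) (U z.1 (z.2 + (s' : ℤ)) x)) := by
        funext z
        rw [← X.μ.N2_eq _ ⟨1, hGb z⟩]
        have h5 : ∀ s' : ℕ, ∑ s ∈ range n, X.μ.E (fun x => U z.1 (z.2 + (s : ℤ)) x *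
              (starRingEnd ℂ) (U z.1 (z.2 + (s' : ℤ)) x)) =
            X.μ.E (fun x => ∑ s ∈ range n, U z.1 (z.2 + (s : ℤ)) x *
              (starRingEnd ℂ) (U z.1 (z.2 + (s' : ℤ)) x)) := fun s' =>
          (X.μ.E_sum _ _).symm
        simp only [h5]
        rw [← X.μ.E_sum, ← X.μ.E_const_mul]
        congr 1
        funext x
        simp only [hG]
        rw [map_mul, map_sum, Finset.sum_comm, ← Finset.sum_mul_sum]
        have h6 : (starRingEnd ℂ) (1 / (n : ℂ)) = 1 / (n : ℂ) := by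
          rw [map_div₀, map_one, Complex.conj_natCast]
        rw [h6]
        field_simp
      rw [h4, M.E_const_mul, M.E_sum]
      have h7 : ∀ s' : ℕ, M.E (fun z => ∑ s ∈ range n,
            X.μ.E (fun x => U z.1 (z.2 + (s : ℤ)) x *
              (starRingEnd ℂ) (U z.1 (z.2 + (s' : ℤ)) x))) =
          ∑ s ∈ range n, γ ((s' : ℤ) - (s : ℤ)) := by
        intro s'
        rw [M.E_sum]
        exact Finset.sum_congr rfl fun s _ => hγeq s s'
      rw [Finset.sum_congr rfl fun s' _ => h7 s']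
      unfold sf
      rw [one_div, inv_mul_eq_div]
    have h8 := congrArg Complex.re h3
    rw [Complex.ofReal_re] at h8
    rw [← h8]
    exact h2
  -- the limit
  have hlim := (Complex.continuous_re.tendsto _).comp (cz_tendsto γ hγb)
  refine ge_of_tendsto hlim (Eventually.of_forall fun N => ?_)
  rw [Function.comp_apply, fej_eq_sf]
  exact hmain (N + 1) (by omega)

/-- Product of the factors of the list at `m`. -/
noncomputable def corL (X : Sys) {ι : Type} (L : List ((ι → X.S → ℂ) × ℤ)) (a : ι) (m : ℤ)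
    (x : X.S) : ℂ := (L.map (fun A => A.1 a ((X.T ^ (A.2 * m)) x))).prod

/-- All functions of the list are bounded by `1`. -/
def LB {X : Sys} {ι : Type} (L : List ((ι → X.S → ℂ) × ℤ)) : Prop :=
  ∀ A ∈ L, ∀ a x, ‖A.1 a x‖ ≤ 1

theorem corL_norm (X : Sys) {ι : Type} (L : List ((ι → X.S → ℂ) × ℤ)) (hL : LB L) (a : ι) (m : ℤ)
    (x : X.S) : ‖corL X L a m x‖ ≤ 1 := by
  induction L with
  | nil => simp [corL]
  | cons A L ih =>
    have e : corL X (A :: L) a m x = A.1 a ((X.T ^ (A.2 * m)) x) * corL X L a m x := by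
      simp [corL]
    rw [e, norm_mul]
    exact mul_le_one₀ (hL A List.mem_cons_self _ _) (norm_nonneg _)
      (ih fun B hB => hL B (List.mem_cons_of_mem _ hB))

/-- The differenced list: the coefficient of the eliminated factor is `c`, the difference is `h`. -/
noncomputable def difL (X : Sys) {ι : Type} (L : List ((ι → X.S → ℂ) × ℤ)) (c h : ℤ) :
    List ((ι → X.S → ℂ) × ℤ) :=
  L.map (fun B => ((fun a y => B.1 a y *
    (starRingEnd ℂ) (B.1 a ((X.T ^ ((B.2 - c) * h)) y))), B.2))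

theorem difL_LB (X : Sys) {ι : Type} (L : List ((ι → X.S → ℂ) × ℤ)) (hL : LB L) (c h : ℤ) :
    LB (difL X L c h) := by
  intro A hA a x
  obtain ⟨B, hB, rfl⟩ := List.mem_map.1 hA
  change ‖B.1 a x * (starRingEnd ℂ) (B.1 a ((X.T ^ ((B.2 - c) * h)) x))‖ ≤ 1
  rw [norm_mul, RCLike.norm_conj]
  exact mul_le_one₀ (hL B hB _ _) (norm_nonneg _) (hL B hB _ _)

theorem difL_snd (X : Sys) {ι : Type} (L : List ((ι → X.S → ℂ) × ℤ)) (c h : ℤ) :
    (difL X L c h).map (fun A => -A.2) = L.map (fun A => -A.2) := by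
  unfold difL
  rw [List.map_map]
  rfl

theorem difL_length (X : Sys) {ι : Type} (L : List ((ι → X.S → ℂ) × ℤ)) (c h : ℤ) :
    (difL X L c h).length = L.length := by
  unfold difL
  rw [List.length_map]

/-- the factors of the list with all coefficients diminished by `c` -/
private theorem shift_L (X : Sys) {ι : Type} (L : List ((ι → X.S → ℂ) × ℤ)) (c : ℤ) (a : ι)
    (m h : ℤ) (x : X.S) :
    corL X L a m ((X.T ^ (-(c * m))) ((X.T ^ (c * m)) x)) *
      (starRingEnd ℂ) (corL X L a (m + h) ((X.T ^ (-(c * (m + h)))) ((X.T ^ (c * m)) x))) =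
      corL X (difL X L c h) a m x := by
  induction L with
  | nil => simp [corL, difL]
  | cons B L ih =>
    have e1 : ∀ (n : ℤ) (y : X.S), corL X (B :: L) a n y =
        B.1 a ((X.T ^ (B.2 * n)) y) * corL X L a n y := by
      intro n y
      simp [corL]
    have e2 : corL X (difL X (B :: L) c h) a m x =
        (B.1 a ((X.T ^ (B.2 * m)) x) * (starRingEnd ℂ) (B.1 a ((X.T ^ ((B.2 - c) * h))
          ((X.T ^ (B.2 * m)) x)))) * corL X (difL X L c h) a m x := by
      simp [corL, difL]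
    rw [e1, e1, e2, ← ih, map_mul]
    have e3 : (X.T ^ (B.2 * m)) ((X.T ^ (-(c * m))) ((X.T ^ (c * m)) x)) =
        (X.T ^ (B.2 * m)) x := by
      rw [← Equiv.Perm.mul_apply (X.T ^ (-(c * m))), ← zpow_add]
      simp
    have e4 : (X.T ^ (B.2 * (m + h))) ((X.T ^ (-(c * (m + h)))) ((X.T ^ (c * m)) x)) =
        (X.T ^ ((B.2 - c) * h)) ((X.T ^ (B.2 * m)) x) := by
      rw [← Equiv.Perm.mul_apply, ← Equiv.Perm.mul_apply, ← Equiv.Perm.mul_apply, ← zpow_add,
        ← zpow_add, ← zpow_add]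
      congr 2
      ring
    rw [e3, e4]
    ring

theorem vdcL1 {ι : Type} (M : Mean (ι × ℤ)) (hM : MInv M) (X : Sys)
    (A : (ι → X.S → ℂ) × ℤ) (L : List ((ι → X.S → ℂ) × ℤ)) (hL : LB (A :: L)) (g : X.S → ℂ)
    (hg : ∀ x, ‖g x‖ ≤ 1) :
    ‖M.E (fun z => X.μ.E (fun x => g x * corL X (A :: L) z.1 z.2 x))‖ ^ 2 ≤
      (cz.E (fun h => M.E (fun z => X.μ.E (fun x =>
        (g x * (starRingEnd ℂ) (g ((X.T ^ (-A.2 * h)) x))) *
          corL X (difL X L A.2 h) z.1 z.2 x)))).re := by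
  set c := A.2 with hc
  have hLL : LB L := fun B hB => hL B (List.mem_cons_of_mem _ hB)
  set U : ι → ℤ → X.S → ℂ := fun a m x =>
    g ((X.T ^ (-(c * m))) x) * corL X L a m ((X.T ^ (-(c * m))) x) with hU
  have hUb : ∀ a m x, ‖U a m x‖ ≤ 1 := by
    intro a m x
    simp only [hU]
    rw [norm_mul]
    exact mul_le_one₀ (hg _) (norm_nonneg _) (corL_norm X L hLL _ _ _)
  have h := vdcU M hM X A.1 (fun a x => hL A List.mem_cons_self a x) U hUb
  have e1 : ∀ z : ι × ℤ, X.μ.E (fun x => A.1 z.1 x * U z.1 z.2 x) =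
      X.μ.E (fun x => g x * corL X (A :: L) z.1 z.2 x) := by
    intro z
    have hb : Bd (fun x => A.1 z.1 x * U z.1 z.2 x) := by
      refine ⟨1, fun x => ?_⟩
      rw [norm_mul]
      exact mul_le_one₀ (hL A List.mem_cons_self _ _) (norm_nonneg _) (hUb _ _ _)
    rw [← X.inv_zpow (c * z.2) _ hb]
    congr 1
    funext x
    have e2 : (X.T ^ (-(c * z.2))) ((X.T ^ (c * z.2)) x) = x := by
      rw [← Equiv.Perm.mul_apply, ← zpow_add]
      simp
    have e3 : corL X (A :: L) z.1 z.2 x = A.1 z.1 ((X.T ^ (A.2 * z.2)) x) * corL X L z.1 z.2 x := by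
      simp [corL]
    simp only [hU]
    rw [e2, e3]
    ring
  have e2 : ∀ (h : ℤ) (z : ι × ℤ), X.μ.E (fun x => U z.1 z.2 x *
      (starRingEnd ℂ) (U z.1 (z.2 + h) x)) = X.μ.E (fun x =>
        (g x * (starRingEnd ℂ) (g ((X.T ^ (-A.2 * h)) x))) *
          corL X (difL X L A.2 h) z.1 z.2 x) := by
    intro h z
    have hb : Bd (fun x => U z.1 z.2 x * (starRingEnd ℂ) (U z.1 (z.2 + h) x)) := by
      refine ⟨1, fun x => ?_⟩
      rw [norm_mul, RCLike.norm_conj]
      exact mul_le_one₀ (hUb _ _ _) (norm_nonneg _) (hUb _ _ _)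
    rw [← X.inv_zpow (c * z.2) _ hb]
    congr 1
    funext x
    have e3 := shift_L X L c z.1 z.2 h x
    have e4 : (X.T ^ (-(c * z.2))) ((X.T ^ (c * z.2)) x) = x := by
      rw [← Equiv.Perm.mul_apply, ← zpow_add]
      simp
    have e5 : (X.T ^ (-(c * (z.2 + h)))) ((X.T ^ (c * z.2)) x) = (X.T ^ (-A.2 * h)) x := by
      rw [← Equiv.Perm.mul_apply, ← zpow_add]
      congr 2
      rw [← hc]
      ring
    simp only [hU]
    rw [← hc, ← e3, e4, map_mul, e5]
    ring
  simp only [e1, e2] at h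
  exact h

theorem vdcL {ι : Type} (M : Mean (ι × ℤ)) (hM : MInv M) (X : Sys)
    (L : List ((ι → X.S → ℂ) × ℤ)) (hne : L ≠ []) (hL : LB L) (g : X.S → ℂ)
    (hg : ∀ x, ‖g x‖ ≤ 1) :
    ‖M.E (fun z => X.μ.E (fun x => g x * corL X L z.1 z.2 x))‖ ^ (2 ^ L.length) ≤
      (box X (L.map (fun A => -A.2)) g).re := by
  have hmul : ∀ a b : ℂ, ‖a‖ ≤ 1 → ‖b‖ ≤ 1 → ‖a * (starRingEnd ℂ) b‖ ≤ 1 := fun a b ha hb => by
    rw [norm_mul, RCLike.norm_conj]
    exact mul_le_one₀ ha (norm_nonneg _) hb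
  generalize hn : L.length = n
  induction n generalizing L g with
  | zero =>
    exact absurd (List.length_eq_zero_iff.1 hn) hne
  | succ n ih =>
    obtain ⟨A, L', rfl⟩ : ∃ A L', L = A :: L' := by
      cases L with
      | nil => exact absurd rfl hne
      | cons A L' => exact ⟨A, L', rfl⟩
    have hLL : LB L' := fun B hB => hL B (List.mem_cons_of_mem _ hB)
    have h1 := vdcL1 M hM X A L' hL g hg
    have hn' : L'.length = n := by simpa using hn
    by_cases hL0 : L' = []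
    · subst hL0
      have hn0 : n = 0 := by simpa using hn'.symm
      subst hn0
      refine (le_of_eq ?_).trans (h1.trans (le_of_eq ?_))
      · norm_num
      · have e : (fun h : ℤ => M.E (fun z => X.μ.E (fun x =>
            (g x * (starRingEnd ℂ) (g ((X.T ^ (-A.2 * h)) x))) *
            corL X (difL X [] A.2 h) z.1 z.2 x))) =
            fun h : ℤ => X.μ.E (fun x => g x * (starRingEnd ℂ) (g ((X.T ^ (-A.2 * h)) x))) := by
          funext h
          have e1 : (fun z : ι × ℤ => X.μ.E (fun x =>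
            (g x * (starRingEnd ℂ) (g ((X.T ^ (-A.2 * h)) x))) *
            corL X (difL X [] A.2 h) z.1 z.2 x)) =
            fun _ => X.μ.E (fun x => g x * (starRingEnd ℂ) (g ((X.T ^ (-A.2 * h)) x))) := by
            funext z
            congr 1
            funext x
            simp [corL, difL]
          rw [e1, M.E_const]
        rw [e]
        rfl
    · set D : ℤ → ℂ := fun h => M.E (fun z => X.μ.E (fun x =>
        (g x * (starRingEnd ℂ) (g ((X.T ^ (-A.2 * h)) x))) *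
          corL X (difL X L' A.2 h) z.1 z.2 x)) with hD
      have hghb : ∀ (h : ℤ) x, ‖g x * (starRingEnd ℂ) (g ((X.T ^ (-A.2 * h)) x))‖ ≤ 1 :=
        fun h x => hmul _ _ (hg _) (hg _)
      have hDb : ∀ h, ‖D h‖ ≤ 1 := fun h => by
        refine M.norm_E_le _ fun z => X.μ.norm_E_le _ fun x => ?_
        rw [norm_mul]
        exact mul_le_one₀ (hghb h x) (norm_nonneg _)
          (corL_norm X _ (difL_LB X L' hLL _ _) _ _ _)
      have h2 : ‖M.E (fun z => X.μ.E (fun x => g x * corL X (A :: L') z.1 z.2 x))‖ ^ 2 ≤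
          cz.R (fun h => ‖D h‖) := by
        refine h1.trans ?_
        refine (Complex.re_le_norm _).trans ?_
        exact cz.norm_E_le_R_norm D ⟨1, hDb⟩
      have h3 := pow_mean cz (fun h => ‖D h‖) (fun h => norm_nonneg _) hDb n
      have h4 : ∀ h, ‖D h‖ ^ (2 ^ n) ≤ (box X (L'.map (fun A => -A.2))
          (fun x => g x * (starRingEnd ℂ) (g ((X.T ^ (-A.2 * h)) x)))).re := by
        intro h
        have h5 := ih (difL X L' A.2 h) (by
          intro h0
          apply hL0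
          rw [← List.length_eq_zero_iff, ← difL_length X L' A.2 h, h0]
          rfl) (difL_LB X L' hLL _ _)
          (fun x => g x * (starRingEnd ℂ) (g ((X.T ^ (-A.2 * h)) x))) (hghb h)
          (by rw [difL_length, hn'])
        rw [difL_snd] at h5
        exact h5
      have hbb : ∀ h, ‖box X (L'.map (fun A => -A.2))
          (fun x => g x * (starRingEnd ℂ) (g ((X.T ^ (-A.2 * h)) x)))‖ ≤ 1 :=
        fun h => box_bd X _ _ (hghb h)
      have h5 : cz.R (fun h => ‖D h‖ ^ (2 ^ n)) ≤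
          cz.R (fun h => (box X (L'.map (fun A => -A.2))
            (fun x => g x * (starRingEnd ℂ) (g ((X.T ^ (-A.2 * h)) x)))).re) := by
        refine cz.R_mono _ _ h4 (C := 1) (fun h => ?_) (fun h => ?_)
        · rw [abs_of_nonneg (pow_nonneg (norm_nonneg _) _)]
          exact pow_le_one₀ (norm_nonneg _) (hDb h)
        · exact (Complex.abs_re_le_norm _).trans (hbb h)
      have h6 : cz.R (fun h => (box X (L'.map (fun A => -A.2))
            (fun x => g x * (starRingEnd ℂ) (g ((X.T ^ (-A.2 * h)) x)))).re) =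
          (box X ((A :: L').map (fun A => -A.2)) g).re := by
        rw [← cz.re_E _ ⟨1, hbb⟩]
        rfl
      have e : ‖M.E (fun z => X.μ.E (fun x => g x * corL X (A :: L') z.1 z.2 x))‖ ^ (2 ^ (n + 1)) =
          (‖M.E (fun z => X.μ.E (fun x => g x * corL X (A :: L') z.1 z.2 x))‖ ^ 2) ^ (2 ^ n) := by
        rw [← pow_mul, ← pow_succ']
      rw [e, ← h6]
      refine le_trans ?_ (h3.trans h5)
      exact pow_le_pow_left₀ (sq_nonneg _) h2 _

end DG.BLP
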