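import Mathlib

/-!
# Project DIAG (MP_e0aac0_nt), part A: finitely additive means and systems

`Mean S` is a complex linear functional on ALL functions `S → ℂ` which is positive on bounded
functions and maps `1` to `1`. A system is a set with a bijection and an invariant mean.
-/

set_option autoImplicit false

namespace DG

open Finset Filter Topology

/-- bounded functions -/
def Bd {S : Type*} (f : S → ℂ) : Prop := ∃ C : ℝ, ∀ x, ‖f x‖ ≤ C

/-- A finitely additive mean, extended linearly to all functions. -/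
structure Mean (S : Type*) where
  E : (S → ℂ) →ₗ[ℂ] ℂ
  one : E (fun _ => 1) = 1
  nonneg : ∀ f : S → ℝ, (∀ x, 0 ≤ f x) → (∃ C, ∀ x, f x ≤ C) →
    0 ≤ (E (fun x => (f x : ℂ))).re ∧ (E (fun x => (f x : ℂ))).im = 0

section Bd

variable {S : Type*} {f g : S → ℂ}

theorem Bd.of_le {C : ℝ} (h : ∀ x, ‖f x‖ ≤ C) : Bd f := ⟨C, h⟩

theorem Bd.add (hf : Bd f) (hg : Bd g) : Bd (fun x => f x + g x) := by
  obtain ⟨C, hC⟩ := hf
  obtain ⟨D, hD⟩ := hg
  exact ⟨C + D, fun x => (norm_add_le _ _).trans (add_le_add (hC x) (hD x))⟩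

theorem Bd.sub (hf : Bd f) (hg : Bd g) : Bd (fun x => f x - g x) := by
  obtain ⟨C, hC⟩ := hf
  obtain ⟨D, hD⟩ := hg
  exact ⟨C + D, fun x => (norm_sub_le _ _).trans (add_le_add (hC x) (hD x))⟩

theorem Bd.mul (hf : Bd f) (hg : Bd g) : Bd (fun x => f x * g x) := by
  obtain ⟨C, hC⟩ := hf
  obtain ⟨D, hD⟩ := hg
  refine ⟨C * D, fun x => ?_⟩
  rw [norm_mul]
  exact mul_le_mul (hC x) (hD x) (norm_nonneg _) ((norm_nonneg _).trans (hC x))

theorem Bd.conj (hf : Bd f) : Bd (fun x => (starRingEnd ℂ) (f x)) := by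
  obtain ⟨C, hC⟩ := hf
  exact ⟨C, fun x => by rw [RCLike.norm_conj]; exact hC x⟩

theorem Bd.comp {S' : Type*} (hf : Bd f) (T : S' → S) : Bd (fun x => f (T x)) := by
  obtain ⟨C, hC⟩ := hf
  exact ⟨C, fun x => hC _⟩

theorem Bd.const (c : ℂ) : Bd (fun _ : S => c) := ⟨‖c‖, fun _ => le_rfl⟩

theorem Bd.const_mul (hf : Bd f) (c : ℂ) : Bd (fun x => c * f x) := (Bd.const c).mul hf

theorem Bd.sum {ι : Type*} (s : Finset ι) (F : ι → S → ℂ) (h : ∀ i ∈ s, Bd (F i)) :
    Bd (fun x => ∑ i ∈ s, F i x) := by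
  classical
  induction s using Finset.induction_on with
  | empty => simpa using Bd.const (S := S) 0
  | insert a s ha ih =>
    simp only [Finset.sum_insert ha]
    exact (h a (mem_insert_self _ _)).add (ih fun i hi => h i (mem_insert_of_mem hi))

theorem Bd.prod {ι : Type*} (s : Finset ι) (F : ι → S → ℂ) (h : ∀ i ∈ s, Bd (F i)) :
    Bd (fun x => ∏ i ∈ s, F i x) := by
  classical
  induction s using Finset.induction_on with
  | empty => simpa using Bd.const (S := S) 1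
  | insert a s ha ih =>
    simp only [Finset.prod_insert ha]
    exact (h a (mem_insert_self _ _)).mul (ih fun i hi => h i (mem_insert_of_mem hi))

theorem Bd.ofReal_of_bdd {u : S → ℝ} {C : ℝ} (h : ∀ x, |u x| ≤ C) : Bd (fun x => (u x : ℂ)) :=
  ⟨C, fun x => by rw [Complex.norm_real]; exact h x⟩

theorem prod_norm_le_one {ι : Type*} (s : Finset ι) (F : ι → ℂ) (h : ∀ i ∈ s, ‖F i‖ ≤ 1) :
    ‖∏ i ∈ s, F i‖ ≤ 1 := by
  rw [norm_prod]
  exact Finset.prod_le_one (fun i _ => norm_nonneg _) h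

end Bd

namespace Mean

variable {S : Type*} (μ : Mean S)

theorem E_add (f g : S → ℂ) : μ.E (fun x => f x + g x) = μ.E f + μ.E g := μ.E.map_add f g

theorem E_sub (f g : S → ℂ) : μ.E (fun x => f x - g x) = μ.E f - μ.E g := μ.E.map_sub f g

theorem E_neg (f : S → ℂ) : μ.E (fun x => - f x) = - μ.E f := μ.E.map_neg f

theorem E_const_mul (c : ℂ) (f : S → ℂ) : μ.E (fun x => c * f x) = c * μ.E f :=
  μ.E.map_smul c f

theorem E_mul_const (c : ℂ) (f : S → ℂ) : μ.E (fun x => f x * c) = μ.E f * c := by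
  simp only [mul_comm _ c]
  exact μ.E_const_mul c f

theorem E_const (c : ℂ) : μ.E (fun _ => c) = c := by
  have h := μ.E_const_mul c (fun _ => 1)
  rw [μ.one, mul_one] at h
  simpa using h

theorem E_sum {ι : Type*} (s : Finset ι) (F : ι → S → ℂ) :
    μ.E (fun x => ∑ i ∈ s, F i x) = ∑ i ∈ s, μ.E (F i) := by
  rw [← map_sum]
  congr 1
  funext x
  simp

/-- the mean of a bounded real function is real -/
theorem E_real_im (u : S → ℝ) {C : ℝ} (h : ∀ x, |u x| ≤ C) :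
    (μ.E (fun x => (u x : ℂ))).im = 0 := by
  have h1 := (μ.nonneg (fun x => u x + C) (fun x => by have := abs_le.1 (h x); linarith)
    ⟨C + C, fun x => by have := abs_le.1 (h x); linarith⟩).2
  have h2 : μ.E (fun x => ((u x + C : ℝ) : ℂ)) = μ.E (fun x => (u x : ℂ)) + C := by
    have : (fun x => ((u x + C : ℝ) : ℂ)) = fun x => (u x : ℂ) + (C : ℂ) := by
      funext x
      push_cast
      ring
    rw [this, μ.E_add, μ.E_const]
  rw [h2, Complex.add_im, Complex.ofReal_im, add_zero] at h1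
  exact h1

theorem E_real (u : S → ℝ) {C : ℝ} (h : ∀ x, |u x| ≤ C) :
    μ.E (fun x => (u x : ℂ)) = ((μ.E (fun x => (u x : ℂ))).re : ℂ) := by
  apply Complex.ext
  · simp
  · simp [μ.E_real_im u h]

/-- The real part of the mean of a real function. -/
noncomputable def R (u : S → ℝ) : ℝ := (μ.E (fun x => (u x : ℂ))).re

theorem E_ofReal (u : S → ℝ) {C : ℝ} (h : ∀ x, |u x| ≤ C) :
    μ.E (fun x => (u x : ℂ)) = (μ.R u : ℂ) := μ.E_real u h

theorem R_nonneg (u : S → ℝ) (h0 : ∀ x, 0 ≤ u x) {C : ℝ} (hC : ∀ x, u x ≤ C) : 0 ≤ μ.R u :=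
  (μ.nonneg u h0 ⟨C, hC⟩).1

theorem R_add (u v : S → ℝ) : μ.R (fun x => u x + v x) = μ.R u + μ.R v := by
  unfold R
  rw [← Complex.add_re, ← μ.E_add]
  simp

theorem R_sub (u v : S → ℝ) : μ.R (fun x => u x - v x) = μ.R u - μ.R v := by
  unfold R
  rw [← Complex.sub_re, ← μ.E_sub]
  simp

theorem R_const_mul (c : ℝ) (u : S → ℝ) : μ.R (fun x => c * u x) = c * μ.R u := by
  unfold R
  have : (fun x => ((c * u x : ℝ) : ℂ)) = fun x => (c : ℂ) * (u x : ℂ) := by
    funext x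
    push_cast
    ring
  rw [this, μ.E_const_mul, Complex.re_ofReal_mul]

theorem R_const (c : ℝ) : μ.R (fun _ => c) = c := by
  unfold R
  rw [μ.E_const]
  simp

theorem R_sum {ι : Type*} (s : Finset ι) (F : ι → S → ℝ) :
    μ.R (fun x => ∑ i ∈ s, F i x) = ∑ i ∈ s, μ.R (F i) := by
  unfold R
  have : (fun x => ((∑ i ∈ s, F i x : ℝ) : ℂ)) = fun x => ∑ i ∈ s, ((F i x : ℝ) : ℂ) := by
    funext x
    push_cast
    rfl
  rw [this, μ.E_sum, Complex.re_sum]

theorem R_mono (u v : S → ℝ) (h : ∀ x, u x ≤ v x) {C : ℝ} (hu : ∀ x, |u x| ≤ C)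
    (hv : ∀ x, |v x| ≤ C) : μ.R u ≤ μ.R v := by
  have h1 := μ.R_nonneg (fun x => v x - u x) (fun x => sub_nonneg.2 (h x)) (C := C + C)
    (fun x => by
      have h1 := abs_le.1 (hu x)
      have h2 := abs_le.1 (hv x)
      linarith)
  rw [μ.R_sub] at h1
  linarith

theorem R_le_of_le (u : S → ℝ) {c : ℝ} (h : ∀ x, u x ≤ c) {C : ℝ} (hu : ∀ x, |u x| ≤ C) :
    μ.R u ≤ c := by
  have h1 := μ.R_mono u (fun _ => c) h (C := max C |c|) (fun x => (hu x).trans (le_max_left _ _))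
    (fun _ => le_max_right _ _)
  rwa [μ.R_const] at h1

theorem le_R_of_le (u : S → ℝ) {c : ℝ} (h : ∀ x, c ≤ u x) {C : ℝ} (hu : ∀ x, |u x| ≤ C) :
    c ≤ μ.R u := by
  have h1 := μ.R_mono (fun _ => c) u h (C := max C |c|) (fun _ => le_max_right _ _)
    (fun x => (hu x).trans (le_max_left _ _))
  rwa [μ.R_const] at h1

theorem E_re_im (f : S → ℂ) : μ.E f = μ.E (fun x => ((f x).re : ℂ)) +
    Complex.I * μ.E (fun x => ((f x).im : ℂ)) := by
  rw [← μ.E_const_mul, ← μ.E_add]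
  congr 1
  funext x
  rw [mul_comm, Complex.re_add_im]

/-- the mean of the real part -/
theorem re_E (f : S → ℂ) (hf : Bd f) : (μ.E f).re = μ.R (fun x => (f x).re) := by
  obtain ⟨C, hC⟩ := hf
  rw [μ.E_re_im f, Complex.add_re, Complex.I_mul_re,
    μ.E_real_im (fun x => (f x).im) (fun x => (Complex.abs_im_le_norm _).trans (hC x))]
  simp [R]

theorem im_E (f : S → ℂ) (hf : Bd f) : (μ.E f).im = μ.R (fun x => (f x).im) := by
  obtain ⟨C, hC⟩ := hf
  rw [μ.E_re_im f, Complex.add_im, Complex.I_mul_im,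
    μ.E_real_im (fun x => (f x).re) (fun x => (Complex.abs_re_le_norm _).trans (hC x))]
  simp [R]

theorem E_conj (f : S → ℂ) (hf : Bd f) :
    μ.E (fun x => (starRingEnd ℂ) (f x)) = (starRingEnd ℂ) (μ.E f) := by
  apply Complex.ext
  · rw [μ.re_E _ hf.conj, Complex.conj_re, μ.re_E _ hf]
    simp
  · rw [μ.im_E _ hf.conj, Complex.conj_im, μ.im_E _ hf]
    unfold R
    have : (fun x => ((((starRingEnd ℂ) (f x)).im : ℝ) : ℂ)) = fun x => -(((f x).im : ℝ) : ℂ) := by
      funext x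
      simp
    rw [this, μ.E_neg, Complex.neg_re]

/-- `|E f| ≤ E |f|` -/
theorem norm_E_le_R_norm (f : S → ℂ) (hf : Bd f) : ‖μ.E f‖ ≤ μ.R (fun x => ‖f x‖) := by
  obtain ⟨C, hC⟩ := hf
  have hnn : ∀ x, |‖f x‖| ≤ C := fun x => by rw [abs_of_nonneg (norm_nonneg _)]; exact hC x
  by_cases h0 : μ.E f = 0
  · rw [h0, norm_zero]
    exact μ.R_nonneg _ (fun x => norm_nonneg _) hC
  · set c : ℂ := (starRingEnd ℂ) (μ.E f) / ‖μ.E f‖ with hc
    have hn : (‖μ.E f‖ : ℂ) ≠ 0 := by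
      exact_mod_cast norm_ne_zero_iff.2 h0
    have h1 : μ.E (fun x => c * f x) = (‖μ.E f‖ : ℂ) := by
      rw [μ.E_const_mul, hc, div_mul_eq_mul_div, ← Complex.normSq_eq_conj_mul_self,
        Complex.normSq_eq_norm_sq]
      push_cast
      field_simp
    have hcn : ‖c‖ = 1 := by
      rw [hc, norm_div, RCLike.norm_conj, Complex.norm_real, norm_norm]
      exact div_self (norm_ne_zero_iff.2 h0)
    have hbd : Bd (fun x => c * f x) := Bd.const_mul ⟨C, hC⟩ c
    have h2 : ‖μ.E f‖ = μ.R (fun x => (c * f x).re) := by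
      rw [← μ.re_E _ hbd, h1, Complex.ofReal_re]
    rw [h2]
    refine μ.R_mono _ _ (fun x => ?_) (C := C) (fun x => ?_) hnn
    · refine (Complex.re_le_norm _).trans ?_
      rw [norm_mul, hcn, one_mul]
    · refine (Complex.abs_re_le_norm _).trans ?_
      rw [norm_mul, hcn, one_mul]
      exact hC x

theorem norm_E_le (f : S → ℂ) {C : ℝ} (h : ∀ x, ‖f x‖ ≤ C) : ‖μ.E f‖ ≤ C :=
  (μ.norm_E_le_R_norm f ⟨C, h⟩).trans
    (μ.R_le_of_le _ h (C := C) (fun x => by rw [abs_of_nonneg (norm_nonneg _)]; exact h x))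

/-- the square of the `L²` seminorm -/
noncomputable def N2 (f : S → ℂ) : ℝ := μ.R (fun x => ‖f x‖ ^ 2)

theorem sq_bdd {f : S → ℂ} {C : ℝ} (h : ∀ x, ‖f x‖ ≤ C) (x : S) : |‖f x‖ ^ 2| ≤ C ^ 2 := by
  rw [abs_of_nonneg (by positivity)]
  exact pow_le_pow_left₀ (norm_nonneg _) (h x) 2

theorem N2_nonneg (f : S → ℂ) (hf : Bd f) : 0 ≤ μ.N2 f := by
  obtain ⟨C, hC⟩ := hf
  exact μ.R_nonneg _ (fun x => by positivity) (fun x => (le_abs_self _).trans (sq_bdd hC x))

theorem N2_le (f : S → ℂ) {C : ℝ} (h : ∀ x, ‖f x‖ ≤ C) : μ.N2 f ≤ C ^ 2 :=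
  μ.R_le_of_le _ (fun x => (le_abs_self _).trans (sq_bdd h x)) (fun x => sq_bdd h x)

theorem N2_eq (f : S → ℂ) (hf : Bd f) :
    μ.E (fun x => f x * (starRingEnd ℂ) (f x)) = (μ.N2 f : ℂ) := by
  obtain ⟨C, hC⟩ := hf
  have : (fun x => f x * (starRingEnd ℂ) (f x)) = fun x => ((‖f x‖ ^ 2 : ℝ) : ℂ) := by
    funext x
    rw [Complex.mul_conj, Complex.normSq_eq_norm_sq]
  rw [this]
  exact μ.E_ofReal _ (fun x => sq_bdd hC x)

/-- Cauchy-Schwarz -/
theorem cs (f g : S → ℂ) (hf : Bd f) (hg : Bd g) :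
    ‖μ.E (fun x => f x * g x)‖ ^ 2 ≤ μ.N2 f * μ.N2 g := by
  obtain ⟨C, hC⟩ := hf
  obtain ⟨D, hD⟩ := hg
  have hf : Bd f := ⟨C, hC⟩
  have hg : Bd g := ⟨D, hD⟩
  have hfg : Bd (fun x => f x * g x) := hf.mul hg
  set z := ‖μ.E (fun x => f x * g x)‖ with hz
  have hz0 : 0 ≤ z := norm_nonneg _
  have h1 : z ≤ μ.R (fun x => ‖f x‖ * ‖g x‖) := by
    have := μ.norm_E_le_R_norm _ hfg
    simpa only [norm_mul] using this
  have hA := μ.N2_nonneg f hf
  have hB := μ.N2_nonneg g hg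
  -- for all `t`: `2 t z ≤ A + t² B` and `2 t z ≤ t² A + B`
  have key : ∀ s t : ℝ, 0 ≤ s → 0 ≤ t → 2 * (s * t) * z ≤ s ^ 2 * μ.N2 f + t ^ 2 * μ.N2 g := by
    intro s t hs ht
    have h2 : 2 * (s * t) * μ.R (fun x => ‖f x‖ * ‖g x‖) ≤
        s ^ 2 * μ.N2 f + t ^ 2 * μ.N2 g := by
      rw [N2, N2, ← μ.R_const_mul, ← μ.R_const_mul, ← μ.R_const_mul, ← μ.R_add]
      refine μ.R_mono _ _ (fun x => ?_)
        (C := max (2 * (s * t) * (C * D)) (s ^ 2 * C ^ 2 + t ^ 2 * D ^ 2)) (fun x => ?_)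
        (fun x => ?_)
      · nlinarith [sq_nonneg (s * ‖f x‖ - t * ‖g x‖)]
      · refine le_trans ?_ (le_max_left _ _)
        rw [abs_of_nonneg (by positivity)]
        exact mul_le_mul_of_nonneg_left (mul_le_mul (hC x) (hD x) (norm_nonneg _)
          ((norm_nonneg _).trans (hC x))) (by positivity)
      · refine le_trans ?_ (le_max_right _ _)
        rw [abs_of_nonneg (by positivity)]
        exact add_le_add
          (mul_le_mul_of_nonneg_left (pow_le_pow_left₀ (norm_nonneg _) (hC x) 2) (by positivity))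
          (mul_le_mul_of_nonneg_left (pow_le_pow_left₀ (norm_nonneg _) (hD x) 2) (by positivity))
    exact (mul_le_mul_of_nonneg_left h1 (by positivity)).trans h2
  -- discriminant argument
  rcases eq_or_lt_of_le hA with hA0 | hA0
  · -- `N2 f = 0`
    rcases eq_or_lt_of_le hz0 with hz1 | hz1
    · rw [← hz1]
      simp only [ne_eq, OfNat.ofNat_ne_zero, not_false_eq_true, zero_pow]
      positivity
    · exfalso
      have h3 := key ((μ.N2 g + 1) / z) 1 (by positivity) zero_le_one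
      rw [← hA0] at h3
      have h4 : 2 * ((μ.N2 g + 1) / z * 1) * z = 2 * (μ.N2 g + 1) := by
        field_simp
      rw [h4] at h3
      linarith
  · have h3 := key z (μ.N2 f) hz0 hA
    have h4 : z ^ 2 * μ.N2 f ≤ μ.N2 f ^ 2 * μ.N2 g := by nlinarith
    have h5 : μ.N2 f * z ^ 2 ≤ μ.N2 f * (μ.N2 f * μ.N2 g) := by nlinarith
    exact le_of_mul_le_mul_left h5 hA0

/-- Cauchy-Schwarz with the constant function: `|E f|² ≤ E |f|²` -/
theorem sq_norm_E_le (f : S → ℂ) (hf : Bd f) : ‖μ.E f‖ ^ 2 ≤ μ.N2 f := by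
  have h := μ.cs f (fun _ => 1) hf (Bd.const 1)
  have h1 : μ.N2 (fun _ : S => (1 : ℂ)) = 1 := by
    unfold N2
    simp only [norm_one, one_pow]
    exact μ.R_const 1
  rw [h1, mul_one] at h
  simpa using h

/-- Cauchy-Schwarz, eliminating a factor bounded by `1` -/
theorem cs_one (f g : S → ℂ) (hf : ∀ x, ‖f x‖ ≤ 1) (hg : Bd g) :
    ‖μ.E (fun x => f x * g x)‖ ^ 2 ≤ μ.N2 g := by
  have h := μ.cs f g ⟨1, hf⟩ hg
  have h1 : μ.N2 f ≤ 1 := by simpa using μ.N2_le f hf
  have h2 := μ.N2_nonneg g hg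
  nlinarith

/-- The product mean (iterated: first the second variable). -/
noncomputable def prod {S' : Type*} (ν : Mean S') : Mean (S × S') where
  E :=
    { toFun := fun F => μ.E (fun x => ν.E (fun y => F (x, y)))
      map_add' := by
        intro F G
        have : (fun x => ν.E (fun y => (F + G) (x, y))) =
            fun x => ν.E (fun y => F (x, y)) + ν.E (fun y => G (x, y)) := by
          funext x
          exact ν.E_add _ _
        rw [this]
        exact μ.E_add _ _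
      map_smul' := by
        intro c F
        have : (fun x => ν.E (fun y => (c • F) (x, y))) =
            fun x => c * ν.E (fun y => F (x, y)) := by
          funext x
          exact ν.E_const_mul c _
        rw [this]
        exact μ.E_const_mul c _ }
  one := by
    show μ.E (fun _ => ν.E (fun _ => 1)) = 1
    rw [ν.one]
    exact μ.one
  nonneg := by
    intro f h0 hC
    obtain ⟨C, hC⟩ := hC
    have hab : ∀ p, |f p| ≤ C := fun p => by rw [abs_of_nonneg (h0 p)]; exact hC p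
    have h1 : (fun x => ν.E (fun y => (f (x, y) : ℂ))) =
        fun x => ((ν.R (fun y => f (x, y)) : ℝ) : ℂ) := by
      funext x
      exact ν.E_ofReal (fun y => f (x, y)) (fun y => hab (x, y))
    show 0 ≤ (μ.E (fun x => ν.E (fun y => (f (x, y) : ℂ)))).re ∧
      (μ.E (fun x => ν.E (fun y => (f (x, y) : ℂ)))).im = 0
    rw [h1]
    exact μ.nonneg _ (fun x => ν.R_nonneg _ (fun y => h0 _) (fun y => hC _))
      ⟨C, fun x => ν.R_le_of_le _ (fun y => hC _) (fun y => hab (x, y))⟩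

theorem prod_E {S' : Type*} (ν : Mean S') (F : S × S' → ℂ) :
    (μ.prod ν).E F = μ.E (fun x => ν.E (fun y => F (x, y))) := rfl

/-- The mean over a finite nonempty set of points, with nonnegative weights of positive sum. -/
noncomputable def fin {ι : Type*} (s : Finset ι) (w : ι → ℝ) (p : ι → S) (hw : ∀ i ∈ s, 0 ≤ w i)
    (hs : 0 < ∑ i ∈ s, w i) : Mean S where
  E :=
    { toFun := fun F => (∑ i ∈ s, (w i : ℂ) * F (p i)) / ((∑ i ∈ s, w i : ℝ) : ℂ)
      map_add' := by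
        intro F G
        rw [← add_div, ← Finset.sum_add_distrib]
        congr 1
        refine Finset.sum_congr rfl fun i _ => ?_
        simp only [Pi.add_apply]
        ring
      map_smul' := by
        intro c F
        simp only [Pi.smul_apply, smul_eq_mul, RingHom.id_apply]
        rw [← mul_div_assoc, Finset.mul_sum]
        congr 1
        refine Finset.sum_congr rfl fun i _ => ?_
        ring }
  one := by
    show (∑ i ∈ s, (w i : ℂ) * 1) / ((∑ i ∈ s, w i : ℝ) : ℂ) = 1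
    simp only [mul_one]
    rw [Complex.ofReal_sum]
    apply div_self
    rw [← Complex.ofReal_sum]
    exact_mod_cast hs.ne'
  nonneg := by
    intro f h0 _
    show 0 ≤ ((∑ i ∈ s, (w i : ℂ) * (f (p i) : ℂ)) / ((∑ i ∈ s, w i : ℝ) : ℂ)).re ∧
      ((∑ i ∈ s, (w i : ℂ) * (f (p i) : ℂ)) / ((∑ i ∈ s, w i : ℝ) : ℂ)).im = 0
    have h1 : (∑ i ∈ s, (w i : ℂ) * (f (p i) : ℂ)) / ((∑ i ∈ s, w i : ℝ) : ℂ) =
        (((∑ i ∈ s, w i * f (p i)) / ∑ i ∈ s, w i : ℝ) : ℂ) := by
      push_cast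
      rfl
    rw [h1, Complex.ofReal_re, Complex.ofReal_im]
    exact ⟨div_nonneg (Finset.sum_nonneg fun i hi => mul_nonneg (hw i hi) (h0 _)) hs.le, rfl⟩

theorem fin_E {ι : Type*} (s : Finset ι) (w : ι → ℝ) (p : ι → S) (hw : ∀ i ∈ s, 0 ≤ w i)
    (hs : 0 < ∑ i ∈ s, w i) (F : S → ℂ) :
    (Mean.fin s w p hw hs).E F = (∑ i ∈ s, (w i : ℂ) * F (p i)) / ((∑ i ∈ s, w i : ℝ) : ℂ) := rfl

end Mean

end DG
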