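import Pool.Agent.Helper6.DG.E0
import Pool.Agent.Helper6.DG.A1Defs

/-!
# Project DIAG, second theorem (NR): slowly varying functions at the ends of the pattern
are independent of everything else. Definitions.
-/

set_option autoImplicit false

namespace DG

open Finset Filter Topology

/-- Slowly varying weights. -/
def SlowW (B : ℝ) (c : ℕ → ℕ → ℝ) : Prop :=
  (∀ j M, |c j M| ≤ 1) ∧ ∀ j M M' : ℕ, 1 ≤ M' → M' ≤ M → |c j M - c j M'| ≤ B * ((M : ℝ) - M') / M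

/-- The weight `c` at the scale `M / 2^e`. -/
noncomputable def wtc (c : ℕ → ℕ → ℝ) (e : ℕ) (s : ℕ × ℕ × ℤ) : ℂ :=
  ((c s.1 (s.2.1 / 2 ^ e) : ℝ) : ℂ)

/-- The pattern `∏_{i ≤ k} f j i (Ω(n + i a) + r)`. -/
noncomputable def patf (f : ℕ → ℕ → ℕ → ℝ) (r k : ℕ) (a : ℤ) (s : ℕ × ℕ × ℤ) : ℂ :=
  ∏ i ∈ range (k + 1), ((f s.1 i (OmZ (s.2.2 + (i : ℤ) * a) + r) : ℝ) : ℂ)

/-- Replace the function with index `i₀` by `1`. -/
noncomputable def set1 (f : ℕ → ℕ → ℝ) (i₀ : ℕ) (i x : ℕ) : ℝ := if i = i₀ then 1 else f i x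

/-- `E_{n ≤ M} ∏_{i ≤ k} f i (Ω(n + i))` -/
noncomputable def Pr (k M : ℕ) (f : ℕ → ℕ → ℝ) : ℝ :=
  (1 / (M : ℝ)) * ∑ n ∈ Icc 1 M, ∏ i ∈ range (k + 1), f i (ArithmeticFunction.cardFactors (n + i))

/-- `E_{n ≤ M} ψ (Ω(n))` -/
noncomputable def Mn (M : ℕ) (ψ : ℕ → ℝ) : ℝ :=
  (1 / (M : ℝ)) * ∑ n ∈ Icc 1 M, ψ (ArithmeticFunction.cardFactors n)

/-- One end, product functions. -/
def EndSt (k i₀ : ℕ) : Prop := ∀ ε : ℝ, 0 < ε → ∃ δ : ℝ, 0 < δ ∧ ∃ K0 N0 : ℕ, ∀ N K : ℕ,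
  N0 ≤ N → K0 ≤ K → K ≤ N → ∀ f : ℕ → ℕ → ℝ, (∀ i x, 0 ≤ f i x ∧ f i x ≤ 1) →
    (∀ x, |f i₀ (x + 1) - f i₀ x| ≤ δ) →
    ∑ M ∈ Ioc (N / K) N, (1 / (M : ℝ)) *
      |Pr k M f - Mn M (f i₀) * Pr k M (set1 f i₀)| ≤ ε * Real.log K

/-- `F` changes by at most `δ` when a coordinate outside `[a, b]` is increased by `1`. -/
def SlowOut (k a b : ℕ) (δ : ℝ) (F : (Fin k → ℕ) → ℝ) : Prop :=
  ∀ (l : Fin k → ℕ) (i : Fin k), (i.1 < a ∨ b < i.1) →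
    |F (Function.update l i (l i + 1)) - F l| ≤ δ

/-- The mean in which the coordinates in `[a, b]` are `Ω(n + i)` with a common `n` and the other
coordinates are independent copies. -/
noncomputable def Mx (k a b M : ℕ) (F : (Fin k → ℕ) → ℝ) : ℝ :=
  1 / (M : ℝ) * ∑ n ∈ Icc 1 M, (1 / (M : ℝ) ^ k * ∑ m ∈ Fintype.piFinset (fun _ : Fin k => Icc 1 M),
    F (fun i => if a ≤ i.1 ∧ i.1 ≤ b then ArithmeticFunction.cardFactors (n + i)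
      else ArithmeticFunction.cardFactors (m i)))

/-- An interval of coordinates, all functions. -/
def IntSt (k a b : ℕ) : Prop := ∀ ε : ℝ, 0 < ε → ∃ δ : ℝ, 0 < δ ∧ ∃ K0 N0 : ℕ, ∀ N K : ℕ,
  N0 ≤ N → K0 ≤ K → K ≤ N → ∀ F : (Fin k → ℕ) → ℝ, (∀ l, |F l| ≤ 1) → SlowOut k a b δ F →
    ∑ M ∈ Ioc (N / K) N, (1 / (M : ℝ)) * |Ec k M F - Mx k a b M F| ≤ ε * Real.log K

/-- The reversed system. -/
noncomputable def revS (X : Sys) : Sys where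
  S := X.S
  T := X.T⁻¹
  μ := X.μ
  inv := by
    intro f hf
    have h := X.inv_zpow (-1) f hf
    simpa using h

/-- The centred function at the end. -/
noncomputable def gfun (ψ : ℕ → ℕ → ℝ) (m : ℕ → ℕ → ℝ) (s : ℕ × ℕ × ℤ) : ℂ :=
  ((ψ s.1 (OmZ s.2.2) - m s.1 s.2.1 : ℝ) : ℂ)

/-- All correlations of `g` at distinct shifts vanish. -/
def Cen (X : Sys) (g : X.S → ℂ) : Prop :=
  ∀ s : Finset ℤ, s.Nonempty → X.μ.E (fun x => ∏ a ∈ s, g ((X.T ^ a) x)) = 0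

end DG
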