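import Pool.Agent.Helper6.DG.N0
import Pool.Agent.Helper6.DG.E5Chain

/-!
# DG-N1: the chain of two primes for general slowly varying weights and general functions

PROOF. Copy of `cwt_close` (E2Slow), `step_one` (E3Step), `chain_one`, `chain_two` (E5Chain) with
`cwt A k e` replaced by `wtc c e`, `c` slowly varying with constant `B ≥ 0`, and `ind A r i` by
`f j i (Ω + r)`; the private lemmas of E5Chain (`avP_close`, `avP_step`, ...) may be copied.
* `wtc_close`: for `2^l ≤ p ≤ 2^l + 2^l / D` and large `M` (with `x = M / 2^(e+l)`,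
 `y = M / p / 2^e`): `|c j y - c j x| ≤ B (x - y) / x ≤ (B + 1) / D`, since `x - y ≤ (x+1)/D + 1` and
 `x → ∞`.
* `chain_gen` (values `0, 1`): `Ent` needs functions with values `0, 1`: `f i s = f j i (OmZ n + r)`.
* `chain_gen01` (values in `[0, 1]`): for `R ≥ 1` put `f^t j i x = 1` if `t i / R ≤ f j i x`, else `0`, for
 `t : range (k+1) → {1..R}`; `|f - (1/R) ∑_{t=1}^R 1[t/R ≤ f]| ≤ 1/R`, so `patf f` differs from
 `R^(-(k+1)) ∑_t patf f^t` by at most `(k+1)/R` in sup norm (product of numbers in `[0,1]`;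
 `Finset.prod_univ_sum`-type expansion, or replace one index at a time: induction on the number of
 indices `i < i₁` whose function has values in `[0,1]`, each step is an average over `t ≤ R`).
 Apply `chain_gen` with `ε/2` to the finitely many `f^t` (finite intersection of eventualities,
 `Filter.eventually_all_finset`) and choose `R` with `2 (k+1)/R ≤ ε/2`. Both sides are linear in the
 pattern, weights and averages are bounded by `1`.
-/

set_option autoImplicit false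

namespace DG

open Finset Filter Topology

theorem wtc_close (B : ℝ) (hB : 0 ≤ B) (c : ℕ → ℕ → ℝ) (hc : SlowW B c) (e l D p : ℕ) (hD : 1 ≤ D)
    (hp1 : 2 ^ l ≤ p) (hp2 : p ≤ 2 ^ l + 2 ^ l / D) : ∃ M0 : ℕ, ∀ j M : ℕ, M0 ≤ M →
      |c j (M / p / 2 ^ e) - c j (M / 2 ^ (e + l))| ≤ (B + 1) / D := by
  refine ⟨2 ^ (e + l) * (16 * D + 2 * (⌈B⌉₊ * D)), fun j M hM => ?_⟩
  have hP : 0 < 2 ^ l := by positivity
  have hE : 0 < 2 ^ e := by positivity
  have hQ : 0 < 2 ^ (e + l) := by positivity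
  have hQe : 2 ^ (e + l) = 2 ^ l * 2 ^ e := by rw [pow_add, mul_comm]
  have hp : 0 < p := lt_of_lt_of_le hP hp1
  have hdd : M / p / 2 ^ e = M / (p * 2 ^ e) := Nat.div_div_eq_div_mul _ _ _
  set x := M / 2 ^ (e + l) with hx
  set y := M / p / 2 ^ e with hy
  have hyx : y ≤ x := by
    rw [hdd, hx, hQe]
    exact Nat.div_le_div_left (Nat.mul_le_mul_right _ hp1) (by positivity)
  have hx16 : 16 * D + 2 * (⌈B⌉₊ * D) ≤ x := by
    rw [hx, Nat.le_div_iff_mul_le hQ]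
    rw [mul_comm]
    exact hM
  have hDle : 2 ^ l / D ≤ 2 ^ l := Nat.div_le_self _ _
  have hp2' : p * 2 ^ e ≤ 2 * 2 ^ (e + l) := by
    calc p * 2 ^ e ≤ (2 * 2 ^ l) * 2 ^ e := Nat.mul_le_mul_right _ (by omega)
      _ = 2 * 2 ^ (e + l) := by rw [hQe]; ring
  have hy1 : 1 ≤ y := by
    rw [hdd, Nat.le_div_iff_mul_le (by positivity), one_mul]
    calc p * 2 ^ e ≤ 2 * 2 ^ (e + l) := hp2'
      _ ≤ 2 ^ (e + l) * (16 * D + 2 * (⌈B⌉₊ * D)) := by
          rw [mul_comm]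
          exact Nat.mul_le_mul_left _ (by omega)
      _ ≤ M := hM
  have hsl := hc.2 j x y hy1 hyx
  rw [abs_sub_comm]
  refine hsl.trans ?_
  -- real estimates
  have hDr : (1 : ℝ) ≤ D := by exact_mod_cast hD
  have hD0 : (0 : ℝ) < D := by linarith
  have hQr : (0 : ℝ) < (2 : ℝ) ^ (e + l) := by positivity
  have hEr : (0 : ℝ) < (2 : ℝ) ^ e := by positivity
  have hPr : (0 : ℝ) < (2 : ℝ) ^ l := by positivity
  have hpr : (2 : ℝ) ^ l ≤ p := by exact_mod_cast hp1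
  have hp0r : (0 : ℝ) < p := lt_of_lt_of_le hPr hpr
  have hp2r : (p : ℝ) ≤ 2 ^ l + 2 ^ l / D := by
    have h1 : (p : ℝ) ≤ ((2 ^ l + 2 ^ l / D : ℕ) : ℝ) := by exact_mod_cast hp2
    refine h1.trans ?_
    push_cast
    have h2 : ((2 ^ l / D : ℕ) : ℝ) ≤ ((2 ^ l : ℕ) : ℝ) / (D : ℝ) := Nat.cast_div_le
    push_cast at h2
    linarith
  have hQer : (2 : ℝ) ^ (e + l) = 2 ^ l * 2 ^ e := by rw [pow_add, mul_comm]
  have hx1 : (M : ℝ) / 2 ^ (e + l) ≤ x + 1 := by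
    have h1 : M < (x + 1) * 2 ^ (e + l) := by
      rw [hx]
      rw [mul_comm]
      exact Nat.lt_mul_div_succ M hQ
    have h2 : (M : ℝ) < ((x : ℝ) + 1) * 2 ^ (e + l) := by exact_mod_cast h1
    rw [div_le_iff₀ hQr]
    exact h2.le
  have hx2 : (x : ℝ) ≤ (M : ℝ) / 2 ^ (e + l) := by
    rw [le_div_iff₀ hQr]
    have := Nat.div_mul_le_self M (2 ^ (e + l))
    rw [← hx] at this
    exact_mod_cast this
  have hy2 : (M : ℝ) / (p * 2 ^ e) ≤ y + 1 := by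
    have hpe : 0 < p * 2 ^ e := by positivity
    have h1 : M < (y + 1) * (p * 2 ^ e) := by
      rw [hdd]
      rw [mul_comm]
      exact Nat.lt_mul_div_succ M hpe
    have h2 : (M : ℝ) < ((y : ℝ) + 1) * (p * 2 ^ e) := by exact_mod_cast h1
    rw [div_le_iff₀ (by positivity)]
    exact h2.le
  have hkey : (M : ℝ) / 2 ^ (e + l) - (M : ℝ) / (p * 2 ^ e) ≤ (M : ℝ) / 2 ^ (e + l) / D := by
    have h1 : (M : ℝ) / (p * 2 ^ e) = (M : ℝ) / 2 ^ (e + l) * (2 ^ l / p) := by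
      rw [hQer]
      field_simp
    rw [h1]
    have h2 : 1 - (2 : ℝ) ^ l / p ≤ 1 / D := by
      rw [one_sub_div hp0r.ne']
      have h3 : (p - 2 ^ l : ℝ) ≤ 2 ^ l / D := by linarith
      rw [div_le_div_iff₀ hp0r hD0]
      have h4 : (p - 2 ^ l : ℝ) * D ≤ 2 ^ l := by
        rw [← le_div_iff₀ hD0]; exact h3
      linarith
    have h5 : (0 : ℝ) ≤ (M : ℝ) / 2 ^ (e + l) := by positivity
    calc (M : ℝ) / 2 ^ (e + l) - (M : ℝ) / 2 ^ (e + l) * (2 ^ l / p)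
        = (M : ℝ) / 2 ^ (e + l) * (1 - 2 ^ l / p) := by ring
      _ ≤ (M : ℝ) / 2 ^ (e + l) * (1 / D) := by gcongr
      _ = (M : ℝ) / 2 ^ (e + l) / D := by ring
  have hxy : (x : ℝ) - y ≤ ((x : ℝ) + 1) / D + 1 := by
    have h1 : (M : ℝ) / 2 ^ (e + l) / D ≤ ((x : ℝ) + 1) / D := by gcongr
    linarith
  have hx16r : 16 * (D : ℝ) + 2 * ((⌈B⌉₊ : ℝ) * D) ≤ x := by exact_mod_cast hx16
  have hBc : B ≤ (⌈B⌉₊ : ℝ) := Nat.le_ceil B
  have hBD : B * D ≤ (⌈B⌉₊ : ℝ) * D := mul_le_mul_of_nonneg_right hBc hD0.le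
  have hBD0 : 0 ≤ B * D := by positivity
  have hx0 : (0 : ℝ) < x := by linarith
  rw [div_le_div_iff₀ hx0 hD0]
  have h6 : ((x : ℝ) - y) * D ≤ (x : ℝ) + 1 + D := by
    have := mul_le_mul_of_nonneg_right hxy hD0.le
    have h7 : (((x : ℝ) + 1) / D + 1) * D = (x : ℝ) + 1 + D := by
      field_simp
    linarith
  have h8 : B * (((x : ℝ) - y) * D) ≤ B * ((x : ℝ) + 1 + D) := mul_le_mul_of_nonneg_left h6 hB
  have h9 : B * 1 ≤ B * D := mul_le_mul_of_nonneg_left hDr hB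
  nlinarith

private theorem patf_norm {f : ℕ → ℕ → ℕ → ℝ} (hf : ∀ j i x, 0 ≤ f j i x ∧ f j i x ≤ 1)
    (r k : ℕ) (a : ℤ) (s : ℕ × ℕ × ℤ) : ‖patf f r k a s‖ ≤ 1 := by
  unfold patf
  apply prod_norm_le_one
  intro i _
  rw [Complex.norm_real, Real.norm_of_nonneg (hf _ _ _).1]
  exact (hf _ _ _).2

private theorem cN {B : ℝ} {c : ℕ → ℕ → ℝ} (hc : SlowW B c) (j M : ℕ) :
    ‖((c j M : ℝ) : ℂ)‖ ≤ 1 := by
  rw [Complex.norm_real, Real.norm_eq_abs]
  exact hc.1 j M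

private theorem OmZ_mulN (p : ℕ) (hp : p.Prime) (m : ℤ) (hm : 1 ≤ m) :
    OmZ ((p : ℤ) * m) = OmZ m + 1 := by
  obtain ⟨m', rfl⟩ := Int.eq_ofNat_of_zero_le (by omega : 0 ≤ m)
  have hm' : m' ≠ 0 := by omega
  unfold OmZ
  rw [← Nat.cast_mul, Int.toNat_natCast, Int.toNat_natCast,
    ArithmeticFunction.cardFactors_mul hp.ne_zero hm', ArithmeticFunction.cardFactors_apply_prime hp]
  ring

private theorem patf_step (f : ℕ → ℕ → ℕ → ℝ) (r k a p : ℕ) (hp : p.Prime) (j M M' : ℕ) (n : ℤ)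
    (hn : 1 ≤ n) :
    patf f (r + 1) k a (j, M, n) = patf f r k ((a * p : ℕ) : ℤ) (j, M', (p : ℤ) * n) := by
  unfold patf
  apply Finset.prod_congr rfl
  intro i _
  have h1 : (p : ℤ) * n + (i : ℤ) * ((a * p : ℕ) : ℤ) = (p : ℤ) * (n + (i : ℤ) * (a : ℤ)) := by
    push_cast
    ring
  have h2 : 1 ≤ n + (i : ℤ) * (a : ℤ) := by
    have : 0 ≤ (i : ℤ) * (a : ℤ) := by positivity
    omega
  simp only
  rw [h1, OmZ_mulN p hp _ h2]
  have h3 : OmZ (n + (i : ℤ) * (a : ℤ)) + (r + 1) = OmZ (n + (i : ℤ) * (a : ℤ)) + 1 + r := by ring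
  rw [h3]

private theorem step_gen (w : Win) (f : ℕ → ℕ → ℕ → ℝ) (hf : ∀ j i x, 0 ≤ f j i x ∧ f j i x ≤ 1)
    (B : ℝ) (hB : 0 ≤ B) (c : ℕ → ℕ → ℝ) (hc : SlowW B c)
    (r k e l D a p : ℕ) (hD : 1 ≤ D)
    (hp : p.Prime) (hp1 : 2 ^ l ≤ p) (hp2 : p ≤ 2 ^ l + 2 ^ l / D) :
    ‖(appμ w).E (fun s => wtc c e s * patf f (r + 1) k a s) -
        (appμ w).E (fun s => wtc c (e + l) s * patf f r k ((a * p : ℕ) : ℤ) s)‖ ≤ (B + 1) / D +
      ‖(appμ w).E (fun s => wtc c (e + l) s * ((if (p : ℤ) ∣ s.2.2 then (p : ℂ) else 0) - 1) *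
        patf f r k ((a * p : ℕ) : ℤ) s)‖ := by
  have h1 : (appμ w).E (fun s => wtc c e s * patf f (r + 1) k a s) =
      (appμ w).E (fun s => ((c s.1 (s.2.1 / 2 ^ e) : ℝ) : ℂ) *
        patf f r k ((a * p : ℕ) : ℤ) (s.1, 0, (p : ℤ) * s.2.2)) := by
    apply app_congr
    · exact Bd.mul ⟨1, fun s => cN hc _ _⟩ ⟨1, fun s => patf_norm hf _ k _ _⟩
    · exact Bd.mul ⟨1, fun s => cN hc _ _⟩ ⟨1, fun s => patf_norm hf _ k _ _⟩
    · intro j M n _ hn
      simp only [wtc]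
      rw [patf_step f r k a p hp j M 0 n hn]
  have h2 := app_dil w p hp.one_le (fun j M => ((c j (M / 2 ^ e) : ℝ) : ℂ))
    (fun j n => patf f r k ((a * p : ℕ) : ℤ) (j, 0, n)) (fun j M => cN hc _ _)
    (fun j n => patf_norm hf _ k _ _)
  beta_reduce at h2
  rw [h1, h2]
  obtain ⟨M0, hM0⟩ := wtc_close B hB c hc e l D p hD hp1 hp2
  set F : ℕ × ℕ × ℤ → ℂ := fun s => (((c s.1 (s.2.1 / p / 2 ^ e) : ℝ) : ℂ) -
    ((c s.1 (s.2.1 / 2 ^ (e + l)) : ℝ) : ℂ)) * patf f r k ((a * p : ℕ) : ℤ) s with hF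
  set G : ℕ × ℕ × ℤ → ℝ := fun s => if (p : ℤ) ∣ s.2.2 then (p : ℝ) else 0 with hG
  have hBD : 0 ≤ (B + 1) / (D : ℝ) := by positivity
  have hFC : ∀ s, ‖F s‖ ≤ 2 := by
    intro s
    rw [hF]
    simp only
    rw [norm_mul]
    have h3 := norm_sub_le ((c s.1 (s.2.1 / p / 2 ^ e) : ℝ) : ℂ)
      ((c s.1 (s.2.1 / 2 ^ (e + l)) : ℝ) : ℂ)
    have h4 := cN hc s.1 (s.2.1 / p / 2 ^ e)
    have h5 := cN hc s.1 (s.2.1 / 2 ^ (e + l))
    have h6 := patf_norm hf r k ((a * p : ℕ) : ℤ) s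
    calc _ ≤ 2 * (1 : ℝ) := mul_le_mul (by linarith) h6 (norm_nonneg _) (by norm_num)
      _ = 2 := by norm_num
  have hFd : ∀ s, M0 ≤ s.2.1 → ‖F s‖ ≤ (B + 1) / D := by
    intro s hs
    rw [hF]
    simp only
    rw [norm_mul, ← Complex.ofReal_sub, Complex.norm_real, Real.norm_eq_abs]
    have h4 := hM0 s.1 s.2.1 hs
    have h6 := patf_norm hf r k ((a * p : ℕ) : ℤ) s
    calc _ ≤ (B + 1) / (D : ℝ) * (1 : ℝ) := mul_le_mul h4 h6 (norm_nonneg _) hBD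
      _ = (B + 1) / D := by ring
  have hG0 : ∀ s, 0 ≤ G s := by
    intro s
    rw [hG]
    simp only
    split_ifs <;> positivity
  have hGp : ∀ s, G s ≤ p := by
    intro s
    rw [hG]
    simp only
    split_ifs
    · exact le_rfl
    · positivity
  have hsmall := app_small w F G 2 p ((B + 1) / D) M0 hFC hG0 hGp hBD hFd
  rw [hG, app_div w p hp.one_le, mul_one, ← hG] at hsmall
  have hdec : (appμ w).E (fun s => ((c s.1 (s.2.1 / p / 2 ^ e) : ℝ) : ℂ) *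
        ((if (p : ℤ) ∣ s.2.2 then (p : ℂ) else 0) *
          patf f r k ((a * p : ℕ) : ℤ) (s.1, 0, s.2.2))) -
        (appμ w).E (fun s => wtc c (e + l) s * patf f r k ((a * p : ℕ) : ℤ) s) =
      (appμ w).E (fun s => F s * (G s : ℂ)) + (appμ w).E (fun s => wtc c (e + l) s *
        ((if (p : ℤ) ∣ s.2.2 then (p : ℂ) else 0) - 1) * patf f r k ((a * p : ℕ) : ℤ) s) := by
    rw [← Mean.E_sub, ← Mean.E_add]
    congr 1
    funext s
    rw [hF, hG]
    simp only [wtc]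
    have h7 : patf f r k ((a * p : ℕ) : ℤ) (s.1, 0, s.2.2) =
      patf f r k ((a * p : ℕ) : ℤ) s := rfl
    rw [h7]
    split_ifs
    · push_cast
      ring
    · push_cast
      ring
  rw [hdec]
  exact le_trans (norm_add_le _ _) (add_le_add hsmall le_rfl)

private theorem avPc {P : Finset ℕ} {f g : ℕ → ℂ} {B : ℝ} (hB : 0 ≤ B)
    (h : ∀ p ∈ P, ‖f p - g p‖ ≤ B) : ‖avP P f - avP P g‖ ≤ B := by
  unfold avP
  rw [← mul_sub, ← Finset.sum_sub_distrib, norm_mul, norm_div, norm_one, Complex.norm_natCast]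
  rcases P.eq_empty_or_nonempty with rfl | hP
  · simpa using hB
  · have hc : (0 : ℝ) < P.card := by exact_mod_cast hP.card_pos
    have h1 : ‖∑ p ∈ P, (f p - g p)‖ ≤ P.card * B := by
      refine (norm_sum_le_of_le P h).trans ?_
      rw [Finset.sum_const, nsmul_eq_mul]
    calc 1 / (P.card : ℝ) * ‖∑ p ∈ P, (f p - g p)‖ ≤ 1 / (P.card : ℝ) * (P.card * B) := by
          gcongr
      _ = B := by field_simp

private theorem avPs {P : Finset ℕ} (hP : P.Nonempty) {g : ℕ → ℂ} {x : ℂ} {B : ℝ}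
    {y : ℕ → ℝ} (h : ∀ p ∈ P, ‖x - g p‖ ≤ B + y p) :
    ‖x - avP P g‖ ≤ B + 1 / (P.card : ℝ) * ∑ p ∈ P, y p := by
  have hc : (0 : ℝ) < P.card := by exact_mod_cast hP.card_pos
  have h0 : x - avP P g = (1 / (P.card : ℂ)) * ∑ p ∈ P, (x - g p) := by
    rw [Finset.sum_sub_distrib, mul_sub, Finset.sum_const, nsmul_eq_mul]
    have hc' : (P.card : ℂ) ≠ 0 := by exact_mod_cast hP.card_pos.ne'
    unfold avP
    field_simp
  rw [h0, norm_mul, norm_div, norm_one, Complex.norm_natCast]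
  have h1 : ‖∑ p ∈ P, (x - g p)‖ ≤ P.card * B + ∑ p ∈ P, y p := by
    refine (norm_sum_le_of_le P h).trans ?_
    rw [Finset.sum_add_distrib, Finset.sum_const, nsmul_eq_mul]
  calc 1 / (P.card : ℝ) * ‖∑ p ∈ P, (x - g p)‖
      ≤ 1 / (P.card : ℝ) * (P.card * B + ∑ p ∈ P, y p) := by gcongr
    _ = B + 1 / (P.card : ℝ) * ∑ p ∈ P, y p := by
        rw [mul_add, ← mul_assoc, one_div_mul_cancel hc.ne', one_mul]

private theorem chain_oneG (hPR : PR) (hEnt : Ent) (w : Win) (f : ℕ → ℕ → ℕ → ℝ)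
    (hf : ∀ j i x, f j i x = 0 ∨ f j i x = 1)
    (B : ℝ) (hB : 0 ≤ B) (c : ℕ → ℕ → ℝ) (hc : SlowW B c) (r k e D q a : ℕ)
    (hD : 1 ≤ D) (hq : 1 ≤ q) (ha : 1 ≤ a) (ε : ℝ) (hε : 0 < ε) :
    SFset {l | ‖(appμ w).E (fun s => wtc c e s * patf f (r + 1) k a s) -
      avP (PW D q (2 ^ l)) (fun p => (appμ w).E (fun s => wtc c (e + l) s *
        patf f r k ((a * p : ℕ) : ℤ) s))‖ ≤ (B + 1) / D + ε} := by
  have hf1 : ∀ j i x, 0 ≤ f j i x ∧ f j i x ≤ 1 := by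
    intro j i x
    rcases hf j i x with h | h <;> rw [h] <;> norm_num
  obtain ⟨C, hC, l0, h⟩ := ratio hPR D q hD hq
  have hE := hEnt (app w) (fun s => s.2.2) (fun _ => rfl) k
    (fun i s => f s.1 i (OmZ s.2.2 + r))
    (fun i x => hf _ _ _) a ha (ε / (C + 1)) (by positivity)
  refine SFset_mono ?_ (SFset_inter hE (SFset_ge l0))
  rintro l ⟨hl1, hl2⟩
  obtain ⟨hsub, hne, hcard⟩ := h l hl2
  have h1 := hl1 (wtc c (e + l)) (fun s => by
      unfold wtc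
      exact cN hc _ _) (fun _ => rfl)
  have hkey : ∀ p : ℕ, (fun x : (app w).S => wtc c (e + l) x *
      ((if (p : ℤ) ∣ (fun s : (app w).S => s.2.2) x then (p : ℂ) else 0) - 1) *
        ∏ i ∈ range (k + 1), (((fun i (s : (app w).S) => f s.1 i (OmZ s.2.2 + r)) i
          (((app w).T ^ ((i : ℤ) * (a * p))) x) : ℝ) : ℂ)) =
      fun s => wtc c (e + l) s * ((if (p : ℤ) ∣ s.2.2 then (p : ℂ) else 0) - 1) *
        patf f r k ((a * p : ℕ) : ℤ) s := by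
    intro p
    funext s
    obtain ⟨j, M, n⟩ := s
    have h2 : (∏ i ∈ range (k + 1), (((fun i (s : (app w).S) => f s.1 i (OmZ s.2.2 + r)) i
          (((app w).T ^ ((i : ℤ) * (a * p))) (j, M, n)) : ℝ) : ℂ)) =
        patf f r k ((a * p : ℕ) : ℤ) (j, M, n) := by
      unfold patf
      refine Finset.prod_congr rfl fun i _ => ?_
      have h3 : ((app w).T ^ ((i : ℤ) * (a * p))) (j, M, n) =
          (j, M, n + (i : ℤ) * (a * p)) := shT_zpow _ j M n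
      rw [h3]
      push_cast
      rfl
    rw [h2]
  have h2 : (1 / ((dy l).card : ℝ)) * ∑ p ∈ dy l, ‖(appμ w).E (fun s => wtc c (e + l) s *
      ((if (p : ℤ) ∣ s.2.2 then (p : ℂ) else 0) - 1) * patf f r k ((a * p : ℕ) : ℤ) s)‖ ≤
      ε / (C + 1) := by
    refine le_trans (le_of_eq ?_) h1
    congr 1
    refine Finset.sum_congr rfl fun p _ => ?_
    rw [hkey p]
    rfl
  set y : ℕ → ℝ := fun p => ‖(appμ w).E (fun s => wtc c (e + l) s *
      ((if (p : ℤ) ∣ s.2.2 then (p : ℂ) else 0) - 1) * patf f r k ((a * p : ℕ) : ℤ) s)‖ with hy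
  have hy0 : ∀ p, 0 ≤ y p := fun p => norm_nonneg _
  have h3 := avPs hne (g := fun p => (appμ w).E (fun s => wtc c (e + l) s *
        patf f r k ((a * p : ℕ) : ℤ) s)) (x := (appμ w).E (fun s => wtc c e s *
          patf f (r + 1) k a s)) (B := (B + 1) / D) (y := y) (fun p hp => by
      unfold PW at hp
      rw [Finset.mem_filter, Finset.mem_Icc] at hp
      exact step_gen w f hf1 B hB c hc r k e l D a p hD hp.2.1 hp.1.1 hp.1.2)
  refine h3.trans (add_le_add le_rfl ?_)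
  have hcP : (0 : ℝ) < (PW D q (2 ^ l)).card := by exact_mod_cast hne.card_pos
  have hcd : (0 : ℝ) < (dy l).card := by exact_mod_cast (hne.mono hsub).card_pos
  have h4 : ∑ p ∈ PW D q (2 ^ l), y p ≤ ∑ p ∈ dy l, y p :=
    Finset.sum_le_sum_of_subset_of_nonneg hsub fun p _ _ => hy0 p
  have h5 : ∑ p ∈ dy l, y p ≤ (dy l).card * (ε / (C + 1)) := by
    have h6 : (dy l).card * ((1 / ((dy l).card : ℝ)) * ∑ p ∈ dy l, y p) ≤
        (dy l).card * (ε / (C + 1)) := mul_le_mul_of_nonneg_left h2 hcd.le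
    rwa [← mul_assoc, mul_one_div_cancel hcd.ne', one_mul] at h6
  have h7 : ∑ p ∈ PW D q (2 ^ l), y p ≤ C * (PW D q (2 ^ l)).card * (ε / (C + 1)) :=
    (h4.trans h5).trans (mul_le_mul_of_nonneg_right hcard (by positivity))
  calc 1 / ((PW D q (2 ^ l)).card : ℝ) * ∑ p ∈ PW D q (2 ^ l), y p
      ≤ 1 / ((PW D q (2 ^ l)).card : ℝ) * (C * (PW D q (2 ^ l)).card * (ε / (C + 1))) := by
        gcongr
    _ = C / (C + 1) * ε := by field_simp
    _ ≤ 1 * ε := by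
        refine mul_le_mul_of_nonneg_right ?_ hε.le
        rw [div_le_one (by positivity)]
        linarith
    _ = ε := one_mul ε

theorem chain_gen (hPR : PR) (hEnt : Ent) (V : Ultrafilter ℕ) (hV : GoodU V) (w : Win)
    (f : ℕ → ℕ → ℕ → ℝ) (hf : ∀ j i x, f j i x = 0 ∨ f j i x = 1) (B : ℝ) (hB : 0 ≤ B)
    (c : ℕ → ℕ → ℝ) (hc : SlowW B c) (k D q : ℕ) (hD : 1 ≤ D) (hq : 1 ≤ q) (ε : ℝ) (hε : 0 < ε) :
    ∀ᶠ i in (V : Filter ℕ), ∀ᶠ l in (V : Filter ℕ),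
      ‖(appμ w).E (fun s => wtc c 0 s * patf f 2 k 1 s) -
        avP (PW D q (2 ^ i)) (fun p => avP (PW D q (2 ^ l)) (fun p' =>
          (appμ w).E (fun s => wtc c (i + l) s * patf f 0 k ((p * p' : ℕ) : ℤ) s)))‖ ≤
        2 * (B + 1) / D + ε := by
  have h1 := hV _ (chain_oneG hPR hEnt w f hf B hB c hc 1 k 0 D q 1 hD hq le_rfl (ε / 2)
    (by positivity))
  filter_upwards [h1] with i hi
  have h2 : ∀ᶠ l in (V : Filter ℕ), ∀ p ∈ PW D q (2 ^ i),
      ‖(appμ w).E (fun s => wtc c i s * patf f 1 k p s) -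
        avP (PW D q (2 ^ l)) (fun p' => (appμ w).E (fun s => wtc c (i + l) s *
          patf f 0 k ((p * p' : ℕ) : ℤ) s))‖ ≤ (B + 1) / D + ε / 2 := by
    rw [Filter.eventually_all_finset]
    intro p hp
    have hp1 : 1 ≤ p := by
      unfold PW at hp
      rw [Finset.mem_filter] at hp
      exact hp.2.1.one_lt.le
    exact hV _ (chain_oneG hPR hEnt w f hf B hB c hc 0 k i D q p hD hq hp1 (ε / 2) (by positivity))
  filter_upwards [h2] with l hl
  have h3 := avPc (by positivity) hl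
  simp only [zero_add, one_mul, Nat.cast_one, Nat.reduceAdd] at hi
  refine (norm_sub_le_norm_sub_add_norm_sub _ _ _).trans ((add_le_add hi h3).trans ?_)
  apply le_of_eq
  ring

/-- the threshold functions -/
private noncomputable def thr (f : ℕ → ℕ → ℕ → ℝ) (k R : ℕ) (t : Fin (k + 1) → ℕ)
    (j i x : ℕ) : ℝ :=
  if h : i < k + 1 then (if ((t ⟨i, h⟩ : ℝ) + 1) / R ≤ f j i x then 1 else 0) else 0

private theorem thr_val (f : ℕ → ℕ → ℕ → ℝ) (k R : ℕ) (t : Fin (k + 1) → ℕ) (j i x : ℕ) :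
    thr f k R t j i x = 0 ∨ thr f k R t j i x = 1 := by
  unfold thr
  split_ifs
  · exact Or.inr rfl
  · exact Or.inl rfl
  · exact Or.inl rfl

/-- one variable: the average of the thresholds -/
private theorem thr_one (R : ℕ) (hR : 1 ≤ R) (x : ℝ) (hx0 : 0 ≤ x) (hx1 : x ≤ 1) :
    let u := (1 / (R : ℝ)) * ∑ t ∈ range R, (if ((t : ℝ) + 1) / R ≤ x then (1 : ℝ) else 0)
    0 ≤ u ∧ u ≤ x ∧ x ≤ u + 1 / R := by
  intro u
  have hRr : (0 : ℝ) < R := by exact_mod_cast (by omega : 0 < R)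
  have hsum : ∑ t ∈ range R, (if ((t : ℝ) + 1) / R ≤ x then (1 : ℝ) else 0) =
      (⌊(R : ℝ) * x⌋₊ : ℝ) := by
    rw [← Finset.sum_filter, Finset.sum_const, nsmul_eq_mul, mul_one]
    have h1 : (range R).filter (fun t : ℕ => ((t : ℝ) + 1) / R ≤ x) = range ⌊(R : ℝ) * x⌋₊ := by
      ext t
      rw [Finset.mem_filter, Finset.mem_range, Finset.mem_range]
      have h2 : ((t : ℝ) + 1) / R ≤ x ↔ t < ⌊(R : ℝ) * x⌋₊ := by
        rw [div_le_iff₀ hRr, ← Nat.succ_le_iff, Nat.le_floor_iff (by positivity)]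
        push_cast
        rw [mul_comm x]
      rw [h2]
      constructor
      · exact fun h => h.2
      · intro h
        refine ⟨?_, h⟩
        have h3 : ⌊(R : ℝ) * x⌋₊ ≤ R := by
          have : (R : ℝ) * x ≤ (R : ℕ) := by nlinarith
          exact (Nat.floor_le_floor this).trans (by rw [Nat.floor_natCast])
        omega
    rw [h1, Finset.card_range]
  have hu : u = (1 / (R : ℝ)) * (⌊(R : ℝ) * x⌋₊ : ℝ) := by
    change (1 / (R : ℝ)) * ∑ t ∈ range R, (if ((t : ℝ) + 1) / R ≤ x then (1 : ℝ) else 0) = _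
    rw [hsum]
  have h4 : (⌊(R : ℝ) * x⌋₊ : ℝ) ≤ R * x := Nat.floor_le (by positivity)
  have h5 : (R : ℝ) * x < ⌊(R : ℝ) * x⌋₊ + 1 := Nat.lt_floor_add_one _
  rw [hu]
  refine ⟨by positivity, ?_, ?_⟩
  · rw [one_div, inv_mul_le_iff₀ hRr]
    exact h4
  · have h6 : 1 / (R : ℝ) * (⌊(R : ℝ) * x⌋₊ : ℝ) + 1 / R = (⌊(R : ℝ) * x⌋₊ + 1) / R := by ring
    rw [h6, le_div_iff₀ hRr, mul_comm]
    exact h5.le

/-- products of numbers in `[0, 1]` -/
private theorem prod_close {ι : Type*} (s : Finset ι) (u v : ι → ℝ) (δ : ℝ)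
    (hu : ∀ i, 0 ≤ u i ∧ u i ≤ v i ∧ v i ≤ 1 ∧ v i ≤ u i + δ) :
    0 ≤ ∏ i ∈ s, u i ∧ ∏ i ∈ s, u i ≤ ∏ i ∈ s, v i ∧
      ∏ i ∈ s, v i ≤ ∏ i ∈ s, u i + s.card * δ ∧ ∏ i ∈ s, v i ≤ 1 := by
  classical
  induction s using Finset.induction_on with
  | empty => simp
  | insert a s ha ih =>
    obtain ⟨h0, h1, h2, h3⟩ := ih
    obtain ⟨k0, k1, k2, k3⟩ := hu a
    rw [Finset.prod_insert ha, Finset.prod_insert ha, Finset.card_insert_of_notMem ha]
    have hδ : 0 ≤ δ := by linarith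
    refine ⟨mul_nonneg k0 h0, mul_le_mul k1 h1 h0 (k0.trans k1), ?_, ?_⟩
    · push_cast
      have e1 : v a * ∏ i ∈ s, v i ≤ (u a + δ) * ∏ i ∈ s, v i :=
        mul_le_mul_of_nonneg_right k3 (h0.trans h1)
      have e2 : u a * ∏ i ∈ s, v i ≤ u a * (∏ i ∈ s, u i + s.card * δ) :=
        mul_le_mul_of_nonneg_left h2 k0
      have e3 : u a * (s.card * δ) ≤ 1 * (s.card * δ) :=
        mul_le_mul_of_nonneg_right (k1.trans k2) (by positivity)
      have e4 : δ * ∏ i ∈ s, v i ≤ δ * 1 := mul_le_mul_of_nonneg_left h3 hδ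
      nlinarith
    · exact mul_le_one₀ k2 (h0.trans h1) h3

private theorem thr_approx (f : ℕ → ℕ → ℕ → ℝ) (hf : ∀ j i x, 0 ≤ f j i x ∧ f j i x ≤ 1)
    (k R : ℕ) (hR : 1 ≤ R) (r : ℕ) (a : ℤ) (s : ℕ × ℕ × ℤ) :
    ‖patf f r k a s - (1 / (R : ℂ) ^ (k + 1)) *
      ∑ t ∈ Fintype.piFinset (fun _ : Fin (k + 1) => range R), patf (thr f k R t) r k a s‖ ≤
      (k + 1) / R := by
  have hRr : (0 : ℝ) < R := by exact_mod_cast (by omega : 0 < R)
  set v : Fin (k + 1) → ℝ := fun i => f s.1 i (OmZ (s.2.2 + ((i : ℕ) : ℤ) * a) + r) with hv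
  set u : Fin (k + 1) → ℝ := fun i => (1 / (R : ℝ)) * ∑ t ∈ range R,
    (if ((t : ℝ) + 1) / R ≤ v i then (1 : ℝ) else 0) with hu
  have h1 : patf f r k a s = ((∏ i : Fin (k + 1), v i : ℝ) : ℂ) := by
    unfold patf
    rw [Finset.prod_range, Complex.ofReal_prod]
  have h2 : ∀ t : Fin (k + 1) → ℕ, patf (thr f k R t) r k a s =
      ((∏ i : Fin (k + 1), (if ((t i : ℝ) + 1) / R ≤ v i then (1 : ℝ) else 0) : ℝ) : ℂ) := by
    intro t
    unfold patf
    rw [Finset.prod_range, Complex.ofReal_prod]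
    refine Finset.prod_congr rfl fun i _ => ?_
    unfold thr
    rw [dif_pos i.2]
  have h3 : (1 / (R : ℂ) ^ (k + 1)) *
      ∑ t ∈ Fintype.piFinset (fun _ : Fin (k + 1) => range R), patf (thr f k R t) r k a s =
      ((∏ i : Fin (k + 1), u i : ℝ) : ℂ) := by
    have e1 : ∏ i : Fin (k + 1), u i = (1 / (R : ℝ) ^ (k + 1)) *
        ∑ t ∈ Fintype.piFinset (fun _ : Fin (k + 1) => range R),
          ∏ i : Fin (k + 1), (if ((t i : ℝ) + 1) / R ≤ v i then (1 : ℝ) else 0) := by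
      rw [hu, Finset.prod_mul_distrib, Finset.prod_const, Finset.card_univ, Fintype.card_fin,
        Finset.prod_univ_sum, one_div_pow]
    rw [e1]
    push_cast
    congr 1
    refine Finset.sum_congr rfl fun t _ => ?_
    rw [h2 t]
    push_cast
    rfl
  rw [h1, h3, ← Complex.ofReal_sub, Complex.norm_real, Real.norm_eq_abs]
  have h4 := prod_close (univ : Finset (Fin (k + 1))) u v (1 / R) (fun i => by
    have h5 := hf s.1 i (OmZ (s.2.2 + ((i : ℕ) : ℤ) * a) + r)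
    obtain ⟨h6, h7, h8⟩ := thr_one R hR (v i) h5.1 h5.2
    exact ⟨h6, h7, h5.2, h8⟩)
  rw [Finset.card_univ, Fintype.card_fin] at h4
  obtain ⟨_, h6, h7, _⟩ := h4
  rw [abs_of_nonneg (sub_nonneg.2 h6)]
  have h8 : (((k + 1 : ℕ) : ℝ)) * (1 / R) = (k + 1) / R := by
    push_cast
    ring
  linarith

private theorem avP_lin {P : Finset ℕ} {ι : Type*} (T : Finset ι) (N : ℂ) (g : ι → ℕ → ℂ) :
    avP P (fun p => N * ∑ t ∈ T, g t p) = N * ∑ t ∈ T, avP P (g t) := by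
  unfold avP
  rw [← Finset.mul_sum, ← Finset.mul_sum, Finset.sum_comm]
  ring

private theorem E_approx (w : Win) (f : ℕ → ℕ → ℕ → ℝ) (hf : ∀ j i x, 0 ≤ f j i x ∧ f j i x ≤ 1)
    {B : ℝ} (c : ℕ → ℕ → ℝ) (hc : SlowW B c) (k R : ℕ) (hR : 1 ≤ R) (e r : ℕ) (a : ℤ) :
    ‖(appμ w).E (fun s => wtc c e s * patf f r k a s) - (1 / (R : ℂ) ^ (k + 1)) *
      ∑ t ∈ Fintype.piFinset (fun _ : Fin (k + 1) => range R),
        (appμ w).E (fun s => wtc c e s * patf (thr f k R t) r k a s)‖ ≤ (k + 1) / R := by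
  have h1 : (appμ w).E (fun s => wtc c e s * patf f r k a s) - (1 / (R : ℂ) ^ (k + 1)) *
      ∑ t ∈ Fintype.piFinset (fun _ : Fin (k + 1) => range R),
        (appμ w).E (fun s => wtc c e s * patf (thr f k R t) r k a s) =
      (appμ w).E (fun s => wtc c e s * (patf f r k a s - (1 / (R : ℂ) ^ (k + 1)) *
        ∑ t ∈ Fintype.piFinset (fun _ : Fin (k + 1) => range R), patf (thr f k R t) r k a s)) := by
    rw [← Mean.E_sum, ← Mean.E_const_mul, ← Mean.E_sub]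
    congr 1
    funext s
    rw [← Finset.mul_sum]
    ring
  rw [h1]
  refine (appμ w).norm_E_le _ fun s => ?_
  rw [norm_mul]
  have h2 := thr_approx f hf k R hR r a s
  have h3 : ‖wtc c e s‖ ≤ 1 := cN hc _ _
  calc ‖wtc c e s‖ * _ ≤ 1 * ((k + 1) / R) := mul_le_mul h3 h2 (norm_nonneg _) (by norm_num)
    _ = (k + 1) / R := one_mul _

theorem chain_gen01 (hPR : PR) (hEnt : Ent) (V : Ultrafilter ℕ) (hV : GoodU V) (w : Win)
    (f : ℕ → ℕ → ℕ → ℝ) (hf : ∀ j i x, 0 ≤ f j i x ∧ f j i x ≤ 1) (B : ℝ) (hB : 0 ≤ B)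
    (c : ℕ → ℕ → ℝ) (hc : SlowW B c) (k D q : ℕ) (hD : 1 ≤ D) (hq : 1 ≤ q) (ε : ℝ) (hε : 0 < ε) :
    ∀ᶠ i in (V : Filter ℕ), ∀ᶠ l in (V : Filter ℕ),
      ‖(appμ w).E (fun s => wtc c 0 s * patf f 2 k 1 s) -
        avP (PW D q (2 ^ i)) (fun p => avP (PW D q (2 ^ l)) (fun p' =>
          (appμ w).E (fun s => wtc c (i + l) s * patf f 0 k ((p * p' : ℕ) : ℤ) s)))‖ ≤
        2 * (B + 1) / D + ε := by
  set R : ℕ := ⌈4 * ((k : ℝ) + 1) / ε⌉₊ + 1 with hRdef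
  have hR : 1 ≤ R := by omega
  have hRr : (0 : ℝ) < R := by exact_mod_cast (by omega : 0 < R)
  have hRε : ((k : ℝ) + 1) / R ≤ ε / 4 := by
    have h1 : 4 * ((k : ℝ) + 1) / ε ≤ R := by
      have h2 := Nat.le_ceil (4 * ((k : ℝ) + 1) / ε)
      have h3 : (R : ℝ) = (⌈4 * ((k : ℝ) + 1) / ε⌉₊ : ℝ) + 1 := by
        rw [hRdef]
        push_cast
        rfl
      rw [h3]
      linarith
    rw [div_le_iff₀ hε] at h1
    rw [div_le_iff₀ hRr]
    linarith
  set T := Fintype.piFinset (fun _ : Fin (k + 1) => range R) with hT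
  have hcard : T.card = R ^ (k + 1) := by
    rw [hT, Fintype.card_piFinset, Finset.prod_const, Finset.card_univ, Fintype.card_fin,
      Finset.card_range]
  have hmain : ∀ᶠ i in (V : Filter ℕ), ∀ᶠ l in (V : Filter ℕ), ∀ t ∈ T,
      ‖(appμ w).E (fun s => wtc c 0 s * patf (thr f k R t) 2 k 1 s) -
        avP (PW D q (2 ^ i)) (fun p => avP (PW D q (2 ^ l)) (fun p' =>
          (appμ w).E (fun s => wtc c (i + l) s *
            patf (thr f k R t) 0 k ((p * p' : ℕ) : ℤ) s)))‖ ≤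
        2 * (B + 1) / D + ε / 2 := by
    have h1 : ∀ᶠ i in (V : Filter ℕ), ∀ t ∈ T, ∀ᶠ l in (V : Filter ℕ),
      ‖(appμ w).E (fun s => wtc c 0 s * patf (thr f k R t) 2 k 1 s) -
        avP (PW D q (2 ^ i)) (fun p => avP (PW D q (2 ^ l)) (fun p' =>
          (appμ w).E (fun s => wtc c (i + l) s *
            patf (thr f k R t) 0 k ((p * p' : ℕ) : ℤ) s)))‖ ≤
        2 * (B + 1) / D + ε / 2 := by
      rw [Filter.eventually_all_finset]
      intro t _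
      exact chain_gen hPR hEnt V hV w (thr f k R t) (thr_val f k R t) B hB c hc k D q hD hq
        (ε / 2) (by positivity)
    filter_upwards [h1] with i hi
    rw [Filter.eventually_all_finset]
    exact hi
  filter_upwards [hmain] with i hi
  filter_upwards [hi] with l hl
  have ha := E_approx w f hf c hc k R hR 0 2 1
  have hb1 : ∀ p p' : ℕ, ‖(appμ w).E (fun s => wtc c (i + l) s *
      patf f 0 k ((p * p' : ℕ) : ℤ) s) - (1 / (R : ℂ) ^ (k + 1)) * ∑ t ∈ T,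
        (appμ w).E (fun s => wtc c (i + l) s *
          patf (thr f k R t) 0 k ((p * p' : ℕ) : ℤ) s)‖ ≤ (k + 1) / R := fun p p' =>
    E_approx w f hf c hc k R hR (i + l) 0 _
  have hδ : (0 : ℝ) ≤ (k + 1) / R := by positivity
  have hb2 := avPc (P := PW D q (2 ^ i)) hδ (fun p _ =>
    avPc (P := PW D q (2 ^ l)) hδ (fun p' _ => hb1 p p'))
  have hb3 : avP (PW D q (2 ^ i)) (fun p => avP (PW D q (2 ^ l)) (fun p' =>
      (1 / (R : ℂ) ^ (k + 1)) * ∑ t ∈ T, (appμ w).E (fun s => wtc c (i + l) s *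
        patf (thr f k R t) 0 k ((p * p' : ℕ) : ℤ) s))) =
      (1 / (R : ℂ) ^ (k + 1)) * ∑ t ∈ T, avP (PW D q (2 ^ i)) (fun p =>
        avP (PW D q (2 ^ l)) (fun p' => (appμ w).E (fun s => wtc c (i + l) s *
          patf (thr f k R t) 0 k ((p * p' : ℕ) : ℤ) s))) := by
    have h1 : ∀ p : ℕ, avP (PW D q (2 ^ l)) (fun p' =>
      (1 / (R : ℂ) ^ (k + 1)) * ∑ t ∈ T, (appμ w).E (fun s => wtc c (i + l) s *
        patf (thr f k R t) 0 k ((p * p' : ℕ) : ℤ) s)) =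
        (1 / (R : ℂ) ^ (k + 1)) * ∑ t ∈ T, avP (PW D q (2 ^ l)) (fun p' =>
          (appμ w).E (fun s => wtc c (i + l) s *
            patf (thr f k R t) 0 k ((p * p' : ℕ) : ℤ) s)) := fun p =>
      avP_lin T _ (fun t p' => (appμ w).E (fun s => wtc c (i + l) s *
            patf (thr f k R t) 0 k ((p * p' : ℕ) : ℤ) s))
    simp only [h1]
    exact avP_lin T _ (fun t p => avP (PW D q (2 ^ l)) (fun p' =>
          (appμ w).E (fun s => wtc c (i + l) s *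
            patf (thr f k R t) 0 k ((p * p' : ℕ) : ℤ) s)))
  rw [hb3] at hb2
  have hc1 : ‖(1 / (R : ℂ) ^ (k + 1)) * ∑ t ∈ T,
        (appμ w).E (fun s => wtc c 0 s * patf (thr f k R t) 2 k 1 s) -
      (1 / (R : ℂ) ^ (k + 1)) * ∑ t ∈ T, avP (PW D q (2 ^ i)) (fun p =>
        avP (PW D q (2 ^ l)) (fun p' => (appμ w).E (fun s => wtc c (i + l) s *
          patf (thr f k R t) 0 k ((p * p' : ℕ) : ℤ) s)))‖ ≤ 2 * (B + 1) / D + ε / 2 := by
    rw [← mul_sub, ← Finset.sum_sub_distrib, norm_mul, norm_div, norm_one, norm_pow,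
      Complex.norm_natCast]
    have h1 := norm_sum_le_of_le T hl
    rw [Finset.sum_const, nsmul_eq_mul, hcard] at h1
    have hRp : (0 : ℝ) < (R : ℝ) ^ (k + 1) := by positivity
    calc 1 / (R : ℝ) ^ (k + 1) * _ ≤ 1 / (R : ℝ) ^ (k + 1) *
          (((R ^ (k + 1) : ℕ) : ℝ) * (2 * (B + 1) / D + ε / 2)) :=
          mul_le_mul_of_nonneg_left h1 (by positivity)
      _ = 2 * (B + 1) / D + ε / 2 := by
          push_cast
          field_simp
  rw [norm_sub_rev] at hb2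
  refine (norm_sub_le_norm_sub_add_norm_sub _ _ _).trans
    ((add_le_add ha ((norm_sub_le_norm_sub_add_norm_sub _ _ _).trans
      (add_le_add hc1 hb2))).trans ?_)
  linarith

end DG
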