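import Pool.Agent.Helper6.DG.N0

/-!
# DG-N6S: product functions, all coordinates outside a set slowly varying

`I` is the set of the full coordinates; `keepS I f i = f i` for `i ∈ I` and `1` otherwise.

PROOF. `EndSt k i₀` is available for EVERY `i₀ ≤ k`. Remove the indices `i ≤ k`, `i ∉ I` one after the other (induction on the finset
`J ⊆ range (k+1) \ I` of the indices already removed): with `rem J f i = 1` for `i ∈ J`, `f i` otherwise:
`|Pr k M f - (∏_{i ∈ J} Mn M (f i)) * Pr k M (rem J f)|` has small window average. Step `J ∪ {t}`: `EndSt k t` for the functions `rem J f`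
(values in `[0,1]`, the function with index `t` is `f t`, `δ`-slow), `set1 (rem J f) t = rem (J ∪ {t}) f`, and the factor
`∏_{i ∈ J} Mn M (f i) ∈ [0, 1]`. `k = 0`: `J = ∅` or `J = {0}`; for `J = {0}`: `Pr 0 M f = Mn M (f 0)` and `Pr 0 M 1 = 1` for `M ≥ 1`, the difference
is `0`. Choose `δ` = minimum and `K0, N0` = maximum over the finitely many steps (`ε / (k+1)` each).
-/

set_option autoImplicit false

namespace DG

open Finset Filter Topology

/-- Keep the functions with index in `I`, replace the others by `1`. -/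
noncomputable def keepS (I : Finset ℕ) (f : ℕ → ℕ → ℝ) (i x : ℕ) : ℝ := if i ∈ I then f i x else 1

/-- Replace the functions with index in `J` by `1`. -/
private noncomputable def rem (J : Finset ℕ) (f : ℕ → ℕ → ℝ) (i x : ℕ) : ℝ :=
  if i ∈ J then 1 else f i x

private lemma rem_mem {f : ℕ → ℕ → ℝ} (hf : ∀ i x, 0 ≤ f i x ∧ f i x ≤ 1) (J : Finset ℕ)
    (i x : ℕ) : 0 ≤ rem J f i x ∧ rem J f i x ≤ 1 := by
  unfold rem
  split_ifs
  · exact ⟨zero_le_one, le_rfl⟩
  · exact hf i x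

private lemma Mn_mem {ψ : ℕ → ℝ} (h : ∀ x, 0 ≤ ψ x ∧ ψ x ≤ 1) (M : ℕ) :
    0 ≤ Mn M ψ ∧ Mn M ψ ≤ 1 := by
  unfold Mn
  constructor
  · exact mul_nonneg (by positivity) (Finset.sum_nonneg fun n _ => (h _).1)
  · have h1 : ∑ n ∈ Icc 1 M, ψ (ArithmeticFunction.cardFactors n) ≤ (M : ℝ) := by
      refine le_trans (Finset.sum_le_card_nsmul _ _ 1 fun n _ => (h _).2) ?_
      simp
    rcases Nat.eq_zero_or_pos M with hM | hM
    · subst hM
      simp
    · have hM' : (0 : ℝ) < M := by exact_mod_cast hM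
      rw [one_div, inv_mul_le_iff₀ hM', mul_one]
      exact h1

private lemma set1_rem (J : Finset ℕ) (t : ℕ) (f : ℕ → ℕ → ℝ) :
    set1 (rem J f) t = rem (insert t J) f := by
  funext i x
  unfold set1 rem
  by_cases h1 : i = t
  · simp [h1]
  · by_cases h2 : i ∈ J
    · simp [h1, h2]
    · simp [h1, h2]

private lemma Pr_congr {k M : ℕ} {f g : ℕ → ℕ → ℝ} (h : ∀ i, i ≤ k → f i = g i) :
    Pr k M f = Pr k M g := by
  unfold Pr
  congr 1
  refine Finset.sum_congr rfl fun n _ => Finset.prod_congr rfl fun i hi => ?_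
  rw [h i (Nat.lt_succ_iff.1 (Finset.mem_range.1 hi))]

private lemma Pr_zero (M : ℕ) (f : ℕ → ℕ → ℝ) : Pr 0 M f = Mn M (f 0) := by
  unfold Pr Mn
  congr 1
  refine Finset.sum_congr rfl fun n _ => ?_
  rw [zero_add, Finset.prod_range_one, add_zero]

private lemma Mn_one {M : ℕ} (hM : 1 ≤ M) : Mn M (fun _ => 1) = 1 := by
  unfold Mn
  have hM' : (M : ℝ) ≠ 0 := by
    have : (0 : ℝ) < M := by exact_mod_cast hM
    exact this.ne'
  rw [Finset.sum_const, Nat.card_Icc, Nat.add_sub_cancel, nsmul_eq_mul, mul_one, one_div,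
    inv_mul_cancel₀ hM']

private lemma one_le_of_window {N K M : ℕ} (h : M ∈ Ioc (N / K) N) : 1 ≤ M := by
  exact Nat.lt_of_le_of_lt (Nat.zero_le _) (Finset.mem_Ioc.1 h).1

/-- Remove the functions with index in `J`. -/
private lemma remove (hE : ∀ k, 1 ≤ k → ∀ i₀, i₀ ≤ k → EndSt k i₀) (k : ℕ) (I : Finset ℕ)
    (J : Finset ℕ) : (∀ i ∈ J, i ≤ k ∧ i ∉ I) → ∀ ε : ℝ, 0 < ε →
    ∃ δ : ℝ, 0 < δ ∧ ∃ K0 N0 : ℕ, ∀ N K : ℕ, N0 ≤ N → K0 ≤ K → K ≤ N →
      ∀ f : ℕ → ℕ → ℝ, (∀ i x, 0 ≤ f i x ∧ f i x ≤ 1) →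
        (∀ i, i ≤ k → i ∉ I → ∀ x, |f i (x + 1) - f i x| ≤ δ) →
        ∑ M ∈ Ioc (N / K) N, (1 / (M : ℝ)) *
          |Pr k M f - (∏ i ∈ J, Mn M (f i)) * Pr k M (rem J f)| ≤ ε * Real.log K := by
  classical
  induction J using Finset.induction_on with
  | empty =>
    intro _ ε hε
    refine ⟨1, one_pos, 1, 0, fun N K _ hK _ f _ _ => ?_⟩
    have h1 : rem ∅ f = f := by
      funext i x
      simp [rem]
    rw [Finset.sum_eq_zero]
    · exact mul_nonneg hε.le (Real.log_nonneg (by exact_mod_cast hK))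
    · intro M _
      rw [h1, Finset.prod_empty, one_mul, sub_self, abs_zero, mul_zero]
  | insert t J ht ih =>
    intro hJ ε hε
    have htk := hJ t (Finset.mem_insert_self t J)
    have hJ' : ∀ i ∈ J, i ≤ k ∧ i ∉ I := fun i hi => hJ i (Finset.mem_insert_of_mem hi)
    rcases Nat.eq_zero_or_pos k with hk | hk
    · -- `k = 0`
      subst hk
      have ht0 : t = 0 := Nat.le_zero.1 htk.1
      have hJe : J = ∅ := by
        refine Finset.eq_empty_of_forall_notMem fun i hi => ?_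
        have h1 : i = 0 := Nat.le_zero.1 (hJ' i hi).1
        rw [h1, ← ht0] at hi
        exact ht hi
      subst hJe
      subst ht0
      refine ⟨1, one_pos, 1, 0, fun N K _ hK _ f _ _ => ?_⟩
      rw [Finset.sum_eq_zero]
      · exact mul_nonneg hε.le (Real.log_nonneg (by exact_mod_cast hK))
      · intro M hM
        have h1 : rem (insert 0 ∅) f 0 = fun _ => 1 := by
          funext x
          simp [rem]
        rw [Pr_zero, Pr_zero, h1, Mn_one (one_le_of_window hM), mul_one]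
        simp
    · obtain ⟨δ₁, hδ₁, K₁, N₁, h₁⟩ := ih hJ' (ε / 2) (half_pos hε)
      obtain ⟨δ₂, hδ₂, K₂, N₂, h₂⟩ := hE k hk t htk.1 (ε / 2) (half_pos hε)
      refine ⟨min δ₁ δ₂, lt_min hδ₁ hδ₂, max K₁ K₂, max N₁ N₂,
        fun N K hN hK hKN f hf hs => ?_⟩
      have a1 := h₁ N K ((le_max_left _ _).trans hN) ((le_max_left _ _).trans hK) hKN f hf
        fun i hi hiI x => (hs i hi hiI x).trans (min_le_left _ _)
      have hgt : rem J f t = f t := by
        funext x
        simp [rem, ht]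
      have a2 := h₂ N K ((le_max_right _ _).trans hN) ((le_max_right _ _).trans hK) hKN
        (rem J f) (rem_mem hf J) (by
          intro x
          rw [hgt]
          exact (hs t htk.1 htk.2 x).trans (min_le_right _ _))
      rw [set1_rem, hgt] at a2
      have e : ε * Real.log K = ε / 2 * Real.log K + ε / 2 * Real.log K := by ring
      rw [e]
      refine le_trans ?_ (add_le_add a1 a2)
      rw [← Finset.sum_add_distrib]
      refine Finset.sum_le_sum fun M _ => ?_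
      rw [← mul_add]
      refine mul_le_mul_of_nonneg_left ?_ (by positivity)
      rw [Finset.prod_insert ht]
      have p0 : 0 ≤ ∏ i ∈ J, Mn M (f i) :=
        Finset.prod_nonneg fun i _ => (Mn_mem (hf i) M).1
      have p1 : ∏ i ∈ J, Mn M (f i) ≤ 1 :=
        Finset.prod_le_one (fun i _ => (Mn_mem (hf i) M).1) fun i _ => (Mn_mem (hf i) M).2
      have e2 : Pr k M f - Mn M (f t) * (∏ i ∈ J, Mn M (f i)) * Pr k M (rem (insert t J) f) =
          (Pr k M f - (∏ i ∈ J, Mn M (f i)) * Pr k M (rem J f)) +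
          (∏ i ∈ J, Mn M (f i)) * (Pr k M (rem J f) -
            Mn M (f t) * Pr k M (rem (insert t J) f)) := by ring
      rw [e2]
      refine (abs_add_le _ _).trans (add_le_add le_rfl ?_)
      rw [abs_mul, abs_of_nonneg p0]
      exact mul_le_of_le_one_left (abs_nonneg _) p1

theorem set_prod (hE : ∀ k, 1 ≤ k → ∀ i₀, i₀ ≤ k → EndSt k i₀) (k : ℕ) (I : Finset ℕ)
    (ε : ℝ) (hε : 0 < ε) :
    ∃ δ : ℝ, 0 < δ ∧ ∃ K0 N0 : ℕ, ∀ N K : ℕ, N0 ≤ N → K0 ≤ K → K ≤ N →
      ∀ f : ℕ → ℕ → ℝ, (∀ i x, 0 ≤ f i x ∧ f i x ≤ 1) →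
        (∀ i, i ≤ k → i ∉ I → ∀ x, |f i (x + 1) - f i x| ≤ δ) →
        ∑ M ∈ Ioc (N / K) N, (1 / (M : ℝ)) *
          |Pr k M f - (∏ i ∈ (range (k + 1)).filter (fun i => i ∉ I), Mn M (f i)) *
            Pr k M (keepS I f)| ≤ ε * Real.log K := by
  obtain ⟨δ, hδ, K0, N0, h⟩ := remove hE k I ((range (k + 1)).filter (fun i => i ∉ I)) (by
    intro i hi
    rw [Finset.mem_filter, Finset.mem_range] at hi
    exact ⟨Nat.lt_succ_iff.1 hi.1, hi.2⟩) ε hε
  refine ⟨δ, hδ, K0, N0, fun N K hN hK hKN f hf hs => ?_⟩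
  have h1 := h N K hN hK hKN f hf hs
  refine (le_of_eq (Finset.sum_congr rfl fun M _ => ?_)).trans h1
  congr 3
  congr 1
  refine Pr_congr fun i hi => ?_
  funext x
  unfold keepS rem
  by_cases hiI : i ∈ I
  · rw [if_pos hiI, if_neg]
    intro hm
    exact (Finset.mem_filter.1 hm).2 hiI
  · rw [if_neg hiI, if_pos]
    exact Finset.mem_filter.2 ⟨Finset.mem_range.2 (Nat.lt_succ_of_le hi), hiI⟩

end DG
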