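import Pool.Agent.Helper6.DG.N0
import Pool.Agent.Helper6.DG.E2Slow
import Pool.Agent.Helper8.NE.ApChange

/-!
# DG-N8: the one-step box functional of `b(Ω)` vanishes (Matomaki-Radziwill in progressions)

PROOF. `X = app w`, `g = gfun ψ (fun j M => Mn M (ψ j))`, real valued, `‖g‖ ≤ 1`. `box X [R] g = cz.E (h ↦ γ h)`, `γ h = E[g * conj (g ∘ T^(R h))]`, is by
`cz_tendsto` the limit of `(fej N).E γ = E ‖(1/(N+1)) ∑_{l ≤ N} g ∘ T^(R l)‖²` (`fej_E`, expand the square, `inv_zpow`; up to conjugation, `g` is real)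
`≤ E ‖(1/(N+1)) ∑_{l ≤ N} g ∘ T^(R l)‖` (the function is bounded by `1`). Let `ε > 0`, `ε' = ε / R`, `H0` from `AS.expx_holds` for `ε'`; let `N` be so large that
`H = R (N+1) ≥ H0`, `x0` the bound for this `H`. For `M ≥ x0`, `b = ψ j`, `m = MRP.mx M b = Mn M b`: detecting `R ∣ i` by additive characters
(`∑_{a < R} e(i a / R) = R` if `R ∣ i`, else `0`): `∑_{l=1}^{N+1} g(n + R l) = (1/R) ∑_{a<R} ∑_{i ∈ Icc 1 H} g(n + i) e(i a / R)`, so
`(1/M) ∑_{n ≤ M} |∑_{l=1}^{N+1} g(n + R l)| ≤ ε' H = ε (N+1)`. Replace `l = 1..N+1` by `l = 0..N` by invariance (`inv_zpow R`). The scales `M < x0` do not matter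
(`app_small` type argument or directly in the window mean: `app_tendsto`, mass of `M < x0` over mass `→ 0`). Hence the `limsup` over `N` is `≤ ε`.
-/

set_option autoImplicit false

namespace DG

open Finset Filter Topology

/-- the real centred function -/
private noncomputable def gr (ψ : ℕ → ℕ → ℝ) (s : ℕ × ℕ × ℤ) : ℝ :=
  ψ s.1 (OmZ s.2.2) - Mn s.2.1 (ψ s.1)

private theorem Mn_mem (M : ℕ) (b : ℕ → ℝ) (hb : ∀ x, 0 ≤ b x ∧ b x ≤ 1) :
    0 ≤ Mn M b ∧ Mn M b ≤ 1 := by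
  unfold Mn
  constructor
  · exact mul_nonneg (by positivity) (Finset.sum_nonneg fun n _ => (hb _).1)
  · rcases Nat.eq_zero_or_pos M with rfl | hM
    · simp
    · have hMr : (0 : ℝ) < M := by exact_mod_cast hM
      have h1 : ∑ n ∈ Icc 1 M, b (ArithmeticFunction.cardFactors n) ≤ M := by
        refine (Finset.sum_le_sum fun n _ => (hb _).2).trans ?_
        simp
      rw [one_div, inv_mul_le_iff₀ hMr]
      linarith

private theorem gr_abs (ψ : ℕ → ℕ → ℝ) (hψ : ∀ j x, 0 ≤ ψ j x ∧ ψ j x ≤ 1) (s : ℕ × ℕ × ℤ) :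
    |gr ψ s| ≤ 1 := by
  have h1 := hψ s.1 (OmZ s.2.2)
  have h2 := Mn_mem s.2.1 (ψ s.1) (hψ s.1)
  unfold gr
  rw [abs_le]
  constructor <;> linarith [h1.1, h1.2, h2.1, h2.2]

private theorem gfun_eq (ψ : ℕ → ℕ → ℝ) :
    gfun ψ (fun j M => Mn M (ψ j)) = fun s => ((gr ψ s : ℝ) : ℂ) := rfl

/-- the arithmetic input -/
private theorem arith (R : ℕ) (hR : 1 ≤ R) (ε : ℝ) (hε : 0 < ε) : ∃ H0 : ℕ, ∀ N : ℕ, H0 ≤ N →
    ∃ x0 : ℕ, ∀ M : ℕ, x0 ≤ M → ∀ b : ℕ → ℝ, (∀ m, |b m| ≤ 1) →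
      ∑ n ∈ Icc 1 M, |∑ l ∈ range (N + 1),
        (b (ArithmeticFunction.cardFactors (n + R * (l + 1))) - Mn M b)| ≤
          ε * ((N : ℝ) + 1) * M := by
  have hRr : (0 : ℝ) < R := by exact_mod_cast hR
  obtain ⟨H0, h0⟩ := NE.mrap R hR (ε / (R : ℝ) ^ 2) (by positivity)
  refine ⟨H0, fun N hN => ?_⟩
  have hH : H0 ≤ R * (N + 1) := by nlinarith
  obtain ⟨x0, h1⟩ := h0 (R * (N + 1)) hH
  refine ⟨x0, fun M hM b hb => ?_⟩
  have h2 := h1 M hM b hb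
  have hmA : MRC.mA M b = Mn M b := by
    unfold MRC.mA Mn
    rw [div_eq_mul_one_div, mul_comm]
  rw [hmA] at h2
  have hrep : ∀ n : ℕ, ∑ l ∈ range (N + 1),
      (b (ArithmeticFunction.cardFactors (n + R * (l + 1))) - Mn M b) =
      ∑ i ∈ (Icc 1 (R * (N + 1))).filter (fun i => (n + i) % R = (n % R) % R),
        (b (MRP.Om (n + i)) - Mn M b) := by
    intro n
    refine Finset.sum_bij (fun l _ => R * (l + 1)) ?_ ?_ ?_ ?_
    · intro l hl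
      rw [Finset.mem_filter, Finset.mem_Icc]
      have hl' : l + 1 ≤ N + 1 := by
        have := Finset.mem_range.1 hl
        omega
      refine ⟨⟨?_, Nat.mul_le_mul_left R hl'⟩, ?_⟩
      · nlinarith
      · rw [Nat.add_mul_mod_self_left, Nat.mod_mod]
    · intro a _ c _ h
      have := Nat.eq_of_mul_eq_mul_left (by omega : 0 < R) h
      omega
    · intro i hi
      rw [Finset.mem_filter, Finset.mem_Icc] at hi
      obtain ⟨⟨hi1, hi2⟩, hi3⟩ := hi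
      have hd : R ∣ i := by
        rw [Nat.mod_mod] at hi3
        have h3 : (n + i) ≡ n [MOD R] := hi3
        have h4 : (n + i) ≡ n + 0 [MOD R] := by simpa using h3
        exact (Nat.modEq_zero_iff_dvd).1 (Nat.ModEq.add_left_cancel' n h4)
      obtain ⟨c, rfl⟩ := hd
      have hc0 : c ≠ 0 := by
        rintro rfl
        simp at hi1
      have hc1 : c ≤ N + 1 := Nat.le_of_mul_le_mul_left hi2 (by omega)
      refine ⟨c - 1, Finset.mem_range.2 (by omega), ?_⟩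
      have : c - 1 + 1 = c := by omega
      simp only [this]
    · intro l _
      rfl
  have hb1 : ∀ n : ℕ, |∑ l ∈ range (N + 1),
      (b (ArithmeticFunction.cardFactors (n + R * (l + 1))) - Mn M b)| ≤
      ∑ r ∈ range R, |∑ i ∈ (Icc 1 (R * (N + 1))).filter (fun i => (n + i) % R = r % R),
        (b (MRP.Om (n + i)) - Mn M b)| := by
    intro n
    rw [hrep n]
    exact Finset.single_le_sum (f := fun r => |∑ i ∈ (Icc 1 (R * (N + 1))).filter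
      (fun i => (n + i) % R = r % R), (b (MRP.Om (n + i)) - Mn M b)|)
      (fun r _ => abs_nonneg _) (Finset.mem_range.2 (Nat.mod_lt n (by omega)))
  calc ∑ n ∈ Icc 1 M, |∑ l ∈ range (N + 1),
        (b (ArithmeticFunction.cardFactors (n + R * (l + 1))) - Mn M b)|
      ≤ ∑ n ∈ Icc 1 M, ∑ r ∈ range R,
        |∑ i ∈ (Icc 1 (R * (N + 1))).filter (fun i => (n + i) % R = r % R),
        (b (MRP.Om (n + i)) - Mn M b)| := Finset.sum_le_sum fun n _ => hb1 n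
    _ = ∑ r ∈ range R, ∑ n ∈ Icc 1 M,
        |∑ i ∈ (Icc 1 (R * (N + 1))).filter (fun i => (n + i) % R = r % R),
        (b (MRP.Om (n + i)) - Mn M b)| := Finset.sum_comm
    _ ≤ ∑ r ∈ range R, ε / (R : ℝ) ^ 2 * ((R * (N + 1) : ℕ) : ℝ) * M :=
        Finset.sum_le_sum fun r _ => h2 r
    _ = ε * ((N : ℝ) + 1) * M := by
        rw [Finset.sum_const, Finset.card_range, nsmul_eq_mul]
        push_cast
        field_simp

/-- the sum along the progression -/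
private noncomputable def sr (ψ : ℕ → ℕ → ℝ) (R N : ℕ) (s : ℕ × ℕ × ℤ) : ℝ :=
  ∑ l ∈ range (N + 1), gr ψ ((shT ^ ((R : ℤ) * l)) s)

private theorem sr_abs (ψ : ℕ → ℕ → ℝ) (hψ : ∀ j x, 0 ≤ ψ j x ∧ ψ j x ≤ 1) (R N : ℕ)
    (s : ℕ × ℕ × ℤ) : |sr ψ R N s| ≤ (N : ℝ) + 1 := by
  unfold sr
  refine (Finset.abs_sum_le_sum_abs _ _).trans ?_
  refine (Finset.sum_le_sum fun l _ => gr_abs ψ hψ _).trans ?_
  simp

private theorem app_inv (w : Win) (n : ℤ) (F : ℕ × ℕ × ℤ → ℂ) (hF : Bd F) :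
    (appμ w).E (fun x => F ((shT ^ n) x)) = (appμ w).E F := (app w).inv_zpow n F hF

private theorem fej_eq (w : Win) (ψ : ℕ → ℕ → ℝ) (hψ : ∀ j x, 0 ≤ ψ j x ∧ ψ j x ≤ 1) (R N : ℕ) :
    (fej N).E (fun h => (appμ w).E (fun x => ((gr ψ x : ℝ) : ℂ) *
      (starRingEnd ℂ) ((gr ψ ((shT ^ ((R : ℤ) * h)) x) : ℝ) : ℂ))) =
    (appμ w).E (fun x => ((sr ψ R N x ^ 2 / ((N : ℝ) + 1) ^ 2 : ℝ) : ℂ)) := by
  have hbd : ∀ h : ℤ, Bd (fun x : ℕ × ℕ × ℤ => ((gr ψ x : ℝ) : ℂ) *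
      (starRingEnd ℂ) ((gr ψ ((shT ^ ((R : ℤ) * h)) x) : ℝ) : ℂ)) := by
    intro h
    have h1 : Bd (fun x : ℕ × ℕ × ℤ => ((gr ψ x : ℝ) : ℂ)) :=
      Bd.ofReal_of_bdd (gr_abs ψ hψ)
    exact h1.mul ((h1.comp (fun x => (shT ^ ((R : ℤ) * h)) x)).conj)
  rw [fej_E]
  have h1 : ∀ i j : ℕ, (appμ w).E (fun x => ((gr ψ x : ℝ) : ℂ) *
      (starRingEnd ℂ) ((gr ψ ((shT ^ ((R : ℤ) * ((i : ℤ) - (j : ℤ)))) x) : ℝ) : ℂ)) =
      (appμ w).E (fun x => ((gr ψ ((shT ^ ((R : ℤ) * j)) x) *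
        gr ψ ((shT ^ ((R : ℤ) * i)) x) : ℝ) : ℂ)) := by
    intro i j
    have h2 := app_inv w ((R : ℤ) * j) _ (hbd ((i : ℤ) - (j : ℤ)))
    rw [← h2]
    congr 1
    funext x
    rw [Complex.conj_ofReal, Complex.ofReal_mul]
    have h3 : (shT ^ ((R : ℤ) * ((i : ℤ) - (j : ℤ)))) ((shT ^ ((R : ℤ) * (j : ℤ))) x) =
        (shT ^ ((R : ℤ) * (i : ℤ))) x := by
      rw [← Equiv.Perm.mul_apply, ← zpow_add]
      congr 2
      ring
    rw [h3]
  have h4 : (∑ i ∈ range (N + 1), ∑ j ∈ range (N + 1), (appμ w).E (fun x => ((gr ψ x : ℝ) : ℂ) *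
      (starRingEnd ℂ) ((gr ψ ((shT ^ ((R : ℤ) * ((i : ℤ) - (j : ℤ)))) x) : ℝ) : ℂ))) =
      (appμ w).E (fun x => ((sr ψ R N x ^ 2 : ℝ) : ℂ)) := by
    simp only [h1]
    have h5 : (fun x : ℕ × ℕ × ℤ => ((sr ψ R N x ^ 2 : ℝ) : ℂ)) =
        fun x => ∑ i ∈ range (N + 1), ∑ j ∈ range (N + 1),
          ((gr ψ ((shT ^ ((R : ℤ) * j)) x) * gr ψ ((shT ^ ((R : ℤ) * i)) x) : ℝ) : ℂ) := by
      funext x
      unfold sr
      rw [sq, Finset.sum_mul_sum]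
      push_cast
      refine Finset.sum_congr rfl fun i _ => Finset.sum_congr rfl fun j _ => ?_
      ring
    have h6 := (appμ w).E_sum (range (N + 1)) (fun (i : ℕ) (x : ℕ × ℕ × ℤ) => ∑ j ∈ range (N + 1),
          ((gr ψ ((shT ^ ((R : ℤ) * j)) x) * gr ψ ((shT ^ ((R : ℤ) * i)) x) : ℝ) : ℂ))
    rw [show (appμ w).E (fun x => ((sr ψ R N x ^ 2 : ℝ) : ℂ)) = (appμ w).E (fun x =>
      ∑ i ∈ range (N + 1), ∑ j ∈ range (N + 1),
          ((gr ψ ((shT ^ ((R : ℤ) * j)) x) * gr ψ ((shT ^ ((R : ℤ) * i)) x) : ℝ) : ℂ)) from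
      congrArg _ h5]
    refine Eq.trans ?_ h6.symm
    refine Finset.sum_congr rfl fun i _ => ?_
    exact ((appμ w).E_sum (range (N + 1)) (fun (j : ℕ) (x : ℕ × ℕ × ℤ) =>
      ((gr ψ ((shT ^ ((R : ℤ) * j)) x) * gr ψ ((shT ^ ((R : ℤ) * i)) x) : ℝ) : ℂ))).symm
  rw [h4]
  have h7 : (fun x : ℕ × ℕ × ℤ => ((sr ψ R N x ^ 2 / ((N : ℝ) + 1) ^ 2 : ℝ) : ℂ)) =
      fun x => ((sr ψ R N x ^ 2 : ℝ) : ℂ) * ((((N : ℝ) + 1) ^ 2 : ℝ) : ℂ)⁻¹ := by
    funext x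
    push_cast
    rw [div_eq_mul_inv]
  rw [h7, (appμ w).E_mul_const]
  rw [div_eq_mul_inv]
  push_cast
  rfl

private theorem window_bound (w : Win) (v : ℕ × ℕ × ℤ → ℝ) (hv0 : ∀ s, 0 ≤ v s)
    (hv1 : ∀ s, v s ≤ 1) (ε : ℝ) (hε : 0 ≤ ε) (x0 : ℕ)
    (h : ∀ j M : ℕ, x0 ≤ M → ∑ n ∈ Icc 1 M, v (j, M, (n : ℤ)) ≤ ε * M) :
    (appμ w).R v ≤ ε := by
  have hab : ∀ s, |v s| ≤ 1 := fun s => by rw [abs_of_nonneg (hv0 s)]; exact hv1 s
  have hbd : Bd (fun s => ((v s : ℝ) : ℂ)) := Bd.ofReal_of_bdd hab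
  have ht := (app_tendsto w _ hbd).norm
  have hb : ∀ j, ‖(wmean w j).E (fun s => ((v s : ℝ) : ℂ))‖ ≤
      ε + (x0 : ℝ) / ∑ M ∈ Ioc (w.a j) (w.b j), 1 / (M : ℝ) := by
    intro j
    have hm := mass_pos (w.lt j)
    rw [wmean_E, norm_div, Complex.norm_real, Real.norm_of_nonneg hm.le, div_le_iff₀ hm, add_mul,
      div_mul_cancel₀ _ hm.ne']
    have hterm : ∀ M ∈ Ioc (w.a j) (w.b j),
        ‖(1 / (M : ℂ)) * ((1 / (M : ℂ)) * ∑ n ∈ Icc 1 M, ((v (j, M, (n : ℤ)) : ℝ) : ℂ))‖ ≤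
          ε * (1 / (M : ℝ)) + (if M < x0 then 1 else 0) := by
      intro M hM
      have hM0 : 0 < M := lt_of_le_of_lt (Nat.zero_le _) (Finset.mem_Ioc.1 hM).1
      have hMr : (0 : ℝ) < M := by exact_mod_cast hM0
      have hM1 : (1 : ℝ) ≤ M := by exact_mod_cast hM0
      have hs : ‖∑ n ∈ Icc 1 M, ((v (j, M, (n : ℤ)) : ℝ) : ℂ)‖ =
          ∑ n ∈ Icc 1 M, v (j, M, (n : ℤ)) := by
        rw [← Complex.ofReal_sum, Complex.norm_real, Real.norm_of_nonneg]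
        exact Finset.sum_nonneg fun n _ => hv0 _
      rw [norm_mul, norm_mul, norm_div, norm_one, Complex.norm_natCast, hs]
      split_ifs with hlt
      · have h1 : ∑ n ∈ Icc 1 M, v (j, M, (n : ℤ)) ≤ M := by
          refine (Finset.sum_le_sum fun n _ => hv1 _).trans ?_
          simp
        have h2 : 1 / (M : ℝ) * (1 / (M : ℝ) * ∑ n ∈ Icc 1 M, v (j, M, (n : ℤ))) ≤ 1 := by
          calc 1 / (M : ℝ) * (1 / (M : ℝ) * ∑ n ∈ Icc 1 M, v (j, M, (n : ℤ)))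
              ≤ 1 / (M : ℝ) * (1 / (M : ℝ) * M) := by gcongr
            _ = 1 / (M : ℝ) := by field_simp
            _ ≤ 1 := by
              rw [div_le_one hMr]
              exact hM1
        have : 0 ≤ ε * (1 / (M : ℝ)) := by positivity
        linarith
      · rw [add_zero]
        have h1 := h j M (not_lt.1 hlt)
        calc 1 / (M : ℝ) * (1 / (M : ℝ) * ∑ n ∈ Icc 1 M, v (j, M, (n : ℤ)))
            ≤ 1 / (M : ℝ) * (1 / (M : ℝ) * (ε * M)) := by gcongr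
          _ = ε * (1 / (M : ℝ)) := by field_simp
    refine (norm_sum_le_of_le _ hterm).trans ?_
    rw [Finset.sum_add_distrib, ← Finset.mul_sum]
    have hcard : ∑ M ∈ Ioc (w.a j) (w.b j), (if M < x0 then (1 : ℝ) else 0) ≤ x0 := by
      rw [← Finset.sum_filter, Finset.sum_const, nsmul_eq_mul, mul_one]
      have : ((Ioc (w.a j) (w.b j)).filter (fun M => M < x0)).card ≤ (range x0).card := by
        apply Finset.card_le_card
        intro M hM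
        exact Finset.mem_range.2 (Finset.mem_filter.1 hM).2
      rw [Finset.card_range] at this
      exact_mod_cast this
    linarith
  have hlim : Tendsto (fun j => ε + (x0 : ℝ) / ∑ M ∈ Ioc (w.a j) (w.b j), 1 / (M : ℝ)) atTop
      (𝓝 (ε + 0)) := tendsto_const_nhds.add (Tendsto.div_atTop tendsto_const_nhds w.div)
  rw [add_zero] at hlim
  have h2 : ‖(appμ w).E (fun s => ((v s : ℝ) : ℂ))‖ ≤ ε :=
    le_of_tendsto_of_tendsto ht (hlim.mono_left Nat.hyperfilter_le_atTop)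
      (Eventually.of_forall hb)
  unfold Mean.R
  exact (Complex.re_le_norm _).trans h2

theorem box_one (w : Win) (ψ : ℕ → ℕ → ℝ) (hψ : ∀ j x, 0 ≤ ψ j x ∧ ψ j x ≤ 1) (R : ℕ)
    (hR : 1 ≤ R) : box (app w) [(R : ℤ)] (gfun ψ (fun j M => Mn M (ψ j))) = 0 := by
  rw [gfun_eq]
  change cz.E (fun h => (appμ w).E (fun x => ((gr ψ x : ℝ) : ℂ) *
      (starRingEnd ℂ) ((gr ψ ((shT ^ ((R : ℤ) * h)) x) : ℝ) : ℂ))) = 0
  have hgb : Bd (fun x : ℕ × ℕ × ℤ => ((gr ψ x : ℝ) : ℂ)) := Bd.ofReal_of_bdd (gr_abs ψ hψ)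
  have hbd : Bd (fun h : ℤ => (appμ w).E (fun x => ((gr ψ x : ℝ) : ℂ) *
      (starRingEnd ℂ) ((gr ψ ((shT ^ ((R : ℤ) * h)) x) : ℝ) : ℂ))) := by
    refine ⟨1, fun h => (appμ w).norm_E_le _ fun x => ?_⟩
    rw [norm_mul, RCLike.norm_conj, Complex.norm_real, Complex.norm_real]
    exact mul_le_one₀ (gr_abs ψ hψ _) (norm_nonneg _) (gr_abs ψ hψ _)
  have ht := (cz_tendsto _ hbd).norm
  have key : ∀ ε : ℝ, 0 < ε → ‖cz.E (fun h => (appμ w).E (fun x => ((gr ψ x : ℝ) : ℂ) *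
      (starRingEnd ℂ) ((gr ψ ((shT ^ ((R : ℤ) * h)) x) : ℝ) : ℂ)))‖ ≤ ε := by
    intro ε hε
    obtain ⟨H0, h0⟩ := arith R hR ε hε
    refine le_of_tendsto ht ?_
    refine (Filter.Eventually.filter_mono Nat.hyperfilter_le_atTop
      (Filter.eventually_ge_atTop H0)).mono fun N hN => ?_
    obtain ⟨x0, h1⟩ := h0 N hN
    rw [fej_eq w ψ hψ R N]
    have hN1 : (0 : ℝ) < (N : ℝ) + 1 := by positivity
    -- the function `v`
    set v : ℕ × ℕ × ℤ → ℝ := fun s => |sr ψ R N s| / ((N : ℝ) + 1) with hv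
    have hv0 : ∀ s, 0 ≤ v s := fun s => div_nonneg (abs_nonneg _) hN1.le
    have hv1 : ∀ s, v s ≤ 1 := fun s => by
      rw [hv]
      exact (div_le_one hN1).2 (sr_abs ψ hψ R N s)
    have hu : ∀ s, sr ψ R N s ^ 2 / ((N : ℝ) + 1) ^ 2 ≤ v s := by
      intro s
      have h2 : sr ψ R N s ^ 2 / ((N : ℝ) + 1) ^ 2 = v s ^ 2 := by
        rw [hv]
        simp only
        rw [div_pow, sq_abs]
      rw [h2]
      nlinarith [hv0 s, hv1 s]
    have hu0 : ∀ s, 0 ≤ sr ψ R N s ^ 2 / ((N : ℝ) + 1) ^ 2 := fun s => by positivity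
    have hu1 : ∀ s, |sr ψ R N s ^ 2 / ((N : ℝ) + 1) ^ 2| ≤ 1 := fun s => by
      rw [abs_of_nonneg (hu0 s)]
      exact (hu s).trans (hv1 s)
    have hva : ∀ s, |v s| ≤ 1 := fun s => by rw [abs_of_nonneg (hv0 s)]; exact hv1 s
    have h3 : ‖(appμ w).E (fun x => ((sr ψ R N x ^ 2 / ((N : ℝ) + 1) ^ 2 : ℝ) : ℂ))‖ ≤
        (appμ w).R v := by
      have h4 : ‖(appμ w).E (fun x => ((sr ψ R N x ^ 2 / ((N : ℝ) + 1) ^ 2 : ℝ) : ℂ))‖ ≤
          (appμ w).R (fun x => ‖((sr ψ R N x ^ 2 / ((N : ℝ) + 1) ^ 2 : ℝ) : ℂ)‖) :=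
        (appμ w).norm_E_le_R_norm _ (Bd.ofReal_of_bdd hu1)
      refine h4.trans ?_
      refine (appμ w).R_mono _ _ (fun x => ?_) (C := 1) (fun x => ?_) hva
      · rw [Complex.norm_real, Real.norm_of_nonneg (hu0 x)]
        exact hu x
      · rw [Complex.norm_real, Real.norm_of_nonneg (hu0 x)]
        exact hu1 x
    refine h3.trans ?_
    -- shift by `R`
    have h5 : (appμ w).R v = (appμ w).R (fun x => v ((shT ^ (R : ℤ)) x)) := by
      unfold Mean.R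
      have h6 := app_inv w (R : ℤ) (fun x => ((v x : ℝ) : ℂ)) (Bd.ofReal_of_bdd hva)
      rw [← h6]
    rw [h5]
    refine window_bound w (fun x => v ((shT ^ (R : ℤ)) x)) (fun s => hv0 _) (fun s => hv1 _) ε
      hε.le x0 (fun j M hM => ?_)
    have h7 := h1 M hM (ψ j) (fun m => by
      rw [abs_of_nonneg (hψ j m).1]
      exact (hψ j m).2)
    have h8 : ∀ n : ℕ, v ((shT ^ (R : ℤ)) (j, M, (n : ℤ))) =
        |∑ l ∈ range (N + 1), (ψ j (ArithmeticFunction.cardFactors (n + R * (l + 1))) -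
          Mn M (ψ j))| / ((N : ℝ) + 1) := by
      intro n
      rw [hv]
      simp only
      congr 2
      unfold sr
      refine Finset.sum_congr rfl fun l _ => ?_
      rw [shT_zpow, shT_zpow]
      unfold gr OmZ
      simp only
      have h9 : ((n : ℤ) + (R : ℤ) + (R : ℤ) * (l : ℤ)).toNat = n + R * (l + 1) := by
        have : (n : ℤ) + (R : ℤ) + (R : ℤ) * (l : ℤ) = ((n + R * (l + 1) : ℕ) : ℤ) := by
          push_cast
          ring
        rw [this, Int.toNat_natCast]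
      rw [h9]
    simp only [h8]
    rw [← Finset.sum_div, div_le_iff₀ hN1]
    calc _ ≤ ε * ((N : ℝ) + 1) * M := h7
      _ = ε * M * ((N : ℝ) + 1) := by ring
  have h10 : ‖cz.E (fun h => (appμ w).E (fun x => ((gr ψ x : ℝ) : ℂ) *
      (starRingEnd ℂ) ((gr ψ ((shT ^ ((R : ℤ) * h)) x) : ℝ) : ℂ)))‖ ≤ 0 :=
    le_of_forall_pos_le_add fun ε hε => by
      rw [zero_add]
      exact key ε hε
  exact norm_le_zero_iff.1 h10

end DG
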