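import Pool.Agent.Helper6.DG.N0

/-!
# Project SYM (MP_e0aac0_nt): reversal and change of scale. Definitions.
-/

set_option autoImplicit false

namespace DG

open Finset Filter Topology

/-- the primes `p ≡ -1 mod q` in `[Y, Y + Y / D]` -/
def PWm (D q Y : ℕ) : Finset ℕ := (Icc Y (Y + Y / D)).filter (fun p => p.Prime ∧ q ∣ p + 1)

/-- Positive relative density of `PWm`, uniformly in `q`. -/
def PRm : Prop := ∀ D : ℕ, 1 ≤ D → ∃ c : ℝ, 0 < c ∧ ∀ q : ℕ, 1 ≤ q → ∀ᶠ Y : ℕ in atTop,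
  c * Y / (q.totient * Real.log Y) ≤ ((PWm D q Y).card : ℝ)

/-- start of the interval of the `m` with `-p = 1 + q m`, `p ∈ PWm D q Y` -/
def tm (D q Y : ℕ) : ℤ := -(((Y + Y / D + 1) / q : ℕ) : ℤ)

/-- Sieve transfer: from the numbers `-p'`, `p' ∈ PWm`, to all integers `1 + q m`. -/
def SVTm (k : ℕ) : Prop := ∀ D : ℕ, 1 ≤ D → ∀ ε : ℝ, 0 < ε → ∃ K : ℝ, 0 < K ∧
  ∀ᶠ N : ℕ in atTop, ∀ᶠ Y : ℕ in atTop,
  ∀ (X : Sys) (e : ℕ) (P : Finset ℕ), 1 ≤ e → P.Nonempty → (∀ p ∈ P, 1 ≤ p) →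
  ∀ G : ℕ → X.S → ℂ, (∀ i x, ‖G i x‖ ≤ 1) →
    (1 / ((PWm D N.factorial Y).card : ℝ)) * ∑ p' ∈ PWm D N.factorial Y,
        ‖(1 / (P.card : ℂ)) * ∑ p ∈ P, X.μ.E (cor X k G ((e * p : ℤ) * (-(p' : ℤ))))‖ ^ 2 ≤
      K * ((1 / ((MM D N.factorial Y : ℕ) : ℝ)) * ∑ j ∈ range (MM D N.factorial Y),
        ‖(1 / (P.card : ℂ)) * ∑ p ∈ P, X.μ.E (cor X k G
          ((e * p : ℤ) * (1 + (N.factorial : ℤ) * (tm D N.factorial Y + j))))‖ ^ 2) + ε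

/-- uniform law on the numbers `-(a * b)`, `a ∈ A`, `b ∈ B`, as a finitely supported function -/
noncomputable def law2n (A B : Finset ℕ) : ℤ →₀ ℝ :=
  ∑ a ∈ A, ∑ b ∈ B, Finsupp.single (-((a * b : ℕ) : ℤ)) (1 / ((A.card : ℝ) * B.card))

/-- The signed weights: `r = (N, i, j, l)`, `q = N!`; `j` is not used. -/
noncomputable def cwS (D t : ℕ) (r : ℕ × ℕ × ℕ × ℕ) : ℤ →₀ ℝ :=
  if (PW D r.1.factorial (2 ^ r.2.1)).Nonempty ∧ (PW D r.1.factorial (2 ^ r.2.2.2)).Nonempty ∧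
      (PWm D r.1.factorial (t * 2 ^ r.2.2.2)).Nonempty then
    law2 (PW D r.1.factorial (2 ^ r.2.1)) (PW D r.1.factorial (2 ^ r.2.2.2)) -
      law2n (PW D r.1.factorial (2 ^ r.2.1)) (PWm D r.1.factorial (t * 2 ^ r.2.2.2))
  else 0

/-- The weight `c` at the scale `M / Q`. -/
noncomputable def wq (c : ℕ → ℕ → ℝ) (Q : ℕ) (s : ℕ × ℕ × ℤ) : ℂ := ((c s.1 (s.2.1 / Q) : ℝ) : ℂ)

/-- The functions in the reversed order. -/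
def revf (k : ℕ) (f : ℕ → ℕ → ℕ → ℝ) (j i x : ℕ) : ℝ := f j (k - i) x

/-- Reversal and change of scale, product sets. -/
def SymProd (k t : ℕ) : Prop := ∀ ε : ℝ, 0 < ε → ∃ K0 N0 : ℕ, ∀ N K : ℕ, N0 ≤ N → K0 ≤ K →
  K ≤ N → ∀ A : Fin k → Finset ℕ,
    ∑ M ∈ Ioc (N / K) N, (1 / (M : ℝ)) *
      |Ec k M (fun l => if ∀ i, l i ∈ A i then 1 else 0) -
        Ec k (t * M) (fun l => if ∀ i, l (Fin.rev i) ∈ A i then 1 else 0)| ≤ ε * Real.log K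

/-- Reversal and change of scale, all bounded functions. -/
def SymAll (k t : ℕ) : Prop := ∀ ε : ℝ, 0 < ε → ∃ K0 N0 : ℕ, ∀ N K : ℕ, N0 ≤ N → K0 ≤ K →
  K ≤ N → ∀ F : (Fin k → ℕ) → ℝ, (∀ l, |F l| ≤ 1) →
    ∑ M ∈ Ioc (N / K) N, (1 / (M : ℝ)) *
      |Ec k M F - Ec k (t * M) (fun l => F (fun i => l (Fin.rev i)))| ≤ ε * Real.log K

/-- Reversal, diagonal shift by `s` and change of scale by `t`. -/
def SymGoal (k s t : ℕ) : Prop := ∀ ε : ℝ, 0 < ε → ∃ K0 N0 : ℕ, ∀ N K : ℕ, N0 ≤ N → K0 ≤ K →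
  K ≤ N → ∀ F : (Fin k → ℕ) → ℝ, (∀ l, |F l| ≤ 1) →
    ∑ M ∈ Ioc (N / K) N, (1 / (M : ℝ)) *
      |Ec k M F - Ec k (t * M) (fun l => F (fun i => l (Fin.rev i) + s))| ≤ ε * Real.log K

end DG
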