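import Pool.Agent.Helper6.DG.S0Defs
import Pool.Agent.Helper6.DG.E6Zero

/-!
# SYM-4: facts about the signed weights `cwS`

PROOF. Copy of E6Zero.lean (`W_law2`, `cw_sum`, `cw_abs`, `cw_mod`). For `cw_mod`: for `N ≥ q` the number
`q` divides `N!`, `p ≡ 1`, `p' ≡ -1 mod N!`, so `-(p p') ≡ 1 mod q`.
-/

set_option autoImplicit false

namespace DG

open Finset Filter Topology

/-- `W` as an additive map in the weight. -/
private noncomputable def h45Wh (a : ℤ → ℂ) : (ℤ →₀ ℝ) →+ ℂ :=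
  Finsupp.liftAddHom (fun m => (AddMonoidHom.mulRight (a m)).comp Complex.ofRealHom.toAddMonoidHom)

private theorem h45W_eq_Wh (c : ℤ →₀ ℝ) (a : ℤ → ℂ) : W c a = h45Wh a c := by
  unfold W h45Wh
  rw [Finsupp.liftAddHom_apply]
  rfl

private theorem h45Wh_single (m : ℤ) (t : ℝ) (a : ℤ → ℂ) :
    h45Wh a (Finsupp.single m t) = (t : ℂ) * a m := by
  unfold h45Wh
  rw [Finsupp.liftAddHom_apply_single]
  rfl

private theorem h45avP_one {A : Finset ℕ} (hA : A.Nonempty) : avP A (fun _ => 1) = 1 := by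
  unfold avP
  have h : (A.card : ℂ) ≠ 0 := by
    exact_mod_cast (Finset.card_pos.2 hA).ne'
  rw [Finset.sum_const, nsmul_eq_mul, mul_one, one_div, inv_mul_cancel₀ h]

private noncomputable def h45l1 (c : ℤ →₀ ℝ) : ℝ := ∑ m ∈ c.support, |c m|

private theorem h45l1_eq {c : ℤ →₀ ℝ} {s : Finset ℤ} (h : c.support ⊆ s) :
    h45l1 c = ∑ m ∈ s, |c m| := by
  unfold h45l1
  apply Finset.sum_subset h
  intro m _ hm
  rw [Finsupp.notMem_support_iff.1 hm, abs_zero]

private theorem h45l1_add (c c' : ℤ →₀ ℝ) : h45l1 (c + c') ≤ h45l1 c + h45l1 c' := by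
  classical
  rw [h45l1_eq (c := c + c') (s := (c + c').support ∪ (c.support ∪ c'.support))
      Finset.subset_union_left,
    h45l1_eq (c := c) (s := (c + c').support ∪ (c.support ∪ c'.support))
      (Finset.subset_union_left.trans Finset.subset_union_right),
    h45l1_eq (c := c') (s := (c + c').support ∪ (c.support ∪ c'.support))
      (Finset.subset_union_right.trans Finset.subset_union_right), ← Finset.sum_add_distrib]
  refine Finset.sum_le_sum fun m _ => ?_
  rw [Finsupp.add_apply]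
  exact abs_add_le _ _

private theorem h45l1_neg (c : ℤ →₀ ℝ) : h45l1 (-c) = h45l1 c := by
  unfold h45l1
  rw [Finsupp.support_neg]
  refine Finset.sum_congr rfl fun m _ => ?_
  rw [Finsupp.neg_apply, abs_neg]

private theorem h45l1_single (m : ℤ) (t : ℝ) : h45l1 (Finsupp.single m t) ≤ |t| := by
  rw [h45l1_eq (s := {m}) Finsupp.support_single_subset, Finset.sum_singleton,
    Finsupp.single_eq_same]

private theorem h45l1_sum {ι : Type*} (s : Finset ι) (f : ι → ℤ →₀ ℝ) :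
    h45l1 (∑ i ∈ s, f i) ≤ ∑ i ∈ s, h45l1 (f i) := by
  classical
  induction s using Finset.induction_on with
  | empty => simp [h45l1]
  | insert a s ha ih =>
    rw [Finset.sum_insert ha, Finset.sum_insert ha]
    exact (h45l1_add _ _).trans (add_le_add le_rfl ih)

private theorem h45l1_law2 {A B : Finset ℕ} (hA : A.Nonempty) (hB : B.Nonempty) :
    h45l1 (law2 A B) ≤ 1 := by
  have hA0 : (A.card : ℝ) ≠ 0 := by exact_mod_cast (Finset.card_pos.2 hA).ne'
  have hB0 : (B.card : ℝ) ≠ 0 := by exact_mod_cast (Finset.card_pos.2 hB).ne'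
  unfold law2
  refine (h45l1_sum _ _).trans ?_
  refine (Finset.sum_le_sum fun a _ => (h45l1_sum _ _).trans (Finset.sum_le_sum fun b _ =>
    h45l1_single _ _)).trans ?_
  simp only [Finset.sum_const, nsmul_eq_mul]
  rw [abs_of_nonneg (by positivity)]
  apply le_of_eq
  field_simp

private theorem h45l1_law2n {A B : Finset ℕ} (hA : A.Nonempty) (hB : B.Nonempty) :
    h45l1 (law2n A B) ≤ 1 := by
  have hA0 : (A.card : ℝ) ≠ 0 := by exact_mod_cast (Finset.card_pos.2 hA).ne'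
  have hB0 : (B.card : ℝ) ≠ 0 := by exact_mod_cast (Finset.card_pos.2 hB).ne'
  unfold law2n
  refine (h45l1_sum _ _).trans ?_
  refine (Finset.sum_le_sum fun a _ => (h45l1_sum _ _).trans (Finset.sum_le_sum fun b _ =>
    h45l1_single _ _)).trans ?_
  simp only [Finset.sum_const, nsmul_eq_mul]
  rw [abs_of_nonneg (by positivity)]
  apply le_of_eq
  field_simp

private theorem h45law2_supp {A B : Finset ℕ} {P : ℤ → Prop}
    (h : ∀ a ∈ A, ∀ b ∈ B, P ((a * b : ℕ) : ℤ)) {m : ℤ} (hm : law2 A B m ≠ 0) : P m := by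
  unfold law2 at hm
  rw [Finsupp.finsetSum_apply] at hm
  obtain ⟨a, ha, hm⟩ := Finset.exists_ne_zero_of_sum_ne_zero hm
  rw [Finsupp.finsetSum_apply] at hm
  obtain ⟨b, hb, hm⟩ := Finset.exists_ne_zero_of_sum_ne_zero hm
  rw [Finsupp.single_apply] at hm
  split_ifs at hm with he
  · rw [← he]
    exact h a ha b hb
  · exact absurd rfl hm

private theorem h45law2n_supp {A B : Finset ℕ} {P : ℤ → Prop}
    (h : ∀ a ∈ A, ∀ b ∈ B, P (-((a * b : ℕ) : ℤ))) {m : ℤ} (hm : law2n A B m ≠ 0) : P m := by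
  unfold law2n at hm
  rw [Finsupp.finsetSum_apply] at hm
  obtain ⟨a, ha, hm⟩ := Finset.exists_ne_zero_of_sum_ne_zero hm
  rw [Finsupp.finsetSum_apply] at hm
  obtain ⟨b, hb, hm⟩ := Finset.exists_ne_zero_of_sum_ne_zero hm
  rw [Finsupp.single_apply] at hm
  split_ifs at hm with he
  · rw [← he]
    exact h a ha b hb
  · exact absurd rfl hm

private theorem h45PW_mod {D N Y q p : ℕ} (hq : 0 < q) (hN : q ≤ N)
    (hp : p ∈ PW D N.factorial Y) : (q : ℤ) ∣ (p : ℤ) - 1 := by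
  unfold PW at hp
  obtain ⟨_, hp1, hp2⟩ := Finset.mem_filter.1 hp
  have h1 : q ∣ p - 1 := (Nat.dvd_factorial hq hN).trans hp2
  have h2 : ((p - 1 : ℕ) : ℤ) = (p : ℤ) - 1 := by
    rw [Nat.cast_sub hp1.one_lt.le]
    norm_num
  rw [← h2]
  exact_mod_cast h1

private theorem h45PWm_mod {D N Y q p : ℕ} (hq : 0 < q) (hN : q ≤ N)
    (hp : p ∈ PWm D N.factorial Y) : (q : ℤ) ∣ (p : ℤ) + 1 := by
  unfold PWm at hp
  obtain ⟨_, _, hp2⟩ := Finset.mem_filter.1 hp
  have h1 : q ∣ p + 1 := (Nat.dvd_factorial hq hN).trans hp2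
  exact_mod_cast h1

private theorem h45mul_mod {q a b : ℤ} (ha : q ∣ a - 1) (hb : q ∣ b - 1) : q ∣ a * b - 1 := by
  have e : a * b - 1 = a * (b - 1) + (a - 1) := by ring
  rw [e]
  exact dvd_add (Dvd.dvd.mul_left hb a) ha

private theorem h45mul_modn {q a b : ℤ} (ha : q ∣ a - 1) (hb : q ∣ b + 1) :
    q ∣ -(a * b) - 1 := by
  have e : -(a * b) - 1 = -(a * (b + 1)) + (a - 1) := by ring
  rw [e]
  exact dvd_add ((dvd_neg).2 (Dvd.dvd.mul_left hb a)) ha

theorem W_law2n (A B : Finset ℕ) (hA : A.Nonempty) (hB : B.Nonempty) (a : ℤ → ℂ) :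
    W (law2n A B) a = avP A (fun p => avP B (fun p' => a (-((p * p' : ℕ) : ℤ)))) := by
  have _ := hA
  have _ := hB
  rw [h45W_eq_Wh]
  unfold law2n avP
  simp only [map_sum, h45Wh_single, Finset.mul_sum]
  refine Finset.sum_congr rfl fun p _ => Finset.sum_congr rfl fun p' _ => ?_
  push_cast
  ring

theorem cwS_sum (D t : ℕ) (r : ℕ × ℕ × ℕ × ℕ) : W (cwS D t r) (fun _ => 1) = 0 := by
  unfold cwS
  split_ifs with h
  · obtain ⟨h1, h2, h3⟩ := h
    rw [W_sub, W_law2 _ _ h1 h2, W_law2n _ _ h1 h3]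
    simp only [h45avP_one h1, h45avP_one h2, h45avP_one h3]
    ring
  · rw [h45W_eq_Wh, map_zero]

theorem cwS_abs (D t : ℕ) (r : ℕ × ℕ × ℕ × ℕ) :
    ∑ m ∈ (cwS D t r).support, |cwS D t r m| ≤ 2 := by
  change h45l1 (cwS D t r) ≤ 2
  unfold cwS
  split_ifs with h
  · obtain ⟨h1, h2, h3⟩ := h
    rw [sub_eq_add_neg]
    refine (h45l1_add _ _).trans ?_
    rw [h45l1_neg]
    have e1 := h45l1_law2 h1 h2
    have e2 := h45l1_law2n h1 h3
    linarith
  · simp [h45l1]

theorem cwS_mod (D t : ℕ) (V : Ultrafilter ℕ) (U : Ultrafilter (ℕ × ℕ × ℕ × ℕ)) (hU : IsIter V U)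
    (q : ℕ) (hq : 0 < q) :
    ∀ᶠ r in (U : Filter _), ∀ m ∈ (cwS D t r).support, (q : ℤ) ∣ m - 1 := by
  rw [hU]
  have hN : ∀ᶠ N in (hyperfilter ℕ : Filter ℕ), q ≤ N :=
    Nat.hyperfilter_le_atTop (eventually_ge_atTop q)
  filter_upwards [hN] with N hN
  refine Eventually.of_forall fun i => Eventually.of_forall fun j => Eventually.of_forall fun l => ?_
  intro m hm
  rw [Finsupp.mem_support_iff] at hm
  unfold cwS at hm
  split_ifs at hm with h
  · rw [Finsupp.sub_apply] at hm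
    by_cases h2 : law2 (PW D N.factorial (2 ^ i)) (PW D N.factorial (2 ^ l)) m = 0
    · have h3 : law2n (PW D N.factorial (2 ^ i)) (PWm D N.factorial (t * 2 ^ l)) m ≠ 0 := by
        intro h3
        simp only [h2, h3, sub_zero] at hm
        exact hm rfl
      refine h45law2n_supp (P := fun m => (q : ℤ) ∣ m - 1) (fun a ha b hb => ?_) h3
      push_cast
      exact h45mul_modn (h45PW_mod hq hN ha) (h45PWm_mod hq hN hb)
    · refine h45law2_supp (P := fun m => (q : ℤ) ∣ m - 1) (fun a ha b hb => ?_) h2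
      push_cast
      exact h45mul_mod (h45PW_mod hq hN ha) (h45PW_mod hq hN hb)
  · exact absurd rfl hm

end DG
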