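import Pool.Agent.Helper6.DG.S0Defs
import Pool.Agent.Helper6.DG.N1Chain

/-!
# SYM-5: the chain of two primes, the second one `≡ -1 mod q` near `t 2^l`

PROOF. Copy of N1Chain.lean (`wtc_close`, `step_gen`, `chain_oneG`, `chain_gen`) with weights
`wq c Q` (`wtc c e = wq c (2 ^ e)`).
* `wq_close`: for `Y ≤ p ≤ Y + Y / D`, `1 ≤ Y`, `1 ≤ Q` and large `M`:
 `|c j (M / p / Q) - c j (M / (Q * Y))| ≤ (B + 1) / D`.
* `SFset_add`: if `SFset A` then `SFset {l | l + a ∈ A}` (`u l ≤ C_a u (l + a)`).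
* `ratiom` (copy of `ratio`): for `2 ^ a ≤ t < 2 ^ (a + 1)` and large `l`, `PWm D q (t * 2 ^ l) ⊆ dy (l + a) ∪
 dy (l + a + 1)` (its elements are primes between `2^(l+a)` and `2 t 2^l ≤ 2^(l+a+2)`), it is nonempty,
 and the two cards are at most `C` times its card.
* one step with `p' ∈ PWm D q (t * 2 ^ l)`: `Ent` (same system, step `a = p`) at the two scales `l + a`,
 `l + a + 1` with the weight `wq c (Q * (t * 2 ^ l))`.
* `chain_m`: first step as in `chain_gen` (primes `PW D q (2 ^ i)`), second step the new one.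
-/

set_option autoImplicit false

namespace DG

open Finset Filter Topology

namespace S5

theorem wq_close (B : ℝ) (hB : 0 ≤ B) (c : ℕ → ℕ → ℝ) (hc : SlowW B c) (Q Y D p : ℕ) (hD : 1 ≤ D)
    (hQ1 : 1 ≤ Q) (hY1 : 1 ≤ Y)
    (hp1 : Y ≤ p) (hp2 : p ≤ Y + Y / D) : ∃ M0 : ℕ, ∀ j M : ℕ, M0 ≤ M →
      |c j (M / p / Q) - c j (M / (Q * Y))| ≤ (B + 1) / D := by
  refine ⟨Q * Y * (16 * D + 2 * (⌈B⌉₊ * D)), fun j M hM => ?_⟩
  have hP : 0 < Y := hY1
  have hE : 0 < Q := hQ1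
  have hQ : 0 < Q * Y := Nat.mul_pos hE hP
  have hQe : Q * Y = Y * Q := mul_comm _ _
  have hp : 0 < p := lt_of_lt_of_le hP hp1
  have hdd : M / p / Q = M / (p * Q) := Nat.div_div_eq_div_mul _ _ _
  set x := M / (Q * Y) with hx
  set y := M / p / Q with hy
  have hyx : y ≤ x := by
    rw [hdd, hx, hQe]
    exact Nat.div_le_div_left (Nat.mul_le_mul_right _ hp1) (by positivity)
  have hx16 : 16 * D + 2 * (⌈B⌉₊ * D) ≤ x := by
    rw [hx, Nat.le_div_iff_mul_le hQ]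
    rw [mul_comm]
    exact hM
  have hDle : Y / D ≤ Y := Nat.div_le_self _ _
  have hp2' : p * Q ≤ 2 * (Q * Y) := by
    calc p * Q ≤ (2 * Y) * Q := Nat.mul_le_mul_right _ (by omega)
      _ = 2 * (Q * Y) := by ring
  have hy1 : 1 ≤ y := by
    rw [hdd, Nat.le_div_iff_mul_le (by positivity), one_mul]
    calc p * Q ≤ 2 * (Q * Y) := hp2'
      _ ≤ Q * Y * (16 * D + 2 * (⌈B⌉₊ * D)) := by
          rw [mul_comm 2]
          exact Nat.mul_le_mul_left _ (by omega)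
      _ ≤ M := hM
  have hsl := hc.2 j x y hy1 hyx
  rw [abs_sub_comm]
  refine hsl.trans ?_
  -- real estimates
  have hDr : (1 : ℝ) ≤ D := by exact_mod_cast hD
  have hD0 : (0 : ℝ) < D := by linarith
  have hEr : (0 : ℝ) < (Q : ℝ) := by exact_mod_cast hE
  have hPr : (0 : ℝ) < (Y : ℝ) := by exact_mod_cast hP
  have hQr : (0 : ℝ) < (Q : ℝ) * Y := by positivity
  have hpr : (Y : ℝ) ≤ p := by exact_mod_cast hp1
  have hp0r : (0 : ℝ) < p := lt_of_lt_of_le hPr hpr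
  have hp2r : (p : ℝ) ≤ Y + Y / D := by
    have h1 : (p : ℝ) ≤ ((Y + Y / D : ℕ) : ℝ) := by exact_mod_cast hp2
    refine h1.trans ?_
    push_cast
    have h2 : ((Y / D : ℕ) : ℝ) ≤ (Y : ℝ) / (D : ℝ) := Nat.cast_div_le
    linarith
  have hx1 : (M : ℝ) / (Q * Y) ≤ x + 1 := by
    have h1 : M < (x + 1) * (Q * Y) := by
      rw [hx]
      rw [mul_comm]
      exact Nat.lt_mul_div_succ M hQ
    have h2 : (M : ℝ) < ((x : ℝ) + 1) * (Q * Y) := by exact_mod_cast h1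
    rw [div_le_iff₀ hQr]
    exact h2.le
  have hx2 : (x : ℝ) ≤ (M : ℝ) / (Q * Y) := by
    rw [le_div_iff₀ hQr]
    have := Nat.div_mul_le_self M (Q * Y)
    rw [← hx] at this
    exact_mod_cast this
  have hy2 : (M : ℝ) / (p * Q) ≤ y + 1 := by
    have hpe : 0 < p * Q := by positivity
    have h1 : M < (y + 1) * (p * Q) := by
      rw [hdd]
      rw [mul_comm]
      exact Nat.lt_mul_div_succ M hpe
    have h2 : (M : ℝ) < ((y : ℝ) + 1) * (p * Q) := by exact_mod_cast h1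
    rw [div_le_iff₀ (by positivity)]
    exact h2.le
  have hkey : (M : ℝ) / (Q * Y) - (M : ℝ) / (p * Q) ≤ (M : ℝ) / (Q * Y) / D := by
    have h1 : (M : ℝ) / (p * Q) = (M : ℝ) / (Q * Y) * (Y / p) := by
      field_simp
    rw [h1]
    have h2 : 1 - (Y : ℝ) / p ≤ 1 / D := by
      rw [one_sub_div hp0r.ne']
      have h3 : (p - Y : ℝ) ≤ Y / D := by linarith
      rw [div_le_div_iff₀ hp0r hD0]
      have h4 : (p - Y : ℝ) * D ≤ Y := by
        rw [← le_div_iff₀ hD0]; exact h3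
      linarith
    have h5 : (0 : ℝ) ≤ (M : ℝ) / (Q * Y) := by positivity
    calc (M : ℝ) / (Q * Y) - (M : ℝ) / (Q * Y) * (Y / p)
        = (M : ℝ) / (Q * Y) * (1 - Y / p) := by ring
      _ ≤ (M : ℝ) / (Q * Y) * (1 / D) := by gcongr
      _ = (M : ℝ) / (Q * Y) / D := by ring
  have hxy : (x : ℝ) - y ≤ ((x : ℝ) + 1) / D + 1 := by
    have h1 : (M : ℝ) / (Q * Y) / D ≤ ((x : ℝ) + 1) / D := by gcongr
    linarith
  have hx16r : 16 * (D : ℝ) + 2 * ((⌈B⌉₊ : ℝ) * D) ≤ x := by exact_mod_cast hx16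
  have hBc : B ≤ (⌈B⌉₊ : ℝ) := Nat.le_ceil B
  have hBD : B * D ≤ (⌈B⌉₊ : ℝ) * D := mul_le_mul_of_nonneg_right hBc hD0.le
  have hBD0 : 0 ≤ B * D := by positivity
  have hx0 : (0 : ℝ) < x := by linarith
  rw [div_le_div_iff₀ hx0 hD0]
  have h6 : ((x : ℝ) - y) * D ≤ (x : ℝ) + 1 + D := by
    have := mul_le_mul_of_nonneg_right hxy hD0.le
    have h7 : (((x : ℝ) + 1) / D + 1) * D = (x : ℝ) + 1 + D := by
      field_simp
    linarith
  have h8 : B * (((x : ℝ) - y) * D) ≤ B * ((x : ℝ) + 1 + D) := mul_le_mul_of_nonneg_left h6 hB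
  have h9 : B * 1 ≤ B * D := mul_le_mul_of_nonneg_left hDr hB
  nlinarith

theorem patf_norm {f : ℕ → ℕ → ℕ → ℝ} (hf : ∀ j i x, 0 ≤ f j i x ∧ f j i x ≤ 1)
    (r k : ℕ) (a : ℤ) (s : ℕ × ℕ × ℤ) : ‖patf f r k a s‖ ≤ 1 := by
  unfold patf
  apply prod_norm_le_one
  intro i _
  rw [Complex.norm_real, Real.norm_of_nonneg (hf _ _ _).1]
  exact (hf _ _ _).2

theorem cN {B : ℝ} {c : ℕ → ℕ → ℝ} (hc : SlowW B c) (j M : ℕ) :
    ‖((c j M : ℝ) : ℂ)‖ ≤ 1 := by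
  rw [Complex.norm_real, Real.norm_eq_abs]
  exact hc.1 j M

theorem OmZ_mulN (p : ℕ) (hp : p.Prime) (m : ℤ) (hm : 1 ≤ m) :
    OmZ ((p : ℤ) * m) = OmZ m + 1 := by
  obtain ⟨m', rfl⟩ := Int.eq_ofNat_of_zero_le (by omega : 0 ≤ m)
  have hm' : m' ≠ 0 := by omega
  unfold OmZ
  rw [← Nat.cast_mul, Int.toNat_natCast, Int.toNat_natCast,
    ArithmeticFunction.cardFactors_mul hp.ne_zero hm', ArithmeticFunction.cardFactors_apply_prime hp]
  ring

theorem patf_step (f : ℕ → ℕ → ℕ → ℝ) (r k a p : ℕ) (hp : p.Prime) (j M M' : ℕ) (n : ℤ)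
    (hn : 1 ≤ n) :
    patf f (r + 1) k a (j, M, n) = patf f r k ((a * p : ℕ) : ℤ) (j, M', (p : ℤ) * n) := by
  unfold patf
  apply Finset.prod_congr rfl
  intro i _
  have h1 : (p : ℤ) * n + (i : ℤ) * ((a * p : ℕ) : ℤ) = (p : ℤ) * (n + (i : ℤ) * (a : ℤ)) := by
    push_cast
    ring
  have h2 : 1 ≤ n + (i : ℤ) * (a : ℤ) := by
    have : 0 ≤ (i : ℤ) * (a : ℤ) := by positivity
    omega
  simp only
  rw [h1, OmZ_mulN p hp _ h2]
  have h3 : OmZ (n + (i : ℤ) * (a : ℤ)) + (r + 1) = OmZ (n + (i : ℤ) * (a : ℤ)) + 1 + r := by ring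
  rw [h3]

theorem step_q (w : Win) (f : ℕ → ℕ → ℕ → ℝ) (hf : ∀ j i x, 0 ≤ f j i x ∧ f j i x ≤ 1)
    (B : ℝ) (hB : 0 ≤ B) (c : ℕ → ℕ → ℝ) (hc : SlowW B c)
    (r k Q Y D a p : ℕ) (hD : 1 ≤ D) (hQ1 : 1 ≤ Q) (hY1 : 1 ≤ Y)
    (hp : p.Prime) (hp1 : Y ≤ p) (hp2 : p ≤ Y + Y / D) :
    ‖(appμ w).E (fun s => wq c Q s * patf f (r + 1) k a s) -
        (appμ w).E (fun s => wq c (Q * Y) s * patf f r k ((a * p : ℕ) : ℤ) s)‖ ≤ (B + 1) / D +
      ‖(appμ w).E (fun s => wq c (Q * Y) s * ((if (p : ℤ) ∣ s.2.2 then (p : ℂ) else 0) - 1) *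
        patf f r k ((a * p : ℕ) : ℤ) s)‖ := by
  have h1 : (appμ w).E (fun s => wq c Q s * patf f (r + 1) k a s) =
      (appμ w).E (fun s => ((c s.1 (s.2.1 / Q) : ℝ) : ℂ) *
        patf f r k ((a * p : ℕ) : ℤ) (s.1, 0, (p : ℤ) * s.2.2)) := by
    apply app_congr
    · exact Bd.mul ⟨1, fun s => cN hc _ _⟩ ⟨1, fun s => patf_norm hf _ k _ _⟩
    · exact Bd.mul ⟨1, fun s => cN hc _ _⟩ ⟨1, fun s => patf_norm hf _ k _ _⟩
    · intro j M n _ hn
      simp only [wq]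
      rw [patf_step f r k a p hp j M 0 n hn]
  have h2 := app_dil w p hp.one_le (fun j M => ((c j (M / Q) : ℝ) : ℂ))
    (fun j n => patf f r k ((a * p : ℕ) : ℤ) (j, 0, n)) (fun j M => cN hc _ _)
    (fun j n => patf_norm hf _ k _ _)
  beta_reduce at h2
  rw [h1, h2]
  obtain ⟨M0, hM0⟩ := wq_close B hB c hc Q Y D p hD hQ1 hY1 hp1 hp2
  set F : ℕ × ℕ × ℤ → ℂ := fun s => (((c s.1 (s.2.1 / p / Q) : ℝ) : ℂ) -
    ((c s.1 (s.2.1 / (Q * Y)) : ℝ) : ℂ)) * patf f r k ((a * p : ℕ) : ℤ) s with hF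
  set G : ℕ × ℕ × ℤ → ℝ := fun s => if (p : ℤ) ∣ s.2.2 then (p : ℝ) else 0 with hG
  have hBD : 0 ≤ (B + 1) / (D : ℝ) := by positivity
  have hFC : ∀ s, ‖F s‖ ≤ 2 := by
    intro s
    rw [hF]
    simp only
    rw [norm_mul]
    have h3 := norm_sub_le ((c s.1 (s.2.1 / p / Q) : ℝ) : ℂ)
      ((c s.1 (s.2.1 / (Q * Y)) : ℝ) : ℂ)
    have h4 := cN hc s.1 (s.2.1 / p / Q)
    have h5 := cN hc s.1 (s.2.1 / (Q * Y))
    have h6 := patf_norm hf r k ((a * p : ℕ) : ℤ) s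
    calc _ ≤ 2 * (1 : ℝ) := mul_le_mul (by linarith) h6 (norm_nonneg _) (by norm_num)
      _ = 2 := by norm_num
  have hFd : ∀ s, M0 ≤ s.2.1 → ‖F s‖ ≤ (B + 1) / D := by
    intro s hs
    rw [hF]
    simp only
    rw [norm_mul, ← Complex.ofReal_sub, Complex.norm_real, Real.norm_eq_abs]
    have h4 := hM0 s.1 s.2.1 hs
    have h6 := patf_norm hf r k ((a * p : ℕ) : ℤ) s
    calc _ ≤ (B + 1) / (D : ℝ) * (1 : ℝ) := mul_le_mul h4 h6 (norm_nonneg _) hBD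
      _ = (B + 1) / D := by ring
  have hG0 : ∀ s, 0 ≤ G s := by
    intro s
    rw [hG]
    simp only
    split_ifs <;> positivity
  have hGp : ∀ s, G s ≤ p := by
    intro s
    rw [hG]
    simp only
    split_ifs
    · exact le_rfl
    · positivity
  have hsmall := app_small w F G 2 p ((B + 1) / D) M0 hFC hG0 hGp hBD hFd
  rw [hG, app_div w p hp.one_le, mul_one, ← hG] at hsmall
  have hdec : (appμ w).E (fun s => ((c s.1 (s.2.1 / p / Q) : ℝ) : ℂ) *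
        ((if (p : ℤ) ∣ s.2.2 then (p : ℂ) else 0) *
          patf f r k ((a * p : ℕ) : ℤ) (s.1, 0, s.2.2))) -
        (appμ w).E (fun s => wq c (Q * Y) s * patf f r k ((a * p : ℕ) : ℤ) s) =
      (appμ w).E (fun s => F s * (G s : ℂ)) + (appμ w).E (fun s => wq c (Q * Y) s *
        ((if (p : ℤ) ∣ s.2.2 then (p : ℂ) else 0) - 1) * patf f r k ((a * p : ℕ) : ℤ) s) := by
    rw [← Mean.E_sub, ← Mean.E_add]
    congr 1
    funext s
    rw [hF, hG]
    simp only [wq]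
    have h7 : patf f r k ((a * p : ℕ) : ℤ) (s.1, 0, s.2.2) =
      patf f r k ((a * p : ℕ) : ℤ) s := rfl
    rw [h7]
    split_ifs
    · push_cast
      ring
    · push_cast
      ring
  rw [hdec]
  exact le_trans (norm_add_le _ _) (add_le_add hsmall le_rfl)

theorem avPc {P : Finset ℕ} {f g : ℕ → ℂ} {B : ℝ} (hB : 0 ≤ B)
    (h : ∀ p ∈ P, ‖f p - g p‖ ≤ B) : ‖avP P f - avP P g‖ ≤ B := by
  unfold avP
  rw [← mul_sub, ← Finset.sum_sub_distrib, norm_mul, norm_div, norm_one, Complex.norm_natCast]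
  rcases P.eq_empty_or_nonempty with rfl | hP
  · simpa using hB
  · have hc : (0 : ℝ) < P.card := by exact_mod_cast hP.card_pos
    have h1 : ‖∑ p ∈ P, (f p - g p)‖ ≤ P.card * B := by
      refine (norm_sum_le_of_le P h).trans ?_
      rw [Finset.sum_const, nsmul_eq_mul]
    calc 1 / (P.card : ℝ) * ‖∑ p ∈ P, (f p - g p)‖ ≤ 1 / (P.card : ℝ) * (P.card * B) := by
          gcongr
      _ = B := by field_simp

theorem avPs {P : Finset ℕ} (hP : P.Nonempty) {g : ℕ → ℂ} {x : ℂ} {B : ℝ}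
    {y : ℕ → ℝ} (h : ∀ p ∈ P, ‖x - g p‖ ≤ B + y p) :
    ‖x - avP P g‖ ≤ B + 1 / (P.card : ℝ) * ∑ p ∈ P, y p := by
  have hc : (0 : ℝ) < P.card := by exact_mod_cast hP.card_pos
  have h0 : x - avP P g = (1 / (P.card : ℂ)) * ∑ p ∈ P, (x - g p) := by
    rw [Finset.sum_sub_distrib, mul_sub, Finset.sum_const, nsmul_eq_mul]
    have hc' : (P.card : ℂ) ≠ 0 := by exact_mod_cast hP.card_pos.ne'
    unfold avP
    field_simp
  rw [h0, norm_mul, norm_div, norm_one, Complex.norm_natCast]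
  have h1 : ‖∑ p ∈ P, (x - g p)‖ ≤ P.card * B + ∑ p ∈ P, y p := by
    refine (norm_sum_le_of_le P h).trans ?_
    rw [Finset.sum_add_distrib, Finset.sum_const, nsmul_eq_mul]
  calc 1 / (P.card : ℝ) * ‖∑ p ∈ P, (x - g p)‖
      ≤ 1 / (P.card : ℝ) * (P.card * B + ∑ p ∈ P, y p) := by gcongr
    _ = B + 1 / (P.card : ℝ) * ∑ p ∈ P, y p := by
        rw [mul_add, ← mul_assoc, one_div_mul_cancel hc.ne', one_mul]

theorem pow_not_prime {l : ℕ} (hl : 2 ≤ l) : ¬ (2 ^ l).Prime :=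
  Nat.Prime.not_prime_pow hl

theorem dy_card (l : ℕ) (hl : 1 ≤ l) : ((dy l).card : ℝ) ≤ 4 * 2 ^ l / l := by
  have h := Helper13.Om.shell_card (dy l) (fun q hq => (Finset.mem_filter.1 hq).2) l hl
  have h1 : (dy l).filter (fun q => Nat.log 2 q = l) = dy l := by
    rw [Finset.filter_eq_self]
    intro q hq
    unfold dy at hq
    rw [Finset.mem_filter, Finset.mem_Ioc] at hq
    obtain ⟨⟨h2, h3⟩, h4⟩ := hq
    have h5 : q ≠ 2 ^ (l + 1) := by
      intro h6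
      rw [h6] at h4
      exact pow_not_prime (by omega) h4
    have h6 : q < 2 ^ (l + 1) := lt_of_le_of_ne h3 h5
    exact (Nat.log_eq_iff (Or.inl (by omega))).2 ⟨h2.le, h6⟩
  rwa [h1] at h

theorem u_nonneg (j : ℕ) : 0 ≤ 1 / (((j : ℝ) + 2) * Real.log ((j : ℝ) + 2)) := by
  have h1 : (1 : ℝ) ≤ (j : ℝ) + 2 := by
    have : (0 : ℝ) ≤ j := Nat.cast_nonneg j
    linarith
  have h2 := Real.log_nonneg h1
  positivity

theorem SFset_add {A : Set ℕ} (hA : SFset A) (a : ℕ) : SFset {l | l + a ∈ A} := by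
  have hlog2 : 0 < Real.log 2 := Real.log_pos (by norm_num)
  have ha0 : (0 : ℝ) ≤ a := Nat.cast_nonneg a
  have hla : 0 ≤ Real.log ((a : ℝ) + 1) := Real.log_nonneg (by linarith)
  set C : ℝ := (1 + a) * (1 + Real.log ((a : ℝ) + 1) / Real.log 2) with hC
  have hC0 : 0 ≤ C := by positivity
  have h1 := ((summable_nat_add_iff a).2 hA).mul_left C
  unfold SFset
  refine Summable.of_nonneg_of_le (fun n => ?_) (fun n => ?_) h1
  · exact Set.indicator_nonneg (fun j _ => u_nonneg j) _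
  · by_cases h2 : n + a ∈ A
    · rw [Set.indicator_of_notMem (by simp [h2]), Set.indicator_of_notMem (by simp [h2]), mul_zero]
    · rw [Set.indicator_of_mem (by simp [h2]), Set.indicator_of_mem (by simp [h2])]
      have hn0 : (0 : ℝ) ≤ n := Nat.cast_nonneg n
      have hl : Real.log 2 ≤ Real.log ((n : ℝ) + 2) := Real.log_le_log (by norm_num) (by linarith)
      have hl0 : 0 < Real.log ((n : ℝ) + 2) := by linarith
      have hcast : (((n + a : ℕ) : ℝ) + 2) = (n : ℝ) + a + 2 := by push_cast; ring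
      rw [hcast]
      have h3 : (n : ℝ) + a + 2 ≤ ((n : ℝ) + 2) * (1 + a) := by nlinarith
      have h4 : Real.log ((n : ℝ) + a + 2) ≤
          Real.log ((n : ℝ) + 2) * (1 + Real.log ((a : ℝ) + 1) / Real.log 2) := by
        have h5 : Real.log ((n : ℝ) + a + 2) ≤ Real.log ((n : ℝ) + 2) + Real.log ((a : ℝ) + 1) := by
          rw [← Real.log_mul (by positivity) (by positivity)]
          exact Real.log_le_log (by positivity) (by nlinarith)
        have h6 : Real.log ((a : ℝ) + 1) ≤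
            Real.log ((n : ℝ) + 2) * (Real.log ((a : ℝ) + 1) / Real.log 2) := by
          rw [← mul_div_assoc, le_div_iff₀ hlog2, mul_comm]
          exact mul_le_mul_of_nonneg_right hl hla
        rw [mul_add, mul_one]
        linarith
      have h7 : 0 < Real.log ((n : ℝ) + a + 2) := Real.log_pos (by linarith)
      rw [mul_one_div, div_le_div_iff₀ (by positivity) (by positivity), one_mul]
      calc ((n : ℝ) + a + 2) * Real.log ((n : ℝ) + a + 2)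
          ≤ (((n : ℝ) + 2) * (1 + a)) * (Real.log ((n : ℝ) + 2) *
            (1 + Real.log ((a : ℝ) + 1) / Real.log 2)) :=
            mul_le_mul h3 h4 h7.le (by positivity)
        _ = C * (((n : ℝ) + 2) * Real.log ((n : ℝ) + 2)) := by rw [hC]; ring

/-- the ratio of the primes, at the scales `t 2^l` -/
theorem ratio_t (P : ℕ → Finset ℕ) (D t a : ℕ) (ht : 1 ≤ t) (ha1 : 2 ^ a ≤ t)
    (ha2 : t < 2 ^ (a + 1))
    (hP1 : ∀ Y, ∀ p ∈ P Y, p.Prime ∧ Y ≤ p ∧ p ≤ Y + Y / D)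
    (κ : ℝ) (hκ : 0 < κ) (hP2 : ∀ᶠ Y : ℕ in atTop, κ * Y / Real.log Y ≤ ((P Y).card : ℝ)) :
    ∃ C : ℝ, 0 < C ∧ ∃ l0 : ℕ, ∀ l : ℕ, l0 ≤ l →
      P (t * 2 ^ l) ⊆ dy (l + a) ∪ dy (l + a + 1) ∧ (P (t * 2 ^ l)).Nonempty ∧
      ((dy (l + a)).card : ℝ) + ((dy (l + a + 1)).card : ℝ) ≤ C * (P (t * 2 ^ l)).card := by
  have h2 : Tendsto (fun l : ℕ => t * 2 ^ l) atTop atTop :=
    Tendsto.const_mul_atTop' (by omega)
      (tendsto_pow_atTop_atTop_of_one_lt (one_lt_two : (1 : ℕ) < 2))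
  obtain ⟨l1, hl1⟩ := eventually_atTop.1 (h2.eventually hP2)
  have hlog : 0 < Real.log 2 := Real.log_pos one_lt_two
  refine ⟨24 * Real.log 2 / κ, by positivity, max l1 2, fun l hl => ?_⟩
  have hl1' : l1 ≤ l := (le_max_left _ _).trans hl
  have hl2 : 2 ≤ l := (le_max_right _ _).trans hl
  set Y : ℕ := t * 2 ^ l with hY
  have hYl : 2 ^ (l + a) ≤ Y := by
    rw [hY, pow_add, mul_comm]
    exact Nat.mul_le_mul_right _ ha1
  have hYu : Y < 2 ^ (l + a + 1) := by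
    rw [hY, add_assoc, pow_add 2 l, mul_comm]
    exact Nat.mul_lt_mul_of_pos_left ha2 (by positivity)
  have hm : (0 : ℝ) < ((l + a : ℕ) : ℝ) := by exact_mod_cast (by omega : 0 < l + a)
  have hm1 : (1 : ℝ) ≤ ((l + a : ℕ) : ℝ) := by exact_mod_cast (by omega : 1 ≤ l + a)
  have hY0 : (0 : ℝ) < (Y : ℝ) := by
    exact_mod_cast lt_of_lt_of_le (by positivity) hYl
  have hYlr : (2 : ℝ) ^ (l + a) ≤ (Y : ℝ) := by exact_mod_cast hYl
  have hYur : (Y : ℝ) ≤ (2 : ℝ) ^ (l + a + 1) := by exact_mod_cast hYu.le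
  have hY2 : (4 : ℝ) ≤ (Y : ℝ) := by
    have : (2 : ℝ) ^ 2 ≤ (2 : ℝ) ^ (l + a) := pow_le_pow_right₀ (by norm_num) (by omega)
    linarith
  have hlogY0 : 0 < Real.log Y := Real.log_pos (by linarith)
  have hlogY : Real.log Y ≤ 2 * ((l + a : ℕ) : ℝ) * Real.log 2 := by
    have h3 := Real.log_le_log hY0 hYur
    rw [Real.log_pow] at h3
    refine h3.trans ?_
    apply mul_le_mul_of_nonneg_right _ hlog.le
    push_cast at hm1 ⊢
    linarith
  have h3 : κ * 2 ^ (l + a) / (2 * ((l + a : ℕ) : ℝ) * Real.log 2) ≤ ((P Y).card : ℝ) := by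
    refine le_trans ?_ (hl1 l hl1')
    have e1 : κ * 2 ^ (l + a) / (2 * ((l + a : ℕ) : ℝ) * Real.log 2) ≤
        κ * 2 ^ (l + a) / Real.log Y :=
      div_le_div_of_nonneg_left (by positivity) hlogY0 hlogY
    refine e1.trans ?_
    exact div_le_div_of_nonneg_right (mul_le_mul_of_nonneg_left hYlr hκ.le) hlogY0.le
  have h4 : (0 : ℝ) < κ * 2 ^ (l + a) / (2 * ((l + a : ℕ) : ℝ) * Real.log 2) := by positivity
  refine ⟨?_, ?_, ?_⟩
  · intro p hp
    obtain ⟨h7, h5, h6⟩ := hP1 _ p hp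
    have hYD := Nat.div_le_self Y D
    have h8 : p ≠ 2 ^ (l + a) := by
      intro h9
      rw [h9] at h7
      exact pow_not_prime (by omega) h7
    have h9 : 2 ^ (l + a) < p := lt_of_le_of_ne (hYl.trans h5) (Ne.symm h8)
    have h10 : p ≤ 2 ^ (l + a + 1 + 1) := by
      rw [pow_succ 2 (l + a + 1)]
      omega
    rw [Finset.mem_union]
    rcases le_or_gt p (2 ^ (l + a + 1)) with h11 | h11
    · left
      unfold dy
      rw [Finset.mem_filter, Finset.mem_Ioc]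
      exact ⟨⟨h9, h11⟩, h7⟩
    · right
      unfold dy
      rw [Finset.mem_filter, Finset.mem_Ioc]
      exact ⟨⟨h11, h10⟩, h7⟩
  · rw [← Finset.card_pos]
    have : (0 : ℝ) < ((P Y).card : ℝ) := lt_of_lt_of_le h4 h3
    exact_mod_cast this
  · have d1 := dy_card (l + a) (by omega)
    have d2 := dy_card (l + a + 1) (by omega)
    have d3 : 4 * (2 : ℝ) ^ (l + a + 1) / ((l + a + 1 : ℕ) : ℝ) ≤
        8 * 2 ^ (l + a) / ((l + a : ℕ) : ℝ) := by
      have e1 : 4 * (2 : ℝ) ^ (l + a + 1) = 8 * 2 ^ (l + a) := by rw [pow_succ]; ring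
      rw [e1]
      apply div_le_div_of_nonneg_left (by positivity) hm
      push_cast
      linarith
    calc ((dy (l + a)).card : ℝ) + ((dy (l + a + 1)).card : ℝ)
        ≤ 4 * 2 ^ (l + a) / ((l + a : ℕ) : ℝ) + 8 * 2 ^ (l + a) / ((l + a : ℕ) : ℝ) := by linarith
      _ = 24 * Real.log 2 / κ * (κ * 2 ^ (l + a) / (2 * ((l + a : ℕ) : ℝ) * Real.log 2)) := by
          field_simp
          norm_num
      _ ≤ _ := by gcongr

theorem chain_q (hEnt : Ent) (w : Win) (f : ℕ → ℕ → ℕ → ℝ)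
    (hf : ∀ j i x, f j i x = 0 ∨ f j i x = 1)
    (B : ℝ) (hB : 0 ≤ B) (c : ℕ → ℕ → ℝ) (hc : SlowW B c) (r k Q D a : ℕ)
    (hD : 1 ≤ D) (hQ : 1 ≤ Q) (ha : 1 ≤ a) (P : ℕ → Finset ℕ) (t : ℕ) (ht : 1 ≤ t)
    (hP1 : ∀ Y, ∀ p ∈ P Y, p.Prime ∧ Y ≤ p ∧ p ≤ Y + Y / D)
    (κ : ℝ) (hκ : 0 < κ) (hP2 : ∀ᶠ Y : ℕ in atTop, κ * Y / Real.log Y ≤ ((P Y).card : ℝ))
    (ε : ℝ) (hε : 0 < ε) :
    SFset {l | ‖(appμ w).E (fun s => wq c Q s * patf f (r + 1) k a s) -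
      avP (P (t * 2 ^ l)) (fun p => (appμ w).E (fun s => wq c (Q * (t * 2 ^ l)) s *
        patf f r k ((a * p : ℕ) : ℤ) s))‖ ≤ (B + 1) / D + ε} := by
  have hf1 : ∀ j i x, 0 ≤ f j i x ∧ f j i x ≤ 1 := by
    intro j i x
    rcases hf j i x with h | h <;> rw [h] <;> norm_num
  set b : ℕ := Nat.log 2 t with hb
  have hb1 : 2 ^ b ≤ t := Nat.pow_log_le_self 2 (by omega)
  have hb2 : t < 2 ^ (b + 1) := Nat.lt_pow_succ_log_self (by norm_num) t
  obtain ⟨C, hC, l0, h⟩ := ratio_t P D t b ht hb1 hb2 hP1 κ hκ hP2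
  have hE := hEnt (app w) (fun s => s.2.2) (fun _ => rfl) k
    (fun i s => f s.1 i (OmZ s.2.2 + r))
    (fun i x => hf _ _ _) a ha (ε / (C + 1)) (by positivity)
  refine SFset_mono ?_ (SFset_inter (SFset_inter (SFset_add hE b) (SFset_add hE (b + 1)))
    (SFset_ge l0))
  rintro l ⟨⟨hl1, hl1'⟩, hl2⟩
  obtain ⟨hsub, hne, hcard⟩ := h l hl2
  have hTI : ∀ s, ‖wq c (Q * (t * 2 ^ l)) s‖ ≤ 1 := fun s => by
    unfold wq
    exact cN hc _ _
  have h1 := hl1 (wq c (Q * (t * 2 ^ l))) hTI (fun _ => rfl)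
  have h1' := hl1' (wq c (Q * (t * 2 ^ l))) hTI (fun _ => rfl)
  have hkey : ∀ p : ℕ, (fun x : (app w).S => wq c (Q * (t * 2 ^ l)) x *
      ((if (p : ℤ) ∣ (fun s : (app w).S => s.2.2) x then (p : ℂ) else 0) - 1) *
        ∏ i ∈ range (k + 1), (((fun i (s : (app w).S) => f s.1 i (OmZ s.2.2 + r)) i
          (((app w).T ^ ((i : ℤ) * (a * p))) x) : ℝ) : ℂ)) =
      fun s => wq c (Q * (t * 2 ^ l)) s * ((if (p : ℤ) ∣ s.2.2 then (p : ℂ) else 0) - 1) *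
        patf f r k ((a * p : ℕ) : ℤ) s := by
    intro p
    funext s
    obtain ⟨j, M, n⟩ := s
    have h2 : (∏ i ∈ range (k + 1), (((fun i (s : (app w).S) => f s.1 i (OmZ s.2.2 + r)) i
          (((app w).T ^ ((i : ℤ) * (a * p))) (j, M, n)) : ℝ) : ℂ)) =
        patf f r k ((a * p : ℕ) : ℤ) (j, M, n) := by
      unfold patf
      refine Finset.prod_congr rfl fun i _ => ?_
      have h3 : ((app w).T ^ ((i : ℤ) * (a * p))) (j, M, n) =
          (j, M, n + (i : ℤ) * (a * p)) := shT_zpow _ j M n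
      rw [h3]
      push_cast
      rfl
    rw [h2]
  set y : ℕ → ℝ := fun p => ‖(appμ w).E (fun s => wq c (Q * (t * 2 ^ l)) s *
      ((if (p : ℤ) ∣ s.2.2 then (p : ℂ) else 0) - 1) * patf f r k ((a * p : ℕ) : ℤ) s)‖ with hy
  have hy0 : ∀ p, 0 ≤ y p := fun p => norm_nonneg _
  have hconv : ∀ j : ℕ, (1 / ((dy j).card : ℝ)) * ∑ p ∈ dy j, ‖(app w).μ.E
      (fun x => wq c (Q * (t * 2 ^ l)) x *
      ((if (p : ℤ) ∣ (fun s : (app w).S => s.2.2) x then (p : ℂ) else 0) - 1) *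
        ∏ i ∈ range (k + 1), (((fun i (s : (app w).S) => f s.1 i (OmZ s.2.2 + r)) i
          (((app w).T ^ ((i : ℤ) * (a * p))) x) : ℝ) : ℂ))‖ ≤ ε / (C + 1) →
      ∑ p ∈ dy j, y p ≤ (dy j).card * (ε / (C + 1)) := by
    intro j hj
    rcases (dy j).eq_empty_or_nonempty with h0 | h0
    · rw [h0]
      simp
    · have hcd : (0 : ℝ) < (dy j).card := by exact_mod_cast h0.card_pos
      have h2 : (1 / ((dy j).card : ℝ)) * ∑ p ∈ dy j, y p ≤ ε / (C + 1) := by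
        refine le_trans (le_of_eq ?_) hj
        congr 1
        refine Finset.sum_congr rfl fun p _ => ?_
        rw [hkey p]
        rfl
      have h6 : (dy j).card * ((1 / ((dy j).card : ℝ)) * ∑ p ∈ dy j, y p) ≤
          (dy j).card * (ε / (C + 1)) := mul_le_mul_of_nonneg_left h2 hcd.le
      rwa [← mul_assoc, mul_one_div_cancel hcd.ne', one_mul] at h6
  have hY1 : 1 ≤ t * 2 ^ l := Nat.mul_pos ht (by positivity)
  have h3 := avPs hne (g := fun p => (appμ w).E (fun s => wq c (Q * (t * 2 ^ l)) s *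
        patf f r k ((a * p : ℕ) : ℤ) s)) (x := (appμ w).E (fun s => wq c Q s *
          patf f (r + 1) k a s)) (B := (B + 1) / D) (y := y) (fun p hp => by
      obtain ⟨q1, q2, q3⟩ := hP1 _ p hp
      exact step_q w f hf1 B hB c hc r k Q (t * 2 ^ l) D a p hD hQ hY1 q1 q2 q3)
  refine h3.trans (add_le_add le_rfl ?_)
  have hcP : (0 : ℝ) < (P (t * 2 ^ l)).card := by exact_mod_cast hne.card_pos
  have h4 : ∑ p ∈ P (t * 2 ^ l), y p ≤ ∑ p ∈ dy (l + b), y p + ∑ p ∈ dy (l + b + 1), y p := by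
    refine (Finset.sum_le_sum_of_subset_of_nonneg hsub fun p _ _ => hy0 p).trans ?_
    rw [← Finset.sum_union_inter]
    exact le_add_of_nonneg_right (Finset.sum_nonneg fun p _ => hy0 p)
  have h5 := hconv (l + b) h1
  have h6 := hconv (l + b + 1) h1'
  have hε' : 0 ≤ ε / (C + 1) := by positivity
  have h7 : ∑ p ∈ P (t * 2 ^ l), y p ≤ C * (P (t * 2 ^ l)).card * (ε / (C + 1)) := by
    have e1 := mul_le_mul_of_nonneg_right hcard hε'
    rw [add_mul] at e1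
    linarith
  calc 1 / ((P (t * 2 ^ l)).card : ℝ) * ∑ p ∈ P (t * 2 ^ l), y p
      ≤ 1 / ((P (t * 2 ^ l)).card : ℝ) * (C * (P (t * 2 ^ l)).card * (ε / (C + 1))) := by
        gcongr
    _ = C / (C + 1) * ε := by field_simp
    _ ≤ 1 * ε := by
        refine mul_le_mul_of_nonneg_right ?_ hε.le
        rw [div_le_one (by positivity)]
        linarith
    _ = ε := one_mul ε

end S5

open S5 in
theorem chain_m (hPR : PR) (hPRm : PRm) (hEnt : Ent) (V : Ultrafilter ℕ) (hV : GoodU V) (w : Win)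
    (f : ℕ → ℕ → ℕ → ℝ) (hf : ∀ j i x, f j i x = 0 ∨ f j i x = 1) (B : ℝ) (hB : 0 ≤ B)
    (c : ℕ → ℕ → ℝ) (hc : SlowW B c) (k D q t : ℕ) (hD : 1 ≤ D) (hq : 1 ≤ q) (ht : 1 ≤ t)
    (ε : ℝ) (hε : 0 < ε) :
    ∀ᶠ i in (V : Filter ℕ), ∀ᶠ l in (V : Filter ℕ),
      ‖(appμ w).E (fun s => wtc c 0 s * patf f 2 k 1 s) -
        avP (PW D q (2 ^ i)) (fun p => avP (PWm D q (t * 2 ^ l)) (fun p' =>
          (appμ w).E (fun s => wq c (2 ^ i * (t * 2 ^ l)) s *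
            patf f 0 k ((p * p' : ℕ) : ℤ) s)))‖ ≤ 2 * (B + 1) / D + ε := by
  have hq0 : (0 : ℝ) < q.totient := by exact_mod_cast Nat.totient_pos.2 hq
  obtain ⟨c1, hc1, hP1⟩ := hPR D hD
  obtain ⟨c2, hc2, hP2⟩ := hPRm D hD
  have hPW : ∀ Y, ∀ p ∈ PW D q Y, p.Prime ∧ Y ≤ p ∧ p ≤ Y + Y / D := by
    intro Y p hp
    unfold PW at hp
    rw [Finset.mem_filter, Finset.mem_Icc] at hp
    exact ⟨hp.2.1, hp.1.1, hp.1.2⟩
  have hPWm : ∀ Y, ∀ p ∈ PWm D q Y, p.Prime ∧ Y ≤ p ∧ p ≤ Y + Y / D := by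
    intro Y p hp
    unfold PWm at hp
    rw [Finset.mem_filter, Finset.mem_Icc] at hp
    exact ⟨hp.2.1, hp.1.1, hp.1.2⟩
  have hconv : ∀ (c0 : ℝ) (Y : ℕ), c0 * Y / (q.totient * Real.log Y) =
      c0 / q.totient * Y / Real.log Y := by
    intro c0 Y
    rw [mul_comm (q.totient : ℝ), ← div_div, div_right_comm, div_mul_eq_mul_div, mul_comm c0]
  have hR1 : ∀ᶠ Y : ℕ in atTop, c1 / q.totient * Y / Real.log Y ≤ ((PW D q Y).card : ℝ) := by
    filter_upwards [hP1 q hq] with Y hY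
    rwa [hconv] at hY
  have hR2 : ∀ᶠ Y : ℕ in atTop, c2 / q.totient * Y / Real.log Y ≤ ((PWm D q Y).card : ℝ) := by
    filter_upwards [hP2 q hq] with Y hY
    rwa [hconv] at hY
  have h1 := hV _ (chain_q hEnt w f hf B hB c hc 1 k 1 D 1 hD le_rfl le_rfl (PW D q) 1 le_rfl
    hPW (c1 / q.totient) (by positivity) hR1 (ε / 2) (by positivity))
  filter_upwards [h1] with i hi
  have h2 : ∀ᶠ l in (V : Filter ℕ), ∀ p ∈ PW D q (2 ^ i),
      ‖(appμ w).E (fun s => wq c (2 ^ i) s * patf f 1 k p s) -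
        avP (PWm D q (t * 2 ^ l)) (fun p' => (appμ w).E (fun s => wq c (2 ^ i * (t * 2 ^ l)) s *
          patf f 0 k ((p * p' : ℕ) : ℤ) s))‖ ≤ (B + 1) / D + ε / 2 := by
    rw [Filter.eventually_all_finset]
    intro p hp
    exact hV _ (chain_q hEnt w f hf B hB c hc 0 k (2 ^ i) D p hD Nat.one_le_two_pow
      (hPW _ p hp).1.one_lt.le (PWm D q) t ht hPWm (c2 / q.totient) (by positivity) hR2
      (ε / 2) (by positivity))
  filter_upwards [h2] with l hl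
  have h3 := avPc (by positivity) hl
  simp only [one_mul, Nat.cast_one, Nat.reduceAdd] at hi
  have hw : (fun s : ℕ × ℕ × ℤ => wtc c 0 s * patf f 2 k 1 s) =
      fun s => wq c 1 s * patf f 2 k 1 s := by
    funext s
    simp only [wtc, wq, pow_zero]
  rw [hw]
  refine (norm_sub_le_norm_sub_add_norm_sub _ _ _).trans ((add_le_add hi h3).trans ?_)
  apply le_of_eq
  ring

end DG
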