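import Pool.Agent.Helper6.DG.S4Facts
import Pool.Agent.Helper6.DG.S5Chain

/-!
# SYM-6: the limit identity

PROOF. Copy of `mean_zero` (E6Zero.lean). Fix `D ≥ 1`, `V`, `U` (`exists_goodU`, `exists_iter`). Put
`c' j M = c j (M / t)`; it is slowly varying for large `M`; to avoid a new slow variation argument apply
`chain_gen` to `c'` after proving `SlowW (B') c'` with `B' = 2 * B * t + 2` or similar: for `M' ≤ M`:
if `M / t ≥ 1` and `M' / t ≥ 1`: `|c (M/t) - c (M'/t)| ≤ B (M/t - M'/t) / (M/t)`,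
`M/t - M'/t ≤ (M - M') / t + 1` and it is `0` if ... ; since `M/t - M'/t ≤ M - M'` (integers) and
`M/t ≥ M / (2 t)` (as reals, when `M ≥ t`) the quotient is `≤ 2 t (M - M') / M`. If `M' < t`:
either `M < t`, then both are `c j 0` and the difference is `0`, or `M' < t ≤ M`:
`|..| ≤ 2 ≤ 2 t (M - M') / M * ...`; here `M - M' ≥ 1` and if `M ≤ 2 t` then `2 t (M - M') / M ≥ 1`, if
`M > 2 t` then `(M - M') / M ≥ 1/2`. So `B' = 2 t B + 4 t` works.
* positive side: `chain_gen` for `c'`, `f`: `E[wtc c' 0 * patf f 2 k 1]` is within `2 (B' + 1) / D + ε` of the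
 average over `p ∈ PW (2^i)`, `p' ∈ PW (2^l)` of `E[c j (M / 2^(i+l) / t) * patf f 0 k (p p')]`.
* negative side: `chain_m` for `c`, `revf k f`: `E[wtc c 0 * patf (revf k f) 2 k 1]` is within
 `2 (B + 1) / D + ε` of the average over `p ∈ PW (2^i)`, `p' ∈ PWm (t 2^l)` of
 `E[c j (M / (2^i t 2^l)) * patf (revf k f) 0 k (p p')]`, and by the invariance of the mean under `shT ^ (k m)`
 (`Sys.inv_zpow` for `app w`, the weight is invariant): `E[wq * patf (revf k f) 0 k m] =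
 E[wq * patf f 0 k (-m)]` for every `m : ℤ` (`prod_range_reflect`).
* `M / 2^(i+l) / t = M / (2^i * (t * 2^l))` (`Nat.div_div_eq_div_mul`).
* `hSt`: `St U (cwS D t) k` for the system `app w`, `G i s = f s.1 i (OmZ s.2.2)`,
 `C r s = wq c (2 ^ r.2.1 * (t * 2 ^ r.2.2.2)) s` (invariant, bounded by `1`).
* let `ε → 0`, `D → ∞`.
-/

set_option autoImplicit false

namespace DG

open Finset Filter Topology

namespace S6

theorem slow_div (B : ℝ) (hB : 0 ≤ B) (c : ℕ → ℕ → ℝ) (hc : SlowW B c) (t : ℕ) (ht : 1 ≤ t) :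
    SlowW (2 * t * B + 4 * t) (fun j M => c j (M / t)) := by
  have htr : (1 : ℝ) ≤ t := by exact_mod_cast ht
  refine ⟨fun j M => hc.1 j _, fun j M M' h1 h2 => ?_⟩
  have hM : (0 : ℝ) < M := by exact_mod_cast (by omega : 0 < M)
  have h2r : (M' : ℝ) ≤ M := by exact_mod_cast h2
  have hd0 : (0 : ℝ) ≤ (M : ℝ) - M' := by linarith
  change |c j (M / t) - c j (M' / t)| ≤ (2 * t * B + 4 * t) * ((M : ℝ) - M') / M
  rcases Nat.lt_or_ge M' t with h3 | h3
  · rw [Nat.div_eq_of_lt h3]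
    rcases Nat.lt_or_ge M t with h4 | h4
    · rw [Nat.div_eq_of_lt h4, sub_self, abs_zero]
      positivity
    · have h5 : |c j (M / t) - c j 0| ≤ 2 := by
        have a1 := abs_le.1 (hc.1 j (M / t))
        have a2 := abs_le.1 (hc.1 j 0)
        rw [abs_le]
        constructor <;> linarith
      refine h5.trans ?_
      rw [le_div_iff₀ hM]
      have h6 : (M' : ℝ) + 1 ≤ t := by exact_mod_cast h3
      have h7 : (t : ℝ) ≤ M := by exact_mod_cast h4
      have h8 : 0 ≤ 2 * (t : ℝ) * B * (M - M') := by positivity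
      have h9 : (2 * t * B + 4 * t) * ((M : ℝ) - M') = 2 * (t : ℝ) * B * (M - M') +
        4 * (t * (M - M')) := by ring
      rw [h9]
      have h10 : (M : ℝ) ≤ 2 * (t * (M - M')) := by
        rcases le_or_gt (M : ℝ) (2 * t) with h11 | h11
        · have : (t : ℝ) * 1 ≤ t * (M - M') :=
            mul_le_mul_of_nonneg_left (by linarith) (by linarith)
          linarith
        · have : 1 * ((M : ℝ) - M') ≤ t * (M - M') := mul_le_mul_of_nonneg_right htr hd0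
          linarith
      linarith
  · have ht0 : 0 < t := ht
    have g1 : 1 ≤ M' / t := (Nat.one_le_div_iff ht0).2 h3
    have g2 : M' / t ≤ M / t := Nat.div_le_div_right h2
    have g3 : 1 ≤ M / t := g1.trans g2
    refine (hc.2 j (M / t) (M' / t) g1 g2).trans ?_
    have g4 : M < (M / t + 1) * t := by
      have := Nat.lt_div_mul_add (a := M) ht0
      rw [add_mul, one_mul]
      exact this
    have g5 : (M : ℝ) ≤ 2 * t * ((M / t : ℕ) : ℝ) := by
      have : M ≤ 2 * t * (M / t) := by nlinarith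
      exact_mod_cast this
    have g6 : M / t - M' / t ≤ M - M' := by
      have e1 : M = M' + (M - M') := by omega
      have e2 : M / t ≤ M' / t + (M - M') := by
        calc M / t = (M' + (M - M')) / t := by rw [← e1]
          _ ≤ (M' + t * (M - M')) / t := Nat.div_le_div_right
              (Nat.add_le_add_left (Nat.le_mul_of_pos_left _ ht0) _)
          _ = M' / t + (M - M') := Nat.add_mul_div_left _ _ ht0
      omega
    have g7 : ((M / t : ℕ) : ℝ) - ((M' / t : ℕ) : ℝ) ≤ (M : ℝ) - M' := by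
      rw [← Nat.cast_sub g2, ← Nat.cast_sub h2]
      exact_mod_cast g6
    have g8 : (0 : ℝ) < ((M / t : ℕ) : ℝ) := by exact_mod_cast g3
    have g9 : B * (((M / t : ℕ) : ℝ) - ((M' / t : ℕ) : ℝ)) ≤ B * ((M : ℝ) - M') :=
      mul_le_mul_of_nonneg_left g7 hB
    have g10 : 0 ≤ B * ((M : ℝ) - M') := mul_nonneg hB hd0
    calc B * (((M / t : ℕ) : ℝ) - ((M' / t : ℕ) : ℝ)) / ((M / t : ℕ) : ℝ)
        ≤ B * ((M : ℝ) - M') / ((M / t : ℕ) : ℝ) := div_le_div_of_nonneg_right g9 g8.le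
      _ ≤ 2 * t * B * ((M : ℝ) - M') / M := by
          rw [div_le_div_iff₀ g8 hM]
          have := mul_le_mul_of_nonneg_left g5 g10
          nlinarith
      _ ≤ (2 * t * B + 4 * t) * ((M : ℝ) - M') / M := by
          apply div_le_div_of_nonneg_right _ hM.le
          apply mul_le_mul_of_nonneg_right _ hd0
          linarith

theorem E_W (w : Win) (c : ℤ →₀ ℝ) (C : ℕ × ℕ × ℤ → ℂ) (F : ℤ → ℕ × ℕ × ℤ → ℂ) :
    (appμ w).E (fun x => C x * W c (fun m => F m x)) =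
      W c (fun m => (appμ w).E (fun x => C x * F m x)) := by
  unfold W
  have h1 : (fun x => C x * ∑ m ∈ c.support, (c m : ℂ) * F m x) =
      fun x => ∑ m ∈ c.support, (c m : ℂ) * (C x * F m x) := by
    funext x
    rw [Finset.mul_sum]
    refine Finset.sum_congr rfl fun m _ => ?_
    ring
  rw [h1, Mean.E_sum]
  refine Finset.sum_congr rfl fun m _ => ?_
  exact Mean.E_const_mul _ _ _

theorem cor_app (w : Win) (f : ℕ → ℕ → ℕ → ℝ) (k : ℕ) (m : ℤ) (s : ℕ × ℕ × ℤ) :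
    cor (app w) k (fun i s => ((f s.1 i (OmZ s.2.2) : ℝ) : ℂ)) m s = patf f 0 k m s := by
  unfold cor patf
  refine Finset.prod_congr rfl fun i _ => ?_
  obtain ⟨j, M, x⟩ := s
  have h : (((app w).T ^ ((i : ℤ) * m)) (j, M, x) : ℕ × ℕ × ℤ) = (j, M, x + (i : ℤ) * m) :=
    shT_zpow _ _ _ _
  rw [h]
  rfl

theorem refl (w : Win) (f : ℕ → ℕ → ℕ → ℝ) (hf : ∀ j i x, f j i x = 0 ∨ f j i x = 1) (B : ℝ)
    (c : ℕ → ℕ → ℝ) (hc : SlowW B c) (Q k : ℕ) (m : ℤ) :
    (appμ w).E (fun s => wq c Q s * patf (revf k f) 0 k m s) =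
      (appμ w).E (fun s => wq c Q s * patf f 0 k (-m) s) := by
  have hf1 : ∀ j i x, 0 ≤ f j i x ∧ f j i x ≤ 1 := by
    intro j i x
    rcases hf j i x with h | h <;> rw [h] <;> norm_num
  have hB : Bd (fun s : (app w).S => wq c Q s * patf f 0 k (-m) s) := by
    refine Bd.mul ⟨1, fun s => S5.cN hc _ _⟩ ⟨1, fun s => S5.patf_norm hf1 _ _ _ _⟩
  have h := (app w).inv_zpow ((k : ℤ) * m) _ hB
  refine Eq.trans ?_ h
  change (appμ w).E _ = (appμ w).E _
  congr 1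
  funext s
  obtain ⟨j, M, x⟩ := s
  have h1 : (((app w).T ^ ((k : ℤ) * m)) (j, M, x) : ℕ × ℕ × ℤ) = (j, M, x + (k : ℤ) * m) :=
    shT_zpow _ _ _ _
  rw [h1]
  have h2 : patf (revf k f) 0 k m (j, M, x) = patf f 0 k (-m) (j, M, x + (k : ℤ) * m) := by
    unfold patf
    rw [← Finset.prod_range_reflect]
    refine Finset.prod_congr rfl fun i hi => ?_
    have hik : i ≤ k := by
      have := Finset.mem_range.1 hi
      omega
    have e1 : k + 1 - 1 - i = k - i := by omega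
    have e2 : k - (k - i) = i := by omega
    have e3 : x + ((k - i : ℕ) : ℤ) * m = x + (k : ℤ) * m + (i : ℤ) * (-m) := by
      rw [Nat.cast_sub hik]
      ring
    simp only [revf, e1, e2, e3]
  rw [h2]
  rfl

theorem PWm_ne (hPRm : PRm) (D q t : ℕ) (hD : 1 ≤ D) (hq : 1 ≤ q) (ht : 1 ≤ t) :
    ∃ l0 : ℕ, ∀ l : ℕ, l0 ≤ l → (PWm D q (t * 2 ^ l)).Nonempty := by
  obtain ⟨κ, hκ, h⟩ := hPRm D hD
  have hq0 : (0 : ℝ) < q.totient := by exact_mod_cast Nat.totient_pos.2 hq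
  have h2 : Tendsto (fun l : ℕ => t * 2 ^ l) atTop atTop :=
    Tendsto.const_mul_atTop' (by omega)
      (tendsto_pow_atTop_atTop_of_one_lt (one_lt_two : (1 : ℕ) < 2))
  obtain ⟨l1, hl1⟩ := eventually_atTop.1 ((h2.eventually (h q hq)).and
    (h2.eventually (eventually_ge_atTop 2)))
  refine ⟨l1, fun l hl => ?_⟩
  obtain ⟨h3, h4⟩ := hl1 l hl
  have h5 : (2 : ℝ) ≤ ((t * 2 ^ l : ℕ) : ℝ) := by exact_mod_cast h4
  have h6 : 0 < Real.log ((t * 2 ^ l : ℕ) : ℝ) := Real.log_pos (by linarith)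
  have h7 : (0 : ℝ) < κ * ((t * 2 ^ l : ℕ) : ℝ) / (q.totient * Real.log ((t * 2 ^ l : ℕ) : ℝ)) := by
    positivity
  rw [← Finset.card_pos]
  exact_mod_cast lt_of_lt_of_le h7 h3

theorem rev_close (hPR : PR) (hPRm : PRm) (hEnt : Ent) (t : ℕ) (ht : 1 ≤ t)
    (hSt : ∀ D : ℕ, 1 ≤ D → ∀ (V : Ultrafilter ℕ) (U : Ultrafilter (ℕ × ℕ × ℕ × ℕ)), GoodU V →
      IsIter V U → ∀ k, St U (cwS D t) k)
    (w : Win) (f : ℕ → ℕ → ℕ → ℝ) (hf : ∀ j i x, f j i x = 0 ∨ f j i x = 1) (B : ℝ) (hB : 0 ≤ B)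
    (c : ℕ → ℕ → ℝ) (hc : SlowW B c) (k D : ℕ) (hD : 1 ≤ D) (ε : ℝ) (hε : 0 < ε) :
    ‖(appμ w).E (fun s => wq c t s * patf f 2 k 1 s) -
      (appμ w).E (fun s => wq c 1 s * patf (revf k f) 2 k 1 s)‖ ≤
      (2 * ((2 * t * B + 4 * t) + 1) / D + 2 * (B + 1) / D) + 3 * ε := by
  obtain ⟨V, hV⟩ := exists_goodU
  obtain ⟨U, hU⟩ := exists_iter V
  have hVt := goodU_le hV
  have hS := hSt D hD V U hV hU k (app w) (fun i s => ((f s.1 i (OmZ s.2.2) : ℝ) : ℂ))
    (fun i => ⟨1, fun s => by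
      rw [Complex.norm_real]
      rcases hf s.1 i (OmZ s.2.2) with h | h <;> rw [h] <;> simp⟩)
    (fun r s => wq c (2 ^ r.2.1 * (t * 2 ^ r.2.2.2)) s) (fun r s => S5.cN hc _ _)
    (fun r s => by
      obtain ⟨j, M, x⟩ := s
      rfl)
  have hS1 : ∀ᶠ r in (U : Filter (ℕ × ℕ × ℕ × ℕ)),
      ‖W (cwS D t r) (fun m => (appμ w).E (fun s => wq c (2 ^ r.2.1 * (t * 2 ^ r.2.2.2)) s *
        patf f 0 k m s))‖ < ε := by
    have h1 := hS.norm
    rw [norm_zero] at h1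
    have h2 := h1.eventually (gt_mem_nhds hε)
    filter_upwards [h2] with r hr
    rw [← E_W]
    have h3 : (fun x => wq c (2 ^ r.2.1 * (t * 2 ^ r.2.2.2)) x *
          W (cwS D t r) (fun m => patf f 0 k m x)) =
        fun x => wq c (2 ^ r.2.1 * (t * 2 ^ r.2.2.2)) x * W (cwS D t r) (fun m =>
          cor (app w) k (fun i s => ((f s.1 i (OmZ s.2.2) : ℝ) : ℂ)) m x) := by
      funext x
      simp only [cor_app]
    rw [h3]
    exact hr
  rw [hU] at hS1
  obtain ⟨N, hN⟩ := hS1.exists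
  have hq : 1 ≤ N.factorial := Nat.factorial_pos N
  obtain ⟨C, _, l0, hl0⟩ := ratio hPR D N.factorial hD hq
  obtain ⟨l1, hl1⟩ := PWm_ne hPRm D N.factorial t hD hq ht
  have hB' : 0 ≤ 2 * (t : ℝ) * B + 4 * t := by positivity
  have h2 := chain_gen hPR hEnt V hV w f hf _ hB' _ (slow_div B hB c hc t ht) k D N.factorial hD hq
    ε hε
  have hfr : ∀ j i x, revf k f j i x = 0 ∨ revf k f j i x = 1 := fun j i x => hf _ _ _
  have h3 := chain_m hPR hPRm hEnt V hV w (revf k f) hfr B hB c hc k D N.factorial t hD hq ht ε hε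
  have hge : ∀ n : ℕ, ∀ᶠ i in (V : Filter ℕ), n ≤ i := fun n => hVt (eventually_ge_atTop n)
  obtain ⟨i, hi1, hi2, hi3, hi4⟩ := (hN.and (h2.and (h3.and (hge l0)))).exists
  obtain ⟨j, hj1⟩ := hi1.exists
  obtain ⟨l, hl1', hl2, hl3, hl4⟩ := (hj1.and (hi2.and (hi3.and (hge (l0 + l1))))).exists
  have n1 := (hl0 i hi4).2.1
  have n2 := (hl0 l (by omega)).2.1
  have n3 := hl1 l (by omega)
  have hcw : cwS D t (N, i, j, l) = law2 (PW D N.factorial (2 ^ i)) (PW D N.factorial (2 ^ l)) -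
      law2n (PW D N.factorial (2 ^ i)) (PWm D N.factorial (t * 2 ^ l)) := by
    unfold cwS
    exact if_pos ⟨n1, n2, n3⟩
  simp only at hl1'
  rw [hcw, W_sub, W_law2 _ _ n1 n2, W_law2n _ _ n1 n3] at hl1'
  have hw0 : (fun s : ℕ × ℕ × ℤ => wtc (fun j M => c j (M / t)) 0 s * patf f 2 k 1 s) =
      fun s => wq c t s * patf f 2 k 1 s := by
    funext s
    simp only [wtc, wq, pow_zero, Nat.div_one]
  have hw0' : (fun s : ℕ × ℕ × ℤ => wtc c 0 s * patf (revf k f) 2 k 1 s) =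
      fun s => wq c 1 s * patf (revf k f) 2 k 1 s := by
    funext s
    simp only [wtc, wq, pow_zero]
  have hw1 : ∀ s : ℕ × ℕ × ℤ, wtc (fun j M => c j (M / t)) (i + l) s =
      wq c (2 ^ i * (t * 2 ^ l)) s := by
    intro s
    simp only [wtc, wq, Nat.div_div_eq_div_mul]
    have : 2 ^ (i + l) * t = 2 ^ i * (t * 2 ^ l) := by
      rw [pow_add]
      ring
    rw [this]
  rw [hw0] at hl2
  rw [hw0'] at hl3
  simp only [hw1] at hl2
  simp only [refl w f hf B c hc] at hl3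
  set E2 := (appμ w).E (fun s => wq c t s * patf f 2 k 1 s)
  set E3 := (appμ w).E (fun s => wq c 1 s * patf (revf k f) 2 k 1 s)
  set a2 := avP (PW D N.factorial (2 ^ i)) (fun p => avP (PW D N.factorial (2 ^ l)) (fun p' =>
          (appμ w).E (fun s => wq c (2 ^ i * (t * 2 ^ l)) s * patf f 0 k ((p * p' : ℕ) : ℤ) s)))
  set a3 := avP (PW D N.factorial (2 ^ i)) (fun p => avP (PWm D N.factorial (t * 2 ^ l)) (fun p' =>
          (appμ w).E (fun s => wq c (2 ^ i * (t * 2 ^ l)) s *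
            patf f 0 k (-((p * p' : ℕ) : ℤ)) s)))
  have e : E2 - E3 = (E2 - a2) + (a2 - a3) - (E3 - a3) := by ring
  rw [e]
  have t1 := norm_sub_le ((E2 - a2) + (a2 - a3)) (E3 - a3)
  have t2 := norm_add_le (E2 - a2) (a2 - a3)
  linarith

end S6

theorem lim_rev (hPR : PR) (hPRm : PRm) (hEnt : Ent) (t : ℕ) (ht : 1 ≤ t)
    (hSt : ∀ D : ℕ, 1 ≤ D → ∀ (V : Ultrafilter ℕ) (U : Ultrafilter (ℕ × ℕ × ℕ × ℕ)), GoodU V →
      IsIter V U → ∀ k, St U (cwS D t) k)
    (w : Win) (f : ℕ → ℕ → ℕ → ℝ) (hf : ∀ j i x, f j i x = 0 ∨ f j i x = 1) (B : ℝ) (hB : 0 ≤ B)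
    (c : ℕ → ℕ → ℝ) (hc : SlowW B c) (k : ℕ) :
    (appμ w).E (fun s => wq c t s * patf f 2 k 1 s) =
      (appμ w).E (fun s => wq c 1 s * patf (revf k f) 2 k 1 s) := by
  by_contra hne
  have hδ : 0 < ‖(appμ w).E (fun s => wq c t s * patf f 2 k 1 s) -
      (appμ w).E (fun s => wq c 1 s * patf (revf k f) 2 k 1 s)‖ :=
    norm_pos_iff.2 (sub_ne_zero.2 hne)
  set δ := ‖(appμ w).E (fun s => wq c t s * patf f 2 k 1 s) -
      (appμ w).E (fun s => wq c 1 s * patf (revf k f) 2 k 1 s)‖ with hδd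
  set A : ℝ := 2 * ((2 * t * B + 4 * t) + 1) + 2 * (B + 1) with hA
  have hA0 : 0 < A := by positivity
  obtain ⟨D, hD⟩ := exists_nat_gt (4 * A / δ)
  have hD0 : (0 : ℝ) < D := lt_trans (by positivity) hD
  have hD1 : 1 ≤ D := by
    have : 0 < D := by exact_mod_cast hD0
    omega
  have h := S6.rev_close hPR hPRm hEnt t ht hSt w f hf B hB c hc k D hD1 (δ / 12) (by positivity)
  rw [← hδd, ← add_div, ← hA] at h
  have h2 : A / D < δ / 4 := by
    rw [div_lt_iff₀ hδ] at hD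
    rw [div_lt_iff₀ hD0]
    linarith
  linarith

end DG
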