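import Pool.Agent.Helper6.DG.Mean

/-!
# Project DIAG, part A: limits of means, the mean on `ℤ`, systems, box functionals
-/

set_option autoImplicit false

namespace DG

open Finset Filter Topology

section ulim

variable {ι S : Type*}

/-- the subspace of bounded functions -/
def bdSub (S : Type*) : Submodule ℂ (S → ℂ) where
  carrier := {f | Bd f}
  add_mem' := fun hf hg => hf.add hg
  zero_mem' := Bd.const 0
  smul_mem' := fun c _ hf => hf.const_mul c

theorem exists_lim (U : Ultrafilter ι) (a : ι → ℂ) {C : ℝ} (h : ∀ i, ‖a i‖ ≤ C) :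
    ∃ z : ℂ, Tendsto a U (𝓝 z) := by
  have hK : IsCompact (Metric.closedBall (0 : ℂ) C) := isCompact_closedBall 0 C
  have h1 : (U.map a : Filter ℂ) ≤ 𝓟 (Metric.closedBall (0 : ℂ) C) := by
    rw [le_principal_iff]
    refine mem_map.2 (Eventually.of_forall fun i => ?_)
    simp only [Metric.mem_closedBall, dist_zero_right]
    exact h i
  obtain ⟨z, _, hz⟩ := isCompact_iff_ultrafilter_le_nhds.1 hK (U.map a) h1
  exact ⟨z, hz⟩

theorem exists_ulim (U : Ultrafilter ι) (μ : ι → Mean S) :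
    ∃ ν : Mean S, ∀ f, Bd f → Tendsto (fun i => (μ i).E f) U (𝓝 (ν.E f)) := by
  classical
  have hex : ∀ f : bdSub S, ∃ z : ℂ, Tendsto (fun i => (μ i).E f.1) U (𝓝 z) := by
    intro f
    obtain ⟨C, hC⟩ := f.2
    exact exists_lim U _ (C := C) (fun i => (μ i).norm_E_le _ hC)
  choose L hL using hex
  let L' : bdSub S →ₗ[ℂ] ℂ :=
    { toFun := L
      map_add' := by
        intro f g
        have h1 := (hL f).add (hL g)
        refine tendsto_nhds_unique (hL (f + g)) (h1.congr fun i => ?_)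
        exact ((μ i).E.map_add f.1 g.1).symm
      map_smul' := by
        intro c f
        have h1 := (hL f).const_mul c
        refine tendsto_nhds_unique (hL (c • f)) (h1.congr fun i => ?_)
        exact ((μ i).E.map_smul c f.1).symm }
  obtain ⟨E, hE⟩ := L'.exists_extend
  have hE' : ∀ f (hf : Bd f), Tendsto (fun i => (μ i).E f) U (𝓝 (E f)) := by
    intro f hf
    have h1 : E f = L ⟨f, hf⟩ := by
      have := LinearMap.congr_fun hE ⟨f, hf⟩
      exact this
    rw [h1]
    exact hL ⟨f, hf⟩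
  refine ⟨⟨E, ?_, ?_⟩, hE'⟩
  · refine tendsto_nhds_unique (hE' _ (Bd.const 1)) ?_
    simp only [(μ _).one]
    exact tendsto_const_nhds
  · intro f h0 hC
    obtain ⟨C, hC⟩ := hC
    have hab : ∀ x, |f x| ≤ C := fun x => by rw [abs_of_nonneg (h0 x)]; exact hC x
    have h1 := hE' (fun x => (f x : ℂ)) (Bd.ofReal_of_bdd hab)
    constructor
    · have h2 := (Complex.continuous_re.tendsto _).comp h1
      exact ge_of_tendsto h2 (Eventually.of_forall fun i => ((μ i).nonneg f h0 ⟨C, hC⟩).1)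
    · have h2 := (Complex.continuous_im.tendsto _).comp h1
      refine tendsto_nhds_unique h2 ?_
      refine (tendsto_const_nhds (x := (0 : ℝ))).congr fun i => ?_
      exact ((μ i).nonneg f h0 ⟨C, hC⟩).2.symm

/-- the limit of means along an ultrafilter -/
noncomputable def ulim (U : Ultrafilter ι) (μ : ι → Mean S) : Mean S :=
  Classical.choose (exists_ulim U μ)

theorem ulim_tendsto (U : Ultrafilter ι) (μ : ι → Mean S) (f : S → ℂ) (hf : Bd f) :
    Tendsto (fun i => (μ i).E f) U (𝓝 ((ulim U μ).E f)) :=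
  Classical.choose_spec (exists_ulim U μ) f hf

end ulim

/-- The Fejér mean on `ℤ`: the average of `f (i - j)` over `i, j ≤ N`. -/
noncomputable def fej (N : ℕ) : Mean ℤ :=
  Mean.fin (range (N + 1) ×ˢ range (N + 1)) (fun _ => 1) (fun p => (p.1 : ℤ) - (p.2 : ℤ))
    (fun _ _ => zero_le_one) (by simp; positivity)

theorem fej_E (N : ℕ) (f : ℤ → ℂ) :
    (fej N).E f = (∑ i ∈ range (N + 1), ∑ j ∈ range (N + 1), f ((i : ℤ) - (j : ℤ))) /
      ((N + 1 : ℕ) : ℂ) ^ 2 := by
  unfold fej
  rw [Mean.fin_E, Finset.sum_product]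
  congr 1
  · simp
  · simp [sq]

/-- A translation invariant mean on `ℤ`, limit of Fejér means. -/
noncomputable def cz : Mean ℤ := ulim (hyperfilter ℕ) fej

theorem cz_tendsto (f : ℤ → ℂ) (hf : Bd f) :
    Tendsto (fun N => (fej N).E f) (hyperfilter ℕ : Filter ℕ) (𝓝 (cz.E f)) :=
  ulim_tendsto _ _ f hf

/-- A system: a set with a bijection and an invariant mean. -/
structure Sys where
  S : Type
  T : Equiv.Perm S
  μ : Mean S
  inv : ∀ f : S → ℂ, Bd f → μ.E (fun x => f (T x)) = μ.E f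

namespace Sys

variable (X : Sys)

theorem inv_pow (n : ℕ) (f : X.S → ℂ) (hf : Bd f) :
    X.μ.E (fun x => f ((X.T ^ n) x)) = X.μ.E f := by
  induction n with
  | zero => simp
  | succ n ih =>
    rw [← ih, ← X.inv (fun x => f ((X.T ^ n) x)) (hf.comp _)]
    rfl

theorem inv_zpow (n : ℤ) (f : X.S → ℂ) (hf : Bd f) :
    X.μ.E (fun x => f ((X.T ^ n) x)) = X.μ.E f := by
  rcases Int.eq_nat_or_neg n with ⟨m, rfl | rfl⟩
  · simpa using X.inv_pow m f hf
  · have h := X.inv_pow m (fun x => f ((X.T ^ (-(m : ℤ))) x)) (hf.comp _)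
    rw [← h]
    congr 1
    funext x
    rw [zpow_neg, zpow_natCast]
    show f ((X.T ^ m)⁻¹ ((X.T ^ m) x)) = f x
    rw [Equiv.Perm.inv_def, Equiv.symm_apply_apply]

end Sys

/-- The box functional with steps `l`: iterated means over `h` of the mean of the iterated
multiplicative differences. -/
noncomputable def box (X : Sys) : List ℤ → (X.S → ℂ) → ℂ
  | [], g => X.μ.E g
  | a :: l, g => cz.E (fun h => box X l (fun x => g x * (starRingEnd ℂ) (g ((X.T ^ (a * h)) x))))

/-- A function is `T`-invariant. -/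
def TInv (X : Sys) (C : X.S → ℂ) : Prop := ∀ x, C (X.T x) = C x

/-- Signed sum with the weights `c`. -/
noncomputable def W (c : ℤ →₀ ℝ) (a : ℤ → ℂ) : ℂ := ∑ m ∈ c.support, (c m : ℂ) * a m

/-- The `(k + 1)`-point correlation at `m`, as a function on the system:
`∏_{i ≤ k} G i (T ^ (i m) x)`. -/
noncomputable def cor (X : Sys) (k : ℕ) (G : ℕ → X.S → ℂ) (m : ℤ) (x : X.S) : ℂ :=
  ∏ i ∈ range (k + 1), G i ((X.T ^ ((i : ℤ) * m)) x)

end DG
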